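import Pool.Agent.Work.MP_3615d2_al.WeilDual

/-!
MP_3615d2_al, Part 1: a functional on the Weil representation which is fixed by a neighbourhood
of `1` in `U(X)` is smooth for the Heisenberg group.
-/

namespace SpW.P1

open Pool.Agent.SpehH Filter Topology

section alg

variable {F E : Type} [Field F] [Field E] [Algebra F E] {σ : E ≃ₐ[F] E} {δ : E} {d : F} {N : ℕ}
  {H : Matrix (Fin N) (Fin N) E}

/-- The matrix of `x ↦ x + a h(x, e_j) e_j`. -/
def qrM (H : Matrix (Fin N) (Fin N) E) (j : Fin N) (a : E) : Matrix (Fin N) (Fin N) E :=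
  1 + a • Matrix.vecMulVec (Pi.single j 1) (fun l => H l j)

theorem mat_extU {A B : Matrix (Fin N) (Fin N) E} (h : ∀ x, A.mulVec x = B.mulVec x) : A = B :=
  Matrix.toLin'.injective (LinearMap.ext fun x => by simpa using h x)

theorem sk_single (x : Fin N → E) (j : Fin N) :
    sk σ H x (Pi.single j 1) = Matrix.vecMul x H j := by
  rw [sk_eq_dot]
  have h3 : (fun k => σ ((Pi.single j (1 : E) : Fin N → E) k)) = Pi.single j 1 := by
    funext k
    by_cases hk : k = j
    · subst hk; simp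
    · simp [Pi.single_eq_of_ne hk]
  rw [h3, dotProduct_single, mul_one]

theorem qrM_mulVec (j : Fin N) (a : E) (x : Fin N → E) :
    (qrM H j a).mulVec x = x + (a * Matrix.vecMul x H j) • (Pi.single j 1 : Fin N → E) := by
  rw [qrM, Matrix.add_mulVec, Matrix.one_mulVec, Matrix.smul_mulVec, Matrix.vecMulVec_mulVec]
  congr 1
  rw [mul_smul]
  congr 1
  rw [op_smul_eq_smul]
  congr 1
  simp only [dotProduct, Matrix.vecMul]
  exact Finset.sum_congr rfl fun i _ => mul_comm _ _

theorem qrM_mul (j : Fin N) (a b : E) :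
    qrM H j a * qrM H j b = qrM H j (a + b + a * b * H j j) := by
  apply mat_extU
  intro x
  have h1 : Matrix.vecMul (Pi.single j (1 : E) : Fin N → E) H j = H j j := by
    rw [Matrix.single_one_vecMul]
    rfl
  rw [← Matrix.mulVec_mulVec, qrM_mulVec, qrM_mulVec, qrM_mulVec, Matrix.add_vecMul,
    Matrix.smul_vecMul, Pi.add_apply, Pi.smul_apply, h1, smul_eq_mul, add_assoc, ← add_smul]
  congr 2
  ring

theorem qrM_zero (j : Fin N) : qrM H j 0 = 1 := by
  rw [qrM, zero_smul, add_zero]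

/-- the parameter of the quasi-reflection -/
noncomputable def qrA (H : Matrix (Fin N) (Fin N) E) (j : Fin N) (r : F) : E :=
  (algebraMap F E r - H j j / 2)⁻¹

theorem skew_jj (hH : IsSkew σ H) (j : Fin N) : σ (H j j) = - H j j := by
  have := hH.skew j j
  rw [this, neg_neg, ← this]

theorem qr_ne (hq : QuadDatum σ δ d) (hH : IsSkew σ H) (j : Fin N) {r : F} (hr : r ≠ 0) :
    algebraMap F E r - H j j / 2 ≠ 0 := by
  intro h
  have h2 := hq.two_E
  have h1 := congrArg σ h
  rw [map_sub, map_div₀, skew_jj hH, AlgEquiv.commutes, map_zero, map_ofNat] at h1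
  have h3 : (2 : E) * algebraMap F E r = 0 := by linear_combination h + h1
  have h4 := (mul_eq_zero.1 h3).resolve_left h2
  exact hr ((map_eq_zero _).1 h4)

theorem sig_qrA (hH : IsSkew σ H) (j : Fin N) (r : F) :
    σ (qrA H j r) = - qrA H j (-r) := by
  rw [qrA, qrA, map_inv₀, map_sub, map_div₀, skew_jj hH, AlgEquiv.commutes, map_ofNat, map_neg,
    ← inv_neg]
  congr 1
  ring

theorem qrA_rel (hq : QuadDatum σ δ d) (hH : IsSkew σ H) (j : Fin N) {r : F} (hr : r ≠ 0) :
    qrA H j r + qrA H j (-r) + qrA H j r * qrA H j (-r) * H j j = 0 := by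
  have h1 := qr_ne hq hH j hr
  have h2 := qr_ne hq hH j (neg_ne_zero.2 hr)
  have h3 := hq.two_E
  rw [qrA, qrA]
  generalize h4 : algebraMap F E r - H j j / 2 = x at *
  generalize h5 : algebraMap F E (-r) - H j j / 2 = y at *
  have h6 : H j j = -(x + y) := by
    rw [← h4, ← h5, map_neg]
    field_simp
    ring
  rw [h6]
  field_simp
  ring

/-- The quasi-reflections of `U(X)`. -/
noncomputable def qrU (hq : QuadDatum σ δ d) (hH : IsSkew σ H) (j : Fin N) {r : F}
    (hr : r ≠ 0) : unitary σ H :=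
  ⟨⟨qrM H j (qrA H j r), qrM H j (qrA H j (-r)), by
      rw [qrM_mul, qrA_rel hq hH j hr, qrM_zero], by
      have := qrA_rel hq hH j (neg_ne_zero.2 hr)
      rw [neg_neg] at this
      rw [qrM_mul, this, qrM_zero]⟩, by
    intro x y
    show sk σ H ((qrM H j (qrA H j r)).mulVec x) ((qrM H j (qrA H j r)).mulVec y) = sk σ H x y
    rw [qrM_mulVec, qrM_mulVec, ← sk_single (σ := σ), ← sk_single (σ := σ), sk_add_left,
      sk_add_right, sk_add_right, sk_smul_left, sk_smul_left, sk_smul_right, sk_smul_right,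
      sk_swap hq hH y (Pi.single j 1), map_mul, sig_qrA hH, sk_single (Pi.single j 1)]
    have h1 : Matrix.vecMul (Pi.single j (1 : E) : Fin N → E) H j = H j j := by
      rw [Matrix.single_one_vecMul]
      rfl
    rw [h1]
    linear_combination (-sk σ H x (Pi.single j 1) * σ (sk σ H y (Pi.single j 1))) *
      qrA_rel hq hH j hr⟩

/-- the parameter attached to `k = h(w, e_j)` -/
noncomputable def qrR (θ : F) (k : E) : F := -(Algebra.norm F k / θ)

theorem algebraMap_qrR (hq : QuadDatum σ δ d) (θ : F) (k : E) :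
    algebraMap F E (qrR θ k) = -(k * σ k / algebraMap F E θ) := by
  rw [qrR, map_neg, map_div₀, hq.norm_eq]

theorem qrR_ne (hq : QuadDatum σ δ d) {θ : F} (hθ : θ ≠ 0) {k : E} (hk : k ≠ 0) :
    qrR θ k ≠ 0 := by
  have h1 : algebraMap F E θ ≠ 0 := fun h => hθ ((map_eq_zero _).1 h)
  have h2 : σ k ≠ 0 := fun h => hk ((map_eq_zero _).1 h)
  intro h
  have h3 := algebraMap_qrR hq θ k
  rw [h, map_zero] at h3
  have h4 : k * σ k / algebraMap F E θ = 0 := neg_eq_zero.1 h3.symm
  exact div_ne_zero (mul_ne_zero hk h2) h1 h4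

/-- `r a(r) = 1 + (h_jj / 2) a(r)` -/
theorem mul_qrA (hq : QuadDatum σ δ d) (hH : IsSkew σ H) (j : Fin N) {r : F} (hr : r ≠ 0) :
    algebraMap F E r * qrA H j r = 1 + H j j / 2 * qrA H j r := by
  have h1 := mul_inv_cancel₀ (qr_ne hq hH j hr)
  rw [← qrA] at h1
  linear_combination h1

theorem qrA_mul_k (hq : QuadDatum σ δ d) (hH : IsSkew σ H) (j : Fin N) {θ : F} (hθ : θ ≠ 0)
    {k : E} (hk : k ≠ 0) :
    qrA H j (qrR θ k) * k = (1 + H j j / 2 * qrA H j (qrR θ k)) * -(algebraMap F E θ / σ k) := by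
  have h1 : algebraMap F E θ ≠ 0 := fun h => hθ ((map_eq_zero _).1 h)
  have h2 : σ k ≠ 0 := fun h => hk ((map_eq_zero _).1 h)
  rw [← mul_qrA hq hH j (qrR_ne hq hθ hk), algebraMap_qrR hq]
  field_simp

/-- the phase -/
theorem phase_eq (hq : QuadDatum σ δ d) (hH : IsSkew σ H) (j : Fin N) {θ : F} (hθ : θ ≠ 0)
    {k : E} (hk : k ≠ 0) :
    algebraMap F E (-(Algebra.trace F E (σ (qrA H j (qrR θ k) * k) * k) / 2)) =
      algebraMap F E θ + algebraMap F E θ * H j j / 4 *
        (qrA H j (qrR θ k) + qrA H j (-qrR θ k)) := by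
  have h1 : algebraMap F E θ ≠ 0 := fun h => hθ ((map_eq_zero _).1 h)
  have h2 : σ k ≠ 0 := fun h => hk ((map_eq_zero _).1 h)
  have h3 := hq.two_E
  have h4 : (4 : E) ≠ 0 := by
    have : (4 : E) = 2 * 2 := by norm_num
    rw [this]
    exact mul_ne_zero h3 h3
  have h5 := mul_qrA hq hH j (qrR_ne hq hθ hk)
  have h6 := mul_qrA hq hH j (neg_ne_zero.2 (qrR_ne hq hθ hk))
  have h7 : k * σ k = -(algebraMap F E (qrR θ k) * algebraMap F E θ) := by
    rw [algebraMap_qrR hq]
    field_simp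
  rw [map_neg, map_div₀, hq.trace_eq, map_mul, map_mul, map_mul, sig_sig hq, sig_sig hq,
    sig_qrA hH, map_ofNat]
  rw [map_neg] at h6
  generalize qrA H j (qrR θ k) = a at *
  generalize qrA H j (-qrR θ k) = b at *
  generalize algebraMap F E (qrR θ k) = r at *
  have h8 : -(-b * σ k * k + a * k * σ k) = algebraMap F E θ * (r * a - r * b) := by
    linear_combination (b - a) * h7
  have h9 : r * a - r * b = 2 + H j j / 2 * (a + b) := by
    linear_combination h5 + h6
  rw [← neg_div, h8, h9]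
  field_simp
  ring

end alg

section top

variable {F E : Type} [NontriviallyNormedField F] [NontriviallyNormedField E] [NormedAlgebra F E]
  {σ : E ≃ₐ[F] E} {N : ℕ} {H : Matrix (Fin N) (Fin N) E}

theorem tendsto_one {ι : Type} {l : Filter ι} {u : ι → unitary σ H}
    (h1 : Tendsto (fun i => umat (u i)) l (𝓝 1))
    (h2 : Tendsto (fun i => umat (u i)⁻¹) l (𝓝 1)) : Tendsto u l (𝓝 1) := by
  rw [tendsto_subtype_rng, Units.isInducing_embedProduct.tendsto_nhds_iff]
  have h3 : Units.embedProduct (Matrix (Fin N) (Fin N) E) ((1 : unitary σ H) : GL (Fin N) E) =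
      (1, MulOpposite.op 1) := rfl
  rw [h3, nhds_prod_eq, Filter.tendsto_prod_iff']
  exact ⟨h1, (MulOpposite.continuous_op.tendsto 1).comp h2⟩

end top

section lim

variable {F E : Type} [NontriviallyNormedField F] [ProperSpace F]
  [NontriviallyNormedField E] [NormedAlgebra F E] [ProperSpace E]
  {σ : E ≃ₐ[F] E} {δ : E} {d : F} {N : ℕ} {H : Matrix (Fin N) (Fin N) E}

theorem sig_cobounded (hq : QuadDatum σ δ d) :
    Tendsto (fun k : E => σ k) (Bornology.cobounded E) (Bornology.cobounded E) := by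
  have h1 := sig_continuous hq
  let e : E ≃ₜ E :=
    { toFun := σ
      invFun := σ
      left_inv := sig_sig hq
      right_inv := sig_sig hq
      continuous_toFun := h1
      continuous_invFun := h1 }
  have h2 := e.isClosedEmbedding.tendsto_cocompact
  rw [← Metric.cobounded_eq_cocompact] at h2
  exact h2

theorem algR_cobounded (hq : QuadDatum σ δ d) {θ : F} (hθ : θ ≠ 0) :
    Tendsto (fun k : E => algebraMap F E (qrR θ k)) (Bornology.cobounded E)
      (Bornology.cobounded E) := by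
  have h1 : algebraMap F E θ ≠ 0 := fun h => hθ ((map_eq_zero _).1 h)
  rw [← tendsto_norm_atTop_iff_cobounded]
  have h2 : (fun k : E => ‖algebraMap F E (qrR θ k)‖) =
      fun k : E => ‖k‖ * ‖σ k‖ / ‖algebraMap F E θ‖ := by
    funext k
    rw [algebraMap_qrR hq, norm_neg, norm_div, norm_mul]
  rw [h2]
  have h3 := tendsto_norm_cobounded_atTop (E := E)
  have h4 := h3.comp (sig_cobounded hq)
  exact (h3.atTop_mul_atTop₀ h4).atTop_div_const (norm_pos_iff.2 h1)

omit [ProperSpace E] in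
theorem sub_cobounded {ι : Type} {l : Filter ι} {f : ι → E}
    (hf : Tendsto f l (Bornology.cobounded E)) (c : E) :
    Tendsto (fun i => f i - c) l (Bornology.cobounded E) := by
  rw [← tendsto_norm_atTop_iff_cobounded] at hf ⊢
  exact tendsto_atTop_mono (fun i => norm_sub_norm_le (f i) c)
    (tendsto_atTop_add_const_right l (-‖c‖) hf)

omit [ProperSpace E] in
theorem neg_cobounded {ι : Type} {l : Filter ι} {f : ι → E}
    (hf : Tendsto f l (Bornology.cobounded E)) :
    Tendsto (fun i => -f i) l (Bornology.cobounded E) := by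
  rw [← tendsto_norm_atTop_iff_cobounded] at hf ⊢
  simpa using hf

theorem qrA_tendsto (hq : QuadDatum σ δ d) {θ : F} (hθ : θ ≠ 0) (j : Fin N) :
    Tendsto (fun k : E => qrA H j (qrR θ k)) (Bornology.cobounded E) (𝓝 0) :=
  tendsto_inv₀_cobounded.comp (sub_cobounded (algR_cobounded hq hθ) _)

theorem qrA_tendsto' (hq : QuadDatum σ δ d) {θ : F} (hθ : θ ≠ 0) (j : Fin N) :
    Tendsto (fun k : E => qrA H j (-qrR θ k)) (Bornology.cobounded E) (𝓝 0) := by
  have h1 : (fun k : E => qrA H j (-qrR θ k)) =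
      fun k : E => (-algebraMap F E (qrR θ k) - H j j / 2)⁻¹ := by
    funext k
    rw [qrA, map_neg]
  rw [h1]
  exact tendsto_inv₀_cobounded.comp (sub_cobounded (neg_cobounded (algR_cobounded hq hθ)) _)

omit [ProperSpace E] in
theorem qrM_tendsto {ι : Type} {l : Filter ι} {f : ι → E} (hf : Tendsto f l (𝓝 0))
    (H : Matrix (Fin N) (Fin N) E) (j : Fin N) :
    Tendsto (fun i => qrM H j (f i)) l (𝓝 1) := by
  have h1 : Continuous fun a : E => qrM H j a := by
    unfold qrM
    fun_prop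
  have h2 := (h1.tendsto 0).comp hf
  rw [qrM_zero] at h2
  exact h2

omit [ProperSpace E] in
theorem ne_zero_cobounded : ∀ᶠ k : E in Bornology.cobounded E, k ≠ 0 := by
  filter_upwards [eventually_cobounded_le_norm (E := E) 1] with k hk h0
  rw [h0, norm_zero] at hk
  linarith

theorem qrA_mul_tendsto (hq : QuadDatum σ δ d) (hH : IsSkew σ H) {θ : F} (hθ : θ ≠ 0)
    (j : Fin N) :
    Tendsto (fun k : E => qrA H j (qrR θ k) * k) (Bornology.cobounded E) (𝓝 0) := by
  have h1 : Tendsto (fun k : E => (1 + H j j / 2 * qrA H j (qrR θ k)) *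
      -(algebraMap F E θ * (σ k)⁻¹)) (Bornology.cobounded E)
      (𝓝 ((1 + H j j / 2 * 0) * -(algebraMap F E θ * 0))) :=
    (((qrA_tendsto hq hθ j).const_mul _).const_add _).mul
      ((tendsto_inv₀_cobounded.comp (sig_cobounded hq)).const_mul _).neg
  rw [mul_zero, mul_zero, neg_zero, mul_zero] at h1
  refine h1.congr' ?_
  filter_upwards [ne_zero_cobounded] with k hk
  rw [qrA_mul_k hq hH j hθ hk, div_eq_mul_inv (algebraMap F E θ)]

theorem phase_tendsto (hq : QuadDatum σ δ d) (hH : IsSkew σ H) {θ : F} (hθ : θ ≠ 0)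
    (j : Fin N) :
    Tendsto (fun k : E => -(Algebra.trace F E (σ (qrA H j (qrR θ k) * k) * k) / 2))
      (Bornology.cobounded E) (𝓝 θ) := by
  have h1 : Tendsto (fun k : E => algebraMap F E θ + algebraMap F E θ * H j j / 4 *
      (qrA H j (qrR θ k) + qrA H j (-qrR θ k))) (Bornology.cobounded E)
      (𝓝 (algebraMap F E θ + algebraMap F E θ * H j j / 4 * (0 + 0))) :=
    (((qrA_tendsto hq hθ j).add (qrA_tendsto' hq hθ j)).const_mul _).const_add _
  rw [add_zero, mul_zero, add_zero] at h1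
  rw [(algebraMap_isometry F E).isEmbedding.tendsto_nhds_iff]
  refine h1.congr' ?_
  filter_upwards [ne_zero_cobounded] with k hk
  rw [Function.comp_apply, phase_eq hq hH j hθ hk]

/-- the quasi-reflections attached to `k = h(w, e_j)` tend to `1` -/
theorem qrU_tendsto (hq : QuadDatum σ δ d) (hH : IsSkew σ H) {θ : F} (hθ : θ ≠ 0)
    (j : Fin N) {P : unitary σ H → Prop} (hP : ∀ᶠ u in 𝓝 (1 : unitary σ H), P u) :
    ∀ᶠ k : E in Bornology.cobounded E, ∀ hk : k ≠ 0, P (qrU hq hH j (qrR_ne hq hθ hk)) := by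
  classical
  let u : E → unitary σ H := fun k =>
    if hk : k ≠ 0 then qrU hq hH j (qrR_ne hq hθ hk) else 1
  have hu : Tendsto u (Bornology.cobounded E) (𝓝 1) := by
    apply tendsto_one
    · refine (qrM_tendsto (qrA_tendsto (H := H) hq hθ j) H j).congr' ?_
      filter_upwards [ne_zero_cobounded] with k hk
      simp only [u, dif_pos hk]
      rfl
    · refine (qrM_tendsto (qrA_tendsto' (H := H) hq hθ j) H j).congr' ?_
      filter_upwards [ne_zero_cobounded] with k hk
      simp only [u, dif_pos hk]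
      rfl
  filter_upwards [hu.eventually hP] with k hk hk0
  simp only [u, dif_pos hk0] at hk
  exact hk

omit [ProperSpace F] in
/-- a vector with small `h(w, e_j)` is small -/
theorem bdd_of_sk (hH : IsSkew σ H) (R₀ : ℝ) :
    ∃ R : ℝ, ∀ w : Fin N → E, (∀ j, ‖sk σ H w (Pi.single j 1)‖ ≤ R₀) → ‖w‖ ≤ R := by
  have hdet : IsUnit H.det := isUnit_iff_ne_zero.2 hH.det_ne
  have h1 : Continuous fun y : Fin N → E => Matrix.vecMul y H⁻¹ := by fun_prop
  have h2 := (isCompact_closedBall (0 : Fin N → E) (max R₀ 0)).image h1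
  obtain ⟨R, hR⟩ := h2.isBounded.exists_norm_le
  refine ⟨R, fun w hw => ?_⟩
  have h3 : Matrix.vecMul (Matrix.vecMul w H) H⁻¹ = w := by
    rw [Matrix.vecMul_vecMul, Matrix.mul_nonsing_inv _ hdet, Matrix.vecMul_one]
  rw [← h3]
  refine hR _ ⟨_, ?_, rfl⟩
  rw [mem_closedBall_zero_iff]
  refine (pi_norm_le_iff_of_nonneg (le_max_right _ _)).2 fun j => ?_
  rw [← sk_single (σ := σ)]
  exact (hw j).trans (le_max_left _ _)

end lim

section weil

variable {F E : Type} [NontriviallyNormedField F] [IsUltrametricDist F] [ProperSpace F]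
  [NontriviallyNormedField E] [NormedAlgebra F E]
  [ProperSpace E] [MeasurableSpace E] [BorelSpace E]
  {σ : E ≃ₐ[F] E} {δ : E} {d : F} {N : ℕ} {H : Matrix (Fin N) (Fin N) E}
  {ψ : AddChar F Circle} {μ : Eˣ →* ℂˣ} {S : Type} [AddCommGroup S] [Module ℂ S]
  {ρ : (Fin N → E) → Module.End ℂ S} {ω : unitary σ H →* Module.End ℂ S}

omit [IsUltrametricDist F] in
/-- The matrix coefficients of a functional fixed by a neighbourhood of `1` in `U(X)` have
bounded support. -/
theorem supp_of_fixed (hW : IsWeil σ H ψ μ ρ ω) (hq : QuadDatum σ δ d) (hH : IsSkew σ H)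
    (hψ : Continuous ψ) (hψ1 : ψ ≠ 1) (ξ : S →ₗ[ℂ] ℂ)
    (h : ∀ᶠ u in 𝓝 (1 : unitary σ H), ∀ s, ξ (ω u s) = ξ s) (v : S) :
    ∃ R : ℝ, ∀ w, R < ‖w‖ → ξ (ρ w v) = 0 := by
  obtain ⟨θ, hθ1⟩ : ∃ θ : F, ψ θ ≠ 1 := by
    by_contra hc
    push Not at hc
    exact hψ1 (by ext x; rw [hc x]; rfl)
  have hθ : θ ≠ 0 := by
    rintro rfl
    exact hθ1 (AddChar.map_zero_eq_one ψ)
  obtain ⟨ε, hε, h1⟩ := Metric.eventually_nhds_iff.1 (hW.rho_smooth v)
  have h2 := h.and (hW.om_smooth v)
  have h3 : ∀ᶠ k : E in Bornology.cobounded E, ∀ j : Fin N,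
      (∀ hk : k ≠ 0, (∀ s, ξ (ω (qrU hq hH j (qrR_ne hq hθ hk)) s) = ξ s) ∧
        ω (qrU hq hH j (qrR_ne hq hθ hk)) v = v) ∧ k ≠ 0 ∧
      ‖qrA H j (qrR θ k) * k‖ < ε ∧
      ψ (-(Algebra.trace F E (σ (qrA H j (qrR θ k) * k) * k) / 2)) ≠ 1 := by
    rw [Filter.eventually_all]
    intro j
    have h4 := (qrA_mul_tendsto (H := H) hq hH hθ j).norm
    rw [norm_zero] at h4
    have h5 := (hψ.tendsto θ).comp (phase_tendsto (H := H) hq hH hθ j)
    exact (qrU_tendsto hq hH hθ j h2).and (ne_zero_cobounded.and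
      ((h4.eventually_lt_const hε).and (h5.eventually_ne hθ1)))
  obtain ⟨R₀, -, hR₀⟩ := (Filter.hasBasis_cobounded_norm (E := E)).eventually_iff.1 h3
  obtain ⟨R, hR⟩ := bdd_of_sk (σ := σ) hH R₀
  refine ⟨R, fun w hw => ?_⟩
  obtain ⟨j, hj⟩ : ∃ j, R₀ < ‖sk σ H w (Pi.single j 1)‖ := by
    by_contra hc
    push Not at hc
    exact absurd (hR w hc) (not_le.2 hw)
  obtain ⟨h6, hk, h7, h8⟩ := hR₀ (x := sk σ H w (Pi.single j 1)) hj.le j
  obtain ⟨h9, h10⟩ := h6 hk
  set k := sk σ H w (Pi.single j 1) with hkdef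
  set u := qrU hq hH j (qrR_ne hq hθ hk) with hu
  set x : Fin N → E := (qrA H j (qrR θ k) * k) • (Pi.single j 1 : Fin N → E) with hx
  have h11 : (umat u).mulVec w = w + x := by
    show (qrM H j (qrA H j (qrR θ k))).mulVec w = w + x
    rw [qrM_mulVec, ← sk_single (σ := σ)]
  have h12 : ρ x v = v := by
    apply h1
    have h20 : ‖(Pi.single j 1 : Fin N → E)‖ ≤ 1 := by
      refine (pi_norm_le_iff_of_nonneg one_pos.le).2 fun i => ?_
      by_cases hi : i = j
      · subst hi
        simp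
      · rw [Pi.single_eq_of_ne hi, norm_zero]
        exact one_pos.le
    rw [dist_zero_right, hx, norm_smul]
    exact lt_of_le_of_lt (mul_le_of_le_one_right (norm_nonneg _) h20) h7
  have h13 : symplB F σ H w x = Algebra.trace F E (σ (qrA H j (qrR θ k) * k) * k) := by
    rw [symplB_apply, sympl_eq, hx, sk_smul_right]
  have h14 : ξ (ρ w v) = ((ψ (-(Algebra.trace F E (σ (qrA H j (qrR θ k) * k) * k) / 2)) :
      Circle) : ℂ) * ξ (ρ w v) := by
    have h15 := congrArg (fun f => f v) (hW.om_rho u w)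
    simp only [Module.End.mul_apply] at h15
    calc ξ (ρ w v) = ξ (ω u (ρ w v)) := (h9 _).symm
      _ = ξ (ρ (w + x) v) := by rw [h15, h10, h11]
      _ = _ := by
          rw [rho_add hW.isHeis, h12, h13, map_smul, smul_eq_mul]
  by_contra h16
  have h17 : ((ψ (-(Algebra.trace F E (σ (qrA H j (qrR θ k) * k) * k) / 2)) :
      Circle) : ℂ) = 1 := by
    have := mul_right_cancel₀ h16 ((one_mul _).trans h14)
    exact this.symm
  exact h8 (Circle.ext (by rw [h17, Circle.coe_one]))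

/-- A functional fixed by a neighbourhood of `1` in `U(X)` is smooth for the Heisenberg group. -/
theorem mem_hDual_of_fixed (hW : IsWeil σ H ψ μ ρ ω) (hq : QuadDatum σ δ d) (hH : IsSkew σ H)
    (hψ : Continuous ψ) (hψ1 : ψ ≠ 1) (ξ : S →ₗ[ℂ] ℂ)
    (h : ∀ᶠ u in 𝓝 (1 : unitary σ H), ∀ s, ξ (ω u s) = ξ s) : ξ ∈ hDual ρ := by
  have hi := hW.isIrr
  obtain ⟨v, hv⟩ := @exists_ne S hi.1 0
  obtain ⟨R, hR⟩ := supp_of_fixed hW hq hH hψ hψ1 ξ h v
  have h1 : ∀ᶠ l in 𝓝 (0 : Fin N → E), ∀ w ∈ Metric.closedBall (0 : Fin N → E) R,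
      ψ (sympl F σ H l w) = 1 := by
    apply IsCompact.eventually_forall_of_forall_eventually
      (isCompact_closedBall (0 : Fin N → E) R)
    intro w _
    have h2 := (sympl_continuous (F := F) (H := H) hq).tendsto ((0 : Fin N → E), w)
    have h3 : sympl F σ H (0 : Fin N → E) w = 0 := by
      rw [sympl_eq, sk_zero_left, map_zero]
    simp only [h3] at h2
    exact h2.eventually (psi_eventually hψ)
  show ∀ᶠ l in 𝓝 (0 : Fin N → E), ∀ s, ξ (ρ l s) = ξ s
  filter_upwards [h1, hW.rho_smooth v] with l hl1 hl2 s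
  have h4 : ξ.comp (ρ l) = ξ := by
    apply LinearMap.ext_on_range (v := fun w => ρ w v)
    · exact span_eq_top hW.isHeis hi hv
    · intro w
      rw [LinearMap.comp_apply, hW.rho_comm hq hH, hl2, map_smul, smul_eq_mul]
      by_cases hw : R < ‖w‖
      · rw [hR w hw, mul_zero]
      · rw [hl1 w (by rw [mem_closedBall_zero_iff]; exact not_lt.1 hw), Circle.coe_one, one_mul]
  exact congrArg (fun f => f s) h4

/-- An invariant pairing of a smooth representation of `U(X)` with the Weil representation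
factors through the smooth dual of the Weil representation. -/
theorem exists_lam (hW : IsWeil σ H ψ μ ρ ω) (hq : QuadDatum σ δ d) (hH : IsSkew σ H)
    (hψ : Continuous ψ) (hψ1 : ψ ≠ 1) {V : Type} [AddCommGroup V] [Module ℂ V]
    {τ : unitary σ H →* Module.End ℂ V} (hτ : IsSmoothRep τ) (B : V →ₗ[ℂ] S →ₗ[ℂ] ℂ)
    (hB : ∀ u v s, B (τ u v) (ω u s) = B v s) :
    ∃ lam : V →ₗ[ℂ] hDual ρ, (∀ v s, (lam v).1 s = B v s) ∧
      ∀ u v, lam (τ u v) = omD hW u (lam v) := by
  have h1 : ∀ v, B v ∈ hDual ρ := by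
    intro v
    apply mem_hDual_of_fixed hW hq hH hψ hψ1
    filter_upwards [hτ v] with u hu s
    have := hB u v s
    rwa [hu] at this
  refine ⟨LinearMap.codRestrict _ B h1, fun v s => rfl, fun u v => hDual_ext fun s => ?_⟩
  rw [omD_apply]
  show B (τ u v) s = B v (ω u⁻¹ s)
  have h2 := hB u v (ω u⁻¹ s)
  rw [← Module.End.mul_apply, ← map_mul, mul_inv_cancel, map_one, Module.End.one_apply] at h2
  exact h2

omit [IsUltrametricDist F] [ProperSpace F] [ProperSpace E] [MeasurableSpace E]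
  [BorelSpace E] in
/-- The restriction to `U(X)` of a smooth representation of `GL_N(E)` is smooth. -/
theorem isSmoothRep_restrict {V : Type} [AddCommGroup V] [Module ℂ V]
    {π : GL (Fin N) E →* Module.End ℂ V} (hπ : IsSmoothRep π) :
    IsSmoothRep (π.comp (unitary σ H).subtype) := by
  intro v
  have h1 : Tendsto (fun u : unitary σ H => (u : GL (Fin N) E)) (𝓝 1) (𝓝 1) :=
    continuous_subtype_val.tendsto (1 : unitary σ H)
  exact h1.eventually (hπ v)

/-- The same for a smooth representation of `GL_N(E)`. -/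
theorem exists_lam_GL (hW : IsWeil σ H ψ μ ρ ω) (hq : QuadDatum σ δ d) (hH : IsSkew σ H)
    (hψ : Continuous ψ) (hψ1 : ψ ≠ 1) {V : Type} [AddCommGroup V] [Module ℂ V]
    {π : GL (Fin N) E →* Module.End ℂ V} (hπ : IsSmoothRep π) (B : V →ₗ[ℂ] S →ₗ[ℂ] ℂ)
    (hB : ∀ (u : unitary σ H) v s, B (π (u : GL (Fin N) E) v) (ω u s) = B v s) :
    ∃ lam : V →ₗ[ℂ] hDual ρ, (∀ v s, (lam v).1 s = B v s) ∧
      ∀ (u : unitary σ H) v, lam (π (u : GL (Fin N) E) v) = omD hW u (lam v) :=
  exists_lam hW hq hH hψ hψ1 (τ := π.comp (unitary σ H).subtype) (isSmoothRep_restrict hπ) B hB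

end weil

end SpW.P1
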