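import Pool.Agent.Work.MP_3615d2_al.P1.DefsP
import Pool.Agent.Work.MP_3615d2_al.P1.USmooth
import Pool.Agent.Work.MP_3615d2_al.WeilDual

/-!
MP_3615d2_al: multiplicity one in the Hom form (`MOHom`) and for bilinear forms (`MOForm`), and the
passage from the first to the second.
-/

open MeasureTheory Filter Topology Matrix

set_option linter.unusedSectionVars false

namespace SpW

/-- (MO), hom form, for `GL_m(E)`. -/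
def MOHom (F : Type) {E : Type} [NontriviallyNormedField F] [NontriviallyNormedField E]
    [NormedAlgebra F E] [ProperSpace E] [MeasurableSpace E] [BorelSpace E] (σ : E ≃ₐ[F] E)
    {m : ℕ} {V : Type} [AddCommGroup V] [Module ℂ V] (π : GL (Fin m) E →* Module.End ℂ V) : Prop :=
  ∀ (ψ : AddChar F Circle) (μ : Eˣ →* ℂˣ), Continuous ψ → ψ ≠ 1 → ConjSymplectic F μ →
    (∀ (H₁ H₂ : Matrix (Fin m) (Fin m) E) (S₁ S₂ : Type) [AddCommGroup S₁] [Module ℂ S₁]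
      [AddCommGroup S₂] [Module ℂ S₂] (ρ₁ : (Fin m → E) → Module.End ℂ S₁)
      (ω₁ : unitary σ H₁ →* Module.End ℂ S₁) (ρ₂ : (Fin m → E) → Module.End ℂ S₂)
      (ω₂ : unitary σ H₂ →* Module.End ℂ S₂), IsSkew σ H₁ → IsSkew σ H₂ →
      IsWeil σ H₁ ψ μ ρ₁ ω₁ → IsWeil σ H₂ ψ μ ρ₂ ω₂ → ∀ (T₁ : V →ₗ[ℂ] S₁) (T₂ : V →ₗ[ℂ] S₂),
      (∀ (u : unitary σ H₁) w, T₁ (π u.1 w) = ω₁ u (T₁ w)) →
      (∀ (u : unitary σ H₂) w, T₂ (π u.1 w) = ω₂ u (T₂ w)) → T₁ ≠ 0 → T₂ ≠ 0 →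
      ∃ g : GL (Fin m) E, (g : Matrix (Fin m) (Fin m) E).transpose * H₁ *
        (g : Matrix (Fin m) (Fin m) E).map σ = H₂) ∧
    ∀ (H : Matrix (Fin m) (Fin m) E) (S : Type) [AddCommGroup S] [Module ℂ S]
      (ρ : (Fin m → E) → Module.End ℂ S) (ω : unitary σ H →* Module.End ℂ S), IsSkew σ H →
      IsWeil σ H ψ μ ρ ω → ∀ (T₁ T₂ : V →ₗ[ℂ] S),
      (∀ (u : unitary σ H) w, T₁ (π u.1 w) = ω u (T₁ w)) →
      (∀ (u : unitary σ H) w, T₂ (π u.1 w) = ω u (T₂ w)) → T₁ ≠ 0 → ∃ c : ℂ, T₂ = c • T₁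

/-- (MO), bilinear form. -/
def MOForm (F : Type) {E : Type} [NontriviallyNormedField F] [NontriviallyNormedField E]
    [NormedAlgebra F E] [ProperSpace E] [MeasurableSpace E] [BorelSpace E] (σ : E ≃ₐ[F] E)
    {m : ℕ} {V : Type} [AddCommGroup V] [Module ℂ V] (π : GL (Fin m) E →* Module.End ℂ V) : Prop :=
  ∀ (ψ : AddChar F Circle) (μ : Eˣ →* ℂˣ), Continuous ψ → ψ ≠ 1 → ConjSymplectic F μ →
    (∀ (H₁ H₂ : Matrix (Fin m) (Fin m) E) (S₁ S₂ : Type) [AddCommGroup S₁] [Module ℂ S₁]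
      [AddCommGroup S₂] [Module ℂ S₂] (ρ₁ : (Fin m → E) → Module.End ℂ S₁)
      (ω₁ : unitary σ H₁ →* Module.End ℂ S₁) (ρ₂ : (Fin m → E) → Module.End ℂ S₂)
      (ω₂ : unitary σ H₂ →* Module.End ℂ S₂), IsSkew σ H₁ → IsSkew σ H₂ →
      IsWeil σ H₁ ψ μ ρ₁ ω₁ → IsWeil σ H₂ ψ μ ρ₂ ω₂ →
      ∀ (β₁ : V →ₗ[ℂ] S₁ →ₗ[ℂ] ℂ) (β₂ : V →ₗ[ℂ] S₂ →ₗ[ℂ] ℂ),
      InvForm σ H₁ π ω₁ β₁ → InvForm σ H₂ π ω₂ β₂ → β₁ ≠ 0 → β₂ ≠ 0 →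
      ∃ g : GL (Fin m) E, GM σ H₁ g = H₂) ∧
    ∀ (H : Matrix (Fin m) (Fin m) E) (S : Type) [AddCommGroup S] [Module ℂ S]
      (ρ : (Fin m → E) → Module.End ℂ S) (ω : unitary σ H →* Module.End ℂ S), IsSkew σ H →
      IsWeil σ H ψ μ ρ ω → ∀ (β₁ β₂ : V →ₗ[ℂ] S →ₗ[ℂ] ℂ), InvForm σ H π ω β₁ →
      InvForm σ H π ω β₂ → β₁ ≠ 0 → ∃ c : ℂ, β₂ = c • β₁

variable {F E : Type} [NontriviallyNormedField F] [IsUltrametricDist F] [ProperSpace F]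
  [NontriviallyNormedField E] [NormedAlgebra F E] [IsUltrametricDist E] [ProperSpace E]
  [MeasurableSpace E] [BorelSpace E] {m : ℕ} {V : Type} [AddCommGroup V] [Module ℂ V]
  {σ : E ≃ₐ[F] E} {δ : E} {d : F}

theorem moForm_of_moHom (hq : QuadDatum σ δ d) {π : GL (Fin m) E →* Module.End ℂ V}
    (hπ : IsSmoothRep π) (h : MOHom F σ π) : MOForm F σ π := by
  intro ψ μ hψ hψ1 hμ
  obtain ⟨ha, hb⟩ := h ψ⁻¹ μ⁻¹ (by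
    have h1 : ((ψ⁻¹ : AddChar F Circle) : F → Circle) = fun x => (ψ x)⁻¹ := by
      funext x
      exact AddChar.inv_apply' ψ x
    rw [h1]
    exact hψ.inv) (inv_char_ne hψ1) (conjSymplectic_inv hμ)
  constructor
  · intro H₁ H₂ S₁ S₂ _ _ _ _ ρ₁ ω₁ ρ₂ ω₂ hH₁ hH₂ hW₁ hW₂ β₁ β₂ hβ₁ hβ₂ h1 h2
    obtain ⟨l₁, hl₁, he₁⟩ := P1.exists_lam_GL hW₁ hq hH₁ hψ hψ1 hπ β₁ hβ₁
    obtain ⟨l₂, hl₂, he₂⟩ := P1.exists_lam_GL hW₂ hq hH₂ hψ hψ1 hπ β₂ hβ₂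
    obtain ⟨g, hg⟩ := ha H₁ H₂ _ _ _ _ _ _ hH₁ hH₂ (weil_dual hW₁ hq hH₁ hψ hψ1 hμ)
      (weil_dual hW₂ hq hH₂ hψ hψ1 hμ) l₁ l₂ he₁ he₂ (by
        rintro rfl
        apply h1
        ext v s
        rw [← hl₁]
        rfl) (by
        rintro rfl
        apply h2
        ext v s
        rw [← hl₂]
        rfl)
    refine ⟨g⁻¹, ?_⟩
    rw [GM, inv_inv]
    exact hg
  · intro H S _ _ ρ ω hH hW β₁ β₂ hβ₁ hβ₂ h1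
    obtain ⟨l₁, hl₁, he₁⟩ := P1.exists_lam_GL hW hq hH hψ hψ1 hπ β₁ hβ₁
    obtain ⟨l₂, hl₂, he₂⟩ := P1.exists_lam_GL hW hq hH hψ hψ1 hπ β₂ hβ₂
    obtain ⟨c, hc⟩ := hb H _ _ _ hH (weil_dual hW hq hH hψ hψ1 hμ) l₁ l₂ he₁ he₂ (by
        rintro rfl
        apply h1
        ext v s
        rw [← hl₁]
        rfl)
    refine ⟨c, ?_⟩
    ext v s
    rw [← hl₂, hc, LinearMap.smul_apply, LinearMap.smul_apply, LinearMap.smul_apply, ← hl₁]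
    rfl

end SpW
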