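import Pool.Agent.Work.MP_3615d2_al.P1.Asm
import Pool.Agent.Work.MP_3615d2_al.P1.MOForm

/-!
MP_3615d2_al: the theorem for all `m` and all `X`, given multiplicity one for `GL_m(E)`.
-/

open MeasureTheory Filter Topology Matrix
open scoped TensorProduct

namespace SpW

variable {F E : Type} [NontriviallyNormedField F] [IsUltrametricDist F] [ProperSpace F]
  [NontriviallyNormedField E] [NormedAlgebra F E] [IsUltrametricDist E] [ProperSpace E]
  [MeasurableSpace E] [BorelSpace E]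
  {σ : E ≃ₐ[F] E} {δ : E} {d : F} {ψ : AddChar F Circle} {μ : Eˣ →* ℂˣ}
  {m : ℕ} {V W₀ S : Type}
  [AddCommGroup V] [Module ℂ V] [AddCommGroup W₀] [Module ℂ W₀] [AddCommGroup S] [Module ℂ S]

/-- The smooth dual separates points. -/
private theorem hDual_sep {N : ℕ} {H : Matrix (Fin N) (Fin N) E}
    {ρ : (Fin N → E) → Module.End ℂ S}
    {ω : unitary σ H →* Module.End ℂ S} (hW : IsWeil σ H ψ μ ρ ω) (hq : QuadDatum σ δ d)
    (hH : IsSkew σ H) (hψ : Continuous ψ) (hψ1 : ψ ≠ 1) {v : S}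
    (hv : ∀ ξ : hDual ρ, ξ.1 v = 0) : v = 0 := by
  let V : Submodule ℂ S :=
    { carrier := {v | ∀ ξ : hDual ρ, ξ.1 v = 0}
      add_mem' := by
        intro a b ha hb ξ
        rw [map_add, ha ξ, hb ξ, add_zero]
      zero_mem' := by
        intro ξ
        rw [map_zero]
      smul_mem' := by
        intro c a ha ξ
        rw [map_smul, ha ξ, smul_zero] }
  have hV : ∀ w, ∀ v ∈ V, ρ w v ∈ V := by
    intro w v hv ξ
    have h1 := hv (rhoD hW hq hH hψ (-w) ξ)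
    rw [rhoD_apply, neg_neg] at h1
    exact h1
  rcases hW.rho_irr V hV with h | h
  · have : v ∈ V := hv
    rw [h] at this
    exact (Submodule.mem_bot ℂ).1 this
  · exfalso
    have := hDual_nontrivial hW hq hH hψ hψ1
    obtain ⟨ξ, hξ⟩ := exists_ne (0 : hDual ρ)
    apply hξ
    refine hDual_ext fun x => ?_
    have hx : x ∈ V := by rw [h]; trivial
    exact hx ξ

theorem speh_weil_all (hq : QuadDatum σ δ d) (hm : 0 < m) (hψ : Continuous ψ) (hψ1 : ψ ≠ 1)
    (hμ : ConjSymplectic F μ) {ψE : AddChar E Circle} (hψE : Continuous ψE) (hψE1 : ψE ≠ 1)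
    {π : GL (Fin m) E →* Module.End ℂ V} (hπ : IsSmoothRep π) (hirr : IsIrrRep π) (hc : IsCusp π)
    (hu : UnitCentral π) (hMO : MOHom F σ π)
    {τ : GL (Fin (2 * m)) E →* Module.End ℂ W₀} (hτ : IsIrrRep τ)
    (q : Ind (rho π (((m : ℝ) + 1) / 2)) →ₗ[ℂ] W₀) (hqs : Function.Surjective q)
    (hqG : ∀ g f, q (repI π g f) = τ g (q f))
    {H : Matrix (Fin (2 * m)) (Fin (2 * m)) E} (hH : IsSkew σ H)
    {ρ : (Fin (2 * m) → E) → Module.End ℂ S} {ω : unitary σ H →* Module.End ℂ S}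
    (hW : IsWeil σ H ψ μ ρ ω)
    (T : W₀ →ₗ[ℂ] S) (hT : ∀ (u : unitary σ H) w, T (τ (u : GL (Fin (2 * m)) E) w) = ω u (T w)) :
    T = 0 := by
  have hψ' : Continuous (ψ⁻¹ : AddChar F Circle) := by
    have h1 : ((ψ⁻¹ : AddChar F Circle) : F → Circle) = fun x => ψ (-x) := by
      funext x
      rfl
    rw [h1]
    exact hψ.comp continuous_neg
  have hψ1' : (ψ⁻¹ : AddChar F Circle) ≠ 1 := inv_ne_one.2 hψ1
  let β : W₀ →ₗ[ℂ] hDual ρ →ₗ[ℂ] ℂ := LinearMap.mk₂ ℂ (fun w ξ => ξ.1 (T w))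
    (fun w w' ξ => by rw [map_add, map_add]) (fun c w ξ => by rw [map_smul, map_smul])
    (fun w ξ ξ' => rfl) (fun c w ξ => rfl)
  have hβ : InvForm σ H τ (omD hW) β := by
    intro u w ξ
    show (omD hW u ξ).1 (T (τ (u : GL (Fin (2 * m)) E) w)) = ξ.1 (T w)
    rw [omD_apply, hT, ← Module.End.mul_apply, ← map_mul, inv_mul_cancel, map_one,
      Module.End.one_apply]
  have h0 : β = 0 := part1 hq hm hψ' hψ1' (conjSymplectic_inv hμ) hψE hψE1 hπ hirr hc hu
    (moForm_of_moHom hq hπ hMO) hτ q hqs hqG hH (weil_dual hW hq hH hψ hψ1 hμ) β hβ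
  apply LinearMap.ext
  intro w
  rw [LinearMap.zero_apply]
  apply hDual_sep hW hq hH hψ hψ1
  intro ξ
  exact LinearMap.congr_fun (LinearMap.congr_fun h0 w) ξ

end SpW
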