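import Pool.Agent.Work.MP_3615d2_al.P1.DefsP
import Pool.Agent.Work.MP_3615d2_al.RhoB

/-!
MP_3615d2_al, Part 1: the representations of `GL_{2m}(E)`, `GL_{3m}(E)` of the proof.
-/

open MeasureTheory Filter Topology Matrix
open scoped TensorProduct

namespace SpW

theorem m12 (m : ℕ) : m + 2 * m = 3 * m := by omega

theorem m21 (m : ℕ) : 2 * m + m = 3 * m := by omega

section defs

variable {E : Type} [NontriviallyNormedField E] [ProperSpace E] [MeasurableSpace E] [BorelSpace E]
  {m : ℕ} {V W : Type} [AddCommGroup V] [Module ℂ V] [AddCommGroup W] [Module ℂ W]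

/-- `I = π ν^{1/2} × π ν^{-1/2}`. -/
noncomputable abbrev repI (π : GL (Fin m) E →* Module.End ℂ V) :
    GL (Fin (2 * m)) E →* Module.End ℂ (Ind (rho π (((m : ℝ) + 1) / 2))) :=
  indAct (rho π (((m : ℝ) + 1) / 2))

/-- the inducing representation of `κν × B`, `B` a representation of `GL_{2m}` -/
noncomputable abbrev rKB (κ : GL (Fin m) E →* Module.End ℂ V)
    (B : GL (Fin (2 * m)) E →* Module.End ℂ W) :
    (GL (Fin m) E × GL (Fin (2 * m)) E) →* Module.End ℂ (V ⊗[ℂ] W) :=
  oten ((m : ℝ) + 1) (-((m : ℝ) / 2)) κ B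

/-- the inducing representation of `B × κν` -/
noncomputable abbrev rBK (B : GL (Fin (2 * m)) E →* Module.End ℂ W)
    (κ : GL (Fin m) E →* Module.End ℂ V) :
    (GL (Fin (2 * m)) E × GL (Fin m) E) →* Module.End ℂ (W ⊗[ℂ] V) :=
  oten ((m : ℝ) / 2) (-((m : ℝ) - 1)) B κ

end defs

section smooth

variable {E : Type} [NontriviallyNormedField E] [IsUltrametricDist E] [ProperSpace E]
  [MeasurableSpace E] [BorelSpace E] {a b : ℕ} {V W W' : Type} [AddCommGroup V] [Module ℂ V]
  [AddCommGroup W] [Module ℂ W] [AddCommGroup W'] [Module ℂ W']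

theorem oten_smoothQ {π₁ : GL (Fin a) E →* Module.End ℂ V} {π₂ : GL (Fin b) E →* Module.End ℂ W}
    (h₁ : IsSmoothRep π₁) (h₂ : IsSmoothRep π₂) (s t : ℝ) : IsSmoothRep (oten s t π₁ π₂) := by
  intro v
  have h1 : Tendsto (Prod.fst : GL (Fin a) E × GL (Fin b) E → GL (Fin a) E) (𝓝 1) (𝓝 1) :=
    continuous_fst.tendsto' _ _ rfl
  have h2 : Tendsto (Prod.snd : GL (Fin a) E × GL (Fin b) E → GL (Fin b) E) (𝓝 1) (𝓝 1) :=
    continuous_snd.tendsto' _ _ rfl
  induction v using TensorProduct.induction_on with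
  | zero => exact Eventually.of_forall fun g => map_zero _
  | tmul x y =>
    filter_upwards [h1.eventually (h₁ x), h2.eventually (h₂ y), h1.eventually ad_eventually,
      h2.eventually ad_eventually] with p hx hy ha hd
    obtain ⟨p, q⟩ := p
    rw [oten_tmul, hx, hy, ha, hd, Real.one_rpow, Real.one_rpow, mul_one, Complex.ofReal_one,
      one_smul]
  | add x y hx hy =>
    filter_upwards [hx, hy] with p h3 h4
    rw [map_add, h3, h4]

omit [IsUltrametricDist E] in
/-- `id ⊗ ι` is equivariant. -/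
theorem oten_map_rightQ {s t : ℝ} {π₁ : GL (Fin a) E →* Module.End ℂ V}
    {π₂ : GL (Fin b) E →* Module.End ℂ W} {π₂' : GL (Fin b) E →* Module.End ℂ W'}
    {ι : W' →ₗ[ℂ] W} (hι : ∀ g w, ι (π₂' g w) = π₂ g (ι w)) (p : GL (Fin a) E × GL (Fin b) E)
    (w : V ⊗[ℂ] W') : TensorProduct.map (LinearMap.id (M := V) (R := ℂ)) ι (oten s t π₁ π₂' p w) =
      oten s t π₁ π₂ p (TensorProduct.map LinearMap.id ι w) := by
  obtain ⟨p, q⟩ := p
  induction w using TensorProduct.induction_on with
  | zero => simp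
  | tmul x y =>
    rw [oten_tmul, map_smul, TensorProduct.map_tmul, TensorProduct.map_tmul, oten_tmul,
      LinearMap.id_apply, LinearMap.id_apply, hι]
  | add a b ha hb => rw [map_add, map_add, map_add, map_add, ha, hb]

omit [IsUltrametricDist E] in
/-- `ι ⊗ id` is equivariant. -/
theorem oten_map_leftQ {s t : ℝ} {π₁ : GL (Fin a) E →* Module.End ℂ W}
    {π₁' : GL (Fin a) E →* Module.End ℂ W'} {π₂ : GL (Fin b) E →* Module.End ℂ V}
    {ι : W' →ₗ[ℂ] W} (hι : ∀ g w, ι (π₁' g w) = π₁ g (ι w)) (p : GL (Fin a) E × GL (Fin b) E)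
    (w : W' ⊗[ℂ] V) : TensorProduct.map ι (LinearMap.id (M := V) (R := ℂ)) (oten s t π₁' π₂ p w) =
      oten s t π₁ π₂ p (TensorProduct.map ι LinearMap.id w) := by
  obtain ⟨p, q⟩ := p
  induction w using TensorProduct.induction_on with
  | zero => simp
  | tmul x y =>
    rw [oten_tmul, map_smul, TensorProduct.map_tmul, TensorProduct.map_tmul, oten_tmul,
      LinearMap.id_apply, LinearMap.id_apply, hι]
  | add a b ha hb => rw [map_add, map_add, map_add, map_add, ha, hb]

end smooth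

end SpW
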