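import Pool.Agent.Work.MP_3615d2_al.Co.IndAB
import Pool.Agent.Work.MP_3615d2_al.HermClass

/-!
MP_3615d2_al, Part 1: definitions shared by the modules (invariant forms, twisted outer tensor
products, functoriality of induction, the conjugate representation `kap`, Gram matrices).
-/

open MeasureTheory Matrix Filter Topology
open scoped NNReal TensorProduct

set_option linter.unusedSectionVars false

namespace SpW

/-! ### Invariant forms -/

section inv

variable {F E : Type} [Field F] [Field E] [Algebra F E] {V V' S : Type}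
  [AddCommGroup V] [Module ℂ V] [AddCommGroup V'] [Module ℂ V'] [AddCommGroup S] [Module ℂ S]

/-- `β` is a bilinear form on `V × S` invariant under `U(H)`: `β(π(u)v, ω(u)s) = β(v,s)`. -/
def InvForm (σ : E ≃ₐ[F] E) {N : ℕ} (H : Matrix (Fin N) (Fin N) E)
    (π : GL (Fin N) E →* Module.End ℂ V) (ω : unitary σ H →* Module.End ℂ S)
    (β : V →ₗ[ℂ] S →ₗ[ℂ] ℂ) : Prop :=
  ∀ (u : unitary σ H) v s, β (π (u : GL (Fin N) E) v) (ω u s) = β v s

variable {σ : E ≃ₐ[F] E} {N : ℕ} {H : Matrix (Fin N) (Fin N) E}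
  {π : GL (Fin N) E →* Module.End ℂ V} {π' : GL (Fin N) E →* Module.End ℂ V'}
  {ω : unitary σ H →* Module.End ℂ S}

theorem InvForm.add {β β' : V →ₗ[ℂ] S →ₗ[ℂ] ℂ} (h : InvForm σ H π ω β) (h' : InvForm σ H π ω β') :
    InvForm σ H π ω (β + β') := by
  intro u v s
  rw [LinearMap.add_apply, LinearMap.add_apply, LinearMap.add_apply, LinearMap.add_apply, h, h']

theorem InvForm.smul {β : V →ₗ[ℂ] S →ₗ[ℂ] ℂ} (h : InvForm σ H π ω β) (c : ℂ) :
    InvForm σ H π ω (c • β) := by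
  intro u v s
  rw [LinearMap.smul_apply, LinearMap.smul_apply, LinearMap.smul_apply, LinearMap.smul_apply, h]

/-- composition with an equivariant map -/
theorem InvForm.comp {β : V →ₗ[ℂ] S →ₗ[ℂ] ℂ} (h : InvForm σ H π ω β) (Φ : V' →ₗ[ℂ] V)
    (hΦ : ∀ g v, Φ (π' g v) = π g (Φ v)) : InvForm σ H π' ω (β.comp Φ) := by
  intro u v s
  rw [LinearMap.comp_apply, LinearMap.comp_apply, hΦ, h]

end inv

/-! ### Gram matrices -/

section gram

variable {F E : Type} [Field F] [Field E] [Algebra F E] {N : ℕ}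

/-- The Gram matrix `g⁻ᵀ H σ(g⁻¹)` of the basis `g⁻¹ e_i`. -/
def GM (σ : E ≃ₐ[F] E) (H : Matrix (Fin N) (Fin N) E) (g : GL (Fin N) E) :
    Matrix (Fin N) (Fin N) E :=
  ((g⁻¹ : GL (Fin N) E) : Matrix (Fin N) (Fin N) E).transpose * H *
    ((g⁻¹ : GL (Fin N) E) : Matrix (Fin N) (Fin N) E).map σ

theorem sk_eq_dotP {n : ℕ} (σ : E → E) (H : Matrix (Fin n) (Fin n) E) (x y : Fin n → E) :
    sk σ H x y = x ⬝ᵥ H.mulVec (fun j => σ (y j)) := by
  unfold sk dotProduct Matrix.mulVec dotProduct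
  refine Finset.sum_congr rfl fun i _ => ?_
  rw [Finset.mul_sum]
  refine Finset.sum_congr rfl fun j _ => ?_
  ring

theorem mulVec_sig (σ : E ≃ₐ[F] E) (A : Matrix (Fin N) (Fin N) E) (y : Fin N → E) :
    (fun j => σ (A.mulVec y j)) = (A.map σ).mulVec (fun j => σ (y j)) := by
  funext j
  simp [Matrix.mulVec, dotProduct, map_sum, map_mul]

/-- `sk (AᵀHσ(A)) x y = sk H (Ax) (Ay)`. -/
theorem sk_conj (σ : E ≃ₐ[F] E) (H A : Matrix (Fin N) (Fin N) E) (x y : Fin N → E) :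
    sk σ (A.transpose * H * A.map σ) x y = sk σ H (A.mulVec x) (A.mulVec y) := by
  rw [sk_eq_dotP, sk_eq_dotP, mulVec_sig, ← Matrix.mulVec_mulVec, ← Matrix.mulVec_mulVec,
    Matrix.dotProduct_mulVec, Matrix.vecMul_transpose]

theorem sk_GM (σ : E ≃ₐ[F] E) (H : Matrix (Fin N) (Fin N) E) (g : GL (Fin N) E)
    (x y : Fin N → E) : sk σ (GM σ H g) x y =
      sk σ H (((g⁻¹ : GL (Fin N) E) : Matrix (Fin N) (Fin N) E).mulVec x)
        (((g⁻¹ : GL (Fin N) E) : Matrix (Fin N) (Fin N) E).mulVec y) :=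
  sk_conj σ H _ x y

theorem sk_GM' (σ : E ≃ₐ[F] E) (H : Matrix (Fin N) (Fin N) E) (g : GL (Fin N) E)
    (x y : Fin N → E) : sk σ (GM σ H g) ((g : Matrix (Fin N) (Fin N) E).mulVec x)
      ((g : Matrix (Fin N) (Fin N) E).mulVec y) = sk σ H x y := by
  rw [sk_GM, Matrix.mulVec_mulVec, Matrix.mulVec_mulVec, ← Units.val_mul, inv_mul_cancel,
    Units.val_one, Matrix.one_mulVec, Matrix.one_mulVec]

theorem map_mulσ (σ : E ≃ₐ[F] E) {a b c : ℕ} (A : Matrix (Fin a) (Fin b) E)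
    (B : Matrix (Fin b) (Fin c) E) : (A * B).map σ = A.map σ * B.map σ := by
  ext i j
  simp [Matrix.mul_apply, map_sum, map_mul]

theorem GM_one (σ : E ≃ₐ[F] E) (H : Matrix (Fin N) (Fin N) E) : GM σ H 1 = H := by
  unfold GM
  rw [inv_one, Units.val_one, Matrix.transpose_one, Matrix.one_mul,
    Matrix.map_one σ (map_zero σ) (map_one σ), Matrix.mul_one]

/-- `GM (p g)` is the Gram matrix of `GM g` at `p`. -/
theorem GM_mul (σ : E ≃ₐ[F] E) (H : Matrix (Fin N) (Fin N) E) (p g : GL (Fin N) E) :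
    GM σ H (p * g) = GM σ (GM σ H g) p := by
  unfold GM
  rw [_root_.mul_inv_rev, Units.val_mul, Matrix.transpose_mul, map_mulσ]
  simp only [Matrix.mul_assoc]

theorem sk_ext (σ : E ≃ₐ[F] E) {n : ℕ} {H H' : Matrix (Fin n) (Fin n) E}
    (h : ∀ x y, sk σ H x y = sk σ H' x y) : H = H' := by
  ext i j
  have h1 := h (Pi.single i 1) (Pi.single j 1)
  have h2 : ∀ K : Matrix (Fin n) (Fin n) E, sk σ K (Pi.single i 1) (Pi.single j 1) = K i j := by
    intro K
    unfold sk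
    rw [Finset.sum_eq_single i, Finset.sum_eq_single j]
    · simp
    · intro b _ hb
      rw [Pi.single_eq_of_ne hb, map_zero, mul_zero]
    · intro h0
      exact absurd (Finset.mem_univ j) h0
    · intro b _ hb
      refine Finset.sum_eq_zero fun c _ => ?_
      rw [Pi.single_eq_of_ne hb, zero_mul, zero_mul]
    · intro h0
      exact absurd (Finset.mem_univ i) h0
  rwa [h2, h2] at h1

theorem mem_unitary {σ : E ≃ₐ[F] E} {H : Matrix (Fin N) (Fin N) E} {g : GL (Fin N) E} :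
    g ∈ unitary σ H ↔ ∀ x y : Fin N → E,
      sk σ H ((g : Matrix (Fin N) (Fin N) E).mulVec x) ((g : Matrix (Fin N) (Fin N) E).mulVec y)
        = sk σ H x y := Iff.rfl

theorem mem_unitary_iff_GM {σ : E ≃ₐ[F] E} {H : Matrix (Fin N) (Fin N) E} {g : GL (Fin N) E} :
    g ∈ unitary σ H ↔ GM σ H g = H := by
  constructor
  · intro hg
    refine sk_ext σ fun x y => ?_
    rw [sk_GM]
    exact (unitary σ H).inv_mem hg x y
  · intro hg x y
    have h1 := sk_GM' σ H g x y
    rwa [hg] at h1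

theorem GM_unitary_mul {σ : E ≃ₐ[F] E} {H : Matrix (Fin N) (Fin N) E} (g u : GL (Fin N) E)
    (hu : u ∈ unitary σ H) : GM σ H (g * u) = GM σ H g := by
  rw [GM_mul, mem_unitary_iff_GM.1 hu]

/-- two elements with the same Gram matrix differ by an isometry -/
theorem inv_mul_mem_unitary {σ : E ≃ₐ[F] E} {H : Matrix (Fin N) (Fin N) E} {g g' : GL (Fin N) E}
    (h : GM σ H g = GM σ H g') : g⁻¹ * g' ∈ unitary σ H := by
  intro x y
  rw [Units.val_mul, ← Matrix.mulVec_mulVec, ← Matrix.mulVec_mulVec, ← sk_GM, h, sk_GM']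

/-- conjugation by `g` maps `U(H)` to `U(GM g)` -/
theorem conj_mem_unitary {σ : E ≃ₐ[F] E} {H : Matrix (Fin N) (Fin N) E} (g u : GL (Fin N) E) :
    g * u * g⁻¹ ∈ unitary σ (GM σ H g) ↔ u ∈ unitary σ H := by
  constructor
  · intro h x y
    have h1 := h ((g : Matrix (Fin N) (Fin N) E).mulVec x) ((g : Matrix (Fin N) (Fin N) E).mulVec y)
    rw [Matrix.mulVec_mulVec, Matrix.mulVec_mulVec, ← Units.val_mul, inv_mul_cancel_right,
      Units.val_mul, ← Matrix.mulVec_mulVec, ← Matrix.mulVec_mulVec, sk_GM', sk_GM'] at h1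
    exact h1
  · intro h x y
    rw [mul_assoc, Units.val_mul, ← Matrix.mulVec_mulVec, ← Matrix.mulVec_mulVec, sk_GM',
      Units.val_mul, ← Matrix.mulVec_mulVec, ← Matrix.mulVec_mulVec, h, sk_GM]

theorem isSkew_GM {σ : E ≃ₐ[F] E} (hσ : ∀ x, σ (σ x) = x) {H : Matrix (Fin N) (Fin N) E}
    (hH : IsSkew σ H) (g : GL (Fin N) E) : IsSkew σ (GM σ H g) where
  skew i j := by
    have h1 : ∀ x y : Fin N → E, sk σ H y x = - σ (sk σ H x y) := by
      intro x y
      unfold sk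
      rw [map_sum, ← Finset.sum_neg_distrib, Finset.sum_comm]
      refine Finset.sum_congr rfl fun i _ => ?_
      rw [map_sum, ← Finset.sum_neg_distrib]
      refine Finset.sum_congr rfl fun j _ => ?_
      rw [map_mul, map_mul, hσ, hH.skew i j]
      ring
    have h2 : ∀ (K : Matrix (Fin N) (Fin N) E) (i j : Fin N),
        sk σ K (Pi.single i 1) (Pi.single j 1) = K i j := by
      intro K i j
      unfold sk
      rw [Finset.sum_eq_single i, Finset.sum_eq_single j]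
      · simp
      · intro b _ hb
        rw [Pi.single_eq_of_ne hb, map_zero, mul_zero]
      · intro h0
        exact absurd (Finset.mem_univ j) h0
      · intro b _ hb
        refine Finset.sum_eq_zero fun c _ => ?_
        rw [Pi.single_eq_of_ne hb, zero_mul, zero_mul]
      · intro h0
        exact absurd (Finset.mem_univ i) h0
    rw [← h2 (GM σ H g) j i, ← h2 (GM σ H g) i j, sk_GM, sk_GM, h1]
  det_ne := by
    have h1 : (((g⁻¹ : GL (Fin N) E) : Matrix (Fin N) (Fin N) E)).det ≠ 0 := by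
      have h0 := (Matrix.isUnit_iff_isUnit_det _).1 (Units.isUnit (g⁻¹ : GL (Fin N) E))
      exact h0.ne_zero
    have h2 : ((((g⁻¹ : GL (Fin N) E) : Matrix (Fin N) (Fin N) E)).map σ).det =
        σ (((g⁻¹ : GL (Fin N) E) : Matrix (Fin N) (Fin N) E)).det := by
      have h3 := AlgHom.map_det (σ : E →ₐ[F] E) ((g⁻¹ : GL (Fin N) E) : Matrix (Fin N) (Fin N) E)
      exact h3.symm
    unfold GM
    rw [Matrix.det_mul, Matrix.det_mul, Matrix.det_transpose, h2]
    refine mul_ne_zero (mul_ne_zero h1 hH.det_ne) ?_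
    exact (map_ne_zero_iff σ σ.injective).2 h1

end gram

/-! ### The form on `R ⊕ M₀ ⊕ R'` -/

section hyp

variable {E : Type} [Field E]

/-- The Gram matrix `(0 0 1; 0 H₀ 0; -1 0 0)` in blocks of sizes `m, n, m`, `m + n = k`,
`k + m = N`. -/
def hyp3 {m n k N : ℕ} (h1 : m + n = k) (h2 : k + m = N) (H₀ : Matrix (Fin n) (Fin n) E) :
    Matrix (Fin N) (Fin N) E :=
  Matrix.reindex (sJ h2) (sJ h2) (Matrix.fromBlocks (bmJ h1 0 0 0 H₀)
    (Matrix.reindex (sJ h1) (Equiv.refl _) (Matrix.fromRows 1 0))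
    (Matrix.reindex (Equiv.refl _) (sJ h1) (Matrix.fromCols (-1) 0)) 0)

end hyp

/-! ### Representations -/

section rep

variable {E : Type} [NontriviallyNormedField E] [ProperSpace E] [MeasurableSpace E] [BorelSpace E]
  {a b : ℕ} {V₁ V₂ : Type} [AddCommGroup V₁] [Module ℂ V₁] [AddCommGroup V₂] [Module ℂ V₂]

/-- `|det p|^s |det q|^t π₁(p) ⊗ π₂(q)` -/
noncomputable def oten (s t : ℝ) (π₁ : GL (Fin a) E →* Module.End ℂ V₁)
    (π₂ : GL (Fin b) E →* Module.End ℂ V₂) :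
    (GL (Fin a) E × GL (Fin b) E) →* Module.End ℂ (V₁ ⊗[ℂ] V₂) where
  toFun p := ((ad p.1 ^ s * ad p.2 ^ t : ℝ) : ℂ) • TensorProduct.map (π₁ p.1) (π₂ p.2)
  map_one' := by
    apply TensorProduct.ext'
    intro x y
    simp [ad_one]
  map_mul' p q := by
    apply TensorProduct.ext'
    intro x y
    simp only [Prod.fst_mul, Prod.snd_mul, ad_mul, map_mul, LinearMap.smul_apply,
      TensorProduct.map_tmul, Module.End.mul_apply, map_smul, smul_smul,
      Real.mul_rpow (ad_pos _).le (ad_pos _).le]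
    congr 1
    push_cast
    ring

theorem oten_tmul (s t : ℝ) (π₁ : GL (Fin a) E →* Module.End ℂ V₁)
    (π₂ : GL (Fin b) E →* Module.End ℂ V₂) (p : GL (Fin a) E) (q : GL (Fin b) E) (v : V₁) (w : V₂) :
    oten s t π₁ π₂ (p, q) (v ⊗ₜ w) = ((ad p ^ s * ad q ^ t : ℝ) : ℂ) • (π₁ p v ⊗ₜ[ℂ] π₂ q w) := rfl

theorem rho_eq_oten {m : ℕ} (π : GL (Fin m) E →* Module.End ℂ V₁) (s : ℝ) :
    rho π s = oten s (-s) π π := rfl

end rep

section fun_ind

variable {E : Type} [NontriviallyNormedField E] {a b N : ℕ} (h : a + b = N)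
  {W W' : Type} [AddCommGroup W] [Module ℂ W] [AddCommGroup W'] [Module ℂ W']
  {ρ : (GL (Fin a) E × GL (Fin b) E) →* Module.End ℂ W}
  {ρ' : (GL (Fin a) E × GL (Fin b) E) →* Module.End ℂ W'}

/-- Functoriality of induction. -/
def mapJ (φ : W' →ₗ[ℂ] W) (hφ : ∀ p w, φ (ρ' p w) = ρ p (φ w)) : IndJ h ρ' →ₗ[ℂ] IndJ h ρ where
  toFun f := ⟨fun g => φ ((f : GL (Fin N) E → W') g), by
    refine ⟨fun p q y g => ?_, ?_⟩
    · show φ ((f : GL (Fin N) E → W') (pelJ h p q y * g)) =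
        ρ (p, q) (φ ((f : GL (Fin N) E → W') g))
      rw [f.2.1, hφ]
    · filter_upwards [f.2.2] with k hk g
      show φ ((f : GL (Fin N) E → W') (g * k)) = φ ((f : GL (Fin N) E → W') g)
      rw [hk]⟩
  map_add' f f' := by
    apply Subtype.ext
    funext g
    exact map_add φ _ _
  map_smul' c f := by
    apply Subtype.ext
    funext g
    exact map_smul φ _ _

theorem mapJ_apply (φ : W' →ₗ[ℂ] W) (hφ : ∀ p w, φ (ρ' p w) = ρ p (φ w)) (f : IndJ h ρ')
    (g : GL (Fin N) E) : (mapJ h φ hφ f : GL (Fin N) E → W) g = φ ((f : GL (Fin N) E → W') g) :=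
  rfl

theorem mapJ_act (φ : W' →ₗ[ℂ] W) (hφ : ∀ p w, φ (ρ' p w) = ρ p (φ w)) (g : GL (Fin N) E)
    (f : IndJ h ρ') : mapJ h φ hφ (indActJ h ρ' g f) = indActJ h ρ g (mapJ h φ hφ f) := rfl

/-- for injective `φ` the image consists of the functions with values in the range of `φ` -/
theorem exists_mapJ_eq {φ : W' →ₗ[ℂ] W} (hφi : Function.Injective φ)
    (hφ : ∀ p w, φ (ρ' p w) = ρ p (φ w)) (f : IndJ h ρ)
    (hf : ∀ g, (f : GL (Fin N) E → W) g ∈ LinearMap.range φ) : ∃ f', mapJ h φ hφ f' = f := by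
  choose f' hf' using hf
  refine ⟨⟨f', ?_, ?_⟩, ?_⟩
  · intro p q y g
    apply hφi
    rw [hf', hφ, hf', f.2.1]
  · filter_upwards [f.2.2] with k hk g
    apply hφi
    rw [hf', hf', hk]
  · apply Subtype.ext
    funext g
    exact hf' g

end fun_ind

/-! ### The conjugate representation -/

section kap

variable {F E : Type} [Field F] [NontriviallyNormedField E] [Algebra F E]
  {n : ℕ} {V : Type} [AddCommGroup V] [Module ℂ V]

/-- `κ(g) = μ(det g)⁻¹ π(σ g)` -/
noncomputable def kap (σ : E ≃ₐ[F] E) (μ : Eˣ →* ℂˣ) (π : GL (Fin n) E →* Module.End ℂ V) :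
    GL (Fin n) E →* Module.End ℂ V where
  toFun g := (((μ (Matrix.GeneralLinearGroup.det g))⁻¹ : ℂˣ) : ℂ) •
    π (Matrix.GeneralLinearGroup.map (n := Fin n) (σ : E →+* E) g)
  map_one' := by
    rw [map_one, map_one, map_one, inv_one, Units.val_one, one_smul, map_one]
  map_mul' g g' := by
    rw [map_mul, map_mul, map_mul, mul_inv, Units.val_mul, map_mul, smul_mul_smul_comm]

theorem kap_apply (σ : E ≃ₐ[F] E) (μ : Eˣ →* ℂˣ) (π : GL (Fin n) E →* Module.End ℂ V)
    (g : GL (Fin n) E) (v : V) : kap σ μ π g v = (((μ (Matrix.GeneralLinearGroup.det g))⁻¹ : ℂˣ) : ℂ) •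
      π (Matrix.GeneralLinearGroup.map (n := Fin n) (σ : E →+* E) g) v := rfl

end kap

end SpW
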