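import Pool.Agent.Work.MP_3615d2_al.P1.Ev0
import Pool.Agent.Work.MP_3615d2_al.P1.DefsP

/-!
MP_3615d2_al, Part 1, EV0: the form `hyp3` in the coordinates of EV0.
-/

open scoped Matrix

set_option linter.unusedSectionVars false

namespace SpW.P1

/-- The coordinates `R + V + R'` of sizes `m`, `n`, `m`. -/
def eps3 {m n k N : ℕ} (h1 : m + n = k) (h2 : k + m = N) : Fin m ⊕ (Fin n ⊕ Fin m) ≃ Fin N :=
  (Equiv.sumAssoc (Fin m) (Fin n) (Fin m)).symm.trans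
    ((Equiv.sumCongr (sJ h1) (Equiv.refl (Fin m))).trans (sJ h2))

section

variable {m n k N : ℕ} (h1 : m + n = k) (h2 : k + m = N)

theorem eps3_r (i : Fin m) : eps3 h1 h2 (Sum.inl i) = sJ h2 (Sum.inl (sJ h1 (Sum.inl i))) := rfl

theorem eps3_v (i : Fin n) :
    eps3 h1 h2 (Sum.inr (Sum.inl i)) = sJ h2 (Sum.inl (sJ h1 (Sum.inr i))) := rfl

theorem eps3_s (i : Fin m) : eps3 h1 h2 (Sum.inr (Sum.inr i)) = sJ h2 (Sum.inr i) := rfl

variable {E : Type} [Field E]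

/-- `sk` as a sum over the coordinates. -/
theorem sk_eps {F : Type} [Field F] [Algebra F E] (σ : E ≃ₐ[F] E)
    (ε : Fin m ⊕ (Fin n ⊕ Fin m) ≃ Fin N) (H : Matrix (Fin N) (Fin N) E) (w w' : Fin N → E) :
    sk σ H w w' = ∑ x, ∑ y, w (ε x) * H (ε x) (ε y) * σ (w' (ε y)) := by
  unfold sk
  rw [← ε.sum_comp]
  exact Finset.sum_congr rfl fun x _ => (ε.sum_comp _).symm

theorem hyp3_rr (H₀ : Matrix (Fin n) (Fin n) E) (i j : Fin m) :
    hyp3 h1 h2 H₀ (eps3 h1 h2 (Sum.inl i)) (eps3 h1 h2 (Sum.inl j)) = 0 := by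
  simp [hyp3, eps3_r, bmJ]

theorem hyp3_rv (H₀ : Matrix (Fin n) (Fin n) E) (i : Fin m) (j : Fin n) :
    hyp3 h1 h2 H₀ (eps3 h1 h2 (Sum.inl i)) (eps3 h1 h2 (Sum.inr (Sum.inl j))) = 0 := by
  simp [hyp3, eps3_r, eps3_v, bmJ]

theorem hyp3_rs (H₀ : Matrix (Fin n) (Fin n) E) (i j : Fin m) :
    hyp3 h1 h2 H₀ (eps3 h1 h2 (Sum.inl i)) (eps3 h1 h2 (Sum.inr (Sum.inr j))) =
      (1 : Matrix (Fin m) (Fin m) E) i j := by
  simp [hyp3, eps3_r, eps3_s]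

theorem hyp3_vr (H₀ : Matrix (Fin n) (Fin n) E) (i : Fin n) (j : Fin m) :
    hyp3 h1 h2 H₀ (eps3 h1 h2 (Sum.inr (Sum.inl i))) (eps3 h1 h2 (Sum.inl j)) = 0 := by
  simp [hyp3, eps3_r, eps3_v, bmJ]

theorem hyp3_vv (H₀ : Matrix (Fin n) (Fin n) E) (i j : Fin n) :
    hyp3 h1 h2 H₀ (eps3 h1 h2 (Sum.inr (Sum.inl i))) (eps3 h1 h2 (Sum.inr (Sum.inl j))) =
      H₀ i j := by
  simp [hyp3, eps3_v, bmJ]

theorem hyp3_vs (H₀ : Matrix (Fin n) (Fin n) E) (i : Fin n) (j : Fin m) :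
    hyp3 h1 h2 H₀ (eps3 h1 h2 (Sum.inr (Sum.inl i))) (eps3 h1 h2 (Sum.inr (Sum.inr j))) = 0 := by
  simp [hyp3, eps3_v, eps3_s]

theorem hyp3_sr (H₀ : Matrix (Fin n) (Fin n) E) (i j : Fin m) :
    hyp3 h1 h2 H₀ (eps3 h1 h2 (Sum.inr (Sum.inr i))) (eps3 h1 h2 (Sum.inl j)) =
      -(1 : Matrix (Fin m) (Fin m) E) i j := by
  simp [hyp3, eps3_r, eps3_s]

theorem hyp3_sv (H₀ : Matrix (Fin n) (Fin n) E) (i : Fin m) (j : Fin n) :
    hyp3 h1 h2 H₀ (eps3 h1 h2 (Sum.inr (Sum.inr i))) (eps3 h1 h2 (Sum.inr (Sum.inl j))) = 0 := by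
  simp [hyp3, eps3_v, eps3_s]

theorem hyp3_ss (H₀ : Matrix (Fin n) (Fin n) E) (i j : Fin m) :
    hyp3 h1 h2 H₀ (eps3 h1 h2 (Sum.inr (Sum.inr i))) (eps3 h1 h2 (Sum.inr (Sum.inr j))) = 0 := by
  simp [hyp3, eps3_s]

/-- `hyp3` is split, with `J = 1`. -/
theorem isSplit_hyp3 {F : Type} [Field F] [Algebra F E] {σ : E ≃ₐ[F] E} {δ : E} {d : F}
    (hq : QuadDatum σ δ d) (H₀ : Matrix (Fin n) (Fin n) E) :
    IsSplit σ (eps3 h1 h2) (hyp3 h1 h2 H₀) (1 : Matrix (Fin m) (Fin m) E) H₀ where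
  det_ne := by
    rw [Matrix.det_one]
    exact one_ne_zero
  form r v s r' v' s' := by
    have e1 : ∀ (r : Fin m → E) (v : Fin n → E) (s : Fin m → E) i,
        iot (eps3 h1 h2) r v s (eps3 h1 h2 (Sum.inl i)) = r i := fun r v s i => by simp [iot]
    have e2 : ∀ (r : Fin m → E) (v : Fin n → E) (s : Fin m → E) i,
        iot (eps3 h1 h2) r v s (eps3 h1 h2 (Sum.inr (Sum.inl i))) = v i :=
      fun r v s i => by simp [iot]
    have e3 : ∀ (r : Fin m → E) (v : Fin n → E) (s : Fin m → E) i,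
        iot (eps3 h1 h2) r v s (eps3 h1 h2 (Sum.inr (Sum.inr i))) = s i :=
      fun r v s i => by simp [iot]
    rw [sk_eps σ (eps3 h1 h2)]
    simp only [Fintype.sum_sum_type, e1, e2, e3, hyp3_rr, hyp3_rv, hyp3_rs, hyp3_vr, hyp3_vv,
      hyp3_vs, hyp3_sr, hyp3_sv, hyp3_ss, mul_zero, zero_mul, Finset.sum_const_zero, zero_add,
      add_zero]
    have h3 : ∀ x y : Fin m → E, sk σ (1 : Matrix (Fin m) (Fin m) E) x y =
        ∑ i, x i * σ (y i) := by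
      intro x y
      unfold sk
      refine Finset.sum_congr rfl fun i _ => ?_
      rw [Finset.sum_eq_single i]
      · rw [Matrix.one_apply_eq, mul_one]
      · intro j _ hj
        rw [Matrix.one_apply_ne hj.symm, mul_zero, zero_mul]
      · intro h0
        exact absurd (Finset.mem_univ i) h0
    have h4 : ∀ x y : Fin m → E, ∑ i, ∑ j, x i * (1 : Matrix (Fin m) (Fin m) E) i j * σ (y j) =
        ∑ i, x i * σ (y i) := h3
    have h5 : ∀ x y : Fin m → E, ∑ i, ∑ j, x i * -(1 : Matrix (Fin m) (Fin m) E) i j * σ (y j) =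
        -∑ i, x i * σ (y i) := by
      intro x y
      rw [← h4, ← Finset.sum_neg_distrib]
      refine Finset.sum_congr rfl fun i _ => ?_
      rw [← Finset.sum_neg_distrib]
      refine Finset.sum_congr rfl fun j _ => ?_
      ring
    rw [h4, h5, h3, h3, map_sum]
    have h6 : ∑ i, σ (r' i * σ (s i)) = ∑ i, s i * σ (r' i) := by
      refine Finset.sum_congr rfl fun i _ => ?_
      rw [map_mul, sig_sig hq]
      ring
    rw [h6]
    unfold sk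
    ring

end

end SpW.P1
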