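import Pool.Agent.Work.MP_3615d2_al.WeMain

/-!
MP_3615d2_al, Part 1: orthogonal sums.  For an `E`-linear isomorphism
`e : E^n₁ × E^n₂ ≃ E^N` with `h(e x, e y) = h₁(x₁, y₁) + h₂(x₂, y₂)`, the homomorphism
`U(H₁) × U(H₂) → U(H)`.
-/

open MeasureTheory Metric Set
open scoped NNReal

namespace SpW.P1

section glue

variable {F E : Type} [Field F] [Field E] [Algebra F E] {σ : E ≃ₐ[F] E} {N n₁ n₂ : ℕ}
  {H : Matrix (Fin N) (Fin N) E} {H₁ : Matrix (Fin n₁) (Fin n₁) E}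
  {H₂ : Matrix (Fin n₂) (Fin n₂) E}

/-- The matrix of `e ∘ (a × b) ∘ e⁻¹`. -/
noncomputable def gmat (e : ((Fin n₁ → E) × (Fin n₂ → E)) ≃ₗ[E] (Fin N → E))
    (a : Matrix (Fin n₁) (Fin n₁) E) (b : Matrix (Fin n₂) (Fin n₂) E) :
    Matrix (Fin N) (Fin N) E :=
  LinearMap.toMatrix' ((e : ((Fin n₁ → E) × (Fin n₂ → E)) →ₗ[E] (Fin N → E)) ∘ₗ
    (a.mulVecLin.prodMap b.mulVecLin) ∘ₗ
      (e.symm : (Fin N → E) →ₗ[E] ((Fin n₁ → E) × (Fin n₂ → E))))

variable (e : ((Fin n₁ → E) × (Fin n₂ → E)) ≃ₗ[E] (Fin N → E))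

theorem gmat_mulVec (a : Matrix (Fin n₁) (Fin n₁) E) (b : Matrix (Fin n₂) (Fin n₂) E)
    (x : (Fin n₁ → E) × (Fin n₂ → E)) :
    (gmat e a b).mulVec (e x) = e (a.mulVec x.1, b.mulVec x.2) := by
  rw [gmat, LinearMap.toMatrix'_mulVec]
  simp

theorem mat_ext {M M' : Matrix (Fin N) (Fin N) E}
    (h : ∀ x, M.mulVec (e x) = M'.mulVec (e x)) : M = M' := by
  refine Matrix.toLin'.injective (LinearMap.ext fun y => ?_)
  have := h (e.symm y)
  rw [e.apply_symm_apply] at this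
  rw [Matrix.toLin'_apply, Matrix.toLin'_apply]
  exact this

theorem gmat_mul (a a' : Matrix (Fin n₁) (Fin n₁) E) (b b' : Matrix (Fin n₂) (Fin n₂) E) :
    gmat e a b * gmat e a' b' = gmat e (a * a') (b * b') := by
  refine mat_ext e fun x => ?_
  rw [← Matrix.mulVec_mulVec, gmat_mulVec, gmat_mulVec, gmat_mulVec, Matrix.mulVec_mulVec,
    Matrix.mulVec_mulVec]

theorem gmat_one : gmat e 1 1 = 1 := by
  refine mat_ext e fun x => ?_
  rw [gmat_mulVec, Matrix.one_mulVec, Matrix.one_mulVec, Matrix.one_mulVec]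

theorem gmat_sub_one (a : Matrix (Fin n₁) (Fin n₁) E) (b : Matrix (Fin n₂) (Fin n₂) E) :
    gmat e a b - 1 = gmat e (a - 1) (b - 1) := by
  refine mat_ext e fun x => ?_
  rw [Matrix.sub_mulVec, gmat_mulVec, gmat_mulVec, Matrix.one_mulVec, Matrix.sub_mulVec,
    Matrix.sub_mulVec, Matrix.one_mulVec, Matrix.one_mulVec, ← map_sub]
  rfl

theorem det_gmat (a : Matrix (Fin n₁) (Fin n₁) E) (b : Matrix (Fin n₂) (Fin n₂) E) :
    (gmat e a b).det = a.det * b.det := by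
  rw [gmat, LinearMap.det_toMatrix', LinearMap.det_conj, LinearMap.det_prodMap]
  congr 1
  · exact LinearMap.det_toLin' a
  · exact LinearMap.det_toLin' b

theorem gmat_sk (he : ∀ x y, sk σ H (e x) (e y) = sk σ H₁ x.1 y.1 + sk σ H₂ x.2 y.2)
    (u₁ : unitary σ H₁) (u₂ : unitary σ H₂) (x y : Fin N → E) :
    sk σ H ((gmat e (umat u₁) (umat u₂)).mulVec x) ((gmat e (umat u₁) (umat u₂)).mulVec y) =
      sk σ H x y := by
  obtain ⟨x, rfl⟩ := e.surjective x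
  obtain ⟨y, rfl⟩ := e.surjective y
  rw [gmat_mulVec, gmat_mulVec, he, he, sk_unitary, sk_unitary]

/-- The homomorphism `U(H₁) × U(H₂) → U(H)`. -/
noncomputable def glue (he : ∀ x y, sk σ H (e x) (e y) = sk σ H₁ x.1 y.1 + sk σ H₂ x.2 y.2) :
    unitary σ H₁ × unitary σ H₂ →* unitary σ H where
  toFun p := ⟨⟨gmat e (umat p.1) (umat p.2), gmat e (umat p.1⁻¹) (umat p.2⁻¹), by
    rw [gmat_mul, umat_mul_inv, umat_mul_inv, gmat_one], by
    rw [gmat_mul, umat_inv_mul, umat_inv_mul, gmat_one]⟩, gmat_sk e he p.1 p.2⟩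
  map_one' := by
    apply Subtype.ext
    apply Units.ext
    exact gmat_one e
  map_mul' p q := by
    apply Subtype.ext
    apply Units.ext
    exact (gmat_mul e _ _ _ _).symm

theorem umat_glue (he : ∀ x y, sk σ H (e x) (e y) = sk σ H₁ x.1 y.1 + sk σ H₂ x.2 y.2)
    (p : unitary σ H₁ × unitary σ H₂) :
    umat (glue e he p) = gmat e (umat p.1) (umat p.2) := rfl

theorem glue_mulVec (he : ∀ x y, sk σ H (e x) (e y) = sk σ H₁ x.1 y.1 + sk σ H₂ x.2 y.2)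
    (p : unitary σ H₁ × unitary σ H₂) (x : (Fin n₁ → E) × (Fin n₂ → E)) :
    (umat (glue e he p)).mulVec (e x) = e ((umat p.1).mulVec x.1, (umat p.2).mulVec x.2) :=
  gmat_mulVec e _ _ x

theorem eq_glue (he : ∀ x y, sk σ H (e x) (e y) = sk σ H₁ x.1 y.1 + sk σ H₂ x.2 y.2)
    {u : unitary σ H} {u₁ : unitary σ H₁} {u₂ : unitary σ H₂}
    (h : ∀ x, (umat u).mulVec (e x) = e ((umat u₁).mulVec x.1, (umat u₂).mulVec x.2)) :
    u = glue e he (u₁, u₂) := by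
  apply Subtype.ext
  apply Units.ext
  exact mat_ext e fun x => (h x).trans (glue_mulVec e he (u₁, u₂) x).symm

theorem det_glue_sub_one (he : ∀ x y, sk σ H (e x) (e y) = sk σ H₁ x.1 y.1 + sk σ H₂ x.2 y.2)
    (p : unitary σ H₁ × unitary σ H₂) :
    (umat (glue e he p) - 1).det = (umat p.1 - 1).det * (umat p.2 - 1).det := by
  rw [umat_glue, gmat_sub_one, det_gmat]

end glue

section norm

variable {F E : Type} [NontriviallyNormedField F] [NontriviallyNormedField E] [NormedAlgebra F E]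
  {σ : E ≃ₐ[F] E} {N n₁ n₂ : ℕ}
  {H : Matrix (Fin N) (Fin N) E} {H₁ : Matrix (Fin n₁) (Fin n₁) E}
  {H₂ : Matrix (Fin n₂) (Fin n₂) E} (e : ((Fin n₁ → E) × (Fin n₂ → E)) ≃ₗ[E] (Fin N → E))

theorem cayley_glue (he : ∀ x y, sk σ H (e x) (e y) = sk σ H₁ x.1 y.1 + sk σ H₂ x.2 y.2)
    {p : unitary σ H₁ × unitary σ H₂} (h₁ : IsUnit (umat p.1 - 1)) (h₂ : IsUnit (umat p.2 - 1)) :
    cayley (umat (glue e he p)) = gmat e (cayley (umat p.1)) (cayley (umat p.2)) := by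
  have hu : IsUnit (umat (glue e he p) - 1) := by
    rw [Matrix.isUnit_iff_isUnit_det, det_glue_sub_one]
    exact ((Matrix.isUnit_iff_isUnit_det _).1 h₁).mul ((Matrix.isUnit_iff_isUnit_det _).1 h₂)
  refine hu.mul_left_injective ?_
  show cayley (umat (glue e he p)) * (umat (glue e he p) - 1) =
    gmat e (cayley (umat p.1)) (cayley (umat p.2)) * (umat (glue e he p) - 1)
  rw [cayley_mul hu, umat_glue, gmat_sub_one, gmat_mul, cayley_mul h₁, cayley_mul h₂]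
  refine mat_ext e fun x => ?_
  rw [Matrix.add_mulVec, gmat_mulVec, gmat_mulVec, Matrix.one_mulVec, Matrix.add_mulVec,
    Matrix.add_mulVec, Matrix.one_mulVec, Matrix.one_mulVec, ← map_add]
  rfl

end norm

end SpW.P1
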