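import Pool.Agent.Work.MP_3615d2_al.WeMain
import Pool.Agent.Work.MP_3615d2_al.WeilDual

/-!
MP_3615d2_al, Part 1: the normalised formula of the Weil representation for the matrix
coefficients with smooth functionals, as absolutely convergent integrals over the whole space.
-/

open MeasureTheory Metric Set
open scoped NNReal

namespace SpW.P1

section

variable {F E : Type} [NontriviallyNormedField F] [IsUltrametricDist F] [ProperSpace F]
  [NontriviallyNormedField E] [NormedAlgebra F E] [IsUltrametricDist E]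
  [ProperSpace E] [MeasurableSpace E] [BorelSpace E]
  {σ : E ≃ₐ[F] E} {δ : E} {d : F} {N : ℕ} {H : Matrix (Fin N) (Fin N) E}
  {ψ : AddChar F Circle} {μ : Eˣ →* ℂˣ} {S : Type} [AddCommGroup S] [Module ℂ S]
  {ρ : (Fin N → E) → Module.End ℂ S} {ω : unitary σ H →* Module.End ℂ S}

omit [IsUltrametricDist E] in
/-- `w ↦ ρ(w) v` is locally constant. -/
theorem rho_locConst (hW : IsWeil σ H ψ μ ρ ω) (hq : QuadDatum σ δ d)
    (hψ : Continuous ψ) (v : S) : IsLocallyConstant (fun w : Fin N → E => ρ w v) := by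
  rw [IsLocallyConstant.iff_eventually_eq]
  intro w
  have h1 : Filter.Tendsto (fun y : Fin N → E => y - w) (nhds w) (nhds 0) := by
    have h0 : Continuous fun y : Fin N → E => y - w := continuous_id.sub continuous_const
    have := h0.tendsto w
    simpa using this
  filter_upwards [h1.eventually (hW.rho_smooth v),
    h1.eventually (psi_sympl_eventually (H := H) hq hψ w (2 : F)⁻¹)] with y hy hy2
  have h3 := congrArg (fun f => f v) (hW.rho_mul w (y - w))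
  simp only [Module.End.mul_apply, LinearMap.smul_apply, add_sub_cancel] at h3
  rw [hy, hy2] at h3
  simpa using h3.symm

omit [IsUltrametricDist E] in
/-- Matrix coefficients with smooth functionals have bounded support. -/
theorem coef_supp (hW : IsWeil σ H ψ μ ρ ω) (hq : QuadDatum σ δ d) (hH : IsSkew σ H)
    (hψ1 : ψ ≠ 1) {ξ : S →ₗ[ℂ] ℂ} (hξ : ξ ∈ hDual ρ) (v : S) :
    ∃ R : ℝ, ∀ w, R < ‖w‖ → ξ (ρ w v) = 0 := by
  have hfd := hq.finite
  have h1 : ∀ᶠ w in nhds (0 : Fin N → E), ∀ v, ξ (ρ w v) = ξ v := hξ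
  obtain ⟨ε, hε, h2⟩ := Metric.eventually_nhds_iff.1 (h1.and (hW.rho_smooth v))
  obtain ⟨R, hR⟩ := exists_far hψ1 (symplB F σ H)
    (fun w hw => sympl_nondeg hq hH hw) (half_pos hε)
  refine ⟨R, fun w hw => ?_⟩
  obtain ⟨x, hx, hx1⟩ := hR w hw
  obtain ⟨h3, h4⟩ := h2 (y := x) (by
    rw [dist_zero_right]
    linarith)
  have h5 := hW.rho_comm hq hH w x v
  rw [h4] at h5
  have h6 := congrArg ξ h5
  rw [map_smul, h3, smul_eq_mul] at h6
  by_contra h7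
  apply hx1
  have h8 : ((ψ (sympl F σ H w x) : Circle) : ℂ) = 1 := by
    have := mul_right_cancel₀ h7 (h6.symm.trans (one_mul (ξ (ρ w v))).symm)
    exact this
  rwa [← Circle.coe_one, Circle.coe_inj] at h8

/-- The integrand of the normalised formula. -/
noncomputable def cf (ψ : AddChar F Circle) (σ : E ≃ₐ[F] E) {N : ℕ}
    (H c : Matrix (Fin N) (Fin N) E) (ρ : (Fin N → E) → Module.End ℂ S) (ξ : S →ₗ[ℂ] ℂ) (v : S)
    (w : Fin N → E) : ℂ :=
  ((ψ ((4 : F)⁻¹ * sympl F σ H (c.mulVec w) w) : Circle) : ℂ) * ξ (ρ w v)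

theorem cf_locConst (hW : IsWeil σ H ψ μ ρ ω) (hq : QuadDatum σ δ d)
    (hψ : Continuous ψ) (c : Matrix (Fin N) (Fin N) E) (ξ : S →ₗ[ℂ] ℂ) (v : S) :
    IsLocallyConstant (cf ψ σ H c ρ ξ v) := by
  have h1 : IsLocallyConstant fun w : Fin N → E =>
      ψ ((4 : F)⁻¹ * sympl F σ H (c.mulVec w) w) :=
    psi_locConst hψ (continuous_const.mul (sympl_cay_continuous hq c))
  exact h1.comp₂ (rho_locConst hW hq hψ v) (fun (z : Circle) (x : S) => (z : ℂ) * ξ x)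

omit [IsUltrametricDist E] in
theorem cf_supp (hW : IsWeil σ H ψ μ ρ ω) (hq : QuadDatum σ δ d) (hH : IsSkew σ H)
    (hψ1 : ψ ≠ 1) (c : Matrix (Fin N) (Fin N) E) {ξ : S →ₗ[ℂ] ℂ}
    (hξ : ξ ∈ hDual ρ) (v : S) :
    ∃ R : ℝ, ∀ w, R < ‖w‖ → cf ψ σ H c ρ ξ v w = 0 := by
  obtain ⟨R, hR⟩ := coef_supp hW hq hH hψ1 hξ v
  exact ⟨R, fun w hw => by rw [cf, hR w hw, mul_zero]⟩

theorem cf_continuous (hW : IsWeil σ H ψ μ ρ ω) (hq : QuadDatum σ δ d)
    (hψ : Continuous ψ) (c : Matrix (Fin N) (Fin N) E) (ξ : S →ₗ[ℂ] ℂ) (v : S) :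
    Continuous (cf ψ σ H c ρ ξ v) := (cf_locConst hW hq hψ c ξ v).continuous

theorem cf_compact (hW : IsWeil σ H ψ μ ρ ω) (hq : QuadDatum σ δ d) (hH : IsSkew σ H)
    (hψ1 : ψ ≠ 1) (c : Matrix (Fin N) (Fin N) E) {ξ : S →ₗ[ℂ] ℂ}
    (hξ : ξ ∈ hDual ρ) (v : S) : HasCompactSupport (cf ψ σ H c ρ ξ v) := by
  obtain ⟨R, hR⟩ := cf_supp hW hq hH hψ1 c hξ v
  refine HasCompactSupport.intro (isCompact_closedBall (0 : Fin N → E) R) fun w hw => hR w ?_
  rw [mem_closedBall_zero_iff, not_le] at hw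
  exact hw

theorem cf_integrable (hW : IsWeil σ H ψ μ ρ ω) (hq : QuadDatum σ δ d) (hH : IsSkew σ H)
    (hψ : Continuous ψ) (hψ1 : ψ ≠ 1) (c : Matrix (Fin N) (Fin N) E) {ξ : S →ₗ[ℂ] ℂ}
    (hξ : ξ ∈ hDual ρ) (v : S) :
    Integrable (cf ψ σ H c ρ ξ v) (Measure.addHaar : Measure (Fin N → E)) :=
  (cf_continuous hW hq hψ c ξ v).integrable_of_hasCompactSupport (cf_compact hW hq hH hψ1 c hξ v)

/-- The integrals over large balls are the integral over the whole space. -/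
theorem cf_ball (hW : IsWeil σ H ψ μ ρ ω) (hq : QuadDatum σ δ d) (hH : IsSkew σ H)
    (hψ1 : ψ ≠ 1) (c : Matrix (Fin N) (Fin N) E) {ξ : S →ₗ[ℂ] ℂ}
    (hξ : ξ ∈ hDual ρ) (v : S) :
    ∀ᶠ r : ℝ in Filter.atTop, ∫ w in closedBall (0 : Fin N → E) r, cf ψ σ H c ρ ξ v w
      ∂(Measure.addHaar) = ∫ w, cf ψ σ H c ρ ξ v w ∂(Measure.addHaar) := by
  obtain ⟨R, hR⟩ := cf_supp hW hq hH hψ1 c hξ v
  filter_upwards [Filter.eventually_ge_atTop R] with r hr
  refine setIntegral_eq_integral_of_forall_compl_eq_zero fun w hw => hR w ?_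
  rw [mem_closedBall_zero_iff, not_le] at hw
  exact hr.trans_lt hw

/-- The constant of the normalised formula. -/
theorem weil_int (hW : IsWeil σ H ψ μ ρ ω) (hq : QuadDatum σ δ d) (hH : IsSkew σ H)
    (hψ1 : ψ ≠ 1) :
    ∃ κ : ℂ, ∀ (g : unitary σ H) (d' : Eˣ), (d' : E) = (umat g - 1).det →
      ∀ (v : S) (ξ : S →ₗ[ℂ] ℂ), ξ ∈ hDual ρ →
      ξ (ω g v) = κ * ((μ d' : ℂˣ) : ℂ) * (((absE d') ^ (-(1 / 2) : ℝ) : ℝ) : ℂ) *
        ∫ w, cf ψ σ H (cayley (umat g)) ρ ξ v w ∂(Measure.addHaar) := by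
  obtain ⟨κ, hκ⟩ := hW.normalised
  refine ⟨κ, fun g d' hd v ξ hξ => ?_⟩
  obtain ⟨r, h1, h2⟩ := ((hκ g d' hd v ξ).and
    (cf_ball hW hq hH hψ1 (cayley (umat g)) hξ v)).exists
  rw [h1, ← h2]
  rfl

end

end SpW.P1
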