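import Pool.Agent.Work.MP_3615d2_al.P1.TensHeis
import Pool.Agent.Work.MP_3615d2_al.P1.Glue
import Pool.Agent.Work.MP_3615d2_al.P1.WeilInt

/-!
MP_3615d2_al, Part 1 (P1.1): the Weil representation of an orthogonal sum is the tensor product of
the Weil representations of the summands.
-/

open MeasureTheory Metric Set
open scoped NNReal TensorProduct

namespace SpW.P1

open Pool.Agent.SpehH

section

variable {F E : Type} [NontriviallyNormedField F] [IsUltrametricDist F] [ProperSpace F]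
  [NontriviallyNormedField E] [NormedAlgebra F E] [IsUltrametricDist E]
  [ProperSpace E] [MeasurableSpace E] [BorelSpace E]
  {σ : E ≃ₐ[F] E} {δ : E} {d : F} {N n₁ n₂ : ℕ} {H : Matrix (Fin N) (Fin N) E}
  {H₁ : Matrix (Fin n₁) (Fin n₁) E} {H₂ : Matrix (Fin n₂) (Fin n₂) E}
  {ψ : AddChar F Circle} {μ : Eˣ →* ℂˣ}
  {S : Type} [AddCommGroup S] [Module ℂ S]
  {ρ : (Fin N → E) → Module.End ℂ S} {ω : unitary σ H →* Module.End ℂ S}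
  {S₁ : Type} [AddCommGroup S₁] [Module ℂ S₁]
  {ρ₁ : (Fin n₁ → E) → Module.End ℂ S₁} {ω₁ : unitary σ H₁ →* Module.End ℂ S₁}
  {S₂ : Type} [AddCommGroup S₂] [Module ℂ S₂]
  {ρ₂ : (Fin n₂ → E) → Module.End ℂ S₂} {ω₂ : unitary σ H₂ →* Module.End ℂ S₂}

/-- The Heisenberg operators on the tensor product. -/
noncomputable def rhoT (e : ((Fin n₁ → E) × (Fin n₂ → E)) ≃ₗ[E] (Fin N → E))
    (ρ₁ : (Fin n₁ → E) → Module.End ℂ S₁) (ρ₂ : (Fin n₂ → E) → Module.End ℂ S₂)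
    (w : Fin N → E) : Module.End ℂ (S₁ ⊗[ℂ] S₂) :=
  TensorProduct.map (ρ₁ (e.symm w).1) (ρ₂ (e.symm w).2)

variable (e : ((Fin n₁ → E) × (Fin n₂ → E)) ≃ₗ[E] (Fin N → E))

omit [IsUltrametricDist F] [ProperSpace F] [IsUltrametricDist E] [ProperSpace E]
  [MeasurableSpace E] [BorelSpace E] in
theorem rhoT_tmul (x : (Fin n₁ → E) × (Fin n₂ → E)) (s₁ : S₁) (s₂ : S₂) :
    rhoT e ρ₁ ρ₂ (e x) (s₁ ⊗ₜ s₂) = ρ₁ x.1 s₁ ⊗ₜ[ℂ] ρ₂ x.2 s₂ := by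
  rw [rhoT, e.symm_apply_apply, TensorProduct.map_tmul]

omit [IsUltrametricDist F] [ProperSpace F] [IsUltrametricDist E]
  [MeasurableSpace E] [BorelSpace E] in
theorem e_symm_fst_tendsto :
    Filter.Tendsto (fun w : Fin N → E => (e.symm w).1) (nhds 0) (nhds 0) ∧
      Filter.Tendsto (fun w : Fin N → E => (e.symm w).2) (nhds 0) (nhds 0) := by
  have h : Continuous e.symm := LinearMap.continuous_of_finiteDimensional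
    (e.symm : (Fin N → E) →ₗ[E] ((Fin n₁ → E) × (Fin n₂ → E)))
  constructor
  · have h1 := (continuous_fst.comp h).tendsto 0
    rw [Function.comp_apply, map_zero] at h1
    exact h1
  · have h1 := (continuous_snd.comp h).tendsto 0
    rw [Function.comp_apply, map_zero] at h1
    exact h1

omit [IsUltrametricDist F] [ProperSpace F] [IsUltrametricDist E] in
/-- The tensor product is smooth. -/
theorem rhoT_smooth (hW₁ : IsWeil σ H₁ ψ μ ρ₁ ω₁) (hW₂ : IsWeil σ H₂ ψ μ ρ₂ ω₂)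
    (v : S₁ ⊗[ℂ] S₂) : ∀ᶠ w in nhds (0 : Fin N → E), rhoT e ρ₁ ρ₂ w v = v := by
  obtain ⟨t₁, t₂⟩ := e_symm_fst_tendsto e
  induction v using TensorProduct.induction_on with
  | zero => exact Filter.Eventually.of_forall fun w => map_zero _
  | tmul s₁ s₂ =>
    filter_upwards [t₁.eventually (hW₁.rho_smooth s₁), t₂.eventually (hW₂.rho_smooth s₂)]
      with w h1 h2
    rw [rhoT, TensorProduct.map_tmul, h1, h2]
  | add x y hx hy =>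
    filter_upwards [hx, hy] with w h1 h2
    rw [map_add, h1, h2]

omit [IsUltrametricDist F] [ProperSpace F] [IsUltrametricDist E] in
theorem rhoT_mul (he : ∀ x y, sk σ H (e x) (e y) = sk σ H₁ x.1 y.1 + sk σ H₂ x.2 y.2)
    (hW₁ : IsWeil σ H₁ ψ μ ρ₁ ω₁) (hW₂ : IsWeil σ H₂ ψ μ ρ₂ ω₂) (w w' : Fin N → E) :
    rhoT e ρ₁ ρ₂ w * rhoT e ρ₁ ρ₂ w' =
      ((ψ ((2 : F)⁻¹ * sympl F σ H w w') : Circle) : ℂ) • rhoT e ρ₁ ρ₂ (w + w') := by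
  obtain ⟨x, rfl⟩ := e.surjective w
  obtain ⟨y, rfl⟩ := e.surjective w'
  refine TensorProduct.ext' fun s₁ s₂ => ?_
  rw [Module.End.mul_apply, rhoT_tmul, rhoT_tmul, LinearMap.smul_apply, ← map_add, rhoT_tmul]
  have h1 := congrArg (fun f => f s₁) (hW₁.rho_mul x.1 y.1)
  have h2 := congrArg (fun f => f s₂) (hW₂.rho_mul x.2 y.2)
  simp only [Module.End.mul_apply, LinearMap.smul_apply] at h1 h2
  have h3 : (2 : F)⁻¹ * sympl F σ H (e x) (e y) =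
      (2 : F)⁻¹ * sympl F σ H₁ x.1 y.1 + (2 : F)⁻¹ * sympl F σ H₂ x.2 y.2 := by
    rw [sympl_eq, he, map_add, mul_add]
    rfl
  rw [h1, h2, TensorProduct.smul_tmul_smul, h3, AddChar.map_add_eq_mul, Circle.coe_mul]
  rfl

omit [IsUltrametricDist F] [ProperSpace F] [IsUltrametricDist E] in
theorem rhoT_isHeis (he : ∀ x y, sk σ H (e x) (e y) = sk σ H₁ x.1 y.1 + sk σ H₂ x.2 y.2)
    (hW₁ : IsWeil σ H₁ ψ μ ρ₁ ω₁) (hW₂ : IsWeil σ H₂ ψ μ ρ₂ ω₂) :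
    IsHeis ψ (symplB F σ H) (rhoT e ρ₁ ρ₂) where
  zero := by
    refine TensorProduct.ext' fun s₁ s₂ => ?_
    rw [← map_zero e, rhoT_tmul]
    show ρ₁ 0 s₁ ⊗ₜ[ℂ] ρ₂ 0 s₂ = s₁ ⊗ₜ[ℂ] s₂
    rw [hW₁.rho_zero, hW₂.rho_zero]
    rfl
  mul w w' := by
    rw [rhoT_mul e he hW₁ hW₂, symplB_apply, div_eq_inv_mul]
  smooth v w := by
    have h1 : Filter.Tendsto (fun a : F => a • w) (nhds 0) (nhds (0 : Fin N → E)) := by
      have : ContinuousAt (fun a : F => a • w) 0 := by fun_prop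
      simpa [ContinuousAt] using this
    have h2 := h1.eventually (rhoT_smooth e hW₁ hW₂ v)
    obtain ⟨ε, hε, h3⟩ := Metric.eventually_nhds_iff.1 h2
    refine ⟨ε / 2, by positivity, fun a ha => h3 ?_⟩
    rw [dist_zero_right]
    linarith

omit [IsUltrametricDist E] in
theorem rhoT_isIrr (hq : QuadDatum σ δ d) (hH₁ : IsSkew σ H₁) (hH₂ : IsSkew σ H₂)
    (hψ : Continuous ψ) (hψ1 : ψ ≠ 1)
    (hW₁ : IsWeil σ H₁ ψ μ ρ₁ ω₁) (hW₂ : IsWeil σ H₂ ψ μ ρ₂ ω₂) :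
    IsIrr (rhoT e ρ₁ ρ₂) := by
  have hfd := hq.finite
  have := hW₁.nontrivial
  have := hW₂.nontrivial
  refine ⟨inferInstance, fun T hT => ?_⟩
  refine tens_heis_irr hψ hψ1 hq.two hW₁.isHeis (symplB_alt hq hH₁) (symplB_nondeg hq hH₁)
    hW₁.isIrr hW₂.isHeis (symplB_alt hq hH₂) hW₂.isIrr T fun w₁ w₂ x hx => ?_
  have := hT (e (w₁, w₂)) x hx
  rwa [rhoT, e.symm_apply_apply] at this

/-- `ξ₁ ⊗ ξ₂` as a functional. -/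
noncomputable def tfun (ξ₁ : S₁ →ₗ[ℂ] ℂ) (ξ₂ : S₂ →ₗ[ℂ] ℂ) : S₁ ⊗[ℂ] S₂ →ₗ[ℂ] ℂ :=
  LinearMap.mul' ℂ ℂ ∘ₗ TensorProduct.map ξ₁ ξ₂

theorem tfun_tmul (ξ₁ : S₁ →ₗ[ℂ] ℂ) (ξ₂ : S₂ →ₗ[ℂ] ℂ) (s₁ : S₁) (s₂ : S₂) :
    tfun ξ₁ ξ₂ (s₁ ⊗ₜ s₂) = ξ₁ s₁ * ξ₂ s₂ := rfl

omit [IsUltrametricDist F] [ProperSpace F] [IsUltrametricDist E]
  [MeasurableSpace E] [BorelSpace E] in
theorem tfun_mem {j : S₁ ⊗[ℂ] S₂ ≃ₗ[ℂ] S}
    (hj : ∀ w v, j (rhoT e ρ₁ ρ₂ w v) = ρ w (j v))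
    {ξ₁ : S₁ →ₗ[ℂ] ℂ} {ξ₂ : S₂ →ₗ[ℂ] ℂ} (h₁ : ξ₁ ∈ hDual ρ₁) (h₂ : ξ₂ ∈ hDual ρ₂) :
    tfun ξ₁ ξ₂ ∘ₗ (j.symm : S →ₗ[ℂ] S₁ ⊗[ℂ] S₂) ∈ hDual ρ := by
  obtain ⟨t₁, t₂⟩ := e_symm_fst_tendsto e
  have h₁' : ∀ᶠ w in nhds (0 : Fin n₁ → E), ∀ v, ξ₁ (ρ₁ w v) = ξ₁ v := h₁
  have h₂' : ∀ᶠ w in nhds (0 : Fin n₂ → E), ∀ v, ξ₂ (ρ₂ w v) = ξ₂ v := h₂
  show ∀ᶠ w in nhds (0 : Fin N → E), ∀ v, _
  filter_upwards [t₁.eventually h₁', t₂.eventually h₂'] with w k1 k2 v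
  obtain ⟨v, rfl⟩ := j.surjective v
  rw [← hj]
  show tfun ξ₁ ξ₂ (j.symm (j (rhoT e ρ₁ ρ₂ w v))) = tfun ξ₁ ξ₂ (j.symm (j v))
  rw [j.symm_apply_apply, j.symm_apply_apply]
  induction v using TensorProduct.induction_on with
  | zero => rw [map_zero]
  | tmul s₁ s₂ =>
    rw [rhoT, TensorProduct.map_tmul, tfun_tmul, tfun_tmul, k1, k2]
  | add x y hx hy => rw [map_add, map_add, map_add, hx, hy]

omit [IsUltrametricDist F] [ProperSpace F] in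
/-- Change of variables. -/
theorem exists_cov : ∃ c : ℝ, c ≠ 0 ∧ ∀ f : (Fin N → E) → ℂ,
    ∫ x, f (e x) ∂((Measure.addHaar : Measure (Fin n₁ → E)).prod
      (Measure.addHaar : Measure (Fin n₂ → E))) = (c : ℂ) * ∫ w, f w ∂(Measure.addHaar) := by
  let L : ((Fin n₁ → E) × (Fin n₂ → E)) ≃L[E] (Fin N → E) := e.toContinuousLinearEquiv
  set ν : Measure ((Fin n₁ → E) × (Fin n₂ → E)) := (Measure.addHaar : Measure (Fin n₁ → E)).prod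
      (Measure.addHaar : Measure (Fin n₂ → E)) with hν
  have h1 : (ν.map L).IsAddHaarMeasure := ContinuousLinearEquiv.isAddHaarMeasure_map L ν
  have h2 := Measure.isAddLeftInvariant_eq_smul (ν.map L) (Measure.addHaar : Measure (Fin N → E))
  set c := Measure.addHaarScalarFactor (ν.map L) (Measure.addHaar : Measure (Fin N → E)) with hc
  have hc0 : c ≠ 0 := Measure.addHaarScalarFactor_pos_of_isAddHaarMeasure _ _ |>.ne'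
  refine ⟨c, NNReal.coe_ne_zero.2 hc0, fun f => ?_⟩
  have h3 : ∫ x, f (e x) ∂ν = ∫ w, f w ∂(ν.map L) := by
    have h4 : MeasurableEmbedding L := L.toHomeomorph.measurableEmbedding
    rw [h4.integral_map]
    rfl
  rw [h3, h2, integral_smul_nnreal_measure]
  rw [NNReal.smul_def, Complex.real_smul]

/-- The constant of the normalised formula is not zero. -/
theorem kappa_ne (hW : IsWeil σ H ψ μ ρ ω) (hq : QuadDatum σ δ d) (hH : IsSkew σ H)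
    (hψ : Continuous ψ) (hψ1 : ψ ≠ 1) {g : unitary σ H} {d' : Eˣ}
    (hd : (d' : E) = (umat g - 1).det) {κ : ℂ}
    (hκ : ∀ (g : unitary σ H) (d' : Eˣ), (d' : E) = (umat g - 1).det →
      ∀ (v : S) (ξ : S →ₗ[ℂ] ℂ), ξ ∈ hDual ρ →
      ξ (ω g v) = κ * ((μ d' : ℂˣ) : ℂ) * (((absE d') ^ (-(1 / 2) : ℝ) : ℝ) : ℂ) *
        ∫ w, cf ψ σ H (cayley (umat g)) ρ ξ v w ∂(Measure.addHaar)) :
    κ ≠ 0 ∧ ∃ (v : S) (ξ : S →ₗ[ℂ] ℂ), ξ ∈ hDual ρ ∧ ξ (ω g v) ≠ 0 := by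
  have := hDual_nontrivial hW hq hH hψ hψ1
  obtain ⟨ξ, hξ⟩ := exists_ne (0 : hDual ρ)
  have hv : ∃ v, ξ.1 v ≠ 0 := by
    by_contra! h
    exact hξ (hDual_ext h)
  obtain ⟨v, hv⟩ := hv
  have h1 : ω g (ω g⁻¹ v) = v := by
    rw [← Module.End.mul_apply, ← map_mul, mul_inv_cancel, map_one, Module.End.one_apply]
  refine ⟨?_, ω g⁻¹ v, ξ.1, ξ.2, by rwa [h1]⟩
  rintro rfl
  have h2 := hκ g d' hd (ω g⁻¹ v) ξ.1 ξ.2
  rw [h1, zero_mul, zero_mul, zero_mul] at h2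
  exact hv h2

theorem cf_glue (he : ∀ x y, sk σ H (e x) (e y) = sk σ H₁ x.1 y.1 + sk σ H₂ x.2 y.2)
    {j : S₁ ⊗[ℂ] S₂ ≃ₗ[ℂ] S} (hj : ∀ w v, j (rhoT e ρ₁ ρ₂ w v) = ρ w (j v))
    {p : unitary σ H₁ × unitary σ H₂} (h₁ : IsUnit (umat p.1 - 1)) (h₂ : IsUnit (umat p.2 - 1))
    (ξ₁ : S₁ →ₗ[ℂ] ℂ) (ξ₂ : S₂ →ₗ[ℂ] ℂ) (v₁ : S₁) (v₂ : S₂) (x : (Fin n₁ → E) × (Fin n₂ → E)) :
    cf ψ σ H (cayley (umat (glue e he p))) ρ
        (tfun ξ₁ ξ₂ ∘ₗ (j.symm : S →ₗ[ℂ] S₁ ⊗[ℂ] S₂)) (j (v₁ ⊗ₜ v₂)) (e x) =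
      cf ψ σ H₁ (cayley (umat p.1)) ρ₁ ξ₁ v₁ x.1 * cf ψ σ H₂ (cayley (umat p.2)) ρ₂ ξ₂ v₂ x.2 := by
  have h3 : (tfun ξ₁ ξ₂ ∘ₗ (j.symm : S →ₗ[ℂ] S₁ ⊗[ℂ] S₂)) (ρ (e x) (j (v₁ ⊗ₜ v₂))) =
      ξ₁ (ρ₁ x.1 v₁) * ξ₂ (ρ₂ x.2 v₂) := by
    rw [← hj, rhoT_tmul]
    show tfun ξ₁ ξ₂ (j.symm (j (ρ₁ x.1 v₁ ⊗ₜ[ℂ] ρ₂ x.2 v₂))) = _
    rw [j.symm_apply_apply, tfun_tmul]
  have h4 : (4 : F)⁻¹ * sympl F σ H ((cayley (umat (glue e he p))).mulVec (e x)) (e x) =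
      (4 : F)⁻¹ * sympl F σ H₁ ((cayley (umat p.1)).mulVec x.1) x.1 +
        (4 : F)⁻¹ * sympl F σ H₂ ((cayley (umat p.2)).mulVec x.2) x.2 := by
    rw [cayley_glue e he h₁ h₂, gmat_mulVec, sympl_eq, he, map_add, mul_add]
    rfl
  rw [cf, cf, cf, h3, h4, AddChar.map_add_eq_mul, Circle.coe_mul]
  ring

/-- **The Weil representation of an orthogonal sum.** -/
theorem weil_tens (hq : QuadDatum σ δ d) (hH : IsSkew σ H) (hH₁ : IsSkew σ H₁)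
    (hH₂ : IsSkew σ H₂) (hψ : Continuous ψ) (hψ1 : ψ ≠ 1)
    (he : ∀ x y, sk σ H (e x) (e y) = sk σ H₁ x.1 y.1 + sk σ H₂ x.2 y.2)
    (hW : IsWeil σ H ψ μ ρ ω) (hW₁ : IsWeil σ H₁ ψ μ ρ₁ ω₁) (hW₂ : IsWeil σ H₂ ψ μ ρ₂ ω₂) :
    ∃ j : S₁ ⊗[ℂ] S₂ ≃ₗ[ℂ] S,
      (∀ (x : (Fin n₁ → E) × (Fin n₂ → E)) (s₁ : S₁) (s₂ : S₂),
        ρ (e x) (j (s₁ ⊗ₜ s₂)) = j (ρ₁ x.1 s₁ ⊗ₜ ρ₂ x.2 s₂)) ∧
      ∀ (u : unitary σ H) (u₁ : unitary σ H₁) (u₂ : unitary σ H₂),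
        (∀ x : (Fin n₁ → E) × (Fin n₂ → E), (umat u).mulVec (e x) =
          e ((umat u₁).mulVec x.1, (umat u₂).mulVec x.2)) →
        ∀ (s₁ : S₁) (s₂ : S₂), ω u (j (s₁ ⊗ₜ s₂)) = j (ω₁ u₁ s₁ ⊗ₜ ω₂ u₂ s₂) := by
  have hfd := hq.finite
  have hB := symplB_alt (H := H) hq hH
  have hn := symplB_nondeg (H := H) hq hH
  obtain ⟨j, hj⟩ := stone_von_neumann hψ hψ1 hB hn hq.two
    (rhoT_isHeis e he hW₁ hW₂) (rhoT_isIrr e hq hH₁ hH₂ hψ hψ1 hW₁ hW₂) hW.isHeis hW.isIrr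
  refine ⟨j, fun x s₁ s₂ => by rw [← hj, rhoT_tmul], ?_⟩
  -- the operators of the product
  let A : unitary σ H₁ × unitary σ H₂ → Module.End ℂ S := fun p =>
    (j : S₁ ⊗[ℂ] S₂ →ₗ[ℂ] S) ∘ₗ (TensorProduct.map (ω₁ p.1) (ω₂ p.2)) ∘ₗ
      (j.symm : S →ₗ[ℂ] S₁ ⊗[ℂ] S₂)
  have hAj : ∀ p x, A p (j x) = j (TensorProduct.map (ω₁ p.1) (ω₂ p.2) x) := fun p x => by
    show j (TensorProduct.map (ω₁ p.1) (ω₂ p.2) (j.symm (j x))) = _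
    rw [j.symm_apply_apply]
  have hAmul : ∀ p q, A (p * q) = A p * A q := by
    intro p q
    ext s
    obtain ⟨x, rfl⟩ := j.surjective s
    rw [Module.End.mul_apply, hAj, hAj, hAj, ← LinearMap.comp_apply, ← TensorProduct.map_comp]
    rw [Prod.fst_mul, Prod.snd_mul, map_mul, map_mul]
    rfl
  have hArho : ∀ p w, A p * ρ w = ρ ((umat (glue e he p)).mulVec w) * A p := by
    intro p w
    ext s
    obtain ⟨x, rfl⟩ := j.surjective s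
    obtain ⟨y, rfl⟩ := e.surjective w
    rw [Module.End.mul_apply, Module.End.mul_apply, glue_mulVec, hAj, ← hj, ← hj, hAj]
    congr 1
    induction x using TensorProduct.induction_on with
    | zero => simp only [map_zero]
    | tmul s₁ s₂ =>
      have k1 := congrArg (fun f => f s₁) (hW₁.om_rho p.1 y.1)
      have k2 := congrArg (fun f => f s₂) (hW₂.om_rho p.2 y.2)
      simp only [Module.End.mul_apply] at k1 k2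
      rw [rhoT_tmul, TensorProduct.map_tmul, TensorProduct.map_tmul, rhoT_tmul, k1, k2]
    | add x y hx hy => simp only [map_add, hx, hy]
  have hinv : ∀ (g : unitary σ H) (s : S), ω g⁻¹ (ω g s) = s := fun g s => by
    rw [← Module.End.mul_apply, ← map_mul, inv_mul_cancel, map_one, Module.End.one_apply]
  have hinv' : ∀ (g : unitary σ H) (s : S), ω g (ω g⁻¹ s) = s := fun g s => by
    rw [← Module.End.mul_apply, ← map_mul, mul_inv_cancel, map_one, Module.End.one_apply]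
  -- Schur
  have hz : ∀ p, ∃ z : ℂ, ∀ s, A p s = z • ω (glue e he p) s := by
    intro p
    obtain ⟨z, hz⟩ := schur hψ hψ1 hB hn hq.two hW.isHeis hW.isIrr
      (T := ω (glue e he p)⁻¹ * A p) (fun w => by
        have k1 := hW.om_rho (glue e he p)⁻¹ ((umat (glue e he p)).mulVec w)
        rw [umat_inv_mulVec] at k1
        rw [mul_assoc, hArho, ← mul_assoc, k1, mul_assoc])
    refine ⟨z, fun s => ?_⟩
    have k2 := congrArg (fun f => ω (glue e he p) (f s)) hz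
    simp only [Module.End.mul_apply, LinearMap.smul_apply, Module.End.one_apply, map_smul] at k2
    rw [hinv'] at k2
    exact k2
  obtain ⟨κ, hκ⟩ := weil_int hW hq hH hψ1
  obtain ⟨κ₁, hκ₁⟩ := weil_int hW₁ hq hH₁ hψ1
  obtain ⟨κ₂, hκ₂⟩ := weil_int hW₂ hq hH₂ hψ1
  obtain ⟨c, hc, hcov⟩ := exists_cov e
  -- the constant on the regular elements
  have hreg : ∀ p : unitary σ H₁ × unitary σ H₂, p.1 ∈ regU σ H₁ → p.2 ∈ regU σ H₂ →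
      ∀ z : ℂ, (∀ s, A p s = z • ω (glue e he p) s) → κ₁ * κ₂ * (c : ℂ) = z * κ ∧
        κ₁ * κ₂ * (c : ℂ) ≠ 0 := by
    intro p hp₁ hp₂ z hz
    have hp₁' : (umat p.1 - 1).det ≠ 0 := hp₁
    have hp₂' : (umat p.2 - 1).det ≠ 0 := hp₂
    have hu₁ : IsUnit (umat p.1 - 1) :=
      (Matrix.isUnit_iff_isUnit_det _).2 (isUnit_iff_ne_zero.2 hp₁')
    have hu₂ : IsUnit (umat p.2 - 1) :=
      (Matrix.isUnit_iff_isUnit_det _).2 (isUnit_iff_ne_zero.2 hp₂')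
    obtain ⟨hκ₁0, v₁, ξ₁, hξ₁, hv₁⟩ := kappa_ne hW₁ hq hH₁ hψ hψ1 (g := p.1)
      (d' := Units.mk0 _ hp₁') rfl hκ₁
    obtain ⟨hκ₂0, v₂, ξ₂, hξ₂, hv₂⟩ := kappa_ne hW₂ hq hH₂ hψ hψ1 (g := p.2)
      (d' := Units.mk0 _ hp₂') rfl hκ₂
    refine ⟨?_, mul_ne_zero (mul_ne_zero hκ₁0 hκ₂0) (Complex.ofReal_ne_zero.2 hc)⟩
    have e1 := hκ₁ p.1 (Units.mk0 _ hp₁') rfl v₁ ξ₁ hξ₁
    have e2 := hκ₂ p.2 (Units.mk0 _ hp₂') rfl v₂ ξ₂ hξ₂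
    have e3 := hκ (glue e he p) (Units.mk0 _ hp₁' * Units.mk0 _ hp₂')
      (by rw [Units.val_mul, det_glue_sub_one]; rfl) (j (v₁ ⊗ₜ v₂)) _ (tfun_mem e hj hξ₁ hξ₂)
    have e4 := hcov (cf ψ σ H (cayley (umat (glue e he p))) ρ
        (tfun ξ₁ ξ₂ ∘ₗ (j.symm : S →ₗ[ℂ] S₁ ⊗[ℂ] S₂)) (j (v₁ ⊗ₜ v₂)))
    simp only [cf_glue e he hj hu₁ hu₂] at e4
    rw [integral_prod_mul] at e4
    -- the matrix coefficient of `A p`
    have e5 := congrArg (tfun ξ₁ ξ₂ ∘ₗ (j.symm : S →ₗ[ℂ] S₁ ⊗[ℂ] S₂)) (hz (j (v₁ ⊗ₜ v₂)))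
    rw [hAj, map_smul, e3, TensorProduct.map_tmul] at e5
    have e6 : (tfun ξ₁ ξ₂ ∘ₗ (j.symm : S →ₗ[ℂ] S₁ ⊗[ℂ] S₂)) (j (ω₁ p.1 v₁ ⊗ₜ[ℂ] ω₂ p.2 v₂)) =
        ξ₁ (ω₁ p.1 v₁) * ξ₂ (ω₂ p.2 v₂) := by
      show tfun ξ₁ ξ₂ (j.symm (j (ω₁ p.1 v₁ ⊗ₜ[ℂ] ω₂ p.2 v₂))) = _
      rw [j.symm_apply_apply, tfun_tmul]
    have e7 : absE (Units.mk0 _ hp₁' * Units.mk0 _ hp₂') =
        absE (Units.mk0 _ hp₁') * absE (Units.mk0 _ hp₂') := by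
      unfold absE
      rw [map_mul, NNReal.coe_mul]
    have hpos₁ : 0 ≤ absE (Units.mk0 _ hp₁') := NNReal.coe_nonneg _
    have hpos₂ : 0 ≤ absE (Units.mk0 _ hp₂') := NNReal.coe_nonneg _
    rw [e6, e7, Real.mul_rpow hpos₁ hpos₂, map_mul, Units.val_mul, Complex.ofReal_mul,
      smul_eq_mul] at e5
    have hne : ξ₁ (ω₁ p.1 v₁) * ξ₂ (ω₂ p.2 v₂) ≠ 0 := mul_ne_zero hv₁ hv₂
    rw [e1, e2] at hne e5
    revert hne e4 e5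
    generalize (∫ w, cf ψ σ H₁ (cayley (umat p.1)) ρ₁ ξ₁ v₁ w ∂(Measure.addHaar)) = I₁
    generalize (∫ w, cf ψ σ H₂ (cayley (umat p.2)) ρ₂ ξ₂ v₂ w ∂(Measure.addHaar)) = I₂
    generalize (∫ w, cf ψ σ H (cayley (umat (glue e he p))) ρ
        (tfun ξ₁ ξ₂ ∘ₗ (j.symm : S →ₗ[ℂ] S₁ ⊗[ℂ] S₂)) (j (v₁ ⊗ₜ v₂)) w ∂(Measure.addHaar)) = I
    generalize ((μ (Units.mk0 _ hp₁') : ℂˣ) : ℂ) = m₁
    generalize ((μ (Units.mk0 _ hp₂') : ℂˣ) : ℂ) = m₂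
    generalize (((absE (Units.mk0 _ hp₁')) ^ (-(1 / 2) : ℝ) : ℝ) : ℂ) = a₁
    generalize (((absE (Units.mk0 _ hp₂')) ^ (-(1 / 2) : ℝ) : ℝ) : ℂ) = a₂
    intro e4 e5 hne
    have hI : m₁ * m₂ * (a₁ * a₂) * I ≠ 0 := by
      intro h0
      apply hne
      have : κ₁ * m₁ * a₁ * I₁ * (κ₂ * m₂ * a₂ * I₂) =
          κ₁ * κ₂ * c * (m₁ * m₂ * (a₁ * a₂) * I) := by
        linear_combination (κ₁ * κ₂ * m₁ * m₂ * a₁ * a₂) * e4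
      rw [this, h0, mul_zero]
    refine mul_right_cancel₀ hI ?_
    linear_combination e5 - (κ₁ * κ₂ * m₁ * m₂ * a₁ * a₂) * e4
  -- the constant is `1`
  have hfin : ∀ p, A p = ω (glue e he p) := by
    intro p
    have : Infinite F := NontriviallyNormedField.infinite F
    obtain ⟨b₁, hb₁, hpb₁⟩ := exists_regular (H := H₁) hq {p.1}
    obtain ⟨b₂, hb₂, hpb₂⟩ := exists_regular (H := H₂) hq {p.2}
    have hpb₁' := hpb₁ p.1 (Finset.mem_singleton_self _)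
    have hpb₂' := hpb₂ p.2 (Finset.mem_singleton_self _)
    obtain ⟨z, hz1⟩ := hz (b₁, b₂)
    obtain ⟨z', hz1'⟩ := hz (p * (b₁, b₂))
    obtain ⟨k1, k2⟩ := hreg (b₁, b₂) hb₁ hb₂ z hz1
    obtain ⟨k1', -⟩ := hreg (p * (b₁, b₂)) hpb₁' hpb₂' z' hz1'
    have hκ0 : κ ≠ 0 := by
      rintro rfl
      rw [mul_zero] at k1
      exact k2 k1
    have hz0 : z ≠ 0 := by
      rintro rfl
      rw [zero_mul] at k1
      exact k2 k1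
    have hzz : z' = z := mul_right_cancel₀ hκ0 (k1'.symm.trans k1)
    ext s
    have k3 := hz1' (ω (glue e he (b₁, b₂))⁻¹ s)
    rw [hAmul, Module.End.mul_apply, hz1, hinv', hzz, map_mul, map_mul, Module.End.mul_apply,
      hinv', map_smul] at k3
    exact smul_right_injective S hz0 k3
  intro u u₁ u₂ hu s₁ s₂
  have h1 := eq_glue e he hu
  rw [h1, ← hfin, hAj, TensorProduct.map_tmul]

end

end SpW.P1
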