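import Pool.Agent.Work.MP_3615d2_al.P1.Freeze
import Pool.Agent.Work.MP_3615d2_al.P1.Tens
import Pool.Agent.Work.MP_3615d2_al.DualNorm

/-!
MP_3615d2_al, Part 1: the Weil representation of an orthogonal sum in coordinates (`weil_tens_x`)
and the invariance of the frozen forms.
-/

open MeasureTheory Matrix Filter Topology
open scoped NNReal TensorProduct

set_option linter.unusedSectionVars false

namespace SpW

/-! ### Coordinates of an orthogonal decomposition -/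

section join

variable {F E : Type} [Field F] [Field E] [Algebra F E] {σ : E ≃ₐ[F] E} {a b N : ℕ}
  (h : a + b = N)

/-- `E^a × E^b ≃ E^N`. -/
def joinJ : ((Fin a → E) × (Fin b → E)) ≃ₗ[E] (Fin N → E) where
  toFun y i := Sum.elim y.1 y.2 ((sJ h).symm i)
  map_add' y z := by
    funext i
    obtain ⟨i, rfl⟩ := (sJ h).surjective i
    rcases i with i | i <;> simp
  map_smul' c y := by
    funext i
    obtain ⟨i, rfl⟩ := (sJ h).surjective i
    rcases i with i | i <;> simp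
  invFun x := (fun i => x (sJ h (Sum.inl i)), fun i => x (sJ h (Sum.inr i)))
  left_inv y := by simp
  right_inv x := by
    funext i
    obtain ⟨i, rfl⟩ := (sJ h).surjective i
    rcases i with i | i <;> simp

theorem joinJ_apply (y : (Fin a → E) × (Fin b → E)) (i : Fin a ⊕ Fin b) :
    joinJ h y (sJ h i) = Sum.elim y.1 y.2 i := by
  show Sum.elim y.1 y.2 ((sJ h).symm (sJ h i)) = _
  rw [Equiv.symm_apply_apply]

theorem bmJ_mulVec (A : Matrix (Fin a) (Fin a) E) (B : Matrix (Fin a) (Fin b) E)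
    (C : Matrix (Fin b) (Fin a) E) (D : Matrix (Fin b) (Fin b) E)
    (y : (Fin a → E) × (Fin b → E)) :
    (bmJ h A B C D).mulVec (joinJ h y) =
      joinJ h (A.mulVec y.1 + B.mulVec y.2, C.mulVec y.1 + D.mulVec y.2) := by
  funext i
  obtain ⟨i, rfl⟩ := (sJ h).surjective i
  rw [joinJ_apply, Matrix.mulVec, dotProduct, ← (sJ h).sum_comp, Fintype.sum_sum_type]
  simp only [bmJ_apply, joinJ_apply]
  rcases i with i | i <;> simp [Matrix.mulVec, dotProduct]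

theorem sk_joinJ (H₁ : Matrix (Fin a) (Fin a) E) (H₂ : Matrix (Fin b) (Fin b) E)
    (y z : (Fin a → E) × (Fin b → E)) :
    sk σ (bmJ h H₁ 0 0 H₂) (joinJ h y) (joinJ h z) = sk σ H₁ y.1 z.1 + sk σ H₂ y.2 z.2 := by
  unfold sk
  rw [← (sJ h).sum_comp, Fintype.sum_sum_type]
  congr 1
  · refine Finset.sum_congr rfl fun i _ => ?_
    rw [← (sJ h).sum_comp, Fintype.sum_sum_type]
    simp only [bmJ_apply, joinJ_apply]
    simp
  · refine Finset.sum_congr rfl fun i _ => ?_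
    rw [← (sJ h).sum_comp, Fintype.sum_sum_type]
    simp only [bmJ_apply, joinJ_apply]
    simp

/-- `(v, w) ↦ x⁻¹ (v, w)`: the orthogonal decomposition given by the basis `x⁻¹ e_i`. -/
def exJ (x : GL (Fin N) E) : ((Fin a → E) × (Fin b → E)) ≃ₗ[E] (Fin N → E) where
  toFun y := ((x⁻¹ : GL (Fin N) E) : Matrix (Fin N) (Fin N) E).mulVec (joinJ h y)
  map_add' y z := by rw [map_add, Matrix.mulVec_add]
  map_smul' c y := by rw [map_smul, Matrix.mulVec_smul, RingHom.id_apply]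
  invFun z := (joinJ h).symm ((x : Matrix (Fin N) (Fin N) E).mulVec z)
  left_inv y := by
    show (joinJ h).symm ((x : Matrix (Fin N) (Fin N) E).mulVec
      (((x⁻¹ : GL (Fin N) E) : Matrix (Fin N) (Fin N) E).mulVec (joinJ h y))) = y
    rw [Matrix.mulVec_mulVec, ← Units.val_mul, mul_inv_cancel, Units.val_one,
      Matrix.one_mulVec, LinearEquiv.symm_apply_apply]
  right_inv z := by
    show ((x⁻¹ : GL (Fin N) E) : Matrix (Fin N) (Fin N) E).mulVec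
      (joinJ h ((joinJ h).symm ((x : Matrix (Fin N) (Fin N) E).mulVec z))) = z
    rw [LinearEquiv.apply_symm_apply, Matrix.mulVec_mulVec, ← Units.val_mul, inv_mul_cancel,
      Units.val_one, Matrix.one_mulVec]

theorem exJ_apply (x : GL (Fin N) E) (y : (Fin a → E) × (Fin b → E)) :
    exJ h x y = ((x⁻¹ : GL (Fin N) E) : Matrix (Fin N) (Fin N) E).mulVec (joinJ h y) := rfl

theorem sk_exJ {H : Matrix (Fin N) (Fin N) E} {x : GL (Fin N) E}
    {H₁ : Matrix (Fin a) (Fin a) E} {H₂ : Matrix (Fin b) (Fin b) E}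
    (hx : GM σ H x = bmJ h H₁ 0 0 H₂) (y z : (Fin a → E) × (Fin b → E)) :
    sk σ H (exJ h x y) (exJ h x z) = sk σ H₁ y.1 z.1 + sk σ H₂ y.2 z.2 := by
  rw [exJ_apply, exJ_apply, ← sk_GM, hx, sk_joinJ]

theorem mulVec_exJ {x u : GL (Fin N) E} {p : GL (Fin a) E} {q : GL (Fin b) E}
    (hu : u = x⁻¹ * pelJ h p q 0 * x) (y : (Fin a → E) × (Fin b → E)) :
    (u : Matrix (Fin N) (Fin N) E).mulVec (exJ h x y) =
      exJ h x ((p : Matrix (Fin a) (Fin a) E).mulVec y.1,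
        (q : Matrix (Fin b) (Fin b) E).mulVec y.2) := by
  rw [hu, exJ_apply, exJ_apply, Matrix.mulVec_mulVec, ← Units.val_mul, mul_inv_cancel_right,
    Units.val_mul, ← Matrix.mulVec_mulVec, pelJ_val, bmJ_mulVec, Matrix.zero_mulVec,
    Matrix.zero_mulVec, add_zero, zero_add]

end join

section weil

variable {F E : Type} [NontriviallyNormedField F] [IsUltrametricDist F] [ProperSpace F]
  [NontriviallyNormedField E] [NormedAlgebra F E] [IsUltrametricDist E]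
  [ProperSpace E] [MeasurableSpace E] [BorelSpace E]
  {σ : E ≃ₐ[F] E} {δ : E} {d : F} {N a b : ℕ} {H : Matrix (Fin N) (Fin N) E}
  {H₁ : Matrix (Fin a) (Fin a) E} {H₂ : Matrix (Fin b) (Fin b) E}
  {ψ : AddChar F Circle} {μ : Eˣ →* ℂˣ}
  {S : Type} [AddCommGroup S] [Module ℂ S]
  {ρ : (Fin N → E) → Module.End ℂ S} {ω : unitary σ H →* Module.End ℂ S}
  {S₁ : Type} [AddCommGroup S₁] [Module ℂ S₁]
  {ρ₁ : (Fin a → E) → Module.End ℂ S₁} {ω₁ : unitary σ H₁ →* Module.End ℂ S₁}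
  {S₂ : Type} [AddCommGroup S₂] [Module ℂ S₂]
  {ρ₂ : (Fin b → E) → Module.End ℂ S₂} {ω₂ : unitary σ H₂ →* Module.End ℂ S₂}
  {V₁ V₂ : Type} [AddCommGroup V₁] [Module ℂ V₁] [AddCommGroup V₂] [Module ℂ V₂]

/-- Isometries have determinants of absolute value `1`. -/
theorem ad_unitary (hq : QuadDatum σ δ d) (hH : H.det ≠ 0) {u : GL (Fin N) E}
    (hu : u ∈ unitary σ H) : ad u = 1 := by
  have h1 := congrArg Matrix.det (unitary_matrix (σ := σ) (H := H) ⟨u, hu⟩)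
  rw [Matrix.det_mul, Matrix.det_mul, Matrix.det_transpose] at h1
  have h2 : ((u : Matrix (Fin N) (Fin N) E).map σ).det = σ (u : Matrix (Fin N) (Fin N) E).det :=
    HermC.det_map _
  have h3 : (u : Matrix (Fin N) (Fin N) E).det * σ (u : Matrix (Fin N) (Fin N) E).det = 1 := by
    have h4 : (u : Matrix (Fin N) (Fin N) E).det * H.det *
        σ (u : Matrix (Fin N) (Fin N) E).det = H.det := by
      rw [← h2]
      exact h1
    have h5 : H.det * ((u : Matrix (Fin N) (Fin N) E).det *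
        σ (u : Matrix (Fin N) (Fin N) E).det) = H.det * 1 := by
      rw [mul_one]
      calc _ = (u : Matrix (Fin N) (Fin N) E).det * H.det *
            σ (u : Matrix (Fin N) (Fin N) E).det := by ring
        _ = H.det := h4
    exact mul_left_cancel₀ hH h5
  let d' : Eˣ := Matrix.GeneralLinearGroup.det u
  have hd' : (d' : E) = (u : Matrix (Fin N) (Fin N) E).det := rfl
  let d'' : Eˣ := Units.map (σ : E →* E) d'
  have hd'' : (d'' : E) = σ (d' : E) := rfl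
  have h6 : d' * d'' = 1 := by
    apply Units.ext
    rw [Units.val_mul, hd'', hd', h3, Units.val_one]
  have h7 : absE d' * absE d'' = 1 := by rw [← absE_mul, h6, absE_one]
  rw [absE_sig hq d' d'' hd''] at h7
  have h8 : 0 < absE d' := absE_pos d'
  show absE d' = 1
  nlinarith

/-- **The Weil representation of an orthogonal sum** in the coordinates `x`. -/
theorem weil_tens_x (h : a + b = N) (hq : QuadDatum σ δ d) (hH : IsSkew σ H)
    (hψ : Continuous ψ) (hψ1 : ψ ≠ 1) {x : GL (Fin N) E} (hx : GM σ H x = bmJ h H₁ 0 0 H₂)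
    (hW : IsWeil σ H ψ μ ρ ω) (hW₁ : IsWeil σ H₁ ψ μ ρ₁ ω₁) (hW₂ : IsWeil σ H₂ ψ μ ρ₂ ω₂) :
    ∃ j : S₁ ⊗[ℂ] S₂ ≃ₗ[ℂ] S, ∀ (u : unitary σ H) (u₁ : unitary σ H₁) (u₂ : unitary σ H₂),
      (u : GL (Fin N) E) = x⁻¹ * pelJ h u₁ u₂ 0 * x →
        ∀ s, ω u (j s) = j (TensorProduct.map (ω₁ u₁) (ω₂ u₂) s) := by
  have hb := isSkew_blocks h (sig_sig hq) hH hx
  obtain ⟨j, -, hj⟩ := P1.weil_tens (exJ h x) hq hH hb.1 hb.2 hψ hψ1 (sk_exJ h hx) hW hW₁ hW₂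
  refine ⟨j, fun u u₁ u₂ hu s => ?_⟩
  have h1 : (ω u ∘ₗ (j : S₁ ⊗[ℂ] S₂ →ₗ[ℂ] S)) =
      (j : S₁ ⊗[ℂ] S₂ →ₗ[ℂ] S) ∘ₗ TensorProduct.map (ω₁ u₁) (ω₂ u₂) := by
    apply TensorProduct.ext'
    intro s₁ s₂
    exact hj u u₁ u₂ (fun y => mulVec_exJ h hu y) s₁ s₂
  exact LinearMap.congr_fun h1 s

/-- **Frozen forms are invariant.** -/
theorem frz_invForm {s t : ℝ} {π₁ : GL (Fin a) E →* Module.End ℂ V₁}
    {π₂ : GL (Fin b) E →* Module.End ℂ V₂} (hq : QuadDatum σ δ d) (hH₁ : H₁.det ≠ 0)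
    (hH₂ : H₂.det ≠ 0) {β : V₁ ⊗[ℂ] V₂ →ₗ[ℂ] S₁ ⊗[ℂ] S₂ →ₗ[ℂ] ℂ}
    (hβ : ∀ (u₁ : unitary σ H₁) (u₂ : unitary σ H₂) w z,
      β (oten s t π₁ π₂ (u₁, u₂) w) (TensorProduct.map (ω₁ u₁) (ω₂ u₂) z) = β w z) :
    (∀ v₂ s₂, InvForm σ H₁ π₁ ω₁ (frzL β v₂ s₂)) ∧
      ∀ v₁ s₁, InvForm σ H₂ π₂ ω₂ (frzR β v₁ s₁) := by
  constructor
  · intro v₂ s₂ u v s₁
    have h1 := hβ u 1 (v ⊗ₜ v₂) (s₁ ⊗ₜ s₂)
    rw [OneMemClass.coe_one, oten_tmul, ad_unitary hq hH₁ u.2, ad_one, map_one, map_one,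
      TensorProduct.map_tmul, Real.one_rpow, Real.one_rpow, mul_one, Complex.ofReal_one,
      one_smul] at h1
    exact h1
  · intro v₁ s₁ u v s₂
    have h1 := hβ 1 u (v₁ ⊗ₜ v) (s₁ ⊗ₜ s₂)
    rw [OneMemClass.coe_one, oten_tmul, ad_unitary hq hH₂ u.2, ad_one, map_one, map_one,
      TensorProduct.map_tmul, Real.one_rpow, Real.one_rpow, mul_one, Complex.ofReal_one,
      one_smul] at h1
    exact h1

/-- The form `w, z ↦ b(w, j z)`. -/
noncomputable def pullS {W S' : Type} [AddCommGroup W] [Module ℂ W] [AddCommGroup S'] [Module ℂ S']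
    (b : W →ₗ[ℂ] S →ₗ[ℂ] ℂ) (j : S' ≃ₗ[ℂ] S) : W →ₗ[ℂ] S' →ₗ[ℂ] ℂ :=
  b.compl₂ (j : S' →ₗ[ℂ] S)

theorem pullS_apply {W S' : Type} [AddCommGroup W] [Module ℂ W] [AddCommGroup S'] [Module ℂ S']
    (b : W →ₗ[ℂ] S →ₗ[ℂ] ℂ) (j : S' ≃ₗ[ℂ] S) (w : W) (z : S') : pullS b j w z = b w (j z) := rfl

theorem pullS_ne_zero {W S' : Type} [AddCommGroup W] [Module ℂ W] [AddCommGroup S'] [Module ℂ S']
    {b : W →ₗ[ℂ] S →ₗ[ℂ] ℂ} (hb : b ≠ 0) (j : S' ≃ₗ[ℂ] S) : pullS b j ≠ 0 := by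
  intro h0
  apply hb
  ext w s
  have h1 := LinearMap.congr_fun (LinearMap.congr_fun h0 w) (j.symm s)
  rw [pullS_apply, LinearEquiv.apply_symm_apply] at h1
  exact h1

theorem pullS_injective {W S' : Type} [AddCommGroup W] [Module ℂ W] [AddCommGroup S'] [Module ℂ S']
    {b b' : W →ₗ[ℂ] S →ₗ[ℂ] ℂ} {j : S' ≃ₗ[ℂ] S} (h : pullS b j = pullS b' j) : b = b' := by
  ext w s
  have h1 := LinearMap.congr_fun (LinearMap.congr_fun h w) (j.symm s)
  rw [pullS_apply, pullS_apply, LinearEquiv.apply_symm_apply] at h1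
  exact h1

/-- **Freezing a fibre form**: `bx` is a form on `(V₁ ⊗ V₂) × S` invariant under
`{x⁻¹ (u₁ 0; 0 u₂) x}`, `j` the tensor decomposition of `S` at `x`. -/
theorem frz_fib (h : a + b = N) {s t : ℝ} {π₁ : GL (Fin a) E →* Module.End ℂ V₁}
    {π₂ : GL (Fin b) E →* Module.End ℂ V₂} (hq : QuadDatum σ δ d) (hH : IsSkew σ H)
    {x : GL (Fin N) E} (hx : GM σ H x = bmJ h H₁ 0 0 H₂)
    {bx : V₁ ⊗[ℂ] V₂ →ₗ[ℂ] S →ₗ[ℂ] ℂ}
    (hbx : ∀ (u₁ : unitary σ H₁) (u₂ : unitary σ H₂) (u : unitary σ H),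
      (u : GL (Fin N) E) = x⁻¹ * pelJ h u₁ u₂ 0 * x → ∀ w z,
        bx (oten s t π₁ π₂ (u₁, u₂) w) (ω u z) = bx w z)
    {j : S₁ ⊗[ℂ] S₂ ≃ₗ[ℂ] S}
    (hj : ∀ (u : unitary σ H) (u₁ : unitary σ H₁) (u₂ : unitary σ H₂),
      (u : GL (Fin N) E) = x⁻¹ * pelJ h u₁ u₂ 0 * x →
        ∀ z, ω u (j z) = j (TensorProduct.map (ω₁ u₁) (ω₂ u₂) z)) :
    (∀ v₂ s₂, InvForm σ H₁ π₁ ω₁ (frzL (pullS bx j) v₂ s₂)) ∧
      ∀ v₁ s₁, InvForm σ H₂ π₂ ω₂ (frzR (pullS bx j) v₁ s₁) := by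
  have hb := isSkew_blocks h (sig_sig hq) hH hx
  refine frz_invForm (s := s) (t := t) hq hb.1.det_ne hb.2.det_ne fun u₁ u₂ w z => ?_
  have hu : x⁻¹ * pelJ h (u₁ : GL (Fin a) E) (u₂ : GL (Fin b) E) 0 * x ∈ unitary σ H :=
    (conj_pelJ_mem h hx).2 ⟨u₁.2, u₂.2⟩
  rw [pullS_apply, pullS_apply, ← hj ⟨_, hu⟩ u₁ u₂ rfl, hbx u₁ u₂ ⟨_, hu⟩ rfl]

end weil

end SpW
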