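import Pool.Agent.Work.MP_3615d2_al.DualNorm
import Pool.Agent.Work.MP_3615d2_al.Integ1

/-!
MP_3615d2_al, Part 1: a conjugate-symplectic character is unitary, trivial on the norms
`x σ(x)`, and `μ(σ x) = μ(x)⁻¹`.
-/

open Metric Set Filter Topology

set_option linter.unusedSectionVars false

namespace SpW

section munorm

variable {F E : Type} [NontriviallyNormedField F] [IsUltrametricDist F] [ProperSpace F]
  [NontriviallyNormedField E] [NormedAlgebra F E] [IsUltrametricDist E]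
  [ProperSpace E] {σ : E ≃ₐ[F] E} {δ : E} {d : F} {μ : Eˣ →* ℂˣ}

/-- the action of `σ` on the units -/
def sigU (σ : E ≃ₐ[F] E) : Eˣ →* Eˣ := Units.map ((σ : E →+* E) : E →* E)

@[simp] theorem sigU_val (σ : E ≃ₐ[F] E) (x : Eˣ) : ((sigU σ x : Eˣ) : E) = σ (x : E) := rfl

/-- `μ(σ x) = μ(x)⁻¹` -/
theorem mu_sigU (hq : QuadDatum σ δ d) (hμ : ConjSymplectic F μ) (x : Eˣ) :
    μ (sigU σ x) = (μ x)⁻¹ := mu_sig hq hμ x _ rfl

/-- `μ(y) = μ(x)⁻¹` if `y = σ(x)` -/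
theorem mu_of_eq_sig (hq : QuadDatum σ δ d) (hμ : ConjSymplectic F μ) {x y : Eˣ}
    (h : (y : E) = σ (x : E)) : μ y = (μ x)⁻¹ := mu_sig hq hμ x y h

/-- `μ` is trivial on the norms `x σ(x)` -/
theorem mu_mul_sigU (hq : QuadDatum σ δ d) (hμ : ConjSymplectic F μ) (x : Eˣ) :
    μ (x * sigU σ x) = 1 := by
  rw [map_mul, mu_sigU hq hμ, mul_inv_cancel]

theorem isCompact_units_norm_one (E : Type) [NontriviallyNormedField E] [ProperSpace E] :
    IsCompact {u : Eˣ | ‖(u : E)‖ = 1} := by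
  rw [(Units.isEmbedding_val₀ (G₀ := E)).isCompact_iff]
  have : (Units.val '' {u : Eˣ | ‖(u : E)‖ = 1}) = sphere (0 : E) 1 := by
    ext x
    rw [mem_sphere_zero_iff_norm]
    constructor
    · rintro ⟨u, hu, rfl⟩
      exact hu
    · intro hx
      have hx0 : x ≠ 0 := by
        rintro rfl
        rw [norm_zero] at hx
        exact zero_ne_one hx
      exact ⟨Units.mk0 x hx0, hx, rfl⟩
  rw [this]
  exact isCompact_sphere 0 1

/-- A continuous character of `E^×` has absolute value `1` on the units of norm `1`. -/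
theorem char_norm_of_norm_one (hμ : Continuous μ) {u : Eˣ} (hu : ‖(u : E)‖ = 1) :
    ‖((μ u : ℂˣ) : ℂ)‖ = 1 := by
  obtain ⟨M, hM⟩ := (isCompact_units_norm_one E).exists_bound_of_continuousOn
    (f := fun u : Eˣ => ((μ u : ℂˣ) : ℂ)) (Units.continuous_val.comp hμ).continuousOn
  have hle : ∀ u : Eˣ, ‖(u : E)‖ = 1 → ‖((μ u : ℂˣ) : ℂ)‖ ≤ 1 := by
    intro u hu
    by_contra h1
    push Not at h1
    obtain ⟨n, hn⟩ := pow_unbounded_of_one_lt M h1
    have h1 := hM (u ^ n) (by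
      show ‖((u ^ n : Eˣ) : E)‖ = 1
      rw [Units.val_pow_eq_pow_val, norm_pow, hu, one_pow])
    rw [map_pow, Units.val_pow_eq_pow_val, norm_pow] at h1
    exact absurd h1 (not_le.2 hn)
  refine le_antisymm (hle u hu) ?_
  have h3 : ‖((u⁻¹ : Eˣ) : E)‖ = 1 := by
    rw [Units.val_inv_eq_inv_val, norm_inv, hu, inv_one]
  have h5 := hle _ h3
  rw [map_inv, Units.val_inv_eq_inv_val, norm_inv] at h5
  exact (inv_le_one₀ (norm_pos_iff.2 (Units.ne_zero _))).1 h5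

/-- A conjugate-symplectic character is unitary. -/
theorem mu_norm (hq : QuadDatum σ δ d) (hμ : ConjSymplectic F μ) (z : Eˣ) :
    ‖((μ z : ℂˣ) : ℂ)‖ = 1 := by
  have h2 : ‖((z * (sigU σ z)⁻¹ : Eˣ) : E)‖ = 1 := by
    rw [Units.val_mul, Units.val_inv_eq_inv_val, norm_mul, norm_inv, sigU_val,
      sg_norm hq, mul_inv_cancel₀ (norm_ne_zero_iff.2 z.ne_zero)]
  have h4 := char_norm_of_norm_one hμ.cont h2
  rw [map_mul, map_inv, mu_sigU hq hμ, inv_inv, Units.val_mul, norm_mul] at h4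
  have h6 : 0 ≤ ‖((μ z : ℂˣ) : ℂ)‖ := norm_nonneg _
  nlinarith

theorem mu_norm_inv (hq : QuadDatum σ δ d) (hμ : ConjSymplectic F μ) (z : Eˣ) :
    ‖(((μ z)⁻¹ : ℂˣ) : ℂ)‖ = 1 := by
  rw [Units.val_inv_eq_inv_val, norm_inv, mu_norm hq hμ, inv_one]

/-- `conj (μ z) = (μ z)⁻¹` -/
theorem conj_mu (hq : QuadDatum σ δ d) (hμ : ConjSymplectic F μ) (z : Eˣ) :
    (starRingEnd ℂ) ((μ z : ℂˣ) : ℂ) = (((μ z)⁻¹ : ℂˣ) : ℂ) := by
  rw [Units.val_inv_eq_inv_val, Complex.inv_eq_conj (mu_norm hq hμ z)]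

/-- `det (σ g) = σ (det g)` in the units -/
theorem det_mapσ {n : ℕ} (σ : E ≃ₐ[F] E) (g : GL (Fin n) E) :
    Matrix.GeneralLinearGroup.det (Matrix.GeneralLinearGroup.map (n := Fin n) (σ : E →+* E) g) =
      sigU σ (Matrix.GeneralLinearGroup.det g) := by
  apply Units.ext
  have h3 := AlgHom.map_det (σ : E →ₐ[F] E) ((g : GL (Fin n) E) : Matrix (Fin n) (Fin n) E)
  exact h3.symm

/-- `μ (det (σ g)) = μ (det g)⁻¹` -/
theorem mu_det_mapσ (hq : QuadDatum σ δ d) (hμ : ConjSymplectic F μ) {n : ℕ} (g : GL (Fin n) E) :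
    μ (Matrix.GeneralLinearGroup.det
      (Matrix.GeneralLinearGroup.map (n := Fin n) (σ : E →+* E) g)) =
      (μ (Matrix.GeneralLinearGroup.det g))⁻¹ := by
  rw [det_mapσ, mu_sigU hq hμ]

end munorm

end SpW
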