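import Pool.Agent.Work.MP_3615d2_al.P1.DefsP
import Pool.Agent.Work.MP_3615d2_al.P1.MuNorm
import Pool.Agent.Work.MP_3615d2_al.RhoB
import Pool.Agent.Work.MP_3615d2_al.WeFac
import Pool.Agent.Work.MP_3615d2_al.GKPair
import Pool.Agent.Work.MP_3615d2_al.Bridge

/-!
MP_3615d2_al, Part 1, module KAP (helper79): the conjugate representation
`kap σ μ π (g) = μ(det g)⁻¹ π(σ g)` is smooth, irreducible, cuspidal, with unitary central
character, and is paired with `π` by `l(π(a)v, kap(a')w) = μ(det a)⁻¹ l(v,w)`, `a' = σ(a)⁻ᵀ`.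
-/

open MeasureTheory Matrix Filter Topology
open scoped NNReal TensorProduct

set_option linter.unusedSectionVars false

namespace SpW

section alg

variable {F E : Type} [Field F] [NontriviallyNormedField E] [Algebra F E]
  {σ : E ≃ₐ[F] E} {μ : Eˣ →* ℂˣ} {n : ℕ} {V : Type} [AddCommGroup V] [Module ℂ V]
  {π : GL (Fin n) E →* Module.End ℂ V}

/-- `σ` on the entries of an invertible matrix. -/
abbrev sigGL (σ : E ≃ₐ[F] E) (g : GL (Fin n) E) : GL (Fin n) E :=
  Matrix.GeneralLinearGroup.map (n := Fin n) (σ : E →+* E) g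

theorem sigGL_val (σ : E ≃ₐ[F] E) (g : GL (Fin n) E) :
    ((sigGL σ g : GL (Fin n) E) : Matrix (Fin n) (Fin n) E) =
      (g : Matrix (Fin n) (Fin n) E).map σ := rfl

theorem sigGL_sigGL (hσ : ∀ x, σ (σ x) = x) (g : GL (Fin n) E) : sigGL σ (sigGL σ g) = g := by
  apply Units.ext
  ext i j
  exact hσ _

theorem sigGL_symm (σ : E ≃ₐ[F] E) (g : GL (Fin n) E) : sigGL σ (sigGL σ.symm g) = g := by
  apply Units.ext
  ext i j
  exact σ.apply_symm_apply _

theorem det_trGL (g : GL (Fin n) E) :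
    Matrix.GeneralLinearGroup.det (trGL g) = Matrix.GeneralLinearGroup.det g := by
  apply Units.ext
  exact Matrix.det_transpose _

theorem sigGL_trGL (σ : E ≃ₐ[F] E) (g : GL (Fin n) E) : sigGL σ (trGL g) = trGL (sigGL σ g) := by
  apply Units.ext
  ext i j
  rfl

theorem kap_eq (σ : E ≃ₐ[F] E) (μ : Eˣ →* ℂˣ) (π : GL (Fin n) E →* Module.End ℂ V)
    (g : GL (Fin n) E) (v : V) : kap σ μ π g v =
      (((μ (Matrix.GeneralLinearGroup.det g))⁻¹ : ℂˣ) : ℂ) • π (sigGL σ g) v := rfl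

/-- A subspace is stable under `π` if and only if it is stable under `kap`. -/
theorem isStab_kap {T : Submodule ℂ V} : IsStab (kap σ μ π) T ↔ IsStab π T := by
  constructor
  · intro h g v hv
    have h1 := h (sigGL σ.symm g) v hv
    rw [kap_eq, sigGL_symm] at h1
    have h2 := T.smul_mem (((μ (Matrix.GeneralLinearGroup.det (sigGL σ.symm g))) : ℂˣ) : ℂ) h1
    rwa [smul_smul, ← Units.val_mul, mul_inv_cancel, Units.val_one, one_smul] at h2
  · intro h g v hv
    rw [kap_eq]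
    exact T.smul_mem _ (h _ v hv)

theorem kap_irr (hirr : IsIrrRep π) : IsIrrRep (kap σ μ π) where
  nontrivial := hirr.nontrivial
  irr T hT := hirr.irr T (isStab_kap.1 hT)

theorem sigGL_mem_Nk {k : ℕ} {u : GL (Fin n) E} (hu : u ∈ Nk n k E) : sigGL σ u ∈ Nk n k E := by
  intro i j hij
  have h1 := hu i j hij
  show σ ((u : Matrix (Fin n) (Fin n) E) i j) = _
  rw [h1, Matrix.one_apply, apply_ite σ, map_one, map_zero]

theorem kap_Nk {k : ℕ} {u : GL (Fin n) E} (hu : u ∈ Nk n k E) (v : V) :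
    kap σ μ π u v = π (sigGL σ u) v := by
  have h1 : Matrix.GeneralLinearGroup.det u = 1 := by
    apply Units.ext
    exact Nk_det hu
  rw [kap_eq, h1, map_one, inv_one, Units.val_one, one_smul]

theorem cvN_kap (k : ℕ) (A : Submodule ℂ V) :
    cvN (kap σ μ π) (Nk n k E) A = cvN π (Nk n k E) A := by
  apply le_antisymm
  · refine Submodule.span_le.2 ?_
    rintro x ⟨u, hu, v, hv, rfl⟩
    rw [kap_Nk hu]
    exact Submodule.subset_span ⟨sigGL σ u, sigGL_mem_Nk hu, v, hv, rfl⟩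
  · refine Submodule.span_le.2 ?_
    rintro x ⟨u, hu, v, hv, rfl⟩
    refine Submodule.subset_span ⟨sigGL σ.symm u, sigGL_mem_Nk hu, v, hv, ?_⟩
    rw [kap_Nk (sigGL_mem_Nk hu), sigGL_symm]

theorem kap_cusp' (hc : IsCusp π) : IsCusp (kap σ μ π) := by
  intro k h1 h2
  rw [cvN_kap]
  exact hc k h1 h2

theorem kap_scalar {χ : Eˣ → ℂ} (h2 : ∀ z v, π (Matrix.GeneralLinearGroup.scalar (Fin n) z) v =
    χ z • v) (z : Eˣ) (v : V) : kap σ μ π (Matrix.GeneralLinearGroup.scalar (Fin n) z) v =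
      ((((μ z ^ n)⁻¹ : ℂˣ) : ℂ) * χ (Units.map ((σ : E →+* E) : E →* E) z)) • v := by
  have h3 : Matrix.GeneralLinearGroup.det (Matrix.GeneralLinearGroup.scalar (Fin n) z) =
      z ^ n := by
    apply Units.ext
    show (Matrix.scalar (Fin n) (z : E)).det = _
    rw [Matrix.scalar_apply, Matrix.det_diagonal, Finset.prod_const, Finset.card_univ,
      Fintype.card_fin, Units.val_pow_eq_pow_val]
  have h4 : sigGL σ (Matrix.GeneralLinearGroup.scalar (Fin n) z) =
      Matrix.GeneralLinearGroup.scalar (Fin n) (Units.map ((σ : E →+* E) : E →* E) z) := by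
    apply Units.ext
    show (Matrix.scalar (Fin n) (z : E)).map σ = Matrix.scalar (Fin n) (σ (z : E))
    rw [Matrix.scalar_apply, Matrix.scalar_apply, Matrix.diagonal_map (map_zero σ)]
  rw [kap_eq, h3, map_pow, h4, h2, smul_smul]

theorem kap_unitCentral (hμ : ∀ x : Eˣ, ‖((μ x : ℂˣ) : ℂ)‖ = 1) (hu : UnitCentral π) :
    UnitCentral (kap σ μ π) := by
  obtain ⟨χ, h1, h2⟩ := hu
  refine ⟨fun z => (((μ z ^ n)⁻¹ : ℂˣ) : ℂ) * χ (Units.map ((σ : E →+* E) : E →* E) z), fun z => ?_, fun z v =>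
    kap_scalar h2 z v⟩
  rw [norm_mul, h1, mul_one, Units.val_inv_eq_inv_val, norm_inv, Units.val_pow_eq_pow_val,
    norm_pow, hμ, one_pow, inv_one]

end alg

section top

variable {F E : Type} [Field F] [NontriviallyNormedField E] [Algebra F E]
  {σ : E ≃ₐ[F] E} {μ : Eˣ →* ℂˣ} {n : ℕ} {V : Type} [AddCommGroup V] [Module ℂ V]
  {π : GL (Fin n) E →* Module.End ℂ V}

theorem continuous_sigGL (hσc : Continuous σ) : Continuous (sigGL σ : GL (Fin n) E → GL (Fin n) E) := by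
  rw [Units.continuous_iff]
  refine ⟨?_, ?_⟩
  · exact Continuous.matrix_map Units.continuous_val hσc
  · exact Continuous.matrix_map (Units.continuous_val.comp continuous_inv) hσc

theorem mu_det_eventually [IsUltrametricDist E] (hμ : Continuous μ) :
    ∀ᶠ g in 𝓝 (1 : GL (Fin n) E), μ (Matrix.GeneralLinearGroup.det g) = 1 := by
  obtain ⟨ε, hε, h1⟩ := mu_eventually_one hμ
  have h2 : Continuous fun g : GL (Fin n) E => ((g : Matrix (Fin n) (Fin n) E).det) :=
    Continuous.matrix_det Units.continuous_val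
  have h3 : Tendsto (fun g : GL (Fin n) E => ((g : Matrix (Fin n) (Fin n) E).det)) (𝓝 1) (𝓝 1) := by
    have := h2.tendsto 1
    simpa using this
  filter_upwards [h3 (Metric.ball_mem_nhds 1 hε)] with g hg
  apply h1
  rw [← dist_eq_norm]
  exact hg

theorem kap_smooth' [IsUltrametricDist E] (hσc : Continuous σ) (hμ : Continuous μ)
    (hπ : IsSmoothRep π) : IsSmoothRep (kap σ μ π) := by
  intro v
  have h1 : Tendsto (sigGL σ : GL (Fin n) E → GL (Fin n) E) (𝓝 1) (𝓝 1) := by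
    have := (continuous_sigGL (n := n) hσc).tendsto 1
    rwa [show sigGL σ (1 : GL (Fin n) E) = 1 from map_one _] at this
  filter_upwards [mu_det_eventually (n := n) hμ, h1.eventually (hπ v)] with g h2 h3
  rw [kap_eq, h2, h3, inv_one, Units.val_one, one_smul]

end top

section main

variable {F E : Type} [NontriviallyNormedField F] [IsUltrametricDist F] [ProperSpace F]
  [NontriviallyNormedField E] [NormedAlgebra F E] [IsUltrametricDist E] [ProperSpace E]
  [MeasurableSpace E] [BorelSpace E]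
  {σ : E ≃ₐ[F] E} {δ : E} {d : F} {μ : Eˣ →* ℂˣ}
  {m : ℕ} {V : Type} [AddCommGroup V] [Module ℂ V]

theorem kap_smooth (hq : QuadDatum σ δ d) (hμ : ConjSymplectic F μ)
    {π : GL (Fin m) E →* Module.End ℂ V} (hπ : IsSmoothRep π) : IsSmoothRep (kap σ μ π) :=
  kap_smooth' (sig_continuous hq) hμ.cont hπ

theorem kap_cusp (_hq : QuadDatum σ δ d) {π : GL (Fin m) E →* Module.End ℂ V} (hc : IsCusp π) :
    IsCusp (kap σ μ π) := kap_cusp' hc

theorem kap_unit (hq : QuadDatum σ δ d) (hμ : ConjSymplectic F μ)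
    {π : GL (Fin m) E →* Module.End ℂ V} (hu : UnitCentral π) : UnitCentral (kap σ μ π) :=
  kap_unitCentral (mu_norm hq hμ) hu

/-- `kap` is an involution. -/
theorem kap_kap (hq : QuadDatum σ δ d) (hμ : ConjSymplectic F μ)
    (π : GL (Fin m) E →* Module.End ℂ V) : kap σ μ (kap σ μ π) = π := by
  ext g v
  rw [kap_eq, kap_eq, sigGL_sigGL (sig_sig hq), mu_det_mapσ hq hμ, inv_inv, smul_smul,
    ← Units.val_mul, inv_mul_cancel, Units.val_one, one_smul]

/-- `kap(σ(a)⁻ᵀ) = μ(det a)⁻¹ π(a⁻ᵀ)`. -/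
theorem kap_dual (hq : QuadDatum σ δ d) (hμ : ConjSymplectic F μ)
    (π : GL (Fin m) E →* Module.End ℂ V) (a : GL (Fin m) E) (v : V) :
    kap σ μ π (trGL (sigGL σ a)⁻¹) v =
      (((μ (Matrix.GeneralLinearGroup.det a))⁻¹ : ℂˣ) : ℂ) • π (trGL a⁻¹) v := by
  have h1 : Matrix.GeneralLinearGroup.det (trGL (sigGL σ a)⁻¹) =
      (sigU σ (Matrix.GeneralLinearGroup.det a))⁻¹ := by
    rw [det_trGL, map_inv, det_mapσ]
  have h2 : sigGL σ (trGL (sigGL σ a)⁻¹) = trGL a⁻¹ := by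
    rw [sigGL_trGL]
    congr 1
    show Matrix.GeneralLinearGroup.map (n := Fin m) (σ : E →+* E) (sigGL σ a)⁻¹ = _
    rw [map_inv]
    exact congrArg _ (sigGL_sigGL (sig_sig hq) a)
  rw [kap_eq, h1, h2, map_inv, mu_sigU hq hμ, inv_inv]

/-- The pairing of `π` with `kap`, relational form. -/
theorem kap_pairing (hq : QuadDatum σ δ d) (hμ : ConjSymplectic F μ)
    {π : GL (Fin m) E →* Module.End ℂ V} (hπ : IsSmoothRep π) (hirr : IsIrrRep π) (hc : IsCusp π)
    (hu : UnitCentral π) :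
    ∃ l : V →ₗ[ℂ] V →ₗ[ℂ] ℂ, l ≠ 0 ∧ ∀ (g g' : GL (Fin m) E),
      (g' : Matrix (Fin m) (Fin m) E) =
        (((g⁻¹ : GL (Fin m) E) : Matrix (Fin m) (Fin m) E).transpose).map σ →
      ∀ v w, l (π g v) (kap σ μ π g' w) =
        (((μ (Matrix.GeneralLinearGroup.det g))⁻¹ : ℂˣ) : ℂ) * l v w := by
  obtain ⟨l, hl0, hl⟩ := exists_gk_pairing hπ hirr hc hu
  refine ⟨l, hl0, fun g g' hg v w => ?_⟩
  have h1 : g' = trGL (sigGL σ g)⁻¹ := by
    apply Units.ext
    rw [hg]
    ext i j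
    rfl
  rw [h1, kap_dual hq hμ, map_smul, hl, smul_eq_mul]

end main

end SpW
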