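import Pool.Agent.Work.MP_3615d2_al.P1.NormCore
import Pool.Agent.Work.MP_3615d2_al.P1.DefsP

/-!
MP_3615d2_al, Part 1, module WA: normal forms of the Gram matrices `GM σ H (p g)`, `p` in the
parabolic subgroup with two blocks.
* `exists_GM_diag`: nondegenerate upper left block, the form becomes block diagonal;
* `exists_GM_hyp3`: zero upper left block, the form becomes `hyp3 h1 h2 H₀`.
-/

open Matrix

set_option linter.unusedSectionVars false

namespace SpW

variable {F E : Type} [Field F] [Field E] [Algebra F E] {σ : E ≃ₐ[F] E} {δ : E} {d : F}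

namespace NF

theorem gm_reindex {n : Type} [Fintype n] [DecidableEq n] {N : ℕ} (e : n ≃ Fin N)
    (M P : Matrix n n E) :
    gm σ (Matrix.reindex e e M) (Matrix.reindex e e P) = Matrix.reindex e e (gm σ M P) := by
  unfold gm
  have h1 : (Matrix.reindex e e P)ᵀ = Matrix.reindex e e Pᵀ := rfl
  have h2 : (Matrix.reindex e e P).map σ = Matrix.reindex e e (P.map σ) := rfl
  rw [h1, h2, Matrix.reindex_apply, Matrix.reindex_apply, Matrix.reindex_apply,
    Matrix.reindex_apply, Matrix.submatrix_mul_equiv, Matrix.submatrix_mul_equiv]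

theorem GM_eq_gm {N : ℕ} (H : Matrix (Fin N) (Fin N) E) (g : GL (Fin N) E) :
    GM σ H g = gm σ H ((g⁻¹ : GL (Fin N) E) : Matrix (Fin N) (Fin N) E) := rfl

theorem sk_reindex {n : Type} [Fintype n] [DecidableEq n] {N : ℕ} (e : n ≃ Fin N)
    {M : Matrix n n E} (h : ∀ i j, Matrix.reindex e e M j i = - σ (Matrix.reindex e e M i j)) :
    (M.map σ)ᵀ = -M := by
  rw [← sk_iff]
  intro i j
  have h1 := h (e i) (e j)
  simpa using h1

/-- three blocks -/
def e3 {m n b N : ℕ} (hb : n + m = b) (h : m + b = N) : Fin m ⊕ (Fin n ⊕ Fin m) ≃ Fin N :=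
  (Equiv.sumCongr (Equiv.refl _) (sJ hb)).trans (sJ h)

theorem e3_inl {m n b k N : ℕ} (hb : n + m = b) (h : m + b = N) (h1 : m + n = k) (h2 : k + m = N)
    (i : Fin m) : e3 hb h (Sum.inl i) = sJ h2 (Sum.inl (sJ h1 (Sum.inl i))) := by
  apply Fin.ext
  show (sJ h (Sum.inl i)).1 = _
  rw [sJ_inl, sJ_inl, sJ_inl]

theorem e3_inm {m n b k N : ℕ} (hb : n + m = b) (h : m + b = N) (h1 : m + n = k) (h2 : k + m = N)
    (i : Fin n) : e3 hb h (Sum.inr (Sum.inl i)) = sJ h2 (Sum.inl (sJ h1 (Sum.inr i))) := by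
  apply Fin.ext
  show (sJ h (Sum.inr (sJ hb (Sum.inl i)))).1 = _
  rw [sJ_inr, sJ_inl, sJ_inl, sJ_inr]

theorem e3_inr {m n b k N : ℕ} (hb : n + m = b) (h : m + b = N) (h1 : m + n = k) (h2 : k + m = N)
    (i : Fin m) : e3 hb h (Sum.inr (Sum.inr i)) = sJ h2 (Sum.inr i) := by
  apply Fin.ext
  show (sJ h (Sum.inr (sJ hb (Sum.inr i)))).1 = _
  rw [sJ_inr, sJ_inr, sJ_inr]
  omega

theorem hyp3_eq {m n b k N : ℕ} (hb : n + m = b) (h : m + b = N) (h1 : m + n = k) (h2 : k + m = N)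
    (H₀ : Matrix (Fin n) (Fin n) E) :
    Matrix.reindex (e3 hb h) (e3 hb h) (H3 (Fin m) H₀) = hyp3 h1 h2 H₀ := by
  ext i j
  obtain ⟨i, rfl⟩ := (e3 hb h).surjective i
  obtain ⟨j, rfl⟩ := (e3 hb h).surjective j
  rw [Matrix.reindex_apply, Matrix.submatrix_apply, Equiv.symm_apply_apply,
    Equiv.symm_apply_apply]
  rcases i with i | i | i <;> rcases j with j | j | j <;>
    simp only [e3_inl hb h h1 h2, e3_inm hb h h1 h2, e3_inr hb h h1 h2, hyp3, H3, bmJ,
      Matrix.reindex_apply, Matrix.submatrix_apply, Equiv.symm_apply_apply,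
      fromBlocks_apply₁₁, fromBlocks_apply₁₂, fromBlocks_apply₂₁, fromBlocks_apply₂₂,
      fromRows_apply_inl, fromRows_apply_inr, fromCols_apply_inl, fromCols_apply_inr,
      Equiv.refl_symm, Equiv.refl_apply, Matrix.zero_apply]

end NF

open NF

/-- an orthogonal sum is skew-Hermitian and nondegenerate if and only if the summands are -/
theorem isSkew_bmJ_iff {a b N : ℕ} (h : a + b = N) {H1 : Matrix (Fin a) (Fin a) E}
    {H2 : Matrix (Fin b) (Fin b) E} :
    IsSkew σ (bmJ h H1 0 0 H2) ↔ IsSkew σ H1 ∧ IsSkew σ H2 := by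
  have hdet : (bmJ h H1 0 0 H2).det = H1.det * H2.det := by
    rw [bmJ, det_reindex_self, det_fromBlocks_zero₂₁]
  constructor
  · intro hs
    have hd := hs.det_ne
    rw [hdet] at hd
    refine ⟨⟨fun i j => ?_, left_ne_zero_of_mul hd⟩, ⟨fun i j => ?_, right_ne_zero_of_mul hd⟩⟩
    · have h1 := hs.skew (sJ h (Sum.inl i)) (sJ h (Sum.inl j))
      rw [bmJ_apply, bmJ_apply] at h1
      exact h1
    · have h1 := hs.skew (sJ h (Sum.inr i)) (sJ h (Sum.inr j))
      rw [bmJ_apply, bmJ_apply] at h1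
      exact h1
  · rintro ⟨h1, h2⟩
    refine ⟨fun i j => ?_, ?_⟩
    · obtain ⟨i, rfl⟩ := (sJ h).surjective i
      obtain ⟨j, rfl⟩ := (sJ h).surjective j
      rw [bmJ_apply, bmJ_apply]
      rcases i with i | i <;> rcases j with j | j
      · exact h1.skew i j
      · simp
      · simp
      · exact h2.skew i j
    · rw [hdet]
      exact mul_ne_zero h1.det_ne h2.det_ne

/-- **WA, open stratum**: if the upper left block of the Gram matrix is nondegenerate, a unipotent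
element makes it block diagonal. -/
theorem exists_GM_diag (hq : QuadDatum σ δ d) {a b N : ℕ} (h : a + b = N)
    {H : Matrix (Fin N) (Fin N) E} (hH : IsSkew σ H) (g : GL (Fin N) E)
    (h0 : (upLJ h (GM σ H g)).det ≠ 0) :
    ∃ (y : Matrix (Fin a) (Fin b) E) (H2 : Matrix (Fin b) (Fin b) E),
      IsSkew σ (upLJ h (GM σ H g)) ∧ IsSkew σ H2 ∧
        GM σ H (pelJ h 1 1 y * g) = bmJ h (upLJ h (GM σ H g)) 0 0 H2 := by
  have hs := isSkew_GM (sig_sig hq) hH g
  set K := GM σ H g with hK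
  have e1 : Matrix.reindex (sJ h) (sJ h) (fromBlocks (upLJ h K) (upRJ h K) (lowLJ h K)
      (lowRJ h K)) = K := bmJ_blocks h K
  have h2 := sk_reindex (σ := σ) (sJ h) (M := fromBlocks (upLJ h K) (upRJ h K) (lowLJ h K)
    (lowRJ h K)) (by rw [e1]; exact hs.skew)
  obtain ⟨Y, D', hY⟩ := NF.exists_diag hq h2 (isUnit_iff_ne_zero.2 h0)
  have h3 : GM σ K (pelJ h 1 1 (-Y)) = bmJ h (upLJ h K) 0 0 D' := by
    rw [GM_eq_gm, pelJ_inv, pelJ_val]
    have h4 : bmJ h ((1⁻¹ : GL (Fin a) E) : Matrix (Fin a) (Fin a) E)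
        (-(((1⁻¹ : GL (Fin a) E) : Matrix (Fin a) (Fin a) E) * -Y *
          ((1⁻¹ : GL (Fin b) E) : Matrix (Fin b) (Fin b) E))) 0
        ((1⁻¹ : GL (Fin b) E) : Matrix (Fin b) (Fin b) E) =
        Matrix.reindex (sJ h) (sJ h) (fromBlocks 1 Y 0 1) := by
      unfold bmJ
      simp
    rw [h4]
    conv_lhs => rw [← e1]
    rw [gm_reindex, hY]
    rfl
  have h5 : IsSkew σ (bmJ h (upLJ h K) 0 0 D') := by
    rw [← h3]
    exact isSkew_GM (sig_sig hq) hs _
  obtain ⟨h6, h7⟩ := (isSkew_bmJ_iff h).1 h5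
  refine ⟨-Y, D', h6, h7, ?_⟩
  rw [GM_mul, h3]

/-- **WA, closed stratum**: if the upper left block of the Gram matrix is zero, an element of the
parabolic subgroup brings it to the form `hyp3 h1 h2 H₀`. -/
theorem exists_GM_hyp3 (hq : QuadDatum σ δ d) {m n b k N : ℕ} (h : m + b = N) (h1 : m + n = k)
    (h2 : k + m = N) {H : Matrix (Fin N) (Fin N) E} (hH : IsSkew σ H) (g : GL (Fin N) E)
    (h0 : upLJ h (GM σ H g) = 0) :
    ∃ (q : GL (Fin b) E) (y : Matrix (Fin m) (Fin b) E) (H₀ : Matrix (Fin n) (Fin n) E),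
      IsSkew σ H₀ ∧ GM σ H (pelJ h 1 q y * g) = hyp3 h1 h2 H₀ := by
  have hb : n + m = b := by omega
  have hs := isSkew_GM (sig_sig hq) hH g
  set K := GM σ H g with hK
  set M : Matrix (Fin m ⊕ (Fin n ⊕ Fin m)) (Fin m ⊕ (Fin n ⊕ Fin m)) E :=
    K.submatrix (e3 hb h) (e3 hb h) with hM
  have e1 : Matrix.reindex (e3 hb h) (e3 hb h) M = K := by
    ext i j
    simp [hM]
  have hM0 : M.toBlocks₁₁ = 0 := by
    ext i j
    exact congrFun (congrFun h0 i) j
  have e2 : M = fromBlocks 0 M.toBlocks₁₂ M.toBlocks₂₁ M.toBlocks₂₂ := by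
    conv_lhs => rw [← fromBlocks_toBlocks M, hM0]
  have h3 := sk_reindex (σ := σ) (e3 hb h) (M := M) (by rw [e1]; exact hs.skew)
  have hd : IsUnit M.det := by
    have h4 := hs.det_ne
    rw [← e1, det_reindex_self] at h4
    exact isUnit_iff_ne_zero.2 h4
  rw [e2] at h3 hd
  obtain ⟨Q, Y, H₀, hQ, hP, hH0, hH0'⟩ := NF.exists_H3 hq h3 hd
  rw [← e2] at hP
  have hQ' : IsUnit (Matrix.reindex (sJ hb) (sJ hb) Q).det := by
    rwa [det_reindex_self]
  set q₀ : GL (Fin b) E := Matrix.GeneralLinearGroup.mk'' _ hQ' with hq₀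
  set Y' : Matrix (Fin m) (Fin b) E := Matrix.reindex (Equiv.refl _) (sJ hb) Y with hY'
  have hp : (pelJ h 1 q₀ Y')⁻¹ = pelJ h 1 q₀⁻¹ (-(((1⁻¹ : GL (Fin m) E) :
      Matrix (Fin m) (Fin m) E) * Y' * ((q₀⁻¹ : GL (Fin b) E) : Matrix (Fin b) (Fin b) E))) := by
    rw [pelJ_inv, inv_one]
  have h4 : GM σ K (pelJ h 1 q₀ Y')⁻¹ = hyp3 h1 h2 H₀ := by
    rw [GM_eq_gm, inv_inv, pelJ_val]
    have h5 : bmJ h ((1 : GL (Fin m) E) : Matrix (Fin m) (Fin m) E) Y' 0
        (q₀ : Matrix (Fin b) (Fin b) E) =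
        Matrix.reindex (e3 hb h) (e3 hb h) (fromBlocks 1 Y 0 Q) := by
      ext i j
      obtain ⟨i, rfl⟩ := (e3 hb h).surjective i
      obtain ⟨j, rfl⟩ := (e3 hb h).surjective j
      rw [Matrix.reindex_apply, Matrix.submatrix_apply, Equiv.symm_apply_apply,
        Equiv.symm_apply_apply]
      have h6 : ∀ x, e3 hb h x = sJ h (Sum.map id (sJ hb) x) := fun x => rfl
      rw [h6, h6, bmJ_apply]
      rcases i with i | i <;> rcases j with j | j
      · rfl
      · simp [hY']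
      · rfl
      · simp [hq₀]
    rw [h5, ← e1, gm_reindex, hP, hyp3_eq hb h h1 h2]
  rw [hp, hK, ← GM_mul] at h4
  exact ⟨_, _, H₀, ⟨(sk_iff H₀).2 hH0, hH0'⟩, h4⟩

/-- `exists_GM_diag` with an element of the parabolic subgroup -/
theorem exists_PSJ_diag (hq : QuadDatum σ δ d) {a b N : ℕ} (h : a + b = N)
    {H : Matrix (Fin N) (Fin N) E} (hH : IsSkew σ H) (g : GL (Fin N) E)
    (h0 : (upLJ h (GM σ H g)).det ≠ 0) :
    ∃ p ∈ PSJ h E, ∃ H1 H2, IsSkew σ H1 ∧ IsSkew σ H2 ∧ GM σ H (p * g) = bmJ h H1 0 0 H2 := by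
  obtain ⟨y, H2, h1, h2, h3⟩ := exists_GM_diag hq h hH g h0
  exact ⟨_, ⟨1, 1, y, rfl⟩, _, H2, h1, h2, h3⟩

/-- `exists_GM_hyp3` with an element of the parabolic subgroup -/
theorem exists_PSJ_hyp3 (hq : QuadDatum σ δ d) {m n b k N : ℕ} (h : m + b = N) (h1 : m + n = k)
    (h2 : k + m = N) {H : Matrix (Fin N) (Fin N) E} (hH : IsSkew σ H) (g : GL (Fin N) E)
    (h0 : upLJ h (GM σ H g) = 0) :
    ∃ p ∈ PSJ h E, ∃ H₀, IsSkew σ H₀ ∧ GM σ H (p * g) = hyp3 h1 h2 H₀ := by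
  obtain ⟨q, y, H₀, h3, h4⟩ := exists_GM_hyp3 hq h h1 h2 hH g h0
  exact ⟨_, ⟨1, q, y, rfl⟩, H₀, h3, h4⟩

/-- the form `hyp3 h1 h2 H₀` is skew-Hermitian and nondegenerate if `H₀` is -/
theorem isSkew_hyp3 {m n k N : ℕ} (h1 : m + n = k) (h2 : k + m = N)
    {H₀ : Matrix (Fin n) (Fin n) E} (hH : IsSkew σ H₀) : IsSkew σ (hyp3 h1 h2 H₀) := by
  have hb : n + m = n + m := rfl
  have h : m + (n + m) = N := by omega
  rw [← hyp3_eq hb h h1 h2]
  refine ⟨fun i j => ?_, ?_⟩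
  · obtain ⟨i, rfl⟩ := (e3 hb h).surjective i
    obtain ⟨j, rfl⟩ := (e3 hb h).surjective j
    rw [Matrix.reindex_apply, Matrix.submatrix_apply, Matrix.submatrix_apply,
      Equiv.symm_apply_apply, Equiv.symm_apply_apply]
    have h4 : ∀ x y : Fin m, (1 : Matrix (Fin m) (Fin m) E) y x =
        σ ((1 : Matrix (Fin m) (Fin m) E) x y) := by
      intro x y
      rw [Matrix.one_apply, Matrix.one_apply]
      by_cases hxy : x = y
      · rw [if_pos hxy, if_pos hxy.symm, map_one]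
      · rw [if_neg hxy, if_neg (Ne.symm hxy), map_zero]
    rcases i with i | i | i <;> rcases j with j | j | j
    · simp [H3]
    · simp [H3]
    · show (-1 : Matrix (Fin m) (Fin m) E) j i = - σ ((1 : Matrix (Fin m) (Fin m) E) i j)
      rw [← h4]
      rfl
    · simp [H3]
    · exact hH.skew i j
    · simp [H3]
    · show (1 : Matrix (Fin m) (Fin m) E) j i = - σ ((-1 : Matrix (Fin m) (Fin m) E) i j)
      rw [h4, Matrix.neg_apply, map_neg, neg_neg]
    · simp [H3]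
    · simp [H3]
  · rw [det_reindex_self]
    intro h0
    obtain ⟨v, hv, hHv⟩ := Matrix.exists_mulVec_eq_zero_iff.2 h0
    apply hv
    unfold H3 at hHv
    rw [fromBlocks_mulVec] at hHv
    have e1 : (v ∘ Sum.inr) ∘ Sum.inr = 0 := by
      funext i
      have h5 := congrFun hHv (Sum.inl i)
      simpa [fromCols_mulVec] using h5
    have e2 : (v ∘ Sum.inr) ∘ Sum.inl = 0 := by
      by_contra hne
      exact hH.det_ne (Matrix.exists_mulVec_eq_zero_iff.1 ⟨_, hne, by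
        funext i
        have h5 := congrFun hHv (Sum.inr (Sum.inl i))
        simpa [fromBlocks_mulVec] using h5⟩)
    have e3 : v ∘ Sum.inl = 0 := by
      funext i
      have h5 := congrFun hHv (Sum.inr (Sum.inr i))
      simpa [fromBlocks_mulVec, Matrix.neg_mulVec] using h5
    funext i
    rcases i with i | i | i
    · exact congrFun e3 i
    · exact congrFun e2 i
    · exact congrFun e1 i

end SpW
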