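import Pool.Agent.Work.MP_3615d2_al.P1.Ev0f

/-!
MP_3615d2_al, Part 1, EV0 (P1.2 (a), (b), (c)): the evaluation `e : S → S0` at `0` of the
Schrodinger model, the action of the parabolic on it, and its universal properties.
-/

open scoped Matrix NNReal
open Filter Topology MeasureTheory Metric

set_option linter.unusedSectionVars false

namespace SpW.P1

open Pool.Agent.SpehH

section model

variable {F E : Type} [NontriviallyNormedField F] [IsUltrametricDist F] [ProperSpace F]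
  [NontriviallyNormedField E] [NormedAlgebra F E] [IsUltrametricDist E] [ProperSpace E]
  {σ : E ≃ₐ[F] E} {δ : E} {d : F} {m k N : ℕ} {H : Matrix (Fin N) (Fin N) E}
  {J : Matrix (Fin m) (Fin m) E} {H0 : Matrix (Fin k) (Fin k) E}
  {ε : Fin m ⊕ (Fin k ⊕ Fin m) ≃ Fin N}
  {ψ : AddChar F Circle} {S0 : Type} [AddCommGroup S0] [Module ℂ S0]
  {ρ0 : (Fin k → E) → Module.End ℂ S0}

theorem phase_lc (hq : QuadDatum σ δ d) (hψ : Continuous ψ) {q : (Fin m → E) → E}
    (hqc : Continuous q) : IsLocallyConstant fun x => ((psE E ψ (q x) : Circle) : ℂ) :=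
  (Pool.Agent.SpehH.psi_locConst (psE_cont (E := E) hq hψ)).comp_continuous hqc

/-- Multiplication by `ψ (Tr q)`. -/
noncomputable def mulQ (hq : QuadDatum σ δ d) (hψ : Continuous ψ) {q : (Fin m → E) → E}
    (hqc : Continuous q) : Module.End ℂ (Sch (Fin m → E) S0) where
  toFun f := ⟨fun x => ((psE E ψ (q x) : Circle) : ℂ) • (f : (Fin m → E) → S0) x, by
    obtain ⟨h1, K, hK, h2⟩ := f.2
    refine ⟨((phase_lc hq hψ hqc).prodMk h1).comp fun p : ℂ × S0 => p.1 • p.2, K, hK,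
      fun x hx => ?_⟩
    simp only [h2 x hx, smul_zero]⟩
  map_add' f g := by
    apply Sch.ext'
    intro x
    exact smul_add _ _ _
  map_smul' a f := by
    apply Sch.ext'
    intro x
    exact smul_comm _ _ _

theorem mulQ_apply (hq : QuadDatum σ δ d) (hψ : Continuous ψ) {q : (Fin m → E) → E}
    (hqc : Continuous q) (f : Sch (Fin m → E) S0) (x : Fin m → E) :
    (mulQ hq hψ hqc f : (Fin m → E) → S0) x =
      ((psE E ψ (q x) : Circle) : ℂ) • (f : (Fin m → E) → S0) x := rfl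

/-- The phase of `n_B`. -/
noncomputable def qB (σ : E ≃ₐ[F] E) (J B : Matrix (Fin m) (Fin m) E) (x : Fin m → E) : E :=
  (bJ σ J (B.mulVec x) ⬝ᵥ x) / 2

theorem bJ_cont (hq : QuadDatum σ δ d) : Continuous (bJ σ J) := by
  have := hq.finite
  exact (bJ σ J).continuous_of_finiteDimensional

theorem qB_cont (hq : QuadDatum σ δ d) (B : Matrix (Fin m) (Fin m) E) :
    Continuous (qB σ J B) := by
  have h1 : Continuous fun x : Fin m → E => bJ σ J (B.mulVec x) :=
    (bJ_cont hq).comp (Continuous.matrix_mulVec continuous_const continuous_id)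
  unfold qB
  exact (h1.dotProduct continuous_id).div_const 2

theorem psE_congr {x y : E} (h : Algebra.trace F E x = Algebra.trace F E y) :
    psE E ψ x = psE E ψ y := by
  rw [psE_apply, psE_apply, h]

/-- `M_B` intertwines `ρ` and `ρ ∘ n_B`. -/
theorem mulQ_rhoA (hq : QuadDatum σ δ d) (hψ : Continuous ψ) (B : Matrix (Fin m) (Fin m) E)
    (hB : ∀ x x', sk σ J (B.mulVec x) x' = σ (sk σ J (B.mulVec x') x))
    (r : Fin m → E) (v : Fin k → E) (s : Fin m → E) (f : Sch (Fin m → E) S0) :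
    mulQ hq hψ (qB_cont (J := J) hq B) (rhoA hq hψ ε J ρ0 (iot ε r v s) f) =
      rhoA hq hψ ε J ρ0 (iot ε (r + B.mulVec s) v s) (mulQ hq hψ (qB_cont (J := J) hq B) f) := by
  apply Sch.ext'
  intro x
  rw [mulQ_apply, rhoA_apply, rhoA_apply, mulQ_apply]
  simp only [pR_iot, pV_iot, pS_iot, map_smul]
  rw [smul_smul, smul_smul, ← Circle.coe_mul, ← Circle.coe_mul, ← AddChar.map_add_eq_mul,
    ← AddChar.map_add_eq_mul]
  congr 2
  apply psE_congr
  have h1 : Algebra.trace F E (bJ σ J (B.mulVec s) ⬝ᵥ x) =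
      Algebra.trace F E (bJ σ J (B.mulVec x) ⬝ᵥ s) := by
    rw [← trace_sk hq, ← trace_sk hq, hB s x, trace_sig hq]
  have h2 : ∀ x : E, Algebra.trace F E (x / 2) = Algebra.trace F E x / 2 := by
    intro x
    have h1 : x / 2 = (2 : F)⁻¹ • x := by
      rw [Algebra.smul_def, map_inv₀, map_ofNat, div_eq_inv_mul]
    rw [h1, map_smul, smul_eq_mul, div_eq_inv_mul]
  rw [← sub_eq_zero, ← map_sub]
  have h3 : qB σ J B x + (bJ σ J r ⬝ᵥ x + -(bJ σ J r ⬝ᵥ s) / 2) -
      (bJ σ J (r + B.mulVec s) ⬝ᵥ x + -(bJ σ J (r + B.mulVec s) ⬝ᵥ s) / 2 +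
        qB σ J B (x - s)) =
      (bJ σ J (B.mulVec x) ⬝ᵥ s) / 2 - (bJ σ J (B.mulVec s) ⬝ᵥ x) / 2 := by
    unfold qB
    rw [Matrix.mulVec_sub, map_add, map_sub, add_dotProduct, add_dotProduct, dotProduct_sub,
      sub_dotProduct, sub_dotProduct]
    have := hq.two_E
    field_simp
    ring
  rw [h3, map_sub, h2, h2, h1, sub_self]

theorem mulQ_neg (hq : QuadDatum σ δ d) (hψ : Continuous ψ) (B : Matrix (Fin m) (Fin m) E)
    (f : Sch (Fin m → E) S0) :
    mulQ hq hψ (qB_cont (J := J) hq (-B)) (mulQ hq hψ (qB_cont (J := J) hq B) f) = f := by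
  apply Sch.ext'
  intro x
  rw [mulQ_apply, mulQ_apply, smul_smul, ← Circle.coe_mul, ← AddChar.map_add_eq_mul]
  have h1 : qB σ J (-B) x + qB σ J B x = 0 := by
    unfold qB
    rw [Matrix.neg_mulVec, map_neg, neg_dotProduct]
    ring
  rw [h1, AddChar.map_zero_eq_one, Circle.coe_one, one_smul]

end model

section main

variable {F E : Type} [NontriviallyNormedField F] [IsUltrametricDist F] [ProperSpace F]
  [NontriviallyNormedField E] [NormedAlgebra F E] [IsUltrametricDist E] [ProperSpace E]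
  [MeasurableSpace E] [BorelSpace E]
  {σ : E ≃ₐ[F] E} {δ : E} {d : F} {m k N : ℕ} {H : Matrix (Fin N) (Fin N) E}
  {J : Matrix (Fin m) (Fin m) E} {H0 : Matrix (Fin k) (Fin k) E}
  {ε : Fin m ⊕ (Fin k ⊕ Fin m) ≃ Fin N}
  {ψ : AddChar F Circle} {μ : Eˣ →* ℂˣ} {S S0 : Type} [AddCommGroup S] [Module ℂ S]
  [AddCommGroup S0] [Module ℂ S0] {ρ : (Fin N → E) → Module.End ℂ S}
  {ρ0 : (Fin k → E) → Module.End ℂ S0}
  {ω : unitary σ H →* Module.End ℂ S} {ω0 : unitary σ H0 →* Module.End ℂ S0}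

theorem chiA_one (μ : Eˣ →* ℂˣ) : chiA μ (1 : GL (Fin m) E) = 1 := by
  unfold chiA
  rw [map_one, map_one, ad_one, Real.one_rpow]
  simp

/-- The action of `n_B` in the model. -/
theorem model_nB (hq : QuadDatum σ δ d) (hψ : Continuous ψ) (hψ1 : ψ ≠ 1)
    (hμ : ConjSymplectic F μ) (hH : IsSkew σ H) (hS : IsSplit σ ε H J H0)
    (hW : IsWeil σ H ψ μ ρ ω) (hW0 : IsWeil σ H0 ψ μ ρ0 ω0)
    (T : S ≃ₗ[ℂ] Sch (Fin m → E) S0) (hT : ∀ w s, T (ρ w s) = rhoA hq hψ ε J ρ0 w (T s))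
    (B : Matrix (Fin m) (Fin m) E)
    (hB : ∀ x x', sk σ J (B.mulVec x) x' = σ (sk σ J (B.mulVec x') x))
    (g : unitary σ H) (hg : ∀ r v x, (umat g).mulVec (iot ε r v x) = iot ε (r + B.mulVec x) v x)
    (s : S) : T (ω g s) = mulQ hq hψ (qB_cont (J := J) hq B) (T s) := by
  have := hq.finite
  set M := mulQ (S0 := S0) hq hψ (qB_cont (J := J) hq B) with hM
  set M' := mulQ (S0 := S0) hq hψ (qB_cont (J := J) hq (-B)) with hM'
  have hMM : ∀ f, M' (M f) = f := mulQ_neg hq hψ B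
  have hMM2 : ∀ f, M (M' f) = f := by
    intro f
    have h1 := mulQ_neg (J := J) (S0 := S0) hq hψ (-B) f
    rw [hM, hM']
    simpa only [neg_neg] using h1
  obtain ⟨z, hz⟩ := schur hψ hψ1 (symplB_alt hq hH) (symplB_nondeg hq hH) hq.two
    (rhoA_isHeis (ρ0 := ρ0) hq hψ hS hW0.isHeis) (rhoA_isIrr hq hψ hψ1 hS hW0.isHeis hW0.isIrr)
    (T := M' ∘ₗ T.toLinearMap ∘ₗ ω g ∘ₗ T.symm.toLinearMap) (by
      intro w
      obtain ⟨r, v, x, rfl⟩ := exists_iot ε w
      apply LinearMap.ext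
      intro f
      show M' (T (ω g (T.symm (rhoA hq hψ ε J ρ0 (iot ε r v x) f)))) =
        rhoA hq hψ ε J ρ0 (iot ε r v x) (M' (T (ω g (T.symm f))))
      have h1 : T.symm (rhoA hq hψ ε J ρ0 (iot ε r v x) f) = ρ (iot ε r v x) (T.symm f) := by
        rw [LinearEquiv.symm_apply_eq, hT, LinearEquiv.apply_symm_apply]
      rw [h1, ev_om_rho hW, hg, hT]
      have h2 := mulQ_rhoA (ε := ε) (ρ0 := ρ0) hq hψ B hB r v x (M' (T (ω g (T.symm f))))
      rw [← hM, hMM2] at h2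
      rw [← h2, hMM])
  have hz' : ∀ s, T (ω g s) = z • M (T s) := by
    intro s
    have h1 := congrArg (fun f : Module.End ℂ (Sch (Fin m → E) S0) => M (f (T s))) hz
    have h2 : M (M' (T (ω g (T.symm (T s))))) = M (z • T s) := h1
    rwa [hMM2, LinearEquiv.symm_apply_apply, map_smul] at h2
  have he := ev_model hq hψ hψ1 hS hW0.isHeis T hT
  have hgp : IsPar (H0 := H0) ε g 1 1 := by
    refine ⟨fun r => ?_, fun v => ⟨0, ?_⟩⟩
    · rw [hg, Matrix.mulVec_zero, add_zero, Units.val_one, Matrix.one_mulVec]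
    · rw [hg, Matrix.mulVec_zero, add_zero, umat_one, Matrix.one_mulVec]
  have h3 : ∀ s, z • ((T s : Sch (Fin m → E) S0) : (Fin m → E) → S0) 0 =
      ((T s : Sch (Fin m → E) S0) : (Fin m → E) → S0) 0 := by
    intro s
    have h4 := he.par hq hψ hψ1 hμ hH hS hW hW0 hgp s
    rw [chiA_one, one_smul, map_one, Module.End.one_apply] at h4
    have h5 : ((T (ω g s) : Sch (Fin m → E) S0) : (Fin m → E) → S0) 0 =
      ((T s : Sch (Fin m → E) S0) : (Fin m → E) → S0) 0 := h4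
    rw [hz'] at h5
    have h6 : z • ((M (T s) : Sch (Fin m → E) S0) : (Fin m → E) → S0) 0 =
      ((T s : Sch (Fin m → E) S0) : (Fin m → E) → S0) 0 := h5
    rw [hM, mulQ_apply] at h6
    have h7 : qB σ J B 0 = 0 := by
      unfold qB
      rw [dotProduct_zero, zero_div]
    rwa [h7, AddChar.map_zero_eq_one, Circle.coe_one, one_smul] at h6
  have hz1 : z = 1 := by
    have := hW0.nontrivial
    obtain ⟨v, hv⟩ := exists_ne (0 : S0)
    obtain ⟨s, rfl⟩ := he.surj v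
    have h4 := h3 s
    have h5 : (z - 1) • ((T s : Sch (Fin m → E) S0) : (Fin m → E) → S0) 0 = 0 := by
      rw [sub_smul, h4, one_smul, sub_self]
    rcases smul_eq_zero.1 h5 with h6 | h6
    · exact sub_eq_zero.1 h6
    · exact absurd h6 hv
  rw [hz', hz1, one_smul]

/-- **(c)** A map which is invariant under the elements fixing `R + V` factors through `e`. -/
theorem IsEv.uni (hq : QuadDatum σ δ d) (hψ : Continuous ψ) (hψ1 : ψ ≠ 1)
    (hμ : ConjSymplectic F μ) (hH : IsSkew σ H) (hS : IsSplit σ ε H J H0)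
    (hW : IsWeil σ H ψ μ ρ ω) (hW0 : IsWeil σ H0 ψ μ ρ0 ω0) {e : S →ₗ[ℂ] S0}
    (he : IsEv ε ρ ρ0 e) {T' : Type} [AddCommGroup T'] [Module ℂ T'] (L : S →ₗ[ℂ] T')
    (hL : ∀ g : unitary σ H, (∀ r v, (umat g).mulVec (iot ε r v 0) = iot ε r v 0) →
      ∀ s, L (ω g s) = L s) {s : S} (hs : e s = 0) : L s = 0 := by
  classical
  have hfd := hq.finite
  obtain ⟨T, hT⟩ := exists_model (ε := ε) (J := J) hq hψ hψ1 hH hS hW0.isHeis hW0.isIrr
    hW.isHeis hW.isIrr
  have hem := ev_model hq hψ hψ1 hS hW0.isHeis T hT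
  -- the value at `0` vanishes
  have hs0 : ((T s : Sch (Fin m → E) S0) : (Fin m → E) → S0) 0 = 0 := by
    obtain ⟨L0, hL0⟩ := he.factor (ev0 m E S0 ∘ₗ T.toLinearMap) hem.inv
    have h1 := hL0 s
    rw [hs, map_zero] at h1
    exact h1
  -- invariance in the model
  have hLM : ∀ (t : Fin m → F) (B : Matrix (Fin m) (Fin m) E),
      (∀ x, (B.mulVec x) ᵥ* J = fun j => algebraMap F E (t j) * x j) →
      ∀ f, L (T.symm (mulQ hq hψ (qB_cont (J := J) hq B) f)) = L (T.symm f) := by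
    intro t B hB f
    have hB' := hB_of (σ := σ) (δ := δ) (d := d) hq hB
    obtain ⟨g, hg⟩ := exists_nB hS B hB'
    have h1 := model_nB hq hψ hψ1 hμ hH hS hW hW0 T hT B hB' g hg (T.symm f)
    rw [LinearEquiv.apply_symm_apply] at h1
    rw [← h1, LinearEquiv.symm_apply_apply]
    exact hL g (fun r v => by rw [hg, Matrix.mulVec_zero, add_zero]) _
  suffices h : ∀ f : Sch (Fin m → E) S0, (f : (Fin m → E) → S0) 0 = 0 → L (T.symm f) = 0 by
    have h1 := h (T s) hs0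
    rwa [LinearEquiv.symm_apply_apply] at h1
  intro f hf
  show f ∈ LinearMap.ker (L ∘ₗ T.symm.toLinearMap)
  refine mem_of_cut_nhds (χ := fun x : Fin m → E => x) continuous_id _ f fun x0 => ?_
  by_cases hx0 : x0 = 0
  · subst hx0
    refine ⟨(f : (Fin m → E) → S0) ⁻¹' {0}, f.2.1.isClopen_fiber 0, hf, fun W' hW' hs => ?_⟩
    have h1 : cut ((fun x : Fin m → E => x) ⁻¹' W') (hW'.preimage continuous_id) f = 0 := by
      apply Sch.ext'
      intro x
      by_cases hx : x ∈ W'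
      · exact (cut_mem _ f (show x ∈ (fun x : Fin m → E => x) ⁻¹' W' from hx)).trans (hs hx)
      · exact cut_notMem _ f hx
    rw [h1]
    exact Submodule.zero_mem _
  · -- a phase which is not `1` at `x0`
    obtain ⟨i, hi⟩ := Function.ne_iff.1 hx0
    obtain ⟨y, hy⟩ : ∃ y : F, ψ y ≠ 1 := by
      by_contra! hcon
      apply hψ1
      ext y
      rw [hcon y]
      rfl
    have hN : Algebra.norm F (x0 i) ≠ 0 := Algebra.norm_ne_zero_iff.2 hi
    obtain ⟨B, hB⟩ := exists_B (F := F) (J := J) hS.det_ne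
      (Pi.single i (y / Algebra.norm F (x0 i)))
    have hphase : psE E ψ (qB σ J B x0) ≠ 1 := by
      have h1 : qB σ J B x0 = algebraMap F E (y / 2) := by
        have h2 : ∀ j, bJ σ J (B.mulVec x0) j =
            algebraMap F E ((Pi.single i (y / Algebra.norm F (x0 i)) : Fin m → F) j) *
              σ (x0 j) := by
          intro j
          rw [bJ_apply, hB, map_mul, AlgEquiv.commutes]
        unfold qB
        rw [dotProduct, Finset.sum_eq_single i]
        · rw [h2, Pi.single_eq_same, mul_assoc, mul_comm (σ (x0 i)), ← hq.norm_eq, ← map_mul,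
            div_mul_cancel₀ _ hN, map_div₀, map_ofNat]
        · intro j _ hj
          rw [h2, Pi.single_eq_of_ne hj, map_zero, zero_mul, zero_mul]
        · intro h0
          exact absurd (Finset.mem_univ i) h0
      rw [psE_apply, h1, Algebra.trace_algebraMap, hq.rank, two_nsmul]
      have h2 : y / 2 + y / 2 = y := by
        have := hq.two
        field_simp
        norm_num
      rwa [h2]
    have hlc : IsLocallyConstant fun x : Fin m → E => psE E ψ (qB σ J B x) := by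
      have h1 := phase_lc (ψ := ψ) hq hψ (qB_cont (J := J) hq B)
      rw [IsLocallyConstant.iff_eventually_eq] at h1 ⊢
      intro x
      filter_upwards [h1 x] with y hy using Circle.coe_inj.1 hy
    refine ⟨_, hlc.isClopen_fiber (psE E ψ (qB σ J B x0)), rfl, fun W' hW' hs => ?_⟩
    set g := cut ((fun x : Fin m → E => x) ⁻¹' W') (hW'.preimage continuous_id) f with hg
    have h1 : mulQ hq hψ (qB_cont (J := J) hq B) g =
        ((psE E ψ (qB σ J B x0) : Circle) : ℂ) • g := by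
      apply Sch.ext'
      intro x
      rw [mulQ_apply]
      show _ = ((psE E ψ (qB σ J B x0) : Circle) : ℂ) • (g : (Fin m → E) → S0) x
      by_cases hx : x ∈ W'
      · have h2 : psE E ψ (qB σ J B x) = psE E ψ (qB σ J B x0) := hs hx
        rw [h2]
      · have h2 : (g : (Fin m → E) → S0) x = 0 := cut_notMem _ f hx
        rw [h2, smul_zero, smul_zero]
    have h2 := hLM _ B hB g
    rw [h1, map_smul, map_smul] at h2
    show L (T.symm g) = 0
    have h3 : (((psE E ψ (qB σ J B x0) : Circle) : ℂ) - 1) • L (T.symm g) = 0 := by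
      rw [sub_smul, h2, one_smul, sub_self]
    refine (smul_eq_zero.1 h3).resolve_left (sub_ne_zero.2 fun h4 => hphase ?_)
    rwa [← Circle.coe_one, Circle.coe_inj] at h4

/-- The factorisation of **(c)**. -/
theorem IsEv.uni_factor (hq : QuadDatum σ δ d) (hψ : Continuous ψ) (hψ1 : ψ ≠ 1)
    (hμ : ConjSymplectic F μ) (hH : IsSkew σ H) (hS : IsSplit σ ε H J H0)
    (hW : IsWeil σ H ψ μ ρ ω) (hW0 : IsWeil σ H0 ψ μ ρ0 ω0) {e : S →ₗ[ℂ] S0}
    (he : IsEv ε ρ ρ0 e) {T' : Type} [AddCommGroup T'] [Module ℂ T'] (L : S →ₗ[ℂ] T')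
    (hL : ∀ g : unitary σ H, (∀ r v, (umat g).mulVec (iot ε r v 0) = iot ε r v 0) →
      ∀ s, L (ω g s) = L s) : ∃ L0 : S0 →ₗ[ℂ] T', ∀ s, L s = L0 (e s) := by
  have h1 : LinearMap.ker e ≤ LinearMap.ker L := fun s hs =>
    he.uni hq hψ hψ1 hμ hH hS hW hW0 L hL hs
  refine ⟨(LinearMap.ker e).liftQ L h1 ∘ₗ
    (e.quotKerEquivOfSurjective he.surj).symm.toLinearMap, fun s => ?_⟩
  have h2 : (e.quotKerEquivOfSurjective he.surj).symm (e s) = (LinearMap.ker e).mkQ s := by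
    rw [LinearEquiv.symm_apply_eq]
    rfl
  rw [LinearMap.comp_apply, LinearEquiv.coe_coe, h2]
  rfl

/-- Existence of the evaluation. -/
theorem exists_ev (hq : QuadDatum σ δ d) (hψ : Continuous ψ) (hψ1 : ψ ≠ 1)
    (hH : IsSkew σ H) (hS : IsSplit σ ε H J H0)
    (hW : IsWeil σ H ψ μ ρ ω) (hW0 : IsWeil σ H0 ψ μ ρ0 ω0) :
    ∃ e : S →ₗ[ℂ] S0, IsEv ε ρ ρ0 e := by
  obtain ⟨T, hT⟩ := exists_model (ε := ε) (J := J) hq hψ hψ1 hH hS hW0.isHeis hW0.isIrr
    hW.isHeis hW.isIrr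
  exact ⟨_, ev_model hq hψ hψ1 hS hW0.isHeis T hT⟩

/-- **EV0.** -/
theorem ev0_main (hq : QuadDatum σ δ d) (hψ : Continuous ψ) (hψ1 : ψ ≠ 1)
    (hμ : ConjSymplectic F μ) (hH : IsSkew σ H) (hS : IsSplit σ ε H J H0)
    (hW : IsWeil σ H ψ μ ρ ω) (hW0 : IsWeil σ H0 ψ μ ρ0 ω0) :
    ∃ e : S →ₗ[ℂ] S0, Function.Surjective e ∧
      (∀ r s, e (ρ (iot ε r 0 0) s) = e s) ∧
      (∀ v s, e (ρ (iot ε 0 v 0) s) = ρ0 v (e s)) ∧
      (∀ (g : unitary σ H) (a : GL (Fin m) E) (u : unitary σ H0),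
        (∀ r, (umat g).mulVec (iot ε r 0 0) =
          iot ε ((a : Matrix (Fin m) (Fin m) E).mulVec r) 0 0) →
        (∀ v, ∃ r, (umat g).mulVec (iot ε 0 v 0) = iot ε r ((umat u).mulVec v) 0) →
        ∀ s, e (ω g s) = (((μ (Matrix.GeneralLinearGroup.det a) : ℂˣ) : ℂ) *
          ((ad a ^ (1 / 2 : ℝ) : ℝ) : ℂ)) • ω0 u (e s)) ∧
      (∀ (T' : Type) [AddCommGroup T'] [Module ℂ T'] (L : S →ₗ[ℂ] T'),
        (∀ r s, L (ρ (iot ε r 0 0) s) = L s) → ∃ L0 : S0 →ₗ[ℂ] T', ∀ s, L s = L0 (e s)) ∧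
      (∀ (T' : Type) [AddCommGroup T'] [Module ℂ T'] (L : S →ₗ[ℂ] T'),
        (∀ g : unitary σ H, (∀ r v, (umat g).mulVec (iot ε r v 0) = iot ε r v 0) →
          ∀ s, L (ω g s) = L s) → ∃ L0 : S0 →ₗ[ℂ] T', ∀ s, L s = L0 (e s)) := by
  obtain ⟨e, he⟩ := exists_ev (J := J) hq hψ hψ1 hH hS hW hW0
  exact ⟨e, he.surj, he.inv, he.heis,
    fun g a u h1 h2 s => he.par hq hψ hψ1 hμ hH hS hW hW0 ⟨h1, h2⟩ s,
    fun T' _ _ L hL => he.factor L hL,
    fun T' _ _ L hL => he.uni_factor hq hψ hψ1 hμ hH hS hW hW0 L hL⟩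

end main

end SpW.P1
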