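import Pool.Agent.Work.MP_3615d2_al.P1.FibG

/-!
MP_3615d2_al, Part 1: the forms on the fibres attached to an invariant form on an induced
representation and to the points over the nondegenerate subspaces.
-/

open Filter Topology Matrix

set_option linter.unusedSectionVars false

namespace SpW

section fibJ

variable {F E : Type} [NontriviallyNormedField F] [IsUltrametricDist F] [ProperSpace F]
  [NontriviallyNormedField E] [NormedAlgebra F E] [IsUltrametricDist E] [ProperSpace E]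
  {σ : E ≃ₐ[F] E} {δ : E} {d : F} {a b N : ℕ}
  {H : Matrix (Fin N) (Fin N) E} {W S : Type} [AddCommGroup W] [Module ℂ W] [AddCommGroup S]
  [Module ℂ S]

/-- The data at a point over a nondegenerate subspace. -/
theorem exists_fibH (hq : QuadDatum σ δ d) (h : a + b = N) (hH : IsSkew σ H)
    {τ : (GL (Fin a) E × GL (Fin b) E) →* Module.End ℂ W} (hτ : IsSmoothRep τ)
    {ω : unitary σ H →* Module.End ℂ S} (hω : IsSmoothRep ω) {g : GL (Fin N) E}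
    (hg : IsUnit (upLJ h (GM σ H g)).det) :
    ∃ c, FibH (tauJ h τ) ω g (fun _ => 1) c := by
  have h1 := GM_qJ h hq hH hg
  have h2 := isSkew_GM (sig_sig hq) hH ((qJ h σ H g)⁻¹ * g)
  rw [h1] at h2
  have hsk : cst σ (bmJ h (upLJ h (GM σ H g)) 0 0 (scM h (GM σ H g))) =
      -bmJ h (upLJ h (GM σ H g)) 0 0 (scM h (GM σ H g)) := by
    rw [← h1]
    exact cst_GM hq hH _
  have h3 := skew_blocks σ h hsk
  rw [upLJ_bmJ, lowRJ_bmJ] at h3
  have hs : ∀ {n : ℕ} {M : Matrix (Fin n) (Fin n) E}, cst σ M = -M → M.det ≠ 0 → IsSkew σ M := by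
    intro n M hM hdet
    refine ⟨fun i j => ?_, hdet⟩
    have h4 := congrFun (congrFun hM j) i
    have h5 : σ (M i j) = -M j i := h4
    rw [h5, neg_neg]
  obtain ⟨c, c1, c2, c3⟩ := exists_weight_diag (h := h) hq hH (hs h3.1 hg.ne_zero)
    (hs h3.2.1 (scM_det h hq hH hg).ne_zero) h1
  set p : PSJ h E := ⟨(qJ h σ H g)⁻¹, (PSJ h E).inv_mem ⟨_, _, _, rfl⟩⟩ with hp
  have h6 : Mg (PSJ h E) ((qJ h σ H g)⁻¹ * g) = Mg (PSJ h E) g := Mg_mul_left p g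
  rw [h6] at c2 c3
  refine ⟨c, ?_⟩
  exact
    { hb := fun K hK w hw => bump_mem_J h hq hH hτ hg hK hw
      hw := fun w => exists_wfix h hq hτ g w
      hs := fun s => exists_fixS hq hω s
      c_pos := c1
      c_index := c2
      c_conj := fun K hK u hu hug => by rw [mul_one, c3 K hK u hu hug] }

/-- The form on the abstract induced space. -/
noncomputable def toS (h : a + b = N) {τ : (GL (Fin a) E × GL (Fin b) E) →* Module.End ℂ W}
    (β : IndJ h τ →ₗ[ℂ] S →ₗ[ℂ] ℂ) : indS (PSJ h E) (tauJ h τ) →ₗ[ℂ] S →ₗ[ℂ] ℂ :=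
  β.comp (LinearEquiv.ofEq _ _ (indS_eq_IndJ h τ)).toLinearMap

theorem extF_toS (h : a + b = N) {τ : (GL (Fin a) E × GL (Fin b) E) →* Module.End ℂ W}
    (β : IndJ h τ →ₗ[ℂ] S →ₗ[ℂ] ℂ) (f : IndJ h τ) (s : S) :
    extF (toS h β) (f : GL (Fin N) E → W) s = β f s := by
  have h1 : (f : GL (Fin N) E → W) ∈ indS (PSJ h E) (tauJ h τ) := by
    rw [indS_eq_IndJ]
    exact f.2
  rw [extF_eq h1]
  rfl

theorem invF_toS (h : a + b = N) {τ : (GL (Fin a) E × GL (Fin b) E) →* Module.End ℂ W}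
    {ω : unitary σ H →* Module.End ℂ S}
    {β : IndJ h τ →ₗ[ℂ] S →ₗ[ℂ] ℂ} (hβ : InvForm σ H (indActJ h τ) ω β) :
    InvF (toS h β) ω := by
  intro u f hf s
  have hf' : f ∈ IndJ h τ := by
    rw [← indS_eq_IndJ]
    exact hf
  have h1 := extF_toS h β (indActJ h τ (u : GL (Fin N) E) ⟨f, hf'⟩) (ω u s)
  have h2 := extF_toS h β ⟨f, hf'⟩ s
  rw [hβ] at h1
  exact h1.trans h2.symm

/-- The form on the fibre at `x`. -/
noncomputable def fibJ (hq : QuadDatum σ δ d) (h : a + b = N) (hH : IsSkew σ H)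
    {τ : (GL (Fin a) E × GL (Fin b) E) →* Module.End ℂ W} (hτ : IsSmoothRep τ)
    {ω : unitary σ H →* Module.End ℂ S} (hω : IsSmoothRep ω)
    {β : IndJ h τ →ₗ[ℂ] S →ₗ[ℂ] ℂ} (hβ : InvForm σ H (indActJ h τ) ω β) (x : GL (Fin N) E) :
    W →ₗ[ℂ] S →ₗ[ℂ] ℂ :=
  open Classical in if hx : IsUnit (upLJ h (GM σ H x)).det then
    (exists_fibH hq h hH hτ hω hx).choose_spec.fib (invF_toS h hβ) else 0

theorem exists_CO' (hq : QuadDatum σ δ d) : ∃ K, CO (unitary σ H) K := by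
  obtain ⟨K, hK, -⟩ := exists_CO (H := H) hq (Filter.univ_mem (f := 𝓝 (1 : GL (Fin N) E)))
  exact ⟨K, hK⟩

section props

variable (hq : QuadDatum σ δ d) (h : a + b = N) (hH : IsSkew σ H)
  {τ : (GL (Fin a) E × GL (Fin b) E) →* Module.End ℂ W} (hτ : IsSmoothRep τ)
  {ω : unitary σ H →* Module.End ℂ S} (hω : IsSmoothRep ω)

theorem fibJ_eq_zero_of {x : GL (Fin N) E} {χ : GL (Fin N) E → ℝ}
    {c : Subgroup (GL (Fin N) E) → ℝ} (HH : FibH (tauJ h τ) ω x χ c)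
    {β : IndJ h τ →ₗ[ℂ] S →ₗ[ℂ] ℂ} (hβ : InvForm σ H (indActJ h τ) ω β) {w : W} {s : S}
    (h0 : HH.fib (invF_toS h hβ) w s = 0) : fibJ hq h hH hτ hω hβ x w s = 0 := by
  rw [fibJ]
  split_ifs with hx
  · obtain ⟨r, -, hr⟩ := HH.ratio (exists_fibH hq h hH hτ hω hx).choose_spec (exists_CO' hq)
    rw [hr _ (invF_toS h hβ), h0, mul_zero]
  · rfl

theorem fib_eq_zero_of_fibJ {x : GL (Fin N) E} (hx : IsUnit (upLJ h (GM σ H x)).det)
    {χ : GL (Fin N) E → ℝ}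
    {c : Subgroup (GL (Fin N) E) → ℝ} (HH : FibH (tauJ h τ) ω x χ c)
    {β : IndJ h τ →ₗ[ℂ] S →ₗ[ℂ] ℂ} (hβ : InvForm σ H (indActJ h τ) ω β) {w : W} {s : S}
    (h0 : fibJ hq h hH hτ hω hβ x w s = 0) : HH.fib (invF_toS h hβ) w s = 0 := by
  rw [fibJ, dif_pos hx] at h0
  obtain ⟨r, -, hr⟩ := (exists_fibH hq h hH hτ hω hx).choose_spec.ratio HH (exists_CO' hq)
  rw [hr _ (invF_toS h hβ), h0, mul_zero]

theorem fibJ_inv {β : IndJ h τ →ₗ[ℂ] S →ₗ[ℂ] ℂ} (hβ : InvForm σ H (indActJ h τ) ω β)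
    (x : GL (Fin N) E) (u : unitary σ H) (p : GL (Fin a) E) (q : GL (Fin b) E)
    (y : Matrix (Fin a) (Fin b) E) (hu : x * (u : GL (Fin N) E) * x⁻¹ = pelJ h p q y) (w : W)
    (s : S) : fibJ hq h hH hτ hω hβ x (τ (p, q) w) (ω u s) = fibJ hq h hH hτ hω hβ x w s := by
  rw [fibJ]
  split_ifs with hx
  · have h1 := (exists_fibH hq h hH hτ hω hx).choose_spec.fib_inv (invF_toS h hβ) u
      ⟨pelJ h p q y, ⟨p, q, y, rfl⟩⟩ hu.symm w s
    rw [tauJ_pelJ τ _ rfl] at h1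
    rw [h1]
    push_cast
    rw [one_mul]
  · rfl

theorem fibJ_lin {β β' β'' : IndJ h τ →ₗ[ℂ] S →ₗ[ℂ] ℂ}
    (hβ : InvForm σ H (indActJ h τ) ω β) (hβ' : InvForm σ H (indActJ h τ) ω β')
    (hβ'' : InvForm σ H (indActJ h τ) ω β'') (c : ℂ) (e : β'' = β + c • β') (x : GL (Fin N) E) :
    fibJ hq h hH hτ hω hβ'' x = fibJ hq h hH hτ hω hβ x + c • fibJ hq h hH hτ hω hβ' x := by
  unfold fibJ
  split_ifs with hx
  · apply LinearMap.ext
    intro w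
    apply LinearMap.ext
    intro s
    rw [LinearMap.add_apply, LinearMap.add_apply, LinearMap.smul_apply, LinearMap.smul_apply]
    set HH := (exists_fibH hq h hH hτ hω hx).choose_spec
    obtain ⟨K, hK⟩ := HH.exists_good w s
    rw [HH.fib_eq _ hK, HH.fib_eq _ hK, HH.fib_eq _ hK]
    have hb := HH.hb K hK.1 w hK.2.1
    have h1 : extF (toS h β'') (bump (tauJ h τ) K x w) s =
        extF (toS h β) (bump (tauJ h τ) K x w) s +
          c * extF (toS h β') (bump (tauJ h τ) K x w) s := by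
      rw [extF_eq hb, extF_eq hb, extF_eq hb, e]
      rfl
    rw [h1, smul_eq_mul]
    ring
  · rw [smul_zero, add_zero]

/-- The form vanishes on a section over the nondegenerate subspaces if the forms on the fibres
vanish at its values. -/
theorem form_eq_zero_of_fibJ {β : IndJ h τ →ₗ[ℂ] S →ₗ[ℂ] ℂ}
    (hβ : InvForm σ H (indActJ h τ) ω β) (f : IndJ h τ) (s : S)
    (hf : ∀ g, (upLJ h (GM σ H g)).det = 0 → (f : GL (Fin N) E → W) g = 0)
    (h0 : ∀ (x : GL (Fin N) E) (H₁ : Matrix (Fin a) (Fin a) E) (H₂ : Matrix (Fin b) (Fin b) E),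
      IsSkew σ H₁ → IsSkew σ H₂ → GM σ H x = bmJ h H₁ 0 0 H₂ →
        fibJ hq h hH hτ hω hβ x ((f : GL (Fin N) E → W) x) s = 0) : β f s = 0 := by
  rw [← extF_toS h β f s]
  have hfS : (f : GL (Fin N) E → W) ∈ indS (PSJ h E) (tauJ h τ) := by
    rw [indS_eq_IndJ]
    exact f.2
  obtain ⟨K₁, hK₁, h1⟩ := exists_CO (H := H) hq f.2.2
  obtain ⟨K₂, hK₂, h2⟩ := exists_fixS hq hω s
  have hK : CO (unitary σ H) (K₁ ⊓ K₂) := hK₁.inf hK₂
  have hr : ∀ g, ∀ k ∈ K₁ ⊓ K₂, (f : GL (Fin N) E → W) (g * k) = (f : GL (Fin N) E → W) g :=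
    fun g k hk => h1 hk.1 g
  have hu : ∀ g, (f : GL (Fin N) E → W) g ≠ 0 → IsUnit (upLJ h (GM σ H g)).det := by
    intro g hg
    refine isUnit_iff_ne_zero.2 fun hd => hg (hf g hd)
  have hwf : ∀ g, (f : GL (Fin N) E → W) g ∈ wfix (tauJ h τ) (K₁ ⊓ K₂) g :=
    fun g => (indicator_eq_bump hfS.1 hr g).1
  refine extF_eq_zero_of_bumps (glK_isCompact one_pos le_rfl) (hPC_J h) hfS hr
    (fun g hg => isOpen_dcoJ h hq hH (hu g hg) hK)
    (fun g hg => bump_mem_J h hq hH hτ (hu g hg) hK (hwf g)) s fun g hg => ?_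
  obtain ⟨c, HH⟩ := exists_fibH hq h hH hτ hω (hu g hg)
  rw [HH.extF_bump (invF_toS h hβ) ⟨hK, hwf g, h2.mono inf_le_right⟩]
  set p : PSJ h E := ⟨(qJ h σ H g)⁻¹, (PSJ h E).inv_mem ⟨_, _, _, rfl⟩⟩ with hp
  have hpe : ((p : PSJ h E) : GL (Fin N) E) = pelJ h 1 1 (-(zM σ h (GM σ H g))) := by
    show (qJ h σ H g)⁻¹ = _
    rw [qJ, pelJ_inv]
    simp
  have hpt : tauJ h τ p = 1 := by
    rw [tauJ_pelJ τ p hpe]
    exact map_one τ
  rw [← HH.fib_left p, hpt, Module.End.one_apply]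
  have hx := GM_qJ h hq hH (hu g hg)
  have hxu : IsUnit (upLJ h (GM σ H ((p : GL (Fin N) E) * g))).det := by
    have : ((p : PSJ h E) : GL (Fin N) E) * g = (qJ h σ H g)⁻¹ * g := rfl
    rw [this, hx, upLJ_bmJ]
    exact hu g hg
  have hsk : cst σ (bmJ h (upLJ h (GM σ H g)) 0 0 (scM h (GM σ H g))) =
      -bmJ h (upLJ h (GM σ H g)) 0 0 (scM h (GM σ H g)) := by
    rw [← hx]
    exact cst_GM hq hH _
  have h3 := skew_blocks σ h hsk
  rw [upLJ_bmJ, lowRJ_bmJ] at h3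
  have hs : ∀ {n : ℕ} {M : Matrix (Fin n) (Fin n) E}, cst σ M = -M → M.det ≠ 0 → IsSkew σ M := by
    intro n M hM hdet
    refine ⟨fun i j => ?_, hdet⟩
    have h4 := congrFun (congrFun hM j) i
    have h5 : σ (M i j) = -M j i := h4
    rw [h5, neg_neg]
  have h5 := h0 ((p : GL (Fin N) E) * g) _ _ (hs h3.1 (hu g hg).ne_zero)
    (hs h3.2.1 (scM_det h hq hH (hu g hg)).ne_zero) hx
  have h6 : (f : GL (Fin N) E → W) ((p : GL (Fin N) E) * g) = (f : GL (Fin N) E → W) g := by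
    rw [hfS.1 p g, hpt, Module.End.one_apply]
  rw [h6] at h5
  rw [fib_eq_zero_of_fibJ hq h hH hτ hω hxu (HH.left p) hβ h5, mul_zero]

/-- Change of the point in the double coset. -/
theorem fibJ_mul_eq_zero {β : IndJ h τ →ₗ[ℂ] S →ₗ[ℂ] ℂ}
    (hβ : InvForm σ H (indActJ h τ) ω β) (x : GL (Fin N) E) (p : GL (Fin a) E) (q : GL (Fin b) E)
    (y : Matrix (Fin a) (Fin b) E) (u : unitary σ H) (h0 : fibJ hq h hH hτ hω hβ x = 0) :
    fibJ hq h hH hτ hω hβ (pelJ h p q y * x * (u : GL (Fin N) E)) = 0 := by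
  by_cases hx : IsUnit (upLJ h (GM σ H (pelJ h p q y * x * (u : GL (Fin N) E)))).det
  swap
  · rw [fibJ, dif_neg hx]
  have hx' : IsUnit (upLJ h (GM σ H x)).det := by
    rw [GM_unitary_mul _ _ u.2, GM_mul, GM_eq_gram, pelJ_inv, pelJ_val] at hx
    set M := GM σ H x
    set p' : GL (Fin a) E := p⁻¹ with hp'
    have e1 : upLJ h (gram σ M (bmJ h (p' : Matrix (Fin a) (Fin a) E)
        (-((p' : Matrix (Fin a) (Fin a) E) * y * ((q⁻¹ : GL (Fin b) E) : Matrix (Fin b) (Fin b) E)))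
        0 ((q⁻¹ : GL (Fin b) E) : Matrix (Fin b) (Fin b) E))) =
        (p' : Matrix (Fin a) (Fin a) E).transpose * upLJ h M *
          (p' : Matrix (Fin a) (Fin a) E).map σ := by
      unfold gram
      conv_lhs => rw [← bmJ_blocks h M]
      rw [bmJF_transpose, bmJF_map, bmJ_mul, bmJ_mul, upLJ_bmJ]
      have h0m : (0 : Matrix (Fin b) (Fin a) E).map σ = 0 := by
        ext i j
        simp
      rw [h0m, Matrix.mul_zero, add_zero, Matrix.transpose_zero, Matrix.zero_mul, add_zero]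
    rw [e1, Matrix.det_mul, Matrix.det_mul] at hx
    exact isUnit_of_mul_isUnit_right (isUnit_of_mul_isUnit_left hx)
  obtain ⟨c, HH⟩ := exists_fibH hq h hH hτ hω hx'
  set P' : PSJ h E := ⟨pelJ h p q y, ⟨p, q, y, rfl⟩⟩ with hP'
  apply LinearMap.ext
  intro w
  apply LinearMap.ext
  intro s
  refine fibJ_eq_zero_of hq h hH hτ hω ((HH.left P').right u.2) hβ ?_
  rw [(HH.left P').fib_right u.2]
  have h1 := HH.fib_left P' (invF_toS h hβ) (tauJ h τ P'⁻¹ w) (ω ⟨u, u.2⟩ s)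
  rw [← Module.End.mul_apply, ← map_mul, mul_inv_cancel, map_one, Module.End.one_apply] at h1
  rw [h1]
  refine fib_eq_zero_of_fibJ hq h hH hτ hω hx' HH hβ ?_
  rw [h0]
  rfl

end props

theorem exists_fib_lin (hq : QuadDatum σ δ d) (h : a + b = N) {H : Matrix (Fin N) (Fin N) E}
    (hH : IsSkew σ H) {τ : (GL (Fin a) E × GL (Fin b) E) →* Module.End ℂ W} (hτ : IsSmoothRep τ)
    {ω : unitary σ H →* Module.End ℂ S} (hω : IsSmoothRep ω) :
    ∃ bx : {β : IndJ h τ →ₗ[ℂ] S →ₗ[ℂ] ℂ // InvForm σ H (indActJ h τ) ω β} → GL (Fin N) E →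
        (W →ₗ[ℂ] S →ₗ[ℂ] ℂ),
      (∀ β β' β'' (c : ℂ) x, β''.1 = β.1 + c • β'.1 → bx β'' x = bx β x + c • bx β' x) ∧
      ∀ β, (∀ (x : GL (Fin N) E) (H₁ : Matrix (Fin a) (Fin a) E) (H₂ : Matrix (Fin b) (Fin b) E),
        IsSkew σ H₁ → IsSkew σ H₂ → GM σ H x = bmJ h H₁ 0 0 H₂ →
        ∀ (u₁ : unitary σ H₁) (u₂ : unitary σ H₂) (u : unitary σ H),
          x * (u : GL (Fin N) E) * x⁻¹ = pelJ h (u₁ : GL (Fin a) E) (u₂ : GL (Fin b) E) 0 →
          ∀ w s, bx β x (τ ((u₁ : GL (Fin a) E), (u₂ : GL (Fin b) E)) w) (ω u s) = bx β x w s) ∧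
      (∀ (f : IndJ h τ) (s : S),
        (∀ g, (upLJ h (GM σ H g)).det = 0 → (f : GL (Fin N) E → W) g = 0) →
        (∀ (x : GL (Fin N) E) (H₁ : Matrix (Fin a) (Fin a) E) (H₂ : Matrix (Fin b) (Fin b) E),
          IsSkew σ H₁ → IsSkew σ H₂ → GM σ H x = bmJ h H₁ 0 0 H₂ →
          bx β x ((f : GL (Fin N) E → W) x) s = 0) → β.1 f s = 0) ∧
      (∀ (x : GL (Fin N) E) (H₁ : Matrix (Fin a) (Fin a) E) (H₂ : Matrix (Fin b) (Fin b) E),
        IsSkew σ H₁ → IsSkew σ H₂ → GM σ H x = bmJ h H₁ 0 0 H₂ →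
        ∀ (p : GL (Fin a) E) (q : GL (Fin b) E) (u : unitary σ H), bx β x = 0 →
          bx β (pelJ h p q 0 * x * (u : GL (Fin N) E)) = 0) := by
  refine ⟨fun β x => fibJ hq h hH hτ hω β.2 x, fun β β' β'' c x e =>
    fibJ_lin hq h hH hτ hω β.2 β'.2 β''.2 c e x, fun β => ⟨?_, ?_, ?_⟩⟩
  · intro x H₁ H₂ _ _ _ u₁ u₂ u hu w s
    exact fibJ_inv hq h hH hτ hω β.2 x u _ _ 0 hu w s
  · intro f s hf h0
    exact form_eq_zero_of_fibJ hq h hH hτ hω β.2 f s hf h0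
  · intro x H₁ H₂ _ _ _ p q u h0
    exact fibJ_mul_eq_zero hq h hH hτ hω β.2 x p q 0 u h0

theorem exists_fib (hq : QuadDatum σ δ d) (h : a + b = N) {H : Matrix (Fin N) (Fin N) E}
    (hH : IsSkew σ H) {τ : (GL (Fin a) E × GL (Fin b) E) →* Module.End ℂ W} (hτ : IsSmoothRep τ)
    {ω : unitary σ H →* Module.End ℂ S} (hω : IsSmoothRep ω)
    (β : IndJ h τ →ₗ[ℂ] S →ₗ[ℂ] ℂ) (hβ : InvForm σ H (indActJ h τ) ω β) :
    ∃ bx : GL (Fin N) E → (W →ₗ[ℂ] S →ₗ[ℂ] ℂ),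
      (∀ (x : GL (Fin N) E) (H₁ : Matrix (Fin a) (Fin a) E) (H₂ : Matrix (Fin b) (Fin b) E),
        IsSkew σ H₁ → IsSkew σ H₂ → GM σ H x = bmJ h H₁ 0 0 H₂ →
        ∀ (u₁ : unitary σ H₁) (u₂ : unitary σ H₂) (u : unitary σ H),
          x * (u : GL (Fin N) E) * x⁻¹ = pelJ h (u₁ : GL (Fin a) E) (u₂ : GL (Fin b) E) 0 →
          ∀ w s, bx x (τ ((u₁ : GL (Fin a) E), (u₂ : GL (Fin b) E)) w) (ω u s) = bx x w s) ∧
      (∀ (f : IndJ h τ) (s : S),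
        (∀ g, (upLJ h (GM σ H g)).det = 0 → (f : GL (Fin N) E → W) g = 0) →
        (∀ (x : GL (Fin N) E) (H₁ : Matrix (Fin a) (Fin a) E) (H₂ : Matrix (Fin b) (Fin b) E),
          IsSkew σ H₁ → IsSkew σ H₂ → GM σ H x = bmJ h H₁ 0 0 H₂ →
          bx x ((f : GL (Fin N) E → W) x) s = 0) → β f s = 0) ∧
      (∀ (x : GL (Fin N) E) (H₁ : Matrix (Fin a) (Fin a) E) (H₂ : Matrix (Fin b) (Fin b) E),
        IsSkew σ H₁ → IsSkew σ H₂ → GM σ H x = bmJ h H₁ 0 0 H₂ →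
        ∀ (p : GL (Fin a) E) (q : GL (Fin b) E) (u : unitary σ H), bx x = 0 →
          bx (pelJ h p q 0 * x * (u : GL (Fin N) E)) = 0) := by
  obtain ⟨bx, -, h2⟩ := exists_fib_lin hq h hH hτ hω
  exact ⟨bx ⟨β, hβ⟩, h2 ⟨β, hβ⟩⟩

end fibJ

end SpW
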