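import Pool.Agent.Work.MP_3615d2_al.P1.DimCore
import Pool.Agent.Work.MP_3615d2_al.P1.Fib
import Pool.Agent.Work.MP_3615d2_al.P1.DefsQ

/-!
MP_3615d2_al, Part 1, module DIM: `dim_exists` and `dim_kill` with the Mackey bound (`MkBound`) as
a hypothesis.
-/

open MeasureTheory Filter Topology Matrix
open scoped TensorProduct

set_option linter.unusedSectionVars false
set_option linter.unusedVariables false

namespace SpW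

variable {F E : Type} [NontriviallyNormedField F] [IsUltrametricDist F] [ProperSpace F]
  [NontriviallyNormedField E] [NormedAlgebra F E] [IsUltrametricDist E] [ProperSpace E]
  [MeasurableSpace E] [BorelSpace E]
  {σ : E ≃ₐ[F] E} {δ : E} {d : F} {ψ : AddChar F Circle} {μ : Eˣ →* ℂˣ}
  {m a b N : ℕ} {V V₁ V₂ S S' : Type}
  [AddCommGroup V] [Module ℂ V] [AddCommGroup V₁] [Module ℂ V₁] [AddCommGroup V₂] [Module ℂ V₂]
  [AddCommGroup S] [Module ℂ S] [AddCommGroup S'] [Module ℂ S']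

theorem fibLin_oten (hq : QuadDatum σ δ d) (h : a + b = N) {H : Matrix (Fin N) (Fin N) E}
    (hH : IsSkew σ H) {π₁ : GL (Fin a) E →* Module.End ℂ V₁}
    {π₂ : GL (Fin b) E →* Module.End ℂ V₂} (h₁ : IsSmoothRep π₁) (h₂ : IsSmoothRep π₂) (s t : ℝ)
    {ω : unitary σ H →* Module.End ℂ S} (hω : IsSmoothRep ω) :
    FibLin σ h (oten s t π₁ π₂) ω :=
  exists_fib_lin hq h hH (oten_smoothQ h₁ h₂ s t) hω

theorem dim_exists_of (hq : QuadDatum σ δ d) (hψ : Continuous ψ) (hψ1 : ψ ≠ 1)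
    (hμ : ConjSymplectic F μ)
    {π : GL (Fin m) E →* Module.End ℂ V} (hπ : IsSmoothRep π)
    {HZ : Matrix (Fin (2 * m)) (Fin (2 * m)) E} (hZ : IsSkew σ HZ)
    {ρ : (Fin (2 * m) → E) → Module.End ℂ S} {ω : unitary σ HZ →* Module.End ℂ S}
    (hW : IsWeil σ HZ ψ μ ρ ω)
    (hmk : MkBound σ (two_mul m).symm (rho π (((m : ℝ) + 1) / 2)) ω)
    (β : Ind (rho π (((m : ℝ) + 1) / 2)) →ₗ[ℂ] S →ₗ[ℂ] ℂ) (hβ : InvForm σ HZ (repI π) ω β)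
    (hβ0 : β ≠ 0) :
    ∃ H₀ : Matrix (Fin m) (Fin m) E, IsSkew σ H₀ ∧
      ∃ (S₀ : Type) (_ : AddCommGroup S₀) (_ : Module ℂ S₀) (ρ₀ : (Fin m → E) → Module.End ℂ S₀)
        (ω₀ : unitary σ H₀ →* Module.End ℂ S₀) (β₀ : V →ₗ[ℂ] S₀ →ₗ[ℂ] ℂ),
        IsWeil σ H₀ ψ μ ρ₀ ω₀ ∧ InvForm σ H₀ π ω₀ β₀ ∧ β₀ ≠ 0 := by
  obtain ⟨x, H₁, H₂, h1, -, -, h2, -⟩ := dimCore_exists (two_mul m).symm hq hψ hψ1 hμ hZ hW
    (fibLin_oten hq (two_mul m).symm hZ hπ hπ (((m : ℝ) + 1) / 2) (-(((m : ℝ) + 1) / 2))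
      (fun v => hW.om_smooth v)) hmk (β := β) hβ hβ0
  exact ⟨H₁, h1, h2⟩

theorem dim_kill_of (hq : QuadDatum σ δ d) (hψ : Continuous ψ) (hψ1 : ψ ≠ 1)
    (hμ : ConjSymplectic F μ)
    {π : GL (Fin m) E →* Module.End ℂ V} (hπ : IsSmoothRep π) (hMO : MOForm F σ π)
    {HZ : Matrix (Fin (2 * m)) (Fin (2 * m)) E} (hZ : IsSkew σ HZ)
    {ρ : (Fin (2 * m) → E) → Module.End ℂ S} {ω : unitary σ HZ →* Module.End ℂ S}
    (hW : IsWeil σ HZ ψ μ ρ ω)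
    (hmk : MkBound σ (two_mul m).symm (rho π (((m : ℝ) + 1) / 2)) ω)
    (β : Ind (rho π (((m : ℝ) + 1) / 2)) →ₗ[ℂ] S →ₗ[ℂ] ℂ) (hβ : InvForm σ HZ (repI π) ω β)
    (hβ0 : β ≠ 0)
    {HZ' : Matrix (Fin (2 * m)) (Fin (2 * m)) E} (hZ' : IsSkew σ HZ')
    {ρ' : (Fin (2 * m) → E) → Module.End ℂ S'} {ω' : unitary σ HZ' →* Module.End ℂ S'}
    (hW' : IsWeil σ HZ' ψ μ ρ' ω')
    (hmk' : MkBound σ (two_mul m).symm (rho π (((m : ℝ) + 1) / 2)) ω')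
    (β' : Ind (rho π (((m : ℝ) + 1) / 2)) →ₗ[ℂ] S' →ₗ[ℂ] ℂ) (hβ' : InvForm σ HZ' (repI π) ω' β')
    (D : Submodule ℂ (Ind (rho π (((m : ℝ) + 1) / 2)))) (hD : IsStab (repI π) D)
    (hβD : ∀ f ∈ D, ∀ s, β f s = 0) : ∀ f ∈ D, ∀ s, β' f s = 0 :=
  dimCore_kill (two_mul m).symm hq hψ hψ1 hμ hMO hZ hW
    (fibLin_oten hq (two_mul m).symm hZ hπ hπ (((m : ℝ) + 1) / 2) (-(((m : ℝ) + 1) / 2))
      (fun v => hW.om_smooth v)) hmk hβ hβ0 hZ' hW'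
    (fibLin_oten hq (two_mul m).symm hZ' hπ hπ (((m : ℝ) + 1) / 2) (-(((m : ℝ) + 1) / 2))
      (fun v => hW'.om_smooth v)) hmk' hβ' D hD hβD

end SpW
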