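import Pool.Agent.Work.MP_3615d2_al.P1.DefsQ
import Pool.Agent.Work.MP_3615d2_al.DualNorm
import Pool.Agent.Work.MP_3615d2_al.MainB
import Pool.Agent.Work.MP_3615d2_al.BPClosed

/-!
MP_3615d2_al, Part 1: the exponents for the Mackey bound (`mackey_two`, `mackey_three`).
-/

open MeasureTheory Filter Topology Matrix
open scoped TensorProduct

set_option linter.unusedSectionVars false

namespace SpW

section alg

variable {E : Type} [NontriviallyNormedField E] [IsUltrametricDist E] [ProperSpace E]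
  [MeasurableSpace E] [BorelSpace E] {m : ℕ} {V W : Type} [AddCommGroup V] [Module ℂ V]
  [AddCommGroup W] [Module ℂ W]

theorem pelJ_one_congr {R : Type} [Field R] {a a' b N : ℕ} (h : a + b = N) (h' : a' + b = N)
    (q : GL (Fin b) R) : pelJ h (1 : GL (Fin a) R) q 0 = pelJ h' (1 : GL (Fin a') R) q 0 := by
  obtain rfl : a = a' := by omega
  rfl

/-- for a block of size `0` -/
theorem pelJ_one_scalar {R : Type} [Field R] {a b N : ℕ} (h : a + b = N) (ha : a = 0) (y : Rˣ) :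
    pelJ h (1 : GL (Fin a) R) (Matrix.GeneralLinearGroup.scalar (Fin b) y) 0 =
      Matrix.GeneralLinearGroup.scalar (Fin N) y := by
  subst ha
  rw [scalar_eq_pelJ h]
  congr 1
  apply Units.ext
  ext i
  exact i.elim0

theorem rho_one_scalar {π : GL (Fin m) E →* Module.End ℂ V} {χ : Eˣ → ℂ}
    (h2 : ∀ z v, π (Matrix.GeneralLinearGroup.scalar (Fin m) z) v = χ z • v) (s : ℝ) (z : Eˣ)
    (w : V ⊗[ℂ] V) :
    rho π s (1, Matrix.GeneralLinearGroup.scalar (Fin m) z) w =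
      (((ad (Matrix.GeneralLinearGroup.scalar (Fin m) z) ^ (-s) : ℝ) : ℂ) * χ z) • w := by
  induction w using TensorProduct.induction_on with
  | zero => rw [map_zero, smul_zero]
  | tmul x y =>
    rw [rho_tmul, h2, ad_one, Real.one_rpow, one_mul, map_one, Module.End.one_apply,
      TensorProduct.tmul_smul, smul_smul]
  | add a b ha hb => rw [map_add, ha, hb, smul_add]

/-- The two eigenvalues of `(1, y)` on the coinvariants of `πν^.. × πν^..`. -/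
theorem ind_two_eig (hm : 0 < m) {π : GL (Fin m) E →* Module.End ℂ V} (hπ : IsSmoothRep π)
    (hc : IsCusp π) (hu : UnitCentral π) {χ : Eˣ → ℂ}
    (hχ : ∀ z v, π (Matrix.GeneralLinearGroup.scalar (Fin m) z) v = χ z • v)
    {s : ℝ} (hs : s ≠ m / 2) (y : Eˣ) {c₁ c₂ : ℂ}
    (hc₁ : c₁ = ((ad (Matrix.GeneralLinearGroup.scalar (R := E) (Fin m) y) ^ (-s) : ℝ) : ℂ) * χ y)
    (hc₂ : c₂ = ((ad (Matrix.GeneralLinearGroup.scalar (R := E) (Fin m) y) ^ (-((m : ℝ) - s)) : ℝ) :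
      ℂ) * χ y) (f : Ind (rho π s)) :
    indAct (rho π s) (pel 1 (Matrix.GeneralLinearGroup.scalar (Fin m) y) 0)
        (indAct (rho π s) (pel 1 (Matrix.GeneralLinearGroup.scalar (Fin m) y) 0) f) -
      (c₁ + c₂) • indAct (rho π s) (pel 1 (Matrix.GeneralLinearGroup.scalar (Fin m) y) 0) f +
      (c₁ * c₂) • f ∈ cvN (indAct (rho π s)) (Nk (2 * m) m E) ⊤ := by
  obtain ⟨e', h1, -, h3⟩ := exists_second hm hπ hc hu hs
  set g := pel (1 : GL (Fin m) E) (Matrix.GeneralLinearGroup.scalar (Fin m) y) 0 with hg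
  have e1 : ∀ f : Ind (rho π s), ev1 (rho π s) (indAct (rho π s) g f) =
      c₁ • ev1 (rho π s) f := by
    intro f
    rw [hg, ev1_pel, rho_one_scalar hχ, hc₁]
  have e2 : ∀ f : Ind (rho π s), e' (indAct (rho π s) g f) = c₂ • e' f := by
    intro f
    rw [hg, h1, rho_one_scalar hχ, hc₂]
  refine h3 _ ?_ ?_
  · have key : ev1 (rho π s) (indAct (rho π s) g (indAct (rho π s) g f) -
        (c₁ + c₂) • indAct (rho π s) g f + (c₁ * c₂) • f) = 0 := by
      rw [map_add, map_sub, map_smul, map_smul, e1, e1, smul_smul, smul_smul, ← sub_smul,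
        ← add_smul]
      have : c₁ * c₁ - (c₁ + c₂) * c₁ + c₁ * c₂ = 0 := by ring
      rw [this, zero_smul]
    exact key
  · rw [map_add, map_sub, map_smul, map_smul, e2, e2, smul_smul, smul_smul, ← sub_smul,
      ← add_smul]
    have : c₂ * c₂ - (c₁ + c₂) * c₂ + c₁ * c₂ = 0 := by ring
    rw [this, zero_smul]

/-- A subrepresentation of a smooth representation is smooth. -/
theorem smooth_of_inj {n : ℕ} {π : GL (Fin n) E →* Module.End ℂ V}
    {B : GL (Fin n) E →* Module.End ℂ W} {ι : W →ₗ[ℂ] V} (hι : Function.Injective ι)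
    (hιG : ∀ g w, ι (B g w) = π g (ι w)) (hπ : IsSmoothRep π) : IsSmoothRep B := by
  intro w
  filter_upwards [hπ (ι w)] with g hg
  apply hι
  rw [hιG, hg]

/-- Coinvariants of a subrepresentation. -/
theorem cvN_of_inj {n k : ℕ} {π : GL (Fin n) E →* Module.End ℂ V} (hπ : IsSmoothRep π)
    {B : GL (Fin n) E →* Module.End ℂ W} {ι : W →ₗ[ℂ] V} (hι : Function.Injective ι)
    (hιG : ∀ g w, ι (B g w) = π g (ι w)) {x : W} (hx : ι x ∈ cvN π (Nk n k E) ⊤) :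
    x ∈ cvN B (Nk n k E) ⊤ := by
  have hst : ∀ g, ∀ v ∈ LinearMap.range ι, π g v ∈ LinearMap.range ι := by
    rintro g _ ⟨w, rfl⟩
    exact ⟨B g w, hιG g w⟩
  have h4 := cvN_exact (A := LinearMap.range ι) (B := ⊤) hπ (Nk_union n k) le_top
    (fun g _ v hv => hst g v hv) (fun _ _ _ _ => Submodule.mem_top)
  have h5 : ι x ∈ LinearMap.range ι ⊓ cvN π (Nk n k E) ⊤ := ⟨⟨x, rfl⟩, hx⟩
  rw [h4, ← Submodule.map_top, cvN_map ι hιG] at h5
  obtain ⟨y, hy, hyx⟩ := h5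
  rwa [← hι hyx]

end alg

section main

variable {F E : Type} [NontriviallyNormedField F] [IsUltrametricDist F] [ProperSpace F]
  [NontriviallyNormedField E] [NormedAlgebra F E] [IsUltrametricDist E] [ProperSpace E]
  [MeasurableSpace E] [BorelSpace E]
  {σ : E ≃ₐ[F] E} {δ : E} {d : F} {m : ℕ} {V V₁ W : Type}
  [AddCommGroup V] [Module ℂ V] [AddCommGroup V₁] [Module ℂ V₁] [AddCommGroup W] [Module ℂ W]

/-- an element of absolute value different from `1` -/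
theorem exists_absE_ne (hm : 0 < m) : ∃ z : Eˣ, absE z ≠ 1 := by
  obtain ⟨z, hz⟩ := exists_ad_scalar_lt (E := E) hm
  refine ⟨z, fun h => ?_⟩
  rw [ad_scalar, h, one_pow] at hz
  exact lt_irrefl _ hz

theorem absE_sig_inv (hq : QuadDatum σ δ d) (z : Eˣ) :
    absE (Units.map (σ : E →* E) z)⁻¹ = (absE z)⁻¹ := by
  rw [absE_inv, absE_sig hq z (Units.map (σ : E →* E) z) rfl]

/-- the exponents, order `(m, m)` -/
theorem exp_two {x : ℝ} (hx : 0 < x) (hx1 : x ≠ 1) (hm : 0 < m) :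
    x ^ ((m : ℝ) * (((m : ℝ) + 1) / 2) - (m : ℝ) * (-(((m : ℝ) + 1) / 2))) ≠
      x ^ ((m : ℝ) * (m : ℝ) - (m : ℝ) / 2) := by
  intro h
  have h1 := (Real.rpow_right_inj hx hx1).1 h
  have h2 : (0 : ℝ) < m := by exact_mod_cast hm
  nlinarith

/-- `mackey_two` from the general Mackey bound. -/
theorem mackey_two_of (hq : QuadDatum σ δ d) (hm : 0 < m)
    {π : GL (Fin m) E →* Module.End ℂ V} (hu : UnitCentral π) (hb : m - m + m = m) {C : Prop}
    (hMk : ∀ (z : Eˣ) (cA : ℂ),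
      (∀ v, π (Matrix.GeneralLinearGroup.scalar (Fin m) z) v = cA • v) →
      ∀ Z : GL (Fin m) E, Z = pelJ hb 1 (Matrix.GeneralLinearGroup.scalar (Fin m)
        (Units.map (σ : E →* E) z)⁻¹) 0 → ∀ c₁ c₂ : ℂ,
      (∀ v, π Z (π Z v) - (c₁ + c₂) • π Z v + (c₁ * c₂) • v ∈ cvN π (Nk m (m - m) E) ⊤) →
      ‖cA‖ * ‖c₁‖ * absE z ^ ((m : ℝ) * (((m : ℝ) + 1) / 2) -
          (m : ℝ) * (-(((m : ℝ) + 1) / 2))) ≠
        absE z ^ ((m : ℝ) * (m : ℝ) - (m : ℝ) / 2) →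
      ‖cA‖ * ‖c₂‖ * absE z ^ ((m : ℝ) * (((m : ℝ) + 1) / 2) -
          (m : ℝ) * (-(((m : ℝ) + 1) / 2))) ≠
        absE z ^ ((m : ℝ) * (m : ℝ) - (m : ℝ) / 2) → C) : C := by
  obtain ⟨χ, hχ1, hχ⟩ := hu
  obtain ⟨z, hz⟩ := exists_absE_ne (E := E) hm
  have hZ := pelJ_one_scalar hb (Nat.sub_self m) (Units.map (σ : E →* E) z)⁻¹
  have hne : ‖χ z‖ * ‖χ (Units.map (σ : E →* E) z)⁻¹‖ * absE z ^ ((m : ℝ) * (((m : ℝ) + 1) / 2) -
          (m : ℝ) * (-(((m : ℝ) + 1) / 2))) ≠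
        absE z ^ ((m : ℝ) * (m : ℝ) - (m : ℝ) / 2) := by
    rw [hχ1, hχ1, one_mul, one_mul]
    exact exp_two (absE_pos z) hz hm
  refine hMk z (χ z) (hχ z) _ rfl (χ (Units.map (σ : E →* E) z)⁻¹)
    (χ (Units.map (σ : E →* E) z)⁻¹) (fun v => ?_) hne hne
  rw [hZ, hχ, hχ, smul_smul, smul_smul, ← sub_smul, ← add_smul]
  have : ∀ c : ℂ, c * c - (c + c) * c + c * c = 0 := by intro c; ring
  rw [this, zero_smul]
  exact Submodule.zero_mem _

/-- the exponents, order `(m, 2m)` -/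
theorem exp_three {x : ℝ} (hx : 0 < x) (hx1 : x ≠ 1) (hm : 0 < m) {e : ℝ}
    (he : e ≠ (m : ℝ) * m / 2 - 3 * m / 2) :
    x ^ e * x ^ ((m : ℝ) * ((m : ℝ) + 1) - (m : ℝ) * (-((m : ℝ) / 2))) ≠
      x ^ ((m : ℝ) * ((2 * m : ℕ) : ℝ) - (m : ℝ) / 2) := by
  intro h
  rw [← Real.rpow_add hx] at h
  have h1 := (Real.rpow_right_inj hx hx1).1 h
  apply he
  push_cast at h1
  linarith

/-- `mackey_three` from the general Mackey bound. -/
theorem mackey_three_of (hq : QuadDatum σ δ d) (hm : 0 < m)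
    {π : GL (Fin m) E →* Module.End ℂ V} (hπ : IsSmoothRep π) (hc : IsCusp π)
    (hu : UnitCentral π) {κ : GL (Fin m) E →* Module.End ℂ V₁} (hκu : UnitCentral κ)
    {B : GL (Fin (2 * m)) E →* Module.End ℂ W}
    (ι : W →ₗ[ℂ] Ind (rho π (((m : ℝ) + 1) / 2))) (hι : Function.Injective ι)
    (hιG : ∀ g w, ι (B g w) = repI π g (ι w)) (hb : 2 * m - m + m = 2 * m) {C : Prop}
    (hMk : ∀ (z : Eˣ) (cA : ℂ),
      (∀ v, κ (Matrix.GeneralLinearGroup.scalar (Fin m) z) v = cA • v) →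
      ∀ Z : GL (Fin (2 * m)) E, Z = pelJ hb 1 (Matrix.GeneralLinearGroup.scalar (Fin m)
        (Units.map (σ : E →* E) z)⁻¹) 0 → ∀ c₁ c₂ : ℂ,
      (∀ v, B Z (B Z v) - (c₁ + c₂) • B Z v + (c₁ * c₂) • v ∈
        cvN B (Nk (2 * m) (2 * m - m) E) ⊤) →
      ‖cA‖ * ‖c₁‖ * absE z ^ ((m : ℝ) * ((m : ℝ) + 1) - (m : ℝ) * (-((m : ℝ) / 2))) ≠
        absE z ^ ((m : ℝ) * ((2 * m : ℕ) : ℝ) - (m : ℝ) / 2) →
      ‖cA‖ * ‖c₂‖ * absE z ^ ((m : ℝ) * ((m : ℝ) + 1) - (m : ℝ) * (-((m : ℝ) / 2))) ≠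
        absE z ^ ((m : ℝ) * ((2 * m : ℕ) : ℝ) - (m : ℝ) / 2) → C) : C := by
  obtain ⟨χ, hχ1, hχ⟩ := id hu
  obtain ⟨χ', hχ1', hχ'⟩ := hκu
  obtain ⟨z, hz⟩ := exists_absE_ne (E := E) hm
  have hm0 : (0 : ℝ) < m := by exact_mod_cast hm
  set y : Eˣ := (Units.map (σ : E →* E) z)⁻¹ with hy
  have hys : absE y = (absE z)⁻¹ := absE_sig_inv hq z
  have had : ∀ t : ℝ, ‖(((ad (Matrix.GeneralLinearGroup.scalar (R := E) (Fin m) y) ^ (-t) : ℝ) :
      ℂ) * χ y)‖ = absE z ^ ((m : ℝ) * t) := by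
    intro t
    rw [norm_mul, hχ1, mul_one, Complex.norm_real, Real.norm_eq_abs,
      abs_of_pos (Real.rpow_pos_of_pos (ad_pos _) _), ad_scalar, hys, inv_pow,
      Real.rpow_neg (inv_nonneg.2 (pow_nonneg (absE_pos z).le _)),
      Real.inv_rpow (pow_nonneg (absE_pos z).le _), inv_inv, ← Real.rpow_natCast,
      ← Real.rpow_mul (absE_pos z).le]
  have hZ : pelJ hb (1 : GL (Fin (2 * m - m)) E) (Matrix.GeneralLinearGroup.scalar (Fin m) y) 0 =
      pel 1 (Matrix.GeneralLinearGroup.scalar (Fin m) y) 0 := by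
    rw [pelJ_one_congr hb (two_mul m).symm]
    exact pelJ_two _ _ _
  have h2m : 2 * m - m = m := by omega
  refine hMk z (χ' z) (hχ' z) _ rfl
    (((ad (Matrix.GeneralLinearGroup.scalar (R := E) (Fin m) y) ^
      (-(((m : ℝ) + 1) / 2)) : ℝ) : ℂ) * χ y)
    (((ad (Matrix.GeneralLinearGroup.scalar (R := E) (Fin m) y) ^
      (-((m : ℝ) - ((m : ℝ) + 1) / 2)) : ℝ) : ℂ) * χ y) (fun v => ?_) ?_ ?_
  · rw [hZ, h2m]
    refine cvN_of_inj (ind_smooth (rho π (((m : ℝ) + 1) / 2))) hι hιG ?_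
    rw [map_add, map_sub, map_smul, map_smul, hιG, hιG]
    exact ind_two_eig hm hπ hc hu hχ (by intro h; linarith) y rfl rfl (ι v)
  · rw [hχ1', one_mul, had]
    refine exp_three (absE_pos z) hz hm ?_
    intro h
    nlinarith
  · rw [hχ1', one_mul, had]
    refine exp_three (absE_pos z) hz hm ?_
    intro h
    nlinarith

end main

end SpW
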