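import Pool.Agent.Work.MP_3615d2_al.P1.Tasks
import Pool.Agent.Work.MP_3615d2_al.P1.Fib
import Pool.Agent.Work.MP_3615d2_al.Co.CommFin
import Pool.Agent.Work.MP_3615d2_al.Clo.ClosedFin
import Pool.Agent.Work.MP_3615d2_al.P1.DimM
import Pool.Agent.Work.MP_3615d2_al.P1.Mack23
import Pool.Agent.Work.MP_3615d2_al.P1.DefsQ
import Pool.Agent.Work.MP_3615d2_al.P1.FreezeW
import Pool.Agent.Work.MP_3615d2_al.P1.Normal
import Pool.Agent.Work.MP_3615d2_al.P1.Kap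
import Pool.Agent.Work.MP_3615d2_al.Red
import Pool.Agent.Work.MP_3615d2_al.WeMain

/-!
MP_3615d2_al, Part 1 (note 6734, section 8): the assembly.
-/

open MeasureTheory Filter Topology Matrix
open scoped TensorProduct

namespace SpW

open P1Tasks (mackey)

variable {F E : Type} [NontriviallyNormedField F] [IsUltrametricDist F] [ProperSpace F]
  [NontriviallyNormedField E] [NormedAlgebra F E] [IsUltrametricDist E] [ProperSpace E]
  [MeasurableSpace E] [BorelSpace E]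
  {σ : E ≃ₐ[F] E} {δ : E} {d : F} {ψ : AddChar F Circle} {μ : Eˣ →* ℂˣ}
  {m : ℕ} {V W₀ S : Type}
  [AddCommGroup V] [Module ℂ V] [AddCommGroup W₀] [Module ℂ W₀] [AddCommGroup S] [Module ℂ S]

/-! ### from the Mackey bound (DRAFT part: replaced by MackFin and Dim) -/

theorem mackey_two (hq : QuadDatum σ δ d) (hm : 0 < m)
    {H : Matrix (Fin (2 * m)) (Fin (2 * m)) E} (hH : IsSkew σ H) (hψ : Continuous ψ) (hψ1 : ψ ≠ 1)
    (hμ : ConjSymplectic F μ) {ρ : (Fin (2 * m) → E) → Module.End ℂ S}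
    {ω : unitary σ H →* Module.End ℂ S} (hW : IsWeil σ H ψ μ ρ ω)
    {π : GL (Fin m) E →* Module.End ℂ V} (hπ : IsSmoothRep π) (hirr : IsIrrRep π) (hc : IsCusp π)
    (hu : UnitCentral π)
    (β : Ind (rho π (((m : ℝ) + 1) / 2)) →ₗ[ℂ] S →ₗ[ℂ] ℂ) (hβ : InvForm σ H (repI π) ω β)
    (hopen : ∀ f : Ind (rho π (((m : ℝ) + 1) / 2)),
      (∀ g, (upLJ (two_mul m).symm (GM σ H g)).det = 0 →
        (f : GL (Fin (2 * m)) E → V ⊗[ℂ] V) g = 0) → ∀ s, β f s = 0) : β = 0 :=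
  mackey_two_of (σ := σ) hq hm hu (by omega) fun z _ hcA Z hZ _ _ hB2 hc₁ hc₂ =>
    mackey hq hm (two_mul m).symm (by omega) hH hψ hψ1 hμ hW hπ hc hπ (((m:ℝ)+1)/2)
      (-(((m:ℝ)+1)/2)) z hcA Z hZ hB2 hc₁ hc₂ β hβ hopen

theorem mackey_three (hq : QuadDatum σ δ d) (hm : 0 < m)
    {H : Matrix (Fin (3 * m)) (Fin (3 * m)) E} (hH : IsSkew σ H) (hψ : Continuous ψ) (hψ1 : ψ ≠ 1)
    (hμ : ConjSymplectic F μ) {ρ : (Fin (3 * m) → E) → Module.End ℂ S}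
    {ω : unitary σ H →* Module.End ℂ S} (hW : IsWeil σ H ψ μ ρ ω)
    {π : GL (Fin m) E →* Module.End ℂ V} (hπ : IsSmoothRep π) (hc : IsCusp π)
    (hu : UnitCentral π) {V₁ W : Type} [AddCommGroup V₁] [Module ℂ V₁] [AddCommGroup W] [Module ℂ W]
    {κ : GL (Fin m) E →* Module.End ℂ V₁} (hκ : IsSmoothRep κ) (hκc : IsCusp κ)
    (hκu : UnitCentral κ) {B : GL (Fin (2 * m)) E →* Module.End ℂ W}
    (ι : W →ₗ[ℂ] Ind (rho π (((m : ℝ) + 1) / 2))) (hι : Function.Injective ι)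
    (hιG : ∀ g w, ι (B g w) = repI π g (ι w))
    (β : IndJ (m12 m) (rKB κ B) →ₗ[ℂ] S →ₗ[ℂ] ℂ)
    (hβ : InvForm σ H (indActJ (m12 m) (rKB κ B)) ω β)
    (hopen : ∀ f : IndJ (m12 m) (rKB κ B),
      (∀ g, (upLJ (m12 m) (GM σ H g)).det = 0 →
        (f : GL (Fin (3 * m)) E → V₁ ⊗[ℂ] W) g = 0) → ∀ s, β f s = 0) : β = 0 :=
  mackey_three_of (σ := σ) hq hm hπ hc hu hκu ι hι hιG (by omega)
    fun z _ hcA Z hZ _ _ hB2 hc₁ hc₂ =>
    mackey hq hm (m12 m) (by omega) hH hψ hψ1 hμ hW hκ hκc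
      (smooth_of_inj hι hιG (ind_smooth _)) ((m : ℝ) + 1) (-((m : ℝ) / 2))
      z hcA Z hZ hB2 hc₁ hc₂ β hβ hopen

/-- the last step: a form on `κν × I` whose restriction to `κν × D` is not zero gives a form on
`I` which is not zero on `D`. -/
theorem asm_end (hq : QuadDatum σ δ d) (hψ : Continuous ψ) (hψ1 : ψ ≠ 1)
    (hμ : ConjSymplectic F μ) {V₁ : Type} [AddCommGroup V₁] [Module ℂ V₁]
    {κ : GL (Fin m) E →* Module.End ℂ V₁} (hκ : IsSmoothRep κ)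
    {I W : Type} [AddCommGroup I] [Module ℂ I] [AddCommGroup W] [Module ℂ W]
    {A : GL (Fin (2 * m)) E →* Module.End ℂ I} (hA : IsSmoothRep A)
    {B : GL (Fin (2 * m)) E →* Module.End ℂ W} (ι : W →ₗ[ℂ] I) (hι : Function.Injective ι)
    (hιG : ∀ g w, ι (B g w) = A g (ι w))
    {H : Matrix (Fin (3 * m)) (Fin (3 * m)) E} (hH : IsSkew σ H)
    {ρ : (Fin (3 * m) → E) → Module.End ℂ S}
    {ω : unitary σ H →* Module.End ℂ S} (hW : IsWeil σ H ψ μ ρ ω)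
    (hmac : ∀ β : IndJ (m12 m) (rKB κ B) →ₗ[ℂ] S →ₗ[ℂ] ℂ,
      InvForm σ H (indActJ (m12 m) (rKB κ B)) ω β →
      (∀ f : IndJ (m12 m) (rKB κ B), (∀ g, (upLJ (m12 m) (GM σ H g)).det = 0 →
        (f : GL (Fin (3 * m)) E → V₁ ⊗[ℂ] W) g = 0) → ∀ s, β f s = 0) → β = 0)
    (β : IndJ (m12 m) (rKB κ A) →ₗ[ℂ] S →ₗ[ℂ] ℂ)
    (hβ : InvForm σ H (indActJ (m12 m) (rKB κ A)) ω β)
    (f : IndJ (m12 m) (rKB κ A)) (s : S)
    (hf : ∀ g, (f : GL (Fin (3 * m)) E → V₁ ⊗[ℂ] I) g ∈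
      LinearMap.range (TensorProduct.map (LinearMap.id (M := V₁) (R := ℂ)) ι))
    (hne : β f s ≠ 0) :
    ∃ H₂ : Matrix (Fin (2 * m)) (Fin (2 * m)) E, IsSkew σ H₂ ∧
      ∃ (S₂ : Type) (_ : AddCommGroup S₂) (_ : Module ℂ S₂)
        (ρ₂ : (Fin (2 * m) → E) → Module.End ℂ S₂) (ω₂ : unitary σ H₂ →* Module.End ℂ S₂)
        (β₂ : I →ₗ[ℂ] S₂ →ₗ[ℂ] ℂ) (w : W) (s₂ : S₂),
        IsWeil σ H₂ ψ μ ρ₂ ω₂ ∧ InvForm σ H₂ A ω₂ β₂ ∧ β₂ (ι w) s₂ ≠ 0 := by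
  set φ : V₁ ⊗[ℂ] W →ₗ[ℂ] V₁ ⊗[ℂ] I := TensorProduct.map LinearMap.id ι with hφd
  have hφi : Function.Injective φ := by
    have h1 := Module.Flat.lTensor_preserves_injective_linearMap (M := V₁) ι hι
    exact h1
  have hφ : ∀ p w, φ (rKB κ B p w) = rKB κ A p (φ w) := oten_map_rightQ hιG
  have hτ : IsSmoothRep (rKB κ A) := oten_smoothQ hκ hA _ _
  obtain ⟨bx, hb1, hb2, -⟩ := exists_fib hq (m12 m) hH hτ hW.om_smooth β hβ
  -- some fibre form is not zero on the values in `V₁ ⊗ W`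
  obtain ⟨x, H₁, H₂, hH₁, hH₂, hx, w, s', hbx⟩ : ∃ (x : GL (Fin (3 * m)) E)
      (H₁ : Matrix (Fin m) (Fin m) E) (H₂ : Matrix (Fin (2 * m)) (Fin (2 * m)) E),
      IsSkew σ H₁ ∧ IsSkew σ H₂ ∧ GM σ H x = bmJ (m12 m) H₁ 0 0 H₂ ∧
      ∃ (w : V₁ ⊗[ℂ] W) (s' : S), bx x (φ w) s' ≠ 0 := by
    by_contra hcon
    push Not at hcon
    obtain ⟨f', hf'⟩ := exists_mapJ_eq (m12 m) hφi hφ f hf
    have h1 := hmac (β.comp (mapJ (m12 m) φ hφ)) (hβ.comp _ fun g v => mapJ_act (m12 m) φ hφ g v)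
      (by
        intro f'' hf'' s''
        refine hb2 (mapJ (m12 m) φ hφ f'') s'' (fun g hg => ?_) fun x H₁ H₂ h1 h2 h3 => ?_
        · rw [mapJ_apply, hf'' g hg, map_zero]
        · rw [mapJ_apply]
          exact hcon x H₁ H₂ h1 h2 h3 _ _)
    apply hne
    have h2 := LinearMap.congr_fun (LinearMap.congr_fun h1 f') s
    rw [LinearMap.comp_apply, hf'] at h2
    exact h2
  obtain ⟨S₁, _, _, ρ₁, ω₁, hW₁⟩ := weil_exists (H := H₁) hq hH₁ hψ hψ1 hμ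
  obtain ⟨S₂, _, _, ρ₂, ω₂, hW₂⟩ := weil_exists (H := H₂) hq hH₂ hψ hψ1 hμ
  obtain ⟨j, hj⟩ := weil_tens_x (m12 m) hq hH hψ hψ1 hx hW hW₁ hW₂
  have h3 := frz_fib (ω₁ := ω₁) (ω₂ := ω₂) (m12 m) (s := (m : ℝ) + 1) (t := -((m : ℝ) / 2))
    (π₁ := κ) (π₂ := A) hq hH hx (bx := bx x) (fun u₁ u₂ u h w z => by
      refine hb1 x H₁ H₂ hH₁ hH₂ hx u₁ u₂ u ?_ w z
      rw [h]
      group) hj
  -- freeze the first factors
  obtain ⟨v, w', z, s₂, h4⟩ : ∃ v w' z s₂, bx x (v ⊗ₜ[ℂ] ι w') (j (z ⊗ₜ[ℂ] s₂)) ≠ 0 := by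
    by_contra hcon
    push Not at hcon
    apply hbx
    have h5 : ∀ w z, bx x (φ w) (j z) = 0 := by
      intro w z
      induction w using TensorProduct.induction_on with
      | zero => rw [map_zero, map_zero, LinearMap.zero_apply]
      | tmul v w' =>
        rw [hφd, TensorProduct.map_tmul, LinearMap.id_apply]
        induction z using TensorProduct.induction_on with
        | zero => rw [map_zero, map_zero]
        | tmul z s₂ => exact hcon v w' z s₂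
        | add a b ha hb => rw [map_add, map_add, ha, hb, add_zero]
      | add a b ha hb => rw [map_add, map_add, LinearMap.add_apply, ha, hb, add_zero]
    have h6 := h5 w (j.symm s')
    rwa [LinearEquiv.apply_symm_apply] at h6
  exact ⟨H₂, hH₂, S₂, inferInstance, inferInstance, ρ₂, ω₂, frzR (pullS (bx x) j) v z, w', s₂, hW₂,
    h3.2 v z, h4⟩

section abs

variable {G I V₁ : Type} [Group G] [AddCommGroup I] [Module ℂ I] [AddCommGroup V₁] [Module ℂ V₁]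

/-- A stable subspace as an abstract representation. -/
theorem exists_abs_sub (A : G →* Module.End ℂ I) (D : Submodule ℂ I) (hD : IsStab A D) :
    ∃ (W : Type) (_ : AddCommGroup W) (_ : Module ℂ W) (B : G →* Module.End ℂ W) (ι : W →ₗ[ℂ] I),
      Function.Injective ι ∧ (∀ g w, ι (B g w) = A g (ι w)) ∧ LinearMap.range ι = D :=
  ⟨D, inferInstance, inferInstance, subRep A D hD, D.subtype, Submodule.injective_subtype _,
    fun g w => rfl, Submodule.range_subtype D⟩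

theorem range_map_left {W : Type} [AddCommGroup W] [Module ℂ W] (ι : W →ₗ[ℂ] I)
    (D : Submodule ℂ I) (h : LinearMap.range ι = D) :
    LinearMap.range (TensorProduct.map D.subtype (LinearMap.id (M := V₁) (R := ℂ))) =
      LinearMap.range (TensorProduct.map ι (LinearMap.id (M := V₁) (R := ℂ))) := by
  subst h
  apply le_antisymm
  · rintro _ ⟨x, rfl⟩
    induction x using TensorProduct.induction_on with
    | zero => rw [map_zero]; exact Submodule.zero_mem _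
    | tmul x y =>
      obtain ⟨_, w, rfl⟩ := x
      exact ⟨w ⊗ₜ y, by rw [TensorProduct.map_tmul, TensorProduct.map_tmul]; rfl⟩
    | add a b ha hb => rw [map_add]; exact Submodule.add_mem _ ha hb
  · rintro _ ⟨x, rfl⟩
    induction x using TensorProduct.induction_on with
    | zero => rw [map_zero]; exact Submodule.zero_mem _
    | tmul x y =>
      exact ⟨(⟨ι x, ⟨x, rfl⟩⟩ : LinearMap.range ι) ⊗ₜ y, by
        rw [TensorProduct.map_tmul, TensorProduct.map_tmul]; rfl⟩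
    | add a b ha hb => rw [map_add]; exact Submodule.add_mem _ ha hb

theorem range_map_right {W : Type} [AddCommGroup W] [Module ℂ W] (ι : W →ₗ[ℂ] I)
    (D : Submodule ℂ I) (h : LinearMap.range ι = D) :
    LinearMap.range (TensorProduct.map (LinearMap.id (M := V₁) (R := ℂ)) D.subtype) =
      LinearMap.range (TensorProduct.map (LinearMap.id (M := V₁) (R := ℂ)) ι) := by
  subst h
  apply le_antisymm
  · rintro _ ⟨x, rfl⟩
    induction x using TensorProduct.induction_on with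
    | zero => rw [map_zero]; exact Submodule.zero_mem _
    | tmul y x =>
      obtain ⟨_, w, rfl⟩ := x
      exact ⟨y ⊗ₜ w, by rw [TensorProduct.map_tmul, TensorProduct.map_tmul]; rfl⟩
    | add a b ha hb => rw [map_add]; exact Submodule.add_mem _ ha hb
  · rintro _ ⟨x, rfl⟩
    induction x using TensorProduct.induction_on with
    | zero => rw [map_zero]; exact Submodule.zero_mem _
    | tmul y x =>
      exact ⟨y ⊗ₜ (⟨ι x, ⟨x, rfl⟩⟩ : LinearMap.range ι), by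
        rw [TensorProduct.map_tmul, TensorProduct.map_tmul]; rfl⟩
    | add a b ha hb => rw [map_add]; exact Submodule.add_mem _ ha hb

end abs

/-- The middle part of the assembly, for abstract representations `A` of `GL_{2m}(E)` (for us: `I`)
and `B ⊆ A` (for us: `D`). -/
theorem asm_core (hq : QuadDatum σ δ d) (hm : 0 < m) (hψ : Continuous ψ) (hψ1 : ψ ≠ 1)
    (hμ : ConjSymplectic F μ)
    {π : GL (Fin m) E →* Module.End ℂ V} (hπ : IsSmoothRep π) (hirr : IsIrrRep π) (hc : IsCusp π)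
    (hu : UnitCentral π)
    {I W : Type} [AddCommGroup I] [Module ℂ I] [AddCommGroup W] [Module ℂ W]
    {A : GL (Fin (2 * m)) E →* Module.End ℂ I} (hA : IsSmoothRep A) (e₁ : I →ₗ[ℂ] V ⊗[ℂ] V)
    (he₁ : ∀ a d y w, e₁ (A (pel a d y) w) = rho π (((m : ℝ) + 1) / 2) (a, d) (e₁ w))
    {B : GL (Fin (2 * m)) E →* Module.End ℂ W} (ι : W →ₗ[ℂ] I) (hι : Function.Injective ι)
    (hιG : ∀ g w, ι (B g w) = A g (ι w)) (hev : ∀ v, ∃ w, e₁ (ι w) = v)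
    {H₀ : Matrix (Fin m) (Fin m) E} (hH₀ : IsSkew σ H₀) {S₀ : Type} [AddCommGroup S₀] [Module ℂ S₀]
    {ρ₀ : (Fin m → E) → Module.End ℂ S₀} {ω₀ : unitary σ H₀ →* Module.End ℂ S₀}
    (hW₀ : IsWeil σ H₀ ψ μ ρ₀ ω₀) (β₀ : V →ₗ[ℂ] S₀ →ₗ[ℂ] ℂ) (hβ₀ : InvForm σ H₀ π ω₀ β₀)
    (hβ₀0 : β₀ ≠ 0)
    (hmac : ∀ {H : Matrix (Fin (3 * m)) (Fin (3 * m)) E} {S : Type} [AddCommGroup S] [Module ℂ S]
      {ρ : (Fin (3 * m) → E) → Module.End ℂ S} {ω : unitary σ H →* Module.End ℂ S},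
      IsSkew σ H → IsWeil σ H ψ μ ρ ω →
      ∀ β : IndJ (m12 m) (rKB (kap σ μ π) B) →ₗ[ℂ] S →ₗ[ℂ] ℂ,
      InvForm σ H (indActJ (m12 m) (rKB (kap σ μ π) B)) ω β →
      (∀ f : IndJ (m12 m) (rKB (kap σ μ π) B), (∀ g, (upLJ (m12 m) (GM σ H g)).det = 0 →
        (f : GL (Fin (3 * m)) E → V ⊗[ℂ] W) g = 0) → ∀ s, β f s = 0) → β = 0)
    (M : IndJ (m12 m) (rKB (kap σ μ π) A) →ₗ[ℂ] IndJ (m21 m) (rBK A (kap σ μ π)))
    (hM : ∀ g f, M (indActJ (m12 m) (rKB (kap σ μ π) A) g f) =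
        indActJ (m21 m) (rBK A (kap σ μ π)) g (M f))
    (hMD : ∀ f : IndJ (m21 m) (rBK A (kap σ μ π)),
        (∀ g, (f : GL (Fin (3 * m)) E → I ⊗[ℂ] V) g ∈ LinearMap.range
          (TensorProduct.map ι (LinearMap.id (M := V) (R := ℂ)))) →
        ∃ f' : IndJ (m12 m) (rKB (kap σ μ π) A),
          (∀ g, (f' : GL (Fin (3 * m)) E → V ⊗[ℂ] I) g ∈ LinearMap.range
            (TensorProduct.map (LinearMap.id (M := V) (R := ℂ)) ι)) ∧ M f' = f) :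
    ∃ H₂ : Matrix (Fin (2 * m)) (Fin (2 * m)) E, IsSkew σ H₂ ∧
      ∃ (S₂ : Type) (_ : AddCommGroup S₂) (_ : Module ℂ S₂)
        (ρ₂ : (Fin (2 * m) → E) → Module.End ℂ S₂) (ω₂ : unitary σ H₂ →* Module.End ℂ S₂)
        (β₂ : I →ₗ[ℂ] S₂ →ₗ[ℂ] ℂ) (w : W) (s₂ : S₂),
        IsWeil σ H₂ ψ μ ρ₂ ω₂ ∧ InvForm σ H₂ A ω₂ β₂ ∧ β₂ (ι w) s₂ ≠ 0 := by
  have hX : IsSkew σ (hyp3 (two_mul m).symm (m21 m) H₀) := isSkew_hyp3 _ _ hH₀
  obtain ⟨SX, _, _, ρX, ωX, hWX⟩ := weil_exists (μ := μ) hq hX hψ hψ1 hμ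
  have hκs : IsSmoothRep (kap σ μ π) := kap_smooth hq hμ hπ
  obtain ⟨βc, hβc, hβcD⟩ := exists_closed hq hm hψ hψ1 hμ hπ hirr hc hu hH₀ hW₀ β₀ hβ₀ hβ₀0 hWX
    hA e₁ he₁
  obtain ⟨f, s, hf, hfs⟩ := hβcD (LinearMap.range ι) (by
    rintro g _ ⟨w, rfl⟩
    exact ⟨B g w, hιG g w⟩) (fun v => by
    obtain ⟨w, hw⟩ := hev v
    exact ⟨ι w, ⟨w, rfl⟩, hw⟩)
  rw [range_map_left ι _ rfl] at hf
  obtain ⟨f', hf', hMf'⟩ := hMD f hf
  exact asm_end (κ := kap σ μ π) hq hψ hψ1 hμ hκs hA ι hι hιG hX hWX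
      (fun β hβ h => hmac hX hWX β hβ h)
      (βc.comp M) (hβc.comp M hM) f' s hf' (by
        rw [LinearMap.comp_apply, hMf']
        exact hfs)

/-- **Part 1**: an invariant form on `τ × S`, `τ` an irreducible quotient of `I`, is zero. -/
theorem part1 (hq : QuadDatum σ δ d) (hm : 0 < m) (hψ : Continuous ψ) (hψ1 : ψ ≠ 1)
    (hμ : ConjSymplectic F μ) {ψE : AddChar E Circle} (hψE : Continuous ψE) (hψE1 : ψE ≠ 1)
    {π : GL (Fin m) E →* Module.End ℂ V} (hπ : IsSmoothRep π) (hirr : IsIrrRep π) (hc : IsCusp π)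
    (hu : UnitCentral π) (hMO : MOForm F σ π)
    {τ : GL (Fin (2 * m)) E →* Module.End ℂ W₀} (hτ : IsIrrRep τ)
    (q : Ind (rho π (((m : ℝ) + 1) / 2)) →ₗ[ℂ] W₀) (hqs : Function.Surjective q)
    (hqG : ∀ g f, q (repI π g f) = τ g (q f))
    {HZ : Matrix (Fin (2 * m)) (Fin (2 * m)) E} (hZ : IsSkew σ HZ)
    {ρ : (Fin (2 * m) → E) → Module.End ℂ S} {ω : unitary σ HZ →* Module.End ℂ S}
    (hW : IsWeil σ HZ ψ μ ρ ω)
    (T : W₀ →ₗ[ℂ] S →ₗ[ℂ] ℂ) (hT : InvForm σ HZ τ ω T) : T = 0 := by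
  by_contra hT0
  have h2E : (2 : E) ≠ 0 := hq.two_E
  -- the form on `I`
  set β : Ind (rho π (((m : ℝ) + 1) / 2)) →ₗ[ℂ] S →ₗ[ℂ] ℂ := T.comp q with hβd
  have hβ : InvForm σ HZ (repI π) ω β := hT.comp q hqG
  have hβ0 : β ≠ 0 := by
    intro h
    apply hT0
    apply LinearMap.ext
    intro w
    obtain ⟨f, rfl⟩ := hqs w
    exact LinearMap.congr_fun h f
  have hker : ∀ f ∈ LinearMap.ker q, ∀ s, β f s = 0 := by
    intro f hf s
    rw [hβd, LinearMap.comp_apply, LinearMap.mem_ker.1 hf, map_zero, LinearMap.zero_apply]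
  have hstab : IsStab (repI π) (LinearMap.ker q) := by
    intro g f hf
    rw [LinearMap.mem_ker, hqG, LinearMap.mem_ker.1 hf, map_zero]
  obtain ⟨H₀, hH₀, S₀, _, _, ρ₀, ω₀, β₀, hW₀, hβ₀, hβ₀0⟩ :=
    dim_exists_of hq hψ hψ1 hμ hπ hZ hW
      (fun β hβ h => mackey_two hq hm hZ hψ hψ1 hμ hW hπ hirr hc hu β hβ h) β hβ hβ0
  obtain ⟨W, _, _, B, ι, hι, hιG, hιr⟩ := exists_abs_sub (repI π) (LinearMap.ker q) hstab
  -- properties of `κ`
  have hκs : IsSmoothRep (kap σ μ π) := kap_smooth hq hμ hπ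
  have hκi : IsIrrRep (kap σ μ π) := kap_irr hirr
  have hκc : IsCusp (kap σ μ π) := kap_cusp hq hc
  have hκu : UnitCentral (kap σ μ π) := kap_unit hq hμ hu
  have hev : ∀ v : V ⊗[ℂ] V, ∃ w, ev1 (rho π (((m : ℝ) + 1) / 2)) (ι w) = v := by
    obtain ⟨e', -, -, -, hred⟩ := ker_quot_coinv hm h2E ψE hψE hψE1 hπ hirr hc hu
    intro v
    obtain ⟨f, hf, hfw⟩ := (hred hτ q hqs hqG).2.1 v
    obtain ⟨w, hw⟩ : f ∈ LinearMap.range ι := by rw [hιr]; exact hf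
    exact ⟨w, by rw [hw]; exact hfw⟩
  obtain ⟨M, hM, hMD⟩ := exists_comm hm h2E ψE hψE hψE1 hπ hirr hc hu hκs hκi hκc hκu hτ q hqs hqG
  rw [range_map_left ι _ hιr, range_map_right ι _ hιr] at hMD
  obtain ⟨H₂, hH₂, S₂, _, _, ρ₂, ω₂, β₂, w, s₂, hW₂, hβ₂, hne⟩ :=
    asm_core hq hm hψ hψ1 hμ hπ hirr hc hu (A := repI π) (ind_smooth _)
      (ev1 _) (fun a d y w => ev1_pel _ a d y w) (B := B) ι hι hιG hev hH₀ hW₀ β₀ hβ₀ hβ₀0
      (fun hH hW β hβ h => mackey_three hq hm hH hψ hψ1 hμ hW hπ hc hu hκs hκc hκu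
        ι hι hιG β hβ h) M hM hMD
  exact hne (dim_kill_of hq hψ hψ1 hμ hπ hMO hZ hW
    (fun β hβ h => mackey_two hq hm hZ hψ hψ1 hμ hW hπ hirr hc hu β hβ h) β hβ hβ0 hH₂ hW₂
    (fun β hβ h => mackey_two hq hm hH₂ hψ hψ1 hμ hW₂ hπ hirr hc hu β hβ h) β₂ hβ₂
    (LinearMap.ker q) hstab hker (ι w) (by rw [← hιr]; exact ⟨w, rfl⟩) s₂)

end SpW
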