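import Pool.Agent.Work.MP_3615d2_al.Bridge
import Pool.Agent.Work.MP_3615d2_al.CptOpen
import Pool.Agent.Work.MP_3615d2_al.HermClass

/-!
MP_3615d2_al, Part 1: the unitary group is generated by compact elements (quasi-reflections), hence
unimodular.
-/

open MeasureTheory MeasureTheory.Measure Filter Topology Matrix
open scoped NNReal ENNReal

set_option linter.unusedSectionVars false

namespace SpW.P1

section abs

/-- `G` is generated by elements of compact open subgroups. -/
def CGen (G : Type) [Group G] [TopologicalSpace G] : Prop :=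
  Subgroup.closure {g : G | ∃ C : Subgroup G, IsOpen (C : Set G) ∧ IsCompact (C : Set G) ∧ g ∈ C}
    = ⊤

variable {G : Type} [Group G] [TopologicalSpace G] [IsTopologicalGroup G]

theorem modular_of_mem [LocallyCompactSpace G] {C : Subgroup G} (hCo : IsOpen (C : Set G))
    (hCc : IsCompact (C : Set G)) {g : G} (hg : g ∈ C) : modularCharacterFun g = 1 := by
  borelize G
  let μ : Measure G := Measure.haar
  have hpos : μ (C : Set G) ≠ 0 := (hCo.measure_pos μ ⟨1, one_mem C⟩).ne'
  have hfin : μ (C : Set G) ≠ ⊤ := hCc.measure_lt_top.ne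
  have h2 := measure_isHaarMeasure_eq_smul_of_isOpen (map (· * g) μ) μ hCo
  rw [← modularCharacterFun_eq_haarScalarFactor μ g,
    Measure.map_apply (measurable_mul_const g) hCo.measurableSet] at h2
  have h3 : (fun x => x * g) ⁻¹' (C : Set G) = (C : Set G) := by
    ext x
    exact C.mul_mem_cancel_right hg
  rw [h3, ENNReal.smul_def, smul_eq_mul] at h2
  have h4 : ((modularCharacterFun g : ℝ≥0) : ℝ≥0∞) * μ (C : Set G) = 1 * μ (C : Set G) := by
    rw [← h2, one_mul]
  have h5 := (ENNReal.mul_left_inj hpos hfin).1 h4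
  exact_mod_cast h5

theorem CGen.modular [LocallyCompactSpace G] (h : CGen G) (g : G) : modularCharacterFun g = 1 := by
  have hg : g ∈ Subgroup.closure
      {g : G | ∃ C : Subgroup G, IsOpen (C : Set G) ∧ IsCompact (C : Set G) ∧ g ∈ C} := by
    rw [show Subgroup.closure {g : G | ∃ C : Subgroup G, IsOpen (C : Set G) ∧
      IsCompact (C : Set G) ∧ g ∈ C} = ⊤ from h]
    exact Subgroup.mem_top _
  induction hg using Subgroup.closure_induction with
  | mem x hx =>
    obtain ⟨C, h1, h2, h3⟩ := hx
    exact modular_of_mem h1 h2 h3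
  | one => exact modularCharacterFun_map_one
  | mul x y _ _ hx hy => rw [modularCharacterFun_map_mul, hx, hy, one_mul]
  | inv x _ hx =>
    have h1 : modularCharacterFun x * modularCharacterFun x⁻¹ = 1 := by
      rw [← modularCharacterFun_map_mul, mul_inv_cancel, modularCharacterFun_map_one]
    rwa [hx, one_mul] at h1

/-- A group generated by compact elements is unimodular. -/
theorem CGen.haar_right [LocallyCompactSpace G] [MeasurableSpace G] [BorelSpace G] (h : CGen G)
    (μ : Measure G) [μ.IsHaarMeasure] [μ.Regular] : μ.IsMulRightInvariant := by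
  refine ⟨fun g => ?_⟩
  have h1 : Regular (map (· * g) μ) := Regular.map (Homeomorph.mulRight g)
  have h2 := isMulLeftInvariant_eq_smul_of_regular (map (· * g) μ) μ
  rw [← modularCharacterFun_eq_haarScalarFactor μ g, h.modular, one_smul] at h2
  exact h2

/-- A homomorphism to the positive reals which is bounded on compact open subgroups is trivial. -/
theorem CGen.hom_trivial (h : CGen G) (f : G →* ℝ≥0)
    (hf : ∀ C : Subgroup G, IsOpen (C : Set G) → IsCompact (C : Set G) →
      ∃ B : ℝ≥0, ∀ g ∈ C, f g ≤ B) (g : G) : f g = 1 := by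
  have key : ∀ C : Subgroup G, IsOpen (C : Set G) → IsCompact (C : Set G) → ∀ g ∈ C, f g = 1 := by
    intro C h1 h2
    obtain ⟨B, hB⟩ := hf C h1 h2
    have h3 : ∀ g ∈ C, f g ≤ 1 := by
      intro g hg
      by_contra hc
      rw [not_le] at hc
      obtain ⟨k, hk⟩ := pow_unbounded_of_one_lt B hc
      have h4 := hB (g ^ k) (C.pow_mem hg k)
      rw [map_pow] at h4
      exact absurd h4 (not_le.2 hk)
    intro g hg
    have h4 := h3 g hg
    have h5 := h3 g⁻¹ (C.inv_mem hg)
    have h6 : f g * f g⁻¹ = 1 := by rw [← map_mul, mul_inv_cancel, map_one]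
    refine le_antisymm h4 ?_
    calc (1 : ℝ≥0) = f g * f g⁻¹ := h6.symm
      _ ≤ f g * 1 := mul_le_mul_right h5 _
      _ = f g := mul_one _
  have hg : g ∈ Subgroup.closure
      {g : G | ∃ C : Subgroup G, IsOpen (C : Set G) ∧ IsCompact (C : Set G) ∧ g ∈ C} := by
    rw [show Subgroup.closure {g : G | ∃ C : Subgroup G, IsOpen (C : Set G) ∧
      IsCompact (C : Set G) ∧ g ∈ C} = ⊤ from h]
    exact Subgroup.mem_top _
  induction hg using Subgroup.closure_induction with
  | mem x hx =>
    obtain ⟨C, h1, h2, h3⟩ := hx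
    exact key C h1 h2 x h3
  | one => exact map_one f
  | mul x y _ _ hx hy => rw [map_mul, hx, hy, one_mul]
  | inv x _ hx =>
    have h1 : f x * f x⁻¹ = 1 := by rw [← map_mul, mul_inv_cancel, map_one]
    rwa [hx, one_mul] at h1

theorem CGen.prod {G' : Type} [Group G'] [TopologicalSpace G'] [IsTopologicalGroup G']
    (h : CGen G) (h' : CGen G')
    (hC : ∃ C : Subgroup G, IsOpen (C : Set G) ∧ IsCompact (C : Set G))
    (hC' : ∃ C : Subgroup G', IsOpen (C : Set G') ∧ IsCompact (C : Set G')) :
    CGen (G × G') := by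
  obtain ⟨C₀, hC1, hC2⟩ := hC
  obtain ⟨C₀', hC1', hC2'⟩ := hC'
  set S : Set (G × G') := {g | ∃ C : Subgroup (G × G'), IsOpen (C : Set (G × G')) ∧
    IsCompact (C : Set (G × G')) ∧ g ∈ C} with hS
  have hl : ∀ g : G, ((g, 1) : G × G') ∈ Subgroup.closure S := by
    intro g
    have hg : g ∈ Subgroup.closure
        {g : G | ∃ C : Subgroup G, IsOpen (C : Set G) ∧ IsCompact (C : Set G) ∧ g ∈ C} := by
      rw [show Subgroup.closure {g : G | ∃ C : Subgroup G, IsOpen (C : Set G) ∧
        IsCompact (C : Set G) ∧ g ∈ C} = ⊤ from h]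
      exact Subgroup.mem_top _
    induction hg using Subgroup.closure_induction with
    | mem x hx =>
      obtain ⟨C, h1, h2, h3⟩ := hx
      refine Subgroup.subset_closure ⟨C.prod C₀', ?_, ?_, ?_⟩
      · rw [Subgroup.coe_prod]
        exact h1.prod hC1'
      · rw [Subgroup.coe_prod]
        exact h2.prod hC2'
      · exact ⟨h3, one_mem _⟩
    | one => exact one_mem _
    | mul x y _ _ hx hy =>
      have := mul_mem hx hy
      rwa [Prod.mk_mul_mk, one_mul] at this
    | inv x _ hx =>
      have := inv_mem hx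
      rwa [Prod.inv_mk, inv_one] at this
  have hr : ∀ g : G', ((1, g) : G × G') ∈ Subgroup.closure S := by
    intro g
    have hg : g ∈ Subgroup.closure
        {g : G' | ∃ C : Subgroup G', IsOpen (C : Set G') ∧ IsCompact (C : Set G') ∧ g ∈ C} := by
      rw [show Subgroup.closure {g : G' | ∃ C : Subgroup G', IsOpen (C : Set G') ∧
        IsCompact (C : Set G') ∧ g ∈ C} = ⊤ from h']
      exact Subgroup.mem_top _
    induction hg using Subgroup.closure_induction with
    | mem x hx =>
      obtain ⟨C, h1, h2, h3⟩ := hx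
      refine Subgroup.subset_closure ⟨C₀.prod C, ?_, ?_, ?_⟩
      · rw [Subgroup.coe_prod]
        exact hC1.prod h1
      · rw [Subgroup.coe_prod]
        exact hC2.prod h2
      · exact ⟨one_mem _, h3⟩
    | one => exact one_mem _
    | mul x y _ _ hx hy =>
      have := mul_mem hx hy
      rwa [Prod.mk_mul_mk, one_mul] at this
    | inv x _ hx =>
      have := inv_mem hx
      rwa [Prod.inv_mk, inv_one] at this
  refine eq_top_iff.2 fun g _ => ?_
  have h1 : g = (g.1, 1) * (1, g.2) := by
    rw [Prod.mk_mul_mk, mul_one, one_mul]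
  rw [h1]
  exact mul_mem (hl _) (hr _)

end abs

section refl

variable {F E : Type} [Field F] [Field E] [Algebra F E] {σ : E ≃ₐ[F] E} {δ : E} {d : F} {N : ℕ}
  {H : Matrix (Fin N) (Fin N) E}

theorem uu_mul (g h : unitary σ H) : umat (g * h) = umat g * umat h := rfl

/-- The quasi-reflection `x ↦ x + (a - 1) h(x,z) / h(z,z) z`. -/
noncomputable def qrL (σ : E ≃ₐ[F] E) (H : Matrix (Fin N) (Fin N) E) (z : Fin N → E) (a : E) :
    (Fin N → E) →ₗ[E] (Fin N → E) where
  toFun x := x + ((a - 1) * (sk σ H x z / sk σ H z z)) • z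
  map_add' x y := by
    rw [sk_add_left, add_div, mul_add, add_smul]
    abel
  map_smul' c x := by
    rw [sk_smul_left, RingHom.id_apply, smul_add, smul_smul]
    congr 2
    ring

theorem qrL_apply (z : Fin N → E) (a : E) (x : Fin N → E) :
    qrL σ H z a x = x + ((a - 1) * (sk σ H x z / sk σ H z z)) • z := rfl

theorem qrL_comp {z : Fin N → E} (hz : sk σ H z z ≠ 0) (a b : E) :
    qrL σ H z a ∘ₗ qrL σ H z b = qrL σ H z (a * b) := by
  apply LinearMap.ext
  intro x
  rw [LinearMap.comp_apply, qrL_apply, qrL_apply, qrL_apply, sk_add_left, sk_smul_left, add_div,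
    mul_div_assoc, div_self hz, mul_one, add_assoc, ← add_smul]
  congr 2
  ring

theorem qrL_one (z : Fin N → E) : qrL σ H z 1 = LinearMap.id := by
  apply LinearMap.ext
  intro x
  rw [qrL_apply, sub_self, zero_mul, zero_smul, add_zero]
  rfl

theorem qrL_form (hq : QuadDatum σ δ d) (hH : IsSkew σ H) {z : Fin N → E}
    (hz : sk σ H z z ≠ 0) {a : E} (ha : a * σ a = 1) (x y : Fin N → E) :
    sk σ H (qrL σ H z a x) (qrL σ H z a y) = sk σ H x y := by
  have hs : σ (sk σ H z z) = -sk σ H z z := by
    have := sk_swap hq hH z z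
    rw [eq_comm, neg_eq_iff_eq_neg] at this
    exact this
  rw [qrL_apply, qrL_apply, sk_add_left, sk_add_right, sk_add_right, sk_smul_left, sk_smul_left,
    sk_smul_right, sk_smul_right, sk_swap hq hH y z, map_mul, map_div₀, hs, map_sub, map_one]
  generalize sk σ H x z = p
  generalize σ (sk σ H y z) = r
  generalize sk σ H z z = s at hz
  have h1 : σ a * a = 1 := by rw [mul_comm]; exact ha
  field_simp
  linear_combination (-(p * r)) * ha

/-- The quasi-reflection as an element of the unitary group. -/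
noncomputable def qr (hq : QuadDatum σ δ d) (hH : IsSkew σ H) {z : Fin N → E}
    (hz : sk σ H z z ≠ 0) {a : E} (ha : a * σ a = 1) : unitary σ H :=
  ⟨⟨LinearMap.toMatrix' (qrL σ H z a), LinearMap.toMatrix' (qrL σ H z (σ a)), by
    rw [← LinearMap.toMatrix'_comp, qrL_comp hz, ha, qrL_one, LinearMap.toMatrix'_id], by
    rw [← LinearMap.toMatrix'_comp, qrL_comp hz, mul_comm, ha, qrL_one,
      LinearMap.toMatrix'_id]⟩, fun x y => by
    show sk σ H ((LinearMap.toMatrix' (qrL σ H z a)).mulVec x)
      ((LinearMap.toMatrix' (qrL σ H z a)).mulVec y) = sk σ H x y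
    rw [← Matrix.toLin'_apply, ← Matrix.toLin'_apply, Matrix.toLin'_toMatrix',
      qrL_form hq hH hz ha]⟩

theorem umat_qr (hq : QuadDatum σ δ d) (hH : IsSkew σ H) {z : Fin N → E}
    (hz : sk σ H z z ≠ 0) {a : E} (ha : a * σ a = 1) :
    umat (qr hq hH hz ha) = LinearMap.toMatrix' (qrL σ H z a) := rfl

theorem qr_mulVec (hq : QuadDatum σ δ d) (hH : IsSkew σ H) {z : Fin N → E}
    (hz : sk σ H z z ≠ 0) {a : E} (ha : a * σ a = 1) (x : Fin N → E) :
    (umat (qr hq hH hz ha)).mulVec x = x + ((a - 1) * (sk σ H x z / sk σ H z z)) • z := by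
  rw [umat_qr, ← Matrix.toLin'_apply, Matrix.toLin'_toMatrix', qrL_apply]

theorem mul_unit {a b : E} (ha : a * σ a = 1) (hb : b * σ b = 1) : (a * b) * σ (a * b) = 1 := by
  rw [map_mul, mul_mul_mul_comm, ha, hb, one_mul]

theorem qr_mul (hq : QuadDatum σ δ d) (hH : IsSkew σ H) {z : Fin N → E}
    (hz : sk σ H z z ≠ 0) {a b : E} (ha : a * σ a = 1) (hb : b * σ b = 1) :
    qr hq hH hz ha * qr hq hH hz hb = qr hq hH hz (mul_unit ha hb) := by
  apply Subtype.ext
  apply Units.ext
  show umat (qr hq hH hz ha) * umat (qr hq hH hz hb) = umat (qr hq hH hz (mul_unit ha hb))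
  rw [umat_qr, umat_qr, umat_qr, ← LinearMap.toMatrix'_comp, qrL_comp hz]

theorem qr_one (hq : QuadDatum σ δ d) (hH : IsSkew σ H) {z : Fin N → E}
    (hz : sk σ H z z ≠ 0) (h1 : (1 : E) * σ 1 = 1) : qr hq hH hz h1 = 1 := by
  apply Subtype.ext
  apply Units.ext
  show umat (qr hq hH hz h1) = 1
  rw [umat_qr, qrL_one, LinearMap.toMatrix'_id]

/-- Two vectors of the same nonzero length are in one orbit of the quasi-reflections fixing the
vectors orthogonal to both. -/
theorem exists_qr (hq : QuadDatum σ δ d) (hH : IsSkew σ H) {v w : Fin N → E}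
    (hv : sk σ H v v ≠ 0) (hw : sk σ H w w = sk σ H v v) :
    ∃ r ∈ Subgroup.closure {g : unitary σ H | ∃ (z : Fin N → E) (hz : sk σ H z z ≠ 0) (a : E)
      (ha : a * σ a = 1), g = qr hq hH hz ha}, (umat r).mulVec w = v ∧
      ∀ x, sk σ H x v = 0 → sk σ H x w = 0 → (umat r).mulVec x = x := by
  set S : Set (unitary σ H) := {g : unitary σ H | ∃ (z : Fin N → E) (hz : sk σ H z z ≠ 0) (a : E)
      (ha : a * σ a = 1), g = qr hq hH hz ha} with hS
  have hs : ∀ x, σ (sk σ H x x) = -sk σ H x x := by
    intro x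
    have := sk_swap hq hH x x
    rw [eq_comm, neg_eq_iff_eq_neg] at this
    exact this
  -- the main case
  have key : ∀ w, sk σ H w w = sk σ H v v → sk σ H (w - v) (w - v) ≠ 0 →
      ∃ r ∈ Subgroup.closure S, (umat r).mulVec w = v ∧
        ∀ x, sk σ H x v = 0 → sk σ H x w = 0 → (umat r).mulVec x = x := by
    intro w hw hz
    set A : E := sk σ H w (w - v) with hA
    have hzA : sk σ H (w - v) (w - v) = A - σ A := by
      have h1 : sk σ H v (w - v) = σ A := by
        rw [hA, sk_sub_right, sk_sub_right, map_sub, hs w, sk_swap hq hH w v, hw]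
        ring
      rw [sk_sub_left, ← hA, h1]
    have hA0 : A ≠ 0 := by
      intro h
      rw [hzA, h, map_zero, sub_zero] at hz
      exact hz rfl
    have hA0' : σ A ≠ 0 := by
      intro h
      exact hA0 (by rw [← sig_sig hq A, h, map_zero])
    have ha : (σ A / A) * σ (σ A / A) = 1 := by
      rw [map_div₀, sig_sig hq]
      field_simp
    refine ⟨qr hq hH hz ha, Subgroup.subset_closure ⟨w - v, hz, _, ha, rfl⟩, ?_, ?_⟩
    · rw [qr_mulVec, ← hA, hzA]
      have h2 : (σ A / A - 1) * (A / (A - σ A)) = -1 := by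
        have h3 : A - σ A ≠ 0 := by rw [← hzA]; exact hz
        field_simp
        ring
      rw [h2, neg_smul, one_smul, neg_sub, add_sub_cancel]
    · intro x h1 h2
      rw [qr_mulVec, sk_sub_right, h1, h2, sub_zero, zero_div, mul_zero, zero_smul, add_zero]
  by_cases hz : sk σ H (w - v) (w - v) = 0
  · -- replace `w` by `-w`
    have hw0 : sk σ H w w ≠ 0 := by rw [hw]; exact hv
    have hm : (-1 : E) * σ (-1) = 1 := by rw [map_neg, map_one]; ring
    have h1 : sk σ H (-w) (-w) = sk σ H v v := by
      rw [sk_neg_left, sk_neg_right, neg_neg, hw]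
    have h2 : sk σ H (-w - v) (-w - v) ≠ 0 := by
      intro h
      have h3 : (2 : E) * (2 * sk σ H v v) = 0 := by
        have e1 : sk σ H (w - v) (w - v) + sk σ H (-w - v) (-w - v) =
            (2 : E) * (2 * sk σ H v v) := by
          simp only [sk_sub_left, sk_sub_right, sk_neg_left, sk_neg_right, hw]
          ring
        rw [← e1, hz, h, add_zero]
      rcases mul_eq_zero.1 h3 with h4 | h4
      · exact hq.two_E h4
      · rcases mul_eq_zero.1 h4 with h5 | h5
        · exact hq.two_E h5
        · exact hv h5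
    obtain ⟨r, hr, hrw, hrx⟩ := key (-w) h1 h2
    refine ⟨r * qr hq hH hw0 hm, mul_mem hr (Subgroup.subset_closure ⟨w, hw0, _, hm, rfl⟩), ?_, ?_⟩
    · rw [uu_mul, ← Matrix.mulVec_mulVec, qr_mulVec, div_self hw0, mul_one]
      have h3 : w + ((-1 : E) - 1) • w = -w := by
        rw [sub_smul, neg_smul, one_smul]
        abel
      rw [h3, hrw]
    · intro x hx1 hx2
      rw [uu_mul, ← Matrix.mulVec_mulVec, qr_mulVec, hx2, zero_div, mul_zero, zero_smul,
        add_zero]
      exact hrx x hx1 (by rw [sk_neg_right, hx2, neg_zero])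
  · exact key w hw hz

end refl

section gen

variable {F E : Type} [Field F] [Field E] [Algebra F E] {σ : E ≃ₐ[F] E} {δ : E} {d : F} {N : ℕ}
  {H : Matrix (Fin N) (Fin N) E}

/-- **The unitary group is generated by quasi-reflections.** -/
theorem qr_generate (hq : QuadDatum σ δ d) (hH : IsSkew σ H)
    (hrep : ∀ a b c : F, a ≠ 0 → b ≠ 0 → c ≠ 0 →
      ∃ x y : E, a * Algebra.norm F x + b * Algebra.norm F y = c) (u : unitary σ H) :
    u ∈ Subgroup.closure {g : unitary σ H | ∃ (z : Fin N → E) (hz : sk σ H z z ≠ 0) (a : E)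
      (ha : a * σ a = 1), g = qr hq hH hz ha} := by
  set S : Set (unitary σ H) := {g : unitary σ H | ∃ (z : Fin N → E) (hz : sk σ H z z ≠ 0) (a : E)
      (ha : a * σ a = 1), g = qr hq hH hz ha} with hS
  -- an orthogonal basis
  obtain ⟨b, hb1, hb2⟩ : ∃ b : Fin N → (Fin N → E), (∀ i j, i ≠ j → sk σ H (b i) (b j) = 0) ∧
      ∀ i, sk σ H (b i) (b i) ≠ 0 := by
    cases N with
    | zero => exact ⟨fun i => i.elim0, fun i => i.elim0, fun i => i.elim0⟩
    | succ n =>
      obtain ⟨a, b, ha, hb1, hb2⟩ := HermC.exists_diag hq hrep n (Fin (n + 1) → E) (sk σ H)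
        (HermC.sf_of_isSkew hq hH) (Module.finrank_fin_fun E)
      refine ⟨b, hb1, fun i => ?_⟩
      rw [hb2]
      refine mul_ne_zero ?_ hq.ne
      intro h
      have := (map_eq_zero (algebraMap F E)).1 h
      split_ifs at this with h1
      · exact ha this
      · exact one_ne_zero this
  have hspan : ⊤ ≤ Submodule.span E (Set.range b) := by
    have hli : LinearIndependent E b := by
      rw [linearIndependent_iff']
      intro s g hg i hi
      have h1 : sk σ H (∑ j ∈ s, g j • b j) (b i) = g i * sk σ H (b i) (b i) := by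
        have h2 : sk σ H (∑ j ∈ s, g j • b j) (b i) = ∑ j ∈ s, sk σ H (g j • b j) (b i) := by
          classical
          have h3 : ∀ t : Finset (Fin N), sk σ H (∑ j ∈ t, g j • b j) (b i) =
              ∑ j ∈ t, sk σ H (g j • b j) (b i) := by
            intro t
            induction t using Finset.induction_on with
            | empty => rw [Finset.sum_empty, Finset.sum_empty, sk_zero_left]
            | insert a t ha ih => rw [Finset.sum_insert ha, Finset.sum_insert ha, sk_add_left, ih]
          exact h3 s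
        rw [h2, Finset.sum_eq_single_of_mem i hi, sk_smul_left]
        intro j _ hji
        rw [sk_smul_left, hb1 j i hji, mul_zero]
      rw [hg, sk_zero_left] at h1
      exact (mul_eq_zero.1 h1.symm).resolve_right (hb2 i)
    exact (hli.span_eq_top_of_card_eq_finrank' (by simp)).ge
  -- induction
  have key : ∀ k : ℕ, ∀ u : unitary σ H, (∀ i : Fin N, i.1 + k < N → (umat u).mulVec (b i) = b i) →
      u ∈ Subgroup.closure S := by
    intro k
    induction k with
    | zero =>
      intro u hu
      have h1 : u = 1 := by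
        apply Subtype.ext
        apply Units.ext
        show umat u = 1
        have h2 : Matrix.toLin' (umat u) = LinearMap.id := by
          refine LinearMap.ext_on_range (v := b) (top_le_iff.1 hspan) fun i => ?_
          rw [Matrix.toLin'_apply]
          exact hu i i.2
        have h3 := congrArg LinearMap.toMatrix' h2
        rwa [LinearMap.toMatrix'_toLin', LinearMap.toMatrix'_id] at h3
      rw [h1]
      exact one_mem _
    | succ k ih =>
      intro u hu
      by_cases hk : k < N
      · let i₀ : Fin N := ⟨N - (k + 1), by omega⟩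
        have h1 : sk σ H ((umat u).mulVec (b i₀)) ((umat u).mulVec (b i₀)) =
            sk σ H (b i₀) (b i₀) := u.2 _ _
        obtain ⟨r, hr, hrw, hrx⟩ := exists_qr hq hH (hb2 i₀) h1
        have h2 : r * u ∈ Subgroup.closure S := by
          apply ih
          intro i hi
          rw [uu_mul, ← Matrix.mulVec_mulVec]
          by_cases hi0 : i = i₀
          · rw [hi0, hrw]
          · have h3 : i.1 + (k + 1) < N := by
              have : i.1 ≠ N - (k + 1) := fun h => hi0 (Fin.ext h)
              omega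
            rw [hu i h3]
            refine hrx _ (hb1 i i₀ hi0) ?_
            rw [← hu i h3, show sk σ H ((umat u).mulVec (b i)) ((umat u).mulVec (b i₀)) =
              sk σ H (b i) (b i₀) from u.2 _ _]
            exact hb1 i i₀ hi0
        have h3 := mul_mem (inv_mem hr) h2
        rwa [inv_mul_cancel_left] at h3
      · exact ih u fun i hi => absurd hi (by omega)
  exact key N u fun i hi => absurd hi (by omega)

end gen

section top

variable {F E : Type} [NontriviallyNormedField F] [IsUltrametricDist F] [ProperSpace F]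
  [NontriviallyNormedField E] [NormedAlgebra F E] [IsUltrametricDist E] [ProperSpace E]
  {σ : E ≃ₐ[F] E} {δ : E} {d : F} {N : ℕ} {H : Matrix (Fin N) (Fin N) E}

theorem norm_one_of_unit (hq : QuadDatum σ δ d) {a : E} (ha : a * σ a = 1) : ‖a‖ = 1 := by
  have h1 : ‖a‖ * ‖σ a‖ = 1 := by rw [← norm_mul, ha, norm_one]
  rw [sg_norm hq] at h1
  nlinarith [norm_nonneg a]

theorem qr_zpow (hq : QuadDatum σ δ d) (hH : IsSkew σ H) {z : Fin N → E}
    (hz : sk σ H z z ≠ 0) {a : E} (ha : a * σ a = 1) (k : ℤ) :
    ∃ (c : E) (hc : c * σ c = 1), qr hq hH hz ha ^ k = qr hq hH hz hc := by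
  have h1 : (1 : E) * σ 1 = 1 := by rw [map_one, one_mul]
  have ha' : σ a * σ (σ a) = 1 := by rw [sig_sig hq, mul_comm]; exact ha
  have hinv : (qr hq hH hz ha)⁻¹ = qr hq hH hz ha' := by
    rw [inv_eq_iff_mul_eq_one, qr_mul]
    have h2 : a * σ a = 1 := ha
    apply Subtype.ext
    apply Units.ext
    show umat (qr hq hH hz (mul_unit ha ha')) = 1
    rw [umat_qr, h2, qrL_one, LinearMap.toMatrix'_id]
  induction k with
  | zero => exact ⟨1, h1, by rw [zpow_zero, qr_one]⟩
  | succ k ih =>
    obtain ⟨c, hc, h⟩ := ih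
    exact ⟨c * a, mul_unit hc ha, by rw [_root_.zpow_add_one, h, qr_mul]⟩
  | pred k ih =>
    obtain ⟨c, hc, h⟩ := ih
    exact ⟨c * σ a, mul_unit hc ha', by rw [_root_.zpow_sub_one, h, hinv, qr_mul]⟩

theorem qr_compact (hq : QuadDatum σ δ d) (hH : IsSkew σ H) {z : Fin N → E}
    (hz : sk σ H z z ≠ 0) {a : E} (ha : a * σ a = 1) :
    ∃ C : Subgroup (unitary σ H), IsOpen (C : Set (unitary σ H)) ∧
      IsCompact (C : Set (unitary σ H)) ∧ qr hq hH hz ha ∈ C := by
  apply exists_compactOpen
  refine ⟨1 + 2 * ∑ j, (‖sk σ H (Pi.single j 1) z / sk σ H z z‖ * ‖z‖), fun k i j => ?_⟩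
  obtain ⟨c, hc, h⟩ := qr_zpow hq hH hz ha k
  rw [h, umat_qr, LinearMap.toMatrix'_apply, qrL_apply, Pi.add_apply, Pi.smul_apply, smul_eq_mul]
  refine (norm_add_le _ _).trans (add_le_add ?_ ?_)
  · rw [Pi.single_apply]
    split_ifs <;> simp
  · rw [norm_mul, norm_mul]
    have h1 : ‖c - 1‖ ≤ 2 := by
      refine (norm_sub_le _ _).trans ?_
      rw [norm_one_of_unit hq hc, norm_one]
      norm_num
    have h2 : ‖sk σ H (Pi.single j 1) z / sk σ H z z‖ * ‖z i‖ ≤
        ∑ j, (‖sk σ H (Pi.single j 1) z / sk σ H z z‖ * ‖z‖) := by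
      refine (mul_le_mul_of_nonneg_left (norm_le_pi_norm z i) (norm_nonneg _)).trans ?_
      exact Finset.single_le_sum (f := fun j => ‖sk σ H (Pi.single j 1) z / sk σ H z z‖ * ‖z‖)
        (fun _ _ => mul_nonneg (norm_nonneg _) (norm_nonneg _)) (Finset.mem_univ j)
    rw [mul_assoc]
    exact mul_le_mul h1 h2 (mul_nonneg (norm_nonneg _) (norm_nonneg _)) (by norm_num)

/-- The unitary group is generated by compact elements. -/
theorem cgen_unitary (hq : QuadDatum σ δ d) (hH : IsSkew σ H) : CGen (unitary σ H) := by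
  have h1 : (Subgroup.closure {g : unitary σ H | ∃ (z : Fin N → E) (hz : sk σ H z z ≠ 0) (a : E)
      (ha : a * σ a = 1), g = qr hq hH hz ha}) ≤ Subgroup.closure {g : unitary σ H |
        ∃ C : Subgroup (unitary σ H), IsOpen (C : Set (unitary σ H)) ∧
          IsCompact (C : Set (unitary σ H)) ∧ g ∈ C} := by
    refine Subgroup.closure_mono ?_
    rintro g ⟨z, hz, a, ha, rfl⟩
    exact qr_compact hq hH hz ha
  exact eq_top_iff.2 fun u _ => h1 (qr_generate hq hH (fun a b c ha hb hc =>
    HermC.exists_rep hq ha hb hc) u)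

theorem exists_compactOpen_unitary : ∃ C : Subgroup (unitary σ H),
    IsOpen (C : Set (unitary σ H)) ∧ IsCompact (C : Set (unitary σ H)) := by
  obtain ⟨C, h1, h2, -⟩ := exists_compactOpen (1 : unitary σ H) ⟨1, fun k i j => by
    rw [_root_.one_zpow]
    exact norm_one_entry_le i j⟩
  exact ⟨C, h1, h2⟩

theorem locallyCompact_unitary : LocallyCompactSpace (unitary σ H) := by
  obtain ⟨C, h1, h2⟩ := exists_compactOpen_unitary (σ := σ) (H := H)
  exact h2.locallyCompactSpace_of_mem_nhds_of_group (h1.mem_nhds (one_mem C))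

/-- **The unitary group is unimodular.** -/
theorem unitary_modular (hq : QuadDatum σ δ d) (hH : IsSkew σ H) [LocallyCompactSpace (unitary σ H)]
    (u : unitary σ H) : modularCharacterFun u = 1 :=
  (cgen_unitary hq hH).modular u

theorem secondCountable_unitary : SecondCountableTopology (unitary σ H) := by
  have h0 : SecondCountableTopology (Matrix (Fin N) (Fin N) E) :=
    (inferInstance : SecondCountableTopology (Fin N → Fin N → E))
  have h1 : SecondCountableTopology (Matrix (Fin N) (Fin N) E)ᵐᵒᵖ :=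
    MulOpposite.opHomeomorph.symm.isEmbedding.secondCountableTopology
  have h2 : SecondCountableTopology (GL (Fin N) E) :=
    Units.isEmbedding_embedProduct.secondCountableTopology
  exact Topology.IsEmbedding.subtypeVal.secondCountableTopology

theorem CGen.haar_right' {G : Type} [Group G] [TopologicalSpace G] [IsTopologicalGroup G]
    [LocallyCompactSpace G] [SecondCountableTopology G] [MeasurableSpace G] [BorelSpace G]
    (h : CGen G) (μ : Measure G) [μ.IsHaarMeasure] : μ.IsMulRightInvariant := by
  refine ⟨fun g => ?_⟩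
  have h2 := isMulLeftInvariant_eq_smul (map (· * g) μ) μ
  rw [← modularCharacterFun_eq_haarScalarFactor μ g, h.modular, one_smul] at h2
  exact h2

/-- Every Haar measure on the unitary group is right invariant. -/
theorem unitary_haar_right' (hq : QuadDatum σ δ d) (hH : IsSkew σ H)
    [MeasurableSpace (unitary σ H)] [BorelSpace (unitary σ H)] (μ : Measure (unitary σ H))
    [μ.IsHaarMeasure] : μ.IsMulRightInvariant := by
  have := locallyCompact_unitary (σ := σ) (H := H)
  have := secondCountable_unitary (σ := σ) (H := H)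
  exact (cgen_unitary hq hH).haar_right' μ

theorem unitary_haar_right (hq : QuadDatum σ δ d) (hH : IsSkew σ H)
    [MeasurableSpace (unitary σ H)] [BorelSpace (unitary σ H)] (μ : Measure (unitary σ H))
    [μ.IsHaarMeasure] [μ.Regular] : μ.IsMulRightInvariant := by
  have := locallyCompact_unitary (σ := σ) (H := H)
  exact (cgen_unitary hq hH).haar_right μ

theorem unitary_hom_trivial (hq : QuadDatum σ δ d) (hH : IsSkew σ H) (f : unitary σ H →* ℝ≥0)
    (hf : Continuous f) (u : unitary σ H) : f u = 1 := by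
  refine (cgen_unitary hq hH).hom_trivial f (fun C h1 h2 => ?_) u
  obtain ⟨B, hB⟩ := (h2.image hf).bddAbove
  exact ⟨B, fun g hg => hB ⟨g, hg, rfl⟩⟩

/-- The product of two unitary groups is generated by compact elements. -/
theorem cgen_prod {N' : ℕ} {H' : Matrix (Fin N') (Fin N') E} (hq : QuadDatum σ δ d)
    (hH : IsSkew σ H) (hH' : IsSkew σ H') : CGen (unitary σ H × unitary σ H') :=
  (cgen_unitary hq hH).prod (cgen_unitary hq hH') exists_compactOpen_unitary
    exists_compactOpen_unitary

end top

end SpW.P1
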