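import Pool.Agent.Work.MP_3615d2_al.P1.OrbJ
import Pool.Agent.Work.MP_3615d2_al.P1.UnimU
import Pool.Agent.Work.MP_3615d2_al.Clo.QInt

/-!
MP_3615d2_al, Part 1, closed stratum: the orbit of an isotropic subspace is compact.
-/

open Filter Topology Matrix

set_option linter.unusedSectionVars false

namespace SpW

variable {F E : Type} [NontriviallyNormedField F] [IsUltrametricDist F] [ProperSpace F]
  [NontriviallyNormedField E] [NormedAlgebra F E] [IsUltrametricDist E] [ProperSpace E]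
  {σ : E ≃ₐ[F] E} {δ : E} {d : F} {m b N : ℕ} {H : Matrix (Fin N) (Fin N) E}

/-- An element which preserves the span of the first basis vectors is in the parabolic
subgroup. -/
theorem mem_PSJ_of_fr0_mul (h : m + b = N) {g : GL (Fin N) E} {a : Matrix (Fin m) (Fin m) E}
    (hg : (g : Matrix (Fin N) (Fin N) E) * (fr0 h : Matrix (Fin N) (Fin m) E) =
      (fr0 h : Matrix (Fin N) (Fin m) E) * a) : g ∈ PSJ h E := by
  refine (exists_pelJ_iff h g).2 ?_
  ext i j
  have h1 := congrFun (congrFun hg (sJ h (Sum.inr i))) j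
  rw [mul_fr0, Matrix.mul_apply, Finset.sum_eq_zero] at h1
  · rw [lowLJ, h1]
    rfl
  · intro j' _
    have h2 : ¬ (sJ h (Sum.inr i) = sJ h (Sum.inl j')) := fun h0 => by
      have := (sJ h).injective h0
      cases this
    simp [fr0, h2]

/-- The primitive frames in an orbit of isotropic frames are a compact set. -/
theorem isCompact_prim_orb (hq : QuadDatum σ δ d) (hH : IsSkew σ H)
    {x₀ : Matrix (Fin N) (Fin m) E} (h00 : hf σ H x₀ x₀ = 0) :
    IsCompact {x : Fin N → Fin m → E | x ∈ prim N m E ∧ Orb σ H x₀ (Matrix.of x)} := by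
  refine prim_isCompact.of_isClosed_subset ?_ fun x hx => hx.1
  rw [← isOpen_compl_iff, isOpen_iff_mem_nhds]
  intro x hx
  by_cases hxp : x ∈ prim N m E
  · have hxo : ¬ Orb σ H x₀ (Matrix.of x) := fun h1 => hx ⟨hxp, h1⟩
    by_cases hxx : hf σ H (Matrix.of x) (Matrix.of x) = 0
    · have h1 := orb_near hq hH x₀ (Matrix.of x) hxx (prim_frames hxp)
      have h2 : ∀ᶠ x' : Fin N → Fin m → E in 𝓝 x, hf σ H (Matrix.of x') (Matrix.of x') = 0 →
          (Orb σ H x₀ (Matrix.of x') ↔ Orb σ H x₀ (Matrix.of x)) := h1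
      filter_upwards [h2] with x' h3 h4
      exact hxo ((h3 (h4.2.hf_eq σ H h00)).1 h4.2)
    · have h1 : Continuous fun y : Fin N → Fin m → E => hf σ H (Matrix.of y) (Matrix.of y) :=
        continuous_hf hq
      have h2 := h1.continuousAt.eventually_ne hxx
      filter_upwards [h2] with x' h3 h4
      exact h3 (h4.2.hf_eq σ H h00)
  · have h1 : IsClosed (prim N m E) := prim_isCompact.isClosed
    filter_upwards [h1.isOpen_compl.mem_nhds hxp] with x' h3 h4
    exact h3 h4.1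

/-- The orbit of the span of an isotropic frame is compact. -/
theorem exists_cpt_frame (hq : QuadDatum σ δ d) (hH : IsSkew σ H)
    {x₀ : Matrix (Fin N) (Fin m) E} (h00 : hf σ H x₀ x₀ = 0)
    (hl : ∃ l : Matrix (Fin m) (Fin N) E, l * x₀ = 1) :
    ∃ C : Set (unitary σ H), IsCompact C ∧ ∀ u : unitary σ H, ∃ c ∈ C, ∃ a : GL (Fin m) E,
      umat (u * c⁻¹) * x₀ = x₀ * (a : Matrix (Fin m) (Fin m) E) := by
  classical
  have hmul : ∀ (u v : unitary σ H), umat (u * v) = umat u * umat v := fun u v => rfl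
  obtain ⟨K, hKo, hKc⟩ := P1.exists_compactOpen_unitary (σ := σ) (H := H)
  have hS := isCompact_prim_orb hq hH h00
  have hW : ∀ x ∈ {x : Fin N → Fin m → E | x ∈ prim N m E ∧ Orb σ H x₀ (Matrix.of x)},
      {x' : Fin N → Fin m → E | hf σ H (Matrix.of x') (Matrix.of x') = 0 →
        ∃ k ∈ (K : Set (unitary σ H)), umat k * Matrix.of x = Matrix.of x'} ∈ 𝓝 x := by
    intro x hx
    exact exists_near hq hH (Matrix.of x) (hx.2.hf_eq σ H h00) (prim_frames hx.1) K
      (hKo.mem_nhds (one_mem K))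
  obtain ⟨t, ht, hcov⟩ := hS.elim_nhds_subcover _ hW
  have hv0 : ∀ x : Fin N → Fin m → E, ∃ v : unitary σ H,
      Orb σ H x₀ (Matrix.of x) → umat v * x₀ = Matrix.of x := by
    intro x
    by_cases hx : Orb σ H x₀ (Matrix.of x)
    · obtain ⟨v, hv⟩ := hx
      exact ⟨v, fun _ => hv⟩
    · exact ⟨1, fun h => absurd h hx⟩
  choose v hv using hv0
  refine ⟨(fun c => c⁻¹) '' ⋃ x ∈ t, (fun k => k * v x) '' (K : Set (unitary σ H)), ?_, ?_⟩
  · refine IsCompact.image ?_ continuous_inv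
    exact t.isCompact_biUnion fun x _ => hKc.image (continuous_mul_const _)
  · intro u
    have h1 : Orb σ H x₀ (umat u⁻¹ * x₀) := ⟨u⁻¹, rfl⟩
    obtain ⟨a, ha⟩ := prim_exists (x := (umat u⁻¹ * x₀)) (h1.left_inv σ H hl)
    obtain ⟨p, hp⟩ := orb_mul hq hH x₀ h00 hl a
    have h2 : Orb σ H x₀ (Matrix.of (rmulE N a (umat u⁻¹ * x₀))) := by
      refine ⟨u⁻¹ * p, ?_⟩
      rw [hmul, Matrix.mul_assoc, hp, ← Matrix.mul_assoc]
      rfl
    have h3 := hcov ⟨ha, h2⟩
    rw [Set.mem_iUnion₂] at h3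
    obtain ⟨x, hxt, hx⟩ := h3
    obtain ⟨k, hk, hkx⟩ := hx (h2.hf_eq σ H h00)
    have h4 : umat (k * v x) * x₀ = umat u⁻¹ * x₀ * (a : Matrix (Fin m) (Fin m) E) := by
      rw [hmul, Matrix.mul_assoc, hv x (ht x hxt).2, hkx]
      rfl
    refine ⟨(k * v x)⁻¹, ⟨k * v x, Set.mem_iUnion₂.2 ⟨x, hxt, k, hk, rfl⟩, rfl⟩, a, ?_⟩
    rw [inv_inv, hmul, Matrix.mul_assoc, h4, ← Matrix.mul_assoc, ← Matrix.mul_assoc, ← hmul,
      mul_inv_cancel]
    have h5 : umat (1 : unitary σ H) = 1 := rfl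
    rw [h5, Matrix.one_mul]

/-- **The orbit of an isotropic subspace is compact.** -/
theorem exists_cpt_orbit (hq : QuadDatum σ δ d) (hH : IsSkew σ H) (h : m + b = N)
    (h0 : upLJ h H = 0) :
    ∃ C : Set (unitary σ H), IsCompact C ∧ ∀ u : unitary σ H, ∃ p : unitary σ H,
      (p : GL (Fin N) E) ∈ PSJ h E ∧ ∃ c ∈ C, u = p * c := by
  obtain ⟨C, hC, h1⟩ := exists_cpt_frame hq hH (x₀ := (fr0 h : Matrix (Fin N) (Fin m) E))
    (by rw [hf_fr0, h0]) ⟨_, fr0_left h⟩
  refine ⟨C, hC, fun u => ?_⟩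
  obtain ⟨c, hc, a, ha⟩ := h1 u
  exact ⟨u * c⁻¹, mem_PSJ_of_fr0_mul h (a := (a : Matrix (Fin m) (Fin m) E)) ha, c, hc,
    by rw [inv_mul_cancel_right]⟩

end SpW
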