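import Pool.Agent.Work.MP_3615d2_al.P1.CloUni

/-!
MP_3615d2_al, Part 1, closed stratum: elements of the unipotent radical and of the Levi subgroup.
-/

open Matrix

set_option linter.unusedSectionVars false

namespace SpW.P1

section

variable {F E : Type} [NontriviallyNormedField F] [IsUltrametricDist F] [ProperSpace F]
  [NontriviallyNormedField E] [NormedAlgebra F E] [IsUltrametricDist E] [ProperSpace E]
  {σ : E ≃ₐ[F] E} {δ : E} {d : F} {m n k N b : ℕ} (h1 : m + n = k) (h2 : k + m = N)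
  (h : m + b = N) (hb : n + m = b) {H₀ : Matrix (Fin n) (Fin n) E}

theorem eps3_v' (i : Fin n) :
    eps3 h1 h2 (Sum.inr (Sum.inl i)) = sJ h (Sum.inr (sJ hb (Sum.inl i))) := by
  apply Fin.ext
  rw [eps3_v, sJ_inl, sJ_inr, sJ_inr, sJ_inl]

theorem eps3_s' (i : Fin m) :
    eps3 h1 h2 (Sum.inr (Sum.inr i)) = sJ h (Sum.inr (sJ hb (Sum.inr i))) := by
  apply Fin.ext
  rw [eps3_s, sJ_inr, sJ_inr, sJ_inr]
  omega

theorem bmJ_mV_inl {a b N : ℕ} (h : a + b = N) (A : Matrix (Fin a) (Fin a) E)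
    (B : Matrix (Fin a) (Fin b) E) (C : Matrix (Fin b) (Fin a) E) (D : Matrix (Fin b) (Fin b) E)
    (v : Fin N → E) (i : Fin a) : (bmJ h A B C D).mulVec v (sJ h (Sum.inl i)) =
      A.mulVec (fun j => v (sJ h (Sum.inl j))) i + B.mulVec (fun j => v (sJ h (Sum.inr j))) i := by
  simp only [Matrix.mulVec, dotProduct]
  rw [← (sJ h).sum_comp, Fintype.sum_sum_type]
  simp [bmJ]

theorem bmJ_mV_inr {a b N : ℕ} (h : a + b = N) (A : Matrix (Fin a) (Fin a) E)
    (B : Matrix (Fin a) (Fin b) E) (C : Matrix (Fin b) (Fin a) E) (D : Matrix (Fin b) (Fin b) E)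
    (v : Fin N → E) (i : Fin b) : (bmJ h A B C D).mulVec v (sJ h (Sum.inr i)) =
      C.mulVec (fun j => v (sJ h (Sum.inl j))) i + D.mulVec (fun j => v (sJ h (Sum.inr j))) i := by
  simp only [Matrix.mulVec, dotProduct]
  rw [← (sJ h).sum_comp, Fintype.sum_sum_type]
  simp [bmJ]

/-- the matrix of an element of the parabolic subgroup in the three blocks -/
theorem pel3_mulVec (a : GL (Fin m) E) (p : GL (Fin n) E) (q : GL (Fin m) E)
    (x : Matrix (Fin n) (Fin m) E) (y : Matrix (Fin m) (Fin b) E) (r : Fin m → E) (v : Fin n → E)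
    (s : Fin m → E) :
    ((pelJ h a (pelJ hb p q x) y : GL (Fin N) E) : Matrix (Fin N) (Fin N) E).mulVec
      (iot (eps3 h1 h2) r v s) = iot (eps3 h1 h2)
        ((a : Matrix (Fin m) (Fin m) E).mulVec r + y.mulVec (fun j =>
          iot (eps3 h1 h2) 0 v s (sJ h (Sum.inr j))))
        ((p : Matrix (Fin n) (Fin n) E).mulVec v + x.mulVec s)
        ((q : Matrix (Fin m) (Fin m) E).mulVec s) := by
  have e1 : ∀ (r : Fin m → E) (v : Fin n → E) (s : Fin m → E) i,
      iot (eps3 h1 h2) r v s (sJ h (Sum.inl i)) = r i := fun r v s i => by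
    rw [← eps3_inl h1 h2 h]
    simp [iot]
  have e2 : ∀ (r : Fin m → E) (v : Fin n → E) (s : Fin m → E) i,
      iot (eps3 h1 h2) r v s (sJ h (Sum.inr (sJ hb (Sum.inl i)))) = v i := fun r v s i => by
    rw [← eps3_v' h1 h2 h hb]
    simp [iot]
  have e3 : ∀ (r : Fin m → E) (v : Fin n → E) (s : Fin m → E) i,
      iot (eps3 h1 h2) r v s (sJ h (Sum.inr (sJ hb (Sum.inr i)))) = s i := fun r v s i => by
    rw [← eps3_s' h1 h2 h hb]
    simp [iot]
  have e4 : (fun j => iot (eps3 h1 h2) r v s (sJ h (Sum.inr j))) =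
      fun j => iot (eps3 h1 h2) 0 v s (sJ h (Sum.inr j)) := by
    funext j
    obtain ⟨j, rfl⟩ := (sJ hb).surjective j
    rcases j with j | j
    · rw [e2, e2]
    · rw [e3, e3]
  funext i
  obtain ⟨i, rfl⟩ := (sJ h).surjective i
  rw [pelJ_val]
  rcases i with i | i
  · rw [bmJ_mV_inl, e1, Pi.add_apply, e4]
    congr 2
    funext j
    exact e1 _ _ _ _
  · rw [bmJ_mV_inr, Matrix.zero_mulVec, Pi.zero_apply, zero_add, pelJ_val]
    obtain ⟨i, rfl⟩ := (sJ hb).surjective i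
    rcases i with i | i
    · rw [bmJ_mV_inl, e2, Pi.add_apply]
      congr 2
      · funext j
        exact e2 _ _ _ _
      · funext j
        exact e3 _ _ _ _
    · rw [bmJ_mV_inr, e3, Matrix.zero_mulVec, Pi.zero_apply, zero_add]
      congr 1
      funext j
      exact e3 _ _ _ _

/-- the unitarity of an element given by its three blocks -/
theorem mem_unitary_iot {g : GL (Fin N) E}
    (hg : ∀ r v s r' v' s', sk σ (hyp3 h1 h2 H₀)
      ((g : Matrix (Fin N) (Fin N) E).mulVec (iot (eps3 h1 h2) r v s))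
      ((g : Matrix (Fin N) (Fin N) E).mulVec (iot (eps3 h1 h2) r' v' s')) =
        sk σ (hyp3 h1 h2 H₀) (iot (eps3 h1 h2) r v s) (iot (eps3 h1 h2) r' v' s')) :
    g ∈ unitary σ (hyp3 h1 h2 H₀) := by
  intro x y
  obtain ⟨r, v, s, rfl⟩ := exists_iot (eps3 h1 h2) x
  obtain ⟨r', v', s', rfl⟩ := exists_iot (eps3 h1 h2) y
  exact hg r v s r' v' s'

theorem sk_one_eq {k : ℕ} (x y : Fin k → E) :
    sk σ (1 : Matrix (Fin k) (Fin k) E) x y = ∑ i, x i * σ (y i) := by
  unfold sk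
  refine Finset.sum_congr rfl fun i _ => ?_
  rw [Finset.sum_eq_single i]
  · rw [Matrix.one_apply_eq, mul_one]
  · intro j _ hj
    rw [Matrix.one_apply_ne hj.symm, mul_zero, zero_mul]
  · intro h0
    exact absurd (Finset.mem_univ i) h0

theorem scalar_mulVec {k : ℕ} (z : Eˣ) (v : Fin k → E) :
    ((Matrix.GeneralLinearGroup.scalar (Fin k) z : GL (Fin k) E) :
      Matrix (Fin k) (Fin k) E).mulVec v = (z : E) • v := by
  rw [Matrix.GeneralLinearGroup.coe_scalar, Matrix.scalar_apply, ← Matrix.smul_one_eq_diagonal,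
    Matrix.smul_mulVec, Matrix.one_mulVec]

theorem clo_zeta (hq : QuadDatum σ δ d) (z : Eˣ) :
    ∃ g : unitary σ (hyp3 h1 h2 H₀),
      (g : GL (Fin N) E) = pelJ h (Matrix.GeneralLinearGroup.scalar (Fin m) z)
        (pelJ hb 1 (Matrix.GeneralLinearGroup.scalar (Fin m) (Units.map (σ : E →* E) z)⁻¹) 0) 0 ∧
      (∀ r, (umat g).mulVec (iot (eps3 h1 h2) r 0 0) = iot (eps3 h1 h2) ((z : E) • r) 0 0) ∧
      (∀ v, (umat g).mulVec (iot (eps3 h1 h2) 0 v 0) = iot (eps3 h1 h2) 0 v 0) := by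
  set g : GL (Fin N) E := pelJ h (Matrix.GeneralLinearGroup.scalar (Fin m) z)
    (pelJ hb 1 (Matrix.GeneralLinearGroup.scalar (Fin m) (Units.map (σ : E →* E) z)⁻¹) 0) 0 with hg
  have key : ∀ r v s, (g : Matrix (Fin N) (Fin N) E).mulVec (iot (eps3 h1 h2) r v s) =
      iot (eps3 h1 h2) ((z : E) • r) v ((σ (z : E))⁻¹ • s) := by
    intro r v s
    rw [hg, pel3_mulVec, scalar_mulVec, scalar_mulVec, Matrix.zero_mulVec, Matrix.zero_mulVec,
      add_zero, add_zero, Units.val_one, Matrix.one_mulVec, Units.val_inv_eq_inv_val]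
    rfl
  have hmem : g ∈ unitary σ (hyp3 h1 h2 H₀) := by
    refine mem_unitary_iot h1 h2 fun r v s r' v' s' => ?_
    have hf := (isSplit_hyp3 h1 h2 hq H₀).form
    rw [key, key, hf, hf]
    have hz : (z : E) ≠ 0 := z.ne_zero
    have hσz : σ (z : E) ≠ 0 := by
      rw [Ne, map_eq_zero_iff σ σ.injective]
      exact hz
    have e1 : ∀ x y : Fin m → E, sk σ (1 : Matrix (Fin m) (Fin m) E) ((z : E) • x)
        ((σ (z : E))⁻¹ • y) = sk σ (1 : Matrix (Fin m) (Fin m) E) x y := by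
      intro x y
      rw [sk_one_eq, sk_one_eq]
      refine Finset.sum_congr rfl fun i _ => ?_
      rw [Pi.smul_apply, Pi.smul_apply, smul_eq_mul, smul_eq_mul, map_mul, map_inv₀, sig_sig hq]
      field_simp
    rw [e1, e1]
  refine ⟨⟨g, hmem⟩, rfl, fun r => ?_, fun v => ?_⟩
  · have e := key r 0 0
    rw [smul_zero] at e
    exact e
  · have e := key 0 v 0
    rw [smul_zero, smul_zero] at e
    exact e

/-- the conjugated vector -/
def cv (σ : E ≃ₐ[F] E) {k : ℕ} (v : Fin k → E) : Fin k → E := fun j => σ (v j)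

theorem cv_mulVec {k l : ℕ} (X : Matrix (Fin k) (Fin l) E) (v : Fin l → E) :
    cv σ (X.mulVec v) = (X.map σ).mulVec (cv σ v) := by
  funext j
  simp [cv, Matrix.mulVec, dotProduct, map_sum, map_mul]

theorem sk_cv {k : ℕ} (M : Matrix (Fin k) (Fin k) E) (x y : Fin k → E) :
    sk σ M x y = x ⬝ᵥ M.mulVec (cv σ y) := sk_eq_dotP σ M x y

theorem sk_one_cv {k : ℕ} (x y : Fin k → E) :
    sk σ (1 : Matrix (Fin k) (Fin k) E) x y = x ⬝ᵥ cv σ y := by
  rw [sk_cv, Matrix.one_mulVec]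

theorem mulVec_dot {k l : ℕ} (A : Matrix (Fin k) (Fin l) E) (v : Fin l → E) (t : Fin k → E) :
    A.mulVec v ⬝ᵥ t = v ⬝ᵥ A.transpose.mulVec t := by
  rw [dotProduct_comm, Matrix.dotProduct_mulVec, ← Matrix.mulVec_transpose, dotProduct_comm]

/-- The elements of the unipotent radical of the parabolic subgroup. -/
theorem clo_nil_aux (hq : QuadDatum σ δ d) (hs : IsSkew σ H₀) (X : Matrix (Fin n) (Fin m) E) :
    ∃ (g : unitary σ (hyp3 h1 h2 H₀)) (y : Matrix (Fin m) (Fin b) E),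
      (g : GL (Fin N) E) = pelJ h 1 (pelJ hb 1 1 X) y ∧
      (∀ r, (umat g).mulVec (iot (eps3 h1 h2) r 0 0) = iot (eps3 h1 h2) r 0 0) ∧
      (∀ v, ∃ r, (umat g).mulVec (iot (eps3 h1 h2) 0 v 0) = iot (eps3 h1 h2) r v 0) := by
  set A : Matrix (Fin m) (Fin n) E := -(H₀ * X.map σ).transpose with hA
  set B : Matrix (Fin m) (Fin m) E := (-(2 : E)⁻¹) • (X.transpose * H₀ * X.map σ).transpose with hB
  set y : Matrix (Fin m) (Fin b) E := fun i j => Sum.elim (A i) (B i) ((sJ hb).symm j) with hy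
  have hyv : ∀ (v : Fin n → E) (s : Fin m → E),
      y.mulVec (fun j => iot (eps3 h1 h2) 0 v s (sJ h (Sum.inr j))) =
        A.mulVec v + B.mulVec s := by
    intro v s
    funext i
    simp only [Matrix.mulVec, dotProduct, Pi.add_apply]
    rw [← (sJ hb).sum_comp, Fintype.sum_sum_type]
    congr 1
    · refine Finset.sum_congr rfl fun j _ => ?_
      rw [← eps3_v' h1 h2 h hb]
      simp [hy, iot]
    · refine Finset.sum_congr rfl fun j _ => ?_
      rw [← eps3_s' h1 h2 h hb]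
      simp [hy, iot]
  set g : GL (Fin N) E := pelJ h 1 (pelJ hb 1 1 X) y with hg
  have key : ∀ r v s, (g : Matrix (Fin N) (Fin N) E).mulVec (iot (eps3 h1 h2) r v s) =
      iot (eps3 h1 h2) (r + (A.mulVec v + B.mulVec s)) (v + X.mulVec s) s := by
    intro r v s
    rw [hg, pel3_mulVec, hyv, Units.val_one, Matrix.one_mulVec, Units.val_one, Matrix.one_mulVec,
      Matrix.one_mulVec]
  have e1 : ∀ v s', sk σ (1 : Matrix (Fin m) (Fin m) E) (A.mulVec v) s' =
      -sk σ H₀ v (X.mulVec s') := by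
    intro v s'
    rw [sk_one_cv, mulVec_dot, hA, Matrix.transpose_neg, Matrix.transpose_transpose,
      Matrix.neg_mulVec, dotProduct_neg, sk_cv, cv_mulVec, Matrix.mulVec_mulVec]
  have e2 : ∀ s s', sk σ (1 : Matrix (Fin m) (Fin m) E) (B.mulVec s) s' =
      -(2 : E)⁻¹ * sk σ H₀ (X.mulVec s) (X.mulVec s') := by
    intro s s'
    rw [sk_one_cv, mulVec_dot, hB, Matrix.transpose_smul, Matrix.transpose_transpose,
      Matrix.smul_mulVec, dotProduct_smul, smul_eq_mul, sk_cv, cv_mulVec, mulVec_dot,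
      Matrix.mulVec_mulVec, Matrix.mulVec_mulVec, Matrix.mul_assoc]
  have hsw : ∀ x y, sk σ H₀ y x = -σ (sk σ H₀ x y) := fun x y => sk_swap hq hs x y
  have a1 : ∀ (M : Matrix (Fin m) (Fin m) E) (x x' y : Fin m → E),
      sk σ M (x + x') y = sk σ M x y + sk σ M x' y := by
    intro M x x' y
    rw [sk_cv, sk_cv, sk_cv, add_dotProduct]
  have a2 : ∀ (x x' y : Fin n → E), sk σ H₀ (x + x') y = sk σ H₀ x y + sk σ H₀ x' y := by
    intro x x' y
    rw [sk_cv, sk_cv, sk_cv, add_dotProduct]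
  have a3 : ∀ (x y y' : Fin n → E), sk σ H₀ x (y + y') = sk σ H₀ x y + sk σ H₀ x y' := by
    intro x y y'
    rw [hsw (y + y') x, a2, map_add, neg_add, ← hsw, ← hsw]
  have hmem : g ∈ unitary σ (hyp3 h1 h2 H₀) := by
    refine mem_unitary_iot h1 h2 fun r v s r' v' s' => ?_
    have hf := (isSplit_hyp3 h1 h2 hq H₀).form
    rw [key, key, hf, hf, a1, a1, a1, a1, e1, e1, e2, e2, a2, a3, a3]
    rw [map_add, map_add, map_neg, map_mul, hsw (X.mulVec s) v', hsw (X.mulVec s') (X.mulVec s)]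
    have h2' : σ (-(2 : E)⁻¹) = -(2 : E)⁻¹ := by
      rw [map_neg, map_inv₀, map_ofNat]
    rw [h2']
    have h22 := hq.two_E
    rw [map_neg, sig_sig hq]
    field_simp
    ring
  refine ⟨⟨g, hmem⟩, y, rfl, fun r => ?_, fun v => ⟨A.mulVec v, ?_⟩⟩
  · have e := key r 0 0
    rw [Matrix.mulVec_zero, Matrix.mulVec_zero, Matrix.mulVec_zero, add_zero, add_zero,
      add_zero] at e
    exact e
  · have e := key 0 v 0
    rw [Matrix.mulVec_zero, Matrix.mulVec_zero, add_zero, add_zero, zero_add] at e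
    exact e

theorem exists_of_mem_Nk {x : GL (Fin b) E} (hx : x ∈ Nk b n E) :
    ∃ X : Matrix (Fin n) (Fin m) E, x = pelJ hb 1 1 X := by
  have hx' : ∀ i j : Fin b, ¬ (i.1 < n ∧ n ≤ j.1) →
      (x : Matrix (Fin b) (Fin b) E) i j = (1 : Matrix (Fin b) (Fin b) E) i j := hx
  refine ⟨upRJ hb (x : Matrix (Fin b) (Fin b) E), Units.ext ?_⟩
  rw [pelJ_val]
  conv_lhs => rw [← bmJ_blocks hb (x : Matrix (Fin b) (Fin b) E)]
  have e1 : upLJ hb (x : Matrix (Fin b) (Fin b) E) = 1 := by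
    ext i j
    show (x : Matrix (Fin b) (Fin b) E) (sJ hb (Sum.inl i)) (sJ hb (Sum.inl j)) = _
    rw [hx' _ _ (fun h0 => by
      have := h0.2
      rw [sJ_inl] at this
      omega), Matrix.one_apply, Matrix.one_apply]
    simp
  have e2 : lowLJ hb (x : Matrix (Fin b) (Fin b) E) = 0 := by
    ext i j
    show (x : Matrix (Fin b) (Fin b) E) (sJ hb (Sum.inr i)) (sJ hb (Sum.inl j)) = _
    rw [hx' _ _ (fun h0 => by
      have := h0.1
      rw [sJ_inr] at this
      omega), Matrix.one_apply, if_neg (fun h0 => by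
        have := (sJ hb).injective h0
        cases this)]
    rfl
  have e3 : lowRJ hb (x : Matrix (Fin b) (Fin b) E) = 1 := by
    ext i j
    show (x : Matrix (Fin b) (Fin b) E) (sJ hb (Sum.inr i)) (sJ hb (Sum.inr j)) = _
    rw [hx' _ _ (fun h0 => by
      have := h0.1
      rw [sJ_inr] at this
      omega), Matrix.one_apply, Matrix.one_apply]
    simp
  rw [e1, e2, e3, Units.val_one, Units.val_one]

theorem clo_nil (hq : QuadDatum σ δ d) (hs : IsSkew σ H₀) (x : GL (Fin b) E) (hx : x ∈ Nk b n E) :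
    ∃ (g : unitary σ (hyp3 h1 h2 H₀)) (y : Matrix (Fin m) (Fin b) E),
      (g : GL (Fin N) E) = pelJ h 1 x y ∧
      (∀ r, (umat g).mulVec (iot (eps3 h1 h2) r 0 0) = iot (eps3 h1 h2) r 0 0) ∧
      (∀ v, ∃ r, (umat g).mulVec (iot (eps3 h1 h2) 0 v 0) = iot (eps3 h1 h2) r v 0) := by
  have hb : n + m = b := by omega
  obtain ⟨X, rfl⟩ := exists_of_mem_Nk (m := m) hb hx
  exact clo_nil_aux h1 h2 h hb hq hs X

end

end SpW.P1
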