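import Pool.Agent.Work.MP_3615d2_al.P1.FibC

/-!
MP_3615d2_al, Part 1, closed stratum: the weights from an invariant positive functional; the form on
the fibre at the point `1` for the group itself. Abstract part.
-/

open Filter Topology MeasureTheory

set_option linter.unusedSectionVars false

namespace SpW

section wt

variable {G : Type} [Group G] [TopologicalSpace G] [IsTopologicalGroup G] {P : Subgroup G}

theorem co_top {K : Subgroup G} (h1 : IsOpen (K : Set G)) (h2 : IsCompact (K : Set G)) :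
    CO (⊤ : Subgroup G) K where
  le := le_top
  compact := h2
  isOpen := h1.preimage continuous_subtype_val

theorem CO.isOpen_top {K : Subgroup G} (h : CO (⊤ : Subgroup G) K) : IsOpen (K : Set G) :=
  h.isOpen.preimage (f := fun x : G => (⟨x, Subgroup.mem_top x⟩ : (⊤ : Subgroup G))) (by fun_prop)

/-- the character as a representation on `ℂ` -/
noncomputable def chRep (χ : P →* ℝ) : P →* Module.End ℂ ℂ where
  toFun p := ((χ p : ℝ) : ℂ) • LinearMap.id
  map_one' := by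
    rw [map_one, Complex.ofReal_one, one_smul]
    rfl
  map_mul' p q := by
    rw [map_mul, Complex.ofReal_mul]
    ext
    simp [mul_comm]

theorem chRep_apply (χ : P →* ℝ) (p : P) (z : ℂ) : chRep χ p z = ((χ p : ℝ) : ℂ) * z := rfl

/-- the character on the group -/
noncomputable def chG (χ : P →* ℝ) : G → ℝ :=
  open Classical in fun u => if h : u ∈ P then χ ⟨u, h⟩ else 1

theorem chG_of_mem (χ : P →* ℝ) (p : P) : chG χ (p : G) = χ p := by
  rw [chG]
  exact dif_pos p.2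

theorem one_mem_wfix {χ : P →* ℝ}
    (hχ : ∀ K : Subgroup G, IsCompact (K : Set G) → ∀ p : P, (p : G) ∈ K → χ p = 1)
    {K : Subgroup G} (hK : IsCompact (K : Set G)) : (1 : ℂ) ∈ wfix (chRep χ) K 1 := by
  intro p k hk e
  rw [one_mul, inv_one, mul_one] at e
  rw [chRep_apply, hχ K hK p (by rw [e]; exact hk)]
  simp

/-- **The weights.** -/
theorem exists_wt [T2Space G] {χ : P →* ℝ}
    (hχ : ∀ K : Subgroup G, IsCompact (K : Set G) → ∀ p : P, (p : G) ∈ K → χ p = 1)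
    (hχ0 : ∀ p, 0 < χ p) (hU : ∃ K : Subgroup G, CO ⊤ K)
    (I : indS P (chRep χ) →ₗ[ℂ] ℂ)
    (hI : ∀ (u : G) (Φ Φ' : indS P (chRep χ)), (∀ x, (Φ' : G → ℂ) x = (Φ : G → ℂ) (x * u)) →
      I Φ' = I Φ)
    (hI0 : ∀ Φ : indS P (chRep χ), (∀ x, ∃ r : ℝ, 0 ≤ r ∧ (Φ : G → ℂ) x = r) → Φ ≠ 0 → I Φ ≠ 0) :
    ∃ c : Subgroup G → ℝ, (∀ K, CO ⊤ K → 0 < c K) ∧
      (∀ K K', CO ⊤ K → CO ⊤ K' → K' ≤ K →
        c K' * K'.relIndex K = c K * K'.relIndex (Mg P 1 ⊓ K)) ∧
      ∀ K, CO ⊤ K → ∀ u ∈ (⊤ : Subgroup G), u ∈ Mg P 1 →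
        c (K.map (MulAut.conj u).toMonoidHom) * chG χ u = c K := by
  classical
  let J : (G → ℂ) → ℂ := fun f => if h : f ∈ indS P (chRep χ) then I ⟨f, h⟩ else 0
  have hJ : ∀ f (h : f ∈ indS P (chRep χ)), J f = I ⟨f, h⟩ := fun f h => dif_pos h
  have hJadd : ∀ f f', f ∈ indS P (chRep χ) → f' ∈ indS P (chRep χ) → J (f + f') = J f + J f' := by
    intro f f' h h'
    rw [hJ _ h, hJ _ h', hJ _ (add_mem h h'), ← map_add]
    rfl
  have hJsmul : ∀ (a : ℂ) f, f ∈ indS P (chRep χ) → J (a • f) = a * J f := by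
    intro a f h
    rw [hJ _ h, hJ _ (Submodule.smul_mem _ a h), ← smul_eq_mul, ← map_smul]
    rfl
  have hJ0 : J 0 = 0 := by
    rw [hJ _ (zero_mem _)]
    exact map_zero I
  have hJsum : ∀ {ι : Type} (A : Finset ι) (f : ι → G → ℂ), (∀ i ∈ A, f i ∈ indS P (chRep χ)) →
      J (∑ i ∈ A, f i) = ∑ i ∈ A, J (f i) := by
    intro ι A f hf
    induction A using Finset.induction_on with
    | empty => rw [Finset.sum_empty, Finset.sum_empty, hJ0]
    | insert i A hi ih =>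
      rw [Finset.sum_insert hi, Finset.sum_insert hi, hJadd _ _ (hf i (Finset.mem_insert_self _ _))
        (sum_mem fun j hj => hf j (Finset.mem_insert_of_mem hj)),
        ih fun j hj => hf j (Finset.mem_insert_of_mem hj)]
  have hJr : ∀ (u : G) f, f ∈ indS P (chRep χ) → J (rtr u f) = J f := by
    intro u f h
    rw [hJ _ h, hJ _ (rtr_mem_indS h u)]
    exact hI u _ _ fun x => rfl
  have hw1 : ∀ K : Subgroup G, CO ⊤ K → (1 : ℂ) ∈ wfix (chRep χ) K 1 :=
    fun K hK => one_mem_wfix hχ hK.compact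
  have hb : ∀ K : Subgroup G, CO ⊤ K → bump (chRep χ) K 1 1 ∈ indS P (chRep χ) :=
    fun K hK => bump_mem_indS hK.isOpen_top (hw1 K hK)
  let B : Subgroup G → ℂ := fun K => J (bump (chRep χ) K 1 1)
  have hB0 : ∀ K, CO ⊤ K → B K ≠ 0 := by
    intro K hK
    show J (bump (chRep χ) K 1 1) ≠ 0
    rw [hJ _ (hb K hK)]
    apply hI0
    · intro x
      by_cases hx : ∃ p : P, ∃ k : G, k ∈ K ∧ x = p * 1 * k
      · obtain ⟨p, k, hk, rfl⟩ := hx
        refine ⟨χ p, (hχ0 p).le, ?_⟩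
        show bump (chRep χ) K 1 1 _ = _
        rw [bump_apply (hw1 K hK) p hk, chRep_apply, mul_one]
      · refine ⟨0, le_rfl, ?_⟩
        show bump (chRep χ) K 1 1 x = _
        rw [bump_of_notMem hx, Complex.ofReal_zero]
    · intro h0
      have h1 : bump (chRep χ) K 1 1 = 0 := congrArg Subtype.val h0
      have h2 := bump_apply (hw1 K hK) 1 K.one_mem
      rw [h1, chRep_apply, map_one, Complex.ofReal_one, one_mul] at h2
      have h3 : (0 : ℂ) = 1 := h2
      exact zero_ne_one h3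
  have hBi : ∀ K K', CO ⊤ K → CO ⊤ K' → K' ≤ K →
      B K' * (K'.relIndex K : ℂ) = B K * (K'.relIndex (Mg P 1 ⊓ K) : ℂ) := by
    intro K K' hK hK' hle
    have hi := hK.relIndex_ne hK'
    have : (K'.subgroupOf K).FiniteIndex := ⟨hi⟩
    have : Fintype (K ⧸ K'.subgroupOf K) := Subgroup.fintypeQuotientOfFiniteIndex
    have h1 := sum_rtr_bump hle hi (hw1 K hK)
    have h2 := congrArg J h1
    rw [hJsum _ _ fun t _ => rtr_mem_indS (hb K' hK') _, ← Nat.cast_smul_eq_nsmul ℂ,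
      hJsmul _ _ (hb K hK)] at h2
    rw [Finset.sum_congr rfl fun t _ => hJr _ _ (hb K' hK'), Finset.sum_const, Finset.card_univ,
      ← Nat.card_eq_fintype_card, nsmul_eq_mul] at h2
    rw [mul_comm, mul_comm (B K)]
    exact h2
  have hBc : ∀ K, CO ⊤ K → ∀ p : P,
      B (K.map (MulAut.conj (p : G)).toMonoidHom) * ((χ p : ℝ) : ℂ) = B K := by
    intro K hK p
    obtain ⟨h1, h2⟩ := rtr_bump_conj (hw1 K hK) (c := (p : G)) p (by
      rw [one_mul, inv_one, mul_one])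
    have h3 := hJr (p : G) _ (hb K hK)
    have hK' := hK.map (Subgroup.mem_top (p : G))
    have h4 : bump (chRep χ) (K.map (MulAut.conj (p : G)).toMonoidHom) 1 (chRep χ p 1) =
        ((χ p : ℝ) : ℂ) • bump (chRep χ) (K.map (MulAut.conj (p : G)).toMonoidHom) 1 1 := by
      rw [← bump_smul (hw1 _ hK')]
      rfl
    rw [h2, h4, hJsmul _ _ (hb _ hK'), mul_comm] at h3
    exact h3
  obtain ⟨K₀, hK₀⟩ := hU
  have hr : ∀ K, CO ⊤ K → ∃ r : ℝ, 0 < r ∧ B K = r * B K₀ := by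
    intro K hK
    have hK' := hK.inf hK₀
    have h1 := hBi K _ hK hK' inf_le_left
    have h2 := hBi K₀ _ hK₀ hK' inf_le_right
    have e1 : ((K ⊓ K₀).relIndex K : ℝ) ≠ 0 := by exact_mod_cast hK.relIndex_ne hK'
    have e2 : ((K ⊓ K₀).relIndex K₀ : ℝ) ≠ 0 := by exact_mod_cast hK₀.relIndex_ne hK'
    have e3 : ((K ⊓ K₀).relIndex (Mg P 1 ⊓ K) : ℝ) ≠ 0 := by
      intro h0
      have h0' : ((K ⊓ K₀).relIndex (Mg P 1 ⊓ K) : ℂ) = 0 := by exact_mod_cast h0
      rw [h0', mul_zero] at h1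
      have e1' : ((K ⊓ K₀).relIndex K : ℂ) ≠ 0 := by exact_mod_cast e1
      exact mul_ne_zero (hB0 _ hK') e1' h1
    have e4 : ((K ⊓ K₀).relIndex (Mg P 1 ⊓ K₀) : ℝ) ≠ 0 := by
      intro h0
      have h0' : ((K ⊓ K₀).relIndex (Mg P 1 ⊓ K₀) : ℂ) = 0 := by exact_mod_cast h0
      rw [h0', mul_zero] at h2
      have e2' : ((K ⊓ K₀).relIndex K₀ : ℂ) ≠ 0 := by exact_mod_cast e2
      exact mul_ne_zero (hB0 _ hK') e2' h2
    refine ⟨((K ⊓ K₀).relIndex K : ℝ) * ((K ⊓ K₀).relIndex (Mg P 1 ⊓ K₀) : ℝ) /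
      (((K ⊓ K₀).relIndex (Mg P 1 ⊓ K) : ℝ) * ((K ⊓ K₀).relIndex K₀ : ℝ)), by positivity, ?_⟩
    have c1 : ((K ⊓ K₀).relIndex K : ℂ) ≠ 0 := by exact_mod_cast e1
    have c2 : ((K ⊓ K₀).relIndex K₀ : ℂ) ≠ 0 := by exact_mod_cast e2
    have c3 : ((K ⊓ K₀).relIndex (Mg P 1 ⊓ K) : ℂ) ≠ 0 := by exact_mod_cast e3
    have c4 : ((K ⊓ K₀).relIndex (Mg P 1 ⊓ K₀) : ℂ) ≠ 0 := by exact_mod_cast e4
    push_cast
    rw [div_mul_eq_mul_div, eq_div_iff (mul_ne_zero c3 c2)]
    linear_combination (((K ⊓ K₀).relIndex K : ℂ)) * h2 - (((K ⊓ K₀).relIndex K₀ : ℂ)) * h1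
  have hKB0 := hB0 K₀ hK₀
  let c : Subgroup G → ℝ := fun K => (B K / B K₀).re
  have hc : ∀ K, CO ⊤ K → 0 < c K ∧ B K = (c K : ℝ) * B K₀ := by
    intro K hK
    obtain ⟨r, hr0, hr1⟩ := hr K hK
    have h1 : c K = r := by
      show (B K / B K₀).re = r
      rw [hr1, mul_div_cancel_right₀ _ hKB0, Complex.ofReal_re]
    rw [h1]
    exact ⟨hr0, hr1⟩
  refine ⟨c, fun K hK => (hc K hK).1, fun K K' hK hK' hle => ?_, fun K hK u _ hu => ?_⟩
  · have h1 := hBi K K' hK hK' hle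
    rw [(hc K hK).2, (hc K' hK').2] at h1
    have h2 : ((c K' * K'.relIndex K : ℝ) : ℂ) * B K₀ =
        ((c K * K'.relIndex (Mg P 1 ⊓ K) : ℝ) : ℂ) * B K₀ := by
      push_cast
      linear_combination h1
    exact_mod_cast mul_right_cancel₀ hKB0 h2
  · have hup : u ∈ P := by
      have h1 : 1 * u * 1⁻¹ ∈ P := hu
      rwa [one_mul, inv_one, mul_one] at h1
    have h1 := hBc K hK ⟨u, hup⟩
    have hK' := hK.map (Subgroup.mem_top u)
    have h3 : chG χ u = χ ⟨u, hup⟩ := chG_of_mem χ ⟨u, hup⟩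
    have h4 : B (K.map (MulAut.conj u).toMonoidHom) * ((χ ⟨u, hup⟩ : ℝ) : ℂ) = B K := h1
    rw [(hc K hK).2, (hc _ hK').2] at h4
    rw [h3]
    have h2 : ((c (K.map (MulAut.conj u).toMonoidHom) * χ ⟨u, hup⟩ : ℝ) : ℂ) * B K₀ =
        ((c K : ℝ) : ℂ) * B K₀ := by
      push_cast
      linear_combination h4
    exact_mod_cast mul_right_cancel₀ hKB0 h2

end wt

section form

variable {G W S : Type} [Group G] [TopologicalSpace G] [IsTopologicalGroup G] [T2Space G]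
  [AddCommGroup W] [Module ℂ W] [AddCommGroup S] [Module ℂ S] {P : Subgroup G}
  {τ : P →* Module.End ℂ W} {ω : G →* Module.End ℂ S}

/-- **The form on the fibre of a closed orbit.** -/
theorem exists_cloForm {χ : P →* ℝ}
    (hχ : ∀ K : Subgroup G, IsCompact (K : Set G) → ∀ p : P, (p : G) ∈ K → χ p = 1)
    (hχ0 : ∀ p, 0 < χ p)
    (I : indS P (chRep χ) →ₗ[ℂ] ℂ)
    (hI : ∀ (u : G) (Φ Φ' : indS P (chRep χ)), (∀ x, (Φ' : G → ℂ) x = (Φ : G → ℂ) (x * u)) →
      I Φ' = I Φ)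
    (hI0 : ∀ Φ : indS P (chRep χ), (∀ x, ∃ r : ℝ, 0 ≤ r ∧ (Φ : G → ℂ) x = r) → Φ ≠ 0 → I Φ ≠ 0)
    (hG : ∀ s ∈ 𝓝 (1 : G), ∃ K : Subgroup G, IsOpen (K : Set G) ∧ IsCompact (K : Set G) ∧
      (K : Set G) ⊆ s)
    (hτ : ∀ w, ∀ᶠ p in 𝓝 (1 : P), τ p w = w) (hω : ∀ s, ∀ᶠ u in 𝓝 (1 : G), ω u s = s)
    {C : Set G} (hC : IsCompact C) (hPC : ∀ g, ∃ p : P, ∃ x ∈ C, g = p * x)
    (β : indS P τ →ₗ[ℂ] S →ₗ[ℂ] ℂ)
    (hβ : ∀ (u : G) (f f' : indS P τ), (∀ x, (f' : G → W) x = (f : G → W) (x * u)) →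
      ∀ s, β f' (ω u s) = β f s) :
    ∃ l : W →ₗ[ℂ] S →ₗ[ℂ] ℂ,
      (∀ (p : P) w s, l (τ p w) (ω (p : G) s) = ((χ p : ℝ) : ℂ) * l w s) ∧ (l = 0 → β = 0) := by
  obtain ⟨K₀, hK₀o, hK₀c, -⟩ := hG Set.univ Filter.univ_mem
  obtain ⟨c, c1, c2, c3⟩ := exists_wt hχ hχ0 ⟨K₀, co_top hK₀o hK₀c⟩ I hI hI0
  set ω' : (⊤ : Subgroup G) →* Module.End ℂ S := ω.comp (⊤ : Subgroup G).subtype with hω'
  have H : FibH τ ω' 1 (chG χ) c :=
    { hb := fun K hK w hw => bump_mem_indS hK.isOpen_top hw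
      hw := by
        intro w
        have h1 := hτ w
        rw [nhds_subtype_eq_comap, Filter.eventually_comap] at h1
        obtain ⟨K, hKo, hKc, hK⟩ := hG _ h1
        refine ⟨K, co_top hKo hKc, fun p k hk e => ?_⟩
        rw [one_mul, inv_one, mul_one] at e
        exact hK hk p e
      hs := by
        intro s
        obtain ⟨K, hKo, hKc, hK⟩ := hG _ (hω s)
        exact ⟨K, co_top hKo hKc, fun u hu => hK hu⟩
      c_pos := c1
      c_index := c2
      c_conj := c3 }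
  have hβ' : InvF β ω' := by
    intro u f hf s
    rw [extF_eq hf, extF_eq (rtr_mem_indS hf _)]
    exact hβ (u : G) ⟨f, hf⟩ ⟨_, rtr_mem_indS hf _⟩ (fun x => rfl) s
  refine ⟨H.fib hβ', fun p w s => ?_, fun h0 => ?_⟩
  · have h1 := H.fib_inv hβ' ⟨(p : G), Subgroup.mem_top _⟩ p (by
      rw [one_mul, inv_one, mul_one]) w s
    have h2 : ((chG χ (p : G) : ℝ) : ℂ) = ((χ p : ℝ) : ℂ) := by rw [chG_of_mem]
    exact h1.trans (by rw [← h2])
  · apply LinearMap.ext
    intro f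
    apply LinearMap.ext
    intro s
    have hf := f.2
    obtain ⟨hf1, K', hK', hf2⟩ := f.2
    obtain ⟨K, hKo, hKc, hK⟩ := hG _ (Filter.inter_mem (hK'.mem_nhds K'.one_mem) (hω s))
    have hK1 : ∀ g, ∀ k ∈ K, (f : G → W) (g * k) = (f : G → W) g :=
      fun g k hk => hf2 g k (hK hk).1
    have hK2 : ∀ k ∈ K, ω k s = s := fun k hk => (hK hk).2
    have h1 : extF β (f : G → W) s = 0 := by
      refine extF_eq_zero_of_bumps hC hPC hf hK1 (fun g _ => ?_) (fun g _ => ?_) s (fun g _ => ?_)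
      · have h2 : dco P K {g} = ⋃ p ∈ P, (fun x => (p * g)⁻¹ * x) ⁻¹' (K : Set G) := by
          ext x
          simp only [Set.mem_iUnion, Set.mem_preimage, SetLike.mem_coe]
          constructor
          · rintro ⟨p, hp, d, hd, k, hk, e⟩
            rw [Set.mem_singleton_iff] at hd
            refine ⟨p, hp, ?_⟩
            rw [e, hd]
            have e2 : (p * g)⁻¹ * (p * g * k) = k := by group
            rw [e2]
            exact hk
          · rintro ⟨p, hp, hx⟩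
            refine ⟨p, hp, g, rfl, (p * g)⁻¹ * x, hx, ?_⟩
            group
        rw [h2]
        exact isOpen_iUnion fun p => isOpen_iUnion fun _ =>
          hKo.preimage (continuous_const.mul continuous_id)
      · exact bump_mem_indS hKo (indicator_eq_bump hf1 hK1 g).1
      · have hw := (indicator_eq_bump hf1 hK1 g).1
        have hKg : CO ⊤ (K.map (MulAut.conj g).toMonoidHom) :=
          (co_top hKo hKc).map (Subgroup.mem_top g)
        have h3 : (f : G → W) g ∈ wfix τ (K.map (MulAut.conj g).toMonoidHom) 1 := by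
          intro p k hk e
          obtain ⟨k', hk', rfl⟩ := Subgroup.mem_map.1 hk
          have e' : (p : G) = 1 * (g * k' * g⁻¹) * 1⁻¹ := e
          refine hw p k' hk' ?_
          rw [e']
          group
        obtain ⟨h4, h5⟩ := bump_conj_right (u := g) h3
        rw [one_mul] at h5
        have h6 : GoodK τ ω' 1 ((f : G → W) g) (ω g s) (K.map (MulAut.conj g).toMonoidHom) := by
          refine ⟨hKg, h3, fun u hu => ?_⟩
          obtain ⟨k, hk, e⟩ := Subgroup.mem_map.1 hu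
          have e' : g * k * g⁻¹ = (u : G) := e
          show ω (u : G) (ω g s) = ω g s
          rw [← e', ← Module.End.mul_apply, ← map_mul, inv_mul_cancel_right, map_mul,
            Module.End.mul_apply, hK2 k hk]
        have h7 := H.extF_bump hβ' h6
        rw [h0, LinearMap.zero_apply, LinearMap.zero_apply, mul_zero] at h7
        rw [h5]
        have h8 := hβ' ⟨g⁻¹, Subgroup.mem_top _⟩ _ (H.hb _ hKg _ h3) (ω g s)
        rw [h7] at h8
        have h9 : ω' ⟨g⁻¹, Subgroup.mem_top _⟩ (ω g s) = s := by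
          show ω g⁻¹ (ω g s) = s
          rw [← Module.End.mul_apply, ← map_mul, inv_mul_cancel, map_one, Module.End.one_apply]
        rw [h9] at h8
        exact h8
    rw [extF_eq hf] at h1
    rw [LinearMap.zero_apply, LinearMap.zero_apply]
    exact h1

end form

end SpW
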