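import Pool.Agent.Work.MP_3615d2_al.P1.CloStr
import Pool.Agent.Work.MP_3615d2_al.P1.CloCpt
import Pool.Agent.Work.MP_3615d2_al.P1.MuNorm
import Pool.Agent.Work.MP_3615d2_al.P1.CloEl

/-!
MP_3615d2_al, Part 1: the closed stratum of the Mackey filtration, final form.
-/

open Filter Topology MeasureTheory Matrix
open scoped NNReal

set_option linter.unusedSectionVars false

namespace SpW.P1

section

variable {F E : Type} [NontriviallyNormedField F] [IsUltrametricDist F] [ProperSpace F]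
  [NontriviallyNormedField E] [NormedAlgebra F E] [IsUltrametricDist E] [ProperSpace E]
  [MeasurableSpace E] [BorelSpace E]
  {σ : E ≃ₐ[F] E} {δ : E} {d : F} {μ : Eˣ →* ℂˣ}

theorem ad_scalarC (m : ℕ) (z : Eˣ) :
    ad (Matrix.GeneralLinearGroup.scalar (Fin m) z) = absE z ^ m := by
  have h1 : Matrix.GeneralLinearGroup.det (Matrix.GeneralLinearGroup.scalar (Fin m) z) =
      z ^ m := by
    apply Units.ext
    rw [Matrix.GeneralLinearGroup.val_det_apply, Matrix.GeneralLinearGroup.coe_scalar,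
      Matrix.scalar_apply, Matrix.det_diagonal, Finset.prod_const, Finset.card_univ,
      Fintype.card_fin, Units.val_pow_eq_pow_val]
  unfold ad
  rw [h1]
  clear h1
  induction m with
  | zero => rw [pow_zero, pow_zero, absE_one]
  | succ m ih => rw [pow_succ, pow_succ, absE_mul, ih]

theorem norm_bz (hq : QuadDatum σ δ d) (hμ : ConjSymplectic F μ) {m N : ℕ} (hm : m ≤ N)
    (z : Eˣ) : ‖bz μ m N z‖ = absE z ^ ((m : ℝ) * ((N : ℝ) - m) - m / 2) := by
  have h0 := absE_pos z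
  unfold bz chiA
  rw [norm_mul, norm_inv, norm_mul, mu_norm hq hμ, one_mul, Complex.norm_real, Complex.norm_real,
    ad_scalarC, Real.norm_of_nonneg (by positivity), Real.norm_of_nonneg (by positivity),
    ← pow_mul, ← Real.rpow_natCast, ← Real.rpow_natCast, ← Real.rpow_mul h0.le,
    ← Real.rpow_neg h0.le, ← Real.rpow_add h0]
  congr 1
  rw [Nat.cast_mul, Nat.cast_sub hm]
  ring

variable {m n k N b : ℕ} (h1 : m + n = k) (h2 : k + m = N)
  (h : m + b = N) (hb : n + m = b) {H₀ : Matrix (Fin n) (Fin n) E}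
  {ψ : AddChar F Circle} {W S : Type} [AddCommGroup W] [Module ℂ W]
  [AddCommGroup S] [Module ℂ S]

/-- **The closed stratum.** -/
theorem clo_stratum (hq : QuadDatum σ δ d) (hψ : Continuous ψ) (hψ1 : ψ ≠ 1)
    (hμ : ConjSymplectic F μ) (hs : IsSkew σ H₀)
    {ρ : (Fin N → E) → Module.End ℂ S} {ω : unitary σ (hyp3 h1 h2 H₀) →* Module.End ℂ S}
    (hW : IsWeil σ (hyp3 h1 h2 H₀) ψ μ ρ ω)
    {τ : (GL (Fin m) E × GL (Fin b) E) →* Module.End ℂ W} (hτ : IsSmoothRep τ)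
    (z : Eˣ) (P : Polynomial ℂ)
    (hP : ∀ w, (Polynomial.aeval (τ (Matrix.GeneralLinearGroup.scalar (Fin m) z,
      pelJ hb 1 (Matrix.GeneralLinearGroup.scalar (Fin m) (Units.map (σ : E →* E) z)⁻¹) 0)) P) w ∈
        cvN τ ((⊥ : Subgroup (GL (Fin m) E)).prod (Nk b n E)) ⊤)
    (hP0 : P.eval (bz μ m N z) ≠ 0)
    (β : IndJ h τ →ₗ[ℂ] S →ₗ[ℂ] ℂ) (hβ : InvForm σ (hyp3 h1 h2 H₀) (indActJ h τ) ω β)
    (hk : ∀ (f : IndJ h τ) s, (∀ p q y (u : unitary σ (hyp3 h1 h2 H₀)),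
      (f : GL (Fin N) E → W) (pelJ h p q y * (u : GL (Fin N) E)) = 0) → β f s = 0) : β = 0 :=
  clo_stratum_of h1 h2 h hb hq hψ hψ1 hμ hs hW hτ
    (exists_cpt_orbit hq (isSkew_hyp3 h1 h2 hs) h (upL_hyp3 h1 h2 H₀ h))
    (clo_nil h1 h2 h hq hs) z (clo_zeta h1 h2 h hb hq z) P hP hP0 β hβ hk

end

end SpW.P1
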