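import Pool.Agent.Work.MP_3615d2_al.P1.FibF
import Pool.Agent.Work.MP_3615d2_al.P1.UnimU

/-!
MP_3615d2_al, Part 1: the weights of the compact open subgroups of `U(H)`, from the Haar measures of
`U(H)` and of `U(H₁) × U(H₂)`.
-/

open Filter Topology Matrix MeasureTheory MeasureTheory.Measure
open scoped NNReal ENNReal

set_option linter.unusedSectionVars false

namespace SpW

section idx

variable {L : Type} [Group L] [TopologicalSpace L] [IsTopologicalGroup L]

theorem haar_index [MeasurableSpace L] [BorelSpace L] (μ : Measure L) [μ.IsMulLeftInvariant]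
    {A A' : Subgroup L} (hA' : IsOpen (A' : Set L)) (hle : A' ≤ A) (hi : A'.relIndex A ≠ 0) :
    μ (A : Set L) = A'.relIndex A * μ (A' : Set L) := by
  classical
  haveI : (A'.subgroupOf A).FiniteIndex := ⟨hi⟩
  haveI : Fintype (A ⧸ A'.subgroupOf A) := Subgroup.fintypeQuotientOfFiniteIndex
  have h1 : (A : Set L) = ⋃ t : A ⧸ A'.subgroupOf A,
      (fun x => (((t.out : A) : L))⁻¹ * x) ⁻¹' (A' : Set L) := by
    ext x
    rw [Set.mem_iUnion]
    constructor
    · intro hx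
      refine ⟨QuotientGroup.mk ⟨x, hx⟩, ?_⟩
      obtain ⟨k, hk⟩ := QuotientGroup.mk_out_eq_mul (A'.subgroupOf A) ⟨x, hx⟩
      show (((QuotientGroup.mk (⟨x, hx⟩ : A) : A ⧸ A'.subgroupOf A).out : A) : L)⁻¹ * x ∈ A'
      rw [hk]
      show (x * ((k : A) : L))⁻¹ * x ∈ A'
      have e : (x * ((k : A) : L))⁻¹ * x = ((k : A) : L)⁻¹ := by group
      rw [e]
      exact A'.inv_mem (Subgroup.mem_subgroupOf.1 k.2)
    · rintro ⟨t, ht⟩
      have h2 : (((t.out : A) : L))⁻¹ * x ∈ A := hle ht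
      have h3 := A.mul_mem (Subtype.coe_prop (t.out : A)) h2
      rwa [mul_inv_cancel_left] at h3
  conv_lhs => rw [h1]
  rw [measure_iUnion]
  · simp only [measure_preimage_mul]
    rw [tsum_fintype, Finset.sum_const, Finset.card_univ, ← Nat.card_eq_fintype_card, nsmul_eq_mul]
    rfl
  · intro t t' htt
    rw [Function.onFun, Set.disjoint_left]
    intro x hx hx'
    apply htt
    rw [← QuotientGroup.out_eq' t, ← QuotientGroup.out_eq' t', QuotientGroup.eq,
      Subgroup.mem_subgroupOf]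
    have hx1 : (((t.out : A) : L))⁻¹ * x ∈ A' := hx
    have hx2 : (((t'.out : A) : L))⁻¹ * x ∈ A' := hx'
    have e : (((t.out⁻¹ * t'.out : A)) : L) =
        ((((t.out : A) : L))⁻¹ * x) * ((((t'.out : A) : L))⁻¹ * x)⁻¹ := by
      rw [Subgroup.coe_mul, Subgroup.coe_inv]
      group
    rw [e]
    exact A'.mul_mem hx1 (A'.inv_mem hx2)
  · intro t
    exact (hA'.preimage (continuous_const.mul continuous_id)).measurableSet

theorem relIndex_ne_of_compact {A A' : Subgroup L} (hA : IsCompact (A : Set L))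
    (hA' : IsOpen (A' : Set L)) : A'.relIndex A ≠ 0 := by
  haveI : CompactSpace A := isCompact_iff_compactSpace.1 hA
  have h1 : IsOpen ((A'.subgroupOf A : Subgroup A) : Set A) :=
    hA'.preimage (f := fun k : A => (k : L)) continuous_subtype_val
  haveI := Subgroup.quotient_finite_of_isOpen _ h1
  haveI : (A'.subgroupOf A).FiniteIndex := Subgroup.finiteIndex_of_finite_quotient
  exact Subgroup.FiniteIndex.index_ne_zero

/-- Haar measures of the compact open subgroups of a unimodular group. -/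
theorem exists_idx [LocallyCompactSpace L] [SecondCountableTopology L] (hc : P1.CGen L) :
    ∃ m : Subgroup L → ℝ,
      (∀ A : Subgroup L, IsOpen (A : Set L) → IsCompact (A : Set L) → 0 < m A) ∧
      (∀ A A' : Subgroup L, IsOpen (A : Set L) → IsCompact (A : Set L) → IsOpen (A' : Set L) →
        IsCompact (A' : Set L) → A' ≤ A → m A' * A'.relIndex A = m A) ∧
      ∀ A : Subgroup L, IsOpen (A : Set L) → IsCompact (A : Set L) → ∀ g,
        m (A.map (MulAut.conj g).toMonoidHom) = m A := by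
  borelize L
  let μ : Measure L := Measure.haar
  haveI : μ.IsMulRightInvariant := hc.haar_right' μ
  refine ⟨fun A => (μ (A : Set L)).toReal, fun A h1 h2 => ?_, fun A A' h1 h2 h3 h4 h5 => ?_,
    fun A h1 h2 g => ?_⟩
  · exact ENNReal.toReal_pos (h1.measure_pos μ ⟨1, A.one_mem⟩).ne' h2.measure_lt_top.ne
  · show (μ (A' : Set L)).toReal * (A'.relIndex A : ℝ) = (μ (A : Set L)).toReal
    rw [haar_index μ h3 h5 (relIndex_ne_of_compact h2 h3), ENNReal.toReal_mul,
      ENNReal.toReal_natCast, mul_comm]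
  · show (μ ((A.map (MulAut.conj g).toMonoidHom : Subgroup L) : Set L)).toReal =
      (μ (A : Set L)).toReal
    congr 1
    have e : ((A.map (MulAut.conj g).toMonoidHom : Subgroup L) : Set L) =
        (fun x => g⁻¹ * x) ⁻¹' ((fun x => x * g) ⁻¹' (A : Set L)) := by
      ext x
      constructor
      · rintro ⟨k, hk, rfl⟩
        show g⁻¹ * (g * k * g⁻¹) * g ∈ A
        have e : g⁻¹ * (g * k * g⁻¹) * g = k := by group
        rw [e]
        exact hk
      · intro hx
        refine ⟨g⁻¹ * x * g, hx, ?_⟩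
        show g * (g⁻¹ * x * g) * g⁻¹ = x
        group
    rw [e, measure_preimage_mul, measure_preimage_mul_right]

end idx

section wt

variable {F E : Type} [NontriviallyNormedField F] [IsUltrametricDist F] [ProperSpace F]
  [NontriviallyNormedField E] [NormedAlgebra F E] [IsUltrametricDist E] [ProperSpace E]
  {σ : E ≃ₐ[F] E} {δ : E} {d : F} {a b N : ℕ} (h : a + b = N)
  {H : Matrix (Fin N) (Fin N) E} {H₁ : Matrix (Fin a) (Fin a) E} {H₂ : Matrix (Fin b) (Fin b) E}

theorem GM_pelJ_diag (p : GL (Fin a) E) (q : GL (Fin b) E) :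
    GM σ (bmJ h H₁ 0 0 H₂) (pelJ h p q 0) = bmJ h (GM σ H₁ p) 0 0 (GM σ H₂ q) := by
  rw [GM_eq_gram, pelJ_inv, Matrix.mul_zero, Matrix.zero_mul, neg_zero, pelJ_val, gram_bmJ_diag]
  rfl

theorem pelJ_mem_unitary_iff (p : GL (Fin a) E) (q : GL (Fin b) E) :
    pelJ h p q 0 ∈ unitary σ (bmJ h H₁ 0 0 H₂) ↔ p ∈ unitary σ H₁ ∧ q ∈ unitary σ H₂ := by
  rw [mem_unitary_iff_GM, GM_pelJ_diag, mem_unitary_iff_GM, mem_unitary_iff_GM]
  constructor
  · intro e
    obtain ⟨h1, -, -, h2⟩ := bmJF_inj h e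
    exact ⟨h1, h2⟩
  · rintro ⟨h1, h2⟩
    rw [h1, h2]

theorem eq_zero_of_pelJ_unitary (hH1 : IsUnit H₁.det) {p : GL (Fin a) E} {q : GL (Fin b) E}
    {y : Matrix (Fin a) (Fin b) E} (hu : pelJ h p q y ∈ unitary σ (bmJ h H₁ 0 0 H₂)) : y = 0 := by
  have h1 := mem_unitary_iff_GM.1 ((unitary σ (bmJ h H₁ 0 0 H₂)).inv_mem hu)
  rw [GM_eq_gram, inv_inv, pelJ_val] at h1
  unfold gram at h1
  rw [bmJF_transpose, bmJF_map, bmJ_mul, bmJ_mul] at h1
  obtain ⟨-, h2, -, -⟩ := bmJF_inj h h1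
  have h3 : (0 : Matrix (Fin b) (Fin a) E).transpose = 0 := Matrix.transpose_zero
  rw [h3, Matrix.zero_mul, Matrix.zero_mul, add_zero, Matrix.mul_zero, zero_add, Matrix.zero_mul,
    add_zero] at h2
  have h4 : IsUnit ((p : Matrix (Fin a) (Fin a) E).transpose * H₁).det := by
    rw [Matrix.det_mul, Matrix.det_transpose]
    exact ((Matrix.isUnit_iff_isUnit_det _).1 (Units.isUnit p)).mul hH1
  have h5 : y.map σ = 0 := by
    have h6 := congrArg (fun X => ((p : Matrix (Fin a) (Fin a) E).transpose * H₁)⁻¹ * X) h2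
    simp only [Matrix.mul_zero] at h6
    rwa [← Matrix.mul_assoc, Matrix.nonsing_inv_mul _ h4, Matrix.one_mul] at h6
  ext i j
  have h6 := congrFun (congrFun h5 i) j
  have h7 : σ (y i j) = 0 := h6
  exact (map_eq_zero_iff σ σ.injective).1 h7

variable {h}

/-- `(p, q) ↦ g⁻¹ (p 0; 0 q) g` -/
def iotJ (σ : E ≃ₐ[F] E) (h : a + b = N) (H₁ : Matrix (Fin a) (Fin a) E) (H₂ : Matrix (Fin b) (Fin b) E)
    (g : GL (Fin N) E) : (unitary σ H₁ × unitary σ H₂) →* GL (Fin N) E where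
  toFun t := g⁻¹ * pelJ h (t.1 : GL (Fin a) E) (t.2 : GL (Fin b) E) 0 * g
  map_one' := by
    show g⁻¹ * pelJ h 1 1 0 * g = 1
    rw [pelJ_one]
    group
  map_mul' t t' := by
    show g⁻¹ * pelJ h ((t.1 : GL (Fin a) E) * (t'.1 : GL (Fin a) E))
      ((t.2 : GL (Fin b) E) * (t'.2 : GL (Fin b) E)) 0 * g =
      g⁻¹ * pelJ h (t.1 : GL (Fin a) E) (t.2 : GL (Fin b) E) 0 * g *
        (g⁻¹ * pelJ h (t'.1 : GL (Fin a) E) (t'.2 : GL (Fin b) E) 0 * g)
    have e : pelJ h ((t.1 : GL (Fin a) E) * (t'.1 : GL (Fin a) E))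
        ((t.2 : GL (Fin b) E) * (t'.2 : GL (Fin b) E)) 0 =
        pelJ h (t.1 : GL (Fin a) E) (t.2 : GL (Fin b) E) 0 *
          pelJ h (t'.1 : GL (Fin a) E) (t'.2 : GL (Fin b) E) 0 := by
      rw [pelJ_mul, Matrix.mul_zero, Matrix.zero_mul, add_zero]
    rw [e]
    group

theorem iotJ_apply (g : GL (Fin N) E) (t : unitary σ H₁ × unitary σ H₂) :
    iotJ σ h H₁ H₂ g t = g⁻¹ * pelJ h (t.1 : GL (Fin a) E) (t.2 : GL (Fin b) E) 0 * g := rfl

theorem iotJ_conj (g : GL (Fin N) E) (t : unitary σ H₁ × unitary σ H₂) :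
    g * iotJ σ h H₁ H₂ g t * g⁻¹ = pelJ h (t.1 : GL (Fin a) E) (t.2 : GL (Fin b) E) 0 := by
  rw [iotJ_apply]
  group

theorem iotJ_mem {g : GL (Fin N) E} (hg : GM σ H g = bmJ h H₁ 0 0 H₂)
    (t : unitary σ H₁ × unitary σ H₂) : iotJ σ h H₁ H₂ g t ∈ unitary σ H := by
  rw [← conj_mem_unitary g, iotJ_conj, hg, pelJ_mem_unitary_iff]
  exact ⟨t.1.2, t.2.2⟩

theorem iotJ_injective (g : GL (Fin N) E) :
    Function.Injective (iotJ σ h H₁ H₂ g) := by
  intro t t' e
  have e1 := congrArg (fun x => g * x * g⁻¹) e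
  simp only [iotJ_conj] at e1
  obtain ⟨h1, h2, -⟩ := pelJ_injective h e1
  exact Prod.ext (Subtype.ext h1) (Subtype.ext h2)

theorem continuous_iotJ (g : GL (Fin N) E) : Continuous (iotJ σ h H₁ H₂ g) := by
  have h1 : Continuous fun t : unitary σ H₁ × unitary σ H₂ =>
      pelJ h (t.1 : GL (Fin a) E) (t.2 : GL (Fin b) E) 0 :=
    (continuous_pelJ h).comp (((continuous_subtype_val.comp continuous_fst).prodMk
      (continuous_subtype_val.comp continuous_snd)).prodMk continuous_const)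
  exact (continuous_const.mul h1).mul continuous_const

theorem range_iotJ (hH1 : IsUnit H₁.det) {g : GL (Fin N) E} (hg : GM σ H g = bmJ h H₁ 0 0 H₂)
    {u : GL (Fin N) E} (hu : u ∈ unitary σ H) (hug : u ∈ Mg (PSJ h E) g) :
    ∃ t, iotJ σ h H₁ H₂ g t = u := by
  obtain ⟨p, q, y, e⟩ := hug
  have h1 := (conj_mem_unitary g u).2 hu
  rw [hg, e] at h1
  have hy := eq_zero_of_pelJ_unitary h hH1 h1
  subst hy
  obtain ⟨hp, hq⟩ := (pelJ_mem_unitary_iff h p q).1 h1
  refine ⟨(⟨p, hp⟩, ⟨q, hq⟩), ?_⟩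
  rw [iotJ_apply]
  show g⁻¹ * pelJ h p q 0 * g = u
  rw [← e]
  group

theorem isOpen_comap_iotJ {g : GL (Fin N) E} (hg : GM σ H g = bmJ h H₁ 0 0 H₂)
    {K : Subgroup (GL (Fin N) E)} (hK : CO (unitary σ H) K) :
    IsOpen ((K.comap (iotJ σ h H₁ H₂ g) : Subgroup (unitary σ H₁ × unitary σ H₂)) :
      Set (unitary σ H₁ × unitary σ H₂)) := by
  have h1 : Continuous fun t : unitary σ H₁ × unitary σ H₂ =>
      (⟨iotJ σ h H₁ H₂ g t, iotJ_mem hg t⟩ : unitary σ H) :=
    (continuous_iotJ g).subtype_mk _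
  exact hK.isOpen.preimage h1

theorem isCompact_comap_iotJ (hH1 : IsUnit H₁.det) {g : GL (Fin N) E}
    (hg : GM σ H g = bmJ h H₁ 0 0 H₂) {K : Subgroup (GL (Fin N) E)} (hK : CO (unitary σ H) K) :
    IsCompact ((K.comap (iotJ σ h H₁ H₂ g) : Subgroup (unitary σ H₁ × unitary σ H₂)) :
      Set (unitary σ H₁ × unitary σ H₂)) := by
  set D : Set (GL (Fin N) E) := {x | g * x * g⁻¹ ∈ PSJ h E} with hD
  have hDc : IsClosed D := (isClosed_PSJ h).preimage
    ((continuous_const.mul continuous_id).mul continuous_const)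
  have hKD : IsCompact ((K : Set (GL (Fin N) E)) ∩ D) := hK.compact.inter_right hDc
  -- the set in the subtype
  set T : Set D := Subtype.val ⁻¹' (K : Set (GL (Fin N) E)) with hT
  have hTc : IsCompact T := by
    rw [Topology.IsInducing.subtypeVal.isCompact_iff]
    have : Subtype.val '' T = (K : Set (GL (Fin N) E)) ∩ D := by
      rw [hT, Subtype.image_preimage_coe, Set.inter_comm]
    rw [this]
    exact hKD
  let f : D → PSJ h E := fun x => ⟨g * x * g⁻¹, x.2⟩
  have hf : Continuous f := ((continuous_const.mul continuous_subtype_val).mul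
    continuous_const).subtype_mk _
  let Φ : D → GL (Fin a) E × GL (Fin b) E := fun x => (pAJ (f x), pDJ (f x))
  have hΦ : Continuous Φ := (continuous_pAJ.comp hf).prodMk (continuous_pDJ.comp hf)
  let j : unitary σ H₁ × unitary σ H₂ → GL (Fin a) E × GL (Fin b) E := fun t => (t.1, t.2)
  have hj : Topology.IsInducing j :=
    Topology.IsInducing.subtypeVal.prodMap Topology.IsInducing.subtypeVal
  rw [hj.isCompact_iff]
  have e : j '' ((K.comap (iotJ σ h H₁ H₂ g) : Subgroup (unitary σ H₁ × unitary σ H₂)) :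
      Set (unitary σ H₁ × unitary σ H₂)) = Φ '' T := by
    ext t
    constructor
    · rintro ⟨t, ht, rfl⟩
      have ht' : iotJ σ h H₁ H₂ g t ∈ K := ht
      have hc := iotJ_conj (σ := σ) (h := h) g t
      have hD' : iotJ σ h H₁ H₂ g t ∈ D := by
        show g * iotJ σ h H₁ H₂ g t * g⁻¹ ∈ PSJ h E
        rw [hc]
        exact ⟨_, _, _, rfl⟩
      refine ⟨⟨_, hD'⟩, ht', ?_⟩
      have e1 : ((f ⟨_, hD'⟩ : PSJ h E) : GL (Fin N) E) =
          pelJ h (t.1 : GL (Fin a) E) (t.2 : GL (Fin b) E) 0 := hc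
      exact Prod.ext (pAJ_eq e1) (pDJ_eq e1)
    · rintro ⟨x, hx, rfl⟩
      obtain ⟨t, ht⟩ := range_iotJ hH1 hg (hK.le hx) x.2
      refine ⟨t, ?_, ?_⟩
      · show iotJ σ h H₁ H₂ g t ∈ K
        rw [ht]
        exact hx
      · have e1 : ((f x : PSJ h E) : GL (Fin N) E) =
            pelJ h (t.1 : GL (Fin a) E) (t.2 : GL (Fin b) E) 0 := by
          show g * x * g⁻¹ = _
          rw [← ht, iotJ_conj]
        exact (Prod.ext (pAJ_eq e1) (pDJ_eq e1)).symm
  rw [e]
  exact hTc.image hΦ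

/-- The weights at a point with block diagonal Gram matrix. -/
theorem exists_weight_diag (hq : QuadDatum σ δ d) (hH : IsSkew σ H) (hs1 : IsSkew σ H₁)
    (hs2 : IsSkew σ H₂) {g : GL (Fin N) E} (hg : GM σ H g = bmJ h H₁ 0 0 H₂) :
    ∃ c : Subgroup (GL (Fin N) E) → ℝ, (∀ K, CO (unitary σ H) K → 0 < c K) ∧
      (∀ K K', CO (unitary σ H) K → CO (unitary σ H) K' → K' ≤ K →
        c K' * K'.relIndex K = c K * K'.relIndex (Mg (PSJ h E) g ⊓ K)) ∧
      ∀ K, CO (unitary σ H) K → ∀ u ∈ unitary σ H, u ∈ Mg (PSJ h E) g →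
        c (K.map (MulAut.conj u).toMonoidHom) = c K := by
  haveI := P1.locallyCompact_unitary (σ := σ) (H := H)
  haveI := P1.locallyCompact_unitary (σ := σ) (H := H₁)
  haveI := P1.locallyCompact_unitary (σ := σ) (H := H₂)
  haveI := P1.secondCountable_unitary (σ := σ) (H := H)
  haveI := P1.secondCountable_unitary (σ := σ) (H := H₁)
  haveI := P1.secondCountable_unitary (σ := σ) (H := H₂)
  have hH1 : IsUnit H₁.det := isUnit_iff_ne_zero.2 hs1.det_ne
  obtain ⟨m, m1, m2, m3⟩ := exists_idx (P1.cgen_unitary hq hH)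
  obtain ⟨n, n1, n2, n3⟩ := exists_idx (P1.cgen_prod hq hs1 hs2)
  have o1 : ∀ K, CO (unitary σ H) K →
      IsCompact ((K.subgroupOf (unitary σ H) : Subgroup (unitary σ H)) : Set (unitary σ H)) := by
    intro K hK
    have e0 : (Subtype.val : unitary σ H → GL (Fin N) E) ''
        ((K.subgroupOf (unitary σ H) : Subgroup (unitary σ H)) : Set (unitary σ H)) =
          (K : Set (GL (Fin N) E)) := by
      ext x
      constructor
      · rintro ⟨y, hy, rfl⟩
        exact hy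
      · intro hx
        exact ⟨⟨x, hK.le hx⟩, hx, rfl⟩
    have e1 := hK.compact
    rw [← e0] at e1
    exact Topology.IsInducing.subtypeVal.isCompact_iff.2 e1
  have r1 : ∀ K K' : Subgroup (GL (Fin N) E), CO (unitary σ H) K →
      (K'.subgroupOf (unitary σ H)).relIndex (K.subgroupOf (unitary σ H)) = K'.relIndex K :=
    fun K K' hK => Subgroup.relIndex_subgroupOf hK.le
  have r2 : ∀ K K' : Subgroup (GL (Fin N) E), CO (unitary σ H) K →
      (K'.comap (iotJ σ h H₁ H₂ g)).relIndex (K.comap (iotJ σ h H₁ H₂ g)) =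
        K'.relIndex (Mg (PSJ h E) g ⊓ K) := by
    intro K K' hK
    rw [Subgroup.relIndex_comap]
    congr 1
    ext x
    constructor
    · rintro ⟨t, ht, rfl⟩
      refine ⟨?_, ht⟩
      show g * iotJ σ h H₁ H₂ g t * g⁻¹ ∈ PSJ h E
      rw [iotJ_conj]
      exact ⟨_, _, _, rfl⟩
    · rintro ⟨hx1, hx2⟩
      obtain ⟨t, ht⟩ := range_iotJ hH1 hg (hK.le hx2) hx1
      refine ⟨t, ?_, ht⟩
      show iotJ σ h H₁ H₂ g t ∈ K
      rw [ht]
      exact hx2
  refine ⟨fun K => m (K.subgroupOf (unitary σ H)) / n (K.comap (iotJ σ h H₁ H₂ g)),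
    fun K hK => ?_, fun K K' hK hK' hle => ?_, fun K hK u hu hug => ?_⟩
  · exact div_pos (m1 _ hK.isOpen (o1 K hK))
      (n1 _ (isOpen_comap_iotJ hg hK) (isCompact_comap_iotJ hH1 hg hK))
  · have e1 := m2 _ _ hK.isOpen (o1 K hK) hK'.isOpen (o1 K' hK')
      (Subgroup.comap_mono (f := (unitary σ H).subtype) hle)
    have e2 := n2 _ _ (isOpen_comap_iotJ hg hK) (isCompact_comap_iotJ hH1 hg hK)
      (isOpen_comap_iotJ hg hK') (isCompact_comap_iotJ hH1 hg hK')
      (Subgroup.comap_mono (f := iotJ σ h H₁ H₂ g) hle)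
    rw [r1 K K' hK] at e1
    rw [r2 K K' hK] at e2
    have p1 := (n1 _ (isOpen_comap_iotJ hg hK) (isCompact_comap_iotJ hH1 hg hK)).ne'
    have p2 := (n1 _ (isOpen_comap_iotJ hg hK') (isCompact_comap_iotJ hH1 hg hK')).ne'
    show m (K'.subgroupOf (unitary σ H)) / n (K'.comap (iotJ σ h H₁ H₂ g)) * (K'.relIndex K : ℝ) =
      m (K.subgroupOf (unitary σ H)) / n (K.comap (iotJ σ h H₁ H₂ g)) *
        (K'.relIndex (Mg (PSJ h E) g ⊓ K) : ℝ)
    rw [div_mul_eq_mul_div, div_mul_eq_mul_div, div_eq_div_iff p2 p1, e1, ← e2]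
    ring
  · obtain ⟨t, ht⟩ := range_iotJ hH1 hg hu hug
    have e1 : (K.map (MulAut.conj u).toMonoidHom).subgroupOf (unitary σ H) =
        (K.subgroupOf (unitary σ H)).map (MulAut.conj (⟨u, hu⟩ : unitary σ H)).toMonoidHom := by
      ext x
      constructor
      · rintro ⟨k, hk, e⟩
        have e' : u * k * u⁻¹ = x := e
        refine ⟨⟨k, hK.le hk⟩, hk, ?_⟩
        apply Subtype.ext
        exact e'
      · rintro ⟨k, hk, rfl⟩
        exact ⟨k, hk, rfl⟩
    have e2 : (K.map (MulAut.conj u).toMonoidHom).comap (iotJ σ h H₁ H₂ g) =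
        (K.comap (iotJ σ h H₁ H₂ g)).map (MulAut.conj t).toMonoidHom := by
      ext x
      constructor
      · rintro ⟨k, hk, e⟩
        have e' : u * k * u⁻¹ = iotJ σ h H₁ H₂ g x := e
        refine ⟨t⁻¹ * x * t, ?_, ?_⟩
        · show iotJ σ h H₁ H₂ g (t⁻¹ * x * t) ∈ K
          rw [map_mul, map_mul, map_inv, ht, ← e']
          have : u⁻¹ * (u * k * u⁻¹) * u = k := by group
          rw [this]
          exact hk
        · show t * (t⁻¹ * x * t) * t⁻¹ = x
          group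
      · rintro ⟨y, hy, rfl⟩
        have hy' : iotJ σ h H₁ H₂ g y ∈ K := hy
        refine ⟨iotJ σ h H₁ H₂ g y, hy', ?_⟩
        show u * iotJ σ h H₁ H₂ g y * u⁻¹ = iotJ σ h H₁ H₂ g (t * y * t⁻¹)
        rw [map_mul, map_mul, map_inv, ht]
    show m ((K.map (MulAut.conj u).toMonoidHom).subgroupOf (unitary σ H)) /
      n ((K.map (MulAut.conj u).toMonoidHom).comap (iotJ σ h H₁ H₂ g)) = _
    rw [e1, e2, m3 _ hK.isOpen (o1 K hK), n3 _ (isOpen_comap_iotJ hg hK)
      (isCompact_comap_iotJ hH1 hg hK)]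

end wt

end SpW
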