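import Pool.Agent.Work.MP_3615d2_al.P1.ResSurj
import Pool.Agent.Work.MP_3615d2_al.P1.DefsP
import Pool.Agent.Work.MP_3615d2_al.Clo.Sec

/-!
MP_3615d2_al, Part 1, closed stratum: the orbit of an isotropic subspace, openness of the orbit map.
-/

open MeasureTheory Matrix Filter Topology
open scoped NNReal

set_option linter.unusedSectionVars false

namespace SpW

section abs

theorem small_conj {G : Type} [Group G] [TopologicalSpace G] [IsTopologicalGroup G] {U : Subgroup G}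
    (u : G) {V₁ : Set G} (hV₁ : V₁ ∈ 𝓝 1) :
    ∃ A ∈ 𝓝 (1 : G), ∃ B ∈ 𝓝 (1 : U), ∀ k ∈ A, ∀ w ∈ B, u * k * u⁻¹ * (w : G) ∈ V₁ := by
  have t1 : Tendsto (fun z : G × U => u * z.1 * u⁻¹ * (z.2 : G)) (𝓝 1 ×ˢ 𝓝 1) (𝓝 1) := by
    have hc : Continuous fun z : G × U => u * z.1 * u⁻¹ * (z.2 : G) := by fun_prop
    have h1 := hc.tendsto ((1 : G), (1 : U))
    rw [nhds_prod_eq] at h1
    simpa using h1
  obtain ⟨A, hA, B, hB, hAB⟩ := Filter.mem_prod_iff.1 (t1 hV₁)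
  exact ⟨A, hA, B, hB, fun k hk w hw => hAB (Set.mk_mem_prod hk hw)⟩

theorem small_conj' {G : Type} [Group G] [TopologicalSpace G] [IsTopologicalGroup G] (u : G)
    {V : Set G} (hV : V ∈ 𝓝 1) : (fun w : G => u⁻¹ * w⁻¹ * u) ⁻¹' V ∈ 𝓝 (1 : G) := by
  have t2 : Tendsto (fun w : G => u⁻¹ * w⁻¹ * u) (𝓝 1) (𝓝 1) := by
    have hc : Continuous fun w : G => u⁻¹ * w⁻¹ * u := by fun_prop
    have h1 := hc.tendsto (1 : G)
    simpa using h1
  exact t2 hV

end abs

section frame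

variable {E : Type} [Field E] {m b N : ℕ} (h : m + b = N)

/-- the first `m` basis vectors -/
def fr0 : Matrix (Fin N) (Fin m) E := fun i j => if i = sJ h (Sum.inl j) then 1 else 0

theorem mul_fr0 {k : ℕ} (g : Matrix (Fin k) (Fin N) E) (i : Fin k) (j : Fin m) :
    (g * (fr0 h : Matrix (Fin N) (Fin m) E)) i j = g i (sJ h (Sum.inl j)) := by
  rw [Matrix.mul_apply, Finset.sum_eq_single (sJ h (Sum.inl j))]
  · simp [fr0]
  · intro i' _ hi
    simp [fr0, hi]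
  · intro h0
    exact absurd (Finset.mem_univ _) h0

theorem fr0_left : ((fr0 h : Matrix (Fin N) (Fin m) E).transpose) *
    (fr0 h : Matrix (Fin N) (Fin m) E) = 1 := by
  ext i j
  rw [mul_fr0, Matrix.transpose_apply, fr0, Matrix.one_apply]
  by_cases hij : i = j
  · subst hij
    simp
  · rw [if_neg hij, if_neg]
    intro h0
    apply hij
    have := (sJ h).injective h0
    exact (Sum.inl_injective this).symm

theorem pelJ_mul_fr0 (p : GL (Fin m) E) (q : GL (Fin b) E) (y : Matrix (Fin m) (Fin b) E) :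
    ((pelJ h p q y : GL (Fin N) E) : Matrix (Fin N) (Fin N) E) *
      (fr0 h : Matrix (Fin N) (Fin m) E) =
      (fr0 h : Matrix (Fin N) (Fin m) E) * (p : Matrix (Fin m) (Fin m) E) := by
  ext i j
  rw [mul_fr0, Matrix.mul_apply]
  obtain ⟨i, rfl⟩ := (sJ h).surjective i
  rw [pelJ_val, bmJ_apply]
  rcases i with i | i
  · rw [Matrix.fromBlocks_apply₁₁, Finset.sum_eq_single i]
    · simp [fr0]
    · intro i' _ hi
      have : ¬ (sJ h (Sum.inl i) = sJ h (Sum.inl i')) := fun h0 =>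
        hi (Sum.inl_injective ((sJ h).injective h0)).symm
      simp [fr0, this]
    · intro h0
      exact absurd (Finset.mem_univ _) h0
  · rw [Matrix.fromBlocks_apply₂₁]
    symm
    apply Finset.sum_eq_zero
    intro i' _
    have : ¬ (sJ h (Sum.inr i) = sJ h (Sum.inl i')) := fun h0 => by
      have := (sJ h).injective h0
      cases this
    simp [fr0, this]

/-- an element which fixes the first `m` basis vectors is in the parabolic subgroup -/
theorem mem_PSJ_of_fr0 {g : GL (Fin N) E}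
    (hg : (g : Matrix (Fin N) (Fin N) E) * (fr0 h : Matrix (Fin N) (Fin m) E) = fr0 h) :
    g ∈ PSJ h E := by
  refine (exists_pelJ_iff h g).2 ?_
  ext i j
  have h1 := congrFun (congrFun hg (sJ h (Sum.inr i))) j
  rw [mul_fr0] at h1
  have h2 : ¬ (sJ h (Sum.inr i) = sJ h (Sum.inl j)) := fun h0 => by
    have := (sJ h).injective h0
    cases this
  rw [lowLJ, h1]
  simp [fr0, h2]

variable {F : Type} [Field F] [Algebra F E] (σ : E ≃ₐ[F] E) (H : Matrix (Fin N) (Fin N) E)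

theorem hf_fr0 : hf σ H (fr0 h) (fr0 h) = upLJ h H := by
  have h1 : ((fr0 h : Matrix (Fin N) (Fin m) E)).map σ = fr0 h := by
    ext i j
    rw [Matrix.map_apply, fr0]
    split_ifs <;> simp
  rw [hf, h1]
  ext i j
  rw [mul_fr0, Matrix.mul_apply, Finset.sum_eq_single (sJ h (Sum.inl i))]
  · simp [fr0, upLJ]
  · intro i' _ hi
    simp [fr0, hi]
  · intro h0
    exact absurd (Finset.mem_univ _) h0

end frame

section orb

variable {F E : Type} [NontriviallyNormedField F] [IsUltrametricDist F] [ProperSpace F]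
  [NontriviallyNormedField E] [NormedAlgebra F E] [IsUltrametricDist E] [ProperSpace E]
  {σ : E ≃ₐ[F] E} {δ : E} {d : F} {m b N : ℕ} (h : m + b = N) {H : Matrix (Fin N) (Fin N) E}

theorem tendsto_conj_frame {k : ℕ} (u : GL (Fin N) E) (x : Matrix (Fin N) (Fin k) E) :
    Tendsto (fun g : GL (Fin N) E => ((u * g⁻¹ * u⁻¹ : GL (Fin N) E) :
      Matrix (Fin N) (Fin N) E) * x) (𝓝 1) (𝓝 x) := by
  have h1 : Continuous fun g : GL (Fin N) E => u * g⁻¹ * u⁻¹ := by fun_prop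
  have h2 : Continuous fun g : GL (Fin N) E =>
      ((u * g⁻¹ * u⁻¹ : GL (Fin N) E) : Matrix (Fin N) (Fin N) E) :=
    Units.continuous_val.comp h1
  have hc : Continuous fun g : GL (Fin N) E => ((u * g⁻¹ * u⁻¹ : GL (Fin N) E) :
      Matrix (Fin N) (Fin N) E) * x := h2.matrix_mul continuous_const
  have h3 := hc.tendsto (1 : GL (Fin N) E)
  have e : ((u * (1 : GL (Fin N) E)⁻¹ * u⁻¹ : GL (Fin N) E) :
      Matrix (Fin N) (Fin N) E) * x = x := by
    rw [inv_one, mul_one, mul_inv_cancel, Units.val_one, Matrix.one_mul]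
  rwa [e] at h3

theorem orbJ_iso (h0 : upLJ h H = 0) {k : GL (Fin N) E} {u v : unitary σ H} {p : PSJ h E}
    (e : (u : GL (Fin N) E) * k = (p : GL (Fin N) E) * (v : GL (Fin N) E)) :
    hf σ H ((((u : GL (Fin N) E) * k⁻¹ * (u : GL (Fin N) E)⁻¹ : GL (Fin N) E) :
      Matrix (Fin N) (Fin N) E) * (fr0 h : Matrix (Fin N) (Fin m) E))
      ((((u : GL (Fin N) E) * k⁻¹ * (u : GL (Fin N) E)⁻¹ : GL (Fin N) E) :
      Matrix (Fin N) (Fin N) E) * (fr0 h : Matrix (Fin N) (Fin m) E)) = 0 := by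
  have h00 : hf σ H (fr0 h : Matrix (Fin N) (Fin m) E) (fr0 h) = 0 := by rw [hf_fr0, h0]
  obtain ⟨a, q, y, hp⟩ := (PSJ h E).inv_mem p.2
  have e1 : (u : GL (Fin N) E) * k⁻¹ * (u : GL (Fin N) E)⁻¹ =
      ((u * v⁻¹ : unitary σ H) : GL (Fin N) E) * pelJ h a q y := by
    rw [← hp, Subgroup.coe_mul, Subgroup.coe_inv]
    have e2 : k⁻¹ * (u : GL (Fin N) E)⁻¹ = (v : GL (Fin N) E)⁻¹ * (p : GL (Fin N) E)⁻¹ := by
      rw [← _root_.mul_inv_rev, ← _root_.mul_inv_rev, e]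
    rw [mul_assoc, e2, mul_assoc]
  rw [e1, Units.val_mul, Matrix.mul_assoc, pelJ_mul_fr0]
  have e3 := hf_unitary σ H (u * v⁻¹)
    ((fr0 h : Matrix (Fin N) (Fin m) E) * (a : Matrix (Fin m) (Fin m) E))
    ((fr0 h : Matrix (Fin N) (Fin m) E) * (a : Matrix (Fin m) (Fin m) E))
  refine e3.trans ?_
  rw [hf_mul, h00, Matrix.mul_zero, Matrix.zero_mul]

theorem orbJ_mem {k u w : GL (Fin N) E}
    (hw : (w : Matrix (Fin N) (Fin N) E) * (fr0 h : Matrix (Fin N) (Fin m) E) =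
      ((u * k⁻¹ * u⁻¹ : GL (Fin N) E) : Matrix (Fin N) (Fin N) E) *
        (fr0 h : Matrix (Fin N) (Fin m) E)) : u * k * u⁻¹ * w ∈ PSJ h E := by
  have h2 : w⁻¹ * (u * k⁻¹ * u⁻¹) ∈ PSJ h E := by
    refine mem_PSJ_of_fr0 h ?_
    rw [Units.val_mul, Matrix.mul_assoc, ← hw, ← Matrix.mul_assoc, Units.inv_mul, Matrix.one_mul]
  have h3 := (PSJ h E).inv_mem h2
  have e4 : (w⁻¹ * (u * k⁻¹ * u⁻¹))⁻¹ = u * k * u⁻¹ * w := by group
  rwa [e4] at h3

/-- The map `P × U → P U` is open for the parabolic subgroup of an isotropic subspace. -/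
theorem orbOpen_unitary (hq : QuadDatum σ δ d) (hH : IsSkew σ H) (h0 : upLJ h H = 0) :
    OrbOpen (PSJ h E) (unitary σ H) := by
  intro u V V' hV hV'
  rw [nhds_subtype_eq_comap, Filter.mem_comap] at hV
  obtain ⟨V₁, hV₁, hV₁V⟩ := hV
  have h00 : hf σ H (fr0 h : Matrix (Fin N) (Fin m) E) (fr0 h) = 0 := by rw [hf_fr0, h0]
  obtain ⟨A, hA, B, hB, hAB⟩ := small_conj (U := unitary σ H) (u : GL (Fin N) E) hV₁
  have hK : B ∩ (fun w : unitary σ H => u⁻¹ * w⁻¹ * u) ⁻¹' V' ∈ 𝓝 (1 : unitary σ H) :=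
    Filter.inter_mem hB (small_conj' u hV')
  have h1 := exists_near hq hH (fr0 h : Matrix (Fin N) (Fin m) E) h00 ⟨_, fr0_left h⟩ _ hK
  have t3 := tendsto_conj_frame (u : GL (Fin N) E) (fr0 h : Matrix (Fin N) (Fin m) E)
  filter_upwards [t3.eventually h1, hA] with k hk hkA
  rintro ⟨p, v, e⟩
  obtain ⟨w, ⟨hwB, hwV⟩, hw⟩ := hk (orbJ_iso h h0 e)
  have hp := orbJ_mem h (k := k) (u := (u : GL (Fin N) E)) (w := (w : GL (Fin N) E)) hw
  have h5 : (⟨_, hp⟩ : PSJ h E) ∈ V := by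
    apply hV₁V
    exact hAB k hkA w hwB
  refine ⟨⟨_, hp⟩, h5, u⁻¹ * w⁻¹ * u, hwV, ?_⟩
  rw [Subgroup.coe_mul, Subgroup.coe_mul, Subgroup.coe_inv, Subgroup.coe_inv]
  group

end orb

end SpW
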