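import Pool.Agent.Work.MP_3615d2_al.P1.CloFib
import Pool.Agent.Work.MP_3615d2_al.P1.OrbJ
import Pool.Agent.Work.MP_3615d2_al.P1.FibG
import Pool.Agent.Work.MP_3615d2_al.Clo.QInt
import Pool.Agent.Work.MP_3615d2_al.RhoB

/-!
MP_3615d2_al, Part 1, closed stratum: the form on the fibre over an isotropic subspace.
-/

open Filter Topology MeasureTheory Matrix

set_option linter.unusedSectionVars false

namespace SpW

section chi

variable {F E : Type} [NontriviallyNormedField F] [IsUltrametricDist F] [ProperSpace F]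
  [NontriviallyNormedField E] [NormedAlgebra F E] [IsUltrametricDist E] [ProperSpace E]
  [MeasurableSpace E] [BorelSpace E]
  (σ : E ≃ₐ[F] E) {δ : E} {d : F} {m b N : ℕ} (h : m + b = N) (H : Matrix (Fin N) (Fin N) E)

/-- the parabolic subgroup of `U(H)` -/
abbrev PU : Subgroup (unitary σ H) := (PSJ h E).subgroupOf (unitary σ H)

/-- the inclusion in the parabolic subgroup of `GL_N` -/
def PUin : PU σ h H →* PSJ h E where
  toFun p := ⟨((p : unitary σ H) : GL (Fin N) E), p.2⟩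
  map_one' := rfl
  map_mul' _ _ := rfl

theorem continuous_PUin : Continuous (PUin σ h H) :=
  (continuous_subtype_val.comp continuous_subtype_val).subtype_mk _

/-- the modulus character -/
noncomputable def chU : PU σ h H →* ℝ where
  toFun p := ad (pAJ (PUin σ h H p)) ^ (N - m)
  map_one' := by
    have h0 : ((PUin σ h H 1 : PSJ h E) : GL (Fin N) E) = pelJ h 1 1 0 := (pelJ_one h).symm
    rw [pAJ_eq h0, ad_one, one_pow]
  map_mul' p q := by
    rw [map_mul]
    obtain ⟨y, h0⟩ := exists_pelJ_mul (PUin σ h H p) (PUin σ h H q)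
    rw [pAJ_eq h0, ad_mul, mul_pow]

variable {σ H}

theorem chU_eq {p : PU σ h H} {a : GL (Fin m) E} {q : GL (Fin b) E} {y : Matrix (Fin m) (Fin b) E}
    (e : ((p : unitary σ H) : GL (Fin N) E) = pelJ h a q y) : chU σ h H p = ad a ^ (N - m) := by
  have h0 : ((PUin σ h H p : PSJ h E) : GL (Fin N) E) = pelJ h a q y := e
  show ad (pAJ (PUin σ h H p)) ^ (N - m) = _
  rw [pAJ_eq h0]

theorem chU_pos (p : PU σ h H) : 0 < chU σ h H p := pow_pos (ad_pos _) _

theorem chU_near : ∀ᶠ p in 𝓝 (1 : PU σ h H), chU σ h H p = 1 := by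
  have hc : Continuous fun p : PU σ h H => pAJ (PUin σ h H p) :=
    continuous_pAJ.comp (continuous_PUin σ h H)
  have h1 := hc.tendsto 1
  have h0 : ((PUin σ h H 1 : PSJ h E) : GL (Fin N) E) = pelJ h 1 1 0 := (pelJ_one h).symm
  rw [pAJ_eq h0] at h1
  filter_upwards [h1.eventually ad_eventually] with p hp
  show ad (pAJ (PUin σ h H p)) ^ (N - m) = 1
  rw [hp, one_pow]

/-- The modulus character is trivial on compact subgroups. -/
theorem chU_compact {K : Subgroup (unitary σ H)} (hK : IsCompact (K : Set (unitary σ H)))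
    (p : PU σ h H) (hp : (p : unitary σ H) ∈ K) : chU σ h H p = 1 := by
  set A : Subgroup (PU σ h H) := K.subgroupOf (PU σ h H) with hA
  set A' : Subgroup (PU σ h H) := (chU σ h H).ker with hA'
  have hPc : IsClosed ((PU σ h H : Subgroup (unitary σ H)) : Set (unitary σ H)) :=
    (isClosed_PSJ h).preimage continuous_subtype_val
  have hAc : IsCompact (A : Set (PU σ h H)) := by
    have h1 := hPc.isClosedEmbedding_subtypeVal.isCompact_preimage hK
    exact h1
  have hA'o : IsOpen (A' : Set (PU σ h H)) := by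
    refine Subgroup.isOpen_of_mem_nhds _ (g := 1) ?_
    filter_upwards [chU_near (σ := σ) (H := H) h] with p hp
    exact hp
  have hi := relIndex_ne_of_compact hAc hA'o
  obtain ⟨n, hn, -, h2⟩ := Subgroup.exists_pow_mem_of_relIndex_ne_zero hi
    (a := p) (show p ∈ A from hp)
  have h3 : chU σ h H (p ^ n) = 1 := h2.1
  rw [map_pow] at h3
  exact (pow_eq_one_iff_of_nonneg (chU_pos h p).le hn.ne').1 h3

theorem mem_PU_of_mul {p : unitary σ H} {a : GL (Fin m) E}
    (e : umat p * (fr0 h : Matrix (Fin N) (Fin m) E) =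
      (fr0 h : Matrix (Fin N) (Fin m) E) * (a : Matrix (Fin m) (Fin m) E)) :
    ∃ q y, (p : GL (Fin N) E) = pelJ h a q y := by
  have h1 : lowLJ h (p : GL (Fin N) E).1 = 0 := by
    ext i j
    have h2 := congrFun (congrFun e (sJ h (Sum.inr i))) j
    have h2' : ((p : GL (Fin N) E).1 * (fr0 h : Matrix (Fin N) (Fin m) E))
        (sJ h (Sum.inr i)) j = ((fr0 h : Matrix (Fin N) (Fin m) E) *
          (a : Matrix (Fin m) (Fin m) E)) (sJ h (Sum.inr i)) j := h2
    rw [mul_fr0, Matrix.mul_apply] at h2'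
    show (p : GL (Fin N) E).1 (sJ h (Sum.inr i)) (sJ h (Sum.inl j)) = 0
    rw [h2']
    apply Finset.sum_eq_zero
    intro i' _
    have h3 : ¬ (sJ h (Sum.inr i) = sJ h (Sum.inl i')) := fun h0 => by
      have := (sJ h).injective h0
      cases this
    simp [fr0, h3]
  obtain ⟨a', q, y, hp⟩ := (exists_pelJ_iff h (p : GL (Fin N) E)).2 h1
  refine ⟨q, y, ?_⟩
  have h4 := pelJ_mul_fr0 h a' q y
  rw [← hp] at h4
  have h5 : (fr0 h : Matrix (Fin N) (Fin m) E) * (a' : Matrix (Fin m) (Fin m) E) =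
      (fr0 h : Matrix (Fin N) (Fin m) E) * (a : Matrix (Fin m) (Fin m) E) := h4.symm.trans e
  have h6 := congrArg (fun X => ((fr0 h : Matrix (Fin N) (Fin m) E).transpose) * X) h5
  simp only [← Matrix.mul_assoc] at h6
  rw [fr0_left, Matrix.one_mul, Matrix.one_mul] at h6
  rw [hp, Units.ext h6]

end chi

section main

variable {F E : Type} [NontriviallyNormedField F] [IsUltrametricDist F] [ProperSpace F]
  [NontriviallyNormedField E] [NormedAlgebra F E] [IsUltrametricDist E] [ProperSpace E]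
  [MeasurableSpace E] [BorelSpace E]
  {σ : E ≃ₐ[F] E} {δ : E} {d : F} {m b N : ℕ} (h : m + b = N) {H : Matrix (Fin N) (Fin N) E}

/-- the invariant functional -/
theorem exists_intU (hq : QuadDatum σ δ d) (hH : IsSkew σ H) (h0 : upLJ h H = 0) :
    ∃ I : indS (PU σ h H) (chRep (chU σ h H)) →ₗ[ℂ] ℂ,
      (∀ (u : unitary σ H) (Φ Φ' : indS (PU σ h H) (chRep (chU σ h H))),
        (∀ x, (Φ' : unitary σ H → ℂ) x = (Φ : unitary σ H → ℂ) (x * u)) → I Φ' = I Φ) ∧
      ∀ Φ : indS (PU σ h H) (chRep (chU σ h H)),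
        (∀ x, ∃ r : ℝ, 0 ≤ r ∧ (Φ : unitary σ H → ℂ) x = r) → Φ ≠ 0 → I Φ ≠ 0 := by
  have h00 : hf σ H (fr0 h : Matrix (Fin N) (Fin m) E) (fr0 h) = 0 := by rw [hf_fr0, h0]
  obtain ⟨I, hI, hI0⟩ := exists_qint hq hH (fr0 h : Matrix (Fin N) (Fin m) E) h00 ⟨_, fr0_left h⟩
  have hle : indS (PU σ h H) (chRep (chU σ h H)) ≤ QF σ H (fr0 h : Matrix (Fin N) (Fin m) E) := by
    rintro Φ ⟨h1, K, hK, h2⟩
    refine ⟨fun p u a e => ?_, ?_⟩
    · obtain ⟨q, y, hp⟩ := mem_PU_of_mul h e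
      have hpm : p ∈ PU σ h H := by
        show (p : GL (Fin N) E) ∈ PSJ h E
        exact ⟨a, q, y, hp⟩
      have h3 := h1 ⟨p, hpm⟩ u
      rw [chRep_apply, chU_eq h (p := ⟨p, hpm⟩) hp] at h3
      exact h3
    · filter_upwards [hK.mem_nhds K.one_mem] with k hk u
      exact h2 u k hk
  refine ⟨I.comp (Submodule.inclusion hle), fun u Φ Φ' e => ?_, fun Φ hΦ hne h1 => ?_⟩
  · exact hI u _ _ e
  · refine hI0 (Submodule.inclusion hle Φ) hΦ ?_ h1
    intro h2
    apply hne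
    exact Submodule.inclusion_injective hle (h2.trans (map_zero _).symm)

variable {W S : Type} [AddCommGroup W] [Module ℂ W] [AddCommGroup S] [Module ℂ S]

/-- **The form on the fibre over an isotropic subspace.** -/
theorem exists_cloJ (hq : QuadDatum σ δ d) (hH : IsSkew σ H) (h0 : upLJ h H = 0)
    {τ : (GL (Fin m) E × GL (Fin b) E) →* Module.End ℂ W} (hτ : IsSmoothRep τ)
    {ω : unitary σ H →* Module.End ℂ S} (hω : IsSmoothRep ω)
    {C : Set (unitary σ H)} (hC : IsCompact C)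
    (hUC : ∀ u : unitary σ H, ∃ p : unitary σ H, (p : GL (Fin N) E) ∈ PSJ h E ∧
      ∃ c ∈ C, u = p * c)
    (β : IndJ h τ →ₗ[ℂ] S →ₗ[ℂ] ℂ) (hβ : InvForm σ H (indActJ h τ) ω β)
    (hk : ∀ (f : IndJ h τ) s, (∀ p q y (u : unitary σ H),
      (f : GL (Fin N) E → W) (pelJ h p q y * (u : GL (Fin N) E)) = 0) → β f s = 0) :
    ∃ l : W →ₗ[ℂ] S →ₗ[ℂ] ℂ,
      (∀ (u : unitary σ H) p q y, (u : GL (Fin N) E) = pelJ h p q y → ∀ w s,
        l (τ (p, q) w) (ω u s) = ((ad p ^ (N - m) : ℝ) : ℂ) * l w s) ∧ (l = 0 → β = 0) := by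
  obtain ⟨I, hI, hI0⟩ := exists_intU h hq hH h0
  -- the form on `indS`
  set e := LinearEquiv.ofEq _ _ (indS_eq_IndJ h τ) with he
  set β₁ : indS (PSJ h E) (tauJ h τ) →ₗ[ℂ] S →ₗ[ℂ] ℂ := β.comp e.toLinearMap with hβ₁
  have hk₁ : ∀ f : indS (PSJ h E) (tauJ h τ), (∀ u : unitary σ H, (f : GL (Fin N) E → W) u = 0) →
      β₁ f = 0 := by
    intro f hf
    apply LinearMap.ext
    intro s
    refine hk (e f) s fun p q y u => ?_
    have h1 := (mem_indE_tauJ (ρ := τ) (f := (f : GL (Fin N) E → W))).1 f.2.1 p q y u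
    show (f : GL (Fin N) E → W) (pelJ h p q y * (u : GL (Fin N) E)) = 0
    rw [h1, hf u, map_zero]
  have ho := orbOpen_unitary h hq hH h0
  have hτJ : ∀ w, ∀ᶠ p in 𝓝 (1 : PSJ h E), tauJ h τ p w = w := fun w => tauJ_smooth hτ w
  have hG : ∀ s ∈ 𝓝 (1 : GL (Fin N) E), ∃ K : Subgroup (GL (Fin N) E),
      IsOpen (K : Set (GL (Fin N) E)) ∧ (K : Set (GL (Fin N) E)) ⊆ s := by
    intro s hs
    obtain ⟨K, hK, -, hKs⟩ := gl_basis s hs
    exact ⟨K, hK, hKs⟩
  have hUC' : ∀ u : unitary σ H, ∃ (p : PSJ h E) (c : unitary σ H), c ∈ C ∧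
      (u : GL (Fin N) E) = p * c := by
    intro u
    obtain ⟨p, hp, c, hc, e'⟩ := hUC u
    refine ⟨⟨p, hp⟩, c, hc, ?_⟩
    rw [e']
    rfl
  have hs : Function.Surjective (resS (unitary σ H) (tauJ h τ)) := by
    intro f₀
    obtain ⟨f, hf, hff⟩ := exists_ext ho hτJ hG hC hUC' f₀.2
    refine ⟨⟨f, hf⟩, Subtype.ext ?_⟩
    funext u
    exact hff u
  obtain ⟨β', hβ'⟩ := exists_resForm hs β₁ hk₁
  -- invariance
  have hinv : ∀ (u : unitary σ H)
      (f f' : indS (PU σ h H) (resQ (unitary σ H) (tauJ h τ))),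
      (∀ x, (f' : unitary σ H → W) x = (f : unitary σ H → W) (x * u)) →
      ∀ s, β' f' (ω u s) = β' f s := by
    intro u f f' hff s
    obtain ⟨g, rfl⟩ := hs f
    have h2 : f' = resS (unitary σ H) (tauJ h τ)
        ⟨rtr (u : GL (Fin N) E) (g : GL (Fin N) E → W), rtr_mem_indS g.2 _⟩ := by
      apply Subtype.ext
      funext x
      exact hff x
    rw [h2, hβ', hβ']
    have h3 := hβ u (e g) s
    exact h3
  have hGU : ∀ s ∈ 𝓝 (1 : unitary σ H), ∃ K : Subgroup (unitary σ H),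
      IsOpen (K : Set (unitary σ H)) ∧ IsCompact (K : Set (unitary σ H)) ∧
        (K : Set (unitary σ H)) ⊆ s := by
    intro s hs'
    rw [nhds_subtype_eq_comap, Filter.mem_comap] at hs'
    obtain ⟨V, hV, hVs⟩ := hs'
    obtain ⟨K, hKo, hKc, hKV⟩ := gl_basis V hV
    refine ⟨K.subgroupOf (unitary σ H), hKo.preimage continuous_subtype_val, ?_,
      fun x hx => hVs (hKV hx)⟩
    exact (isClosed_unitary hq).isClosedEmbedding_subtypeVal.isCompact_preimage hKc
  have hτU : ∀ w, ∀ᶠ p in 𝓝 (1 : PU σ h H), resQ (unitary σ H) (tauJ h τ) p w = w := by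
    intro w
    have h1 := (continuous_PUin σ h H).tendsto 1
    exact h1.eventually (hτJ w)
  obtain ⟨l, hl1, hl2⟩ := exists_cloForm (P := PU σ h H) (χ := chU σ h H)
    (fun K hK p hp => chU_compact h hK p hp) (chU_pos h) I hI hI0 hGU hτU hω hC
    (fun u => by
      obtain ⟨p, hp, c, hc, e'⟩ := hUC u
      exact ⟨⟨p, hp⟩, c, hc, e'⟩) β' hinv
  refine ⟨l, fun u p q y hu w s => ?_, fun hl0 => ?_⟩
  · have hup : u ∈ PU σ h H := ⟨p, q, y, hu⟩
    have h1 := hl1 ⟨u, hup⟩ w s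
    rw [chU_eq h (p := ⟨u, hup⟩) hu] at h1
    have h2 : resQ (unitary σ H) (tauJ h τ) (⟨u, hup⟩ : PU σ h H) w = τ (p, q) w := by
      rw [resQ_apply (P := PSJ h E) (τ := tauJ h τ) (⟨u, hup⟩ : PU σ h H)
        ⟨(u : GL (Fin N) E), ⟨p, q, y, hu⟩⟩ rfl]
      rw [tauJ_pelJ τ _ hu]
    rw [h2] at h1
    exact h1
  · have h1 := hl2 hl0
    apply LinearMap.ext
    intro f
    have h2 := hβ' (e.symm f)
    rw [h1] at h2
    have h2' : (0 : S →ₗ[ℂ] ℂ) = β₁ (e.symm f) := h2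
    rw [LinearMap.zero_apply]
    have h3 : β₁ (e.symm f) = β f := by
      show β (e (e.symm f)) = β f
      rw [LinearEquiv.apply_symm_apply]
    rw [← h3, ← h2']

end main

end SpW
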