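import Pool.Agent.Work.MP_3615d2_al.P1.Ev0H
import Pool.Agent.Work.MP_3615d2_al.P1.OrbJ

/-!
MP_3615d2_al, Part 1, closed stratum: a unitary element which is trivial on the orthogonal of
the isotropic subspace is unipotent.
-/

open Matrix

set_option linter.unusedSectionVars false

namespace SpW.P1

section

variable {F E : Type} [NontriviallyNormedField F] [IsUltrametricDist F] [ProperSpace F]
  [NontriviallyNormedField E] [NormedAlgebra F E] [IsUltrametricDist E] [ProperSpace E]
  {σ : E ≃ₐ[F] E} {δ : E} {d : F} {m n k N b : ℕ} (h1 : m + n = k) (h2 : k + m = N)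
  (h : m + b = N) {H₀ : Matrix (Fin n) (Fin n) E}

theorem eps3_inl (i : Fin m) : eps3 h1 h2 (Sum.inl i) = sJ h (Sum.inl i) := by
  apply Fin.ext
  rw [eps3_r, sJ_inl, sJ_inl, sJ_inl]

/-- A vector of the isotropic subspace has no coordinates in the complement. -/
theorem iot_r_inr (r : Fin m → E) (i : Fin b) :
    iot (eps3 h1 h2) r 0 0 (sJ h (Sum.inr i)) = 0 := by
  obtain ⟨x, hx⟩ := (eps3 h1 h2).surjective (sJ h (Sum.inr i))
  rw [← hx]
  unfold iot
  rw [Equiv.symm_apply_apply]
  rcases x with x | x | x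
  · exfalso
    rw [eps3_inl h1 h2 h] at hx
    exact Sum.inl_ne_inr ((sJ h).injective hx)
  · rfl
  · rfl

theorem iot_single (i : Fin m) :
    iot (eps3 h1 h2) (Pi.single i (1 : E)) 0 0 = Pi.single (sJ h (Sum.inl i)) 1 := by
  funext x
  obtain ⟨x, rfl⟩ := (eps3 h1 h2).surjective x
  unfold iot
  rw [Equiv.symm_apply_apply, ← eps3_inl h1 h2 h i]
  by_cases hx : x = Sum.inl i
  · subst hx
    rw [Sum.elim_inl, Pi.single_eq_same, Pi.single_eq_same]
  · rw [Pi.single_eq_of_ne (fun h0 => hx ((eps3 h1 h2).injective h0))]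
    rcases x with x | x | x
    · rw [Sum.elim_inl, Pi.single_eq_of_ne (fun h0 => hx (congrArg Sum.inl h0))]
    · rfl
    · rfl

/-- A unitary element which is trivial on the orthogonal of the isotropic subspace moves the
vectors by elements of the isotropic subspace. -/
theorem uni_mulVec (hq : QuadDatum σ δ d) (hs : IsSkew σ H₀) (g : unitary σ (hyp3 h1 h2 H₀))
    (hg : ∀ r v, (umat g).mulVec (iot (eps3 h1 h2) r v 0) = iot (eps3 h1 h2) r v 0)
    (w : Fin N → E) : ∃ r, (umat g).mulVec w = w + iot (eps3 h1 h2) r 0 0 := by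
  have key : ∀ s, ∃ r, (umat g).mulVec (iot (eps3 h1 h2) 0 0 s) = iot (eps3 h1 h2) r 0 s := by
    intro s
    obtain ⟨r', v', s', hw⟩ := exists_iot (eps3 h1 h2) ((umat g).mulVec (iot (eps3 h1 h2) 0 0 s))
    have hf := (isSplit_hyp3 h1 h2 hq H₀).form
    have e1 : ∀ r v, sk σ (1 : Matrix (Fin m) (Fin m) E) r s' + sk σ H₀ v v' =
        sk σ (1 : Matrix (Fin m) (Fin m) E) r s := by
      intro r v
      have h3 := sk_unitary g (iot (eps3 h1 h2) r v 0) (iot (eps3 h1 h2) 0 0 s)
      rw [hg, hw, hf, hf] at h3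
      have z1 : ∀ x : Fin m → E, sk σ (1 : Matrix (Fin m) (Fin m) E) x 0 = 0 := by
        intro x
        simp [sk]
      have z2 : ∀ x : Fin n → E, sk σ H₀ x 0 = 0 := by
        intro x
        simp [sk]
      rw [z1, z1, z2, map_zero, sub_zero, sub_zero, add_zero] at h3
      exact h3
    have hs' : s' = s := by
      funext i
      have h3 := e1 (Pi.single i 1) 0
      have z3 : ∀ x : Fin n → E, sk σ H₀ 0 x = 0 := by
        intro x
        simp [sk]
      rw [z3, add_zero] at h3
      have h4 : ∀ x : Fin m → E, sk σ (1 : Matrix (Fin m) (Fin m) E) (Pi.single i 1) x =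
          σ (x i) := by
        intro x
        rw [skJ_eq_dot, Matrix.vecMul_one, single_one_dotProduct]
      rw [h4, h4] at h3
      exact σ.injective h3
    have hv' : v' = 0 := by
      apply sk_nondeg hs
      intro x
      rw [sk_swap hq hs x v']
      have h3 := e1 0 x
      have z3 : ∀ y : Fin m → E, sk σ (1 : Matrix (Fin m) (Fin m) E) 0 y = 0 := by
        intro y
        simp [sk]
      rw [z3, z3, zero_add] at h3
      rw [h3, map_zero, neg_zero]
    exact ⟨r', by rw [hw, hs', hv']⟩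
  obtain ⟨r, v, s, rfl⟩ := exists_iot (eps3 h1 h2) w
  obtain ⟨r', hr'⟩ := key s
  refine ⟨r', ?_⟩
  have e2 : iot (eps3 h1 h2) r v s = iot (eps3 h1 h2) r v 0 + iot (eps3 h1 h2) 0 0 s := by
    rw [iot_add, add_zero, add_zero, zero_add]
  rw [e2, Matrix.mulVec_add, hg, hr', add_assoc, iot_add (eps3 h1 h2) 0 r', zero_add, add_zero,
    add_zero]

/-- A unitary element which is trivial on the orthogonal of the isotropic subspace. -/
theorem clo_uni (hq : QuadDatum σ δ d) (hs : IsSkew σ H₀) (g : unitary σ (hyp3 h1 h2 H₀))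
    (hg : ∀ r v, (umat g).mulVec (iot (eps3 h1 h2) r v 0) = iot (eps3 h1 h2) r v 0) :
    ∃ y, (g : GL (Fin N) E) = pelJ h 1 1 y := by
  refine ⟨upRJ h (umat g), Units.ext ?_⟩
  show umat g = bmJ h 1 (upRJ h (umat g)) 0 1
  have hcol : ∀ x y, (umat g) x y = (umat g).mulVec (Pi.single y 1) x := by
    intro x y
    rw [Matrix.mulVec_single_one]
    rfl
  have hlow : ∀ (i : Fin b) (y : Fin N), (umat g) (sJ h (Sum.inr i)) y =
      (Pi.single y (1 : E) : Fin N → E) (sJ h (Sum.inr i)) := by
    intro i y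
    obtain ⟨r, hr⟩ := uni_mulVec h1 h2 hq hs g hg (Pi.single y 1)
    rw [hcol, hr, Pi.add_apply, iot_r_inr h1 h2 h, add_zero]
  have e1 : upLJ h (umat g) = 1 := by
    ext i j
    show (umat g) (sJ h (Sum.inl i)) (sJ h (Sum.inl j)) = _
    rw [hcol, ← iot_single h1 h2 h, hg, iot_single h1 h2 h, Matrix.one_apply]
    by_cases hij : i = j
    · subst hij
      rw [Pi.single_eq_same, if_pos rfl]
    · rw [Pi.single_eq_of_ne (fun h0 => hij (Sum.inl_injective ((sJ h).injective h0))),
        if_neg hij]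
  have e2 : lowLJ h (umat g) = 0 := by
    ext i j
    show (umat g) (sJ h (Sum.inr i)) (sJ h (Sum.inl j)) = 0
    rw [hlow, Pi.single_eq_of_ne]
    intro h0
    exact Sum.inr_ne_inl ((sJ h).injective h0)
  have e3 : lowRJ h (umat g) = 1 := by
    ext i j
    show (umat g) (sJ h (Sum.inr i)) (sJ h (Sum.inr j)) = _
    rw [hlow, Matrix.one_apply]
    by_cases hij : i = j
    · subst hij
      rw [Pi.single_eq_same, if_pos rfl]
    · rw [Pi.single_eq_of_ne (fun h0 => hij (Sum.inr_injective ((sJ h).injective h0))),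
        if_neg hij]
  conv_lhs => rw [← bmJ_blocks h (umat g), e1, e2, e3]

end

end SpW.P1
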