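import Pool.Agent.Work.MP_3615d2_al.P1.NormalB
import Pool.Agent.Work.MP_3615d2_al.Mo.Transp

/-!
MP_3615d2_al, Part 1, Mackey bound: the isotropic subspaces of dimension `m` form one orbit of the
unitary group (determinants); transport of an invariant form to another Gram matrix.
-/

open MeasureTheory Matrix Filter Topology
open scoped NNReal TensorProduct

set_option linter.unusedSectionVars false

namespace SpW

/-! ### Determinants and isometries -/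

section det

variable {F E : Type} [NontriviallyNormedField F] [IsUltrametricDist F] [ProperSpace F]
  [NontriviallyNormedField E] [NormedAlgebra F E] [IsUltrametricDist E] [ProperSpace E]
  {σ : E ≃ₐ[F] E} {δ : E} {d : F}

open HermC in
/-- Two forms whose determinants differ by a norm are isometric. -/
theorem isom_of_det (hq : QuadDatum σ δ d) {n : ℕ} {H1 H2 : Matrix (Fin n) (Fin n) E}
    (h1 : IsSkew σ H1) (h2 : IsSkew σ H2) {z : E} (hz : z ≠ 0)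
    (h : H1.det = algebraMap F E (Algebra.norm F z) * H2.det) : Isom σ H1 H2 := by
  rcases n with _ | n
  · exact ⟨1, fun x y => by simp [sk]⟩
  have hrep : ∀ a b c : F, a ≠ 0 → b ≠ 0 → c ≠ 0 →
      ∃ x y : E, a * Algebra.norm F x + b * Algebra.norm F y = c :=
    fun a b c ha hb hc => exists_rep hq ha hb hc
  obtain ⟨a₁, ha₁, i₁⟩ := exists_dg hq hrep h1
  obtain ⟨a₂, ha₂, i₂⟩ := exists_dg hq hrep h2
  obtain ⟨z₁, hz₁, e₁⟩ := det_of_isom hq i₁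
  obtain ⟨z₂, hz₂, e₂⟩ := det_of_isom hq i₂
  rw [det_dg] at e₁ e₂
  have key : a₁ * Algebra.norm F z₂ = a₂ * (Algebra.norm F z₁ * Algebra.norm F z) := by
    apply (algebraMap F E).injective
    apply mul_right_cancel₀ (pow_ne_zero (n + 1) hq.ne)
    simp only [map_mul]
    rw [h] at e₁
    linear_combination (algebraMap F E (Algebra.norm F z₂)) * e₁ -
      (algebraMap F E (Algebra.norm F z₁)) * (algebraMap F E (Algebra.norm F z)) * e₂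
  have hz3 : z₁ * z / z₂ ≠ 0 := div_ne_zero (mul_ne_zero hz₁ hz) hz₂
  refine (i₁.symm.trans (dg_isom hq hz3 ?_)).trans i₂
  rw [norm_div hq, map_mul]
  have h3 := nm_ne (K := F) hz₂
  field_simp
  linear_combination key

end det

/-! ### The form `hyp3` -/

section hyp

variable {E : Type} [Field E] {m n k N b : ℕ} (h1 : m + n = k) (h2 : k + m = N)

/-- the first `m` indices -/
def e1 (i : Fin m) : Fin N := sJ h2 (Sum.inl (sJ h1 (Sum.inl i)))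

/-- the middle `n` indices -/
def e2 (i : Fin n) : Fin N := sJ h2 (Sum.inl (sJ h1 (Sum.inr i)))

/-- the last `m` indices -/
def e3 (h2 : k + m = N) (i : Fin m) : Fin N := sJ h2 (Sum.inr i)

theorem e1_val (i : Fin m) : (e1 h1 h2 i).1 = i.1 := by
  unfold e1
  rw [sJ_inl, sJ_inl]

theorem e2_val (i : Fin n) : (e2 h1 h2 i).1 = m + i.1 := by
  unfold e2
  rw [sJ_inl, sJ_inr]

theorem e3_val (i : Fin m) : (e3 h2 i).1 = k + i.1 := by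
  unfold e3
  rw [sJ_inr]

/-- every index is of one of the three kinds -/
theorem e_cases (j : Fin N) : (∃ i, j = e1 h1 h2 i) ∨ (∃ i, j = e2 h1 h2 i) ∨
    ∃ i, j = e3 h2 i := by
  obtain ⟨j', rfl⟩ := (sJ h2).surjective j
  rcases j' with j' | j'
  · obtain ⟨j'', rfl⟩ := (sJ h1).surjective j'
    rcases j'' with j'' | j''
    · exact Or.inl ⟨j'', rfl⟩
    · exact Or.inr (Or.inl ⟨j'', rfl⟩)
  · exact Or.inr (Or.inr ⟨j', rfl⟩)

theorem sum_e {M : Type} [AddCommMonoid M] (f : Fin N → M) :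
    ∑ j, f j = (∑ i, f (e1 h1 h2 i) + ∑ i, f (e2 h1 h2 i)) + ∑ i, f (e3 h2 i) := by
  rw [← (sJ h2).sum_comp, Fintype.sum_sum_type, ← (sJ h1).sum_comp, Fintype.sum_sum_type]
  rfl

variable (H₀ : Matrix (Fin n) (Fin n) E)

theorem hyp_11 (i j : Fin m) : hyp3 h1 h2 H₀ (e1 h1 h2 i) (e1 h1 h2 j) = 0 := by
  simp [hyp3, e1, bmJ]

theorem hyp_12 (i : Fin m) (j : Fin n) : hyp3 h1 h2 H₀ (e1 h1 h2 i) (e2 h1 h2 j) = 0 := by
  simp [hyp3, e1, e2, bmJ]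

theorem hyp_13 (i j : Fin m) : hyp3 h1 h2 H₀ (e1 h1 h2 i) (e3 h2 j) = (1 : Matrix _ _ E) i j := by
  simp [hyp3, e1, e3]

theorem hyp_21 (i : Fin n) (j : Fin m) : hyp3 h1 h2 H₀ (e2 h1 h2 i) (e1 h1 h2 j) = 0 := by
  simp [hyp3, e1, e2, bmJ]

theorem hyp_22 (i j : Fin n) : hyp3 h1 h2 H₀ (e2 h1 h2 i) (e2 h1 h2 j) = H₀ i j := by
  simp [hyp3, e2, bmJ]

theorem hyp_23 (i : Fin n) (j : Fin m) : hyp3 h1 h2 H₀ (e2 h1 h2 i) (e3 h2 j) = 0 := by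
  simp [hyp3, e2, e3]

theorem hyp_31 (i j : Fin m) : hyp3 h1 h2 H₀ (e3 h2 i) (e1 h1 h2 j) =
    -(1 : Matrix _ _ E) i j := by
  simp [hyp3, e1, e3]

theorem hyp_32 (i : Fin m) (j : Fin n) : hyp3 h1 h2 H₀ (e3 h2 i) (e2 h1 h2 j) = 0 := by
  simp [hyp3, e2, e3]

theorem hyp_33 (i j : Fin m) : hyp3 h1 h2 H₀ (e3 h2 i) (e3 h2 j) = 0 := by
  simp [hyp3, e3]

theorem upL_hyp3 (h : m + b = N) : upLJ h (hyp3 h1 h2 H₀) = 0 := by
  ext i j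
  have e : ∀ i : Fin m, sJ h (Sum.inl i) = e1 h1 h2 i := by
    intro i
    apply Fin.ext
    rw [sJ_inl, e1_val]
  show hyp3 h1 h2 H₀ (sJ h (Sum.inl i)) (sJ h (Sum.inl j)) = 0
  rw [e, e, hyp_11]

/-- the matrix `diag(1, K, 1)` -/
def dmM (K : Matrix (Fin n) (Fin n) E) : Matrix (Fin N) (Fin N) E :=
  bmJ h2 (bmJ h1 1 0 0 K) 0 0 1

theorem det_dmM (K : Matrix (Fin n) (Fin n) E) : (dmM h1 h2 K).det = K.det := by
  unfold dmM bmJ
  rw [det_reindex_self, det_fromBlocks_zero₂₁, det_reindex_self, det_fromBlocks_zero₂₁, det_one,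
    one_mul, mul_one]

theorem dm_11 (K : Matrix (Fin n) (Fin n) E) (i j : Fin m) :
    dmM h1 h2 K (e1 h1 h2 i) (e1 h1 h2 j) = (1 : Matrix _ _ E) i j := by
  simp [dmM, e1, bmJ]

theorem dm_12 (K : Matrix (Fin n) (Fin n) E) (i : Fin m) (j : Fin n) :
    dmM h1 h2 K (e1 h1 h2 i) (e2 h1 h2 j) = 0 := by
  simp [dmM, e1, e2, bmJ]

theorem dm_13 (K : Matrix (Fin n) (Fin n) E) (i j : Fin m) :
    dmM h1 h2 K (e1 h1 h2 i) (e3 h2 j) = 0 := by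
  simp [dmM, e1, e3, bmJ]

theorem dm_21 (K : Matrix (Fin n) (Fin n) E) (i : Fin n) (j : Fin m) :
    dmM h1 h2 K (e2 h1 h2 i) (e1 h1 h2 j) = 0 := by
  simp [dmM, e1, e2, bmJ]

theorem dm_22 (K : Matrix (Fin n) (Fin n) E) (i j : Fin n) :
    dmM h1 h2 K (e2 h1 h2 i) (e2 h1 h2 j) = K i j := by
  simp [dmM, e2, bmJ]

theorem dm_23 (K : Matrix (Fin n) (Fin n) E) (i : Fin n) (j : Fin m) :
    dmM h1 h2 K (e2 h1 h2 i) (e3 h2 j) = 0 := by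
  simp [dmM, e2, e3, bmJ]

theorem dm_31 (K : Matrix (Fin n) (Fin n) E) (i j : Fin m) :
    dmM h1 h2 K (e3 h2 i) (e1 h1 h2 j) = 0 := by
  simp [dmM, e1, e3, bmJ]

theorem dm_32 (K : Matrix (Fin n) (Fin n) E) (i : Fin m) (j : Fin n) :
    dmM h1 h2 K (e3 h2 i) (e2 h1 h2 j) = 0 := by
  simp [dmM, e2, e3, bmJ]

theorem dm_33 (K : Matrix (Fin n) (Fin n) E) (i j : Fin m) :
    dmM h1 h2 K (e3 h2 i) (e3 h2 j) = (1 : Matrix _ _ E) i j := by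
  simp [dmM, e3, bmJ]

/-- `diag(1, K, 1) · hyp3 H₀ = hyp3 (K H₀)` -/
theorem dmM_mul_hyp3 (K : Matrix (Fin n) (Fin n) E) :
    dmM h1 h2 K * hyp3 h1 h2 H₀ = hyp3 h1 h2 (K * H₀) := by
  ext i j
  rw [Matrix.mul_apply, sum_e h1 h2]
  rcases e_cases h1 h2 i with ⟨i, rfl⟩ | ⟨i, rfl⟩ | ⟨i, rfl⟩ <;>
  rcases e_cases h1 h2 j with ⟨j, rfl⟩ | ⟨j, rfl⟩ | ⟨j, rfl⟩ <;>
  simp [hyp_11, hyp_12, hyp_13, hyp_21, hyp_22, hyp_23, hyp_31, hyp_32, hyp_33, dm_11, dm_12,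
    dm_13, dm_21, dm_22, dm_23, dm_31, dm_32, dm_33, Matrix.one_apply, Matrix.mul_apply]

/-- `hyp3 H₀ · diag(1, K, 1) = hyp3 (H₀ K)` -/
theorem hyp3_mul_dmM (K : Matrix (Fin n) (Fin n) E) :
    hyp3 h1 h2 H₀ * dmM h1 h2 K = hyp3 h1 h2 (H₀ * K) := by
  ext i j
  rw [Matrix.mul_apply, sum_e h1 h2]
  rcases e_cases h1 h2 i with ⟨i, rfl⟩ | ⟨i, rfl⟩ | ⟨i, rfl⟩ <;>
  rcases e_cases h1 h2 j with ⟨j, rfl⟩ | ⟨j, rfl⟩ | ⟨j, rfl⟩ <;>
  simp [hyp_11, hyp_12, hyp_13, hyp_21, hyp_22, hyp_23, hyp_31, hyp_32, hyp_33, dm_11, dm_12,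
    dm_13, dm_21, dm_22, dm_23, dm_31, dm_32, dm_33, Matrix.one_apply, Matrix.mul_apply]

theorem dmM_transpose (K : Matrix (Fin n) (Fin n) E) :
    (dmM h1 h2 K).transpose = dmM h1 h2 K.transpose := by
  ext i j
  rw [Matrix.transpose_apply]
  rcases e_cases h1 h2 i with ⟨i, rfl⟩ | ⟨i, rfl⟩ | ⟨i, rfl⟩ <;>
  rcases e_cases h1 h2 j with ⟨j, rfl⟩ | ⟨j, rfl⟩ | ⟨j, rfl⟩ <;>
  simp [dm_11, dm_12, dm_13, dm_21, dm_22, dm_23, dm_31, dm_32, dm_33, Matrix.one_apply, eq_comm]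

/-- the element `diag(1, a, 1)` -/
def dmid (a : GL (Fin n) E) : GL (Fin N) E := pelJ h2 (pelJ h1 1 a 0) 1 0

theorem dmid_val (a : GL (Fin n) E) :
    ((dmid h1 h2 a : GL (Fin N) E) : Matrix (Fin N) (Fin N) E) = dmM h1 h2 a := by
  unfold dmid dmM
  rw [pelJ_val, pelJ_val]
  rfl

theorem dmid_inv (a : GL (Fin n) E) : (dmid h1 h2 a)⁻¹ = dmid h1 h2 a⁻¹ := by
  unfold dmid
  rw [pelJ_inv, pelJ_inv]
  simp

theorem dmid_mem (h : m + b = N) (a : GL (Fin n) E) : dmid h1 h2 a ∈ PSJ h E := by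
  refine (exists_pelJ_iff h _).2 ?_
  rw [dmid_val]
  ext i j
  show dmM h1 h2 (a : Matrix (Fin n) (Fin n) E) (sJ h (Sum.inr i)) (sJ h (Sum.inl j)) = 0
  have ej : sJ h (Sum.inl j) = e1 h1 h2 j := by
    apply Fin.ext
    rw [sJ_inl, e1_val]
  rw [ej]
  rcases e_cases h1 h2 (sJ h (Sum.inr i)) with ⟨i', hi⟩ | ⟨i', hi⟩ | ⟨i', hi⟩
  · have h3 := congrArg Fin.val hi
    rw [sJ_inr, e1_val] at h3
    omega
  · rw [hi, dm_21]
  · rw [hi, dm_31]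

end hyp

section orb

variable {F E : Type} [Field F] [Field E] [Algebra F E] {σ : E ≃ₐ[F] E} {m n k N b : ℕ}
  (h1 : m + n = k) (h2 : k + m = N)

theorem dmM_map (K : Matrix (Fin n) (Fin n) E) :
    (dmM h1 h2 K).map σ = dmM h1 h2 (K.map σ) := by
  ext i j
  rw [Matrix.map_apply]
  rcases e_cases h1 h2 i with ⟨i, rfl⟩ | ⟨i, rfl⟩ | ⟨i, rfl⟩ <;>
  rcases e_cases h1 h2 j with ⟨j, rfl⟩ | ⟨j, rfl⟩ | ⟨j, rfl⟩ <;>
  simp [dm_11, dm_12, dm_13, dm_21, dm_22, dm_23, dm_31, dm_32, dm_33, Matrix.one_apply, apply_ite]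

/-- the Gram matrix of `diag(1, a, 1)` -/
theorem GM_dmid (a : GL (Fin n) E) (H₀ : Matrix (Fin n) (Fin n) E) :
    GM σ (hyp3 h1 h2 H₀) (dmid h1 h2 a) = hyp3 h1 h2 (GM σ H₀ a) := by
  unfold GM
  rw [dmid_inv, dmid_val, dmM_transpose, dmM_map, dmM_mul_hyp3, hyp3_mul_dmM]

end orb

section orb2

variable {F E : Type} [NontriviallyNormedField F] [IsUltrametricDist F] [ProperSpace F]
  [NontriviallyNormedField E] [NormedAlgebra F E] [IsUltrametricDist E] [ProperSpace E]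
  {σ : E ≃ₐ[F] E} {δ : E} {d : F} {m n k N b : ℕ}

/-- The isotropic subspaces of dimension `m` form one orbit. -/
theorem exists_orbit (hq : QuadDatum σ δ d) (h : m + b = N) (h1 : m + n = k) (h2 : k + m = N)
    {H₀ : Matrix (Fin n) (Fin n) E} (hH₀ : IsSkew σ H₀) (g : GL (Fin N) E)
    (hg : upLJ h (GM σ (hyp3 h1 h2 H₀) g) = 0) :
    ∃ (p : GL (Fin m) E) (q : GL (Fin b) E) (y : Matrix (Fin m) (Fin b) E)
      (u : unitary σ (hyp3 h1 h2 H₀)), g = pelJ h p q y * (u : GL (Fin N) E) := by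
  obtain ⟨p₁, hp₁, H₁, hH₁, e₁⟩ := exists_PSJ_hyp3 hq h h1 h2 (isSkew_hyp3 h1 h2 hH₀) g hg
  have hsk := isSkew_hyp3 h1 h2 hH₀ (σ := σ)
  -- the determinants
  let K : Matrix (Fin n) (Fin n) E := H₁ * H₀⁻¹
  have hK : K * H₀ = H₁ := by
    show H₁ * H₀⁻¹ * H₀ = H₁
    rw [Matrix.mul_assoc, Matrix.nonsing_inv_mul _ (isUnit_iff_ne_zero.2 hH₀.det_ne),
      Matrix.mul_one]
  have hdet1 : (hyp3 h1 h2 H₁).det = K.det * (hyp3 h1 h2 H₀).det := by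
    rw [← hK, ← dmM_mul_hyp3, Matrix.det_mul, det_dmM]
  have hdet2 := HermC.det_gram hq (hyp3 h1 h2 H₀)
    (((p₁ * g)⁻¹ : GL (Fin N) E) : Matrix (Fin N) (Fin N) E)
  have e₂ : (((p₁ * g)⁻¹ : GL (Fin N) E) : Matrix (Fin N) (Fin N) E)ᵀ * hyp3 h1 h2 H₀ *
      (((p₁ * g)⁻¹ : GL (Fin N) E) : Matrix (Fin N) (Fin N) E).map σ = hyp3 h1 h2 H₁ := e₁
  rw [e₂, hdet1] at hdet2
  have hKz := mul_right_cancel₀ hsk.det_ne hdet2
  have hz : (((p₁ * g)⁻¹ : GL (Fin N) E) : Matrix (Fin N) (Fin N) E).det ≠ 0 :=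
    ((Matrix.isUnit_iff_isUnit_det _).1 (Units.isUnit _)).ne_zero
  have hiso : Isom σ H₁ H₀ := by
    refine isom_of_det hq hH₁ hH₀ hz ?_
    rw [← hK, Matrix.det_mul, hKz]
  rw [HermC.isom_iff] at hiso
  obtain ⟨a, ha⟩ := hiso
  -- `GM H₁ a = H₀`
  have hGa : GM σ H₁ a = H₀ := by
    refine sk_ext σ fun x y => ?_
    rw [sk_GM, ha, ← HermC.sk_gram, Matrix.mulVec_mulVec, Matrix.mulVec_mulVec, ← Units.val_mul,
      mul_inv_cancel, Units.val_one, Matrix.one_mulVec, Matrix.one_mulVec]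
  have hfin : GM σ (hyp3 h1 h2 H₀) (dmid h1 h2 a * (p₁ * g)) = hyp3 h1 h2 H₀ := by
    rw [GM_mul, e₁, GM_dmid, hGa]
  have hu := mem_unitary_iff_GM.2 hfin
  have hp : (dmid h1 h2 a * p₁)⁻¹ ∈ PSJ h E :=
    (PSJ h E).inv_mem ((PSJ h E).mul_mem (dmid_mem h1 h2 h a) hp₁)
  obtain ⟨p, q, y, hpq⟩ := hp
  refine ⟨p, q, y, ⟨_, hu⟩, ?_⟩
  rw [← hpq]
  show g = (dmid h1 h2 a * p₁)⁻¹ * (dmid h1 h2 a * (p₁ * g))
  group

end orb2

/-! ### Transport of an invariant form -/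

section transp

variable {F E : Type} [NontriviallyNormedField F] [NontriviallyNormedField E] [NormedAlgebra F E]
  {σ : E ≃ₐ[F] E} {N a b : ℕ} {W S : Type} [AddCommGroup W] [Module ℂ W] [AddCommGroup S]
  [Module ℂ S] (h : a + b = N) {H : Matrix (Fin N) (Fin N) E}
  {τ : (GL (Fin a) E × GL (Fin b) E) →* Module.End ℂ W} {ω : unitary σ H →* Module.End ℂ S}
  {β : IndJ h τ →ₗ[ℂ] S →ₗ[ℂ] ℂ}

/-- the representation of `U(GM g₀)` -/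
def omG (g₀ : GL (Fin N) E) (ω : unitary σ H →* Module.End ℂ S) :
    unitary σ (GM σ H g₀) →* Module.End ℂ S :=
  ω.comp (Mo.congU (σ := σ) g₀⁻¹ H).toMonoidHom

theorem omG_apply (g₀ : GL (Fin N) E) (ω : unitary σ H →* Module.End ℂ S)
    (u' : unitary σ (GM σ H g₀)) (u : unitary σ H)
    (e : (u : GL (Fin N) E) = g₀⁻¹ * (u' : GL (Fin N) E) * g₀) : omG g₀ ω u' = ω u := by
  show ω (Mo.congU (σ := σ) g₀⁻¹ H u') = ω u
  congr 1
  apply Subtype.ext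
  rw [e]
  show g₀⁻¹ * (u' : GL (Fin N) E) * g₀⁻¹⁻¹ = _
  rw [inv_inv]

/-- the form `(f, s) ↦ β(g₀⁻¹ f, s)` -/
def trF (g₀ : GL (Fin N) E) (β : IndJ h τ →ₗ[ℂ] S →ₗ[ℂ] ℂ) : IndJ h τ →ₗ[ℂ] S →ₗ[ℂ] ℂ :=
  β.comp (indActJ h τ g₀⁻¹)

theorem trF_apply (g₀ : GL (Fin N) E) (β : IndJ h τ →ₗ[ℂ] S →ₗ[ℂ] ℂ) (f : IndJ h τ) (s : S) :
    trF h g₀ β f s = β (indActJ h τ g₀⁻¹ f) s := rfl

theorem trF_inv (g₀ : GL (Fin N) E) (hβ : InvForm σ H (indActJ h τ) ω β) :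
    InvForm σ (GM σ H g₀) (indActJ h τ) (omG g₀ ω) (trF h g₀ β) := by
  intro u' f s
  have hu : g₀⁻¹ * (u' : GL (Fin N) E) * g₀ ∈ unitary σ H := by
    rw [← conj_mem_unitary g₀]
    have e : g₀ * (g₀⁻¹ * (u' : GL (Fin N) E) * g₀) * g₀⁻¹ = u' := by group
    rw [e]
    exact u'.2
  have e2 : indActJ h τ (g₀⁻¹ * (u' : GL (Fin N) E) * g₀) (indActJ h τ g₀⁻¹ f) =
      indActJ h τ g₀⁻¹ (indActJ h τ (u' : GL (Fin N) E) f) := by
    rw [← Module.End.mul_apply, ← map_mul, mul_inv_cancel_right, map_mul, Module.End.mul_apply]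
  rw [omG_apply g₀ ω u' ⟨_, hu⟩ rfl, trF_apply, trF_apply, ← e2]
  exact hβ ⟨_, hu⟩ _ s

theorem eq_zero_of_trF (g₀ : GL (Fin N) E) (h0 : trF h g₀ β = 0) : β = 0 := by
  apply LinearMap.ext
  intro f
  apply LinearMap.ext
  intro s
  have h1 : β (indActJ h τ g₀⁻¹ (indActJ h τ g₀ f)) s = 0 := by
    rw [← trF_apply, h0]
    rfl
  rwa [← Module.End.mul_apply, ← map_mul, inv_mul_cancel, map_one] at h1

end transp

end SpW
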