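import Pool.Agent.Work.MP_3615d2_al.P1.CloJ
import Pool.Agent.Work.MP_3615d2_al.P1.CloUni
import Pool.Agent.Work.MP_3615d2_al.P1.Normal
import Pool.Agent.Work.MP_3615d2_al.P1.MackA
import Pool.Agent.Work.MP_3615d2_al.WeMain

/-!
MP_3615d2_al, Part 1: the closed stratum of the Mackey filtration.
-/

open Filter Topology MeasureTheory Matrix
open scoped NNReal

set_option linter.unusedSectionVars false

namespace SpW.P1

theorem aeval_eigC {W M : Type} [AddCommGroup W] [Module ℂ W] [AddCommGroup M] [Module ℂ M]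
    {Z : Module.End ℂ W} {l : W →ₗ[ℂ] M} {c : ℂ} (hZ : ∀ w, l (Z w) = c • l w)
    (P : Polynomial ℂ) : ∀ w, l ((Polynomial.aeval Z P) w) = P.eval c • l w := by
  induction P using Polynomial.induction_on' with
  | add p q hp hq =>
    intro w
    rw [map_add, LinearMap.add_apply, map_add, hp, hq, Polynomial.eval_add, add_smul]
  | monomial i a =>
    have h1 : ∀ i w, l ((Z ^ i) w) = c ^ i • l w := by
      intro i
      induction i with
      | zero =>
        intro w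
        rw [pow_zero, pow_zero, one_smul, Module.End.one_apply]
      | succ i ih =>
        intro w
        rw [pow_succ, Module.End.mul_apply, ih, hZ, smul_smul, pow_succ]
    intro w
    rw [Polynomial.aeval_monomial, Polynomial.eval_monomial, Module.End.mul_apply,
      Module.algebraMap_end_apply, map_smul, h1, smul_smul]

section

variable {F E : Type} [NontriviallyNormedField F] [IsUltrametricDist F] [ProperSpace F]
  [NontriviallyNormedField E] [NormedAlgebra F E] [IsUltrametricDist E] [ProperSpace E]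
  [MeasurableSpace E] [BorelSpace E]
  {σ : E ≃ₐ[F] E} {δ : E} {d : F} {m n k N b : ℕ} (h1 : m + n = k) (h2 : k + m = N)
  (h : m + b = N) (hb : n + m = b) {H₀ : Matrix (Fin n) (Fin n) E}
  {ψ : AddChar F Circle} {μ : Eˣ →* ℂˣ} {W S : Type} [AddCommGroup W] [Module ℂ W]
  [AddCommGroup S] [Module ℂ S]

/-- the eigenvalue of the closed stratum -/
noncomputable def bz (μ : Eˣ →* ℂˣ) (m N : ℕ) (z : Eˣ) : ℂ :=
  ((ad (Matrix.GeneralLinearGroup.scalar (Fin m) z) ^ (N - m) : ℝ) : ℂ) *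
    (chiA μ (Matrix.GeneralLinearGroup.scalar (Fin m) z))⁻¹

/-- **The closed stratum.** -/
theorem clo_stratum_of (hq : QuadDatum σ δ d) (hψ : Continuous ψ) (hψ1 : ψ ≠ 1)
    (hμ : ConjSymplectic F μ) (hs : IsSkew σ H₀)
    {ρ : (Fin N → E) → Module.End ℂ S} {ω : unitary σ (hyp3 h1 h2 H₀) →* Module.End ℂ S}
    (hW : IsWeil σ (hyp3 h1 h2 H₀) ψ μ ρ ω)
    {τ : (GL (Fin m) E × GL (Fin b) E) →* Module.End ℂ W} (hτ : IsSmoothRep τ)
    -- inputs
    (hcpt : ∃ C : Set (unitary σ (hyp3 h1 h2 H₀)), IsCompact C ∧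
      ∀ u : unitary σ (hyp3 h1 h2 H₀), ∃ p : unitary σ (hyp3 h1 h2 H₀),
        (p : GL (Fin N) E) ∈ PSJ h E ∧ ∃ c ∈ C, u = p * c)
    (hnil : ∀ x ∈ Nk b n E, ∃ (g : unitary σ (hyp3 h1 h2 H₀)) (y : Matrix (Fin m) (Fin b) E),
      (g : GL (Fin N) E) = pelJ h 1 x y ∧
      (∀ r, (umat g).mulVec (iot (eps3 h1 h2) r 0 0) = iot (eps3 h1 h2) r 0 0) ∧
      (∀ v, ∃ r, (umat g).mulVec (iot (eps3 h1 h2) 0 v 0) = iot (eps3 h1 h2) r v 0))
    (z : Eˣ)
    (hzeta : ∃ g : unitary σ (hyp3 h1 h2 H₀),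
      (g : GL (Fin N) E) = pelJ h (Matrix.GeneralLinearGroup.scalar (Fin m) z)
        (pelJ hb 1 (Matrix.GeneralLinearGroup.scalar (Fin m) (Units.map (σ : E →* E) z)⁻¹) 0) 0 ∧
      (∀ r, (umat g).mulVec (iot (eps3 h1 h2) r 0 0) = iot (eps3 h1 h2) ((z : E) • r) 0 0) ∧
      (∀ v, (umat g).mulVec (iot (eps3 h1 h2) 0 v 0) = iot (eps3 h1 h2) 0 v 0))
    -- the spectral hypothesis
    (P : Polynomial ℂ)
    (hP : ∀ w, (Polynomial.aeval (τ (Matrix.GeneralLinearGroup.scalar (Fin m) z,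
      pelJ hb 1 (Matrix.GeneralLinearGroup.scalar (Fin m) (Units.map (σ : E →* E) z)⁻¹) 0)) P) w ∈
        cvN τ ((⊥ : Subgroup (GL (Fin m) E)).prod (Nk b n E)) ⊤)
    (hP0 : P.eval (bz μ m N z) ≠ 0)
    (β : IndJ h τ →ₗ[ℂ] S →ₗ[ℂ] ℂ) (hβ : InvForm σ (hyp3 h1 h2 H₀) (indActJ h τ) ω β)
    (hk : ∀ (f : IndJ h τ) s, (∀ p q y (u : unitary σ (hyp3 h1 h2 H₀)),
      (f : GL (Fin N) E → W) (pelJ h p q y * (u : GL (Fin N) E)) = 0) → β f s = 0) : β = 0 := by
  have hH := isSkew_hyp3 h1 h2 hs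
  obtain ⟨C, hC, hUC⟩ := hcpt
  obtain ⟨l, hl, hl0⟩ := exists_cloJ h hq hH (upL_hyp3 h1 h2 H₀ h) hτ hW.om_smooth hC hUC β hβ hk
  obtain ⟨S0, i1, i2, ρ0, ω0, hW0⟩ := weil_exists (H := H₀) hq hs hψ hψ1 hμ
  have hS := isSplit_hyp3 h1 h2 hq H₀
  obtain ⟨e, he⟩ := exists_ev hq hψ hψ1 hH hS hW hW0
  apply hl0
  -- the kernel of `e`
  have hker : ∀ w s, e s = 0 → l w s = 0 := by
    intro w s hs0
    refine he.uni hq hψ hψ1 hμ hH hS hW hW0 (l w) (fun g hg s' => ?_) hs0
    obtain ⟨y, hy⟩ := clo_uni h1 h2 h hq hs g hg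
    have h3 := hl g 1 1 y hy w s'
    rw [ad_one, one_pow, Complex.ofReal_one, one_mul] at h3
    have h4 : τ ((1 : GL (Fin m) E), (1 : GL (Fin b) E)) w = w := by
      have h5 : ((1 : GL (Fin m) E), (1 : GL (Fin b) E)) = 1 := rfl
      rw [h5, map_one, Module.End.one_apply]
    rwa [h4] at h3
  -- the unipotent radical
  have hN : ∀ x ∈ Nk b n E, ∀ w, l (τ (1, x) w) = l w := by
    intro x hx w
    obtain ⟨g, y, hg, hg1, hg2⟩ := hnil x hx
    have hp : IsPar (eps3 h1 h2) g (1 : GL (Fin m) E) (1 : unitary σ H₀) :=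
      ⟨fun r => by rw [hg1, Units.val_one, Matrix.one_mulVec], fun v => by
        obtain ⟨r, hr⟩ := hg2 v
        refine ⟨r, ?_⟩
        rw [hr]
        congr 1
        exact (Matrix.one_mulVec v).symm⟩
    apply LinearMap.ext
    intro s
    have h3 := he.par hq hψ hψ1 hμ hH hS hW hW0 hp s
    rw [chiA_one, one_smul, map_one, Module.End.one_apply] at h3
    have h4 : l (τ (1, x) w) (ω g s - s) = 0 := hker _ _ (by rw [map_sub, h3, sub_self])
    rw [map_sub, sub_eq_zero] at h4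
    rw [← h4, hl g 1 x y hg w s, ad_one, one_pow, Complex.ofReal_one, one_mul]
  have hcv : ∀ v ∈ cvN τ ((⊥ : Subgroup (GL (Fin m) E)).prod (Nk b n E)) ⊤, l v = 0 := by
    intro v hv
    unfold cvN at hv
    induction hv using Submodule.span_induction with
    | mem v hv =>
      obtain ⟨⟨p, x⟩, hx, w, -, rfl⟩ := hv
      obtain ⟨hp, hx'⟩ := Subgroup.mem_prod.1 hx
      have hp1 : p = 1 := Subgroup.mem_bot.1 hp
      subst hp1
      rw [map_sub, hN x hx' w, sub_self]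
    | zero => exact map_zero l
    | add v w _ _ hv hw => rw [map_add, hv, hw, add_zero]
    | smul c v _ hv => rw [map_smul, hv, smul_zero]
  -- the element `ζ`
  obtain ⟨g, hg, hg1, hg2⟩ := hzeta
  set Z := τ (Matrix.GeneralLinearGroup.scalar (Fin m) z,
      pelJ hb 1 (Matrix.GeneralLinearGroup.scalar (Fin m) (Units.map (σ : E →* E) z)⁻¹) 0) with hZ
  have hZl : ∀ w, l (Z w) = bz μ m N z • l w := by
    intro w
    have hp : IsPar (eps3 h1 h2) g (Matrix.GeneralLinearGroup.scalar (Fin m) z)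
        (1 : unitary σ H₀) :=
      ⟨fun r => by
        rw [hg1]
        congr 1
        rw [Matrix.GeneralLinearGroup.coe_scalar, Matrix.scalar_apply, ← Matrix.smul_one_eq_diagonal,
          Matrix.smul_mulVec, Matrix.one_mulVec], fun v => by
        refine ⟨0, ?_⟩
        rw [hg2]
        congr 1
        exact (Matrix.one_mulVec v).symm⟩
    apply LinearMap.ext
    intro s
    have h3 := he.par hq hψ hψ1 hμ hH hS hW hW0 hp s
    rw [map_one, Module.End.one_apply] at h3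
    have h4 : l (Z w) (ω g s - chiA μ (Matrix.GeneralLinearGroup.scalar (Fin m) z) • s) = 0 :=
      hker _ _ (by rw [map_sub, h3, map_smul, sub_self])
    rw [map_sub, map_smul, sub_eq_zero, smul_eq_mul] at h4
    have h5 := hl g _ _ _ hg w s
    rw [← hZ] at h5
    rw [h4] at h5
    have h6 := chiA_ne μ (Matrix.GeneralLinearGroup.scalar (Fin m) z)
    rw [LinearMap.smul_apply, smul_eq_mul]
    unfold bz
    rw [mul_right_comm, ← h5, mul_comm, ← mul_assoc, inv_mul_cancel₀ h6, one_mul]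
  have hpol := aeval_eigC hZl P
  apply LinearMap.ext
  intro w
  have h3 := hpol w
  rw [hcv _ (hP w)] at h3
  rw [LinearMap.zero_apply]
  exact (smul_eq_zero.1 h3.symm).resolve_left hP0

end

end SpW.P1
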