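import Pool.Agent.Work.MP_3615d2_al.P1.Svn
import Pool.Agent.Work.MP_3615d2_al.P1.WeilInt
import Pool.Agent.Work.MP_3615d2_al.A9C
import Pool.Agent.Work.MP_3615d2_al.WeExt

/-!
MP_3615d2_al, Part 1, W3: the Weil representation is unique up to isomorphism (for `ρ` and `ω`
together), in the general form for an isometry `e : (E^n, H') ≃ (E^N, H)`.
-/

open MeasureTheory Metric Set
open scoped NNReal

namespace SpW.P1

open Pool.Agent.SpehH

/-! ### The isomorphism of the unitary groups attached to an isometry -/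

section alg

variable {F E : Type} [Field F] [Field E] [Algebra F E] {σ : E ≃ₐ[F] E} {δ : E} {d : F}
  {n N : ℕ} {H' : Matrix (Fin n) (Fin n) E} {H : Matrix (Fin N) (Fin N) E}

/-- The matrix of `e g e⁻¹`. -/
noncomputable def conjM (e : (Fin n → E) ≃ₗ[E] (Fin N → E)) (g : Matrix (Fin n) (Fin n) E) :
    Matrix (Fin N) (Fin N) E :=
  LinearMap.toMatrix' ((e : (Fin n → E) →ₗ[E] (Fin N → E)) ∘ₗ Matrix.toLin' g ∘ₗ
    (e.symm : (Fin N → E) →ₗ[E] (Fin n → E)))

theorem conjM_mulVec (e : (Fin n → E) ≃ₗ[E] (Fin N → E)) (g : Matrix (Fin n) (Fin n) E)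
    (x : Fin n → E) : (conjM e g).mulVec (e x) = e (g.mulVec x) := by
  rw [conjM, LinearMap.toMatrix'_mulVec]
  simp

theorem conjM_mulVec' (e : (Fin n → E) ≃ₗ[E] (Fin N → E)) (g : Matrix (Fin n) (Fin n) E)
    (y : Fin N → E) : (conjM e g).mulVec y = e (g.mulVec (e.symm y)) := by
  conv_lhs => rw [← e.apply_symm_apply y]
  exact conjM_mulVec e g _

theorem mulVec_ext {k : ℕ} {A B : Matrix (Fin k) (Fin k) E}
    (h : ∀ x, A.mulVec x = B.mulVec x) : A = B := by
  apply Matrix.toLin'.injective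
  exact LinearMap.ext h

theorem conjM_mul (e : (Fin n → E) ≃ₗ[E] (Fin N → E)) (g g' : Matrix (Fin n) (Fin n) E) :
    conjM e (g * g') = conjM e g * conjM e g' := by
  apply mulVec_ext
  intro x
  rw [← Matrix.mulVec_mulVec, conjM_mulVec', conjM_mulVec' e g', conjM_mulVec,
    Matrix.mulVec_mulVec]

theorem conjM_one (e : (Fin n → E) ≃ₗ[E] (Fin N → E)) : conjM e 1 = 1 := by
  apply mulVec_ext
  intro x
  rw [conjM_mulVec', Matrix.one_mulVec, Matrix.one_mulVec, e.apply_symm_apply]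

theorem conjM_sub_one (e : (Fin n → E) ≃ₗ[E] (Fin N → E)) (g : Matrix (Fin n) (Fin n) E) :
    conjM e (g - 1) = conjM e g - 1 := by
  apply mulVec_ext
  intro x
  rw [conjM_mulVec', Matrix.sub_mulVec, Matrix.sub_mulVec, map_sub, conjM_mulVec',
    Matrix.one_mulVec, Matrix.one_mulVec, e.apply_symm_apply]

theorem det_conjM (e : (Fin n → E) ≃ₗ[E] (Fin N → E)) (g : Matrix (Fin n) (Fin n) E) :
    (conjM e g).det = g.det := by
  rw [conjM, LinearMap.det_toMatrix', LinearMap.det_conj, LinearMap.det_toLin']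

/-- `g ↦ e g e⁻¹` as a homomorphism `U(H') → U(H)`. -/
noncomputable def conjU (e : (Fin n → E) ≃ₗ[E] (Fin N → E))
    (he : ∀ x y, sk σ H (e x) (e y) = sk σ H' x y) : unitary σ H' →* unitary σ H where
  toFun g := ⟨⟨conjM e (umat g), conjM e (umat g⁻¹), by
      rw [← conjM_mul, ← umat_mul, mul_inv_cancel, umat_one, conjM_one], by
      rw [← conjM_mul, ← umat_mul, inv_mul_cancel, umat_one, conjM_one]⟩, by
    intro x y
    show sk σ H ((conjM e (umat g)).mulVec x) ((conjM e (umat g)).mulVec y) = sk σ H x y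
    rw [conjM_mulVec', conjM_mulVec', he, sk_unitary, ← he, e.apply_symm_apply,
      e.apply_symm_apply]⟩
  map_one' := by
    apply Subtype.ext
    apply Units.ext
    exact conjM_one e
  map_mul' g g' := by
    apply Subtype.ext
    apply Units.ext
    exact conjM_mul e (umat g) (umat g')

theorem umat_conjU (e : (Fin n → E) ≃ₗ[E] (Fin N → E))
    (he : ∀ x y, sk σ H (e x) (e y) = sk σ H' x y) (g : unitary σ H') :
    umat (conjU e he g) = conjM e (umat g) := rfl

theorem conjU_mulVec (e : (Fin n → E) ≃ₗ[E] (Fin N → E))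
    (he : ∀ x y, sk σ H (e x) (e y) = sk σ H' x y) (g : unitary σ H') (x : Fin n → E) :
    (umat (conjU e he g)).mulVec (e x) = e ((umat g).mulVec x) := conjM_mulVec e _ x

theorem conjU_unique (e : (Fin n → E) ≃ₗ[E] (Fin N → E))
    (he : ∀ x y, sk σ H (e x) (e y) = sk σ H' x y) {u : unitary σ H} {u' : unitary σ H'}
    (h : ∀ x, (umat u).mulVec (e x) = e ((umat u').mulVec x)) : u = conjU e he u' := by
  apply Subtype.ext
  apply Units.ext
  show umat u = conjM e (umat u')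
  apply mulVec_ext
  intro y
  rw [conjM_mulVec', ← h, e.apply_symm_apply]

theorem sympl_iso (e : (Fin n → E) ≃ₗ[E] (Fin N → E))
    (he : ∀ x y, sk σ H (e x) (e y) = sk σ H' x y) (x y : Fin n → E) :
    sympl F σ H (e x) (e y) = sympl F σ H' x y := by
  rw [sympl_eq, sympl_eq, he]

theorem iso_fsmul (e : (Fin n → E) ≃ₗ[E] (Fin N → E)) (c : F) (x : Fin n → E) :
    e (c • x) = c • e x := by
  rw [sk_algebraMap_smul c x, map_smul, sk_algebraMap_smul c (e x)]

end alg

section top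

variable {F E : Type} [NontriviallyNormedField F] [NontriviallyNormedField E] [NormedAlgebra F E]
  [ProperSpace E] {σ : E ≃ₐ[F] E} {δ : E} {d : F}
  {n N : ℕ} {H' : Matrix (Fin n) (Fin n) E} {H : Matrix (Fin N) (Fin N) E}

theorem iso_continuous (e : (Fin n → E) ≃ₗ[E] (Fin N → E)) : Continuous e :=
  (e : (Fin n → E) →ₗ[E] (Fin N → E)).continuous_of_finiteDimensional

end top

section meas

variable {F E : Type} [NontriviallyNormedField F] [NontriviallyNormedField E] [NormedAlgebra F E]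
  [ProperSpace E] [MeasurableSpace E] [BorelSpace E]
  {n N : ℕ}

/-- Change of variables for the two Haar measures. -/
theorem exists_haar_const (e : (Fin n → E) ≃ₗ[E] (Fin N → E)) :
    ∃ C : ℝ, ∀ f : (Fin N → E) → ℂ, ∫ w, f (e w) ∂(Measure.addHaar : Measure (Fin n → E)) =
      (C : ℂ) * ∫ w, f w ∂(Measure.addHaar : Measure (Fin N → E)) := by
  have : SecondCountableTopology E := inferInstance
  let L : (Fin n → E) ≃L[E] (Fin N → E) := e.toContinuousLinearEquiv
  have hL : ∀ x, L x = e x := fun x => rfl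
  have hm : (Measure.map L (Measure.addHaar : Measure (Fin n → E))).IsAddHaarMeasure :=
    L.isAddHaarMeasure_map _
  have hc := Measure.isAddLeftInvariant_eq_smul
    (Measure.map L (Measure.addHaar : Measure (Fin n → E)))
    (Measure.addHaar : Measure (Fin N → E))
  set c := Measure.addHaarScalarFactor (Measure.map L (Measure.addHaar : Measure (Fin n → E)))
    (Measure.addHaar : Measure (Fin N → E)) with hcdef
  refine ⟨(c : ℝ), fun f => ?_⟩
  have h1 : ∫ w, f (e w) ∂(Measure.addHaar : Measure (Fin n → E)) =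
      ∫ w, f w ∂(Measure.map L (Measure.addHaar : Measure (Fin n → E))) :=
    ((L.toHomeomorph.measurableEmbedding).integral_map (μ := Measure.addHaar) f).symm
  rw [h1, hc, integral_smul_nnreal_measure, NNReal.smul_def, Complex.real_smul]

end meas

/-! ### The isomorphism -/

section main

variable {F E : Type} [NontriviallyNormedField F] [IsUltrametricDist F] [ProperSpace F]
  [NontriviallyNormedField E] [NormedAlgebra F E] [IsUltrametricDist E]
  [ProperSpace E] [MeasurableSpace E] [BorelSpace E]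
  {σ : E ≃ₐ[F] E} {δ : E} {d : F} {n N : ℕ}
  {H' : Matrix (Fin n) (Fin n) E} {H : Matrix (Fin N) (Fin N) E}
  {ψ : AddChar F Circle} {μ : Eˣ →* ℂˣ}
  {S' : Type} [AddCommGroup S'] [Module ℂ S']
  {ρ' : (Fin n → E) → Module.End ℂ S'} {ω' : unitary σ H' →* Module.End ℂ S'}
  {S : Type} [AddCommGroup S] [Module ℂ S]
  {ρ : (Fin N → E) → Module.End ℂ S} {ω : unitary σ H →* Module.End ℂ S}

/-- `w ↦ ρ (e w)` is a Heisenberg representation. -/
theorem isHeis_comp (hW : IsWeil σ H ψ μ ρ ω) (e : (Fin n → E) ≃ₗ[E] (Fin N → E))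
    (he : ∀ x y, sk σ H (e x) (e y) = sk σ H' x y) :
    IsHeis ψ (symplB F σ H') (fun w => ρ (e w)) where
  zero := by rw [map_zero, hW.rho_zero]
  mul w w' := by
    rw [hW.rho_mul, symplB_apply, sympl_iso e he, div_eq_inv_mul, map_add]
  smooth v w := by
    obtain ⟨ε, hε, h1⟩ := hW.isHeis.smooth v (e w)
    refine ⟨ε, hε, fun a ha => ?_⟩
    rw [iso_fsmul]
    exact h1 a ha

theorem isIrr_comp (hW : IsWeil σ H ψ μ ρ ω) (e : (Fin n → E) ≃ₗ[E] (Fin N → E)) :
    IsIrr (fun w => ρ (e w)) := by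
  refine ⟨hW.nontrivial, fun T hT => hW.rho_irr T fun w v hv => ?_⟩
  have := hT (e.symm w) v hv
  simpa only [e.apply_symm_apply] using this

/-- The isomorphism of the Heisenberg representations. -/
theorem exists_rho_iso (hW' : IsWeil σ H' ψ μ ρ' ω') (hW : IsWeil σ H ψ μ ρ ω)
    (hq : QuadDatum σ δ d) (hH' : IsSkew σ H') (hψ : Continuous ψ) (hψ1 : ψ ≠ 1)
    (e : (Fin n → E) ≃ₗ[E] (Fin N → E)) (he : ∀ x y, sk σ H (e x) (e y) = sk σ H' x y) :
    ∃ T : S' ≃ₗ[ℂ] S, ∀ w v, T (ρ' w v) = ρ (e w) (T v) := by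
  have hfin := hq.finite
  exact stone_von_neumann hψ hψ1 (symplB_alt hq hH') (symplB_nondeg hq hH') hq.two hW'.isHeis
    hW'.isIrr (isHeis_comp hW e he) (isIrr_comp hW e)

theorem isSkew_iso (hH' : IsSkew σ H') (hq : QuadDatum σ δ d)
    (e : (Fin n → E) ≃ₗ[E] (Fin N → E)) (he : ∀ x y, sk σ H (e x) (e y) = sk σ H' x y) :
    IsSkew σ H := by
  have hs : ∀ x y, sk σ H y x = - σ (sk σ H x y) := by
    intro x y
    have := sk_swap hq hH' (e.symm x) (e.symm y)
    rwa [← he, ← he, e.apply_symm_apply, e.apply_symm_apply] at this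
  have hsing : ∀ i j, sk σ H (Pi.single i 1) (Pi.single j 1) = H i j := by
    intro i j
    rw [sk_eq_dot]
    have h3 : (fun k => σ ((Pi.single j (1 : E) : Fin N → E) k)) = Pi.single j 1 := by
      funext k
      by_cases hk : k = j
      · subst hk; simp
      · simp [Pi.single_eq_of_ne hk]
    rw [h3, dotProduct_single, mul_one, Matrix.single_one_vecMul]
    rfl
  refine ⟨fun i j => ?_, fun h0 => ?_⟩
  · rw [← hsing, ← hsing i j]
    exact hs _ _
  · obtain ⟨v, hv, hv0⟩ := Matrix.exists_vecMul_eq_zero_iff.2 h0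
    apply hv
    have h1 : ∀ y, sk σ H v y = 0 := by
      intro y
      rw [sk_eq_dot, hv0, zero_dotProduct]
    have h2 : e.symm v = 0 := sk_nondeg hH' fun y => by
      rw [← he, e.apply_symm_apply, h1]
    have h3 := congrArg e h2
    rwa [e.apply_symm_apply, map_zero] at h3

theorem cayley_conjM (hq : QuadDatum σ δ d) (e : (Fin n → E) ≃ₗ[E] (Fin N → E))
    {g : Matrix (Fin n) (Fin n) E} (hu : IsUnit (g - 1)) (w : Fin n → E) :
    (cayley (conjM e g)).mulVec (e w) = e ((cayley g).mulVec w) := by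
  have hd : IsUnit (g - 1).det := (Matrix.isUnit_iff_isUnit_det _).1 hu
  have hd2 : IsUnit (conjM e g - 1).det := by rwa [← conjM_sub_one, det_conjM]
  have h1 : (conjM e g - 1)⁻¹.mulVec (e w) = e ((g - 1)⁻¹.mulVec w) := by
    have h2 : (conjM e g - 1).mulVec (e ((g - 1)⁻¹.mulVec w)) = e w := by
      rw [← conjM_sub_one, conjM_mulVec, Matrix.mulVec_mulVec, Matrix.mul_nonsing_inv _ hd,
        Matrix.one_mulVec]
    rw [← h2, Matrix.mulVec_mulVec, Matrix.nonsing_inv_mul _ hd2, Matrix.one_mulVec]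
  rw [cayley, cayley, ← Matrix.mulVec_mulVec, h1, ← Matrix.mulVec_mulVec, Matrix.add_mulVec,
    Matrix.add_mulVec, conjM_mulVec, map_add, Matrix.one_mulVec, Matrix.one_mulVec]

/-- **Uniqueness of the Weil representation, general form**: an isomorphism of the Heisenberg
representations intertwines the actions of the unitary groups. -/
theorem om_of_rho_iso (hW' : IsWeil σ H' ψ μ ρ' ω') (hW : IsWeil σ H ψ μ ρ ω)
    (hq : QuadDatum σ δ d) (hH' : IsSkew σ H') (hH : IsSkew σ H) (hψ : Continuous ψ)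
    (hψ1 : ψ ≠ 1) (e : (Fin n → E) ≃ₗ[E] (Fin N → E))
    (he : ∀ x y, sk σ H (e x) (e y) = sk σ H' x y) (T : S' ≃ₗ[ℂ] S)
    (hT : ∀ w v, T (ρ' w v) = ρ (e w) (T v)) (u : unitary σ H) (u' : unitary σ H')
    (h : ∀ x, (umat u).mulVec (e x) = e ((umat u').mulVec x)) (v : S') :
    T (ω' u' v) = ω u (T v) := by
  have hfin := hq.finite
  have hS := hW.nontrivial
  -- the constant for each element
  have hA : ∀ g : unitary σ H', ∃ z : ℂ, z ≠ 0 ∧ ∀ x, T (ω' g x) = z • ω (conjU e he g) (T x) := by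
    intro g
    obtain ⟨z, hz0, hz⟩ := lift_unique hψ hψ1 (symplB_alt hq hH) (symplB_nondeg hq hH) hq.two
      hW.isHeis hW.isIrr (g := fun w => (umat (conjU e he g)).mulVec w)
      (T := omE ω (conjU e he g)) (T' := (T.symm.trans (omE ω' g)).trans T)
      (fun w v => (hW.isLift (conjU e he g)).lift w v) (fun w v => by
        have h1 : T.symm (ρ w v) = ρ' (e.symm w) (T.symm v) := by
          rw [LinearEquiv.symm_apply_eq, hT, e.apply_symm_apply, T.apply_symm_apply]
        have h2 : ∀ x y, ω' g (ρ' x y) = ρ' ((umat g).mulVec x) (ω' g y) := fun x y =>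
          LinearMap.congr_fun (hW'.om_rho g x) y
        show T (ω' g (T.symm (ρ w v))) = ρ ((umat (conjU e he g)).mulVec w) (T (ω' g (T.symm v)))
        rw [h1, h2, hT, umat_conjU, conjM_mulVec'])
    refine ⟨z, hz0, fun x => ?_⟩
    have h3 := hz (T x)
    have h4 : ((T.symm.trans (omE ω' g)).trans T) (T x) = T (ω' g x) := by
      show T (ω' g (T.symm (T x))) = T (ω' g x)
      rw [T.symm_apply_apply]
    rw [h4] at h3
    exact h3
  choose χ hχ0 hχ using hA
  have hinj : ∀ (g : unitary σ H) {a b : ℂ}, (∀ x, a • ω g x = b • ω g x) → a = b := by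
    intro g a b hab
    obtain ⟨y, hy⟩ := exists_ne (0 : S)
    have h1 := hab ((omE ω g).symm y)
    have h2 : ω g ((omE ω g).symm y) = y := (omE ω g).apply_symm_apply y
    rw [h2, ← sub_eq_zero, ← sub_smul] at h1
    exact sub_eq_zero.1 ((smul_eq_zero.1 h1).resolve_right hy)
  have hmul : ∀ g g', χ (g * g') = χ g * χ g' := by
    intro g g'
    apply hinj (conjU e he (g * g'))
    intro x
    have h1 := hχ (g * g') (T.symm x)
    rw [T.apply_symm_apply] at h1
    rw [← h1, map_mul, Module.End.mul_apply, hχ, hχ, map_smul, smul_smul, map_mul, map_mul,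
      Module.End.mul_apply, T.apply_symm_apply]
  -- the constant on the regular set
  obtain ⟨κ, hκ⟩ := hW.normalised
  have hκ0 : κ ≠ 0 := kappa_ne hq hW κ hκ
  obtain ⟨κ', hκ'⟩ := weil_int hW' hq hH' hψ1
  obtain ⟨C, hC⟩ := exists_haar_const (E := E) e
  obtain ⟨⟨ξ, hξ⟩, hξ0⟩ := @exists_ne _ (hDual_nontrivial hW hq hH hψ hψ1) 0
  have hξ1 : ξ ≠ 0 := fun h0 => hξ0 (Subtype.ext h0)
  obtain ⟨y, hy⟩ : ∃ y, ξ y ≠ 0 := by
    by_contra h0
    push Not at h0
    exact hξ1 (LinearMap.ext h0)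
  have hξT : ξ ∘ₗ (T : S' →ₗ[ℂ] S) ∈ hDual ρ' := by
    have h1 : ∀ᶠ x in nhds (0 : Fin N → E), ∀ v, ξ (ρ x v) = ξ v := hξ
    have h2 : Filter.Tendsto (fun x : Fin n → E => e x) (nhds 0) (nhds 0) := by
      have := (iso_continuous (E := E) e).tendsto 0
      rwa [map_zero] at this
    show ∀ᶠ x in nhds (0 : Fin n → E), ∀ v, ξ (T (ρ' x v)) = ξ (T v)
    filter_upwards [h2.eventually h1] with x hx v
    rw [hT, hx]
  have hreg : ∀ g : unitary σ H', g ∈ regU σ H' → χ g = κ' * (C : ℂ) / κ := by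
    intro g hg
    have hg' : (umat g - 1).det ≠ 0 := hg
    have hdet : (umat (conjU e he g) - 1).det = (umat g - 1).det := by
      rw [umat_conjU, ← conjM_sub_one, det_conjM]
    have hu : IsUnit (umat g - 1) :=
      (Matrix.isUnit_iff_isUnit_det _).2 (isUnit_iff_ne_zero.2 hg')
    set z : S := (omE ω (conjU e he g)).symm y with hz
    have hzy : ω (conjU e he g) z = y := (omE ω (conjU e he g)).apply_symm_apply y
    have h1 := hκ' g (Units.mk0 _ hg') rfl (T.symm z) _ hξT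
    obtain ⟨r, h2, h3⟩ := ((hκ (conjU e he g) (Units.mk0 _ hg') hdet.symm z ξ).and
      (cf_ball hW hq hH hψ1 (cayley (umat (conjU e he g))) hξ z)).exists
    have h4 : ∫ w in closedBall (0 : Fin N → E) r,
          ((ψ ((4 : F)⁻¹ * sympl F σ H ((cayley (umat (conjU e he g))).mulVec w) w) : Circle) : ℂ)
            * ξ (ρ w z) ∂(Measure.addHaar) =
        ∫ w, cf ψ σ H (cayley (umat (conjU e he g))) ρ ξ z w ∂(Measure.addHaar) := h3
    rw [h4, hzy] at h2
    have h5 : ∫ w, cf ψ σ H' (cayley (umat g)) ρ' (ξ ∘ₗ (T : S' →ₗ[ℂ] S)) (T.symm z) w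
        ∂(Measure.addHaar) =
        (C : ℂ) * ∫ w, cf ψ σ H (cayley (umat (conjU e he g))) ρ ξ z w ∂(Measure.addHaar) := by
      rw [← hC]
      congr 1
      funext w
      have h6 : sympl F σ H ((cayley (umat (conjU e he g))).mulVec (e w)) (e w) =
          sympl F σ H' ((cayley (umat g)).mulVec w) w := by
        rw [umat_conjU, cayley_conjM hq e hu, sympl_iso e he]
      have h7 : (ξ ∘ₗ (T : S' →ₗ[ℂ] S)) (ρ' w (T.symm z)) = ξ (ρ (e w) z) := by
        show ξ (T (ρ' w (T.symm z))) = _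
        rw [hT, T.apply_symm_apply]
      rw [cf, cf, h6, h7]
    have h8 : (ξ ∘ₗ (T : S' →ₗ[ℂ] S)) (ω' g (T.symm z)) = χ g * ξ y := by
      show ξ (T (ω' g (T.symm z))) = _
      rw [hχ, T.apply_symm_apply, hzy, map_smul, smul_eq_mul]
    rw [h8, h5] at h1
    have h9 : κ * (χ g * ξ y) = κ' * C * ξ y := by
      rw [h1, h2]
      ring
    rw [eq_div_iff hκ0]
    apply mul_right_cancel₀ hy
    rw [← h9]
    ring
  -- the end
  have hinf : Infinite F := NontriviallyNormedField.infinite F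
  obtain ⟨k, hk, hk2⟩ := exists_regular (H := H') hq {u'}
  have h1 := hmul u' k
  rw [hreg _ (hk2 u' (Finset.mem_singleton_self _)), hreg _ hk] at h1
  have h0 : κ' * (C : ℂ) / κ ≠ 0 := by
    rw [← hreg k hk]
    exact hχ0 k
  have h2 : χ u' = 1 := by
    apply mul_right_cancel₀ h0
    rw [one_mul]
    exact h1.symm
  rw [hχ, h2, one_smul, conjU_unique e he h]

/-- **Uniqueness of the Weil representation** for an isometry `e : (E^n, H') ≃ (E^N, H)`. -/
theorem weil_iso (hW' : IsWeil σ H' ψ μ ρ' ω') (hW : IsWeil σ H ψ μ ρ ω)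
    (hq : QuadDatum σ δ d) (hH' : IsSkew σ H') (hψ : Continuous ψ)
    (hψ1 : ψ ≠ 1) (e : (Fin n → E) ≃ₗ[E] (Fin N → E))
    (he : ∀ x y, sk σ H (e x) (e y) = sk σ H' x y) :
    ∃ T : S' ≃ₗ[ℂ] S, (∀ w v, T (ρ' w v) = ρ (e w) (T v)) ∧
      ∀ (u : unitary σ H) (u' : unitary σ H'),
        (∀ x, (umat u).mulVec (e x) = e ((umat u').mulVec x)) →
        ∀ v, T (ω' u' v) = ω u (T v) := by
  obtain ⟨T, hT⟩ := exists_rho_iso hW' hW hq hH' hψ hψ1 e he
  exact ⟨T, hT, fun u u' h v => om_of_rho_iso hW' hW hq hH' (isSkew_iso hH' hq e he) hψ hψ1 e he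
    T hT u u' h v⟩

end main

section uniq

variable {F E : Type} [NontriviallyNormedField F] [IsUltrametricDist F] [ProperSpace F]
  [NontriviallyNormedField E] [NormedAlgebra F E] [IsUltrametricDist E]
  [ProperSpace E] [MeasurableSpace E] [BorelSpace E]
  {σ : E ≃ₐ[F] E} {δ : E} {d : F} {N : ℕ} {H : Matrix (Fin N) (Fin N) E}
  {ψ : AddChar F Circle} {μ : Eˣ →* ℂˣ}
  {S₁ : Type} [AddCommGroup S₁] [Module ℂ S₁]
  {ρ₁ : (Fin N → E) → Module.End ℂ S₁} {ω₁ : unitary σ H →* Module.End ℂ S₁}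
  {S₂ : Type} [AddCommGroup S₂] [Module ℂ S₂]
  {ρ₂ : (Fin N → E) → Module.End ℂ S₂} {ω₂ : unitary σ H →* Module.End ℂ S₂}

/-- **Uniqueness of the Weil representation** (W3). -/
theorem weil_unique (hW₁ : IsWeil σ H ψ μ ρ₁ ω₁) (hW₂ : IsWeil σ H ψ μ ρ₂ ω₂)
    (hq : QuadDatum σ δ d) (hH : IsSkew σ H) (hψ : Continuous ψ) (hψ1 : ψ ≠ 1) :
    ∃ T : S₁ ≃ₗ[ℂ] S₂, (∀ w v, T (ρ₁ w v) = ρ₂ w (T v)) ∧ ∀ u v, T (ω₁ u v) = ω₂ u (T v) := by
  obtain ⟨T, h1, h2⟩ := weil_iso hW₁ hW₂ hq hH hψ hψ1 (LinearEquiv.refl E (Fin N → E))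
    (fun x y => rfl)
  exact ⟨T, h1, fun u v => h2 u u (fun x => rfl) v⟩

/-- Every isomorphism of the Heisenberg representations intertwines the Weil representations. -/
theorem weil_om_of_rho (hW₁ : IsWeil σ H ψ μ ρ₁ ω₁) (hW₂ : IsWeil σ H ψ μ ρ₂ ω₂)
    (hq : QuadDatum σ δ d) (hH : IsSkew σ H) (hψ : Continuous ψ) (hψ1 : ψ ≠ 1)
    (T : S₁ ≃ₗ[ℂ] S₂) (hT : ∀ w v, T (ρ₁ w v) = ρ₂ w (T v)) (u : unitary σ H) (v : S₁) :
    T (ω₁ u v) = ω₂ u (T v) :=
  om_of_rho_iso hW₁ hW₂ hq hH hH hψ hψ1 (LinearEquiv.refl E (Fin N → E)) (fun _ _ => rfl) T hT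
    u u (fun _ => rfl) v

/-- For the same `ρ` the representation `ω` is unique. -/
theorem om_unique {ω : unitary σ H →* Module.End ℂ S₁}
    (hW₁ : IsWeil σ H ψ μ ρ₁ ω₁) (hW₂ : IsWeil σ H ψ μ ρ₁ ω)
    (hq : QuadDatum σ δ d) (hH : IsSkew σ H) (hψ : Continuous ψ) (hψ1 : ψ ≠ 1) : ω₁ = ω := by
  apply MonoidHom.ext
  intro u
  apply LinearMap.ext
  intro v
  exact weil_om_of_rho hW₁ hW₂ hq hH hψ hψ1 (LinearEquiv.refl ℂ S₁) (fun _ _ => rfl) u v

end uniq

end SpW.P1
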