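import Pool.Agent.Work.MP_3615d2_al.P1.FreezeW
import Pool.Agent.Work.MP_3615d2_al.P1.MOForm
import Pool.Agent.Work.MP_3615d2_al.P1.WeilUniq
import Pool.Agent.Work.MP_3615d2_al.Mo.Transp
import Pool.Agent.Work.MP_3615d2_al.WeMain

/-!
MP_3615d2_al, Part 1, module DIM: the invariant forms on `π ν^s × π ν^t` are unique up to a scalar
and determine the isometry class of the space. This file contains the argument with the local
pieces (FIB) and the Mackey bound as hypotheses (`FibLin`, `MkBound`); see `P1/Dim.lean` for the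
final statements.
-/

open MeasureTheory Filter Topology Matrix
open scoped TensorProduct

set_option linter.unusedSectionVars false

namespace SpW

section defs

variable {F E : Type} [NontriviallyNormedField F] [NontriviallyNormedField E] [NormedAlgebra F E]
  {a b N : ℕ} {W S : Type} [AddCommGroup W] [Module ℂ W] [AddCommGroup S] [Module ℂ S]

/-- Invariance of a local piece at `x`. -/
def LocInv (σ : E ≃ₐ[F] E) (h : a + b = N) {H : Matrix (Fin N) (Fin N) E}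
    (τ : (GL (Fin a) E × GL (Fin b) E) →* Module.End ℂ W) (ω : unitary σ H →* Module.End ℂ S)
    (x : GL (Fin N) E) (H₁ : Matrix (Fin a) (Fin a) E) (H₂ : Matrix (Fin b) (Fin b) E)
    (B : W →ₗ[ℂ] S →ₗ[ℂ] ℂ) : Prop :=
  ∀ (u₁ : unitary σ H₁) (u₂ : unitary σ H₂) (u : unitary σ H),
    x * (u : GL (Fin N) E) * x⁻¹ = pelJ h (u₁ : GL (Fin a) E) (u₂ : GL (Fin b) E) 0 →
    ∀ w s, B (τ ((u₁ : GL (Fin a) E), (u₂ : GL (Fin b) E)) w) (ω u s) = B w s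

/-- The vanishing criterion for a family of local pieces. -/
def LocVan (σ : E ≃ₐ[F] E) (h : a + b = N) (H : Matrix (Fin N) (Fin N) E)
    (τ : (GL (Fin a) E × GL (Fin b) E) →* Module.End ℂ W)
    (bx : GL (Fin N) E → (W →ₗ[ℂ] S →ₗ[ℂ] ℂ)) (β : IndJ h τ →ₗ[ℂ] S →ₗ[ℂ] ℂ) : Prop :=
  ∀ (f : IndJ h τ) (s : S),
    (∀ g, (upLJ h (GM σ H g)).det = 0 → (f : GL (Fin N) E → W) g = 0) →
    (∀ (x : GL (Fin N) E) (H₁ : Matrix (Fin a) (Fin a) E) (H₂ : Matrix (Fin b) (Fin b) E),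
      IsSkew σ H₁ → IsSkew σ H₂ → GM σ H x = bmJ h H₁ 0 0 H₂ →
      bx x ((f : GL (Fin N) E → W) x) s = 0) → β f s = 0

/-- The conclusion of FIB for the forms on `IndJ h τ × S`. -/
def FibLin (σ : E ≃ₐ[F] E) (h : a + b = N) {H : Matrix (Fin N) (Fin N) E}
    (τ : (GL (Fin a) E × GL (Fin b) E) →* Module.End ℂ W)
    (ω : unitary σ H →* Module.End ℂ S) : Prop :=
  ∃ bx : {β : IndJ h τ →ₗ[ℂ] S →ₗ[ℂ] ℂ // InvForm σ H (indActJ h τ) ω β} → GL (Fin N) E →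
      (W →ₗ[ℂ] S →ₗ[ℂ] ℂ),
    (∀ β β' β'' (c : ℂ) x, β''.1 = β.1 + c • β'.1 → bx β'' x = bx β x + c • bx β' x) ∧
    ∀ β, (∀ (x : GL (Fin N) E) (H₁ : Matrix (Fin a) (Fin a) E) (H₂ : Matrix (Fin b) (Fin b) E),
        IsSkew σ H₁ → IsSkew σ H₂ → GM σ H x = bmJ h H₁ 0 0 H₂ →
        LocInv σ h τ ω x H₁ H₂ (bx β x)) ∧
      LocVan σ h H τ (bx β) β.1 ∧
      (∀ (x : GL (Fin N) E) (H₁ : Matrix (Fin a) (Fin a) E) (H₂ : Matrix (Fin b) (Fin b) E),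
        IsSkew σ H₁ → IsSkew σ H₂ → GM σ H x = bmJ h H₁ 0 0 H₂ →
        ∀ (p : GL (Fin a) E) (q : GL (Fin b) E) (u : unitary σ H), bx β x = 0 →
          bx β (pelJ h p q 0 * x * (u : GL (Fin N) E)) = 0)

/-- A form which is zero on the sections supported over the nondegenerate subspaces is zero. -/
def MkBound (σ : E ≃ₐ[F] E) (h : a + b = N) {H : Matrix (Fin N) (Fin N) E}
    (τ : (GL (Fin a) E × GL (Fin b) E) →* Module.End ℂ W)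
    (ω : unitary σ H →* Module.End ℂ S) : Prop :=
  ∀ β : IndJ h τ →ₗ[ℂ] S →ₗ[ℂ] ℂ, InvForm σ H (indActJ h τ) ω β →
    (∀ f : IndJ h τ, (∀ g, (upLJ h (GM σ H g)).det = 0 → (f : GL (Fin N) E → W) g = 0) →
      ∀ s, β f s = 0) → β = 0

/-- A nonzero form has a nonzero local piece. -/
theorem exists_point (σ : E ≃ₐ[F] E) (h : a + b = N) {H : Matrix (Fin N) (Fin N) E}
    {τ : (GL (Fin a) E × GL (Fin b) E) →* Module.End ℂ W}
    {ω : unitary σ H →* Module.End ℂ S} (hmk : MkBound σ h τ ω)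
    {β : IndJ h τ →ₗ[ℂ] S →ₗ[ℂ] ℂ} (hβ : InvForm σ H (indActJ h τ) ω β)
    {bx : GL (Fin N) E → (W →ₗ[ℂ] S →ₗ[ℂ] ℂ)} (hbx : LocVan σ h H τ bx β) (hβ0 : β ≠ 0) :
    ∃ (x : GL (Fin N) E) (H₁ : Matrix (Fin a) (Fin a) E) (H₂ : Matrix (Fin b) (Fin b) E),
      IsSkew σ H₁ ∧ IsSkew σ H₂ ∧ GM σ H x = bmJ h H₁ 0 0 H₂ ∧ bx x ≠ 0 := by
  by_contra hc
  push Not at hc
  refine hβ0 (hmk β hβ fun f hf s => hbx f s hf fun x H₁ H₂ h1 h2 h3 => ?_)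
  rw [hc x H₁ H₂ h1 h2 h3, LinearMap.zero_apply, LinearMap.zero_apply]

end defs

section dim

variable {F E : Type} [NontriviallyNormedField F] [IsUltrametricDist F] [ProperSpace F]
  [NontriviallyNormedField E] [NormedAlgebra F E] [IsUltrametricDist E] [ProperSpace E]
  [MeasurableSpace E] [BorelSpace E]
  {σ : E ≃ₐ[F] E} {δ : E} {d : F} {ψ : AddChar F Circle} {μ : Eˣ →* ℂˣ}
  {m a b N : ℕ} {V V₁ V₂ S S' : Type}
  [AddCommGroup V] [Module ℂ V] [AddCommGroup V₁] [Module ℂ V₁] [AddCommGroup V₂] [Module ℂ V₂]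
  [AddCommGroup S] [Module ℂ S] [AddCommGroup S'] [Module ℂ S']

/-- There is a nonzero invariant form on `V × S` for some Weil data of `H`. -/
def HasForm (σ : E ≃ₐ[F] E) (ψ : AddChar F Circle) (μ : Eˣ →* ℂˣ)
    (π : GL (Fin m) E →* Module.End ℂ V) (H : Matrix (Fin m) (Fin m) E) : Prop :=
  ∃ (S : Type) (_ : AddCommGroup S) (_ : Module ℂ S) (ρ : (Fin m → E) → Module.End ℂ S)
    (ω : unitary σ H →* Module.End ℂ S) (β : V →ₗ[ℂ] S →ₗ[ℂ] ℂ),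
    IsWeil σ H ψ μ ρ ω ∧ InvForm σ H π ω β ∧ β ≠ 0

theorem isom_of_hasForm {π : GL (Fin m) E →* Module.End ℂ V} (hMO : MOForm F σ π)
    (hψ : Continuous ψ) (hψ1 : ψ ≠ 1) (hμ : ConjSymplectic F μ)
    {H₁ H₂ : Matrix (Fin m) (Fin m) E} (hH₁ : IsSkew σ H₁) (hH₂ : IsSkew σ H₂)
    (h₁ : HasForm σ ψ μ π H₁) (h₂ : HasForm σ ψ μ π H₂) : Isom σ H₁ H₂ := by
  obtain ⟨S₁, _, _, ρ₁, ω₁, β₁, hW₁, hβ₁, hn₁⟩ := h₁
  obtain ⟨S₂, _, _, ρ₂, ω₂, β₂, hW₂, hβ₂, hn₂⟩ := h₂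
  exact isom_iff_GM.2 ((hMO ψ μ hψ hψ1 hμ).1 H₁ H₂ S₁ S₂ ρ₁ ω₁ ρ₂ ω₂ hH₁ hH₂ hW₁ hW₂ β₁ β₂
    hβ₁ hβ₂ hn₁ hn₂)

/-- The invariance in the form of `frz_fib`. -/
theorem LocInv.conj (h : a + b = N) {H : Matrix (Fin N) (Fin N) E}
    {W : Type} [AddCommGroup W] [Module ℂ W]
    {τ : (GL (Fin a) E × GL (Fin b) E) →* Module.End ℂ W}
    {ω : unitary σ H →* Module.End ℂ S} {x : GL (Fin N) E} {H₁ : Matrix (Fin a) (Fin a) E}
    {H₂ : Matrix (Fin b) (Fin b) E} {bx : W →ₗ[ℂ] S →ₗ[ℂ] ℂ}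
    (hb : LocInv σ h τ ω x H₁ H₂ bx) (u₁ : unitary σ H₁) (u₂ : unitary σ H₂) (u : unitary σ H)
    (hu : (u : GL (Fin N) E) = x⁻¹ * pelJ h u₁ u₂ 0 * x) (w : W) (z : S) :
    bx (τ (u₁, u₂) w) (ω u z) = bx w z :=
  hb u₁ u₂ u (by rw [hu]; group) w z

section loc

variable {H : Matrix (Fin N) (Fin N) E} {ρ : (Fin N → E) → Module.End ℂ S}
  {ω : unitary σ H →* Module.End ℂ S} {s t : ℝ} {x : GL (Fin N) E}

/-- A nonzero local piece gives nonzero forms on both blocks. -/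
theorem hasForm_of_loc (h : a + b = N) (hq : QuadDatum σ δ d) (hψ : Continuous ψ)
    (hψ1 : ψ ≠ 1) (hμ : ConjSymplectic F μ) (hH : IsSkew σ H) (hW : IsWeil σ H ψ μ ρ ω)
    {π₁ : GL (Fin a) E →* Module.End ℂ V₁} {π₂ : GL (Fin b) E →* Module.End ℂ V₂}
    {H₁ : Matrix (Fin a) (Fin a) E} {H₂ : Matrix (Fin b) (Fin b) E}
    (hx : GM σ H x = bmJ h H₁ 0 0 H₂) {bx : V₁ ⊗[ℂ] V₂ →ₗ[ℂ] S →ₗ[ℂ] ℂ}
    (hb : LocInv σ h (oten s t π₁ π₂) ω x H₁ H₂ bx) (hb0 : bx ≠ 0) :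
    HasForm σ ψ μ π₁ H₁ ∧ HasForm σ ψ μ π₂ H₂ := by
  have hs := isSkew_blocks h (sig_sig hq) hH hx
  obtain ⟨S₁, _, _, ρ₁, ω₁, hW₁⟩ := weil_exists hq hs.1 hψ hψ1 hμ
  obtain ⟨S₂, _, _, ρ₂, ω₂, hW₂⟩ := weil_exists hq hs.2 hψ hψ1 hμ
  obtain ⟨j, hj⟩ := weil_tens_x h hq hH hψ hψ1 hx hW hW₁ hW₂
  obtain ⟨hL, hR⟩ := frz_fib h hq hH hx (s := s) (t := t) (π₁ := π₁) (π₂ := π₂) (bx := bx)
    (hb.conj h) hj
  have h0 := pullS_ne_zero hb0 j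
  obtain ⟨v₂, s₂, h2⟩ := exists_frzL_ne_zero h0
  obtain ⟨v₁, s₁, h1⟩ := exists_frzR_ne_zero h0
  exact ⟨⟨S₁, _, _, ρ₁, ω₁, _, hW₁, hL v₂ s₂, h2⟩, ⟨S₂, _, _, ρ₂, ω₂, _, hW₂, hR v₁ s₁, h1⟩⟩

/-- The local pieces are unique up to a scalar. -/
theorem loc_unique (h : a + b = N) (hq : QuadDatum σ δ d) (hψ : Continuous ψ)
    (hψ1 : ψ ≠ 1) (hμ : ConjSymplectic F μ) (hH : IsSkew σ H) (hW : IsWeil σ H ψ μ ρ ω)
    {π₁ : GL (Fin a) E →* Module.End ℂ V₁} {π₂ : GL (Fin b) E →* Module.End ℂ V₂}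
    (hMO₁ : MOForm F σ π₁) (hMO₂ : MOForm F σ π₂)
    {H₁ : Matrix (Fin a) (Fin a) E} {H₂ : Matrix (Fin b) (Fin b) E}
    (hx : GM σ H x = bmJ h H₁ 0 0 H₂) {bx bx' : V₁ ⊗[ℂ] V₂ →ₗ[ℂ] S →ₗ[ℂ] ℂ}
    (hb : LocInv σ h (oten s t π₁ π₂) ω x H₁ H₂ bx) (hb0 : bx ≠ 0)
    (hb' : LocInv σ h (oten s t π₁ π₂) ω x H₁ H₂ bx') : ∃ c : ℂ, bx' = c • bx := by
  have hs := isSkew_blocks h (sig_sig hq) hH hx
  obtain ⟨S₁, _, _, ρ₁, ω₁, hW₁⟩ := weil_exists hq hs.1 hψ hψ1 hμ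
  obtain ⟨S₂, _, _, ρ₂, ω₂, hW₂⟩ := weil_exists hq hs.2 hψ hψ1 hμ
  obtain ⟨j, hj⟩ := weil_tens_x h hq hH hψ hψ1 hx hW hW₁ hW₂
  obtain ⟨hL, hR⟩ := frz_fib h hq hH hx (s := s) (t := t) (π₁ := π₁) (π₂ := π₂) (bx := bx)
    (hb.conj h) hj
  obtain ⟨hL', hR'⟩ := frz_fib h hq hH hx (s := s) (t := t) (π₁ := π₁) (π₂ := π₂) (bx := bx')
    (hb'.conj h) hj
  have h0 := pullS_ne_zero hb0 j
  obtain ⟨v₂, s₂, h2⟩ := exists_frzL_ne_zero h0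
  obtain ⟨v₁, s₁, h1⟩ := exists_frzR_ne_zero h0
  have m1 : ∀ β : V₁ →ₗ[ℂ] S₁ →ₗ[ℂ] ℂ, InvForm σ H₁ π₁ ω₁ β →
      ∃ c : ℂ, β = c • frzL (pullS bx j) v₂ s₂ := fun β hβ =>
    (hMO₁ ψ μ hψ hψ1 hμ).2 H₁ S₁ ρ₁ ω₁ hs.1 hW₁ _ β (hL v₂ s₂) hβ h2
  have m2 : ∀ β : V₂ →ₗ[ℂ] S₂ →ₗ[ℂ] ℂ, InvForm σ H₂ π₂ ω₂ β →
      ∃ c : ℂ, β = c • frzR (pullS bx j) v₁ s₁ := fun β hβ =>
    (hMO₂ ψ μ hψ hψ1 hμ).2 H₂ S₂ ρ₂ ω₂ hs.2 hW₂ _ β (hR v₁ s₁) hβ h1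
  obtain ⟨c, hc⟩ := eq_smul_outF (b := pullS bx j) (fun v z => m1 _ (hL v z))
    (fun v z => m2 _ (hR v z))
  obtain ⟨c', hc'⟩ := eq_smul_outF (b := pullS bx' j) (fun v z => m1 _ (hL' v z))
    (fun v z => m2 _ (hR' v z))
  have hc0 : c ≠ 0 := by
    rintro rfl
    rw [zero_smul] at hc
    exact h0 hc
  refine ⟨c' * c⁻¹, pullS_injective (j := j) ?_⟩
  have e1 : pullS ((c' * c⁻¹) • bx) j = (c' * c⁻¹) • pullS bx j := rfl
  rw [e1, hc, hc', smul_smul, mul_assoc, inv_mul_cancel₀ hc0, mul_one]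

end loc

section main

variable {H : Matrix (Fin N) (Fin N) E} {ρ : (Fin N → E) → Module.End ℂ S}
  {ω : unitary σ H →* Module.End ℂ S} {s t : ℝ} {π : GL (Fin m) E →* Module.End ℂ V}

/-- Existence: a nonzero form on `π ν^s × π ν^t` gives nonzero forms on the blocks of `H`. -/
theorem dimCore_exists (h : m + m = N) (hq : QuadDatum σ δ d) (hψ : Continuous ψ)
    (hψ1 : ψ ≠ 1) (hμ : ConjSymplectic F μ) (hH : IsSkew σ H) (hW : IsWeil σ H ψ μ ρ ω)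
    (hfib : FibLin σ h (oten s t π π) ω) (hmk : MkBound σ h (oten s t π π) ω)
    {β : IndJ h (oten s t π π) →ₗ[ℂ] S →ₗ[ℂ] ℂ}
    (hβ : InvForm σ H (indActJ h (oten s t π π)) ω β) (hβ0 : β ≠ 0) :
    ∃ (x : GL (Fin N) E) (H₁ H₂ : Matrix (Fin m) (Fin m) E), IsSkew σ H₁ ∧ IsSkew σ H₂ ∧
      GM σ H x = bmJ h H₁ 0 0 H₂ ∧ HasForm σ ψ μ π H₁ ∧ HasForm σ ψ μ π H₂ := by
  obtain ⟨bx, -, hbx⟩ := hfib
  obtain ⟨h1, h2, -⟩ := hbx ⟨β, hβ⟩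
  obtain ⟨x, H₁, H₂, k1, k2, k3, k4⟩ := exists_point σ h hmk hβ h2 hβ0
  exact ⟨x, H₁, H₂, k1, k2, k3, hasForm_of_loc h hq hψ hψ1 hμ hH hW k3 (h1 x H₁ H₂ k1 k2 k3) k4⟩

/-- Uniqueness of the invariant form on `π ν^s × π ν^t`. -/
theorem dimCore_unique (h : m + m = N) (hq : QuadDatum σ δ d) (hψ : Continuous ψ)
    (hψ1 : ψ ≠ 1) (hμ : ConjSymplectic F μ) (hMO : MOForm F σ π)
    (hH : IsSkew σ H) (hW : IsWeil σ H ψ μ ρ ω)
    (hfib : FibLin σ h (oten s t π π) ω) (hmk : MkBound σ h (oten s t π π) ω)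
    {β β' : IndJ h (oten s t π π) →ₗ[ℂ] S →ₗ[ℂ] ℂ}
    (hβ : InvForm σ H (indActJ h (oten s t π π)) ω β) (hβ0 : β ≠ 0)
    (hβ' : InvForm σ H (indActJ h (oten s t π π)) ω β') : ∃ c : ℂ, β' = c • β := by
  obtain ⟨bx, hlin, hbx⟩ := hfib
  obtain ⟨h1, h2, -⟩ := hbx ⟨β, hβ⟩
  obtain ⟨h1', -, -⟩ := hbx ⟨β', hβ'⟩
  obtain ⟨x, H₁, H₂, k1, k2, k3, k4⟩ := exists_point σ h hmk hβ h2 hβ0
  obtain ⟨f1, f2⟩ := hasForm_of_loc h hq hψ hψ1 hμ hH hW k3 (h1 x H₁ H₂ k1 k2 k3) k4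
  obtain ⟨c, hc⟩ := loc_unique h hq hψ hψ1 hμ hH hW hMO hMO k3 (h1 x H₁ H₂ k1 k2 k3) k4
    (h1' x H₁ H₂ k1 k2 k3)
  have hβ'' : InvForm σ H (indActJ h (oten s t π π)) ω (β' + (-c) • β) := hβ'.add (hβ.smul (-c))
  obtain ⟨g1, g2, g3⟩ := hbx ⟨β' + (-c) • β, hβ''⟩
  have e0 : bx ⟨β' + (-c) • β, hβ''⟩ x = 0 := by
    rw [hlin ⟨β', hβ'⟩ ⟨β, hβ⟩ ⟨β' + (-c) • β, hβ''⟩ (-c) x rfl, hc, ← add_smul, add_neg_cancel,
      zero_smul]
  refine ⟨c, ?_⟩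
  by_contra hne
  have hne' : β' + (-c) • β ≠ 0 := by
    intro h0
    apply hne
    have h3 : β' + (-c) • β + c • β = c • β := by rw [h0, zero_add]
    rwa [add_assoc, ← add_smul, neg_add_cancel, zero_smul, add_zero] at h3
  obtain ⟨x', H₁', H₂', l1, l2, l3, l4⟩ := exists_point σ h hmk hβ'' g2 hne'
  obtain ⟨f1', f2'⟩ := hasForm_of_loc h hq hψ hψ1 hμ hH hW l3 (g1 x' H₁' H₂' l1 l2 l3) l4
  obtain ⟨p, q, u, -, -, hu, hx'⟩ := exists_same_orbit h k3 l3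
    (isom_of_hasForm hMO hψ hψ1 hμ k1 l1 f1 f1') (isom_of_hasForm hMO hψ hψ1 hμ k2 l2 f2 f2')
  apply l4
  rw [hx']
  exact g3 x H₁ H₂ k1 k2 k3 p q ⟨u, hu⟩ e0

end main

section kill

variable {s t : ℝ} {π : GL (Fin m) E →* Module.End ℂ V}
  {H : Matrix (Fin N) (Fin N) E} {ρ : (Fin N → E) → Module.End ℂ S}
  {ω : unitary σ H →* Module.End ℂ S}
  {H' : Matrix (Fin N) (Fin N) E} {ρ' : (Fin N → E) → Module.End ℂ S'}
  {ω' : unitary σ H' →* Module.End ℂ S'}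

/-- The isometry class of the space is determined by the existence of a nonzero form. -/
theorem dimCore_isom (h : m + m = N) (hq : QuadDatum σ δ d) (hψ : Continuous ψ)
    (hψ1 : ψ ≠ 1) (hμ : ConjSymplectic F μ) (hMO : MOForm F σ π)
    (hH : IsSkew σ H) (hW : IsWeil σ H ψ μ ρ ω)
    (hfib : FibLin σ h (oten s t π π) ω) (hmk : MkBound σ h (oten s t π π) ω)
    {β : IndJ h (oten s t π π) →ₗ[ℂ] S →ₗ[ℂ] ℂ}
    (hβ : InvForm σ H (indActJ h (oten s t π π)) ω β) (hβ0 : β ≠ 0)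
    (hH' : IsSkew σ H') (hW' : IsWeil σ H' ψ μ ρ' ω')
    (hfib' : FibLin σ h (oten s t π π) ω') (hmk' : MkBound σ h (oten s t π π) ω')
    {β' : IndJ h (oten s t π π) →ₗ[ℂ] S' →ₗ[ℂ] ℂ}
    (hβ' : InvForm σ H' (indActJ h (oten s t π π)) ω' β') (hβ0' : β' ≠ 0) : Isom σ H H' := by
  obtain ⟨x, H₁, H₂, k1, k2, k3, f1, f2⟩ :=
    dimCore_exists h hq hψ hψ1 hμ hH hW hfib hmk hβ hβ0
  obtain ⟨x', H₁', H₂', l1, l2, l3, f1', f2'⟩ :=
    dimCore_exists h hq hψ hψ1 hμ hH' hW' hfib' hmk' hβ' hβ0'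
  exact isom_of_blocks h k3 l3 (isom_of_hasForm hMO hψ hψ1 hμ k1 l1 f1 f1')
    (isom_of_hasForm hMO hψ hψ1 hμ k2 l2 f2 f2')

/-- A stable subspace killed by one nonzero form is killed by all forms (of all spaces). -/
theorem dimCore_kill (h : m + m = N) (hq : QuadDatum σ δ d) (hψ : Continuous ψ)
    (hψ1 : ψ ≠ 1) (hμ : ConjSymplectic F μ) (hMO : MOForm F σ π)
    (hH : IsSkew σ H) (hW : IsWeil σ H ψ μ ρ ω)
    (hfib : FibLin σ h (oten s t π π) ω) (hmk : MkBound σ h (oten s t π π) ω)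
    {β : IndJ h (oten s t π π) →ₗ[ℂ] S →ₗ[ℂ] ℂ}
    (hβ : InvForm σ H (indActJ h (oten s t π π)) ω β) (hβ0 : β ≠ 0)
    (hH' : IsSkew σ H') (hW' : IsWeil σ H' ψ μ ρ' ω')
    (hfib' : FibLin σ h (oten s t π π) ω') (hmk' : MkBound σ h (oten s t π π) ω')
    {β' : IndJ h (oten s t π π) →ₗ[ℂ] S' →ₗ[ℂ] ℂ}
    (hβ' : InvForm σ H' (indActJ h (oten s t π π)) ω' β')
    (D : Submodule ℂ (IndJ h (oten s t π π))) (hD : IsStab (indActJ h (oten s t π π)) D)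
    (hβD : ∀ f ∈ D, ∀ s, β f s = 0) : ∀ f ∈ D, ∀ s, β' f s = 0 := by
  by_cases h0 : β' = 0
  · intro f _ z
    rw [h0, LinearMap.zero_apply, LinearMap.zero_apply]
  · obtain ⟨e, he⟩ := dimCore_isom h hq hψ hψ1 hμ hMO hH hW hfib hmk hβ hβ0 hH' hW' hfib' hmk'
      hβ' h0
    -- `e` is an isometry `(E^N, H) → (E^N, H')`
    let eL : (Fin N → E) ≃ₗ[E] (Fin N → E) :=
      { toFun := fun x => (e : Matrix (Fin N) (Fin N) E).mulVec x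
        invFun := fun x => ((e⁻¹ : GL (Fin N) E) : Matrix (Fin N) (Fin N) E).mulVec x
        map_add' := fun x y => Matrix.mulVec_add _ _ _
        map_smul' := fun c x => Matrix.mulVec_smul _ _ _
        left_inv := fun x => by
          show ((e⁻¹ : GL (Fin N) E) : Matrix (Fin N) (Fin N) E).mulVec
            ((e : Matrix (Fin N) (Fin N) E).mulVec x) = x
          rw [Matrix.mulVec_mulVec, ← Units.val_mul, inv_mul_cancel, Units.val_one,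
            Matrix.one_mulVec]
        right_inv := fun x => by
          show (e : Matrix (Fin N) (Fin N) E).mulVec
            (((e⁻¹ : GL (Fin N) E) : Matrix (Fin N) (Fin N) E).mulVec x) = x
          rw [Matrix.mulVec_mulVec, ← Units.val_mul, mul_inv_cancel, Units.val_one,
            Matrix.one_mulVec] }
    obtain ⟨T, -, hT⟩ := P1.weil_iso hW hW' hq hH hψ hψ1 eL he
    have hmem : ∀ u : unitary σ H, e * (u : GL (Fin N) E) * e⁻¹ ∈ unitary σ H' := by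
      intro u x y
      have e1 : ∀ z, ((e * (u : GL (Fin N) E) * e⁻¹ : GL (Fin N) E) :
          Matrix (Fin N) (Fin N) E).mulVec z =
          (e : Matrix (Fin N) (Fin N) E).mulVec (((u : GL (Fin N) E) :
            Matrix (Fin N) (Fin N) E).mulVec (eL.symm z)) := by
        intro z
        rw [Units.val_mul, Units.val_mul, ← Matrix.mulVec_mulVec, ← Matrix.mulVec_mulVec]
        rfl
      rw [e1, e1]
      have e2 := he (((u : GL (Fin N) E) : Matrix (Fin N) (Fin N) E).mulVec (eL.symm x))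
        (((u : GL (Fin N) E) : Matrix (Fin N) (Fin N) E).mulVec (eL.symm y))
      have e3 := he (eL.symm x) (eL.symm y)
      have e4 : ∀ z, (e : Matrix (Fin N) (Fin N) E).mulVec (eL.symm z) = z :=
        fun z => eL.apply_symm_apply z
      rw [e4, e4] at e3
      rw [e2, u.2 (eL.symm x) (eL.symm y), ← e3]
    let cj : unitary σ H → unitary σ H' := fun u => ⟨e * (u : GL (Fin N) E) * e⁻¹, hmem u⟩
    have hT' : ∀ (u : unitary σ H) v, T (ω u v) = ω' (cj u) (T v) := by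
      intro u v
      refine hT (cj u) u (fun x => ?_) v
      show ((e * (u : GL (Fin N) E) * e⁻¹ : GL (Fin N) E) : Matrix (Fin N) (Fin N) E).mulVec
        ((e : Matrix (Fin N) (Fin N) E).mulVec x) = (e : Matrix (Fin N) (Fin N) E).mulVec
        (((u : GL (Fin N) E) : Matrix (Fin N) (Fin N) E).mulVec x)
      rw [Matrix.mulVec_mulVec, Matrix.mulVec_mulVec, ← Units.val_mul, ← Units.val_mul,
        inv_mul_cancel_right]
    -- the transported form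
    let β'' : IndJ h (oten s t π π) →ₗ[ℂ] S →ₗ[ℂ] ℂ :=
      (β'.comp (indActJ h (oten s t π π) e)).compl₂ (T : S →ₗ[ℂ] S')
    have hβ''a : ∀ f z, β'' f z = β' (indActJ h (oten s t π π) e f) (T z) := fun f z => rfl
    have hβ'' : InvForm σ H (indActJ h (oten s t π π)) ω β'' := by
      intro u f z
      have e5 : e * (u : GL (Fin N) E) = ((cj u : unitary σ H') : GL (Fin N) E) * e := by
        show e * (u : GL (Fin N) E) = e * (u : GL (Fin N) E) * e⁻¹ * e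
        rw [inv_mul_cancel_right]
      rw [hβ''a, hβ''a, hT', ← Module.End.mul_apply, ← map_mul,
        ← hβ' (cj u) (indActJ h (oten s t π π) e f) (T z), ← Module.End.mul_apply, ← map_mul, e5]
    obtain ⟨c, hc⟩ := dimCore_unique h hq hψ hψ1 hμ hMO hH hW hfib hmk hβ hβ0 hβ''
    intro f hf z
    have e1 : indActJ h (oten s t π π) e⁻¹ f ∈ D := hD _ _ hf
    have e2 : β'' (indActJ h (oten s t π π) e⁻¹ f) (T.symm z) = β' f z := by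
      rw [hβ''a, LinearEquiv.apply_symm_apply, ← Module.End.mul_apply, ← map_mul,
        mul_inv_cancel, map_one, Module.End.one_apply]
    rw [← e2, hc, LinearMap.smul_apply, LinearMap.smul_apply, hβD _ e1, smul_zero]

end kill

end dim

end SpW
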