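import Pool.Agent.Work.MP_3615d2_al.P1.Model
import Pool.Agent.Work.MP_3615d2_al.WeMain

/-!
MP_3615d2_al, Part 1, EV0: `X = R + V + R'` with `R`, `R'` isotropic and dual. The Heisenberg
representation of `X` is `Sch (Fin m → E) S0`, `S0` the Heisenberg representation of `V`.
-/

open scoped Matrix
open Filter Topology MeasureTheory

namespace SpW.P1

open Pool.Agent.SpehH

section coord

variable {E : Type} {m k N : ℕ} (ε : Fin m ⊕ (Fin k ⊕ Fin m) ≃ Fin N)

/-- The vector with the coordinates `r`, `v`, `s`. -/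
def iot (r : Fin m → E) (v : Fin k → E) (s : Fin m → E) : Fin N → E :=
  fun i => Sum.elim r (Sum.elim v s) (ε.symm i)

/-- The coordinates in `R`. -/
def pR (w : Fin N → E) : Fin m → E := fun i => w (ε (Sum.inl i))

/-- The coordinates in `V`. -/
def pV (w : Fin N → E) : Fin k → E := fun i => w (ε (Sum.inr (Sum.inl i)))

/-- The coordinates in `R'`. -/
def pS (w : Fin N → E) : Fin m → E := fun i => w (ε (Sum.inr (Sum.inr i)))

@[simp] theorem pR_iot (r : Fin m → E) (v : Fin k → E) (s : Fin m → E) :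
    pR ε (iot ε r v s) = r := by
  funext i
  simp [pR, iot]

@[simp] theorem pV_iot (r : Fin m → E) (v : Fin k → E) (s : Fin m → E) :
    pV ε (iot ε r v s) = v := by
  funext i
  simp [pV, iot]

@[simp] theorem pS_iot (r : Fin m → E) (v : Fin k → E) (s : Fin m → E) :
    pS ε (iot ε r v s) = s := by
  funext i
  simp [pS, iot]

theorem iot_p (w : Fin N → E) : iot ε (pR ε w) (pV ε w) (pS ε w) = w := by
  funext i
  obtain ⟨j, rfl⟩ := ε.surjective i
  rcases j with j | j | j <;> simp [pR, pV, pS, iot]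

theorem exists_iot (w : Fin N → E) : ∃ r v s, w = iot ε r v s := ⟨_, _, _, (iot_p ε w).symm⟩

theorem iot_inj {r r' : Fin m → E} {v v' : Fin k → E} {s s' : Fin m → E}
    (h : iot ε r v s = iot ε r' v' s') : r = r' ∧ v = v' ∧ s = s' := by
  refine ⟨?_, ?_, ?_⟩
  · rw [← pR_iot ε r v s, h, pR_iot]
  · rw [← pV_iot ε r v s, h, pV_iot]
  · rw [← pS_iot ε r v s, h, pS_iot]

variable [AddCommGroup E]

theorem iot_add (r r' : Fin m → E) (v v' : Fin k → E) (s s' : Fin m → E) :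
    iot ε r v s + iot ε r' v' s' = iot ε (r + r') (v + v') (s + s') := by
  funext i
  obtain ⟨j, rfl⟩ := ε.surjective i
  rcases j with j | j | j <;> simp [iot]

theorem iot_zero : iot ε (0 : Fin m → E) 0 0 = 0 := by
  funext i
  obtain ⟨j, rfl⟩ := ε.surjective i
  rcases j with j | j | j <;> simp [iot]

theorem iot_smul {R : Type} [SMulZeroClass R E] (a : R) (r : Fin m → E) (v : Fin k → E)
    (s : Fin m → E) : a • iot ε r v s = iot ε (a • r) (a • v) (a • s) := by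
  funext i
  obtain ⟨j, rfl⟩ := ε.surjective i
  rcases j with j | j | j <;> simp [iot]

theorem pR_add (w w' : Fin N → E) : pR ε (w + w') = pR ε w + pR ε w' := rfl
theorem pV_add (w w' : Fin N → E) : pV ε (w + w') = pV ε w + pV ε w' := rfl
theorem pS_add (w w' : Fin N → E) : pS ε (w + w') = pS ε w + pS ε w' := rfl

end coord

section form

variable {F E : Type} [Field F] [Field E] [Algebra F E] {m k N : ℕ}

/-- `X = R + V + R'` with the forms `J` (between `R` and `R'`) and `H0` (on `V`). -/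
structure IsSplit (σ : E ≃ₐ[F] E) (ε : Fin m ⊕ (Fin k ⊕ Fin m) ≃ Fin N)
    (H : Matrix (Fin N) (Fin N) E) (J : Matrix (Fin m) (Fin m) E)
    (H0 : Matrix (Fin k) (Fin k) E) : Prop where
  det_ne : J.det ≠ 0
  form : ∀ r v s r' v' s', sk σ H (iot ε r v s) (iot ε r' v' s') =
    sk σ J r s' + sk σ H0 v v' - σ (sk σ J r' s)

/-- `σ (rᵀ J)` -/
def bJ (σ : E ≃ₐ[F] E) (J : Matrix (Fin m) (Fin m) E) : (Fin m → E) →ₗ[F] (Fin m → E) where
  toFun r := fun j => σ ((r ᵥ* J) j)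
  map_add' r r' := by
    funext j
    rw [Matrix.add_vecMul, Pi.add_apply, map_add]
    rfl
  map_smul' a r := by
    funext j
    show σ (((a • r) ᵥ* J) j) = a • σ ((r ᵥ* J) j)
    rw [Matrix.smul_vecMul, Pi.smul_apply, map_smul]

theorem bJ_apply (σ : E ≃ₐ[F] E) (J : Matrix (Fin m) (Fin m) E) (r : Fin m → E) (j : Fin m) :
    bJ σ J r j = σ ((r ᵥ* J) j) := rfl

theorem bJ_surjective {σ : E ≃ₐ[F] E} {J : Matrix (Fin m) (Fin m) E} (hJ : J.det ≠ 0)
    (b : Fin m → E) : ∃ r, bJ σ J r = b := by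
  refine ⟨(fun j => σ.symm (b j)) ᵥ* J⁻¹, ?_⟩
  funext j
  rw [bJ_apply, Matrix.vecMul_vecMul, Matrix.nonsing_inv_mul _ (isUnit_iff_ne_zero.2 hJ),
    Matrix.vecMul_one]
  exact σ.apply_symm_apply _

variable {σ : E ≃ₐ[F] E} {δ : E} {d : F}

theorem skJ_eq_dot (J : Matrix (Fin m) (Fin m) E) (r x : Fin m → E) :
    sk σ J r x = (r ᵥ* J) ⬝ᵥ fun j => σ (x j) := by
  unfold sk
  rw [Finset.sum_comm]
  simp only [dotProduct, Matrix.vecMul, Finset.sum_mul]

theorem trace_sk (hq : QuadDatum σ δ d) (J : Matrix (Fin m) (Fin m) E) (r x : Fin m → E) :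
    Algebra.trace F E (sk σ J r x) = Algebra.trace F E (bJ σ J r ⬝ᵥ x) := by
  rw [← trace_sig hq, skJ_eq_dot]
  congr 1
  simp only [dotProduct, map_sum, map_mul, sig_sig hq]
  rfl

theorem IsSplit.sympl {ε : Fin m ⊕ (Fin k ⊕ Fin m) ≃ Fin N} {H : Matrix (Fin N) (Fin N) E}
    {J : Matrix (Fin m) (Fin m) E} {H0 : Matrix (Fin k) (Fin k) E} (hS : IsSplit σ ε H J H0)
    (hq : QuadDatum σ δ d) (w w' : Fin N → E) :
    symplB F σ H w w' = Algebra.trace F E (bJ σ J (pR ε w) ⬝ᵥ pS ε w') +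
      symplB F σ H0 (pV ε w) (pV ε w') - Algebra.trace F E (bJ σ J (pR ε w') ⬝ᵥ pS ε w) := by
  conv_lhs => rw [← iot_p ε w, ← iot_p ε w']
  rw [symplB_apply, sympl_eq, hS.form, map_sub, map_add, trace_sig hq, trace_sk hq J (pR ε w),
    trace_sk hq J (pR ε w')]
  rfl

end form

section model

variable {F E : Type} [NontriviallyNormedField F] [IsUltrametricDist F] [ProperSpace F]
  [NontriviallyNormedField E] [NormedAlgebra F E] [IsUltrametricDist E] [ProperSpace E]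
  {σ : E ≃ₐ[F] E} {δ : E} {d : F} {m k N : ℕ} {H : Matrix (Fin N) (Fin N) E}
  {J : Matrix (Fin m) (Fin m) E} {H0 : Matrix (Fin k) (Fin k) E}
  {ε : Fin m ⊕ (Fin k ⊕ Fin m) ≃ Fin N}
  {ψ : AddChar F Circle} {S0 : Type} [AddCommGroup S0] [Module ℂ S0]
  {ρ0 : (Fin k → E) → Module.End ℂ S0}

/-- The character `ψ ∘ Tr` of `E`. -/
noncomputable def psE (E : Type) [NontriviallyNormedField E] [NormedAlgebra F E]
    (ψ : AddChar F Circle) : AddChar E Circle :=
  ψ.compAddMonoidHom (Algebra.trace F E).toAddMonoidHom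

omit [IsUltrametricDist F] [ProperSpace F] [IsUltrametricDist E] [ProperSpace E] in
theorem psE_apply (x : E) : psE E ψ x = ψ (Algebra.trace F E x) := rfl

omit [IsUltrametricDist F] [IsUltrametricDist E] [ProperSpace E] in
theorem psE_cont (hq : QuadDatum σ δ d) (hψ : Continuous ψ) : Continuous (psE E ψ) :=
  hψ.comp (by
    have := hq.finite
    exact (Algebra.trace F E).continuous_of_finiteDimensional)

omit [IsUltrametricDist F] [ProperSpace F] [IsUltrametricDist E] [ProperSpace E] in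
theorem psE_ne (hq : QuadDatum σ δ d) (hψ1 : ψ ≠ 1) : psE E ψ ≠ 1 := by
  intro h
  apply hψ1
  ext x
  have h1 := DFunLike.congr_fun h (algebraMap F E (x / 2))
  rw [psE_apply] at h1
  have h2 : Algebra.trace F E (algebraMap F E (x / 2)) = x := by
    rw [Algebra.trace_algebraMap, hq.rank, two_nsmul]
    have := hq.two
    field_simp
    norm_num
  rw [h2] at h1
  rw [h1]
  rfl

/-- The operators of the model. -/
noncomputable def rhoA (hq : QuadDatum σ δ d) (hψ : Continuous ψ)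
    (ε : Fin m ⊕ (Fin k ⊕ Fin m) ≃ Fin N) (J : Matrix (Fin m) (Fin m) E)
    (ρ0 : (Fin k → E) → Module.End ℂ S0) (w : Fin N → E) :
    Module.End ℂ (Sch (Fin m → E) S0) :=
  modOp (psE_cont hq hψ) (bJ σ J (pR ε w)) (pS ε w)
    (-(bJ σ J (pR ε w) ⬝ᵥ pS ε w) / 2) (ρ0 (pV ε w))

theorem rhoA_apply (hq : QuadDatum σ δ d) (hψ : Continuous ψ) (w : Fin N → E)
    (f : Sch (Fin m → E) S0) (x : Fin m → E) :
    (rhoA hq hψ ε J ρ0 w f : (Fin m → E) → S0) x =
      ((psE E ψ (bJ σ J (pR ε w) ⬝ᵥ x + -(bJ σ J (pR ε w) ⬝ᵥ pS ε w) / 2) : Circle) : ℂ) •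
        ρ0 (pV ε w) ((f : (Fin m → E) → S0) (x - pS ε w)) := rfl

theorem rhoA_smooth (hq : QuadDatum σ δ d) (hψ : Continuous ψ)
    (h0 : IsHeis ψ (symplB F σ H0) ρ0) (f : Sch (Fin m → E) S0) (w : Fin N → E) :
    ∀ᶠ a in 𝓝 (0 : F), rhoA hq hψ ε J ρ0 (a • w) f = f := by
  have hlin : ∀ a : F, bJ σ J (pR ε (a • w)) = a • bJ σ J (pR ε w) := fun a => by
    rw [← map_smul]
    rfl
  obtain ⟨K, hK, hfK⟩ := f.2.2
  -- translations
  have e1 : ∀ᶠ a in 𝓝 (0 : F), ∀ x, (f : (Fin m → E) → S0) (x - a • pS ε w) =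
      (f : (Fin m → E) → S0) x := by
    have h3 : Tendsto (fun a : F => -(a • pS ε w)) (𝓝 0) (𝓝 0) := by
      have : ContinuousAt (fun a : F => -(a • pS ε w)) 0 := by fun_prop
      simpa [ContinuousAt] using this
    filter_upwards [h3.eventually (sch_unif f.2)] with a ha x
    rw [sub_eq_add_neg]
    exact ha x
  -- the values
  have e2 : ∀ᶠ a in 𝓝 (0 : F), ∀ v ∈ Set.range (f : (Fin m → E) → S0),
      ρ0 (a • pV ε w) v = v := by
    rw [(Sch.finite_range f).eventually_all]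
    intro v _
    obtain ⟨η, hη, h⟩ := h0.smooth v (pV ε w)
    filter_upwards [Metric.closedBall_mem_nhds (0 : F) hη] with a ha
    exact h a (mem_closedBall_zero_iff.1 ha)
  -- the phases
  obtain ⟨η, hη, h⟩ := exists_ball_eq_one (psE_cont (E := E) hq hψ)
  have e3 : ∀ᶠ a in 𝓝 (0 : F), ∀ x ∈ K,
      ‖(a • bJ σ J (pR ε w)) ⬝ᵥ x + -((a • bJ σ J (pR ε w)) ⬝ᵥ (a • pS ε w)) / 2‖ < η := by
    refine hK.eventually_forall_of_forall_eventually fun x _ => ?_
    have h3 : Continuous fun z : F × (Fin m → E) =>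
        ‖(z.1 • bJ σ J (pR ε w)) ⬝ᵥ z.2 +
          -((z.1 • bJ σ J (pR ε w)) ⬝ᵥ (z.1 • pS ε w)) / 2‖ := by
      unfold dotProduct
      fun_prop
    have h4 : ‖(((0 : F), x).1 • bJ σ J (pR ε w)) ⬝ᵥ ((0 : F), x).2 +
        -((((0 : F), x).1 • bJ σ J (pR ε w)) ⬝ᵥ (((0 : F), x).1 • pS ε w)) / 2‖ < η := by
      simpa using hη
    exact h3.continuousAt.eventually (gt_mem_nhds h4)
  filter_upwards [e1, e2, e3] with a h1 h2 h3
  apply Sch.ext'
  intro x
  rw [rhoA_apply, hlin]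
  have h5 : (f : (Fin m → E) → S0) (x - pS ε (a • w)) = (f : (Fin m → E) → S0) x := h1 x
  have h6 : ρ0 (pV ε (a • w)) ((f : (Fin m → E) → S0) x) = (f : (Fin m → E) → S0) x :=
    h2 _ ⟨x, rfl⟩
  rw [h5, h6]
  by_cases hx : x ∈ K
  · have h7 := h _ (h3 x hx)
    have h8 : pS ε (a • w) = a • pS ε w := rfl
    rw [h8, h7, Circle.coe_one, one_smul]
  · rw [hfK x hx, smul_zero]

theorem rhoA_isHeis (hq : QuadDatum σ δ d) (hψ : Continuous ψ) (hS : IsSplit σ ε H J H0)
    (h0 : IsHeis ψ (symplB F σ H0) ρ0) :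
    IsHeis ψ (symplB F σ H) (rhoA hq hψ ε J ρ0) where
  zero := by
    apply LinearMap.ext
    intro f
    apply Sch.ext'
    intro x
    have e1 : pR ε (0 : Fin N → E) = 0 := rfl
    have e2 : pV ε (0 : Fin N → E) = 0 := rfl
    have e3 : pS ε (0 : Fin N → E) = 0 := rfl
    rw [rhoA_apply, e1, e2, e3, map_zero, zero_dotProduct, zero_dotProduct, neg_zero, zero_div,
      add_zero, AddChar.map_zero_eq_one, Circle.coe_one, one_smul, sub_zero, h0.zero]
    rfl
  mul w w' := by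
    unfold rhoA
    rw [modOp_mul, h0.mul, modOp_smul, pR_add, pV_add, pS_add, map_add]
    have e1 : -(bJ σ J (pR ε w) ⬝ᵥ pS ε w) / 2 + -(bJ σ J (pR ε w') ⬝ᵥ pS ε w') / 2 -
        bJ σ J (pR ε w') ⬝ᵥ pS ε w = -((bJ σ J (pR ε w) + bJ σ J (pR ε w')) ⬝ᵥ
          (pS ε w + pS ε w')) / 2 + (bJ σ J (pR ε w) ⬝ᵥ pS ε w' -
            bJ σ J (pR ε w') ⬝ᵥ pS ε w) / 2 := by
      rw [dotProduct_add, add_dotProduct, add_dotProduct]
      have := hq.two_E
      field_simp
      ring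
    rw [e1, modOp_add_const, smul_smul, ← Circle.coe_mul, psE_apply, ← AddChar.map_add_eq_mul]
    congr 4
    rw [hS.sympl hq]
    have e2 : ∀ x : E, Algebra.trace F E (x / 2) = Algebra.trace F E x / 2 := by
      intro x
      have h1 : x / 2 = (2 : F)⁻¹ • x := by
        rw [Algebra.smul_def, map_inv₀, map_ofNat, div_eq_inv_mul]
      rw [h1, map_smul, smul_eq_mul, div_eq_inv_mul]
    rw [e2, map_sub]
    ring
  smooth f w := by
    obtain ⟨η, hη, h⟩ := Metric.eventually_nhds_iff.1 (rhoA_smooth (ε := ε) (J := J) hq hψ h0 f w)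
    refine ⟨η / 2, by positivity, fun a ha => h ?_⟩
    rw [dist_zero_right]
    linarith

theorem rhoA_isIrr (hq : QuadDatum σ δ d) (hψ : Continuous ψ) (hψ1 : ψ ≠ 1)
    (hS : IsSplit σ ε H J H0) (h0 : IsHeis ψ (symplB F σ H0) ρ0) (hi : IsIrr ρ0) :
    IsIrr (rhoA hq hψ ε J ρ0) := by
  have hΨ := psE_cont (E := E) hq hψ
  refine ⟨?_, fun T hT => ?_⟩
  · obtain ⟨v, hv⟩ := @exists_ne S0 hi.1 0
    refine ⟨ind (Metric.closedBall (0 : Fin m → E) ‖(1 : E)‖) (isClopen_bl one_ne_zero 0)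
      (isCompact_closedBall _ _) v, 0, fun h => hv ?_⟩
    have h1 := congrFun (congrArg Subtype.val h) 0
    rw [ind_mem _ _ _ (by rw [mem_bl_iff]; simp)] at h1
    exact h1
  · refine model_irr hΨ (psE_ne hq hψ1) (L := ρ0) hi.2 T ?_ ?_ ?_
    · intro b f hf
      obtain ⟨r, rfl⟩ := bJ_surjective (σ := σ) hS.det_ne b
      have h1 := hT (iot ε r 0 0) f hf
      have h2 : rhoA hq hψ ε J ρ0 (iot ε r 0 0) f = modOp hΨ (bJ σ J r) 0 0 1 f := by
        unfold rhoA
        rw [pR_iot, pV_iot, pS_iot, dotProduct_zero, neg_zero, zero_div, h0.zero]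
      rwa [h2] at h1
    · intro s f hf
      have h1 := hT (iot ε 0 0 s) f hf
      have h2 : rhoA hq hψ ε J ρ0 (iot ε 0 0 s) f = modOp hΨ 0 s 0 1 f := by
        unfold rhoA
        rw [pR_iot, pV_iot, pS_iot, map_zero, zero_dotProduct, neg_zero, zero_div, h0.zero]
      rwa [h2] at h1
    · intro v f hf
      have h1 := hT (iot ε 0 v 0) f hf
      have h2 : rhoA hq hψ ε J ρ0 (iot ε 0 v 0) f = modOp hΨ 0 0 0 (ρ0 v) f := by
        unfold rhoA
        rw [pR_iot, pV_iot, pS_iot, map_zero, zero_dotProduct, neg_zero, zero_div]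
      rwa [h2] at h1

/-- The representation of the Heisenberg group of `X` in the model. -/
theorem exists_model (hq : QuadDatum σ δ d) (hψ : Continuous ψ) (hψ1 : ψ ≠ 1)
    (hH : IsSkew σ H) (hS : IsSplit σ ε H J H0) (h0 : IsHeis ψ (symplB F σ H0) ρ0)
    (hi0 : IsIrr ρ0) {S : Type} [AddCommGroup S] [Module ℂ S] {ρ : (Fin N → E) → Module.End ℂ S}
    (h : IsHeis ψ (symplB F σ H) ρ) (hi : IsIrr ρ) :
    ∃ T : S ≃ₗ[ℂ] Sch (Fin m → E) S0, ∀ w s, T (ρ w s) = rhoA hq hψ ε J ρ0 w (T s) := by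
  have := hq.finite
  exact stone_von_neumann hψ hψ1 (symplB_alt hq hH) (symplB_nondeg hq hH) hq.two h hi
    (rhoA_isHeis hq hψ hS h0) (rhoA_isIrr hq hψ hψ1 hS h0 hi0)

/-- A functional which is invariant under the characters is supported at `0`. -/
theorem model_factor (hq : QuadDatum σ δ d) (hψ : Continuous ψ) (hψ1 : ψ ≠ 1)
    (hJ : J.det ≠ 0) (h0 : IsHeis ψ (symplB F σ H0) ρ0) {T' : Type} [AddCommGroup T']
    [Module ℂ T'] (L : Sch (Fin m → E) S0 →ₗ[ℂ] T')
    (hL : ∀ r f, L (rhoA hq hψ ε J ρ0 (iot ε r 0 0) f) = L f) {f : Sch (Fin m → E) S0}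
    (hf : (f : (Fin m → E) → S0) 0 = 0) : L f = 0 := by
  classical
  have hΨ := psE_cont (E := E) hq hψ
  show f ∈ LinearMap.ker L
  refine mem_of_cut_nhds (χ := fun x : Fin m → E => x) continuous_id _ f fun x0 => ?_
  by_cases hx0 : x0 = 0
  · subst hx0
    refine ⟨(f : (Fin m → E) → S0) ⁻¹' {0}, f.2.1.isClopen_fiber 0, hf, fun W' hW' hs => ?_⟩
    have h1 : cut ((fun x : Fin m → E => x) ⁻¹' W') (hW'.preimage continuous_id) f = 0 := by
      apply Sch.ext'
      intro x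
      by_cases hx : x ∈ W'
      · exact (cut_mem _ f (show x ∈ (fun x : Fin m → E => x) ⁻¹' W' from hx)).trans (hs hx)
      · exact cut_notMem _ f hx
    rw [h1]
    exact Submodule.zero_mem _
  · -- a character which is not `1` at `x0`
    obtain ⟨b, hb⟩ : ∃ b : Fin m → E, psE E ψ (b ⬝ᵥ x0) ≠ 1 := by
      by_contra! hcon
      apply psE_ne (E := E) hq hψ1
      obtain ⟨i, hi⟩ := Function.ne_iff.1 hx0
      ext y
      have h1 := hcon (Pi.single i (y / x0 i))
      rw [single_dotProduct, div_mul_cancel₀ _ hi] at h1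
      rw [h1]
      rfl
    have hlc : IsLocallyConstant fun x : Fin m → E => psE E ψ (b ⬝ᵥ x) := by
      have h1 : IsLocallyConstant fun x : Fin m → E => ((psE E ψ (b ⬝ᵥ x) : Circle) : ℂ) :=
        (Pool.Agent.SpehH.psi_locConst hΨ).comp_continuous (f := fun x : Fin m → E => b ⬝ᵥ x) (by
          unfold dotProduct
          fun_prop)
      rw [IsLocallyConstant.iff_eventually_eq] at h1 ⊢
      intro x
      filter_upwards [h1 x] with y hy using Circle.coe_inj.1 hy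
    obtain ⟨r, rfl⟩ := bJ_surjective (σ := σ) hJ b
    refine ⟨_, hlc.isClopen_fiber (psE E ψ (bJ σ J r ⬝ᵥ x0)), rfl, fun W' hW' hs => ?_⟩
    set g := cut ((fun x : Fin m → E => x) ⁻¹' W') (hW'.preimage continuous_id) f with hg
    have h1 : rhoA hq hψ ε J ρ0 (iot ε r 0 0) g =
        ((psE E ψ (bJ σ J r ⬝ᵥ x0) : Circle) : ℂ) • g := by
      apply Sch.ext'
      intro x
      rw [rhoA_apply, pR_iot, pV_iot, pS_iot, dotProduct_zero, neg_zero, zero_div, add_zero,
        h0.zero, sub_zero]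
      show _ = ((psE E ψ (bJ σ J r ⬝ᵥ x0) : Circle) : ℂ) • (g : (Fin m → E) → S0) x
      by_cases hx : x ∈ W'
      · have h2 : psE E ψ (bJ σ J r ⬝ᵥ x) = psE E ψ (bJ σ J r ⬝ᵥ x0) := hs hx
        rw [h2]
        rfl
      · have h2 : (g : (Fin m → E) → S0) x = 0 := cut_notMem _ f hx
        rw [h2, map_zero, smul_zero, smul_zero]
    have h2 := hL r g
    rw [h1, map_smul] at h2
    show L g = 0
    have h3 : (((psE E ψ (bJ σ J r ⬝ᵥ x0) : Circle) : ℂ) - 1) • L g = 0 := by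
      rw [sub_smul, h2, one_smul, sub_self]
    refine (smul_eq_zero.1 h3).resolve_left (sub_ne_zero.2 fun h4 => hb ?_)
    rwa [← Circle.coe_one, Circle.coe_inj] at h4

end model

end SpW.P1
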