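import Pool.Agent.Work.MP_3615d2_al.P1.Ev0a

/-!
MP_3615d2_al, Part 1, EV0: the evaluation `S → S0` at `0` and its equivariance up to a scalar.
-/

open scoped Matrix
open Filter Topology MeasureTheory

set_option linter.unusedSectionVars false

namespace SpW.P1

open Pool.Agent.SpehH

/-- `e : S → S0` is the map to the coinvariants of `R`. -/
structure IsEv {E : Type} [NontriviallyNormedField E] {m k N : ℕ}
    (ε : Fin m ⊕ (Fin k ⊕ Fin m) ≃ Fin N) {S S0 : Type} [AddCommGroup S] [Module ℂ S]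
    [AddCommGroup S0] [Module ℂ S0] (ρ : (Fin N → E) → Module.End ℂ S)
    (ρ0 : (Fin k → E) → Module.End ℂ S0) (e : S →ₗ[ℂ] S0) : Prop where
  surj : Function.Surjective e
  inv : ∀ r s, e (ρ (iot ε r 0 0) s) = e s
  heis : ∀ v s, e (ρ (iot ε 0 v 0) s) = ρ0 v (e s)
  ker : ∀ s, e s = 0 → s ∈ Submodule.span ℂ {y | ∃ r x, y = ρ (iot ε r 0 0) x - x}

section basic

variable {E : Type} [NontriviallyNormedField E] {m k N : ℕ}
  {ε : Fin m ⊕ (Fin k ⊕ Fin m) ≃ Fin N} {S S0 T' : Type} [AddCommGroup S] [Module ℂ S]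
  [AddCommGroup S0] [Module ℂ S0] [AddCommGroup T'] [Module ℂ T']
  {ρ : (Fin N → E) → Module.End ℂ S} {ρ0 : (Fin k → E) → Module.End ℂ S0} {e : S →ₗ[ℂ] S0}

theorem IsEv.ker_le (h : IsEv ε ρ ρ0 e) (L : S →ₗ[ℂ] T')
    (hL : ∀ r s, L (ρ (iot ε r 0 0) s) = L s) {s : S} (hs : e s = 0) : L s = 0 := by
  have h1 : Submodule.span ℂ {y | ∃ r x, y = ρ (iot ε r 0 0) x - x} ≤ LinearMap.ker L := by
    rw [Submodule.span_le]
    rintro _ ⟨r, x, rfl⟩
    rw [SetLike.mem_coe, LinearMap.mem_ker, map_sub, hL, sub_self]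
  exact h1 (h.ker s hs)

/-- Every `R`-invariant map factors through `e`. -/
theorem IsEv.factor (h : IsEv ε ρ ρ0 e) (L : S →ₗ[ℂ] T')
    (hL : ∀ r s, L (ρ (iot ε r 0 0) s) = L s) : ∃ L0 : S0 →ₗ[ℂ] T', ∀ s, L s = L0 (e s) := by
  have h1 : LinearMap.ker e ≤ LinearMap.ker L := fun s hs => h.ker_le L hL hs
  refine ⟨(LinearMap.ker e).liftQ L h1 ∘ₗ
    (e.quotKerEquivOfSurjective h.surj).symm.toLinearMap, fun s => ?_⟩
  have h2 : (e.quotKerEquivOfSurjective h.surj).symm (e s) = (LinearMap.ker e).mkQ s := by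
    rw [LinearEquiv.symm_apply_eq]
    rfl
  rw [LinearMap.comp_apply, LinearEquiv.coe_coe, h2]
  rfl

end basic

section ev

variable {F E : Type} [NontriviallyNormedField F] [IsUltrametricDist F] [ProperSpace F]
  [NontriviallyNormedField E] [NormedAlgebra F E] [IsUltrametricDist E] [ProperSpace E]
  {σ : E ≃ₐ[F] E} {δ : E} {d : F} {m k N : ℕ} {H : Matrix (Fin N) (Fin N) E}
  {J : Matrix (Fin m) (Fin m) E} {H0 : Matrix (Fin k) (Fin k) E}
  {ε : Fin m ⊕ (Fin k ⊕ Fin m) ≃ Fin N}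
  {ψ : AddChar F Circle} {S S0 : Type} [AddCommGroup S] [Module ℂ S] [AddCommGroup S0] [Module ℂ S0] {ρ : (Fin N → E) → Module.End ℂ S} {ρ0 : (Fin k → E) → Module.End ℂ S0}

/-- Evaluation at `0`. -/
def ev0 (m : ℕ) (E : Type) [NontriviallyNormedField E] (S0 : Type) [AddCommGroup S0]
    [Module ℂ S0] : Sch (Fin m → E) S0 →ₗ[ℂ] S0 where
  toFun f := (f : (Fin m → E) → S0) 0
  map_add' _ _ := rfl
  map_smul' _ _ := rfl

theorem ev0_apply (f : Sch (Fin m → E) S0) : ev0 m E S0 f = (f : (Fin m → E) → S0) 0 := rfl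

theorem ev0_surj : Function.Surjective (ev0 m E S0) := by
  classical
  intro v
  refine ⟨ind (Metric.closedBall (0 : Fin m → E) ‖(1 : E)‖) (isClopen_bl one_ne_zero 0)
    (isCompact_closedBall _ _) v, ?_⟩
  rw [ev0_apply, ind_mem _ _ _ (by rw [mem_bl_iff]; simp)]

/-- The evaluation at `0` in the model. -/
theorem ev_model (hq : QuadDatum σ δ d) (hψ : Continuous ψ) (hψ1 : ψ ≠ 1)
    (hS : IsSplit σ ε H J H0) (h0 : IsHeis ψ (symplB F σ H0) ρ0)
    (T : S ≃ₗ[ℂ] Sch (Fin m → E) S0) (hT : ∀ w s, T (ρ w s) = rhoA hq hψ ε J ρ0 w (T s)) :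
    IsEv ε ρ ρ0 (ev0 m E S0 ∘ₗ T.toLinearMap) where
  surj := ev0_surj.comp T.surjective
  inv r s := by
    show ((T (ρ (iot ε r 0 0) s) : Sch (Fin m → E) S0) : (Fin m → E) → S0) 0 =
      ((T s : Sch (Fin m → E) S0) : (Fin m → E) → S0) 0
    rw [hT, rhoA_apply, pR_iot, pV_iot, pS_iot, dotProduct_zero, neg_zero, zero_div, add_zero,
      h0.zero, sub_zero, AddChar.map_zero_eq_one, Circle.coe_one, one_smul]
    rfl
  heis v s := by
    show ((T (ρ (iot ε 0 v 0) s) : Sch (Fin m → E) S0) : (Fin m → E) → S0) 0 =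
      ρ0 v (((T s : Sch (Fin m → E) S0) : (Fin m → E) → S0) 0)
    rw [hT, rhoA_apply, pR_iot, pV_iot, pS_iot, dotProduct_zero, neg_zero,
      zero_div, add_zero, sub_zero, AddChar.map_zero_eq_one, Circle.coe_one, one_smul]
  ker s hs := by
    set Q := Submodule.span ℂ {y | ∃ r x, y = ρ (iot ε r 0 0) x - x} with hQ
    have h1 := model_factor (J := J) hq hψ hψ1 hS.det_ne h0 (Q.mkQ ∘ₗ T.symm.toLinearMap)
      (fun r f => by
        have h2 : T.symm (rhoA hq hψ ε J ρ0 (iot ε r 0 0) f) = ρ (iot ε r 0 0) (T.symm f) := by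
          rw [LinearEquiv.symm_apply_eq, hT, LinearEquiv.apply_symm_apply]
        show Q.mkQ (T.symm (rhoA hq hψ ε J ρ0 (iot ε r 0 0) f)) = Q.mkQ (T.symm f)
        rw [h2, ← sub_eq_zero, ← map_sub, Submodule.mkQ_apply, Submodule.Quotient.mk_eq_zero]
        exact Submodule.subset_span ⟨_, _, rfl⟩) (f := T s) hs
    have h3 : Q.mkQ s = 0 := by
      have h4 : Q.mkQ (T.symm (T s)) = 0 := h1
      rwa [LinearEquiv.symm_apply_apply] at h4
    rwa [Submodule.mkQ_apply, Submodule.Quotient.mk_eq_zero] at h3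

/-- Two maps with the equivariance of `e` are proportional. -/
theorem IsEv.uniq {e : S →ₗ[ℂ] S0} (he : IsEv ε ρ ρ0 e) (hq : QuadDatum σ δ d)
    (hψ : Continuous ψ) (hψ1 : ψ ≠ 1) (hH0 : IsSkew σ H0)
    (h0 : IsHeis ψ (symplB F σ H0) ρ0) (hi0 : IsIrr ρ0) (e' : S →ₗ[ℂ] S0)
    (h1 : ∀ r s, e' (ρ (iot ε r 0 0) s) = e' s)
    (h2 : ∀ v s, e' (ρ (iot ε 0 v 0) s) = ρ0 v (e' s)) : ∃ c : ℂ, ∀ s, e' s = c • e s := by
  have := hq.finite
  obtain ⟨φ, hφ⟩ := he.factor e' h1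
  obtain ⟨c, hc⟩ := schur hψ hψ1 (symplB_alt hq hH0) (symplB_nondeg hq hH0) hq.two h0 hi0
    (T := φ) (by
      intro w
      apply LinearMap.ext
      intro x
      obtain ⟨s, rfl⟩ := he.surj x
      show φ (ρ0 w (e s)) = ρ0 w (φ (e s))
      rw [← he.heis, ← hφ, ← hφ, h2])
  refine ⟨c, fun s => ?_⟩
  rw [hφ, hc]
  rfl

end ev

section par

variable {F E : Type} [Field F] [Field E] [Algebra F E] {σ : E ≃ₐ[F] E} {m k N : ℕ}
  {H : Matrix (Fin N) (Fin N) E} {H0 : Matrix (Fin k) (Fin k) E}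

/-- `g` preserves `R` and `R + V` and acts by `a` on `R` and by `u` on `V = (R + V) / R`. -/
structure IsPar (ε : Fin m ⊕ (Fin k ⊕ Fin m) ≃ Fin N) (g : unitary σ H) (a : GL (Fin m) E)
    (u : unitary σ H0) : Prop where
  r : ∀ r, (umat g).mulVec (iot ε r 0 0) = iot ε ((a : Matrix (Fin m) (Fin m) E).mulVec r) 0 0
  v : ∀ v, ∃ r, (umat g).mulVec (iot ε 0 v 0) = iot ε r ((umat u).mulVec v) 0

variable {ε : Fin m ⊕ (Fin k ⊕ Fin m) ≃ Fin N}

theorem IsPar.mul {g g' : unitary σ H} {a a' : GL (Fin m) E} {u u' : unitary σ H0}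
    (h : IsPar ε g a u) (h' : IsPar ε g' a' u') : IsPar ε (g * g') (a * a') (u * u') where
  r r := by
    rw [umat_mul, ← Matrix.mulVec_mulVec, h'.r, h.r, Units.val_mul, Matrix.mulVec_mulVec]
  v v := by
    obtain ⟨r', h1⟩ := h'.v v
    obtain ⟨r, h2⟩ := h.v ((umat u').mulVec v)
    refine ⟨(a : Matrix (Fin m) (Fin m) E).mulVec r' + r, ?_⟩
    have h3 : iot ε r' ((umat u').mulVec v) 0 = iot ε r' 0 0 + iot ε 0 ((umat u').mulVec v) 0 := by
      rw [iot_add, add_zero, zero_add, zero_add]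
    rw [umat_mul, ← Matrix.mulVec_mulVec, h1, h3, Matrix.mulVec_add, h.r, h2, iot_add, zero_add,
      zero_add, umat_mul, Matrix.mulVec_mulVec]

end par

section equiv

variable {F E : Type} [NontriviallyNormedField F] [IsUltrametricDist F] [ProperSpace F]
  [NontriviallyNormedField E] [NormedAlgebra F E] [IsUltrametricDist E] [ProperSpace E]
  [MeasurableSpace E] [BorelSpace E]
  {σ : E ≃ₐ[F] E} {δ : E} {d : F} {m k N : ℕ} {H : Matrix (Fin N) (Fin N) E}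
  {J : Matrix (Fin m) (Fin m) E} {H0 : Matrix (Fin k) (Fin k) E}
  {ε : Fin m ⊕ (Fin k ⊕ Fin m) ≃ Fin N}
  {ψ : AddChar F Circle} {μ : Eˣ →* ℂˣ} {S S0 : Type} [AddCommGroup S] [Module ℂ S]
  [AddCommGroup S0] [Module ℂ S0] {ρ : (Fin N → E) → Module.End ℂ S} {ρ0 : (Fin k → E) → Module.End ℂ S0}
  {ω : unitary σ H →* Module.End ℂ S} {ω0 : unitary σ H0 →* Module.End ℂ S0}

theorem sympl_RV (hS : IsSplit σ ε H J H0) (hq : QuadDatum σ δ d) (r : Fin m → E)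
    (r' : Fin m → E) (v : Fin k → E) :
    symplB F σ H (iot ε r 0 0) (iot ε r' v 0) = 0 := by
  rw [hS.sympl hq, pR_iot, pR_iot, pV_iot, pV_iot, pS_iot, pS_iot, dotProduct_zero,
    dotProduct_zero, map_zero, map_zero, LinearMap.zero_apply]
  simp

theorem rho_RV (hS : IsSplit σ ε H J H0) (hq : QuadDatum σ δ d)
    (h : IsHeis ψ (symplB F σ H) ρ) (r : Fin m → E) (v : Fin k → E) (s : S) :
    ρ (iot ε r v 0) s = ρ (iot ε r 0 0) (ρ (iot ε 0 v 0) s) := by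
  have h1 := congrArg (fun f : Module.End ℂ S => f s) (h.mul (iot ε r 0 0) (iot ε 0 v 0))
  simp only [Module.End.mul_apply, LinearMap.smul_apply] at h1
  rw [h1, sympl_RV hS hq, iot_add, add_zero, zero_add, zero_add, zero_div,
    AddChar.map_zero_eq_one, Circle.coe_one, one_smul]

theorem ev_om_inv (ω : unitary σ H →* Module.End ℂ S) (g : unitary σ H) (s : S) :
    ω g⁻¹ (ω g s) = s := by
  rw [← Module.End.mul_apply, ← map_mul, inv_mul_cancel, map_one, Module.End.one_apply]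

theorem ev_om_inv2 (ω : unitary σ H →* Module.End ℂ S) (g : unitary σ H) (s : S) :
    ω g (ω g⁻¹ s) = s := by
  rw [← Module.End.mul_apply, ← map_mul, mul_inv_cancel, map_one, Module.End.one_apply]

theorem ev_om_rho (hW : IsWeil σ H ψ μ ρ ω) (g : unitary σ H) (w : Fin N → E) (s : S) :
    ω g (ρ w s) = ρ ((umat g).mulVec w) (ω g s) :=
  congrArg (fun f : Module.End ℂ S => f s) (hW.om_rho g w)

/-- The equivariance up to a scalar. -/
theorem IsEv.exists_c {e : S →ₗ[ℂ] S0} (he : IsEv ε ρ ρ0 e) (hq : QuadDatum σ δ d)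
    (hψ : Continuous ψ) (hψ1 : ψ ≠ 1) (hS : IsSplit σ ε H J H0) (hH0 : IsSkew σ H0)
    (hW : IsWeil σ H ψ μ ρ ω)
    (hW0 : IsWeil σ H0 ψ μ ρ0 ω0) {g : unitary σ H} {a : GL (Fin m) E} {u : unitary σ H0}
    (hg : IsPar ε g a u) : ∃ c : ℂ, ∀ s, e (ω g s) = c • ω0 u (e s) := by
  obtain ⟨c, hc⟩ := he.uniq hq hψ hψ1 hH0 hW0.isHeis hW0.isIrr (ω0 u⁻¹ ∘ₗ e ∘ₗ ω g)
    (fun r s => by
      show ω0 u⁻¹ (e (ω g (ρ (iot ε r 0 0) s))) = ω0 u⁻¹ (e (ω g s))
      rw [ev_om_rho hW, hg.r, he.inv])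
    (fun v s => by
      obtain ⟨r, hr⟩ := hg.v v
      show ω0 u⁻¹ (e (ω g (ρ (iot ε 0 v 0) s))) = ρ0 v (ω0 u⁻¹ (e (ω g s)))
      rw [ev_om_rho hW, hr, rho_RV hS hq hW.isHeis, he.inv, he.heis]
      have h1 := ev_om_rho hW0 u v (ω0 u⁻¹ (e (ω g s)))
      rw [ev_om_inv2] at h1
      rw [← h1, ev_om_inv])
  refine ⟨c, fun s => ?_⟩
  have h1 := congrArg (ω0 u) (hc s)
  rw [map_smul] at h1
  rw [← h1]
  exact (ev_om_inv2 ω0 u _).symm

end equiv

end SpW.P1
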