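import Pool.Agent.Work.MP_3615d2_al.P1.Ev0b

/-!
MP_3615d2_al, Part 1, EV0: the determinant of `g - 1` on the parabolic.
-/

open scoped Matrix

set_option linter.unusedSectionVars false

namespace SpW.P1

section single

variable {E : Type} [Field E] {m k N : ℕ} (ε : Fin m ⊕ (Fin k ⊕ Fin m) ≃ Fin N)

theorem iot_single_r (j : Fin m) :
    iot ε (Pi.single j (1 : E)) 0 0 = Pi.single (ε (Sum.inl j)) 1 := by
  funext i
  obtain ⟨x, rfl⟩ := ε.surjective i
  rcases x with x | x | x
  · by_cases h : x = j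
    · subst h
      simp [iot]
    · simp [iot, Pi.single_apply, h]
  · rw [Pi.single_eq_of_ne (by simp)]
    simp [iot]
  · rw [Pi.single_eq_of_ne (by simp)]
    simp [iot]

theorem iot_single_v (j : Fin k) :
    iot ε 0 (Pi.single j (1 : E)) 0 = Pi.single (ε (Sum.inr (Sum.inl j))) 1 := by
  funext i
  obtain ⟨x, rfl⟩ := ε.surjective i
  rcases x with x | x | x
  · rw [Pi.single_eq_of_ne (by simp)]
    simp [iot]
  · by_cases h : x = j
    · subst h
      simp [iot]
    · simp [iot, Pi.single_apply, h]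
  · rw [Pi.single_eq_of_ne (by simp)]
    simp [iot]

theorem iot_single_s (j : Fin m) :
    iot ε 0 0 (Pi.single j (1 : E)) = Pi.single (ε (Sum.inr (Sum.inr j))) 1 := by
  funext i
  obtain ⟨x, rfl⟩ := ε.surjective i
  rcases x with x | x | x
  · rw [Pi.single_eq_of_ne (by simp)]
    simp [iot]
  · rw [Pi.single_eq_of_ne (by simp)]
    simp [iot]
  · by_cases h : x = j
    · subst h
      simp [iot]
    · simp [iot, Pi.single_apply, h]

end single

section det

variable {F E : Type} [Field F] [Field E] [Algebra F E] {σ : E ≃ₐ[F] E} {δ : E} {d : F}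
  {m k N : ℕ} {H : Matrix (Fin N) (Fin N) E} {J : Matrix (Fin m) (Fin m) E}
  {H0 : Matrix (Fin k) (Fin k) E} {ε : Fin m ⊕ (Fin k ⊕ Fin m) ≃ Fin N}

/-- The block of `g` on `R'`. -/
def bS (ε : Fin m ⊕ (Fin k ⊕ Fin m) ≃ Fin N) (G : Matrix (Fin N) (Fin N) E) :
    Matrix (Fin m) (Fin m) E :=
  fun i j => G (ε (Sum.inr (Sum.inr i))) (ε (Sum.inr (Sum.inr j)))

theorem pS_single (G : Matrix (Fin N) (Fin N) E) (j : Fin m) :
    pS ε (G.mulVec (iot ε 0 0 (Pi.single j (1 : E)))) = fun i => bS ε G i j := by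
  funext i
  rw [iot_single_s, Matrix.mulVec_single_one]
  rfl

theorem IsPar.blocks {g : unitary σ H} {a : GL (Fin m) E} {u : unitary σ H0}
    (h : IsPar ε g a u) :
    ∃ (B : Matrix (Fin m) (Fin k ⊕ Fin m) E) (C : Matrix (Fin k) (Fin m) E),
      (umat g).submatrix ε ε = Matrix.fromBlocks (a : Matrix (Fin m) (Fin m) E) B 0
        (Matrix.fromBlocks (umat u) C 0 (bS ε (umat g))) := by
  refine ⟨fun i x => umat g (ε (Sum.inl i)) (ε (Sum.inr x)),
    fun i j => umat g (ε (Sum.inr (Sum.inl i))) (ε (Sum.inr (Sum.inr j))), ?_⟩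
  have h1 : ∀ x j, umat g (ε x) (ε (Sum.inl j)) =
      iot ε ((a : Matrix (Fin m) (Fin m) E).mulVec (Pi.single j 1)) 0 0 (ε x) := by
    intro x j
    rw [← h.r, iot_single_r, Matrix.mulVec_single_one]
    rfl
  have h2 : ∀ j, ∃ r, ∀ x, umat g (ε x) (ε (Sum.inr (Sum.inl j))) =
      iot ε r ((umat u).mulVec (Pi.single j 1)) 0 (ε x) := by
    intro j
    obtain ⟨r, hr⟩ := h.v (Pi.single j 1)
    refine ⟨r, fun x => ?_⟩
    rw [← hr, iot_single_v, Matrix.mulVec_single_one]
    rfl
  ext x y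
  rcases y with j | j | j
  · rw [Matrix.submatrix_apply, h1]
    rcases x with i | i | i <;> simp [iot]
  · obtain ⟨r, hr⟩ := h2 j
    rcases x with i | i | i
    · rfl
    · rw [Matrix.submatrix_apply, hr]
      simp [iot]
    · rw [Matrix.submatrix_apply, hr]
      simp [iot]
  · rcases x with i | i | i <;> rfl

theorem IsPar.det {g : unitary σ H} {a : GL (Fin m) E} {u : unitary σ H0}
    (h : IsPar ε g a u) : (umat g - 1).det =
      ((a : Matrix (Fin m) (Fin m) E) - 1).det * ((umat u - 1).det * (bS ε (umat g) - 1).det) := by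
  obtain ⟨B, C, h1⟩ := h.blocks
  rw [← Matrix.det_submatrix_equiv_self ε, Matrix.submatrix_sub]
  show ((umat g).submatrix ε ε - (1 : Matrix (Fin N) (Fin N) E).submatrix ε ε).det = _
  have hsub : ∀ {p q : Type} (A A' : Matrix p p E) (B B' : Matrix p q E) (C C' : Matrix q p E)
      (D D' : Matrix q q E), Matrix.fromBlocks A B C D - Matrix.fromBlocks A' B' C' D' =
        Matrix.fromBlocks (A - A') (B - B') (C - C') (D - D') := by
    intro p q A A' B B' C C' D D'
    rw [sub_eq_add_neg, Matrix.fromBlocks_neg, Matrix.fromBlocks_add, ← sub_eq_add_neg,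
      ← sub_eq_add_neg, ← sub_eq_add_neg, ← sub_eq_add_neg]
  rw [Matrix.submatrix_one_equiv, h1, ← Matrix.fromBlocks_one, hsub,
    ← Matrix.fromBlocks_one (l := Fin k) (m := Fin m), hsub]
  simp only [sub_zero]
  rw [Matrix.det_fromBlocks_zero₂₁, Matrix.det_fromBlocks_zero₂₁]

theorem IsPar.dual (hS : IsSplit σ ε H J H0) {g : unitary σ H} {a : GL (Fin m) E}
    {u : unitary σ H0} (h : IsPar ε g a u) :
    (a : Matrix (Fin m) (Fin m) E)ᵀ * J * (bS ε (umat g)).map σ = J := by
  have h0 : ∀ (A B : Matrix (Fin m) (Fin m) E) i j, sk σ J (A.mulVec (Pi.single i 1))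
      (fun x => B x j) = (Aᵀ * J * B.map σ) i j := by
    intro A B i j
    rw [skJ_eq_dot, Matrix.mulVec_single_one, Matrix.mul_apply]
    rfl
  ext i j
  have h1 := sk_unitary (σ := σ) g (iot ε (Pi.single i 1) 0 0) (iot ε 0 0 (Pi.single j 1))
  have h2 := iot_p ε ((umat g).mulVec (iot ε 0 0 (Pi.single j (1 : E))))
  rw [h.r, ← h2, hS.form, hS.form, pS_single] at h1
  have h3 : ∀ x, sk σ H0 0 x = 0 := fun x => by simp [sk]
  have h4 : ∀ x : Fin m → E, sk σ J x 0 = 0 := fun x => by simp [sk]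
  have h5 : ∀ x : Fin m → E, sk σ J 0 x = 0 := fun x => by simp [sk]
  rw [h3, h3, h4, h5, map_zero, h0] at h1
  rw [add_zero, sub_zero, add_zero, sub_zero] at h1
  rw [h1]
  have h6 := h0 1 1 i j
  rw [Matrix.one_mulVec] at h6
  have h7 : (fun x => (1 : Matrix (Fin m) (Fin m) E) x j) = Pi.single j 1 := by
    funext x
    rw [Matrix.one_apply, Pi.single_apply]
  rw [h7] at h6
  rw [h6]
  simp

/-- The determinant of `g - 1`. -/
theorem IsPar.det_eq (hq : QuadDatum σ δ d) (hS : IsSplit σ ε H J H0) {g : unitary σ H}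
    {a : GL (Fin m) E} {u : unitary σ H0} (h : IsPar ε g a u) :
    (umat g - 1).det * σ (a : Matrix (Fin m) (Fin m) E).det =
      (umat u - 1).det * (((a : Matrix (Fin m) (Fin m) E) - 1).det *
        σ ((a : Matrix (Fin m) (Fin m) E) - 1).det) * (-1) ^ m := by
  set A : Matrix (Fin m) (Fin m) E := (a : Matrix (Fin m) (Fin m) E) with hA
  have h1 := h.dual hS
  have h2 : Aᵀ * J * ((bS ε (umat g) - 1).map σ) = -((A - 1)ᵀ * J) := by
    have h3 : (bS ε (umat g) - 1).map σ = (bS ε (umat g)).map σ - 1 := by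
      ext i j
      by_cases hij : i = j
      · subst hij
        simp
      · simp [Matrix.one_apply_ne hij]
    rw [h3, Matrix.mul_sub, h1, Matrix.mul_one, Matrix.transpose_sub, Matrix.transpose_one,
      Matrix.sub_mul, Matrix.one_mul, neg_sub]
  have h4 := congrArg Matrix.det h2
  have h5 : ((bS ε (umat g) - 1).map σ).det = σ (bS ε (umat g) - 1).det :=
    (AlgHom.map_det (σ : E →ₐ[F] E) (bS ε (umat g) - 1)).symm
  rw [Matrix.det_mul, Matrix.det_mul, Matrix.det_transpose, Matrix.det_neg, Matrix.det_mul,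
    Matrix.det_transpose, h5, Fintype.card_fin] at h4
  have h6 : A.det * σ (bS ε (umat g) - 1).det = (-1) ^ m * (A - 1).det := by
    have := hS.det_ne
    apply mul_right_cancel₀ this
    linear_combination h4
  have h7 := congrArg σ h6
  rw [map_mul, map_mul, map_pow, map_neg, map_one, sig_sig hq] at h7
  rw [h.det]
  linear_combination ((A - 1).det * (umat u - 1).det) * h7

end det

end SpW.P1
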