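import Pool.Agent.Work.MP_3615d2_al.P1.Ev0c
import Pool.Agent.Work.MP_3615d2_al.A9P
import Pool.Agent.Work.MP_3615d2_al.A9C
import Pool.Agent.Work.MP_3615d2_al.DefsB

/-!
MP_3615d2_al, Part 1, EV0: the scalar of the parabolic on the evaluation at `0`.
-/

open scoped Matrix NNReal
open Filter Topology MeasureTheory

set_option linter.unusedSectionVars false

namespace SpW.P1

open Pool.Agent.SpehH

section idat

variable {F E : Type} [NontriviallyNormedField F] [IsUltrametricDist F] [ProperSpace F]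
  [NontriviallyNormedField E] [NormedAlgebra F E] [IsUltrametricDist E] [ProperSpace E]
  {σ : E ≃ₐ[F] E} {δ : E} {d : F} {m k N n : ℕ} {H : Matrix (Fin N) (Fin N) E}
  {J : Matrix (Fin m) (Fin m) E} {H0 : Matrix (Fin k) (Fin k) E}
  {ε : Fin m ⊕ (Fin k ⊕ Fin m) ≃ Fin N}

/-- `r ↦ (r, 0, 0)` -/
def ioR (F : Type) {E : Type} [Field F] [Field E] [Algebra F E] {m k N : ℕ}
    (ε : Fin m ⊕ (Fin k ⊕ Fin m) ≃ Fin N) : (Fin m → E) →ₗ[F] (Fin N → E) where
  toFun r := iot ε r 0 0
  map_add' r r' := by rw [iot_add, add_zero, add_zero]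
  map_smul' a r := by rw [RingHom.id_apply, iot_smul, smul_zero, smul_zero]

/-- `v ↦ (0, v, 0)` -/
def ioV (F : Type) {E : Type} [Field F] [Field E] [Algebra F E] {m k N : ℕ}
    (ε : Fin m ⊕ (Fin k ⊕ Fin m) ≃ Fin N) : (Fin k → E) →ₗ[F] (Fin N → E) where
  toFun v := iot ε 0 v 0
  map_add' r r' := by rw [iot_add, add_zero]
  map_smul' a r := by rw [RingHom.id_apply, iot_smul, smul_zero]

/-- `s ↦ (0, 0, s)` -/
def ioS (F : Type) {E : Type} [Field F] [Field E] [Algebra F E] {m k N : ℕ}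
    (ε : Fin m ⊕ (Fin k ⊕ Fin m) ≃ Fin N) : (Fin m → E) →ₗ[F] (Fin N → E) where
  toFun s := iot ε 0 0 s
  map_add' r r' := by rw [iot_add, add_zero, add_zero]
  map_smul' a r := by rw [RingHom.id_apply, iot_smul, smul_zero, smul_zero]

/-- The pairing of `R'` with the basis `b` of `R`. -/
noncomputable def prS (σ : E ≃ₐ[F] E) (J : Matrix (Fin m) (Fin m) E)
    (b : Module.Basis (Fin n) F (Fin m → E)) : (Fin m → E) →ₗ[F] (Fin n → F) where
  toFun s := fun i => -Algebra.trace F E (bJ σ J (b i) ⬝ᵥ s)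
  map_add' s s' := by
    funext i
    rw [dotProduct_add, map_add, neg_add]
    rfl
  map_smul' a s := by
    funext i
    rw [dotProduct_smul, map_smul, RingHom.id_apply, Pi.smul_apply, smul_neg]

theorem prS_inj (hq : QuadDatum σ δ d) (hJ : J.det ≠ 0)
    (b : Module.Basis (Fin n) F (Fin m → E)) : Function.Injective (prS σ J b) := by
  rw [injective_iff_map_eq_zero]
  intro s hs
  have h1 : ∀ r, Algebra.trace F E (bJ σ J r ⬝ᵥ s) = 0 := by
    intro r
    let L : (Fin m → E) →ₗ[F] F :=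
      { toFun := fun r => Algebra.trace F E (bJ σ J r ⬝ᵥ s)
        map_add' := fun r r' => by rw [map_add, add_dotProduct, map_add]
        map_smul' := fun a r => by rw [map_smul, smul_dotProduct, map_smul, RingHom.id_apply] }
    have h2 : L = 0 := b.ext fun i => by
      have h3 := congrFun hs i
      have h4 : -Algebra.trace F E (bJ σ J (b i) ⬝ᵥ s) = 0 := h3
      rwa [neg_eq_zero] at h4
    exact LinearMap.congr_fun h2 r
  funext i
  by_contra hi
  have hi' : s i ≠ 0 := hi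
  obtain ⟨r, hr⟩ := bJ_surjective (σ := σ) hJ (Pi.single i (s i)⁻¹)
  have h2 := h1 r
  rw [hr, single_dotProduct, inv_mul_cancel₀ hi', ← map_one (algebraMap F E),
    Algebra.trace_algebraMap, hq.rank] at h2
  have := hq.two
  apply this
  simpa using h2

theorem idat (hq : QuadDatum σ δ d) (hH : IsSkew σ H) (hS : IsSplit σ ε H J H0)
    (b : Module.Basis (Fin n) F (Fin m → E)) (D : (Fin m → E) ≃ₗ[F] (Fin n → F))
    (hD : ∀ s, D s = prS σ J b s) :
    LemI.IDat (symplB F σ H) (fun i => iot ε (b i) 0 0) (ioV F ε)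
      (ioS F ε ∘ₗ D.symm.toLinearMap) where
  alt x := sympl_self hq hH x
  nd w hw := sympl_nondeg hq hH hw
  bij := by
    have h1 : ∀ a : Fin n → F, ∑ i, a i • iot ε (b i) 0 0 = iot ε (∑ i, a i • b i) 0 0 := by
      intro a
      have h2 := map_sum (ioR F ε) (fun i => a i • b i) Finset.univ
      simp only [map_smul] at h2
      exact h2.symm
    have h2 : ∀ p : ((Fin k → E) × (Fin n → F)) × (Fin n → F),
        ioV F ε p.1.1 + (ioS F ε ∘ₗ D.symm.toLinearMap) p.1.2 +
          ∑ i, p.2 i • iot ε (b i) 0 0 =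
        iot ε (b.equivFun.symm p.2) p.1.1 (D.symm p.1.2) := by
      intro p
      rw [h1, b.equivFun_symm_apply]
      show iot ε 0 p.1.1 0 + iot ε 0 0 (D.symm p.1.2) + _ = _
      rw [iot_add, iot_add]
      simp
    constructor
    · intro p p' h
      simp only [h2] at h
      obtain ⟨e1, e2, e3⟩ := iot_inj ε h
      exact Prod.ext (Prod.ext e2 (D.symm.injective e3)) (b.equivFun.symm.injective e1)
    · intro w
      refine ⟨((pV ε w, D (pS ε w)), b.equivFun (pR ε w)), ?_⟩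
      refine (h2 _).trans ?_
      rw [LinearEquiv.symm_apply_apply, LinearEquiv.symm_apply_apply, iot_p]
  io_y z i := by
    show symplB F σ H (iot ε 0 z 0) (iot ε (b i) 0 0) = 0
    rw [hS.sympl hq, pR_iot, pV_iot, pV_iot, pS_iot, pS_iot, map_zero, map_zero, zero_dotProduct,
      dotProduct_zero, map_zero, add_zero, sub_zero]
  s_y q i := by
    show symplB F σ H (iot ε 0 0 (D.symm q)) (iot ε (b i) 0 0) = q i
    rw [hS.sympl hq]
    simp only [pR_iot, pV_iot, pS_iot, map_zero, zero_dotProduct, LinearMap.zero_apply, zero_add,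
      zero_sub]
    have h1 := congrFun (hD (D.symm q)) i
    rw [LinearEquiv.apply_symm_apply] at h1
    exact h1.symm

end idat

section cayley

variable {F E : Type} [NontriviallyNormedField F]
  [NontriviallyNormedField E] [NormedAlgebra F E]
  {σ : E ≃ₐ[F] E} {δ : E} {d : F} {m k N n : ℕ} {H : Matrix (Fin N) (Fin N) E}
  {J : Matrix (Fin m) (Fin m) E} {H0 : Matrix (Fin k) (Fin k) E}
  {ε : Fin m ⊕ (Fin k ⊕ Fin m) ≃ Fin N}

/-- `-2 (a - 1)⁻¹` -/
noncomputable def Zm (a : GL (Fin m) E) : Matrix (Fin m) (Fin m) E :=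
  (-2 : E) • ((a : Matrix (Fin m) (Fin m) E) - 1)⁻¹

theorem Zm_det (a : GL (Fin m) E) :
    (Zm a).det = (-2) ^ m * (((a : Matrix (Fin m) (Fin m) E) - 1).det)⁻¹ := by
  rw [Zm, Matrix.det_smul, Fintype.card_fin, Matrix.det_nonsing_inv, Ring.inverse_eq_inv']

theorem inv_mulVec {A : Matrix (Fin n) (Fin n) E} (hA : A.det ≠ 0) (r : Fin n → E) :
    A.mulVec (A⁻¹.mulVec r) = r := by
  rw [Matrix.mulVec_mulVec, Matrix.mul_nonsing_inv _ (isUnit_iff_ne_zero.2 hA), Matrix.one_mulVec]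

theorem cayley_R {g : unitary σ H} {a : GL (Fin m) E} {u : unitary σ H0}
    (h : IsPar ε g a u) (hg : IsUnit (umat g - 1))
    (ha : ((a : Matrix (Fin m) (Fin m) E) - 1).det ≠ 0) (r : Fin m → E) :
    (cayley (umat g)).mulVec (iot ε r 0 0) = iot ε (r - (Zm a).mulVec r) 0 0 := by
  set A := (a : Matrix (Fin m) (Fin m) E) with hA
  set r' := (A - 1)⁻¹.mulVec r with hr'
  have h1 : (A - 1).mulVec r' = r := inv_mulVec ha r
  have h2 : (umat g - 1).mulVec (iot ε r' 0 0) = iot ε r 0 0 := by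
    rw [Matrix.sub_mulVec, Matrix.one_mulVec, h.r, sub_eq_iff_eq_add, iot_add, add_zero, add_zero]
    congr 1
    rw [← h1, Matrix.sub_mulVec, Matrix.one_mulVec, sub_add_cancel]
  rw [← h2, Matrix.mulVec_mulVec, cayley_mul hg, Matrix.add_mulVec, Matrix.one_mulVec, h.r,
    iot_add, add_zero, add_zero]
  congr 1
  have h3 : (Zm a).mulVec r = (-2 : E) • r' := by
    rw [Zm, Matrix.smul_mulVec]
  rw [h3]
  conv_rhs => rw [← h1]
  rw [Matrix.sub_mulVec, Matrix.one_mulVec, neg_smul, two_smul]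
  abel

theorem cayley_V {g : unitary σ H} {a : GL (Fin m) E} {u : unitary σ H0}
    (h : IsPar ε g a u) (hg : IsUnit (umat g - 1))
    (ha : ((a : Matrix (Fin m) (Fin m) E) - 1).det ≠ 0) (hu : IsUnit (umat u - 1))
    (z : Fin k → E) : ∃ r, (cayley (umat g)).mulVec (iot ε 0 z 0) =
      iot ε r ((cayley (umat u)).mulVec z) 0 := by
  set z' := (umat u - 1)⁻¹.mulVec z with hz'
  have h1 : (umat u - 1).mulVec z' = z :=
    inv_mulVec ((Matrix.isUnit_iff_isUnit_det _).1 hu).ne_zero z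
  obtain ⟨r1, hr1⟩ := h.v z'
  have h2 : (umat g - 1).mulVec (iot ε 0 z' 0) = iot ε r1 z 0 := by
    rw [Matrix.sub_mulVec, Matrix.one_mulVec, hr1, sub_eq_iff_eq_add, iot_add, add_zero, add_zero]
    congr 1
    rw [← h1, Matrix.sub_mulVec, Matrix.one_mulVec, sub_add_cancel]
  have h3 : (cayley (umat g)).mulVec (iot ε r1 z 0) = iot ε r1 ((cayley (umat u)).mulVec z) 0 := by
    rw [← h2, Matrix.mulVec_mulVec, cayley_mul hg, Matrix.add_mulVec, Matrix.one_mulVec, hr1,
      iot_add, add_zero, add_zero]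
    have h5 : (cayley (umat u)).mulVec z = (umat u).mulVec z' + z' := by
      have h6 := congrArg (fun M : Matrix (Fin k) (Fin k) E => M.mulVec z') (cayley_mul hu)
      simp only [← Matrix.mulVec_mulVec] at h6
      rwa [h1, Matrix.add_mulVec, Matrix.one_mulVec] at h6
    rw [h5]
  have h4 : iot ε 0 z 0 = iot ε r1 z 0 + iot ε (-r1) 0 0 := by
    rw [iot_add, add_neg_cancel, add_zero, add_zero]
  refine ⟨r1 + (-r1 - (Zm a).mulVec (-r1)), ?_⟩
  rw [h4, Matrix.mulVec_add, h3, cayley_R h hg ha, iot_add, add_zero, add_zero]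

end cayley

end SpW.P1
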