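import Pool.Agent.Work.MP_3615d2_al.P1.Ev0d

/-!
MP_3615d2_al, Part 1, EV0: the scalar of the parabolic on the evaluation at `0` (Lemma I).
-/

open scoped Matrix NNReal
open Filter Topology MeasureTheory Metric

set_option linter.unusedSectionVars false

namespace SpW.P1

open Pool.Agent.SpehH LemI

section transp

variable {F E : Type} [NontriviallyNormedField F] [IsUltrametricDist F] [ProperSpace F]
  [NontriviallyNormedField E] [NormedAlgebra F E] [IsUltrametricDist E] [ProperSpace E]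
  {σ : E ≃ₐ[F] E} {δ : E} {d : F} {m k N n : ℕ} {H : Matrix (Fin N) (Fin N) E}
  {J : Matrix (Fin m) (Fin m) E} {H0 : Matrix (Fin k) (Fin k) E}
  {ε : Fin m ⊕ (Fin k ⊕ Fin m) ≃ Fin N}

/-- The transpose of `-2 (a - 1)⁻¹` over `F`. -/
theorem exists_T (hq : QuadDatum σ δ d) (b : Module.Basis (Fin n) F (Fin m → E))
    (a : GL (Fin m) E) (ha : ((a : Matrix (Fin m) (Fin m) E) - 1).det ≠ 0) :
    ∃ T : (Fin n → F) ≃ₗ[F] (Fin n → F),
      LinearMap.det (T : (Fin n → F) →ₗ[F] (Fin n → F)) = Algebra.norm F (Zm a).det ∧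
      ∀ (L : (Fin m → E) →ₗ[F] F) i, L ((Zm a).mulVec (b i)) = T (fun j => L (b j)) i := by
  have := hq.finite
  set ZF : (Fin m → E) →ₗ[F] (Fin m → E) := (Matrix.toLin' (Zm a)).restrictScalars F with hZF
  have hdet : LinearMap.det ZF = Algebra.norm F (Zm a).det := by
    rw [hZF, LinearMap.det_restrictScalars, LinearMap.det_toLin']
  have hne : (Zm a).det ≠ 0 := by
    rw [Zm_det]
    exact mul_ne_zero (pow_ne_zero _ (neg_ne_zero.2 hq.two_E)) (inv_ne_zero ha)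
  let M : Matrix (Fin n) (Fin n) F := (LinearMap.toMatrix b b ZF)ᵀ
  have hM : LinearMap.det (Matrix.toLin' M) = Algebra.norm F (Zm a).det := by
    rw [LinearMap.det_toLin', Matrix.det_transpose, LinearMap.det_toMatrix, hdet]
  have hM0 : IsUnit (LinearMap.toMatrix (Pi.basisFun F (Fin n)) (Pi.basisFun F (Fin n))
      (Matrix.toLin' M)).det := by
    rw [LinearMap.det_toMatrix, hM]
    exact isUnit_iff_ne_zero.2 (Algebra.norm_ne_zero_iff.2 hne)
  refine ⟨LinearEquiv.ofIsUnitDet hM0, ?_, fun L i => ?_⟩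
  · rw [LinearEquiv.coe_ofIsUnitDet, hM]
  · have h1 : (Zm a).mulVec (b i) = ∑ j, (LinearMap.toMatrix b b ZF j i) • b j := by
      have h2 : ZF (b i) = (Zm a).mulVec (b i) := rfl
      rw [← h2]
      conv_lhs => rw [← b.sum_repr (ZF (b i))]
      refine Finset.sum_congr rfl fun j _ => ?_
      rw [LinearMap.toMatrix_apply]
    rw [h1, map_sum]
    show _ = (M.mulVec fun j => L (b j)) i
    rw [Matrix.mulVec, dotProduct]
    refine Finset.sum_congr rfl fun j _ => ?_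
    rw [map_smul, smul_eq_mul]
    rfl

end transp

section scal

variable {F E : Type} [NontriviallyNormedField F] [IsUltrametricDist F] [ProperSpace F]
  [NontriviallyNormedField E] [NormedAlgebra F E] [IsUltrametricDist E] [ProperSpace E]
  [MeasurableSpace E] [BorelSpace E]
  {σ : E ≃ₐ[F] E} {δ : E} {d : F} {m : ℕ} {μ : Eˣ →* ℂˣ}

/-- `μ(det a) |det a|^{1/2}` -/
noncomputable def chiA (μ : Eˣ →* ℂˣ) (a : GL (Fin m) E) : ℂ :=
  ((μ (Matrix.GeneralLinearGroup.det a) : ℂˣ) : ℂ) * ((ad a ^ (1 / 2 : ℝ) : ℝ) : ℂ)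

theorem chiA_ne (μ : Eˣ →* ℂˣ) (a : GL (Fin m) E) : chiA μ a ≠ 0 := by
  refine mul_ne_zero (Units.ne_zero _) ?_
  exact_mod_cast (Real.rpow_pos_of_pos (ad_pos a) _).ne'

theorem chiA_mul (μ : Eˣ →* ℂˣ) (a b : GL (Fin m) E) :
    chiA μ (a * b) = chiA μ a * chiA μ b := by
  unfold chiA
  rw [map_mul, map_mul, Units.val_mul, ad_mul, Real.mul_rpow (ad_pos a).le (ad_pos b).le,
    Complex.ofReal_mul]
  ring

theorem aE_norm (hq : QuadDatum σ δ d) (hμ : ConjSymplectic F μ) (x : Eˣ) :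
    aE μ (x * Units.map (σ : E →* E) x) = (((md (x : E) : ℝ≥0) : ℝ) : ℂ)⁻¹ := by
  have := hq.finite
  have h1 : algebraMap F E (Algebra.norm F (x : E)) =
      ((x * Units.map (σ : E →* E) x : Eˣ) : E) := hq.norm_eq _
  rw [aE_alg hq μ _ _ h1, omF_norm hμ (Algebra.norm_ne_zero_iff.2 x.ne_zero) ⟨_, rfl⟩,
    one_mul, ← md_norm]

theorem chiA_sigma (hq : QuadDatum σ δ d) (hμ : ConjSymplectic F μ) (a : GL (Fin m) E) :
    aE μ (Units.map (σ : E →* E) (Matrix.GeneralLinearGroup.det a)) * chiA μ a = 1 := by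
  set y := Matrix.GeneralLinearGroup.det a with hy
  have h1 := aE_norm hq hμ y
  rw [aE_mul] at h1
  have h2 : chiA μ a = aE μ y * (((md (y : E) : ℝ≥0) : ℝ) : ℂ) := by
    unfold chiA ad aE
    rw [mul_assoc, ← Complex.ofReal_mul]
    congr 2
    rw [← hy, ← aE_abs_md]
    have h3 := aE_abs_pos y
    conv_rhs => rw [← Real.rpow_one (absE y)]
    rw [Real.rpow_one, ← Real.rpow_add_one h3.ne']
    norm_num
  rw [h2, ← mul_assoc, mul_comm (aE μ _) (aE μ y), h1]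
  exact inv_mul_cancel₀ (by exact_mod_cast (md_pos y.ne_zero).ne')

end scal

section main

variable {F E : Type} [NontriviallyNormedField F] [IsUltrametricDist F] [ProperSpace F]
  [NontriviallyNormedField E] [NormedAlgebra F E] [IsUltrametricDist E] [ProperSpace E]
  [MeasurableSpace E] [BorelSpace E]
  {σ : E ≃ₐ[F] E} {δ : E} {d : F} {m k N : ℕ} {H : Matrix (Fin N) (Fin N) E}
  {J : Matrix (Fin m) (Fin m) E} {H0 : Matrix (Fin k) (Fin k) E}
  {ε : Fin m ⊕ (Fin k ⊕ Fin m) ≃ Fin N}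
  {ψ : AddChar F Circle} {μ : Eˣ →* ℂˣ} {S S0 : Type} [AddCommGroup S] [Module ℂ S]
  [AddCommGroup S0] [Module ℂ S0] {ρ : (Fin N → E) → Module.End ℂ S}
  {ρ0 : (Fin k → E) → Module.End ℂ S0}
  {ω : unitary σ H →* Module.End ℂ S} {ω0 : unitary σ H0 →* Module.End ℂ S0}

/-- The scalar on the regular elements of the parabolic. -/
theorem ev_reg (hq : QuadDatum σ δ d) (hψ : Continuous ψ) (hψ1 : ψ ≠ 1)
    (hμ : ConjSymplectic F μ) (hH : IsSkew σ H) (hS : IsSplit σ ε H J H0)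
    (hW : IsWeil σ H ψ μ ρ ω) (hW0 : IsWeil σ H0 ψ μ ρ0 ω0) {e : S →ₗ[ℂ] S0}
    (he : IsEv ε ρ ρ0 e) : ∃ K : ℂ, K ≠ 0 ∧ ∀ (g : unitary σ H) (a : GL (Fin m) E)
      (u : unitary σ H0), IsPar ε g a u → (umat g - 1).det ≠ 0 →
      ∀ s, e (ω g s) = (K * chiA μ a) • ω0 u (e s) := by
  have iE : FiniteDimensional F E := hq.finite
  obtain ⟨κ, hκ⟩ := hW.normalised
  have hκn : κ ≠ 0 := kappa_ne hq hW κ hκ
  obtain ⟨κ0, hκ0⟩ := hW0.normalised
  have hκ0n : κ0 ≠ 0 := kappa_ne hq hW0 κ0 hκ0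
  -- the decomposition
  let b := Module.finBasis F (Fin m → E)
  let D := (prS σ J b).linearEquivOfInjective (prS_inj hq hS.det_ne b) (by
    rw [Module.finrank_fin_fun])
  have hID := idat (ε := ε) hq hH hS b D (fun s => rfl)
  obtain ⟨C, hC, hI⟩ := lemI (Measure.addHaar : Measure (Fin k → E))
    (Measure.addHaar : Measure (Fin N → E)) hID hψ hψ1 hq.two
  have hCn : (C : ℂ) ≠ 0 := by exact_mod_cast hC.ne'
  have h2m : ((((md ((-2 : E) ^ m) : ℝ≥0) : ℝ)) : ℂ) ≠ 0 := by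
    exact_mod_cast (md_pos (pow_ne_zero m (neg_ne_zero.2 hq.two_E))).ne'
  refine ⟨κ * κ0⁻¹ * C * aE μ ((-1) ^ m) * ((((md ((-2 : E) ^ m) : ℝ≥0) : ℝ)) : ℂ)⁻¹, ?_, ?_⟩
  · exact mul_ne_zero (mul_ne_zero (mul_ne_zero (mul_ne_zero hκn (inv_ne_zero hκ0n)) hCn)
      (aE_ne μ _)) (inv_ne_zero h2m)
  intro g a u hg hreg s
  have hd := hg.det
  have ha : ((a : Matrix (Fin m) (Fin m) E) - 1).det ≠ 0 := by
    intro h
    rw [hd, h, zero_mul] at hreg
    exact hreg rfl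
  have hu : (umat u - 1).det ≠ 0 := by
    intro h
    rw [hd, h, zero_mul, mul_zero] at hreg
    exact hreg rfl
  have hgu : IsUnit (umat g - 1) := (Matrix.isUnit_iff_isUnit_det _).2 (isUnit_iff_ne_zero.2 hreg)
  have huu : IsUnit (umat u - 1) := (Matrix.isUnit_iff_isUnit_det _).2 (isUnit_iff_ne_zero.2 hu)
  obtain ⟨T, hTdet, hT⟩ := exists_T hq b a ha
  set B := symplB F σ H with hB
  set c : (Fin N → E) →ₗ[F] (Fin N → E) := mulL F (cayley (umat g)) with hc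
  have hsw : ∀ w w', B w w' = - B w' w := fun w w' => sympl_swap hq hH w' w
  have t1 : ∀ w w', B (c w) w' = - B w (c w') := fun w w' => by
    rw [hB, hc, cay_symm hq hH hgu, ← hB, hsw]
  have t2 : ∀ w, c w = w → w = 0 := fun w hw => cay_one hq hgu w hw
  have hcR : ∀ r, c (iot ε r 0 0) = iot ε (r - (Zm a).mulVec r) 0 0 := cayley_R hg hgu ha
  have t3 : ∀ i j, B (c (iot ε (b i) 0 0)) (iot ε (b j) 0 0) = 0 := fun i j => by
    rw [hcR, hB, sympl_RV hS hq]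
  have t4 : ∀ w i, B (c w + w) (iot ε (b i) 0 0) =
      T (fun j => B w (iot ε (b j) 0 0)) i := fun w i => by
    have h1 := hT (B w ∘ₗ ioR F ε) i
    have h2 : B w (iot ε ((Zm a).mulVec (b i)) 0 0) =
      T (fun j => B w (iot ε (b j) 0 0)) i := h1
    rw [map_add, LinearMap.add_apply, t1, ← h2, hcR, ← sub_eq_neg_add, ← map_sub]
    congr 1
    rw [sub_eq_iff_eq_add, iot_add, add_zero, add_zero]
    congr 1
    abel
  -- separate by the functionals
  rw [← sub_eq_zero]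
  refine (Module.forall_dual_apply_eq_zero_iff ℂ _).1 fun ξ => ?_
  rw [map_sub, map_smul, smul_eq_mul, sub_eq_zero]
  set Φ : (Fin N → E) → ℂ := fun w => ξ (e (ρ w s)) with hΦ
  obtain ⟨η, hη, hηv⟩ : ∃ η > 0, ∀ w, ‖w‖ ≤ η → ρ w s = s := by
    obtain ⟨η, hη, h1⟩ := Metric.eventually_nhds_iff.1 (hW.rho_smooth s)
    refine ⟨η / 2, by positivity, fun w hw => h1 ?_⟩
    rw [dist_zero_right]
    linarith
  have hρ : ∀ w w', ρ w * ρ w' = ((ψ ((2 : F)⁻¹ * B w w') : Circle) : ℂ) • ρ (w + w') :=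
    hW.rho_mul
  have hΦ1 : ∀ w x, ‖x‖ ≤ η → Φ (w + x) = ((ψ (-(2⁻¹ * B w x)) : Circle) : ℂ) * Φ w :=
    fun w x hx => phi_small hρ (ξ ∘ₗ e) s w x (hηv x hx)
  have hΦ2 : ∀ (w : Fin N → E) (q : Fin (Module.finrank F (Fin m → E)) → F),
      Φ (w + ∑ i, q i • iot ε (b i) 0 0) =
      ((ψ (2⁻¹ * B w (∑ i, q i • iot ε (b i) 0 0)) : Circle) : ℂ) * Φ w := by
    intro w q
    have h2 := map_sum (ioR F ε) (fun i => q i • b i) Finset.univ
    simp only [map_smul] at h2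
    have h3 : ∑ i, q i • iot ε (b i) 0 0 = iot ε (∑ i, q i • b i) 0 0 := h2.symm
    rw [h3]
    exact phi_inv hsw hρ (ξ ∘ₗ e) s w _ fun v' => by
      show ξ (e (ρ _ v')) = ξ (e v')
      rw [he.inv]
  obtain ⟨R₀, hR₀⟩ := hI c T Φ η hη t1 t2 t3 t4 hΦ1 hΦ2
  set Dg : Eˣ := Units.mk0 _ hreg with hDg
  set Du : Eˣ := Units.mk0 _ hu with hDu
  set Da : Eˣ := Units.mk0 _ ha with hDa
  obtain ⟨r, hr0, hr1, hr2⟩ := ((eventually_ge_atTop R₀).and
    ((hκ g Dg rfl s (ξ ∘ₗ e)).and (hκ0 u Du rfl (e s) ξ))).exists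
  have e1 := hR₀ r r hr0 hr0
  have e2 : ∫ w in closedBall (0 : Fin N → E) r,
      ((ψ ((4 : F)⁻¹ * sympl F σ H ((cayley (umat g)).mulVec w) w) : Circle) : ℂ) *
        (ξ ∘ₗ e) (ρ w s) ∂Measure.addHaar = _ := e1
  have e3 : ∫ z in closedBall (0 : Fin k → E) r,
      ((ψ (4⁻¹ * B (c (ioV F ε z)) (ioV F ε z)) : Circle) : ℂ) * Φ (ioV F ε z)
        ∂(Measure.addHaar : Measure (Fin k → E)) =
      ∫ z in closedBall (0 : Fin k → E) r,
      ((ψ ((4 : F)⁻¹ * sympl F σ H0 ((cayley (umat u)).mulVec z) z) : Circle) : ℂ) *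
        ξ (ρ0 z (e s)) ∂Measure.addHaar := by
    refine integral_congr_ae (Filter.Eventually.of_forall fun z => ?_)
    obtain ⟨r', hr'⟩ := cayley_V hg hgu ha huu z
    have h1 : B (c (ioV F ε z)) (ioV F ε z) = sympl F σ H0 ((cayley (umat u)).mulVec z) z := by
      show B ((cayley (umat g)).mulVec (iot ε 0 z 0)) (iot ε 0 z 0) = _
      rw [hr', hB, hS.sympl hq, pR_iot, pR_iot, pV_iot, pV_iot, pS_iot, pS_iot, map_zero,
        zero_dotProduct, dotProduct_zero, map_zero, zero_add, sub_zero]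
      rfl
    have h2 : Φ (ioV F ε z) = ξ (ρ0 z (e s)) := by
      show ξ (e (ρ (iot ε 0 z 0) s)) = _
      rw [he.heis]
    simp only [h1, h2]
  rw [e2, e3] at hr1
  have hmd : (((md (LinearMap.det T.toLinearMap) : ℝ≥0) : ℝ)) =
      ((md ((-2 : E) ^ m) : ℝ≥0) : ℝ) * (((md ((a : Matrix (Fin m) (Fin m) E) - 1).det : ℝ≥0) :
        ℝ))⁻¹ := by
    rw [hTdet, ← md_norm, Zm_det, md_mul, md_inv, NNReal.coe_mul, NNReal.coe_inv]
  have hDD : Dg * Units.map (σ : E →* E) (Matrix.GeneralLinearGroup.det a) =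
      Du * (Da * Units.map (σ : E →* E) Da) * (-1) ^ m := by
    apply Units.ext
    have h1 := hg.det_eq hq hS
    rw [Units.val_mul, Units.val_mul, Units.val_mul, Units.val_mul, Units.val_pow_eq_pow_val,
      Units.val_neg, Units.val_one]
    exact h1
  have haE := congrArg (aE μ) hDD
  rw [aE_mul, aE_mul, aE_mul, aE_norm hq hμ] at haE
  have hchi := chiA_sigma hq hμ a
  have hfin : aE μ Dg = aE μ Du * ((((md ((a : Matrix (Fin m) (Fin m) E) - 1).det : ℝ≥0) : ℝ)) :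
      ℂ)⁻¹ * aE μ ((-1) ^ m) * chiA μ a := by
    have h3 : ((Da : Eˣ) : E) = ((a : Matrix (Fin m) (Fin m) E) - 1).det := rfl
    rw [h3] at haE
    calc aE μ Dg = (aE μ Dg * aE μ (Units.map (σ : E →* E) (Matrix.GeneralLinearGroup.det a))) *
          chiA μ a := by rw [mul_assoc, hchi, mul_one]
      _ = _ := by rw [haE]
  have hmda : ((((md ((a : Matrix (Fin m) (Fin m) E) - 1).det : ℝ≥0) : ℝ)) : ℂ) ≠ 0 := by
    exact_mod_cast (md_pos ha).ne'
  set I := ∫ z in closedBall (0 : Fin k → E) r,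
      ((ψ ((4 : F)⁻¹ * sympl F σ H0 ((cayley (umat u)).mulVec z) z) : Circle) : ℂ) *
        ξ (ρ0 z (e s)) ∂Measure.addHaar with hIdef
  have e4 : ξ (e (ω g s)) = κ * aE μ Dg * (((C * (((md (LinearMap.det
      T.toLinearMap) : ℝ≥0) : ℝ))⁻¹ : ℝ) : ℂ) * I) := by
    rw [aE, ← mul_assoc κ]
    exact hr1
  have e5 : ξ (ω0 u (e s)) = κ0 * aE μ Du * I := by
    rw [aE, ← mul_assoc κ0]
    exact hr2
  rw [e4, e5, hfin, hmd]
  push_cast
  field_simp

end main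

end SpW.P1
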