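import Pool.Agent.Work.MP_3615d2_al.P1.Ev0e

/-!
MP_3615d2_al, Part 1, EV0: the scalar of the parabolic for all elements; the unipotent elements.
-/

open scoped Matrix NNReal
open Filter Topology MeasureTheory Metric

set_option linter.unusedSectionVars false

namespace SpW.P1

open Pool.Agent.SpehH

section scalar

variable {F E : Type} [Field F] [Field E] [Algebra F E] {σ : E ≃ₐ[F] E} {δ : E} {d : F}
  {m k N : ℕ} {H : Matrix (Fin N) (Fin N) E} {J : Matrix (Fin m) (Fin m) E}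
  {H0 : Matrix (Fin k) (Fin k) E} {ε : Fin m ⊕ (Fin k ⊕ Fin m) ≃ Fin N}

/-- A scalar of norm one avoiding the spectra of finitely many matrices. -/
theorem exists_zeta [Infinite F] (hq : QuadDatum σ δ d) (s : Finset (Matrix (Fin N) (Fin N) E)) :
    ∃ ζ : E, ζ * σ ζ = 1 ∧ ∀ A ∈ s, (ζ • A - 1).det ≠ 0 := by
  classical
  have hδ := hq.ne
  have h2 := hq.two_E
  have hn : ∀ t : F, algebraMap F E t * δ - 1 ≠ 0 := by
    intro t ht
    by_cases h0 : t = 0
    · subst h0; simp at ht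
    · refine hq.notMem t⁻¹ ?_
      have h3 : algebraMap F E t ≠ 0 := (_root_.map_ne_zero _).2 h0
      rw [map_inv₀]
      field_simp
      linear_combination -ht
  have hn2 : ∀ t : F, algebraMap F E t * δ + 1 ≠ 0 := by
    intro t ht
    have := hn (-t)
    apply this
    rw [map_neg]
    linear_combination -ht
  set U : F → E := fun t => (algebraMap F E t * δ + 1) / (algebraMap F E t * δ - 1) with hU
  have hUi : Function.Injective U := by
    intro t t' h
    have h3 : (algebraMap F E t * δ + 1) / (algebraMap F E t * δ - 1) =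
      (algebraMap F E t' * δ + 1) / (algebraMap F E t' * δ - 1) := h
    rw [div_eq_div_iff (hn t) (hn t')] at h3
    have h4 : 2 * (δ * (algebraMap F E t' - algebraMap F E t)) = 0 := by linear_combination h3
    have h5 := (mul_eq_zero.1 h4).resolve_left h2
    have h6 := (mul_eq_zero.1 h5).resolve_left hδ
    exact ((algebraMap F E).injective (sub_eq_zero.1 h6)).symm
  have hUs : ∀ t, U t * σ (U t) = 1 := by
    intro t
    have h3 : σ (algebraMap F E t * δ + 1) = -(algebraMap F E t * δ - 1) := by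
      rw [map_add, map_mul, AlgEquiv.commutes, hq.sig, map_one]; ring
    have h4 : σ (algebraMap F E t * δ - 1) = -(algebraMap F E t * δ + 1) := by
      rw [map_sub, map_mul, AlgEquiv.commutes, hq.sig, map_one]; ring
    rw [hU]
    simp only [map_div₀, h3, h4]
    have h5 := hn t
    have h6 := hn2 t
    rw [neg_div_neg_eq, div_mul_div_comm, mul_comm, div_self (mul_ne_zero h5 h6)]
  have hbad : (⋃ A ∈ s, {u : E | (u • A - 1).det = 0}).Finite :=
    (Finset.finite_toSet _).biUnion fun g _ => finite_bad _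
  have hinf : (Set.range U).Infinite := Set.infinite_range_of_injective hUi
  obtain ⟨u, ⟨t, rfl⟩, hu⟩ := (hinf.diff hbad).nonempty
  refine ⟨U t, hUs t, fun A hA h0 => hu ?_⟩
  simp only [Set.mem_iUnion]
  exact ⟨A, hA, h0⟩

theorem iot_smul_E (a : E) (r : Fin m → E) (v : Fin k → E) (s : Fin m → E) :
    a • iot ε r v s = iot ε (a • r) (a • v) (a • s) := iot_smul ε a r v s

theorem isPar_scalar {ζ : E} (hζ : ζ ≠ 0) {z : unitary σ H} (hz : umat z = ζ • 1)
    {u : unitary σ H0} (hu : umat u = ζ • 1) :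
    IsPar ε z (Matrix.GeneralLinearGroup.scalar (Fin m) (Units.mk0 ζ hζ)) u where
  r r := by
    have h1 : ((Matrix.GeneralLinearGroup.scalar (Fin m) (Units.mk0 ζ hζ) : GL (Fin m) E) :
        Matrix (Fin m) (Fin m) E) = ζ • 1 := by
      rw [Matrix.smul_one_eq_diagonal]
      rfl
    rw [hz, h1, Matrix.smul_mulVec, Matrix.smul_mulVec, Matrix.one_mulVec, Matrix.one_mulVec,
      iot_smul_E, smul_zero, smul_zero]
  v v := by
    refine ⟨0, ?_⟩
    rw [hz, hu, Matrix.smul_mulVec, Matrix.smul_mulVec, Matrix.one_mulVec, Matrix.one_mulVec,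
      iot_smul_E, smul_zero]

end scalar

section all

variable {F E : Type} [NontriviallyNormedField F] [IsUltrametricDist F] [ProperSpace F]
  [NontriviallyNormedField E] [NormedAlgebra F E] [IsUltrametricDist E] [ProperSpace E]
  [MeasurableSpace E] [BorelSpace E]
  {σ : E ≃ₐ[F] E} {δ : E} {d : F} {m k N : ℕ} {H : Matrix (Fin N) (Fin N) E}
  {J : Matrix (Fin m) (Fin m) E} {H0 : Matrix (Fin k) (Fin k) E}
  {ε : Fin m ⊕ (Fin k ⊕ Fin m) ≃ Fin N}
  {ψ : AddChar F Circle} {μ : Eˣ →* ℂˣ} {S S0 : Type} [AddCommGroup S] [Module ℂ S]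
  [AddCommGroup S0] [Module ℂ S0] {ρ : (Fin N → E) → Module.End ℂ S}
  {ρ0 : (Fin k → E) → Module.End ℂ S0}
  {ω : unitary σ H →* Module.End ℂ S} {ω0 : unitary σ H0 →* Module.End ℂ S0}

/-- The parabolic acts on `S0` by `μ(det a) |det a|^{1/2} ω0`. -/
theorem IsEv.par (hq : QuadDatum σ δ d) (hψ : Continuous ψ) (hψ1 : ψ ≠ 1)
    (hμ : ConjSymplectic F μ) (hH : IsSkew σ H) (hS : IsSplit σ ε H J H0)
    (hW : IsWeil σ H ψ μ ρ ω) (hW0 : IsWeil σ H0 ψ μ ρ0 ω0) {e : S →ₗ[ℂ] S0}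
    (he : IsEv ε ρ ρ0 e) {g : unitary σ H} {a : GL (Fin m) E} {u : unitary σ H0}
    (hg : IsPar ε g a u) (s : S) : e (ω g s) = chiA μ a • ω0 u (e s) := by
  classical
  have iF : Infinite F := inferInstance
  obtain ⟨K, hK, hKe⟩ := ev_reg hq hψ hψ1 hμ hH hS hW hW0 he
  obtain ⟨ζ, hζ1, hζ⟩ := exists_zeta (N := N) hq {umat g, 1}
  have hζ0 : ζ ≠ 0 := by
    rintro rfl
    simp at hζ1
  obtain ⟨z, hz⟩ := exists_scalar (H := H) ζ hζ1
  obtain ⟨u', hu'⟩ := exists_scalar (H := H0) ζ hζ1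
  have hzp := isPar_scalar (m := m) (ε := ε) hζ0 hz hu'
  set a' := Matrix.GeneralLinearGroup.scalar (Fin m) (Units.mk0 ζ hζ0) with ha'
  have hz1 : (umat z - 1).det ≠ 0 := by
    rw [hz]
    exact hζ 1 (by simp)
  have hz2 : (umat (z * g) - 1).det ≠ 0 := by
    rw [umat_mul, hz, Matrix.smul_mul, Matrix.one_mul]
    exact hζ _ (by simp)
  have h1 := hKe (z * g) (a' * a) (u' * u) (hzp.mul hg) hz2 s
  have h2 := hKe z a' u' hzp hz1 (ω g s)
  rw [map_mul, Module.End.mul_apply, h2, map_mul, Module.End.mul_apply, chiA_mul, ← mul_assoc,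
    mul_smul (K * chiA μ a')] at h1
  have h3 := smul_right_injective S0 (mul_ne_zero hK (chiA_ne μ a')) h1
  have h4 := congrArg (ω0 u'⁻¹) h3
  rwa [ev_om_inv, map_smul, ev_om_inv] at h4

end all

section nB

variable {F E : Type} [Field F] [Field E] [Algebra F E] {σ : E ≃ₐ[F] E} {δ : E} {d : F}
  {m k N : ℕ} {H : Matrix (Fin N) (Fin N) E} {J : Matrix (Fin m) (Fin m) E}
  {H0 : Matrix (Fin k) (Fin k) E}

/-- `(r, v, x) ↦ (r + B x, v, x)` -/
def nB (ε : Fin m ⊕ (Fin k ⊕ Fin m) ≃ Fin N) (B : Matrix (Fin m) (Fin m) E) :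
    (Fin N → E) →ₗ[E] (Fin N → E) where
  toFun w := iot ε (pR ε w + B.mulVec (pS ε w)) (pV ε w) (pS ε w)
  map_add' w w' := by
    rw [pR_add, pV_add, pS_add, Matrix.mulVec_add, iot_add]
    congr 1
    abel
  map_smul' a w := by
    have e1 : pR ε (a • w) = a • pR ε w := rfl
    have e2 : pV ε (a • w) = a • pV ε w := rfl
    have e3 : pS ε (a • w) = a • pS ε w := rfl
    rw [RingHom.id_apply, e1, e2, e3, Matrix.mulVec_smul, iot_smul_E, smul_add]

variable {ε : Fin m ⊕ (Fin k ⊕ Fin m) ≃ Fin N}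

theorem nB_iot (B : Matrix (Fin m) (Fin m) E) (r : Fin m → E) (v : Fin k → E) (x : Fin m → E) :
    nB ε B (iot ε r v x) = iot ε (r + B.mulVec x) v x := by
  show iot ε (pR ε (iot ε r v x) + B.mulVec (pS ε (iot ε r v x))) (pV ε (iot ε r v x))
    (pS ε (iot ε r v x)) = _
  rw [pR_iot, pV_iot, pS_iot]

theorem nB_comp (B B' : Matrix (Fin m) (Fin m) E) (h : B + B' = 0) :
    nB ε B ∘ₗ nB ε B' = LinearMap.id := by
  apply LinearMap.ext
  intro w
  obtain ⟨r, v, x, rfl⟩ := exists_iot ε w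
  rw [LinearMap.comp_apply, nB_iot, nB_iot, LinearMap.id_apply, add_assoc, ← Matrix.add_mulVec,
    add_comm B' B, h, Matrix.zero_mulVec, add_zero]

theorem exists_nB (hS : IsSplit σ ε H J H0) (B : Matrix (Fin m) (Fin m) E)
    (hB : ∀ x x', sk σ J (B.mulVec x) x' = σ (sk σ J (B.mulVec x') x)) :
    ∃ g : unitary σ H, ∀ r v x, (umat g).mulVec (iot ε r v x) = iot ε (r + B.mulVec x) v x := by
  have h1 : LinearMap.toMatrix' (nB ε B) * LinearMap.toMatrix' (nB ε (-B)) = 1 := by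
    rw [← LinearMap.toMatrix'_comp, nB_comp _ _ (add_neg_cancel B), LinearMap.toMatrix'_id]
  have h2 : LinearMap.toMatrix' (nB ε (-B)) * LinearMap.toMatrix' (nB ε B) = 1 := by
    rw [← LinearMap.toMatrix'_comp, nB_comp _ _ (neg_add_cancel B), LinearMap.toMatrix'_id]
  let g0 : GL (Fin N) E := ⟨_, _, h1, h2⟩
  have h3 : ∀ w : Fin N → E, (g0 : Matrix (Fin N) (Fin N) E).mulVec w = nB ε B w := fun w => by
    show (LinearMap.toMatrix' (nB ε B)).mulVec w = _
    rw [← Matrix.toLin'_apply, Matrix.toLin'_toMatrix']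
  have h4 : ∀ r v x, (g0 : Matrix (Fin N) (Fin N) E).mulVec (iot ε r v x) =
      iot ε (r + B.mulVec x) v x := fun r v x => by rw [h3, nB_iot]
  refine ⟨⟨g0, ?_⟩, h4⟩
  intro w w'
  obtain ⟨r, v, x, rfl⟩ := exists_iot ε w
  obtain ⟨r', v', x', rfl⟩ := exists_iot ε w'
  have hadd : ∀ y y' z : Fin m → E, sk σ J (y + y') z = sk σ J y z + sk σ J y' z := by
    intro y y' z
    rw [skJ_eq_dot, skJ_eq_dot, skJ_eq_dot, Matrix.add_vecMul, add_dotProduct]
  rw [h4, h4, hS.form, hS.form, hadd, hadd, map_add, hB x x']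
  ring

/-- The matrices `B` given by `t : Fin m → F`. -/
theorem exists_B (hJ : J.det ≠ 0) (t : Fin m → F) :
    ∃ B : Matrix (Fin m) (Fin m) E, ∀ x, (B.mulVec x) ᵥ* J = fun j => algebraMap F E (t j) * x j := by
  refine ⟨(J⁻¹)ᵀ * Matrix.diagonal (fun j => algebraMap F E (t j)), fun x => ?_⟩
  rw [← Matrix.mulVec_mulVec, Matrix.mulVec_transpose, Matrix.vecMul_vecMul,
    Matrix.nonsing_inv_mul _ (isUnit_iff_ne_zero.2 hJ), Matrix.vecMul_one]
  funext j
  rw [Matrix.mulVec_diagonal]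

theorem hB_of {B : Matrix (Fin m) (Fin m) E} {t : Fin m → F} (hq : QuadDatum σ δ d)
    (hB : ∀ x, (B.mulVec x) ᵥ* J = fun j => algebraMap F E (t j) * x j) (x x' : Fin m → E) :
    sk σ J (B.mulVec x) x' = σ (sk σ J (B.mulVec x') x) := by
  rw [skJ_eq_dot, skJ_eq_dot, hB, hB]
  simp only [dotProduct, map_sum, map_mul, AlgEquiv.commutes, sig_sig hq]
  refine Finset.sum_congr rfl fun j _ => ?_
  ring

end nB

end SpW.P1
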