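import Pool.Agent.Work.MP_3615d2_al.GeoA

/-!
MP_3615d2_al, Part 1: an invariant bilinear form on an induced space, restricted to the sections
supported on an open double coset `P g U`, is given by a form on the fibre. Abstract part.
-/

open Filter Topology

namespace SpW

section fib

variable {G W S : Type} [Group G] [AddCommGroup W] [Module ℂ W] [AddCommGroup S] [Module ℂ S]
  {P : Subgroup G} {τ : P →* Module.End ℂ W}

/-- the elements `u` with `g u g⁻¹ ∈ P` -/
def Mg (P : Subgroup G) (g : G) : Subgroup G where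
  carrier := {u | g * u * g⁻¹ ∈ P}
  mul_mem' := by
    intro a b ha hb
    have e : g * (a * b) * g⁻¹ = (g * a * g⁻¹) * (g * b * g⁻¹) := by group
    show g * (a * b) * g⁻¹ ∈ P
    rw [e]
    exact P.mul_mem ha hb
  one_mem' := by
    show g * 1 * g⁻¹ ∈ P
    rw [mul_one, mul_inv_cancel]
    exact P.one_mem
  inv_mem' := by
    intro a ha
    show g * a⁻¹ * g⁻¹ ∈ P
    have e : g * a⁻¹ * g⁻¹ = (g * a * g⁻¹)⁻¹ := by group
    rw [e]
    exact P.inv_mem ha

theorem mem_Mg {g u : G} : u ∈ Mg P g ↔ g * u * g⁻¹ ∈ P := Iff.rfl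

theorem wfix_mono {K K' : Subgroup G} (h : K' ≤ K) (g : G) : wfix τ K g ≤ wfix τ K' g :=
  fun _ hw p k hk hp => hw p k (h hk) hp

theorem bump_sub_mem {K K' : Subgroup G} (h : K' ≤ K) {g : G} {w : W} (hw : w ∈ wfix τ K g)
    {u k : G} (hu : u ∈ Mg P g ⊓ K) (hk : k ∈ K') : bump τ K' g w (g * (u * k)) = w := by
  have hp : g * u * g⁻¹ ∈ P := hu.1
  have e : g * (u * k) = ((⟨g * u * g⁻¹, hp⟩ : P) : G) * g * k := by
    show g * (u * k) = g * u * g⁻¹ * g * k
    group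
  rw [e, bump_apply (wfix_mono h g hw) _ hk]
  exact hw _ u hu.2 rfl

theorem bump_sub_ne {K K' : Subgroup G} (h : K' ≤ K) {g : G} {w : W} {y : G} (hy : y ∈ K)
    (hc : ¬ ∃ u ∈ Mg P g ⊓ K, ∃ k ∈ K', y = u * k) : bump τ K' g w (g * y) = 0 := by
  apply bump_of_notMem
  rintro ⟨p, k, hk, e⟩
  have e1 : (p : G) * g = g * y * k⁻¹ := by
    rw [e]
    group
  have e2 : g⁻¹ * p * g = y * k⁻¹ := by
    rw [mul_assoc, e1]
    group
  refine hc ⟨g⁻¹ * p * g, ⟨?_, ?_⟩, k, hk, ?_⟩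
  · show g * (g⁻¹ * p * g) * g⁻¹ ∈ P
    have e3 : g * (g⁻¹ * p * g) * g⁻¹ = p := by group
    rw [e3]
    exact p.2
  · rw [e2]
    exact K.mul_mem hy (K.inv_mem (h hk))
  · rw [e2, inv_mul_cancel_right]

theorem bump_out {K K' : Subgroup G} (h : K' ≤ K) {g : G} {w : W} (hw : w ∈ wfix τ K g) (k : K) :
    bump τ K' g w (g * ((QuotientGroup.mk k : K ⧸ K'.subgroupOf K).out : K)) =
      bump τ K' g w (g * k) := by
  obtain ⟨k', hk'⟩ := QuotientGroup.mk_out_eq_mul (K'.subgroupOf K) k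
  rw [hk', Subgroup.coe_mul, ← mul_assoc]
  exact bump_right (wfix_mono h g hw) _ (Subgroup.mem_subgroupOf.1 k'.2)

theorem sum_bump_out {K K' : Subgroup G} (h : K' ≤ K) (hi : K'.relIndex K ≠ 0) {g : G} {w : W}
    (hw : w ∈ wfix τ K g) [Fintype (K ⧸ K'.subgroupOf K)] :
    ∑ t : K ⧸ K'.subgroupOf K, bump τ K' g w (g * (t.out : K)) =
      K'.relIndex (Mg P g ⊓ K) • w := by
  classical
  have hle : Mg P g ⊓ K ≤ K := inf_le_right
  let e := Subgroup.quotientSubgroupOfEmbeddingOfLE K' hle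
  haveI : Fintype (↥(Mg P g ⊓ K) ⧸ K'.subgroupOf (Mg P g ⊓ K)) :=
    Fintype.ofInjective e e.injective
  have h1 := Fintype.sum_of_injective e e.injective
    (fun _ : ↥(Mg P g ⊓ K) ⧸ K'.subgroupOf (Mg P g ⊓ K) => w)
    (fun t : K ⧸ K'.subgroupOf K => bump τ K' g w (g * (t.out : K))) ?_ ?_
  · rw [← h1, Finset.sum_const, Finset.card_univ, ← Nat.card_eq_fintype_card]
    rfl
  · intro t ht
    apply bump_sub_ne h (Subtype.coe_prop _)
    rintro ⟨u, hu, k, hk, e1⟩
    apply ht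
    refine ⟨QuotientGroup.mk ⟨u, hu⟩, ?_⟩
    have h2 : e (QuotientGroup.mk ⟨u, hu⟩) = QuotientGroup.mk (⟨u, hu.2⟩ : K) := rfl
    rw [h2]
    conv_rhs => rw [← QuotientGroup.out_eq' t]
    rw [QuotientGroup.eq, Subgroup.mem_subgroupOf]
    show u⁻¹ * ((t.out : K) : G) ∈ K'
    rw [e1, inv_mul_cancel_left]
    exact hk
  · intro a
    obtain ⟨u, rfl⟩ := QuotientGroup.mk_surjective a
    have h2 : e (QuotientGroup.mk u) = QuotientGroup.mk (⟨u, hle u.2⟩ : K) := rfl
    show w = bump τ K' g w (g * ((e (QuotientGroup.mk u)).out : K))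
    rw [h2, bump_out h hw]
    have h3 := bump_sub_mem h hw u.2 K'.one_mem
    rw [mul_one] at h3
    exact h3.symm

/-- The sum of the translates of a bump. -/
theorem sum_rtr_bump {K K' : Subgroup G} (h : K' ≤ K) (hi : K'.relIndex K ≠ 0) {g : G} {w : W}
    (hw : w ∈ wfix τ K g) [Fintype (K ⧸ K'.subgroupOf K)] :
    ∑ t : K ⧸ K'.subgroupOf K, rtr ((t.out : K) : G) (bump τ K' g w) =
      K'.relIndex (Mg P g ⊓ K) • bump τ K g w := by
  funext x
  rw [Finset.sum_apply, Pi.smul_apply]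
  by_cases hx : ∃ p : P, ∃ k : G, k ∈ K ∧ x = p * g * k
  · obtain ⟨p, k, hk, rfl⟩ := hx
    rw [bump_apply hw p hk]
    have h1 : ∀ t : K ⧸ K'.subgroupOf K, rtr ((t.out : K) : G) (bump τ K' g w) (p * g * k) =
        τ p (bump τ K' g w
          (g * (((((⟨k, hk⟩ : K) • t : K ⧸ K'.subgroupOf K)).out : K) : G))) := by
      intro t
      have h2 : ((⟨k, hk⟩ : K) • t : K ⧸ K'.subgroupOf K) =
          QuotientGroup.mk ((⟨k, hk⟩ : K) * t.out) := by
        conv_lhs => rw [← QuotientGroup.out_eq' t]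
        rfl
      rw [h2, bump_out h hw, rtr_apply]
      have h3 := (mem_indE.1 (bump_mem (wfix_mono h g hw))) p (g * (((⟨k, hk⟩ : K) * t.out : K) : G))
      rw [← h3]
      congr 1
      show (p : G) * g * k * (t.out : K) = p * (g * (k * (t.out : K)))
      group
    have h5 := Equiv.sum_comp (MulAction.toPerm (⟨k, hk⟩ : K) : Equiv.Perm (K ⧸ K'.subgroupOf K))
      (fun t : K ⧸ K'.subgroupOf K => bump τ K' g w (g * (t.out : K)))
    have h6 : ∑ t : K ⧸ K'.subgroupOf K, bump τ K' g w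
        (g * (((((⟨k, hk⟩ : K) • t : K ⧸ K'.subgroupOf K)).out : K) : G)) =
        K'.relIndex (Mg P g ⊓ K) • w := by
      rw [← sum_bump_out h hi hw]
      exact h5
    rw [Finset.sum_congr rfl fun t _ => h1 t, ← map_sum, h6, map_nsmul]
  · rw [bump_of_notMem hx, smul_zero]
    apply Finset.sum_eq_zero
    intro t _
    rw [rtr_apply]
    apply bump_of_notMem
    rintro ⟨p, k, hk, e⟩
    refine hx ⟨p, k * (((t.out : K) : G))⁻¹, K.mul_mem (h hk) (K.inv_mem (Subtype.coe_prop _)), ?_⟩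
    rw [← mul_assoc, ← e, mul_inv_cancel_right]

/-- translation of a bump by an element of `Mg` -/
theorem rtr_bump_conj {K : Subgroup G} {g c : G} {w : W} (hw : w ∈ wfix τ K g) (q : P)
    (hq : (q : G) = g * c * g⁻¹) :
    τ q w ∈ wfix τ (K.map (MulAut.conj c).toMonoidHom) g ∧
      rtr c (bump τ K g w) = bump τ (K.map (MulAut.conj c).toMonoidHom) g (τ q w) := by
  have h1 : τ q w ∈ wfix τ (K.map (MulAut.conj c).toMonoidHom) g := by
    intro p k hk hp
    obtain ⟨k', hk', rfl⟩ := Subgroup.mem_map.1 hk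
    have hp' : (p : G) = g * (c * k' * c⁻¹) * g⁻¹ := hp
    have h2 : ((q⁻¹ * p * q : P) : G) = g * k' * g⁻¹ := by
      rw [Subgroup.coe_mul, Subgroup.coe_mul, Subgroup.coe_inv, hq, hp']
      group
    have h3 := hw _ _ hk' h2
    have h4 : τ p (τ q w) = τ q (τ (q⁻¹ * p * q) w) := by
      rw [← Module.End.mul_apply, ← Module.End.mul_apply, ← map_mul, ← map_mul]
      congr 2
      group
    rw [h4, h3]
  refine ⟨h1, ?_⟩
  funext x
  rw [rtr_apply]
  by_cases hx : ∃ p : P, ∃ k : G, k ∈ K ∧ x * c = p * g * k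
  · obtain ⟨p, k, hk, e⟩ := hx
    rw [e, bump_apply hw p hk]
    have hk2 : c * k * c⁻¹ ∈ K.map (MulAut.conj c).toMonoidHom :=
      Subgroup.mem_map.2 ⟨k, hk, rfl⟩
    have e2 : x = ((p * q⁻¹ : P) : G) * g * (c * k * c⁻¹) := by
      have : x = p * g * k * c⁻¹ := by
        rw [← e]
        group
      rw [this, Subgroup.coe_mul, Subgroup.coe_inv, hq]
      group
    rw [e2, bump_apply h1 _ hk2, ← Module.End.mul_apply, ← map_mul, inv_mul_cancel_right]
  · rw [bump_of_notMem hx, bump_of_notMem]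
    rintro ⟨p, k, hk, e⟩
    obtain ⟨k', hk', rfl⟩ := Subgroup.mem_map.1 hk
    refine hx ⟨p * q, k', hk', ?_⟩
    have e' : x = p * g * (c * k' * c⁻¹) := e
    rw [e', Subgroup.coe_mul, hq]
    group

theorem bump_left {K : Subgroup G} {g : G} {w : W} (p : P) (hw : w ∈ wfix τ K g) :
    τ p w ∈ wfix τ K (p * g) ∧ bump τ K (p * g) (τ p w) = bump τ K g w := by
  have h1 : τ p w ∈ wfix τ K (p * g) := by
    intro q k hk hq
    have h2 : ((p⁻¹ * q * p : P) : G) = g * k * g⁻¹ := by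
      rw [Subgroup.coe_mul, Subgroup.coe_mul, Subgroup.coe_inv, hq]
      group
    have h3 := hw _ _ hk h2
    have h4 : τ q (τ p w) = τ p (τ (p⁻¹ * q * p) w) := by
      rw [← Module.End.mul_apply, ← Module.End.mul_apply, ← map_mul, ← map_mul]
      congr 2
      group
    rw [h4, h3]
  refine ⟨h1, ?_⟩
  funext x
  by_cases hx : ∃ p : P, ∃ k : G, k ∈ K ∧ x = p * g * k
  · obtain ⟨q, k, hk, rfl⟩ := hx
    have e : (q : G) * g * k = ((q * p⁻¹ : P) : G) * (p * g) * k := by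
      rw [Subgroup.coe_mul, Subgroup.coe_inv]
      group
    rw [bump_apply hw q hk, e, bump_apply h1 _ hk, ← Module.End.mul_apply, ← map_mul,
      inv_mul_cancel_right]
  · rw [bump_of_notMem hx, bump_of_notMem]
    rintro ⟨q, k, hk, e⟩
    refine hx ⟨q * p, k, hk, ?_⟩
    rw [e, Subgroup.coe_mul]
    group

end fib

end SpW
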