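import Pool.Agent.Work.MP_3615d2_al.P1.FibA

/-!
MP_3615d2_al, Part 1: the form on the fibre attached to an invariant bilinear form on an induced
space and to a point of an open double coset. Abstract part.
-/

open Filter Topology MeasureTheory

namespace SpW

section co

variable {G : Type} [Group G] [TopologicalSpace G] [IsTopologicalGroup G]

/-- `K` is a compact subgroup of `U`, open in `U`. -/
structure CO (U K : Subgroup G) : Prop where
  le : K ≤ U
  compact : IsCompact (K : Set G)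
  isOpen : IsOpen ((K.subgroupOf U : Subgroup U) : Set U)

variable {U K K' : Subgroup G}

theorem CO.inf [T2Space G] (h : CO U K) (h' : CO U K') : CO U (K ⊓ K') where
  le := inf_le_left.trans h.le
  compact := h.compact.inter h'.compact
  isOpen := h.isOpen.inter h'.isOpen

theorem CO.relIndex_ne (h : CO U K) (h' : CO U K') : K'.relIndex K ≠ 0 := by
  haveI : CompactSpace K := isCompact_iff_compactSpace.1 h.compact
  have h1 : IsOpen ((K'.subgroupOf K : Subgroup K) : Set K) :=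
    h'.isOpen.preimage (f := fun k : K => (⟨k, h.le k.2⟩ : U)) (by fun_prop)
  haveI := Subgroup.quotient_finite_of_isOpen _ h1
  haveI : (K'.subgroupOf K).FiniteIndex := Subgroup.finiteIndex_of_finite_quotient
  exact Subgroup.FiniteIndex.index_ne_zero

theorem CO.map (h : CO U K) {u : G} (hu : u ∈ U) :
    CO U (K.map (MulAut.conj u).toMonoidHom) where
  le := by
    rintro _ ⟨k, hk, rfl⟩
    exact U.mul_mem (U.mul_mem hu (h.le hk)) (U.inv_mem hu)
  compact := by
    have : ((K.map (MulAut.conj u).toMonoidHom : Subgroup G) : Set G) =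
        (fun x => u * x * u⁻¹) '' (K : Set G) := rfl
    rw [this]
    exact h.compact.image (by fun_prop)
  isOpen := by
    have h1 : (((K.map (MulAut.conj u).toMonoidHom).subgroupOf U : Subgroup U) : Set U) =
        (fun x : U => (⟨u, hu⟩ : U)⁻¹ * x * ⟨u, hu⟩) ⁻¹' ((K.subgroupOf U : Subgroup U) : Set U) := by
      ext x
      simp only [SetLike.mem_coe, Set.mem_preimage, Subgroup.mem_subgroupOf]
      constructor
      · rintro ⟨k, hk, hx⟩
        have hx' : u * k * u⁻¹ = x := hx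
        show u⁻¹ * (x : G) * u ∈ K
        rw [← hx']
        have : u⁻¹ * (u * k * u⁻¹) * u = k := by group
        rw [this]
        exact hk
      · intro hx
        refine ⟨u⁻¹ * (x : G) * u, hx, ?_⟩
        show u * (u⁻¹ * (x : G) * u) * u⁻¹ = x
        group
    rw [h1]
    exact h.isOpen.preimage (by fun_prop)

end co

section form

variable {G W S : Type} [Group G] [TopologicalSpace G] [IsTopologicalGroup G] [AddCommGroup W]
  [Module ℂ W] [AddCommGroup S] [Module ℂ S] {P : Subgroup G} {τ : P →* Module.End ℂ W}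
  {U : Subgroup G}

theorem rtr_mem_indS {f : G → W} (hf : f ∈ indS P τ) (u : G) : rtr u f ∈ indS P τ := by
  obtain ⟨h1, K, hK, h2⟩ := hf
  refine ⟨fun p g => ?_, K.comap (MulAut.conj u⁻¹).toMonoidHom, ?_, fun g k hk => ?_⟩
  · rw [rtr_apply, rtr_apply, mul_assoc]
    exact h1 p (g * u)
  · exact hK.preimage (f := fun x => u⁻¹ * x * u⁻¹⁻¹) (by fun_prop)
  · have hk' : u⁻¹ * k * u⁻¹⁻¹ ∈ K := hk
    rw [rtr_apply, rtr_apply, ← h2 (g * u) _ hk']
    congr 1
    group

/-- the value of the form on functions -/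
noncomputable def extF (β : indS P τ →ₗ[ℂ] S →ₗ[ℂ] ℂ) (f : G → W) (s : S) : ℂ :=
  open Classical in if h : f ∈ indS P τ then β ⟨f, h⟩ s else 0

variable {β : indS P τ →ₗ[ℂ] S →ₗ[ℂ] ℂ}

theorem extF_eq {f : G → W} (hf : f ∈ indS P τ) (s : S) : extF β f s = β ⟨f, hf⟩ s := by
  rw [extF, dif_pos hf]

theorem extF_add {f f' : G → W} (hf : f ∈ indS P τ) (hf' : f' ∈ indS P τ) (s : S) :
    extF β (f + f') s = extF β f s + extF β f' s := by
  rw [extF_eq hf, extF_eq hf', extF_eq (add_mem hf hf'), ← LinearMap.add_apply, ← map_add]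
  rfl

theorem extF_smul {f : G → W} (hf : f ∈ indS P τ) (c : ℂ) (s : S) :
    extF β (c • f) s = c * extF β f s := by
  rw [extF_eq hf, extF_eq (Submodule.smul_mem _ c hf), ← smul_eq_mul, ← LinearMap.smul_apply,
    ← map_smul]
  rfl

theorem extF_zero (s : S) : extF β (0 : G → W) s = 0 := by
  rw [extF_eq (zero_mem _)]
  have : (⟨0, zero_mem _⟩ : indS P τ) = 0 := rfl
  rw [this, map_zero, LinearMap.zero_apply]

theorem extF_sum {ι : Type*} (J : Finset ι) (f : ι → G → W) (hf : ∀ i ∈ J, f i ∈ indS P τ)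
    (s : S) : extF β (∑ i ∈ J, f i) s = ∑ i ∈ J, extF β (f i) s := by
  classical
  induction J using Finset.induction_on with
  | empty => rw [Finset.sum_empty, Finset.sum_empty, extF_zero]
  | insert i J hi ih =>
    rw [Finset.sum_insert hi, Finset.sum_insert hi, extF_add (hf i (Finset.mem_insert_self _ _))
      (sum_mem fun j hj => hf j (Finset.mem_insert_of_mem hj)),
      ih fun j hj => hf j (Finset.mem_insert_of_mem hj)]

theorem extF_right {f : G → W} (hf : f ∈ indS P τ) (s s' : S) :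
    extF β f (s + s') = extF β f s + extF β f s' := by
  rw [extF_eq hf, extF_eq hf, extF_eq hf, map_add]

theorem extF_right_smul {f : G → W} (hf : f ∈ indS P τ) (c : ℂ) (s : S) :
    extF β f (c • s) = c * extF β f s := by
  rw [extF_eq hf, extF_eq hf, map_smul, smul_eq_mul]

/-- The form is invariant under `U`. -/
def InvF (β : indS P τ →ₗ[ℂ] S →ₗ[ℂ] ℂ) (ω : U →* Module.End ℂ S) : Prop :=
  ∀ (u : U) (f : G → W) (_ : f ∈ indS P τ) (s : S), extF β (rtr (u : G) f) (ω u s) = extF β f s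

/-- `s` is fixed by `K`. -/
def FixS (ω : U →* Module.End ℂ S) (K : Subgroup G) (s : S) : Prop :=
  ∀ u : U, (u : G) ∈ K → ω u s = s

omit [TopologicalSpace G] [IsTopologicalGroup G] in
theorem FixS.mono {ω : U →* Module.End ℂ S} {K K' : Subgroup G} {s : S} (h : FixS ω K s)
    (hK : K' ≤ K) : FixS ω K' s := fun u hu => h u (hK hu)

theorem extF_index {ω : U →* Module.End ℂ S} (hβ : InvF β ω) {K K' : Subgroup G} (hK : CO U K)
    (hK' : CO U K') (h : K' ≤ K) {g : G} {w : W} (hw : w ∈ wfix τ K g) {s : S} (hs : FixS ω K s)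
    (hb : bump τ K g w ∈ indS P τ) (hb' : bump τ K' g w ∈ indS P τ) :
    (K'.relIndex (Mg P g ⊓ K) : ℂ) * extF β (bump τ K g w) s =
      (K'.relIndex K : ℂ) * extF β (bump τ K' g w) s := by
  have hi := hK.relIndex_ne hK'
  haveI : (K'.subgroupOf K).FiniteIndex := ⟨hi⟩
  haveI : Fintype (K ⧸ K'.subgroupOf K) := Subgroup.fintypeQuotientOfFiniteIndex
  have h1 := sum_rtr_bump h hi hw
  have h2 := extF_sum (β := β) (Finset.univ : Finset (K ⧸ K'.subgroupOf K))
    (fun t => rtr ((t.out : K) : G) (bump τ K' g w)) (fun t _ => rtr_mem_indS hb' _) s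
  rw [h1, ← Nat.cast_smul_eq_nsmul ℂ, extF_smul hb] at h2
  rw [h2]
  have h3 : ∀ t : K ⧸ K'.subgroupOf K, extF β (rtr ((t.out : K) : G) (bump τ K' g w)) s =
      extF β (bump τ K' g w) s := by
    intro t
    have h4 := hβ ⟨((t.out : K) : G), hK.le (Subtype.coe_prop _)⟩ _ hb' s
    rw [hs _ (Subtype.coe_prop (t.out : K))] at h4
    exact h4
  rw [Finset.sum_congr rfl fun t _ => h3 t, Finset.sum_const, Finset.card_univ,
    ← Nat.card_eq_fintype_card, nsmul_eq_mul]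
  rfl

/-- The data at the point `g`: `χ` is the modulus, `c K` the weight of `K`. -/
structure FibH (τ : P →* Module.End ℂ W) (ω : U →* Module.End ℂ S) (g : G)
    (χ : G → ℝ) (c : Subgroup G → ℝ) : Prop where
  hb : ∀ K, CO U K → ∀ w ∈ wfix τ K g, bump τ K g w ∈ indS P τ
  hw : ∀ w, ∃ K, CO U K ∧ w ∈ wfix τ K g
  hs : ∀ s, ∃ K, CO U K ∧ FixS ω K s
  c_pos : ∀ K, CO U K → 0 < c K
  c_index : ∀ K K', CO U K → CO U K' → K' ≤ K →
    c K' * K'.relIndex K = c K * K'.relIndex (Mg P g ⊓ K)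
  c_conj : ∀ K, CO U K → ∀ u ∈ U, u ∈ Mg P g →
    c (K.map (MulAut.conj u).toMonoidHom) * χ u = c K

variable {ω : U →* Module.End ℂ S} {g : G} {χ : G → ℝ} {c : Subgroup G → ℝ}

/-- `K` can be used for `w`, `s`. -/
def GoodK (τ : P →* Module.End ℂ W) (ω : U →* Module.End ℂ S) (g : G) (w : W) (s : S)
    (K : Subgroup G) : Prop := CO U K ∧ w ∈ wfix τ K g ∧ FixS ω K s

theorem FibH.exists_good [T2Space G] (H : FibH τ ω g χ c) (w : W) (s : S) :
    ∃ K, GoodK τ ω g w s K := by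
  obtain ⟨K, hK, h1⟩ := H.hw w
  obtain ⟨K', hK', h2⟩ := H.hs s
  exact ⟨K ⊓ K', hK.inf hK', wfix_mono inf_le_left g h1, h2.mono inf_le_right⟩

theorem GoodK.inf [T2Space G] {w : W} {s : S} {K K' : Subgroup G} (h : GoodK τ ω g w s K)
    (h' : CO U K') : GoodK τ ω g w s (K ⊓ K') :=
  ⟨h.1.inf h', wfix_mono inf_le_left g h.2.1, h.2.2.mono inf_le_left⟩

theorem GoodK.inf' [T2Space G] {w : W} {s : S} {K K' : Subgroup G} (h : GoodK τ ω g w s K)
    (h' : CO U K') : GoodK τ ω g w s (K' ⊓ K) := by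
  rw [inf_comm]
  exact h.inf h'

theorem FibH.indep_le (H : FibH τ ω g χ c) (hβ : InvF β ω) {w : W} {s : S} {K K' : Subgroup G}
    (h : GoodK τ ω g w s K) (h' : CO U K') (hle : K' ≤ K) :
    ((c K : ℝ) : ℂ)⁻¹ * extF β (bump τ K g w) s =
      ((c K' : ℝ) : ℂ)⁻¹ * extF β (bump τ K' g w) s := by
  have hw' := wfix_mono hle g h.2.1
  have h1 := extF_index hβ h.1 h' hle h.2.1 h.2.2 (H.hb K h.1 w h.2.1) (H.hb K' h' w hw')
  have h2 : ((c K' : ℝ) : ℂ) * (K'.relIndex K : ℂ) = ((c K : ℝ) : ℂ) *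
      (K'.relIndex (Mg P g ⊓ K) : ℂ) := by
    exact_mod_cast congrArg (fun x : ℝ => (x : ℂ)) (H.c_index K K' h.1 h' hle)
  have h3 : ((c K : ℝ) : ℂ) ≠ 0 := by exact_mod_cast (H.c_pos K h.1).ne'
  have h4 : ((c K' : ℝ) : ℂ) ≠ 0 := by exact_mod_cast (H.c_pos K' h').ne'
  have h5 : (K'.relIndex K : ℂ) ≠ 0 := by exact_mod_cast h.1.relIndex_ne h'
  have h6 : (K'.relIndex (Mg P g ⊓ K) : ℂ) ≠ 0 := by
    intro h0
    rw [h0, mul_zero] at h2
    exact mul_ne_zero h4 h5 h2
  rw [inv_mul_eq_div, inv_mul_eq_div, div_eq_div_iff h3 h4]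
  apply mul_left_cancel₀ h6
  calc (K'.relIndex (Mg P g ⊓ K) : ℂ) * (extF β (bump τ K g w) s * (c K' : ℝ)) =
      ((K'.relIndex (Mg P g ⊓ K) : ℂ) * extF β (bump τ K g w) s) * (c K' : ℝ) := by ring
    _ = extF β (bump τ K' g w) s * (((c K' : ℝ) : ℂ) * (K'.relIndex K : ℂ)) := by
      rw [h1]
      ring
    _ = _ := by
      rw [h2]
      ring

theorem FibH.indep [T2Space G] (H : FibH τ ω g χ c) (hβ : InvF β ω) {w : W} {s : S}
    {K K' : Subgroup G} (h : GoodK τ ω g w s K) (h' : GoodK τ ω g w s K') :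
    ((c K : ℝ) : ℂ)⁻¹ * extF β (bump τ K g w) s =
      ((c K' : ℝ) : ℂ)⁻¹ * extF β (bump τ K' g w) s := by
  rw [H.indep_le hβ h (h.inf h'.1).1 inf_le_left, H.indep_le hβ h' (h.inf h'.1).1 inf_le_right]

/-- the value of the form on the fibre -/
noncomputable def fibV (β : indS P τ →ₗ[ℂ] S →ₗ[ℂ] ℂ) (ω : U →* Module.End ℂ S) (g : G)
    (c : Subgroup G → ℝ) (w : W) (s : S) : ℂ :=
  open Classical in if h : ∃ K, GoodK τ ω g w s K then
    ((c h.choose : ℝ) : ℂ)⁻¹ * extF β (bump τ h.choose g w) s else 0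

theorem FibH.fibV_eq [T2Space G] (H : FibH τ ω g χ c) (hβ : InvF β ω) {w : W} {s : S}
    {K : Subgroup G} (h : GoodK τ ω g w s K) :
    fibV β ω g c w s = ((c K : ℝ) : ℂ)⁻¹ * extF β (bump τ K g w) s := by
  have h0 : ∃ K, GoodK τ ω g w s K := ⟨K, h⟩
  rw [fibV, dif_pos h0]
  exact H.indep hβ h0.choose_spec h

/-- The form on the fibre. -/
noncomputable def FibH.fib [T2Space G] (H : FibH τ ω g χ c) (hβ : InvF β ω) :
    W →ₗ[ℂ] S →ₗ[ℂ] ℂ :=
  LinearMap.mk₂ ℂ (fibV β ω g c)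
    (by
      intro w w' s
      obtain ⟨K, hK⟩ := H.exists_good w s
      obtain ⟨K', hK'⟩ := H.exists_good w' s
      have h1 := hK.inf hK'.1
      have h2 := hK'.inf' hK.1
      have h3 : GoodK τ ω g (w + w') s (K ⊓ K') := ⟨h1.1, add_mem h1.2.1 h2.2.1, h1.2.2⟩
      rw [H.fibV_eq hβ h1, H.fibV_eq hβ h2, H.fibV_eq hβ h3, bump_add h1.2.1 h2.2.1,
        extF_add (H.hb _ h1.1 _ h1.2.1) (H.hb _ h1.1 _ h2.2.1), mul_add])
    (by
      intro a w s
      obtain ⟨K, hK⟩ := H.exists_good w s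
      have h3 : GoodK τ ω g (a • w) s K := ⟨hK.1, Submodule.smul_mem _ a hK.2.1, hK.2.2⟩
      rw [H.fibV_eq hβ hK, H.fibV_eq hβ h3, bump_smul hK.2.1, extF_smul (H.hb _ hK.1 _ hK.2.1),
        smul_eq_mul]
      ring)
    (by
      intro w s s'
      obtain ⟨K, hK⟩ := H.exists_good w s
      obtain ⟨K', hK'⟩ := H.exists_good w s'
      have h1 := hK.inf hK'.1
      have h2 := hK'.inf' hK.1
      have h3 : GoodK τ ω g w (s + s') (K ⊓ K') := by
        refine ⟨h1.1, h1.2.1, fun u hu => ?_⟩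
        rw [map_add, h1.2.2 u hu, h2.2.2 u hu]
      rw [H.fibV_eq hβ h1, H.fibV_eq hβ h2, H.fibV_eq hβ h3,
        extF_right (H.hb _ h1.1 _ h1.2.1), mul_add])
    (by
      intro a w s
      obtain ⟨K, hK⟩ := H.exists_good w s
      have h3 : GoodK τ ω g w (a • s) K := by
        refine ⟨hK.1, hK.2.1, fun u hu => ?_⟩
        rw [map_smul, hK.2.2 u hu]
      rw [H.fibV_eq hβ hK, H.fibV_eq hβ h3, extF_right_smul (H.hb _ hK.1 _ hK.2.1),
        smul_eq_mul]
      ring)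

theorem FibH.fib_apply [T2Space G] (H : FibH τ ω g χ c) (hβ : InvF β ω) (w : W) (s : S) :
    H.fib hβ w s = fibV β ω g c w s := rfl

theorem FibH.fib_eq [T2Space G] (H : FibH τ ω g χ c) (hβ : InvF β ω) {w : W} {s : S}
    {K : Subgroup G} (h : GoodK τ ω g w s K) :
    H.fib hβ w s = ((c K : ℝ) : ℂ)⁻¹ * extF β (bump τ K g w) s := H.fibV_eq hβ h

/-- The form on the fibre vanishes iff the form vanishes on a bump. -/
theorem FibH.extF_bump [T2Space G] (H : FibH τ ω g χ c) (hβ : InvF β ω) {w : W} {s : S}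
    {K : Subgroup G} (h : GoodK τ ω g w s K) :
    extF β (bump τ K g w) s = ((c K : ℝ) : ℂ) * H.fib hβ w s := by
  have h3 : ((c K : ℝ) : ℂ) ≠ 0 := by exact_mod_cast (H.c_pos K h.1).ne'
  rw [H.fib_eq hβ h, mul_inv_cancel_left₀ h3]

/-- The form on the fibre is invariant. -/
theorem FibH.fib_inv [T2Space G] (H : FibH τ ω g χ c) (hβ : InvF β ω) (u : U) (q : P)
    (hq : (q : G) = g * u * g⁻¹) (w : W) (s : S) :
    H.fib hβ (τ q w) (ω u s) = ((χ u : ℝ) : ℂ) * H.fib hβ w s := by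
  obtain ⟨K, hK⟩ := H.exists_good w s
  have hu : (u : G) ∈ Mg P g := by
    rw [mem_Mg, ← hq]
    exact q.2
  obtain ⟨h1, h2⟩ := rtr_bump_conj hK.2.1 q hq
  have h3 : GoodK τ ω g (τ q w) (ω u s) (K.map (MulAut.conj (u : G)).toMonoidHom) := by
    refine ⟨hK.1.map u.2, h1, fun v hv => ?_⟩
    obtain ⟨k, hk, e⟩ := Subgroup.mem_map.1 hv
    have e' : (u : G) * k * (u : G)⁻¹ = v := e
    have e2 : v * u = u * ⟨k, hK.1.le hk⟩ := by
      apply Subtype.ext
      show (v : G) * u = u * k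
      rw [← e', inv_mul_cancel_right]
    rw [← Module.End.mul_apply, ← map_mul, e2, map_mul, Module.End.mul_apply,
      hK.2.2 ⟨k, hK.1.le hk⟩ hk]
  have h4 : ((c (K.map (MulAut.conj (u : G)).toMonoidHom) : ℝ) : ℂ) * ((χ u : ℝ) : ℂ) =
      ((c K : ℝ) : ℂ) := by
    exact_mod_cast congrArg (fun x : ℝ => (x : ℂ)) (H.c_conj K hK.1 u u.2 hu)
  have h5 : ((c (K.map (MulAut.conj (u : G)).toMonoidHom) : ℝ) : ℂ) ≠ 0 := by
    exact_mod_cast (H.c_pos _ h3.1).ne'
  have h6 : ((c K : ℝ) : ℂ) ≠ 0 := by exact_mod_cast (H.c_pos K hK.1).ne'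
  rw [H.fib_eq hβ h3, H.fib_eq hβ hK, ← h2, hβ u _ (H.hb K hK.1 w hK.2.1) s, ← h4]
  rw [← h4] at h6
  have h7 := right_ne_zero_of_mul h6
  field_simp

end form

end SpW
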