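import Pool.Agent.Work.MP_3615d2_al.P1.FibB

/-!
MP_3615d2_al, Part 1: properties of the form on the fibre: the decomposition of a section into
bumps, change of the point in the double coset `P g U`, linearity, naturality.
-/

open Filter Topology MeasureTheory

namespace SpW

section dec

variable {G W S : Type} [Group G] [TopologicalSpace G] [IsTopologicalGroup G] [AddCommGroup W]
  [Module ℂ W] [AddCommGroup S] [Module ℂ S] {P : Subgroup G} {τ : P →* Module.End ℂ W}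
  {β : indS P τ →ₗ[ℂ] S →ₗ[ℂ] ℂ}

theorem indS_locConst {f : G → W} (hf : f ∈ indS P τ) : IsLocallyConstant f := by
  obtain ⟨-, K, hK, h⟩ := hf
  rw [IsLocallyConstant.iff_eventually_eq]
  intro g
  have h0 : Tendsto (fun y : G => g⁻¹ * y) (𝓝 g) (𝓝 1) := by
    have : ContinuousAt (fun y : G => g⁻¹ * y) g := by fun_prop
    simpa [ContinuousAt] using this
  filter_upwards [h0.eventually (hK.mem_nhds K.one_mem)] with y hy
  have h1 := h g _ hy
  rwa [mul_inv_cancel_left] at h1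

theorem extF_indicator {f : G → W} (hf : f ∈ indE P τ) {K : Subgroup G}
    (hK : ∀ g, ∀ k ∈ K, f (g * k) = f g) (s : S) (J : Finset G)
    (hb : ∀ g ∈ J, bump τ K g (f g) ∈ indS P τ)
    (h : ∀ g ∈ J, extF β (bump τ K g (f g)) s = 0) :
    Set.indicator (dco P K (J : Set G)) f ∈ indS P τ ∧
      extF β (Set.indicator (dco P K (J : Set G)) f) s = 0 := by
  classical
  induction J using Finset.induction_on with
  | empty =>
    have : dco P K ((∅ : Finset G) : Set G) = ∅ := by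
      ext x
      simp only [Set.mem_empty_iff_false, iff_false]
      rintro ⟨p, -, d, hd, -⟩
      simp at hd
    rw [this, Set.indicator_empty]
    exact ⟨zero_mem _, extF_zero s⟩
  | insert g J hgJ ih =>
    obtain ⟨ih1, ih2⟩ := ih (fun g' hg' => hb g' (Finset.mem_insert_of_mem hg'))
      (fun g' hg' => h g' (Finset.mem_insert_of_mem hg'))
    rw [Finset.coe_insert, dco_insert]
    by_cases hg : g ∈ dco P K (J : Set G)
    · rw [Set.union_eq_self_of_subset_left (dco_subset_of_mem hg)]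
      exact ⟨ih1, ih2⟩
    · have h1 := (indicator_eq_bump hf hK g).2
      have h2 := hb g (Finset.mem_insert_self _ _)
      rw [Set.indicator_union_of_disjoint (dco_disjoint hg), h1]
      refine ⟨add_mem h2 ih1, ?_⟩
      have h3 := extF_add (β := β) h2 ih1 s
      rw [h, ih2, add_zero] at h3
      · exact h3
      · exact Finset.mem_insert_self _ _

/-- **Decomposition into bumps.** -/
theorem extF_eq_zero_of_bumps {C : Set G} (hC : IsCompact C)
    (hPC : ∀ g, ∃ p : P, ∃ x ∈ C, g = p * x) {f : G → W} (hf : f ∈ indS P τ) {K : Subgroup G}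
    (hK : ∀ g, ∀ k ∈ K, f (g * k) = f g) (hO : ∀ g, f g ≠ 0 → IsOpen (dco P K {g}))
    (hb : ∀ g, f g ≠ 0 → bump τ K g (f g) ∈ indS P τ) (s : S)
    (h : ∀ g, f g ≠ 0 → extF β (bump τ K g (f g)) s = 0) : extF β f s = 0 := by
  classical
  set D : Set G := C ∩ {x | f x ≠ 0} with hD
  have hcl : IsClosed {x | f x ≠ 0} := ((indS_locConst hf).isOpen_fiber 0).isClosed_compl
  have hDc : IsCompact D := hC.inter_right hcl
  obtain ⟨t, ht⟩ := hDc.elim_finite_subcover (fun g : D => dco P K {(g : G)})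
    (fun g => hO g g.2.2) (fun x hx => Set.mem_iUnion.2 ⟨⟨x, hx⟩, mem_dco_self rfl⟩)
  set J : Finset G := t.image Subtype.val with hJ
  have hJ0 : ∀ g ∈ J, f g ≠ 0 := by
    intro g hg
    obtain ⟨g', -, rfl⟩ := Finset.mem_image.1 hg
    exact g'.2.2
  obtain ⟨-, h2⟩ := extF_indicator (β := β) hf.1 hK s J (fun g hg => hb g (hJ0 g hg))
    (fun g hg => h g (hJ0 g hg))
  have h3 : Set.indicator (dco P K (J : Set G)) f = f := by
    funext x
    by_cases hx : x ∈ dco P K (J : Set G)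
    · rw [Set.indicator_of_mem hx]
    · rw [Set.indicator_of_notMem hx]
      by_contra h0
      obtain ⟨p, y, hy, rfl⟩ := hPC x
      have h4 : f y ≠ 0 := by
        intro h5
        apply h0
        rw [hf.1 p y, h5, map_zero]
      obtain ⟨g, hg⟩ := Set.mem_iUnion.1 (ht ⟨hy, h4⟩)
      obtain ⟨hg1, hg2⟩ := Set.mem_iUnion.1 hg
      apply hx
      obtain ⟨q, hq, d, hd, k, hk, e⟩ := hg2
      rw [Set.mem_singleton_iff] at hd
      refine ⟨p * q, P.mul_mem p.2 hq, g, ?_, k, hk, ?_⟩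
      · rw [hJ, Finset.coe_image]
        exact ⟨g, hg1, rfl⟩
      · rw [e, hd]
        group
  rw [h3] at h2
  exact h2

end dec

section rules

variable {G W S : Type} [Group G] [TopologicalSpace G] [IsTopologicalGroup G] [T2Space G]
  [AddCommGroup W] [Module ℂ W] [AddCommGroup S] [Module ℂ S] {P : Subgroup G}
  {τ : P →* Module.End ℂ W} {U : Subgroup G} {β β' : indS P τ →ₗ[ℂ] S →ₗ[ℂ] ℂ}
  {ω : U →* Module.End ℂ S} {g : G} {χ χ' : G → ℝ} {c c' : Subgroup G → ℝ}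

/-- Different weights differ by a constant. -/
theorem FibH.weight (H : FibH τ ω g χ c) (H' : FibH τ ω g χ' c') {K K' : Subgroup G}
    (hK : CO U K) (hK' : CO U K') : c K * c' K' = c' K * c K' := by
  have key : ∀ K K' : Subgroup G, CO U K → CO U K' → K' ≤ K → c K * c' K' = c' K * c K' := by
    intro K K' hK hK' hle
    have h1 := H.c_index K K' hK hK' hle
    have h2 := H'.c_index K K' hK hK' hle
    have h3 : (K'.relIndex K : ℝ) ≠ 0 := by exact_mod_cast hK.relIndex_ne hK'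
    have h4 : (K'.relIndex (Mg P g ⊓ K) : ℝ) ≠ 0 := by
      intro h0
      rw [h0, mul_zero] at h1
      exact mul_ne_zero (H.c_pos K' hK').ne' h3 h1
    have h5 := (H.c_pos K' hK').ne'
    apply mul_right_cancel₀ h4
    apply mul_right_cancel₀ h3
    calc c K * c' K' * (K'.relIndex (Mg P g ⊓ K) : ℝ) * (K'.relIndex K : ℝ) =
        (c K * (K'.relIndex (Mg P g ⊓ K) : ℝ)) * (c' K' * (K'.relIndex K : ℝ)) := by ring
      _ = c' K * c K' * (K'.relIndex (Mg P g ⊓ K) : ℝ) * (K'.relIndex K : ℝ) := by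
        rw [← h1, h2]
        ring
  have h1 := key K (K ⊓ K') hK (hK.inf hK') inf_le_left
  have h2 := key K' (K ⊓ K') hK' (hK.inf hK') inf_le_right
  have h5 := (H.c_pos _ (hK.inf hK')).ne'
  have h6 := (H'.c_pos _ (hK.inf hK')).ne'
  apply mul_right_cancel₀ (mul_ne_zero h5 h6)
  calc c K * c' K' * (c (K ⊓ K') * c' (K ⊓ K')) =
      (c K * c' (K ⊓ K')) * (c' K' * c (K ⊓ K')) := by ring
    _ = c' K * c K' * (c (K ⊓ K') * c' (K ⊓ K')) := by
      rw [h1, ← h2]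
      ring

theorem FibH.ratio (H : FibH τ ω g χ c) (H' : FibH τ ω g χ' c') (hU : ∃ K, CO U K) :
    ∃ r : ℝ, 0 < r ∧ ∀ (β : indS P τ →ₗ[ℂ] S →ₗ[ℂ] ℂ) (hβ : InvF β ω) (w : W) (s : S),
      H'.fib hβ w s = ((r : ℝ) : ℂ) * H.fib hβ w s := by
  obtain ⟨K₀, hK₀⟩ := hU
  refine ⟨c K₀ / c' K₀, div_pos (H.c_pos _ hK₀) (H'.c_pos _ hK₀), fun β hβ w s => ?_⟩
  obtain ⟨K, hK⟩ := H.exists_good w s
  have h1 := H.weight H' hK.1 hK₀
  have h2 : ((c K : ℝ) : ℂ) * ((c' K₀ : ℝ) : ℂ) = ((c' K : ℝ) : ℂ) * ((c K₀ : ℝ) : ℂ) := by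
    exact_mod_cast congrArg (fun x : ℝ => (x : ℂ)) h1
  have h3 : ((c K : ℝ) : ℂ) ≠ 0 := by exact_mod_cast (H.c_pos K hK.1).ne'
  have h4 : ((c' K : ℝ) : ℂ) ≠ 0 := by exact_mod_cast (H'.c_pos K hK.1).ne'
  have h5 : ((c' K₀ : ℝ) : ℂ) ≠ 0 := by exact_mod_cast (H'.c_pos K₀ hK₀).ne'
  rw [H.fib_eq hβ hK, H'.fib_eq hβ hK]
  push_cast
  field_simp
  rw [mul_comm _ ((c' K₀ : ℝ) : ℂ), mul_comm _ (extF β (bump τ K g w) s)]
  linear_combination (extF β (bump τ K g w) s) * h2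

theorem Mg_mul_left (p : P) (g : G) : Mg P ((p : G) * g) = Mg P g := by
  ext u
  rw [mem_Mg, mem_Mg]
  have e : (p : G) * g * u * ((p : G) * g)⁻¹ = p * (g * u * g⁻¹) * (p : G)⁻¹ := by group
  rw [e]
  constructor
  · intro h
    have := P.mul_mem (P.mul_mem (P.inv_mem p.2) h) p.2
    have e2 : (p : G)⁻¹ * (p * (g * u * g⁻¹) * (p : G)⁻¹) * p = g * u * g⁻¹ := by group
    rwa [e2] at this
  · intro h
    exact P.mul_mem (P.mul_mem p.2 h) (P.inv_mem p.2)

theorem FibH.left (H : FibH τ ω g χ c) (p : P) : FibH τ ω ((p : G) * g) χ c where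
  hb := by
    intro K hK w hw
    have h0 : (p : G) * g = p * g := rfl
    obtain ⟨h1, h2⟩ := bump_left (p⁻¹) hw
    have e : ((p⁻¹ : P) : G) * (p * g) = g := by
      rw [Subgroup.coe_inv, inv_mul_cancel_left]
    rw [e] at h1 h2
    rw [← h2]
    exact H.hb K hK _ h1
  hw := by
    intro w
    obtain ⟨K, hK, h1⟩ := H.hw (τ p⁻¹ w)
    refine ⟨K, hK, ?_⟩
    have h2 := (bump_left p h1).1
    rwa [← Module.End.mul_apply, ← map_mul, mul_inv_cancel, map_one, Module.End.one_apply] at h2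
  hs := H.hs
  c_pos := H.c_pos
  c_index := by
    intro K K' hK hK' h
    rw [Mg_mul_left]
    exact H.c_index K K' hK hK' h
  c_conj := by
    intro K hK u hu hug
    rw [Mg_mul_left] at hug
    exact H.c_conj K hK u hu hug

theorem FibH.fib_left (H : FibH τ ω g χ c) (p : P) (hβ : InvF β ω) (w : W) (s : S) :
    (H.left p).fib hβ (τ p w) s = H.fib hβ w s := by
  obtain ⟨K, hK⟩ := H.exists_good w s
  obtain ⟨h1, h2⟩ := bump_left p hK.2.1
  have h3 : GoodK τ ω ((p : G) * g) (τ p w) s K := ⟨hK.1, h1, hK.2.2⟩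
  rw [H.fib_eq hβ hK, (H.left p).fib_eq hβ h3, h2]

theorem bump_conj_right {K : Subgroup G} {g u : G} {w : W}
    (hw : w ∈ wfix τ (K.map (MulAut.conj u).toMonoidHom) g) : w ∈ wfix τ K (g * u) ∧
      bump τ K (g * u) w = rtr u⁻¹ (bump τ (K.map (MulAut.conj u).toMonoidHom) g w) := by
  have h1 : w ∈ wfix τ K (g * u) := by
    intro p k hk hp
    refine hw p (u * k * u⁻¹) (Subgroup.mem_map.2 ⟨k, hk, rfl⟩) ?_
    rw [hp]
    group
  refine ⟨h1, ?_⟩
  funext x
  rw [rtr_apply]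
  by_cases hx : ∃ p : P, ∃ k : G, k ∈ K ∧ x = p * (g * u) * k
  · obtain ⟨p, k, hk, rfl⟩ := hx
    have e : (p : G) * (g * u) * k * u⁻¹ = p * g * (u * k * u⁻¹) := by group
    have hk2 : u * k * u⁻¹ ∈ K.map (MulAut.conj u).toMonoidHom :=
      Subgroup.mem_map.2 ⟨k, hk, rfl⟩
    rw [bump_apply h1 p hk, e, bump_apply hw p hk2]
  · rw [bump_of_notMem hx, bump_of_notMem]
    rintro ⟨p, k, hk, e⟩
    obtain ⟨k', hk', rfl⟩ := Subgroup.mem_map.1 hk
    refine hx ⟨p, k', hk', ?_⟩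
    have e' : x * u⁻¹ = p * g * (u * k' * u⁻¹) := e
    have e2 : x = x * u⁻¹ * u := by group
    rw [e2, e']
    group

theorem map_conj_map (u : G) (K : Subgroup G) :
    (K.map (MulAut.conj u).toMonoidHom).map (MulAut.conj u⁻¹).toMonoidHom = K := by
  ext x
  constructor
  · rintro ⟨y, ⟨k, hk, rfl⟩, rfl⟩
    show u⁻¹ * (u * k * u⁻¹) * u⁻¹⁻¹ ∈ K
    have e : u⁻¹ * (u * k * u⁻¹) * u⁻¹⁻¹ = k := by group
    rw [e]
    exact hk
  · intro hx
    refine ⟨u * x * u⁻¹, ⟨x, hx, rfl⟩, ?_⟩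
    show u⁻¹ * (u * x * u⁻¹) * u⁻¹⁻¹ = x
    group

theorem relIndex_conj (u : G) (K K' : Subgroup G) :
    (K'.map (MulAut.conj u).toMonoidHom).relIndex (K.map (MulAut.conj u).toMonoidHom) =
      K'.relIndex K := by
  rw [Subgroup.relIndex_map_map]
  have h1 : (MulAut.conj u).toMonoidHom.ker = ⊥ := by
    rw [MonoidHom.ker_eq_bot_iff]
    exact (MulAut.conj u).injective
  rw [h1, sup_bot_eq, sup_bot_eq]

theorem FibH.right (H : FibH τ ω g χ c) {u : G} (hu : u ∈ U) :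
    FibH τ ω (g * u) (fun x => χ (u * x * u⁻¹))
      (fun K => c (K.map (MulAut.conj u).toMonoidHom)) where
  hb := by
    intro K hK w hw
    have h1 : w ∈ wfix τ (K.map (MulAut.conj u).toMonoidHom) g := by
      intro p k hk hp
      obtain ⟨k', hk', rfl⟩ := Subgroup.mem_map.1 hk
      have hp' : (p : G) = g * (u * k' * u⁻¹) * g⁻¹ := hp
      refine hw p k' hk' ?_
      rw [hp']
      group
    rw [(bump_conj_right h1).2]
    exact rtr_mem_indS (H.hb _ (hK.map hu) _ h1) _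
  hw := by
    intro w
    obtain ⟨K, hK, h1⟩ := H.hw w
    refine ⟨K.map (MulAut.conj u⁻¹).toMonoidHom, hK.map (U.inv_mem hu), ?_⟩
    apply (bump_conj_right (u := u) _).1
    have := map_conj_map u⁻¹ K
    rw [inv_inv] at this
    rw [this]
    exact h1
  hs := H.hs
  c_pos := fun K hK => H.c_pos _ (hK.map hu)
  c_index := by
    intro K K' hK hK' h
    have h1 := H.c_index _ _ (hK.map hu) (hK'.map hu) (Subgroup.map_mono h)
    rw [relIndex_conj] at h1
    rw [h1]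
    congr 2
    have h2 : Mg P g ⊓ K.map (MulAut.conj u).toMonoidHom =
        (Mg P (g * u) ⊓ K).map (MulAut.conj u).toMonoidHom := by
      ext x
      constructor
      · rintro ⟨h3, k, hk, rfl⟩
        refine ⟨k, ⟨?_, hk⟩, rfl⟩
        have h3' : g * (u * k * u⁻¹) * g⁻¹ ∈ P := h3
        show g * u * k * (g * u)⁻¹ ∈ P
        have e : g * u * k * (g * u)⁻¹ = g * (u * k * u⁻¹) * g⁻¹ := by group
        rw [e]
        exact h3'
      · rintro ⟨k, ⟨h3, hk⟩, rfl⟩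
        refine ⟨?_, ⟨k, hk, rfl⟩⟩
        have h3' : g * u * k * (g * u)⁻¹ ∈ P := h3
        show g * (u * k * u⁻¹) * g⁻¹ ∈ P
        have e : g * u * k * (g * u)⁻¹ = g * (u * k * u⁻¹) * g⁻¹ := by group
        rw [← e]
        exact h3'
    rw [h2, relIndex_conj]
  c_conj := by
    intro K hK v hv hvg
    have h1 := H.c_conj _ (hK.map hu) (u * v * u⁻¹) (U.mul_mem (U.mul_mem hu hv) (U.inv_mem hu))
      (by
        show g * (u * v * u⁻¹) * g⁻¹ ∈ P
        have h3' : g * u * v * (g * u)⁻¹ ∈ P := hvg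
        have e : g * u * v * (g * u)⁻¹ = g * (u * v * u⁻¹) * g⁻¹ := by group
        rw [← e]
        exact h3')
    have h2 : (K.map (MulAut.conj u).toMonoidHom).map (MulAut.conj (u * v * u⁻¹)).toMonoidHom =
        (K.map (MulAut.conj v).toMonoidHom).map (MulAut.conj u).toMonoidHom := by
      rw [Subgroup.map_map, Subgroup.map_map]
      congr 1
      ext x
      show u * v * u⁻¹ * (u * x * u⁻¹) * (u * v * u⁻¹)⁻¹ = u * (v * x * v⁻¹) * u⁻¹
      group
    rw [h2] at h1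
    exact h1

theorem FibH.fib_right (H : FibH τ ω g χ c) {u : G} (hu : u ∈ U) (hβ : InvF β ω) (w : W) (s : S) :
    (H.right hu).fib hβ w s = H.fib hβ w (ω ⟨u, hu⟩ s) := by
  obtain ⟨K, hK⟩ := H.exists_good w (ω ⟨u, hu⟩ s)
  set K' : Subgroup G := K.map (MulAut.conj u⁻¹).toMonoidHom with hK'
  have e1 : K'.map (MulAut.conj u).toMonoidHom = K := by
    have := map_conj_map u⁻¹ K
    rwa [inv_inv] at this
  have h1 : w ∈ wfix τ (K'.map (MulAut.conj u).toMonoidHom) g := by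
    rw [e1]
    exact hK.2.1
  obtain ⟨h2, h3⟩ := bump_conj_right h1
  have h4 : GoodK τ ω (g * u) w s K' := by
    refine ⟨hK.1.map (U.inv_mem hu), h2, fun v hv => ?_⟩
    obtain ⟨k, hk, e⟩ := Subgroup.mem_map.1 hv
    have e' : u⁻¹ * k * u⁻¹⁻¹ = v := e
    have h5 := hK.2.2 ⟨k, hK.1.le hk⟩ hk
    have h6 : (⟨k, hK.1.le hk⟩ : U) * ⟨u, hu⟩ = ⟨u, hu⟩ * v := by
      apply Subtype.ext
      show k * u = u * (v : G)
      rw [← e']
      group
    rw [← Module.End.mul_apply, ← map_mul, h6, map_mul, Module.End.mul_apply] at h5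
    have h8 : ∀ z, ω (⟨u, hu⟩ : U)⁻¹ (ω ⟨u, hu⟩ z) = z := fun z => by
      rw [← Module.End.mul_apply, ← map_mul, inv_mul_cancel, map_one, Module.End.one_apply]
    have h7 := congrArg (ω (⟨u, hu⟩ : U)⁻¹) h5
    rw [h8, h8] at h7
    exact h7
  rw [H.fib_eq hβ hK, (H.right hu).fib_eq hβ h4, h3, e1]
  congr 1
  have h8 := hβ ⟨u⁻¹, U.inv_mem hu⟩ _ (H.hb K hK.1 w hK.2.1) (ω ⟨u, hu⟩ s)
  rw [← Module.End.mul_apply, ← map_mul] at h8
  have h9 : (⟨u⁻¹, U.inv_mem hu⟩ : U) * ⟨u, hu⟩ = 1 := by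
    apply Subtype.ext
    exact inv_mul_cancel u
  rw [h9, map_one, Module.End.one_apply] at h8
  exact h8

end rules

section linear

variable {G W S : Type} [Group G] [TopologicalSpace G] [IsTopologicalGroup G] [T2Space G]
  [AddCommGroup W] [Module ℂ W] [AddCommGroup S] [Module ℂ S] {P : Subgroup G}
  {τ : P →* Module.End ℂ W} {U : Subgroup G} {β β' : indS P τ →ₗ[ℂ] S →ₗ[ℂ] ℂ}
  {ω : U →* Module.End ℂ S} {g : G} {χ : G → ℝ} {c : Subgroup G → ℝ}

theorem extF_add_form {f : G → W} (hf : f ∈ indS P τ) (s : S) :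
    extF (β + β') f s = extF β f s + extF β' f s := by
  rw [extF_eq hf, extF_eq hf, extF_eq hf]
  rfl

theorem extF_smul_form {f : G → W} (hf : f ∈ indS P τ) (a : ℂ) (s : S) :
    extF (a • β) f s = a * extF β f s := by
  rw [extF_eq hf, extF_eq hf]
  rfl

theorem InvF.add (hβ : InvF β ω) (hβ' : InvF β' ω) : InvF (β + β') ω := by
  intro u f hf s
  rw [extF_add_form (rtr_mem_indS hf _), extF_add_form hf, hβ u f hf s, hβ' u f hf s]

theorem InvF.smul (hβ : InvF β ω) (a : ℂ) : InvF (a • β) ω := by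
  intro u f hf s
  rw [extF_smul_form (rtr_mem_indS hf _), extF_smul_form hf, hβ u f hf s]

theorem FibH.fib_add (H : FibH τ ω g χ c) (hβ : InvF β ω) (hβ' : InvF β' ω) (w : W) (s : S) :
    H.fib (hβ.add hβ') w s = H.fib hβ w s + H.fib hβ' w s := by
  obtain ⟨K, hK⟩ := H.exists_good w s
  rw [H.fib_eq _ hK, H.fib_eq _ hK, H.fib_eq _ hK, extF_add_form (H.hb K hK.1 w hK.2.1), mul_add]

theorem FibH.fib_smul (H : FibH τ ω g χ c) (hβ : InvF β ω) (a : ℂ) (w : W) (s : S) :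
    H.fib (hβ.smul a) w s = a * H.fib hβ w s := by
  obtain ⟨K, hK⟩ := H.exists_good w s
  rw [H.fib_eq _ hK, H.fib_eq _ hK, extF_smul_form (H.hb K hK.1 w hK.2.1)]
  ring

end linear

section natural

variable {G W W' S : Type} [Group G] [TopologicalSpace G] [IsTopologicalGroup G] [T2Space G]
  [AddCommGroup W] [Module ℂ W] [AddCommGroup W'] [Module ℂ W'] [AddCommGroup S] [Module ℂ S]
  {P : Subgroup G} {τ : P →* Module.End ℂ W} {τ' : P →* Module.End ℂ W'} {U : Subgroup G}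
  {β : indS P τ →ₗ[ℂ] S →ₗ[ℂ] ℂ} {β' : indS P τ' →ₗ[ℂ] S →ₗ[ℂ] ℂ}
  {ω : U →* Module.End ℂ S} {g : G} {χ : G → ℝ} {c : Subgroup G → ℝ}

theorem bump_comp {j : W' →ₗ[ℂ] W} (hj : ∀ p w, j (τ' p w) = τ p (j w)) {K : Subgroup G} {g : G}
    {w : W'} (hw : w ∈ wfix τ' K g) :
    j w ∈ wfix τ K g ∧ bump τ K g (j w) = fun x => j (bump τ' K g w x) := by
  have h1 : j w ∈ wfix τ K g := by
    intro p k hk hp
    rw [← hj, hw p k hk hp]
  refine ⟨h1, ?_⟩
  funext x
  by_cases hx : ∃ p : P, ∃ k : G, k ∈ K ∧ x = p * g * k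
  · obtain ⟨p, k, hk, rfl⟩ := hx
    rw [bump_apply h1 p hk, bump_apply hw p hk, hj]
  · rw [bump_of_notMem hx, bump_of_notMem hx, map_zero]

/-- Naturality. -/
theorem FibH.fib_natural (H : FibH τ ω g χ c) (H' : FibH τ' ω g χ c) (hβ : InvF β ω)
    (hβ' : InvF β' ω) (j : W' →ₗ[ℂ] W) (hj : ∀ p w, j (τ' p w) = τ p (j w))
    (hββ : ∀ f (_ : f ∈ indS P τ') (s : S), extF β' f s = extF β (fun x => j (f x)) s)
    (w : W') (s : S) : H'.fib hβ' w s = H.fib hβ (j w) s := by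
  obtain ⟨K, hK⟩ := H'.exists_good w s
  obtain ⟨h1, h2⟩ := bump_comp hj hK.2.1
  have h3 : GoodK τ ω g (j w) s K := ⟨hK.1, h1, hK.2.2⟩
  rw [H'.fib_eq hβ' hK, H.fib_eq hβ h3, hββ _ (H'.hb K hK.1 w hK.2.1), h2]

end natural

end SpW
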