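import Pool.Agent.Work.MP_3615d2_al.P1.FibC
import Pool.Agent.Work.MP_3615d2_al.Co.IndAB
import Pool.Agent.Work.MP_3615d2_al.Mo.Hens

/-!
MP_3615d2_al, Part 1: the double cosets `P g U(H)` over the nondegenerate subspaces are open.
-/

open Filter Topology Matrix

set_option linter.unusedSectionVars false

namespace SpW

section blk

variable {F E : Type} [NontriviallyNormedField F] [IsUltrametricDist F] [ProperSpace F]
  [NontriviallyNormedField E] [NormedAlgebra F E] [IsUltrametricDist E] [ProperSpace E]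
  (σ : E ≃ₐ[F] E) {a b N : ℕ} (h : a + b = N)

theorem bmJF_transpose (A : Matrix (Fin a) (Fin a) E) (B : Matrix (Fin a) (Fin b) E)
    (C : Matrix (Fin b) (Fin a) E) (D : Matrix (Fin b) (Fin b) E) :
    (bmJ h A B C D).transpose = bmJ h A.transpose C.transpose B.transpose D.transpose := by
  unfold bmJ
  rw [Matrix.reindex_apply, Matrix.reindex_apply, Matrix.transpose_submatrix,
    Matrix.fromBlocks_transpose]

theorem bmJF_map (A : Matrix (Fin a) (Fin a) E) (B : Matrix (Fin a) (Fin b) E)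
    (C : Matrix (Fin b) (Fin a) E) (D : Matrix (Fin b) (Fin b) E) :
    (bmJ h A B C D).map σ = bmJ h (A.map σ) (B.map σ) (C.map σ) (D.map σ) := by
  unfold bmJ
  rw [Matrix.reindex_apply, Matrix.reindex_apply, ← Matrix.submatrix_map, Matrix.fromBlocks_map]

theorem bmJF_inj {A A' : Matrix (Fin a) (Fin a) E} {B B' : Matrix (Fin a) (Fin b) E}
    {C C' : Matrix (Fin b) (Fin a) E} {D D' : Matrix (Fin b) (Fin b) E}
    (e : bmJ h A B C D = bmJ h A' B' C' D') : A = A' ∧ B = B' ∧ C = C' ∧ D = D' := by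
  have h2 := (Matrix.reindex (sJ h) (sJ h)).injective e
  rw [Matrix.fromBlocks_inj] at h2
  exact h2

theorem det_bmJ_diag (A : Matrix (Fin a) (Fin a) E) (D : Matrix (Fin b) (Fin b) E) :
    (bmJ h A 0 0 D).det = A.det * D.det := by
  unfold bmJ
  rw [Matrix.det_reindex_self, Matrix.det_fromBlocks_zero₂₁]

theorem gram_bmJ_diag (A : Matrix (Fin a) (Fin a) E) (D : Matrix (Fin b) (Fin b) E)
    (p : Matrix (Fin a) (Fin a) E) (q : Matrix (Fin b) (Fin b) E) :
    gram σ (bmJ h A 0 0 D) (bmJ h p 0 0 q) = bmJ h (gram σ A p) 0 0 (gram σ D q) := by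
  unfold gram
  rw [bmJF_transpose, bmJF_map, bmJ_mul, bmJ_mul]
  have h0 : (0 : Matrix (Fin a) (Fin b) E).map σ = 0 := by
    ext i j
    simp
  have h0' : (0 : Matrix (Fin b) (Fin a) E).map σ = 0 := by
    ext i j
    simp
  rw [h0, h0']
  congr 1 <;> simp

/-- The element which makes the Gram matrix block diagonal. -/
noncomputable def zM (M : Matrix (Fin N) (Fin N) E) : Matrix (Fin a) (Fin b) E :=
  -(((upLJ h M)⁻¹ * upRJ h M).map σ)

/-- The Schur complement. -/
noncomputable def scM (M : Matrix (Fin N) (Fin N) E) : Matrix (Fin b) (Fin b) E :=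
  lowRJ h M - lowLJ h M * (upLJ h M)⁻¹ * upRJ h M

theorem skew_blocks {M : Matrix (Fin N) (Fin N) E} (hM : cst σ M = -M) :
    cst σ (upLJ h M) = -upLJ h M ∧ cst σ (lowRJ h M) = -lowRJ h M ∧
      (∀ i j, lowLJ h M i j = -σ (upRJ h M j i)) := by
  have h1 : ∀ i j, M i j = -σ (M j i) := by
    intro i j
    have h2 := congrFun (congrFun hM i) j
    have h3 : σ (M j i) = -M i j := h2
    rw [h3, neg_neg]
  refine ⟨?_, ?_, fun i j => h1 _ _⟩
  · ext i j
    show σ (M _ _) = -M _ _
    rw [h1 (sJ h (Sum.inl i)) (sJ h (Sum.inl j)), neg_neg]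
  · ext i j
    show σ (M _ _) = -M _ _
    rw [h1 (sJ h (Sum.inr i)) (sJ h (Sum.inr j)), neg_neg]

/-- conjugate transpose of rectangular matrices -/
def cstR {k l : ℕ} (σ : E → E) (M : Matrix (Fin k) (Fin l) E) : Matrix (Fin l) (Fin k) E :=
  fun i j => σ (M j i)

theorem cstR_mul {k l r : ℕ} (A : Matrix (Fin k) (Fin l) E) (B : Matrix (Fin l) (Fin r) E) :
    cstR σ (A * B) = cstR σ B * cstR σ A := by
  ext i j
  simp only [cstR, Matrix.mul_apply, map_sum, map_mul]
  exact Finset.sum_congr rfl fun k _ => mul_comm _ _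

variable {σ} {δ : E} {d : F}

/-- Block diagonalisation. -/
theorem gram_block (hq : QuadDatum σ δ d) {M : Matrix (Fin N) (Fin N) E} (hM : cst σ M = -M)
    (hA : IsUnit (upLJ h M).det) :
    gram σ M (bmJ h 1 (zM σ h M) 0 1) = bmJ h (upLJ h M) 0 0 (scM h M) := by
  obtain ⟨hAs, hDs, hCB⟩ := skew_blocks σ h hM
  set A := upLJ h M with hAdef
  set B := upRJ h M with hBdef
  set C := lowLJ h M with hCdef
  set D := lowRJ h M with hDdef
  have hM2 : bmJ h A B C D = M := bmJ_blocks h M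
  have hAA : A * A⁻¹ = 1 := Matrix.mul_nonsing_inv A hA
  have hAA' : A⁻¹ * A = 1 := Matrix.nonsing_inv_mul A hA
  have hz : (zM σ h M).map σ = -(A⁻¹ * B) := by
    ext i j
    show σ (-(σ _)) = _
    rw [map_neg, sig_sig hq]
    rfl
  have hC : C = -cstR σ B := by
    ext i j
    exact hCB i j
  have hzt : (zM σ h M).transpose = -cstR σ (A⁻¹ * B) := by
    ext i j
    rfl
  have hAs' : cstR σ A = -A := hAs
  have h1 : cstR σ A⁻¹ * A = -1 := by
    have h2 : cstR σ (A * A⁻¹) = 1 := by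
      rw [hAA]
      exact cst_one σ
    rw [cstR_mul, hAs', Matrix.mul_neg] at h2
    rw [← h2, neg_neg]
  have hzA : (zM σ h M).transpose * A + C = 0 := by
    rw [hzt, cstR_mul, hC, Matrix.neg_mul, Matrix.mul_assoc, h1, Matrix.mul_neg, Matrix.mul_one,
      neg_neg, add_neg_cancel]
  have h1m : (1 : Matrix (Fin a) (Fin a) E).map σ = 1 := Matrix.map_one _ (map_zero σ) (map_one σ)
  have h1m' : (1 : Matrix (Fin b) (Fin b) E).map σ = 1 := Matrix.map_one _ (map_zero σ) (map_one σ)
  have h0m : (0 : Matrix (Fin b) (Fin a) E).map σ = 0 := by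
    ext i j
    simp
  rw [← hM2]
  conv_lhs => unfold gram
  rw [hM2, bmJF_transpose, bmJF_map, ← hM2, bmJ_mul, bmJ_mul, hM2, hz, h1m, h1m', h0m]
  rw [Matrix.transpose_one, Matrix.transpose_one, Matrix.transpose_zero]
  have e1 : (1 : Matrix (Fin a) (Fin a) E) * A + (0 : Matrix (Fin a) (Fin b) E) * C = A := by simp
  have e2 : (1 : Matrix (Fin a) (Fin a) E) * B + (0 : Matrix (Fin a) (Fin b) E) * D = B := by simp
  have e3 : (zM σ h M).transpose * A + (1 : Matrix (Fin b) (Fin b) E) * C = 0 := by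
    rw [Matrix.one_mul, hzA]
  rw [e1, e2, e3]
  have e4 : A * -(A⁻¹ * B) + B * (1 : Matrix (Fin b) (Fin b) E) = 0 := by
    rw [Matrix.mul_neg, ← Matrix.mul_assoc, hAA, Matrix.one_mul, Matrix.mul_one, neg_add_cancel]
  rw [e4]
  congr 1
  · simp
  · simp
  · have e5 : (zM σ h M).transpose * B = -(C * A⁻¹ * B) := by
      have e6 : (zM σ h M).transpose = -(C * A⁻¹) := by
        have e7 := congrArg (fun X => X * A⁻¹) hzA
        simp only [Matrix.add_mul, Matrix.mul_assoc, hAA, Matrix.mul_one, Matrix.zero_mul] at e7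
        exact eq_neg_of_add_eq_zero_left e7
      rw [e6, Matrix.neg_mul]
    rw [Matrix.zero_mul, zero_add, e5, Matrix.one_mul, Matrix.mul_one]
    unfold scM
    abel

end blk

end SpW
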