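import Pool.Agent.Work.MP_3615d2_al.P1.FibD
import Pool.Agent.Work.MP_3615d2_al.P1.DefsP

/-!
MP_3615d2_al, Part 1: the double cosets `P g U(H)` over the nondegenerate subspaces are open; the
bumps at their points are sections of the induced representation.
-/

open Filter Topology Matrix

set_option linter.unusedSectionVars false

namespace SpW

section near

variable {F E : Type} [NontriviallyNormedField F] [IsUltrametricDist F] [ProperSpace F]
  [NontriviallyNormedField E] [NormedAlgebra F E] [IsUltrametricDist E] [ProperSpace E]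
  {σ : E ≃ₐ[F] E} {δ : E} {d : F} {a b N : ℕ} (h : a + b = N)

theorem GM_eq_gram (H : Matrix (Fin N) (Fin N) E) (g : GL (Fin N) E) :
    GM σ H g = gram σ H ((g⁻¹ : GL (Fin N) E) : Matrix (Fin N) (Fin N) E) := rfl

theorem continuous_GM (hq : QuadDatum σ δ d) (H : Matrix (Fin N) (Fin N) E) :
    Continuous fun g : GL (Fin N) E => GM σ H g := by
  have h1 : Continuous fun g : GL (Fin N) E => ((g⁻¹ : GL (Fin N) E) : Matrix (Fin N) (Fin N) E) :=
    Units.continuous_val.comp continuous_inv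
  exact (h1.matrix_transpose.matrix_mul continuous_const).matrix_mul (h1.matrix_map (sg_cont hq))

/-- Small perturbations of a form are congruent to it by elements near `1`. -/
theorem hens_near {n : ℕ} (hq : QuadDatum σ δ d) {s : Matrix (Fin n) (Fin n) E}
    (hs : cst σ s = -s) (hdet : IsUnit s.det) {V : Set (GL (Fin n) E)}
    (hV : V ∈ 𝓝 (1 : GL (Fin n) E)) : ∀ᶠ s' in 𝓝 s, cst σ s' = -s' →
      ∃ x ∈ V, gram σ s (x : Matrix (Fin n) (Fin n) E) = s' := by
  obtain ⟨ε, h0, h1, hε⟩ := exists_ball_gl hV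
  have h2 : (2 : E) ≠ 0 := hq.two_E
  have h2' : 0 < ‖(2 : E)‖ := norm_pos_iff.2 h2
  set ρ : ℝ := min ε (min (1 / 2) (‖(2 : E)‖ / 2)) with hρ
  have hρ0 : 0 < ρ := lt_min h0 (lt_min (by norm_num) (by linarith))
  have hρε : ρ ≤ ε := min_le_left _ _
  have hρ2 : ρ ≤ 1 / 2 := (min_le_right _ _).trans (min_le_left _ _)
  have hρ3 : ρ ≤ ‖(2 : E)‖ / 2 := (min_le_right _ _).trans (min_le_right _ _)
  set M : ℝ := 1 + ∑ i, ∑ j, ‖s⁻¹ i j‖ with hM
  have hM0 : 0 < M := by
    have : 0 ≤ ∑ i, ∑ j, ‖s⁻¹ i j‖ :=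
      Finset.sum_nonneg fun i _ => Finset.sum_nonneg fun j _ => norm_nonneg _
    linarith
  have hM1 : ∀ i j, ‖s⁻¹ i j‖ ≤ M := by
    intro i j
    have h3 : ‖s⁻¹ i j‖ ≤ ∑ j, ‖s⁻¹ i j‖ :=
      Finset.single_le_sum (f := fun j => ‖s⁻¹ i j‖) (fun j _ => norm_nonneg _) (Finset.mem_univ j)
    have h4 : ∑ j, ‖s⁻¹ i j‖ ≤ ∑ i, ∑ j, ‖s⁻¹ i j‖ :=
      Finset.single_le_sum (f := fun i => ∑ j, ‖s⁻¹ i j‖)
        (fun i _ => Finset.sum_nonneg fun j _ => norm_nonneg _) (Finset.mem_univ i)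
    linarith
  have hpos : 0 < ‖(2 : E)‖ / M * ρ := by positivity
  have h5 : ∀ᶠ s' in 𝓝 s, ∀ i j, ‖(s' - s) i j‖ ≤ ‖(2 : E)‖ / M * ρ := by
    rw [eventually_all]
    intro i
    rw [eventually_all]
    intro j
    have h6 : Continuous fun s' : Matrix (Fin n) (Fin n) E => ‖(s' - s) i j‖ := by
      have : Continuous fun s' : Matrix (Fin n) (Fin n) E => (s' - s) i j :=
        (continuous_id.sub continuous_const).matrix_elem i j
      exact this.norm
    have h7 := h6.tendsto s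
    simp only [sub_self, Matrix.zero_apply, norm_zero] at h7
    exact (h7.eventually (Iic_mem_nhds hpos))
  filter_upwards [h5] with s' h6 hs'
  obtain ⟨k, hk, hk2⟩ := hensel hq hM0 hρ0.le (hρ2.trans (by norm_num)) hρ2 hρ3 s s⁻¹ (s' - s) hs
    (Matrix.mul_nonsing_inv s hdet) hM1 (by rw [cst_sub, hs, hs']; abel) h6
  refine ⟨k, hε k (fun i j => (hk.1 i j).trans hρε) (fun i j => (hk.2 i j).trans hρε), ?_⟩
  rw [hk2]
  abel

theorem continuousAt_inv_of_det {n : ℕ} {s : Matrix (Fin n) (Fin n) E} (hdet : IsUnit s.det) :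
    ContinuousAt (fun x : Matrix (Fin n) (Fin n) E => x⁻¹) s := by
  have h1 : (fun x : Matrix (Fin n) (Fin n) E => x⁻¹) = fun x => (x.det)⁻¹ • x.adjugate := by
    funext x
    rw [Matrix.inv_def, Ring.inverse_eq_inv']
  rw [h1]
  have h2 : Continuous fun x : Matrix (Fin n) (Fin n) E => x.det := continuous_id.matrix_det
  have h3 : Continuous fun x : Matrix (Fin n) (Fin n) E => x.adjugate := continuous_id.matrix_adjugate
  exact (h2.continuousAt.inv₀ hdet.ne_zero).smul h3.continuousAt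

theorem continuous_upLJ : Continuous fun M : Matrix (Fin N) (Fin N) E => upLJ h M :=
  continuous_matrix fun i j => continuous_id.matrix_elem _ _

theorem continuous_upRJ : Continuous fun M : Matrix (Fin N) (Fin N) E => upRJ h M :=
  continuous_matrix fun i j => continuous_id.matrix_elem _ _

theorem continuous_lowLJ : Continuous fun M : Matrix (Fin N) (Fin N) E => lowLJ h M :=
  continuous_matrix fun i j => continuous_id.matrix_elem _ _

theorem continuous_lowRJ : Continuous fun M : Matrix (Fin N) (Fin N) E => lowRJ h M :=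
  continuous_matrix fun i j => continuous_id.matrix_elem _ _

theorem continuousAt_zM (hq : QuadDatum σ δ d) {M : Matrix (Fin N) (Fin N) E}
    (hA : IsUnit (upLJ h M).det) : ContinuousAt (fun M => zM σ h M) M := by
  have h1 : ContinuousAt (fun M : Matrix (Fin N) (Fin N) E => (upLJ h M)⁻¹) M :=
    ContinuousAt.comp (g := fun x : Matrix (Fin a) (Fin a) E => x⁻¹)
      (f := fun M : Matrix (Fin N) (Fin N) E => upLJ h M) (continuousAt_inv_of_det hA)
      (continuous_upLJ h).continuousAt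
  have h2 : ContinuousAt (fun M : Matrix (Fin N) (Fin N) E => (upLJ h M)⁻¹ * upRJ h M) M := by
    have h3 : Continuous fun p : Matrix (Fin a) (Fin a) E × Matrix (Fin a) (Fin b) E => p.1 * p.2 :=
      continuous_fst.matrix_mul continuous_snd
    exact ContinuousAt.comp (g := fun p : Matrix (Fin a) (Fin a) E × Matrix (Fin a) (Fin b) E =>
      p.1 * p.2) (f := fun M : Matrix (Fin N) (Fin N) E => ((upLJ h M)⁻¹, upRJ h M))
      h3.continuousAt (h1.prodMk (continuous_upRJ h).continuousAt)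
  have h4 : Continuous fun X : Matrix (Fin a) (Fin b) E => -(X.map σ) :=
    (continuous_id.matrix_map (sg_cont hq)).neg
  exact ContinuousAt.comp (g := fun X : Matrix (Fin a) (Fin b) E => -(X.map σ))
    (f := fun M : Matrix (Fin N) (Fin N) E => (upLJ h M)⁻¹ * upRJ h M) h4.continuousAt h2

theorem continuousAt_scM {M : Matrix (Fin N) (Fin N) E} (hA : IsUnit (upLJ h M).det) :
    ContinuousAt (fun M => scM h M) M := by
  have h1 : ContinuousAt (fun M : Matrix (Fin N) (Fin N) E => (upLJ h M)⁻¹) M :=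
    ContinuousAt.comp (g := fun x : Matrix (Fin a) (Fin a) E => x⁻¹)
      (f := fun M : Matrix (Fin N) (Fin N) E => upLJ h M) (continuousAt_inv_of_det hA)
      (continuous_upLJ h).continuousAt
  have h3 : Continuous fun p : (Matrix (Fin b) (Fin b) E × Matrix (Fin b) (Fin a) E) ×
      (Matrix (Fin a) (Fin a) E × Matrix (Fin a) (Fin b) E) => p.1.1 - p.1.2 * p.2.1 * p.2.2 :=
    continuous_fst.fst.sub ((continuous_fst.snd.matrix_mul continuous_snd.fst).matrix_mul
      continuous_snd.snd)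
  exact ContinuousAt.comp (g := fun p : (Matrix (Fin b) (Fin b) E × Matrix (Fin b) (Fin a) E) ×
      (Matrix (Fin a) (Fin a) E × Matrix (Fin a) (Fin b) E) => p.1.1 - p.1.2 * p.2.1 * p.2.2)
    (f := fun M : Matrix (Fin N) (Fin N) E =>
      ((lowRJ h M, lowLJ h M), ((upLJ h M)⁻¹, upRJ h M))) h3.continuousAt
    (((continuous_lowRJ h).continuousAt.prodMk (continuous_lowLJ h).continuousAt).prodMk
      (h1.prodMk (continuous_upRJ h).continuousAt))

theorem continuous_bmJ : Continuous fun t : (Matrix (Fin a) (Fin a) E × Matrix (Fin a) (Fin b) E) ×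
    (Matrix (Fin b) (Fin a) E × Matrix (Fin b) (Fin b) E) =>
      bmJ h t.1.1 t.1.2 t.2.1 t.2.2 := by
  unfold bmJ
  exact (Continuous.matrix_fromBlocks continuous_fst.fst continuous_fst.snd continuous_snd.fst
    continuous_snd.snd).matrix_reindex _ _

theorem continuous_pelJ : Continuous fun t : (GL (Fin a) E × GL (Fin b) E) ×
    Matrix (Fin a) (Fin b) E => pelJ h t.1.1 t.1.2 t.2 := by
  have hv : ∀ {n : ℕ}, Continuous fun x : GL (Fin n) E => (x : Matrix (Fin n) (Fin n) E) :=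
    Units.continuous_val
  have hvi : ∀ {n : ℕ}, Continuous fun x : GL (Fin n) E =>
      ((x⁻¹ : GL (Fin n) E) : Matrix (Fin n) (Fin n) E) :=
    Units.continuous_val.comp continuous_inv
  refine Units.continuous_iff.2 ⟨?_, ?_⟩
  · exact (continuous_bmJ h).comp (((hv.comp continuous_fst.fst).prodMk continuous_snd).prodMk
      (continuous_const.prodMk (hv.comp continuous_fst.snd)))
  · exact (continuous_bmJ h).comp (((hvi.comp continuous_fst.fst).prodMk
      (((hvi.comp continuous_fst.fst).matrix_mul continuous_snd).matrix_mul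
        (hvi.comp continuous_fst.snd)).neg).prodMk
      (continuous_const.prodMk (hvi.comp continuous_fst.snd)))

variable {H : Matrix (Fin N) (Fin N) E}

theorem cst_GM (hq : QuadDatum σ δ d) (hH : IsSkew σ H) (g : GL (Fin N) E) :
    cst σ (GM σ H g) = -GM σ H g := by
  have h1 := (isSkew_GM (sig_sig hq) hH g).skew
  ext i j
  show σ (GM σ H g j i) = -GM σ H g i j
  rw [h1 j i, neg_neg]

/-- The element which makes the Gram matrix of `g` block diagonal. -/
noncomputable def qJ (σ : E ≃ₐ[F] E) (H : Matrix (Fin N) (Fin N) E) (g : GL (Fin N) E) :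
    GL (Fin N) E := pelJ h 1 1 (zM σ h (GM σ H g))

theorem GM_qJ (hq : QuadDatum σ δ d) (hH : IsSkew σ H) {g : GL (Fin N) E}
    (hg : IsUnit (upLJ h (GM σ H g)).det) : GM σ H ((qJ h σ H g)⁻¹ * g) =
      bmJ h (upLJ h (GM σ H g)) 0 0 (scM h (GM σ H g)) := by
  rw [GM_mul, GM_eq_gram, inv_inv]
  exact gram_block h hq (cst_GM hq hH g) hg

theorem scM_skew (hq : QuadDatum σ δ d) (hH : IsSkew σ H) {g : GL (Fin N) E}
    (hg : IsUnit (upLJ h (GM σ H g)).det) : cst σ (scM h (GM σ H g)) = -scM h (GM σ H g) := by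
  have h1 := (skew_blocks σ h (cst_GM hq hH ((qJ h σ H g)⁻¹ * g))).2.1
  rw [GM_qJ h hq hH hg, lowRJ_bmJ] at h1
  exact h1

theorem scM_det (hq : QuadDatum σ δ d) (hH : IsSkew σ H) {g : GL (Fin N) E}
    (hg : IsUnit (upLJ h (GM σ H g)).det) : IsUnit (scM h (GM σ H g)).det := by
  have h1 := (isSkew_GM (sig_sig hq) hH ((qJ h σ H g)⁻¹ * g)).det_ne
  rw [GM_qJ h hq hH hg, det_bmJ_diag] at h1
  exact isUnit_iff_ne_zero.2 (right_ne_zero_of_mul h1)

theorem continuousAt_qJ (hq : QuadDatum σ δ d) {g : GL (Fin N) E}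
    (hg : IsUnit (upLJ h (GM σ H g)).det) : ContinuousAt (fun g => qJ h σ H g) g := by
  have h1 : ContinuousAt (fun g : GL (Fin N) E => zM σ h (GM σ H g)) g :=
    ContinuousAt.comp (g := fun M : Matrix (Fin N) (Fin N) E => zM σ h M)
      (f := fun g : GL (Fin N) E => GM σ H g) (continuousAt_zM h hq hg)
      (continuous_GM hq H).continuousAt
  exact ContinuousAt.comp (g := fun t : (GL (Fin a) E × GL (Fin b) E) ×
    Matrix (Fin a) (Fin b) E => pelJ h t.1.1 t.1.2 t.2)
    (f := fun g : GL (Fin N) E => (((1 : GL (Fin a) E), (1 : GL (Fin b) E)), zM σ h (GM σ H g)))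
    (continuous_pelJ h).continuousAt (continuousAt_const.prodMk h1)

/-- Near a point over a nondegenerate subspace every element is `p g k` with `p`, `k` near `1`. -/
theorem exists_near_P (hq : QuadDatum σ δ d) (hH : IsSkew σ H) {g : GL (Fin N) E}
    (hg : IsUnit (upLJ h (GM σ H g)).det) {V : Set (GL (Fin N) E)}
    (hV : V ∈ 𝓝 (1 : GL (Fin N) E)) : ∀ᶠ x in 𝓝 g, ∃ p ∈ PSJ h E, p ∈ V ∧
      ∃ k ∈ unitary σ H, k ∈ V ∧ x = p * g * k := by
  set T1 : GL (Fin N) E × GL (Fin N) E → GL (Fin N) E :=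
    fun t => qJ h σ H t.1 * t.2⁻¹ * (qJ h σ H g)⁻¹ with hT1
  set T2 : GL (Fin N) E × GL (Fin N) E → GL (Fin N) E :=
    fun t => g⁻¹ * qJ h σ H g * t.2 * (qJ h σ H t.1)⁻¹ * t.1 with hT2
  have hqc : ContinuousAt (fun t : GL (Fin N) E × GL (Fin N) E => qJ h σ H t.1) (g, 1) :=
    ContinuousAt.comp (g := fun x => qJ h σ H x) (f := Prod.fst) (continuousAt_qJ h hq hg)
      continuousAt_fst
  have hc1 : ContinuousAt T1 (g, 1) :=
    (hqc.mul continuousAt_snd.inv).mul continuousAt_const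
  have hc2 : ContinuousAt T2 (g, 1) :=
    ((continuousAt_const.mul continuousAt_snd).mul hqc.inv).mul continuousAt_fst
  have e1 : T1 (g, 1) = 1 := by
    simp only [hT1]
    group
  have e2 : T2 (g, 1) = 1 := by
    simp only [hT2]
    group
  have hW1 : ∀ᶠ t in 𝓝 ((g, 1) : GL (Fin N) E × GL (Fin N) E), T1 t ∈ V ∧ T2 t ∈ V := by
    refine (hc1.eventually (by rw [e1]; exact hV)).and (hc2.eventually (by rw [e2]; exact hV))
  rw [nhds_prod_eq, Filter.eventually_prod_iff] at hW1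
  obtain ⟨p1, hp1, p2, hp2, hp⟩ := hW1
  -- Levi elements near `1`
  have hl : ContinuousAt (fun t : GL (Fin a) E × GL (Fin b) E => pelJ h t.1 t.2 0) (1, 1) :=
    ((continuous_pelJ h).comp (continuous_id.prodMk continuous_const)).continuousAt
  have hl2 : ∀ᶠ t in 𝓝 ((1, 1) : GL (Fin a) E × GL (Fin b) E), p2 (pelJ h t.1 t.2 0) := by
    refine hl.eventually ?_
    have : pelJ h (1 : GL (Fin a) E) (1 : GL (Fin b) E) 0 = 1 := pelJ_one h
    simp only [this]
    exact hp2
  rw [nhds_prod_eq, Filter.eventually_prod_iff] at hl2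
  obtain ⟨q1, hq1, q2, hq2, hqq⟩ := hl2
  have hAs := (skew_blocks σ h (cst_GM hq hH g)).1
  have n1 := hens_near hq hAs hg hq1
  have n2 := hens_near hq (scM_skew h hq hH hg) (scM_det h hq hH hg) hq2
  have cA : ContinuousAt (fun x : GL (Fin N) E => upLJ h (GM σ H x)) g :=
    ((continuous_upLJ h).comp (continuous_GM hq H)).continuousAt
  have cS : ContinuousAt (fun x : GL (Fin N) E => scM h (GM σ H x)) g :=
    ContinuousAt.comp (g := fun M : Matrix (Fin N) (Fin N) E => scM h M)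
      (f := fun g : GL (Fin N) E => GM σ H g) (continuousAt_scM h hg)
      (continuous_GM hq H).continuousAt
  have cD : ∀ᶠ x in 𝓝 g, IsUnit (upLJ h (GM σ H x)).det := by
    have h1 : Continuous fun x : GL (Fin N) E => (upLJ h (GM σ H x)).det :=
      ((continuous_upLJ h).comp (continuous_GM hq H)).matrix_det
    filter_upwards [h1.continuousAt.eventually_ne hg.ne_zero] with x hx
    exact isUnit_iff_ne_zero.2 hx
  filter_upwards [hp1, cD, cA.eventually n1, cS.eventually n2] with x hx1 hx2 hx3 hx4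
  obtain ⟨x1, hx1V, e3⟩ := hx3 (skew_blocks σ h (cst_GM hq hH x)).1
  obtain ⟨x2, hx2V, e4⟩ := hx4 (scM_skew h hq hH hx2)
  set l : GL (Fin N) E := pelJ h x1 x2 0 with hl
  have hlp : p2 l := hqq hx1V hx2V
  obtain ⟨hV1, hV2⟩ := hp hx1 hlp
  have e5 : GM σ H (l⁻¹ * ((qJ h σ H g)⁻¹ * g)) = GM σ H ((qJ h σ H x)⁻¹ * x) := by
    rw [GM_mul, GM_qJ h hq hH hg, GM_qJ h hq hH hx2, GM_eq_gram, inv_inv]
    have : (l : Matrix (Fin N) (Fin N) E) = bmJ h x1 0 0 x2 := rfl
    rw [this, gram_bmJ_diag, e3, e4]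
  have e6 := inv_mul_mem_unitary e5
  have e7 : (l⁻¹ * ((qJ h σ H g)⁻¹ * g))⁻¹ * ((qJ h σ H x)⁻¹ * x) = T2 (x, l) := by
    simp only [hT2]
    group
  rw [e7] at e6
  refine ⟨T1 (x, l), ?_, hV1, T2 (x, l), e6, hV2, ?_⟩
  · refine (PSJ h E).mul_mem ((PSJ h E).mul_mem ⟨_, _, _, rfl⟩ ((PSJ h E).inv_mem ⟨_, _, _, rfl⟩))
      ((PSJ h E).inv_mem ⟨_, _, _, rfl⟩)
  · simp only [hT1, hT2]
    group

end near

end SpW
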