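import Pool.Agent.Work.MP_3615d2_al.P1.FibE

/-!
MP_3615d2_al, Part 1: the bumps at the points over the nondegenerate subspaces are sections of the
induced representation; small compact open subgroups of `U(H)`.
-/

open Filter Topology Matrix
open scoped Pointwise

set_option linter.unusedSectionVars false

namespace SpW

section gen

variable {G W : Type} [Group G] [TopologicalSpace G] [IsTopologicalGroup G] [AddCommGroup W]
  [Module ℂ W] {P : Subgroup G} {τ : P →* Module.End ℂ W}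

/-- A locally constant equivariant function is uniformly locally constant. -/
theorem eventually_right {C : Set G} (hC : IsCompact C) (hPC : ∀ g, ∃ p : P, ∃ x ∈ C, g = p * x)
    {f : G → W} (hf : f ∈ indE P τ) (hl : ∀ x, ∀ᶠ y in 𝓝 x, f y = f x) :
    ∀ᶠ k in 𝓝 (1 : G), ∀ x, f (x * k) = f x := by
  have h1 : ∀ᶠ k in 𝓝 (1 : G), ∀ x ∈ C, f (x * k) = f x := by
    refine hC.eventually_forall_of_forall_eventually (P := fun k x => f (x * k) = f x) ?_
    intro x _
    have h2 : ContinuousAt (fun z : G × G => z.2 * z.1) (1, x) :=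
      (continuous_snd.mul continuous_fst).continuousAt
    have h3 : ContinuousAt (fun z : G × G => z.2) (1, x) := continuousAt_snd
    have h4 : ∀ᶠ z in 𝓝 ((1, x) : G × G), f (z.2 * z.1) = f x := by
      refine h2.eventually (p := fun y => f y = f x) ?_
      simp only [mul_one]
      exact hl x
    have h5 : ∀ᶠ z in 𝓝 ((1, x) : G × G), f z.2 = f x := h3.eventually (p := fun y => f y = f x) (hl x)
    filter_upwards [h4, h5] with z hz hz'
    rw [hz, hz']
  filter_upwards [h1] with k hk x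
  obtain ⟨p, y, hy, rfl⟩ := hPC x
  rw [mul_assoc, hf p (y * k), hf p y, hk y hy]

theorem dco_eq_mul {K : Subgroup G} (g : G) :
    dco P K {g} = (P : Set G) * ((fun x => g * x) '' (K : Set G)) := by
  ext x
  constructor
  · rintro ⟨p, hp, d, hd, k, hk, rfl⟩
    rw [Set.mem_singleton_iff] at hd
    subst hd
    exact ⟨p, hp, d * k, ⟨k, hk, rfl⟩, (mul_assoc p d k).symm⟩
  · rintro ⟨p, hp, _, ⟨k, hk, rfl⟩, rfl⟩
    exact ⟨p, hp, g, rfl, k, hk, (mul_assoc p g k).symm⟩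

theorem isClosed_dco (hP : IsClosed (P : Set G)) {K : Subgroup G} (hK : IsCompact (K : Set G))
    (g : G) : IsClosed (dco P K {g}) := by
  rw [dco_eq_mul]
  exact hP.mul_right_of_isCompact (hK.image (continuous_const.mul continuous_id))

end gen

section conc

variable {F E : Type} [NontriviallyNormedField F] [IsUltrametricDist F] [ProperSpace F]
  [NontriviallyNormedField E] [NormedAlgebra F E] [IsUltrametricDist E] [ProperSpace E]
  {σ : E ≃ₐ[F] E} {δ : E} {d : F} {a b N : ℕ} (h : a + b = N)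
  {H : Matrix (Fin N) (Fin N) E} {W S : Type} [AddCommGroup W] [Module ℂ W] [AddCommGroup S]
  [Module ℂ S]

theorem isClosed_PSJ : IsClosed ((PSJ h E : Subgroup (GL (Fin N) E)) : Set (GL (Fin N) E)) := by
  have h1 : ((PSJ h E : Subgroup (GL (Fin N) E)) : Set (GL (Fin N) E)) =
      {g : GL (Fin N) E | lowLJ h (g : Matrix (Fin N) (Fin N) E) = 0} := by
    ext g
    exact exists_pelJ_iff h g
  rw [h1]
  exact isClosed_eq ((continuous_lowLJ h).comp Units.continuous_val) continuous_const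

theorem isClosed_unitary (hq : QuadDatum σ δ d) :
    IsClosed ((unitary σ H : Subgroup (GL (Fin N) E)) : Set (GL (Fin N) E)) := by
  have h1 : ((unitary σ H : Subgroup (GL (Fin N) E)) : Set (GL (Fin N) E)) =
      {g | GM σ H g = H} := by
    ext g
    exact mem_unitary_iff_GM
  rw [h1]
  exact isClosed_eq (continuous_GM hq H) continuous_const

/-- Small compact open subgroups. -/
theorem exists_CO (hq : QuadDatum σ δ d) {V : Set (GL (Fin N) E)} (hV : V ∈ 𝓝 (1 : GL (Fin N) E)) :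
    ∃ K : Subgroup (GL (Fin N) E), CO (unitary σ H) K ∧ (K : Set (GL (Fin N) E)) ⊆ V := by
  obtain ⟨K, hKo, hKc, hKV⟩ := gl_basis V hV
  refine ⟨K ⊓ unitary σ H, ⟨inf_le_right, hKc.inter_right (isClosed_unitary hq), ?_⟩,
    fun x hx => hKV hx.1⟩
  have h1 : (((K ⊓ unitary σ H).subgroupOf (unitary σ H) : Subgroup (unitary σ H)) :
      Set (unitary σ H)) = Subtype.val ⁻¹' (K : Set (GL (Fin N) E)) := by
    ext x
    constructor
    · intro hx
      exact hx.1
    · intro hx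
      exact ⟨hx, x.2⟩
  rw [h1]
  exact hKo.preimage continuous_subtype_val

theorem CO.exists_nhds {U K : Subgroup (GL (Fin N) E)} (hK : CO U K) :
    ∃ V ∈ 𝓝 (1 : GL (Fin N) E), ∀ x ∈ V, x ∈ U → x ∈ K := by
  obtain ⟨O, hO, hO2⟩ := isOpen_induced_iff.1 hK.isOpen
  refine ⟨O, hO.mem_nhds ?_, fun x hx hxU => ?_⟩
  · have h1 : (1 : U) ∈ Subtype.val ⁻¹' O := by
      rw [hO2]
      exact (K.subgroupOf U).one_mem
    exact h1
  · have h1 : (⟨x, hxU⟩ : U) ∈ Subtype.val ⁻¹' O := hx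
    rw [hO2] at h1
    exact h1

/-- The double cosets are open. -/
theorem isOpen_dcoJ (hq : QuadDatum σ δ d) (hH : IsSkew σ H) {g : GL (Fin N) E}
    (hg : IsUnit (upLJ h (GM σ H g)).det) {K : Subgroup (GL (Fin N) E)}
    (hK : CO (unitary σ H) K) : IsOpen (dco (PSJ h E) K {g}) := by
  obtain ⟨V, hV, hVK⟩ := hK.exists_nhds
  have h1 := exists_near_P h hq hH hg hV
  rw [isOpen_iff_eventually]
  rintro _ ⟨p, hp, g', hg', k, hk, rfl⟩
  rw [Set.mem_singleton_iff] at hg'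
  subst hg'
  have h2 : ContinuousAt (fun y : GL (Fin N) E => p⁻¹ * y * k⁻¹) (p * g' * k) :=
    ((continuous_const.mul continuous_id).mul continuous_const).continuousAt
  have h3 : p⁻¹ * (p * g' * k) * k⁻¹ = g' := by group
  have h4 : ∀ᶠ y in 𝓝 (p * g' * k), ∃ p' ∈ PSJ h E, p' ∈ V ∧
      ∃ k' ∈ unitary σ H, k' ∈ V ∧ p⁻¹ * y * k⁻¹ = p' * g' * k' := by
    refine h2.eventually (p := fun x => ∃ p' ∈ PSJ h E, p' ∈ V ∧
      ∃ k' ∈ unitary σ H, k' ∈ V ∧ x = p' * g' * k') ?_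
    show ∀ᶠ y in 𝓝 (p⁻¹ * (p * g' * k) * k⁻¹), _
    rw [h3]
    exact h1
  filter_upwards [h4] with y hy
  obtain ⟨p', hp', -, k', hk', hk'V, e⟩ := hy
  refine ⟨p * p', (PSJ h E).mul_mem hp hp', g', rfl, k' * k, K.mul_mem (hVK k' hk'V hk') hk, ?_⟩
  have e2 : y = p * (p⁻¹ * y * k⁻¹) * k := by group
  rw [e2, e]
  group

theorem hPC_J (g : GL (Fin N) E) : ∃ p : PSJ h E, ∃ x ∈ ((glK (Fin N) E 1 zero_le_one le_rfl :
    Subgroup (GL (Fin N) E)) : Set (GL (Fin N) E)), g = p * x := by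
  obtain ⟨p, q, y, k, hk, e⟩ := iwasawaJ h g
  exact ⟨⟨pelJ h p q y, ⟨p, q, y, rfl⟩⟩, k, hk, e⟩

variable {ρ : (GL (Fin a) E × GL (Fin b) E) →* Module.End ℂ W}

theorem tauJ_near (hρ : IsSmoothRep ρ) (w : W) : ∃ V ∈ 𝓝 (1 : GL (Fin N) E),
    ∀ p : PSJ h E, (p : GL (Fin N) E) ∈ V → tauJ h ρ p w = w := by
  have h1 := tauJ_smooth (h := h) hρ w
  rw [nhds_subtype_eq_comap, Filter.eventually_comap] at h1
  exact ⟨_, h1, fun p hp => hp p rfl⟩

/-- The bumps are sections. -/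
theorem bump_mem_J (hq : QuadDatum σ δ d) (hH : IsSkew σ H) (hρ : IsSmoothRep ρ)
    {g : GL (Fin N) E} (hg : IsUnit (upLJ h (GM σ H g)).det) {K : Subgroup (GL (Fin N) E)}
    (hK : CO (unitary σ H) K) {w : W} (hw : w ∈ wfix (tauJ h ρ) K g) :
    bump (tauJ h ρ) K g w ∈ indS (PSJ h E) (tauJ h ρ) := by
  have hE := bump_mem hw
  refine ⟨hE, ?_⟩
  have hl : ∀ x, ∀ᶠ y in 𝓝 x, bump (tauJ h ρ) K g w y = bump (tauJ h ρ) K g w x := by
    intro x
    by_cases hx : x ∈ dco (PSJ h E) K {g}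
    · obtain ⟨p, hp, g', hg', k, hk, rfl⟩ := hx
      rw [Set.mem_singleton_iff] at hg'
      subst hg'
      obtain ⟨V, hV, hVK⟩ := hK.exists_nhds
      obtain ⟨V', hV', hVw⟩ := tauJ_near h hρ w
      have h1 := exists_near_P h hq hH hg (Filter.inter_mem hV hV')
      have h2 : ContinuousAt (fun y : GL (Fin N) E => p⁻¹ * y * k⁻¹) (p * g' * k) :=
        ((continuous_const.mul continuous_id).mul continuous_const).continuousAt
      have h3 : p⁻¹ * (p * g' * k) * k⁻¹ = g' := by group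
      have h4 : ∀ᶠ y in 𝓝 (p * g' * k), ∃ p' ∈ PSJ h E, p' ∈ V ∩ V' ∧
          ∃ k' ∈ unitary σ H, k' ∈ V ∩ V' ∧ p⁻¹ * y * k⁻¹ = p' * g' * k' := by
        refine h2.eventually (p := fun x => ∃ p' ∈ PSJ h E, p' ∈ V ∩ V' ∧
          ∃ k' ∈ unitary σ H, k' ∈ V ∩ V' ∧ x = p' * g' * k') ?_
        show ∀ᶠ y in 𝓝 (p⁻¹ * (p * g' * k) * k⁻¹), _
        rw [h3]
        exact h1
      filter_upwards [h4] with y hy
      obtain ⟨p', hp', hp'V, k', hk', hk'V, e⟩ := hy
      have e2 : y = ((⟨p, hp⟩ * ⟨p', hp'⟩ : PSJ h E) : GL (Fin N) E) * g' * (k' * k) := by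
        have e3 : y = p * (p⁻¹ * y * k⁻¹) * k := by group
        rw [e3, e]
        show p * (p' * g' * k') * k = p * p' * g' * (k' * k)
        group
      rw [e2, bump_apply hw _ (K.mul_mem (hVK k' hk'V.1 hk') hk), map_mul,
        Module.End.mul_apply, hVw ⟨p', hp'⟩ hp'V.2]
      exact (bump_apply hw (⟨p, hp⟩ : PSJ h E) hk).symm
    · have h1 : ∀ᶠ y in 𝓝 x, y ∉ dco (PSJ h E) K {g} :=
        (isClosed_dco (isClosed_PSJ h) hK.compact g).isOpen_compl.mem_nhds hx
      have h2 : ∀ y, y ∉ dco (PSJ h E) K {g} → bump (tauJ h ρ) K g w y = 0 := by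
        intro y hy
        apply bump_of_notMem
        rintro ⟨p, k, hk, e⟩
        exact hy ⟨p, p.2, g, rfl, k, hk, e⟩
      filter_upwards [h1] with y hy
      rw [h2 y hy, h2 x hx]
  have h5 := eventually_right (glK_isCompact one_pos le_rfl) (hPC_J h) hE hl
  obtain ⟨K', hK'o, -, hK'⟩ := gl_basis _ h5
  exact ⟨K', hK'o, fun x k hk => hK' hk x⟩

theorem exists_wfix (hq : QuadDatum σ δ d) (hρ : IsSmoothRep ρ) (g : GL (Fin N) E) (w : W) :
    ∃ K, CO (unitary σ H) K ∧ w ∈ wfix (tauJ h ρ) K g := by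
  obtain ⟨V, hV, hVw⟩ := tauJ_near h hρ w
  have h1 : ContinuousAt (fun k : GL (Fin N) E => g * k * g⁻¹) 1 :=
    ((continuous_const.mul continuous_id).mul continuous_const).continuousAt
  have h2 : (fun k : GL (Fin N) E => g * k * g⁻¹) ⁻¹' V ∈ 𝓝 (1 : GL (Fin N) E) := by
    refine h1 ?_
    simp only [mul_one, mul_inv_cancel]
    exact hV
  obtain ⟨K, hK, hKV⟩ := exists_CO (H := H) hq h2
  refine ⟨K, hK, fun p k hk e => hVw p ?_⟩
  rw [e]
  exact hKV hk

theorem exists_fixS (hq : QuadDatum σ δ d) {ω : unitary σ H →* Module.End ℂ S}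
    (hω : IsSmoothRep ω) (s : S) : ∃ K, CO (unitary σ H) K ∧ FixS ω K s := by
  have h1 := hω s
  rw [nhds_subtype_eq_comap, Filter.eventually_comap] at h1
  obtain ⟨K, hK, hKV⟩ := exists_CO (H := H) hq h1
  exact ⟨K, hK, fun u hu => hKV hu u rfl⟩

end conc

end SpW
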