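import Pool.Agent.Work.MP_3615d2_al.P1.DefsP

/-!
MP_3615d2_al, Part 1: freezing the variables of an invariant form on `(V₁ ⊗ V₂) × (S₁ ⊗ S₂)`, and
orthogonal sums of isometries.
-/

open MeasureTheory Matrix Filter Topology
open scoped NNReal TensorProduct

set_option linter.unusedSectionVars false

namespace SpW

/-! ### Freezing -/

section frz

variable {V₁ V₂ S₁ S₂ : Type} [AddCommGroup V₁] [Module ℂ V₁] [AddCommGroup V₂] [Module ℂ V₂]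
  [AddCommGroup S₁] [Module ℂ S₁] [AddCommGroup S₂] [Module ℂ S₂]

/-- The form `(v₁, s₁) ↦ b(v₁ ⊗ v₂, s₁ ⊗ s₂)`. -/
noncomputable def frzL (b : V₁ ⊗[ℂ] V₂ →ₗ[ℂ] S₁ ⊗[ℂ] S₂ →ₗ[ℂ] ℂ) (v₂ : V₂) (s₂ : S₂) :
    V₁ →ₗ[ℂ] S₁ →ₗ[ℂ] ℂ :=
  LinearMap.mk₂ ℂ (fun v₁ s₁ => b (v₁ ⊗ₜ[ℂ] v₂) (s₁ ⊗ₜ[ℂ] s₂))
    (fun v v' s => by rw [TensorProduct.add_tmul, map_add, LinearMap.add_apply])
    (fun c v s => by rw [← TensorProduct.smul_tmul', map_smul, LinearMap.smul_apply])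
    (fun v s s' => by rw [TensorProduct.add_tmul, map_add])
    (fun c v s => by rw [← TensorProduct.smul_tmul', map_smul])

theorem frzL_apply (b : V₁ ⊗[ℂ] V₂ →ₗ[ℂ] S₁ ⊗[ℂ] S₂ →ₗ[ℂ] ℂ) (v₂ : V₂) (s₂ : S₂) (v₁ : V₁)
    (s₁ : S₁) : frzL b v₂ s₂ v₁ s₁ = b (v₁ ⊗ₜ[ℂ] v₂) (s₁ ⊗ₜ[ℂ] s₂) := rfl

/-- The form `(v₂, s₂) ↦ b(v₁ ⊗ v₂, s₁ ⊗ s₂)`. -/
noncomputable def frzR (b : V₁ ⊗[ℂ] V₂ →ₗ[ℂ] S₁ ⊗[ℂ] S₂ →ₗ[ℂ] ℂ) (v₁ : V₁) (s₁ : S₁) :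
    V₂ →ₗ[ℂ] S₂ →ₗ[ℂ] ℂ :=
  LinearMap.mk₂ ℂ (fun v₂ s₂ => b (v₁ ⊗ₜ[ℂ] v₂) (s₁ ⊗ₜ[ℂ] s₂))
    (fun v v' s => by rw [TensorProduct.tmul_add, map_add, LinearMap.add_apply])
    (fun c v s => by rw [TensorProduct.tmul_smul, map_smul, LinearMap.smul_apply])
    (fun v s s' => by rw [TensorProduct.tmul_add, map_add])
    (fun c v s => by rw [TensorProduct.tmul_smul, map_smul])

theorem frzR_apply (b : V₁ ⊗[ℂ] V₂ →ₗ[ℂ] S₁ ⊗[ℂ] S₂ →ₗ[ℂ] ℂ) (v₁ : V₁) (s₁ : S₁) (v₂ : V₂)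
    (s₂ : S₂) : frzR b v₁ s₁ v₂ s₂ = b (v₁ ⊗ₜ[ℂ] v₂) (s₁ ⊗ₜ[ℂ] s₂) := rfl

/-- A form on `(V₁ ⊗ V₂) × (S₁ ⊗ S₂)` is determined by its values on pure tensors. -/
theorem form_ext {b b' : V₁ ⊗[ℂ] V₂ →ₗ[ℂ] S₁ ⊗[ℂ] S₂ →ₗ[ℂ] ℂ}
    (h : ∀ v₁ v₂ s₁ s₂, b (v₁ ⊗ₜ[ℂ] v₂) (s₁ ⊗ₜ[ℂ] s₂) = b' (v₁ ⊗ₜ[ℂ] v₂) (s₁ ⊗ₜ[ℂ] s₂)) :
    b = b' := by
  apply TensorProduct.ext'
  intro v₁ v₂
  apply TensorProduct.ext'
  intro s₁ s₂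
  exact h v₁ v₂ s₁ s₂

theorem exists_pure_ne_zero {b : V₁ ⊗[ℂ] V₂ →ₗ[ℂ] S₁ ⊗[ℂ] S₂ →ₗ[ℂ] ℂ} (hb : b ≠ 0) :
    ∃ v₁ v₂ s₁ s₂, b (v₁ ⊗ₜ[ℂ] v₂) (s₁ ⊗ₜ[ℂ] s₂) ≠ 0 := by
  by_contra h
  push Not at h
  refine hb (form_ext fun v₁ v₂ s₁ s₂ => ?_)
  rw [h, LinearMap.zero_apply, LinearMap.zero_apply]

/-- more precisely: if `b` does not vanish at `w` -/
theorem exists_frzR_ne_zero {b : V₁ ⊗[ℂ] V₂ →ₗ[ℂ] S₁ ⊗[ℂ] S₂ →ₗ[ℂ] ℂ} (hb : b ≠ 0) :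
    ∃ v₁ s₁, frzR b v₁ s₁ ≠ 0 := by
  obtain ⟨v₁, v₂, s₁, s₂, h⟩ := exists_pure_ne_zero hb
  refine ⟨v₁, s₁, fun h0 => h ?_⟩
  rw [← frzR_apply, h0, LinearMap.zero_apply, LinearMap.zero_apply]

theorem exists_frzL_ne_zero {b : V₁ ⊗[ℂ] V₂ →ₗ[ℂ] S₁ ⊗[ℂ] S₂ →ₗ[ℂ] ℂ} (hb : b ≠ 0) :
    ∃ v₂ s₂, frzL b v₂ s₂ ≠ 0 := by
  obtain ⟨v₁, v₂, s₁, s₂, h⟩ := exists_pure_ne_zero hb
  refine ⟨v₂, s₂, fun h0 => h ?_⟩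
  rw [← frzL_apply, h0, LinearMap.zero_apply, LinearMap.zero_apply]

/-- The outer product `c β₁ ⊗ β₂` of two forms. -/
noncomputable def outF (β₁ : V₁ →ₗ[ℂ] S₁ →ₗ[ℂ] ℂ) (β₂ : V₂ →ₗ[ℂ] S₂ →ₗ[ℂ] ℂ) :
    V₁ ⊗[ℂ] V₂ →ₗ[ℂ] S₁ ⊗[ℂ] S₂ →ₗ[ℂ] ℂ :=
  TensorProduct.lift (LinearMap.mk₂ ℂ
    (fun v₁ v₂ => (LinearMap.mul' ℂ ℂ).comp (TensorProduct.map (β₁ v₁) (β₂ v₂)))
    (fun v v' w => by rw [map_add, TensorProduct.map_add_left, LinearMap.comp_add])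
    (fun c v w => by rw [map_smul, TensorProduct.map_smul_left, LinearMap.comp_smul])
    (fun v w w' => by rw [map_add, TensorProduct.map_add_right, LinearMap.comp_add])
    (fun c v w => by rw [map_smul, TensorProduct.map_smul_right, LinearMap.comp_smul]))

theorem outF_tmul (β₁ : V₁ →ₗ[ℂ] S₁ →ₗ[ℂ] ℂ) (β₂ : V₂ →ₗ[ℂ] S₂ →ₗ[ℂ] ℂ) (v₁ : V₁) (v₂ : V₂)
    (s₁ : S₁) (s₂ : S₂) :
    outF β₁ β₂ (v₁ ⊗ₜ[ℂ] v₂) (s₁ ⊗ₜ[ℂ] s₂) = β₁ v₁ s₁ * β₂ v₂ s₂ := by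
  unfold outF
  rw [TensorProduct.lift.tmul]
  simp

/-- **Product form**: if all the frozen forms on `V₁ × S₁` are multiples of `β₁` and all those on
`V₂ × S₂` are multiples of `β₂`, then `b` is a multiple of `β₁ ⊗ β₂`. -/
theorem eq_smul_outF {b : V₁ ⊗[ℂ] V₂ →ₗ[ℂ] S₁ ⊗[ℂ] S₂ →ₗ[ℂ] ℂ} {β₁ : V₁ →ₗ[ℂ] S₁ →ₗ[ℂ] ℂ}
    {β₂ : V₂ →ₗ[ℂ] S₂ →ₗ[ℂ] ℂ} (h₁ : ∀ v₂ s₂, ∃ c : ℂ, frzL b v₂ s₂ = c • β₁)
    (h₂ : ∀ v₁ s₁, ∃ c : ℂ, frzR b v₁ s₁ = c • β₂) : ∃ c : ℂ, b = c • outF β₁ β₂ := by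
  by_cases hβ : ∃ v₁ s₁, β₁ v₁ s₁ ≠ 0
  · obtain ⟨v₀, s₀, h0⟩ := hβ
    obtain ⟨c, hc⟩ := h₂ v₀ s₀
    refine ⟨(β₁ v₀ s₀)⁻¹ * c, form_ext fun v₁ v₂ s₁ s₂ => ?_⟩
    obtain ⟨c', hc'⟩ := h₁ v₂ s₂
    have e1 : b (v₁ ⊗ₜ[ℂ] v₂) (s₁ ⊗ₜ[ℂ] s₂) = c' * β₁ v₁ s₁ := by
      rw [← frzL_apply, hc']
      rfl
    have e2 : b (v₀ ⊗ₜ[ℂ] v₂) (s₀ ⊗ₜ[ℂ] s₂) = c' * β₁ v₀ s₀ := by
      rw [← frzL_apply, hc']
      rfl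
    have e3 : b (v₀ ⊗ₜ[ℂ] v₂) (s₀ ⊗ₜ[ℂ] s₂) = c * β₂ v₂ s₂ := by
      rw [← frzR_apply, hc]
      rfl
    have e4 : c' = (β₁ v₀ s₀)⁻¹ * c * β₂ v₂ s₂ := by
      rw [mul_assoc, ← e3, e2]
      field_simp
    rw [e1, e4, LinearMap.smul_apply, LinearMap.smul_apply, outF_tmul, smul_eq_mul]
    ring
  · push Not at hβ
    refine ⟨0, form_ext fun v₁ v₂ s₁ s₂ => ?_⟩
    obtain ⟨c', hc'⟩ := h₁ v₂ s₂
    rw [← frzL_apply, hc', LinearMap.smul_apply, LinearMap.smul_apply, hβ, smul_zero, zero_smul,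
      LinearMap.zero_apply, LinearMap.zero_apply]

end frz

/-! ### Orthogonal sums of isometries -/

section ort

variable {F E : Type} [Field F] [Field E] [Algebra F E] {σ : E ≃ₐ[F] E} {a b N : ℕ}
  (h : a + b = N)

theorem bmJ_transpose (A : Matrix (Fin a) (Fin a) E) (B : Matrix (Fin a) (Fin b) E)
    (C : Matrix (Fin b) (Fin a) E) (D : Matrix (Fin b) (Fin b) E) :
    (bmJ h A B C D).transpose = bmJ h A.transpose C.transpose B.transpose D.transpose := by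
  unfold bmJ
  rw [Matrix.reindex_apply, Matrix.reindex_apply, Matrix.transpose_submatrix,
    Matrix.fromBlocks_transpose]

theorem bmJ_map (f : E → E) (A : Matrix (Fin a) (Fin a) E) (B : Matrix (Fin a) (Fin b) E)
    (C : Matrix (Fin b) (Fin a) E) (D : Matrix (Fin b) (Fin b) E) :
    (bmJ h A B C D).map f = bmJ h (A.map f) (B.map f) (C.map f) (D.map f) := by
  unfold bmJ
  rw [Matrix.reindex_apply, Matrix.reindex_apply, ← Matrix.submatrix_map,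
    Matrix.fromBlocks_map]

theorem bmJ_inj {A A' : Matrix (Fin a) (Fin a) E} {B B' : Matrix (Fin a) (Fin b) E}
    {C C' : Matrix (Fin b) (Fin a) E} {D D' : Matrix (Fin b) (Fin b) E} :
    bmJ h A B C D = bmJ h A' B' C' D' ↔ A = A' ∧ B = B' ∧ C = C' ∧ D = D' := by
  unfold bmJ
  rw [(Matrix.reindex (sJ h) (sJ h)).injective.eq_iff, Matrix.fromBlocks_inj]

theorem bmJ_det_diag (A : Matrix (Fin a) (Fin a) E) (D : Matrix (Fin b) (Fin b) E) :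
    (bmJ h A 0 0 D).det = A.det * D.det := by
  unfold bmJ
  rw [Matrix.det_reindex_self, Matrix.det_fromBlocks_zero₂₁]

/-- The Gram matrix of an orthogonal sum in block diagonal coordinates. -/
theorem gram_bmJ (A H₁ : Matrix (Fin a) (Fin a) E) (D H₂ : Matrix (Fin b) (Fin b) E) :
    (bmJ h A 0 0 D).transpose * bmJ h H₁ 0 0 H₂ * (bmJ h A 0 0 D).map σ =
      bmJ h (A.transpose * H₁ * A.map σ) 0 0 (D.transpose * H₂ * D.map σ) := by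
  rw [bmJ_transpose, bmJ_map, bmJ_mul, bmJ_mul]
  have h0 : ∀ {p q : ℕ}, (0 : Matrix (Fin p) (Fin q) E).map σ = 0 := by
    intro p q
    ext i j
    simp
  simp only [Matrix.transpose_zero, h0, Matrix.mul_zero, Matrix.zero_mul, add_zero, zero_add]

theorem GM_pelJ (H₁ : Matrix (Fin a) (Fin a) E) (H₂ : Matrix (Fin b) (Fin b) E)
    (p : GL (Fin a) E) (q : GL (Fin b) E) :
    GM σ (bmJ h H₁ 0 0 H₂) (pelJ h p q 0) = bmJ h (GM σ H₁ p) 0 0 (GM σ H₂ q) := by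
  have h1 : (((pelJ h p q 0)⁻¹ : GL (Fin N) E) : Matrix (Fin N) (Fin N) E) =
      bmJ h ((p⁻¹ : GL (Fin a) E) : Matrix (Fin a) (Fin a) E) 0 0
        ((q⁻¹ : GL (Fin b) E) : Matrix (Fin b) (Fin b) E) := by
    rw [pelJ_inv, Matrix.mul_zero, Matrix.zero_mul, neg_zero]
    rfl
  unfold GM
  rw [h1, gram_bmJ]

/-- `Isom` in terms of Gram matrices. -/
theorem isom_iff_GM {H₁ H₂ : Matrix (Fin N) (Fin N) E} :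
    Isom σ H₁ H₂ ↔ ∃ g, GM σ H₁ g = H₂ := by
  constructor
  · rintro ⟨g, hg⟩
    refine ⟨g, sk_ext σ fun x y => ?_⟩
    rw [sk_GM, ← hg, Matrix.mulVec_mulVec, Matrix.mulVec_mulVec, ← Units.val_mul,
      mul_inv_cancel, Units.val_one, Matrix.one_mulVec, Matrix.one_mulVec]
  · rintro ⟨g, rfl⟩
    exact ⟨g, fun x y => sk_GM' σ H₁ g x y⟩

theorem isom_GM (H : Matrix (Fin N) (Fin N) E) (g : GL (Fin N) E) : Isom σ H (GM σ H g) :=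
  isom_iff_GM.2 ⟨g, rfl⟩

theorem Isom.refl (H : Matrix (Fin N) (Fin N) E) : Isom σ H H :=
  isom_iff_GM.2 ⟨1, GM_one σ H⟩

/-- **The orthogonal sum of two isometries.** -/
theorem exists_GM_pelJ {H₁ H₁' : Matrix (Fin a) (Fin a) E} {H₂ H₂' : Matrix (Fin b) (Fin b) E}
    (h₁ : Isom σ H₁ H₁') (h₂ : Isom σ H₂ H₂') : ∃ (p : GL (Fin a) E) (q : GL (Fin b) E),
      GM σ H₁ p = H₁' ∧ GM σ H₂ q = H₂' ∧
        GM σ (bmJ h H₁ 0 0 H₂) (pelJ h p q 0) = bmJ h H₁' 0 0 H₂' := by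
  obtain ⟨p, hp⟩ := isom_iff_GM.1 h₁
  obtain ⟨q, hq⟩ := isom_iff_GM.1 h₂
  refine ⟨p, q, hp, hq, ?_⟩
  rw [GM_pelJ, hp, hq]

theorem isom_bmJ {H₁ H₁' : Matrix (Fin a) (Fin a) E} {H₂ H₂' : Matrix (Fin b) (Fin b) E}
    (h₁ : Isom σ H₁ H₁') (h₂ : Isom σ H₂ H₂') :
    Isom σ (bmJ h H₁ 0 0 H₂) (bmJ h H₁' 0 0 H₂') := by
  obtain ⟨p, q, -, -, h3⟩ := exists_GM_pelJ h h₁ h₂
  exact isom_iff_GM.2 ⟨_, h3⟩

/-- **Same orbit**: two block diagonal bases with isometric blocks differ by a block diagonal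
change of basis and an isometry of the whole space. -/
theorem exists_same_orbit {H : Matrix (Fin N) (Fin N) E} {x x' : GL (Fin N) E}
    {H₁ H₁' : Matrix (Fin a) (Fin a) E} {H₂ H₂' : Matrix (Fin b) (Fin b) E}
    (hx : GM σ H x = bmJ h H₁ 0 0 H₂) (hx' : GM σ H x' = bmJ h H₁' 0 0 H₂')
    (h₁ : Isom σ H₁ H₁') (h₂ : Isom σ H₂ H₂') :
    ∃ (p : GL (Fin a) E) (q : GL (Fin b) E) (u : GL (Fin N) E), GM σ H₁ p = H₁' ∧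
      GM σ H₂ q = H₂' ∧ u ∈ unitary σ H ∧ x' = pelJ h p q 0 * x * u := by
  obtain ⟨p, q, hp, hq, h3⟩ := exists_GM_pelJ h h₁ h₂
  refine ⟨p, q, (pelJ h p q 0 * x)⁻¹ * x', hp, hq, inv_mul_mem_unitary ?_, ?_⟩
  · rw [GM_mul, hx, hx', h3]
  · rw [mul_inv_cancel_left]

/-- Two spaces which are orthogonal sums of isometric spaces are isometric. -/
theorem isom_of_blocks {H H' : Matrix (Fin N) (Fin N) E} {x x' : GL (Fin N) E}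
    {H₁ H₁' : Matrix (Fin a) (Fin a) E} {H₂ H₂' : Matrix (Fin b) (Fin b) E}
    (hx : GM σ H x = bmJ h H₁ 0 0 H₂) (hx' : GM σ H' x' = bmJ h H₁' 0 0 H₂')
    (h₁ : Isom σ H₁ H₁') (h₂ : Isom σ H₂ H₂') : Isom σ H H' := by
  have e1 := isom_GM (σ := σ) H x
  have e2 := isom_GM (σ := σ) H' x'
  rw [hx] at e1
  rw [hx'] at e2
  exact (e1.trans (isom_bmJ h h₁ h₂)).trans e2.symm

theorem pelJ_mem_unitary {H₁ : Matrix (Fin a) (Fin a) E} {H₂ : Matrix (Fin b) (Fin b) E}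
    {p : GL (Fin a) E} {q : GL (Fin b) E} :
    pelJ h p q 0 ∈ unitary σ (bmJ h H₁ 0 0 H₂) ↔ p ∈ unitary σ H₁ ∧ q ∈ unitary σ H₂ := by
  rw [mem_unitary_iff_GM, mem_unitary_iff_GM, mem_unitary_iff_GM, GM_pelJ, bmJ_inj]
  simp

/-- `x⁻¹ (u₁ 0; 0 u₂) x` is an isometry. -/
theorem conj_pelJ_mem {H : Matrix (Fin N) (Fin N) E} {x : GL (Fin N) E}
    {H₁ : Matrix (Fin a) (Fin a) E} {H₂ : Matrix (Fin b) (Fin b) E}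
    (hx : GM σ H x = bmJ h H₁ 0 0 H₂) {p : GL (Fin a) E} {q : GL (Fin b) E} :
    x⁻¹ * pelJ h p q 0 * x ∈ unitary σ H ↔ p ∈ unitary σ H₁ ∧ q ∈ unitary σ H₂ := by
  rw [← pelJ_mem_unitary h, ← hx, ← conj_mem_unitary x]
  have : x * (x⁻¹ * pelJ h p q 0 * x) * x⁻¹ = pelJ h p q 0 := by group
  rw [this]

/-- The blocks of a skew matrix. -/
theorem isSkew_bmJ {H₁ : Matrix (Fin a) (Fin a) E} {H₂ : Matrix (Fin b) (Fin b) E} :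
    IsSkew σ (bmJ h H₁ 0 0 H₂) ↔ IsSkew σ H₁ ∧ IsSkew σ H₂ := by
  constructor
  · intro hs
    have hd := hs.det_ne
    rw [bmJ_det_diag] at hd
    refine ⟨⟨fun i j => ?_, left_ne_zero_of_mul hd⟩, ⟨fun i j => ?_, right_ne_zero_of_mul hd⟩⟩
    · have := hs.skew (sJ h (Sum.inl i)) (sJ h (Sum.inl j))
      rwa [bmJ_apply, bmJ_apply, Matrix.fromBlocks_apply₁₁, Matrix.fromBlocks_apply₁₁] at this
    · have := hs.skew (sJ h (Sum.inr i)) (sJ h (Sum.inr j))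
      rwa [bmJ_apply, bmJ_apply, Matrix.fromBlocks_apply₂₂, Matrix.fromBlocks_apply₂₂] at this
  · rintro ⟨h1, h2⟩
    refine ⟨fun i j => ?_, ?_⟩
    · obtain ⟨i, rfl⟩ := (sJ h).surjective i
      obtain ⟨j, rfl⟩ := (sJ h).surjective j
      rw [bmJ_apply, bmJ_apply]
      rcases i with i | i <;> rcases j with j | j
      · exact h1.skew i j
      · simp
      · simp
      · exact h2.skew i j
    · rw [bmJ_det_diag]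
      exact mul_ne_zero h1.det_ne h2.det_ne

theorem isSkew_blocks (hσ : ∀ x, σ (σ x) = x) {H : Matrix (Fin N) (Fin N) E} (hH : IsSkew σ H)
    {x : GL (Fin N) E} {H₁ : Matrix (Fin a) (Fin a) E} {H₂ : Matrix (Fin b) (Fin b) E}
    (hx : GM σ H x = bmJ h H₁ 0 0 H₂) : IsSkew σ H₁ ∧ IsSkew σ H₂ := by
  rw [← isSkew_bmJ h, ← hx]
  exact isSkew_GM hσ hH x

end ort

end SpW
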