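import Pool.Agent.Work.MP_3615d2_al.P1.MuFun

/-!
MP_3615d2_al, middle strata: an invariant form on `Ind(τ) × S` which lives on the `g` with
`det = 0` lives on the `g` with zero Gram matrix on `g⁻¹ E^a`, if `τ` is cuspidal in the first
variable.
-/

open MeasureTheory MeasureTheory.Measure Matrix Filter Topology
open scoped NNReal TensorProduct

namespace SpW

namespace Mu

section skewβ

variable {F E : Type} [Field F] [NontriviallyNormedField E] [Algebra F E] {a b N : ℕ}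
  {σ : E ≃ₐ[F] E} {H : Matrix (Fin N) (Fin N) E} (h : a + b = N)

theorem upLJ_skew (hσ : ∀ x, σ (σ x) = x) (hH : IsSkew σ H) (g : GL (Fin N) E) (i j : Fin a) :
    upLJ h (GM σ H g) j i = - σ (upLJ h (GM σ H g) i j) :=
  (isSkew_GM hσ hH g).skew _ _

theorem mulVec_sig_ker (hσ : ∀ x, σ (σ x) = x) (hH : IsSkew σ H) (g : GL (Fin N) E)
    {k : Fin a → E} (hk : k ᵥ* upLJ h (GM σ H g) = 0) :
    (upLJ h (GM σ H g)).mulVec (fun j => σ (k j)) = 0 := by
  funext i
  have h1 := congrFun hk i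
  rw [Pi.zero_apply] at h1
  have h2 : σ ((k ᵥ* upLJ h (GM σ H g)) i) = 0 := by rw [h1, map_zero]
  rw [Pi.zero_apply, ← neg_eq_zero, ← h2]
  simp only [Matrix.mulVec, Matrix.vecMul, dotProduct]
  rw [_root_.map_sum, ← Finset.sum_neg_distrib]
  refine Finset.sum_congr rfl fun j _ => ?_
  rw [upLJ_skew h hσ hH g j i, map_mul]
  ring

end skewβ

section mid

variable {F E : Type} [Field F] [NontriviallyNormedField E] [IsUltrametricDist E] [ProperSpace E]
  [Algebra F E] {a b N : ℕ}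
  {σ : E ≃ₐ[F] E} {H : Matrix (Fin N) (Fin N) E} (h : a + b = N)
  {W : Type} [AddCommGroup W] [Module ℂ W] {S : Type} [AddCommGroup S] [Module ℂ S]
  {τ : (GL (Fin a) E × GL (Fin b) E) →* Module.End ℂ W}
  {ω : unitary σ H →* Module.End ℂ S}

omit [IsUltrametricDist E] [ProperSpace E] in
theorem tauJ_stE (hσ : ∀ x, σ (σ x) = x) (hH : ∀ i j, H j i = - σ (H i j)) (h2 : (2 : E) ≠ 0)
    (g : GL (Fin N) E) {k : Fin a → E} (hk : k ᵥ* upLJ h (GM σ H g) = 0) (η : Fin a → E) :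
    ∃ n : GL (Fin a) E, (n : Matrix (Fin a) (Fin a) E) =
        1 + vecMulVec k ((upLJ h (GM σ H g)).mulVec (fun j => σ (η j))) ∧
      tauJ h τ (stE h hσ hH h2 g hk η).1 = τ (n, 1) := by
  obtain ⟨n, y, hy, hn⟩ := conj_sgU h hσ hH h2 hk η
  exact ⟨n, hn, tauJ_pelJ τ _ hy⟩

/-- The functionals fixed by the values of the sections. -/
theorem mid_H (hσ : ∀ x, σ (σ x) = x) (hσc : Continuous σ) (hH : IsSkew σ H) (h2 : (2 : E) ≠ 0)
    (hc : ∀ k, 0 < k → k < a → cvN τ ((Nk a k E).prod ⊥) ⊤ = ⊤) (hTr : TrEi σ H ω)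
    (x₀ : MuX σ H h) (Z : Set (MuX σ H h)) (hdet : (upLJ h (GM σ H x₀.1)).det = 0) (hx₀ : x₀ ∈ Z)
    (hr : ∀ x ∈ Z, (upLJ h (GM σ H x.1)).rank ≤ (upLJ h (GM σ H x₀.1)).rank)
    (m : W ⊗[ℂ] S →ₗ[ℂ] ℂ)
    (hm : ∀ u : PSJ h E × unitary σ H, GaugeFix Z x₀ u → ∀ v, m (omJ h τ ω u v) = m v) :
    m = 0 := by
  -- the sections give
  have key : ∀ (k : Fin a → E) (hk : k ᵥ* upLJ h (GM σ H x₀.1) = 0) (η₀ : Fin a → E) (c : E)
      (w : W) (s : S), m (tauJ h τ (stE h hσ hH.skew h2 x₀.1 hk (η₀ + c • k)).1 w ⊗ₜ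
        ω (stE h hσ hH.skew h2 x₀.1 hk (η₀ + c • k)).2 s) = m (w ⊗ₜ s) := by
    intro k hk η₀ c w s
    have h1 := hm _ (stE_gauge h hσ hH.skew h2 hσc x₀ Z hx₀ hr k hk η₀ c) (w ⊗ₜ s)
    obtain ⟨-, -, -, -, C₁, hC₁o, hC₁c, hC₁⟩ :=
      stE_cpt h hσ hH.skew h2 hσc x₀.1 hk (η₀ + c • k)
    rw [omJ_tmul, mdJ_of_mem h hC₁o hC₁c hC₁, inv_one, one_smul] at h1
    exact h1
  -- the unitary part alone
  have key2 : ∀ (k : Fin a → E) (hk : k ᵥ* upLJ h (GM σ H x₀.1) = 0) (η : Fin a → E)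
      (w : W) (s : S), m (w ⊗ₜ ω (stE h hσ hH.skew h2 x₀.1 hk η).2 s) = m (w ⊗ₜ s) := by
    intro k hk η w s
    have hsg := isSg_frJ h hσ hH.skew hk η
    have hsg0 := isSg_frJ h hσ hH.skew hk k
    refine hTr (frJ h x₀.1 k) (frJ h x₀.1 η) hsg.1 hsg.2
      (m.comp (TensorProduct.mk ℂ W S w)) ?_ (stE h hσ hH.skew h2 x₀.1 hk η).2 ?_ s
    · intro a' t ht s'
      show m (w ⊗ₜ ω t s') = m (w ⊗ₜ s')
      set c : E := (2 : E)⁻¹ * algebraMap F E a' with hc'
      have hσ2 : σ (2 : E) = 2 := map_ofNat σ 2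
      have hσcc : σ c = c := by rw [hc', map_mul, map_inv₀, hσ2, AlgEquiv.commutes]
      have h1 := key k hk 0 c w s'
      obtain ⟨n, hn, hnτ⟩ := tauJ_stE (τ := τ) h hσ hH.skew h2 x₀.1 hk (0 + c • k)
      have hn1 : n = 1 := by
        apply Units.ext
        rw [hn, Units.val_one]
        have h3 : (fun j => σ ((0 + c • k) j)) = σ c • fun j => σ (k j) := by
          funext j
          rw [zero_add, Pi.smul_apply, Pi.smul_apply, smul_eq_mul, smul_eq_mul, map_mul]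
        rw [h3, Matrix.mulVec_smul, mulVec_sig_ker h hσ hH x₀.1 hk, smul_zero]
        have h4 : vecMulVec k (0 : Fin a → E) = 0 := by
          ext i j
          rw [vecMulVec_apply, Pi.zero_apply, mul_zero, Matrix.zero_apply]
        rw [h4, add_zero]
      have hn2 : τ (n, 1) = 1 := by
        rw [hn1]
        exact map_one τ
      rw [hnτ, hn2, Module.End.one_apply] at h1
      have h5 : (stE h hσ hH.skew h2 x₀.1 hk (0 + c • k)).2 = t := by
        apply Subtype.ext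
        apply Units.ext
        apply Matrix.ext_of_mulVec_single
        intro i
        generalize (Pi.single i 1 : Fin N → E) = v
        refine Eq.trans ?_ (ht v).symm
        show (sgM σ H (frJ h x₀.1 (0 + c • k)) (frJ h x₀.1 k)).mulVec v = _
        rw [sgM_mulVec, zero_add, frJ_smul]
        have h6 : sk σ H (frJ h x₀.1 k) (frJ h x₀.1 k) = 0 := hsg0.1
        rw [sk_smul_left, sk_smul_right, sk_smul_right, h6, mul_zero, mul_zero, mul_zero, zero_smul,
          add_zero, smul_smul, hσcc, add_assoc, ← add_smul]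
        congr 2
        rw [hc']
        field_simp
        ring
      rw [h5] at h1
      exact h1
    · intro v
      exact sgM_mulVec _ _ v
  -- hence
  have key3 : ∀ (g : GL (Fin a) E) (k w' : Fin a → E), k ᵥ* upLJ h (GM σ H x₀.1) = 0 →
      (g : Matrix (Fin a) (Fin a) E) = 1 + vecMulVec k ((upLJ h (GM σ H x₀.1)).mulVec w') →
        ∀ (w : W) (s : S), m (τ (g, 1) w ⊗ₜ s) = m (w ⊗ₜ s) := by
    intro g k w' hk hg w s
    set η : Fin a → E := fun j => σ.symm (w' j) with hη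
    have h1 := key k hk η 0 w s
    rw [zero_smul, add_zero] at h1
    obtain ⟨n, hn, hnτ⟩ := tauJ_stE (τ := τ) h hσ hH.skew h2 x₀.1 hk η
    have hn1 : n = g := by
      apply Units.ext
      rw [hn, hg]
      congr 3
      funext j
      exact σ.apply_symm_apply (w' j)
    rw [hnτ, hn1, key2] at h1
    exact h1
  apply TensorProduct.ext'
  intro w s
  have hπ : ∀ k, 0 < k → k < a → cvN (τ.comp (MonoidHom.inl (GL (Fin a) E) (GL (Fin b) E)))
      (Nk a k E) ⊤ = ⊤ := by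
    intro k hk0 hka
    have h0 : cvN τ ((Nk a k E).prod ⊥) ⊤ ≤
        cvN (τ.comp (MonoidHom.inl (GL (Fin a) E) (GL (Fin b) E))) (Nk a k E) ⊤ := by
      refine Submodule.span_le.2 ?_
      rintro _ ⟨⟨n, q⟩, hn, v, -, rfl⟩
      rw [Subgroup.mem_prod, Subgroup.mem_bot] at hn
      obtain ⟨hn1, hn2⟩ := hn
      have hn2' : q = 1 := hn2
      subst hn2'
      exact Submodule.subset_span ⟨n, hn1, v, Submodule.mem_top, rfl⟩
    rw [hc k hk0 hka] at h0
    exact top_le_iff.1 h0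
  have h3 := fixed_zero_left (β := upLJ h (GM σ H x₀.1)) x₀.2 hdet hπ
    (m.comp ((TensorProduct.mk ℂ W S).flip s)) (by
      intro g k w' hk hg v
      exact key3 g k w' hk hg v s)
  exact LinearMap.congr_fun h3 w

variable [MeasurableSpace (PSJ h E)] [BorelSpace (PSJ h E)]
  (μ : Measure (PSJ h E)) [μ.IsHaarMeasure]

instance instT2MuX : T2Space (MuX σ H h) :=
  inferInstanceAs (T2Space {g : GL (Fin N) E // upLJ h (GM σ H g) ≠ 0})

/-- The functional vanishes. -/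
theorem LJ_zero (hσ : ∀ x, σ (σ x) = x) (hσc : Continuous σ) (hH : IsSkew σ H) (h2 : (2 : E) ≠ 0)
    (hτ : IsSmoothRep τ)
    (hc : ∀ k, 0 < k → k < a → cvN τ ((Nk a k E).prod ⊥) ⊤ = ⊤) (hω : IsSmoothRep ω)
    (hTr : TrEi σ H ω) {β : IndJ h τ →ₗ[ℂ] S →ₗ[ℂ] ℂ} (hβ : InvForm σ H (indActJ h τ) ω β)
    (hopen : ∀ (f : IndJ h τ) (s : S), (∀ g, (upLJ h (GM σ H g)).det = 0 →
      (f : GL (Fin N) E → W) g = 0) → β f s = 0) :
    schExt (AJ (H := H) h hσc μ hτ β) = 0 := by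
  have hβc : Continuous fun g : MuX σ H h => upLJ h (GM σ H g.1) := continuous_beta h hσc
  refine gauge_fibre (muX_basis h hσc) (omJ h τ ω) (omJ_smooth h hτ hω)
    (fun x : MuX σ H h => (upLJ h (GM σ H x.1)).det) hβc.matrix_det 0
    (fun x => (upLJ h (GM σ H x.1)).rank) ⟨a, fun x => ?_⟩ (fun k => ?_) ?_ _
    (LJ_inv h hσc μ hτ hβ) (LJ_det h hσc μ hτ hopen)
  · have h1 := (upLJ h (GM σ H x.1)).rank_le_card_width
    rwa [Fintype.card_fin] at h1
  · rw [isOpen_iff_mem_nhds]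
    intro x hx
    filter_upwards [eventually_rank_ge hβc x] with y hy
    exact le_trans hx hy
  · intro x₀ Z hdet _ hx₀ _ _ hr m hm
    exact mid_H h hσ hσc hH h2 hc hTr x₀ Z hdet hx₀ hr m hm

end mid

end Mu

open Mu in
/-- **Middle strata.** A `U(H)`-invariant form on `Ind(τ) × S`, `τ` cuspidal in the first
variable, which kills the functions vanishing at the `g` with `det (upLJ (GM g)) = 0`, kills the
functions vanishing at the `g` with `upLJ (GM g) = 0`. -/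
theorem mu_middle {F E : Type} [Field F] [NontriviallyNormedField E] [IsUltrametricDist E]
    [ProperSpace E] [Algebra F E] {a b N : ℕ} {σ : E ≃ₐ[F] E} {H : Matrix (Fin N) (Fin N) E}
    (h : a + b = N) {W : Type} [AddCommGroup W] [Module ℂ W] {S : Type} [AddCommGroup S]
    [Module ℂ S] {τ : (GL (Fin a) E × GL (Fin b) E) →* Module.End ℂ W}
    {ω : unitary σ H →* Module.End ℂ S}
    (hσ : ∀ x, σ (σ x) = x) (hσc : Continuous σ) (hH : IsSkew σ H) (h2 : (2 : E) ≠ 0)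
    (hτ : IsSmoothRep τ)
    (hc : ∀ k, 0 < k → k < a → cvN τ ((Nk a k E).prod ⊥) ⊤ = ⊤) (hω : IsSmoothRep ω)
    (hTr : TrEi σ H ω) {β : IndJ h τ →ₗ[ℂ] S →ₗ[ℂ] ℂ} (hβ : InvForm σ H (indActJ h τ) ω β)
    (hopen : ∀ (f : IndJ h τ) (s : S), (∀ g, (upLJ h (GM σ H g)).det = 0 →
      (f : GL (Fin N) E → W) g = 0) → β f s = 0)
    (f : IndJ h τ) (s : S)
    (hf : ∀ g, upLJ h (GM σ H g) = 0 → (f : GL (Fin N) E → W) g = 0) : β f s = 0 := by
  borelize ↥(PSJ h E)
  let μ : Measure (PSJ h E) := Measure.haar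
  have hL := LJ_zero h μ hσ hσc hH h2 hτ hc hω hTr hβ hopen
  -- the restriction to a compact open subgroup
  set K₀ : Subgroup (GL (Fin N) E) := glK (Fin N) E 1 zero_le_one le_rfl with hK₀
  have hKo : IsOpen (K₀ : Set (GL (Fin N) E)) := glK_isOpen one_pos le_rfl
  have hKc : IsCompact (K₀ : Set (GL (Fin N) E)) := glK_isCompact one_pos le_rfl
  have hKcl : IsClopen (K₀ : Set (GL (Fin N) E)) := ⟨hKc.isClosed, hKo⟩
  let φ : Sch (GL (Fin N) E) W := ⟨(K₀ : Set (GL (Fin N) E)).indicator (f : GL (Fin N) E → W), by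
    refine ⟨?_, K₀, hKc, fun x hx => Set.indicator_of_notMem hx _⟩
    rw [IsLocallyConstant.iff_eventually_eq]
    intro x
    by_cases hx : x ∈ (K₀ : Set (GL (Fin N) E))
    · have h1 := (IsLocallyConstant.iff_eventually_eq _).1 (indJ_isLocallyConstant h f) x
      filter_upwards [hKo.mem_nhds hx, h1] with y hy hy'
      rw [Set.indicator_of_mem hy, Set.indicator_of_mem hx, hy']
    · filter_upwards [hKcl.compl.isOpen.mem_nhds hx] with y hy
      rw [Set.indicator_of_notMem hy, Set.indicator_of_notMem hx]⟩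
  have hφ : ∀ x ∈ K₀, (φ : GL (Fin N) E → W) x = (f : GL (Fin N) E → W) x :=
    fun x hx => Set.indicator_of_mem (s := (K₀ : Set (GL (Fin N) E))) hx _
  have hφ' : ∀ x, x ∉ K₀ → (φ : GL (Fin N) E → W) x = 0 :=
    fun x hx => Set.indicator_of_notMem (s := (K₀ : Set (GL (Fin N) E))) hx _
  have h1 := avg_cut μ (tauJ_sm h hτ) (isClosed_PSJ h) K₀ (by
    intro g
    obtain ⟨p, q, y, k, hk, hg⟩ := iwasawaJ h g
    exact ⟨⟨pelJ h p q y, p, q, y, rfl⟩, k, hk, hg⟩) (f : GL (Fin N) E → W) (by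
    rintro ⟨_, p, q, y, rfl⟩ g
    rw [tauJ_pelJ τ _ rfl]
    exact f.2.1 p q y g) φ hφ hφ' hKo
  set c : ℂ := ((μ.real {p : PSJ h E | (p : GL (Fin N) E) ∈ K₀} : ℝ) : ℂ) with hcdef
  have h3 : avgJ h μ hτ φ = c • f := by
    apply Subtype.ext
    rw [avgJ_val, h1]
    rfl
  have hc0 : c ≠ 0 := by
    have k1 : IsOpen {p : PSJ h E | (p : GL (Fin N) E) ∈ K₀} :=
      hKo.preimage continuous_subtype_val
    have k2 : IsCompact {p : PSJ h E | (p : GL (Fin N) E) ∈ K₀} :=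
      (isClosed_PSJ (E := E) h).isClosedEmbedding_subtypeVal.isCompact_preimage hKc
    have k3 : μ {p : PSJ h E | (p : GL (Fin N) E) ∈ K₀} ≠ 0 :=
      (k1.measure_pos μ ⟨1, K₀.one_mem⟩).ne'
    have k4 : μ {p : PSJ h E | (p : GL (Fin N) E) ∈ K₀} ≠ ⊤ := k2.measure_lt_top.ne
    rw [hcdef]
    have k5 : μ.real {p : PSJ h E | (p : GL (Fin N) E) ∈ K₀} ≠ 0 :=
      (ENNReal.toReal_pos k3 k4).ne'
    exact_mod_cast k5
  -- it is an extension by zero
  have h4 : ∀ x, ¬ upLJ h (GM σ H x) ≠ 0 → (φ : GL (Fin N) E → W) x = 0 := by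
    intro x hx
    by_cases hxK : x ∈ K₀
    · rw [hφ x hxK]
      exact hf x (not_not.1 hx)
    · exact hφ' x hxK
  obtain ⟨φ', hφ''⟩ := exists_extz (isOpen_MuX h hσc) φ h4
  have h5 : exM (S := W) h hσc φ' = φ := hφ''
  have h6 : ((β.flip s).comp ((avgJ h μ hτ).comp (exM (S := W) h hσc))) =
      (schExt (AJ (H := H) h hσc μ hτ β)).comp (schComp ((TensorProduct.mk ℂ W S).flip s)) := by
    refine tm_ext fun ψ w => ?_
    have e1 : exM h hσc (tm ψ w) = tm (exM h hσc ψ) w := by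
      apply Sch.ext'
      intro x
      rw [tm_apply]
      by_cases hx : upLJ h (GM σ H x) ≠ 0
      · obtain ⟨z, rfl⟩ : ∃ z : MuX σ H h, z.1 = x := ⟨⟨x, hx⟩, rfl⟩
        rw [exM_of, exM_of, tm_apply]
      · rw [exM_not h hσc _ hx, exM_not h hσc _ hx, zero_smul]
    have e2 : schComp ((TensorProduct.mk ℂ W S).flip s) (tm ψ w) = tm ψ (w ⊗ₜ[ℂ] s) := by
      apply Sch.ext'
      intro x
      rw [schComp_apply, tm_apply, tm_apply, map_smul]
      rfl
    rw [LinearMap.comp_apply, LinearMap.comp_apply, LinearMap.comp_apply, e1, e2, schExt_tm,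
      AJ_tmul]
    rfl
  have h7 := LinearMap.congr_fun h6 φ'
  rw [LinearMap.comp_apply, LinearMap.comp_apply, LinearMap.comp_apply, h5, h3, hL,
    LinearMap.zero_apply, map_smul] at h7
  exact (smul_eq_zero.1 h7).resolve_left hc0

end SpW
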