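import Pool.Agent.Work.MP_3615d2_al.Defs

/-!
MP_3615d2_al, middle strata: the property of the Weil representation used there.
-/

namespace SpW

/-- For `r` isotropic and `h(y, r) = 0`: a functional fixed by the transvections
`v ↦ v + a h(v, r) r`, `a ∈ F`, is fixed by the Siegel transformation
`v ↦ v + h(v, y) r + h(v, r) (y + h(y, y) r / 2)`. -/
def TrEi {F E : Type} [Field F] [Field E] [Algebra F E] (σ : E ≃ₐ[F] E) {N : ℕ}
    (H : Matrix (Fin N) (Fin N) E) {S : Type} [AddCommGroup S] [Module ℂ S]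
    (om : unitary σ H →* Module.End ℂ S) : Prop :=
  ∀ r y : Fin N → E, sk σ H r r = 0 → sk σ H y r = 0 → ∀ mu : S →ₗ[ℂ] ℂ,
    (∀ (a : F) (t : unitary σ H),
      (∀ v, (umat t).mulVec v = v + (algebraMap F E a * sk σ H v r) • r) →
        ∀ s, mu (om t s) = mu s) →
    ∀ e : unitary σ H, (∀ v, (umat e).mulVec v =
      v + sk σ H v y • r + sk σ H v r • (y + ((2 : E)⁻¹ * sk σ H y y) • r)) →
        ∀ s, mu (om e s) = mu s

end SpW
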