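import Pool.Agent.Work.MP_3615d2_al.P1.TrEiA
import Pool.Agent.Work.MP_3615d2_al.P1.MuDef
import Pool.Agent.Work.MP_3615d2_al.Bridge

/-!
# `TrEi` for the Weil representation

A functional fixed by the transvections of an isotropic vector `r` is fixed by `ρ (E r)` and by the
Siegel transformations of `r`.
-/

open MeasureTheory
open scoped NNReal

namespace SpW

section alg

variable {F E : Type} [Field F] [Field E] [Algebra F E] {σ : E ≃ₐ[F] E} {δ : E} {d : F} {N : ℕ}
  {H : Matrix (Fin N) (Fin N) E}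

/-- An isometry as an element of `U(H)`. -/
theorem exists_unitary (hH : IsSkew σ H) (f : (Fin N → E) →ₗ[E] (Fin N → E))
    (hf : ∀ x y, sk σ H (f x) (f y) = sk σ H x y) :
    ∃ g : unitary σ H, ∀ v, (umat g).mulVec v = f v := by
  have hinj : Function.Injective f := by
    rw [injective_iff_map_eq_zero]
    intro x hx
    apply sk_nondeg hH
    intro y
    rw [← hf, hx, sk_zero_left]
  have hu : IsUnit (LinearMap.toMatrix' f) := by
    rw [← Matrix.mulVec_injective_iff_isUnit]
    intro x y hxy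
    apply hinj
    simpa only [LinearMap.toMatrix'_mulVec] using hxy
  obtain ⟨g, hg⟩ := hu
  have hg' : ∀ v, (g : Matrix (Fin N) (Fin N) E).mulVec v = f v := by
    intro v
    rw [hg, LinearMap.toMatrix'_mulVec]
  refine ⟨⟨g, fun x y => ?_⟩, hg'⟩
  rw [hg', hg', hf]

theorem trEi_eq_zero_of_trace (hq : QuadDatum σ δ d) {e : E}
    (h1 : Algebra.trace F E e = 0) (h2 : Algebra.trace F E (δ * e) = 0) : e = 0 := by
  have h3 := hq.trace_eq e
  have h4 := hq.trace_eq (δ * e)
  rw [h1, map_zero] at h3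
  rw [h2, map_zero, map_mul, hq.sig] at h4
  have h5 : (2 : E) * δ * e = 0 := by linear_combination -δ * h3 - h4
  exact (mul_eq_zero.1 h5).resolve_left (mul_ne_zero hq.two_E hq.ne)

/-- the form as a linear map of the first variable -/
def skL (σ : E ≃ₐ[F] E) (H : Matrix (Fin N) (Fin N) E) (y : Fin N → E) : (Fin N → E) →ₗ[E] E where
  toFun x := sk σ H x y
  map_add' x x' := sk_add_left x x' y
  map_smul' c x := sk_smul_left c x y

@[simp] theorem skL_apply (x y : Fin N → E) : skL σ H y x = sk σ H x y := rfl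

/-- Transvections. -/
theorem exists_transv (hq : QuadDatum σ δ d) (hH : IsSkew σ H) {r : Fin N → E}
    (hr : sk σ H r r = 0) (a : F) :
    ∃ t : unitary σ H, ∀ v, (umat t).mulVec v = v + (algebraMap F E a * sk σ H v r) • r := by
  refine exists_unitary hH (LinearMap.id + (algebraMap F E a • skL σ H r).smulRight r) ?_
  intro x y
  simp only [LinearMap.add_apply, LinearMap.id_apply, LinearMap.smulRight_apply,
    LinearMap.smul_apply, skL_apply, smul_eq_mul, sk_add_left, sk_add_right, sk_smul_left,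
    sk_smul_right, hr, map_mul, AlgEquiv.commutes]
  rw [sk_swap hq hH y r]
  ring

theorem exists_dual_isotropic (hq : QuadDatum σ δ d) (hH : IsSkew σ H) {r : Fin N → E}
    (hr : sk σ H r r = 0) (hr0 : r ≠ 0) : ∃ r', sk σ H r r' = 1 ∧ sk σ H r' r' = 0 := by
  obtain ⟨y, hy⟩ : ∃ y, sk σ H r y ≠ 0 := by
    by_contra h
    push Not at h
    exact hr0 (sk_nondeg hH h)
  obtain ⟨w, hw⟩ : ∃ w, sk σ H r w = 1 := by
    refine ⟨σ (sk σ H r y)⁻¹ • y, ?_⟩
    rw [sk_smul_right, sig_sig hq, inv_mul_cancel₀ hy]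
  have h2 := hq.two_E
  have hw' : sk σ H w r = -1 := by rw [sk_swap hq hH r w, hw, map_one]
  have hww : σ (sk σ H w w) = -sk σ H w w := by
    have := sk_swap hq hH w w
    linear_combination this
  refine ⟨w - (sk σ H w w / 2) • r, ?_, ?_⟩
  · rw [sk_sub_right, sk_smul_right, hw, hr, mul_zero, sub_zero]
  · simp only [sk_sub_left, sk_sub_right, sk_smul_left, sk_smul_right, hr, hw, hw', map_div₀, hww,
      map_ofNat]
    field_simp
    ring

/-- The element `r ↦ z r`, `r' ↦ z⁻¹ r'`. -/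
theorem exists_dil (hq : QuadDatum σ δ d) (hH : IsSkew σ H) {r r' : Fin N → E}
    (hr : sk σ H r r = 0) (hr' : sk σ H r' r' = 0) (hrr : sk σ H r r' = 1) {z : F} (hz : z ≠ 0) :
    ∃ g : unitary σ H, ∀ v, (umat g).mulVec v =
      v + (algebraMap F E (z - 1) * sk σ H v r') • r +
        (algebraMap F E (1 - z⁻¹) * sk σ H v r) • r' := by
  refine exists_unitary hH (LinearMap.id + (algebraMap F E (z - 1) • skL σ H r').smulRight r +
    (algebraMap F E (1 - z⁻¹) • skL σ H r).smulRight r') ?_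
  intro x y
  have h1 : sk σ H r' r = -1 := by rw [sk_swap hq hH r r', hrr, map_one]
  simp only [LinearMap.add_apply, LinearMap.id_apply, LinearMap.smulRight_apply,
    LinearMap.smul_apply, skL_apply, smul_eq_mul, sk_add_left, sk_add_right, sk_smul_left,
    sk_smul_right, hr, hr', hrr, h1, map_mul, AlgEquiv.commutes]
  rw [sk_swap hq hH y r, sk_swap hq hH y r']
  have h2 : algebraMap F E (z - 1) - algebraMap F E (1 - z⁻¹) -
      algebraMap F E (z - 1) * algebraMap F E (1 - z⁻¹) = 0 := by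
    rw [← map_mul, ← map_sub, ← map_sub]
    have : z - 1 - (1 - z⁻¹) - (z - 1) * (1 - z⁻¹) = 0 := by field_simp; ring
    rw [this, map_zero]
  linear_combination (σ (sk σ H y r') * sk σ H x r - σ (sk σ H y r) * sk σ H x r') * h2

/-- `B (t_a ξ - ξ, ξ) = - 2 a N(h(ξ, r))` -/
theorem sympl_transv (hq : QuadDatum σ δ d) (hH : IsSkew σ H) (r ξ : Fin N → E) (a : F) :
    sympl F σ H ((algebraMap F E a * sk σ H ξ r) • r) ξ =
      -(2 * (a * Algebra.norm F (sk σ H ξ r))) := by
  apply (algebraMap F E).injective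
  rw [sympl_eq, hq.trace_eq, sk_smul_left, sk_swap hq hH ξ r]
  simp only [map_mul, map_neg, sig_sig hq, AlgEquiv.commutes, map_ofNat, hq.norm_eq]
  ring

end alg

set_option linter.unusedSectionVars false

section weil

variable {F E : Type} [NontriviallyNormedField F] [IsUltrametricDist F] [ProperSpace F]
  [NontriviallyNormedField E] [NormedAlgebra F E] [ProperSpace E]
  [MeasurableSpace E] [BorelSpace E]
  {σ : E ≃ₐ[F] E} {δ : E} {d : F} {N : ℕ} {H : Matrix (Fin N) (Fin N) E}
  {S : Type} [AddCommGroup S] [Module ℂ S]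
  {ψ : AddChar F Circle} {μ : Eˣ →* ℂˣ}
  {ρ : (Fin N → E) → Module.End ℂ S} {ω : unitary σ H →* Module.End ℂ S}

/-- The `F`-space `E r`. -/
def lineF (F : Type) {E : Type} [Field F] [Field E] [Algebra F E] {N : ℕ} (r : Fin N → E) :
    Submodule F (Fin N → E) :=
  (Submodule.span E {r}).restrictScalars F

theorem mem_lineF {F : Type} {E : Type} [Field F] [Field E] [Algebra F E] {N : ℕ}
    {r x : Fin N → E} : x ∈ lineF F r ↔ ∃ c : E, c • r = x := by
  rw [lineF, Submodule.restrictScalars_mem, Submodule.mem_span_singleton]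

theorem lineF_isotropic {r : Fin N → E} (hr : sk σ H r r = 0) :
    ∀ y ∈ lineF F r, ∀ y' ∈ lineF F r, symplB F σ H y y' = 0 := by
  intro y hy y' hy'
  obtain ⟨c, rfl⟩ := mem_lineF.1 hy
  obtain ⟨c', rfl⟩ := mem_lineF.1 hy'
  rw [symplB_apply, sympl_eq, sk_smul_left, sk_smul_right, hr, mul_zero, mul_zero, map_zero]

/-- `w ⊥ E r` for the symplectic form means `h(w, r) = 0`. -/
theorem sk_eq_zero_of_lineF (hq : QuadDatum σ δ d) {r w : Fin N → E}
    (hw : ∀ y ∈ lineF F r, symplB F σ H w y = 0) : sk σ H w r = 0 := by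
  have h0 : ∀ c : E, Algebra.trace F E (σ c * sk σ H w r) = 0 := by
    intro c
    have := hw (c • r) (mem_lineF.2 ⟨c, rfl⟩)
    rwa [symplB_apply, sympl_eq, sk_smul_right] at this
  have h1 := h0 1
  have h2 := h0 (σ δ)
  rw [map_one, one_mul] at h1
  rw [sig_sig hq] at h2
  exact trEi_eq_zero_of_trace hq h1 h2

/-- **(a)** a functional fixed by the transvections of `r` is fixed by `ρ (E r)`. -/
theorem fix_rho_of_transv (hq : QuadDatum σ δ d) (hH : IsSkew σ H) (hψ : Continuous ψ)
    (hψ1 : ψ ≠ 1) (hW : IsWeil σ H ψ μ ρ ω) {r : Fin N → E} (hr : sk σ H r r = 0)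
    {m : S →ₗ[ℂ] ℂ}
    (hm : ∀ (a : F) (t : unitary σ H),
      (∀ v, (umat t).mulVec v = v + (algebraMap F E a * sk σ H v r) • r) →
        ∀ s, m (ω t s) = m s) (c : E) (s : S) : m (ρ (c • r) s) = m s := by
  have := hq.finite
  by_cases hr0 : r = 0
  · rw [hr0, smul_zero, hW.rho_zero, Module.End.one_apply]
  obtain ⟨r', hrr, hr'⟩ := exists_dual_isotropic hq hH hr hr0
  have hr'r : sk σ H r' r = -1 := by rw [sk_swap hq hH r r', hrr, map_one]
  refine Pool.Agent.SpehH.lemmaVreg hψ hψ1 (symplB_alt hq hH) (symplB_nondeg hq hH) hq.two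
    hW.isHeis hW.isIrr (Y₁ := ⊥) (Y := lineF F r)
    (Z := (LinearMap.ker (skL σ H r)).restrictScalars F) bot_le (lineF_isotropic hr) ?_ ?_
    (c • r) (mem_lineF.2 ⟨c, rfl⟩) ?_ s
  · intro y hy v
    rw [Submodule.mem_bot] at hy
    rw [hy, hW.rho_zero, Module.End.one_apply]
  · intro n e f I₁ I c₀ hc₀ sb hfix ξ _ hξ
    have hξ' : sk σ H ξ r ≠ 0 := fun h => hξ (by
      rw [Submodule.restrictScalars_mem, LinearMap.mem_ker, skL_apply, h])
    obtain ⟨z, hz⟩ := NormedField.exists_one_lt_norm F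
    have hz0 : z ≠ 0 := by
      rintro rfl
      rw [norm_zero] at hz
      exact absurd hz (by norm_num)
    have hz2 : z⁻¹ * z⁻¹ ≠ 1 := by
      intro h
      have h1 := congrArg norm h
      rw [norm_mul, norm_inv, norm_one] at h1
      have h2 : ‖z‖⁻¹ < 1 := inv_lt_one_of_one_lt₀ hz
      have h3 : 0 < ‖z‖⁻¹ := by positivity
      nlinarith
    set n₀ : F := Algebra.norm F (sk σ H ξ r) with hn₀
    have hn0 : n₀ ≠ 0 := by
      intro h
      have h1 := hq.norm_eq (sk σ H ξ r)
      rw [← hn₀, h, map_zero] at h1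
      rcases mul_eq_zero.1 h1.symm with h2 | h2
      · exact hξ' h2
      · exact hξ' ((map_eq_zero_iff σ σ.injective).1 h2)
    obtain ⟨b, hb⟩ : ∃ b, ψ b ≠ 1 := AddChar.ne_one_iff.1 hψ1
    set a : F := b / (n₀ * (1 - z⁻¹ * z⁻¹)) with ha
    have h1z : 1 - z⁻¹ * z⁻¹ ≠ 0 := sub_ne_zero.2 hz2.symm
    obtain ⟨t, ht⟩ := exists_transv hq hH hr a
    obtain ⟨g, hg⟩ := exists_dil hq hH hr hr' hrr hz0
    have hgr : (umat g).mulVec r = algebraMap F E z • r := by
      rw [hg, hr, hrr, mul_one, mul_zero, zero_smul, add_zero, map_sub, map_one, sub_smul, one_smul]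
      abel
    have hgr' : (umat g⁻¹).mulVec r = algebraMap F E z⁻¹ • r := by
      have h1 : (umat g).mulVec (algebraMap F E z⁻¹ • r) = r := by
        rw [Matrix.mulVec_smul, hgr, smul_smul, ← map_mul, inv_mul_cancel₀ hz0, map_one, one_smul]
      conv_lhs => rw [← h1]
      rw [umat_inv_mulVec]
    have hgh : ∀ v, sk σ H ((umat g).mulVec v) r = algebraMap F E z⁻¹ * sk σ H v r := by
      intro v
      have h1 := sk_unitary g v ((umat g⁻¹).mulVec r)
      rw [umat_mulVec_inv, hgr', sk_smul_right, AlgEquiv.commutes] at h1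
      exact h1
    have hq1 : ∀ w, symplB F σ H ((umatE F t) w - w) w / 2 =
        -(a * Algebra.norm F (sk σ H w r)) := by
      intro w
      rw [umatE_apply, ht, add_sub_cancel_left, symplB_apply, sympl_transv hq hH, neg_div,
        mul_div_cancel_left₀ _ hq.two]
    refine Pool.Agent.SpehH.regular_conj hψ hc₀ (symplB_alt hq hH) hq.two hW.isHeis hW.isIrr
      sb hfix (hW.isLift t) (hW.isLift g) (hm a t ht) ?_ ?_ ?_ ?_ ?_
    · intro v
      show m (ω g⁻¹ (ω t (ω g v))) = m v
      rw [← Module.End.mul_apply, ← Module.End.mul_apply, ← map_mul, ← map_mul]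
      refine hm (a * (z⁻¹ * z⁻¹)) _ (fun w => ?_) v
      rw [umat_mul, umat_mul, ← Matrix.mulVec_mulVec, ← Matrix.mulVec_mulVec, ht,
        Matrix.mulVec_add, umat_inv_mulVec, Matrix.mulVec_smul, hgr', hgh, smul_smul]
      congr 2
      simp only [map_mul]
      ring
    · intro w
      rw [umatE_apply, ht, add_sub_cancel_left]
      exact mem_lineF.2 ⟨_, rfl⟩
    · intro w hw
      rw [umatE_apply, ht, sk_eq_zero_of_lineF hq hw, mul_zero, zero_smul, add_zero]
    · intro y hy
      obtain ⟨c', rfl⟩ := mem_lineF.1 hy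
      show (umat g⁻¹).mulVec (c' • r) ∈ _
      rw [Matrix.mulVec_smul, hgr', smul_smul]
      exact mem_lineF.2 ⟨_, rfl⟩
    · rw [hq1, hq1]
      show ψ (-(a * Algebra.norm F (sk σ H ((umat g).mulVec ξ) r))) ≠ _
      rw [hgh, map_mul, Algebra.norm_algebraMap, hq.rank]
      intro h
      apply hb
      have h1 : b = -(a * ((z⁻¹) ^ 2 * n₀)) - -(a * n₀) := by
        have hab : a * (n₀ * (1 - z⁻¹ * z⁻¹)) = b := div_mul_cancel₀ _ (mul_ne_zero hn0 h1z)
        linear_combination -hab
      rw [h1, AddChar.map_sub_eq_div, h, div_self']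
  · intro z hz _
    rw [Submodule.restrictScalars_mem, LinearMap.mem_ker, skL_apply] at hz
    rw [symplB_apply, sympl_eq, sk_smul_left, sk_swap hq hH z r, hz, map_zero, neg_zero, mul_zero,
      map_zero]

/-- **`TrEi` for the Weil representation.** -/
theorem trEi_of_weil (hq : QuadDatum σ δ d) (hH : IsSkew σ H) (hψ : Continuous ψ)
    (hψ1 : ψ ≠ 1) (hW : IsWeil σ H ψ μ ρ ω) : TrEi σ H ω := by
  intro r y hr hyr m hm e he s
  have := hq.finite
  by_cases hr0 : r = 0
  · have h1 : umat e = 1 := by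
      apply Matrix.ext_of_mulVec_single
      intro i
      rw [he, hr0, smul_zero, sk_zero_right, zero_smul, add_zero, add_zero, Matrix.one_mulVec]
    have h2 : e = 1 := Subtype.ext (Units.ext h1)
    rw [h2, map_one, Module.End.one_apply]
  obtain ⟨r', hrr, hr'⟩ := exists_dual_isotropic hq hH hr hr0
  have hr'r : sk σ H r' r = -1 := by rw [sk_swap hq hH r r', hrr, map_one]
  have hfix : ∀ y' ∈ lineF F r, ∀ v, m (ρ y' v) = m v := by
    intro y' hy' v
    obtain ⟨c, rfl⟩ := mem_lineF.1 hy'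
    exact fix_rho_of_transv hq hH hψ hψ1 hW hr hm c v
  set c : E := sk σ H y r' with hc
  set y₀ : Fin N → E := y - c • r with hy₀
  have hy₀r : sk σ H y₀ r = 0 := by rw [hy₀, sk_sub_left, sk_smul_left, hyr, hr]; ring
  have hy₀r' : sk σ H y₀ r' = 0 := by rw [hy₀, sk_sub_left, sk_smul_left, hrr, ← hc]; ring
  have hry₀ : sk σ H r y₀ = 0 := by rw [sk_swap hq hH y₀ r, hy₀r, map_zero, neg_zero]
  have hr'y₀ : sk σ H r' y₀ = 0 := by rw [sk_swap hq hH y₀ r', hy₀r', map_zero, neg_zero]
  have hry : sk σ H r y = 0 := by rw [sk_swap hq hH y r, hyr, map_zero, neg_zero]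
  have hyy : y = y₀ + c • r := by rw [hy₀, sub_add_cancel]
  have hyy₀ : sk σ H y y = sk σ H y₀ y₀ := by
    rw [hyy]
    simp only [sk_add_left, sk_add_right, sk_smul_left, sk_smul_right, hy₀r, hry₀, hr]
    ring
  have hvy : ∀ v, sk σ H v y = sk σ H v y₀ + σ c * sk σ H v r := by
    intro v
    conv_lhs => rw [hyy]
    rw [sk_add_right, sk_smul_right]
  obtain ⟨t, ht⟩ := exists_transv hq hH hr (-Algebra.trace F E c)
  have htr : algebraMap F E (-Algebra.trace F E c) = -(c + σ c) := by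
    rw [map_neg, hq.trace_eq]
  set e₀ : unitary σ H := t * e with he₀
  have he0 : ∀ v, (umat e₀).mulVec v =
      v + sk σ H v y₀ • r + sk σ H v r • (y₀ + ((2 : E)⁻¹ * sk σ H y₀ y₀) • r) := by
    intro v
    have h1 : sk σ H ((umat e).mulVec v) r = sk σ H v r := by
      rw [he]
      simp only [sk_add_left, sk_smul_left, hr, hyr]
      ring
    rw [he₀, umat_mul, ← Matrix.mulVec_mulVec, ht, h1, he, htr, hyy₀, hvy v]
    conv_lhs => rw [hyy]
    module
  have hs : m (ω e s) = m (ω e₀ s) := by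
    rw [he₀, map_mul, Module.End.mul_apply, hm _ t ht]
  rw [hs]
  have he0r : (umat e₀).mulVec r = r := by
    rw [he0, hry₀, hr, zero_smul, zero_smul, add_zero, add_zero]
  obtain ⟨χ, hχ⟩ := Pool.Agent.SpehH.exists_scalar hψ hψ1 (symplB_alt hq hH)
    (symplB_nondeg hq hH) hq.two hW.isHeis hW.isIrr (Y := lineF F r) (lineF_isotropic hr)
    (hW.isLift e₀) (by
      intro y' hy'
      obtain ⟨c', rfl⟩ := mem_lineF.1 hy'
      rw [umatE_apply, Matrix.mulVec_smul, he0r]
      exact hy') (by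
      intro w hw
      rw [umatE_apply, he0, sk_eq_zero_of_lineF hq hw, zero_smul, add_zero, add_sub_cancel_left]
      exact mem_lineF.2 ⟨_, rfl⟩)
  obtain ⟨g, hg⟩ := exists_dil hq hH hr hr' hrr hq.two
  have h2E := hq.two_E
  have hz1 : algebraMap F E ((2 : F) - 1) = 1 := by
    rw [map_sub, map_ofNat, map_one]; ring
  have hz2 : algebraMap F E (1 - (2 : F)⁻¹) = (2 : E)⁻¹ := by
    rw [map_sub, map_inv₀, map_ofNat, map_one]; field_simp; ring
  have hgr : (umat g).mulVec r = (2 : E) • r := by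
    rw [hg, hr, hrr, hz1, mul_one, mul_zero, zero_smul, add_zero]
    module
  have hgy : (umat g).mulVec y₀ = y₀ := by
    rw [hg, hy₀r, hy₀r', mul_zero, mul_zero, zero_smul, zero_smul, add_zero, add_zero]
  have hcomm : g * e₀ = e₀ * e₀ * g := by
    apply Subtype.ext
    apply Units.ext
    show umat g * umat e₀ = umat e₀ * umat e₀ * umat g
    apply Matrix.ext_of_mulVec_single
    intro i
    generalize (Pi.single i (1 : E) : Fin N → E) = v
    have h3 : sk σ H ((umat g).mulVec v) r = (2 : E)⁻¹ * sk σ H v r := by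
      rw [hg, hz1, hz2]
      simp only [sk_add_left, sk_smul_left, hr, hr'r]
      field_simp
      ring
    have h4 : sk σ H ((umat g).mulVec v) y₀ = sk σ H v y₀ := by
      rw [hg]
      simp only [sk_add_left, sk_smul_left, hry₀, hr'y₀]
      ring
    have h5 : ∀ w, sk σ H ((umat e₀).mulVec w) r = sk σ H w r := by
      intro w
      rw [he0]
      simp only [sk_add_left, sk_smul_left, hr, hy₀r]
      ring
    have h6 : ∀ w, sk σ H ((umat e₀).mulVec w) y₀ =
        sk σ H w y₀ + sk σ H w r * sk σ H y₀ y₀ := by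
      intro w
      rw [he0]
      simp only [sk_add_left, sk_smul_left, hry₀]
      ring
    rw [← Matrix.mulVec_mulVec, ← Matrix.mulVec_mulVec, ← Matrix.mulVec_mulVec,
      he0 ((umat e₀).mulVec ((umat g).mulVec v)), h5, h6, he0 ((umat g).mulVec v), h3, h4, he0 v,
      Matrix.mulVec_add, Matrix.mulVec_add, Matrix.mulVec_smul, Matrix.mulVec_smul,
      Matrix.mulVec_add, Matrix.mulVec_smul, hgr, hgy]
    match_scalars <;> field_simp <;> ring
  have h1 : ∀ v, m (ω e₀ v) = χ * m v := hχ m hfix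
  have h2 : ∀ v, m (ω g (ω e₀ v)) = χ * m (ω g v) := by
    refine hχ (m ∘ₗ ω g) fun y' hy' v => ?_
    obtain ⟨c', rfl⟩ := mem_lineF.1 hy'
    have h3 : ω g (ρ (c' • r) v) = ρ ((umat g).mulVec (c' • r)) (ω g v) := by
      rw [← Module.End.mul_apply, ← Module.End.mul_apply, hW.om_rho]
    rw [LinearMap.comp_apply, LinearMap.comp_apply, h3]
    apply hfix
    rw [Matrix.mulVec_smul, hgr, smul_smul]
    exact mem_lineF.2 ⟨_, rfl⟩
  have h3 : ∀ w, χ * (χ * m w) = χ * m w := by
    intro w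
    have h4 := h2 (ω g⁻¹ w)
    rw [← Module.End.mul_apply (ω g), ← map_mul, hcomm, map_mul, map_mul, Module.End.mul_apply,
      Module.End.mul_apply, ← Module.End.mul_apply (ω g), ← map_mul, mul_inv_cancel, map_one,
      Module.End.one_apply, h1, h1] at h4
    exact h4
  rw [h1]
  by_cases h0 : m s = 0
  · rw [h0, mul_zero]
  · have hχ0 : χ ≠ 0 := by
      rintro rfl
      apply h0
      have h5 := h1 (ω e₀⁻¹ s)
      rwa [← Module.End.mul_apply, ← map_mul, mul_inv_cancel, map_one, Module.End.one_apply,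
        zero_mul] at h5
    exact mul_left_cancel₀ hχ0 (h3 s)

end weil

end SpW
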