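import Pool.Agent.Work.MP_3615d2_al.P1.MackA
import Pool.Agent.Work.MP_3615d2_al.P1.CloFin
import Pool.Agent.Work.MP_3615d2_al.P1.Mu
import Pool.Agent.Work.MP_3615d2_al.P1.TrEiW
import Pool.Agent.Work.MP_3615d2_al.Co.JacT

/-!
MP_3615d2_al, Part 1: the Mackey bound. An invariant form on an induced representation which
vanishes on the sections supported over the nondegenerate subspaces is zero.
-/

open MeasureTheory Filter Topology Matrix Polynomial
open scoped TensorProduct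

set_option linter.unusedSectionVars false
set_option linter.unusedVariables false

namespace SpW

variable {F E : Type} [NontriviallyNormedField F] [IsUltrametricDist F] [ProperSpace F]
  [NontriviallyNormedField E] [NormedAlgebra F E] [IsUltrametricDist E] [ProperSpace E]
  [MeasurableSpace E] [BorelSpace E]
  {σ : E ≃ₐ[F] E} {δ : E} {d : F} {ψ : AddChar F Circle} {μ : Eˣ →* ℂˣ}
  {m n b N k : ℕ} {V₁ V₂ W S : Type}
  [AddCommGroup V₁] [Module ℂ V₁] [AddCommGroup V₂] [Module ℂ V₂]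
  [AddCommGroup W] [Module ℂ W] [AddCommGroup S] [Module ℂ S]

theorem ad_pelJ_mk {a b N : ℕ} (h : a + b = N) (p : GL (Fin a) E) (q : GL (Fin b) E)
    (y : Matrix (Fin a) (Fin b) E) : ad (pelJ h p q y) = ad p * ad q := by
  unfold ad
  rw [← absE_mul]
  congr 1
  apply Units.ext
  show ((pelJ h p q y : GL (Fin N) E) : Matrix (Fin N) (Fin N) E).det = _
  rw [pelJ_val, bmJ, Matrix.det_reindex_self, Matrix.det_fromBlocks_zero₂₁]
  rfl

/-- the two eigenvalues on the Jacquet module of the second factor -/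
theorem oten_aeval_mk {a b : ℕ} (s t : ℝ) {π₁ : GL (Fin a) E →* Module.End ℂ V₁}
    {π₂ : GL (Fin b) E →* Module.End ℂ V₂} {p : GL (Fin a) E} {q : GL (Fin b) E} {c : ℂ}
    (h₁ : ∀ v, π₁ p v = c • v) {k : ℕ} {a₁ a₂ : ℂ}
    (hA : ∀ v, π₂ q (π₂ q v - a₁ • v) - a₂ • (π₂ q v - a₁ • v) ∈ cvN π₂ (Nk b k E) ⊤)
    (w : V₁ ⊗[ℂ] V₂) :
    aeval (oten s t π₁ π₂ (p, q))
      ((X - C ((((ad p ^ s * ad q ^ t : ℝ) : ℂ) * c) * a₂)) *
        (X - C ((((ad p ^ s * ad q ^ t : ℝ) : ℂ) * c) * a₁))) w ∈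
      cvN (oten s t π₁ π₂) ((⊥ : Subgroup (GL (Fin a) E)).prod (Nk b k E)) ⊤ := by
  set c' : ℂ := ((ad p ^ s * ad q ^ t : ℝ) : ℂ) * c with hc'
  induction w using TensorProduct.induction_on with
  | zero => rw [map_zero]; exact Submodule.zero_mem _
  | tmul x y =>
    have h2 : ∀ (y : V₂) (e : ℂ), aeval (oten s t π₁ π₂ (p, q)) (X - C (c' * e) : ℂ[X])
        (x ⊗ₜ[ℂ] y) = c' • (x ⊗ₜ[ℂ] (π₂ q y - e • y)) := by
      intro y e
      rw [map_sub, aeval_X, aeval_C, LinearMap.sub_apply, Module.algebraMap_end_apply, oten_tmul,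
        h₁, hc', TensorProduct.tmul_sub, TensorProduct.tmul_smul, smul_sub,
        ← TensorProduct.smul_tmul', smul_smul, smul_smul]
    rw [map_mul, Module.End.mul_apply, h2, map_smul, h2]
    exact Submodule.smul_mem _ _ (Submodule.smul_mem _ _ (cvN_oten_low s t (hA y) x))
  | add x y hx hy => rw [map_add]; exact Submodule.add_mem _ hx hy

/-- The closed stratum. -/
theorem clo_general (hq : QuadDatum σ δ d) (h : m + b = N) (hb : b - m + m = b)
    {H : Matrix (Fin N) (Fin N) E} (hH : IsSkew σ H) (hψ : Continuous ψ) (hψ1 : ψ ≠ 1)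
    (hμ : ConjSymplectic F μ) {ρ : (Fin N → E) → Module.End ℂ S}
    {ω : unitary σ H →* Module.End ℂ S} (hW : IsWeil σ H ψ μ ρ ω)
    {τ : (GL (Fin m) E × GL (Fin b) E) →* Module.End ℂ W} (hτ : IsSmoothRep τ)
    (z : Eˣ) (Z : GL (Fin b) E)
    (hZ : Z = pelJ hb 1 (Matrix.GeneralLinearGroup.scalar (Fin m)
      (Units.map (σ : E →* E) z)⁻¹) 0)
    (p : ℂ[X]) (hp : ∀ w, aeval (τ (Matrix.GeneralLinearGroup.scalar (Fin m) z, Z)) p w ∈
      cvN τ ((⊥ : Subgroup (GL (Fin m) E)).prod (Nk b (b - m) E)) ⊤)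
    (hroot : p.eval (P1.bz μ m N z) ≠ 0)
    (β : IndJ h τ →ₗ[ℂ] S →ₗ[ℂ] ℂ) (hβ : InvForm σ H (indActJ h τ) ω β)
    (hclo : ∀ f : IndJ h τ, (∀ g, upLJ h (GM σ H g) = 0 → (f : GL (Fin N) E → W) g = 0) →
      ∀ s, β f s = 0) : β = 0 := by
  by_cases hZ' : ∃ g : GL (Fin N) E, upLJ h (GM σ H g) = 0
  swap
  · apply LinearMap.ext
    intro f
    apply LinearMap.ext
    intro s
    exact hclo f (fun g hg => absurd ⟨g, hg⟩ hZ') s
  obtain ⟨g₁, hg₁⟩ := hZ'
  have hmb : m ≤ b := le_of_upLJ_zero h (isSkew_GM (sig_sig hq) hH g₁) hg₁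
  have h1 : m + (b - m) = b := by omega
  have h2 : b + m = N := by omega
  obtain ⟨q, y, H₀, hH₀, e₀⟩ := exists_GM_hyp3 hq h h1 h2 hH g₁ hg₁
  set g₀ : GL (Fin N) E := pelJ h 1 q y * g₁ with hg₀
  apply eq_zero_of_trF h g₀
  have hβ' := trF_inv h g₀ hβ
  have hW' := Mo.isWeil_congH hq hH hψ hψ1 g₀⁻¹ hW
  have hvan : ∀ f : IndJ h τ, (∀ g, upLJ h (GM σ (GM σ H g₀) g) = 0 →
      (f : GL (Fin N) E → W) g = 0) → ∀ s, trF h g₀ β f s = 0 := by
    intro f hf s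
    rw [trF_apply]
    refine hclo _ (fun g hg => ?_) s
    rw [indActJ_apply]
    refine hf _ ?_
    rw [← GM_mul, inv_mul_cancel_right]
    exact hg
  -- replace `GM σ H g₀` by a variable
  have key : ∀ (H' : Matrix (Fin N) (Fin N) E) (ρ' : (Fin N → E) → Module.End ℂ S)
      (ω' : unitary σ H' →* Module.End ℂ S) (β' : IndJ h τ →ₗ[ℂ] S →ₗ[ℂ] ℂ),
      H' = hyp3 h1 h2 H₀ → IsWeil σ H' ψ μ ρ' ω' → InvForm σ H' (indActJ h τ) ω' β' →
      (∀ f : IndJ h τ, (∀ g, upLJ h (GM σ H' g) = 0 → (f : GL (Fin N) E → W) g = 0) →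
        ∀ s, β' f s = 0) → β' = 0 := by
    intro H' ρ' ω' β' e hW' hβ' hv
    subst e
    subst hZ
    refine P1.clo_stratum h1 h2 h hb hq hψ hψ1 hμ hH₀ hW' hτ z p hp hroot β' hβ' ?_
    intro f s hf
    refine hv f (fun g hg => ?_) s
    obtain ⟨p', q', y', u, rfl⟩ := exists_orbit hq h h1 h2 hH₀ g hg
    exact hf p' q' y' u
  exact key (GM σ H g₀) _ (omG g₀ ω) (trF h g₀ β) e₀ hW' hβ' hvan

/-- The general statement: `A` cuspidal. -/
theorem mackey (hq : QuadDatum σ δ d) (hm : 0 < m) (h : m + b = N) (hb : b - m + m = b)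
    {H : Matrix (Fin N) (Fin N) E} (hH : IsSkew σ H) (hψ : Continuous ψ) (hψ1 : ψ ≠ 1)
    (hμ : ConjSymplectic F μ) {ρ : (Fin N → E) → Module.End ℂ S}
    {ω : unitary σ H →* Module.End ℂ S} (hW : IsWeil σ H ψ μ ρ ω)
    {A : GL (Fin m) E →* Module.End ℂ V₁} (hA : IsSmoothRep A) (hAc : IsCusp A)
    {B : GL (Fin b) E →* Module.End ℂ V₂} (hB : IsSmoothRep B) (s t : ℝ)
    (z : Eˣ) {cA : ℂ}
    (hcA : ∀ v, A (Matrix.GeneralLinearGroup.scalar (Fin m) z) v = cA • v)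
    (Z : GL (Fin b) E)
    (hZ : Z = pelJ hb 1 (Matrix.GeneralLinearGroup.scalar (Fin m)
      (Units.map (σ : E →* E) z)⁻¹) 0) {c₁ c₂ : ℂ}
    (hB2 : ∀ v, B Z (B Z v) - (c₁ + c₂) • B Z v + (c₁ * c₂) • v ∈ cvN B (Nk b (b - m) E) ⊤)
    (hc₁ : ‖cA‖ * ‖c₁‖ * absE z ^ ((m : ℝ) * s - (m : ℝ) * t) ≠
      absE z ^ ((m : ℝ) * (b : ℝ) - (m : ℝ) / 2))
    (hc₂ : ‖cA‖ * ‖c₂‖ * absE z ^ ((m : ℝ) * s - (m : ℝ) * t) ≠
      absE z ^ ((m : ℝ) * (b : ℝ) - (m : ℝ) / 2))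
    (β : IndJ h (oten s t A B) →ₗ[ℂ] S →ₗ[ℂ] ℂ)
    (hβ : InvForm σ H (indActJ h (oten s t A B)) ω β)
    (hopen : ∀ f : IndJ h (oten s t A B),
      (∀ g, (upLJ h (GM σ H g)).det = 0 → (f : GL (Fin N) E → V₁ ⊗[ℂ] V₂) g = 0) →
      ∀ s, β f s = 0) : β = 0 := by
  have hτ : IsSmoothRep (oten s t A B) := oten_smooth hA hB s t
  have hfin := hq.finite
  have hcont : Continuous σ := σ.toLinearMap.continuous_of_finiteDimensional
  have h2E : (2 : E) ≠ 0 := by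
    intro h0
    apply hq.two
    apply (algebraMap F E).injective
    rw [map_ofNat, map_zero]
    exact h0
  have hmid := mu_middle h (sig_sig hq) hcont hH h2E hτ
    (fun k hk0 hk => cvN_oten_up_top s t B (hAc k hk0 hk)) hW.om_smooth
    (trEi_of_weil hq hH hψ hψ1 hW) hβ (fun f s hf => hopen f hf s)
  -- the polynomial
  set r : ℂ := ((ad (Matrix.GeneralLinearGroup.scalar (Fin m) z : GL (Fin m) E) ^ s *
    ad Z ^ t : ℝ) : ℂ) * cA with hr
  have hinv : ∀ x : Eˣ, absE x⁻¹ = (absE x)⁻¹ := by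
    intro x
    have h0 := absE_mul x x⁻¹
    rw [mul_inv_cancel, absE_one] at h0
    exact eq_inv_of_mul_eq_one_right h0.symm
  have hsc : absE (Units.map (σ : E →* E) z)⁻¹ = (absE z)⁻¹ := by
    rw [hinv, absE_sig hq z (Units.map (σ : E →* E) z) rfl]
  have hz0 := absE_pos z
  have hadZ : ad Z = (absE z)⁻¹ ^ m := by
    rw [hZ, ad_pelJ_mk, ad_one, one_mul, P1.ad_scalarC, hsc]
  have hrn : ‖r‖ = ‖cA‖ * absE z ^ ((m : ℝ) * s - (m : ℝ) * t) := by
    have h3 : (ad (Matrix.GeneralLinearGroup.scalar (Fin m) z : GL (Fin m) E) ^ s * ad Z ^ t : ℝ) =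
        absE z ^ ((m : ℝ) * s - (m : ℝ) * t) := by
      rw [hadZ, P1.ad_scalarC, inv_pow, Real.inv_rpow (pow_nonneg hz0.le _), ← Real.rpow_natCast,
        ← Real.rpow_mul hz0.le, ← Real.rpow_mul hz0.le, ← Real.rpow_neg hz0.le,
        ← Real.rpow_add hz0]
      congr 1
    rw [hr, norm_mul, h3, Complex.norm_real, Real.norm_of_nonneg (Real.rpow_nonneg hz0.le _),
      mul_comm]
  refine clo_general hq h hb hH hψ hψ1 hμ hW hτ z Z hZ ((X - C (r * c₂)) * (X - C (r * c₁)))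
    ?_ ?_ β hβ (fun f hf s => hmid f s hf)
  · intro w
    refine oten_aeval_mk s t hcA (fun v => ?_) w
    have e := hB2 v
    have e2 : B Z (B Z v - c₁ • v) - c₂ • (B Z v - c₁ • v) =
        B Z (B Z v) - (c₁ + c₂) • B Z v + (c₁ * c₂) • v := by
      rw [map_sub, map_smul]
      module
    rw [e2]
    exact e
  · have hbn : ‖P1.bz μ m N z‖ = absE z ^ ((m : ℝ) * (b : ℝ) - (m : ℝ) / 2) := by
      rw [P1.norm_bz hq hμ (by omega : m ≤ N) z]
      congr 2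
      have h6 : (N : ℝ) = (m : ℝ) + (b : ℝ) := by
        rw [← h]
        push_cast
        ring
      rw [h6]
      ring
    intro hc
    rw [eval_mul, mul_eq_zero] at hc
    rcases hc with hc | hc
    · have e : P1.bz μ m N z = r * c₂ := by
        simpa [sub_eq_zero] using hc
      apply hc₂
      rw [← hbn, e, norm_mul, hrn]
      ring
    · have e : P1.bz μ m N z = r * c₁ := by
        simpa [sub_eq_zero] using hc
      apply hc₁
      rw [← hbn, e, norm_mul, hrn]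
      ring

end SpW
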