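import Pool.Agent.Work.MP_3615d2_al.P1.Svn
import Pool.Agent.Work.MP_3615d2_al.WeSch
import Pool.Agent.Work.MP_3615d2_al.SchExt

/-!
MP_3615d2_al, Part 1: the model `Sch (Fin m → E) S0` (Schrodinger model in one Lagrangian block,
an arbitrary representation in the other block) and its irreducibility.
-/

open scoped Matrix
open Filter Topology

namespace SpW.P1

open Pool.Agent.SpehH

section model

variable {E : Type} [NontriviallyNormedField E] [IsUltrametricDist E] [ProperSpace E]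
  {Ψ : AddChar E Circle}
  {m : ℕ} {S0 : Type} [AddCommGroup S0] [Module ℂ S0]

theorem modOp_mem (hΨ : Continuous Ψ) (b s : Fin m → E) (c : E) (L : Module.End ℂ S0)
    {f : (Fin m → E) → S0} (hf : f ∈ Sch (Fin m → E) S0) :
    (fun x => ((Ψ (b ⬝ᵥ x + c) : Circle) : ℂ) • L (f (x - s))) ∈ Sch (Fin m → E) S0 := by
  obtain ⟨h1, K, hK, h2⟩ := hf
  refine ⟨?_, (fun x => x + s) '' K, hK.image (by fun_prop), fun x hx => ?_⟩
  · have e1 : IsLocallyConstant fun x : Fin m → E => ((Ψ (b ⬝ᵥ x + c) : Circle) : ℂ) :=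
      (psi_locConst hΨ).comp_continuous (f := fun x : Fin m → E => b ⬝ᵥ x + c) (by
        unfold dotProduct
        fun_prop)
    have e2 : IsLocallyConstant fun x : Fin m → E => L (f (x - s)) :=
      (h1.comp_continuous (f := fun x : Fin m → E => x - s) (by fun_prop)).comp L
    exact (e1.prodMk e2).comp fun p : ℂ × S0 => p.1 • p.2
  · have : x - s ∉ K := fun h => hx ⟨x - s, h, sub_add_cancel x s⟩
    simp only [h2 _ this, map_zero, smul_zero]

/-- `(M f)(x) = Ψ(b x + c) L f(x - s)` -/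
noncomputable def modOp (hΨ : Continuous Ψ) (b s : Fin m → E) (c : E) (L : Module.End ℂ S0) :
    Module.End ℂ (Sch (Fin m → E) S0) where
  toFun f := ⟨_, modOp_mem hΨ b s c L f.2⟩
  map_add' f g := by
    apply Sch.ext'
    intro x
    show ((Ψ (b ⬝ᵥ x + c) : Circle) : ℂ) • L ((f : (Fin m → E) → S0) (x - s) +
      (g : (Fin m → E) → S0) (x - s)) = _
    rw [map_add L, smul_add]
    rfl
  map_smul' a f := by
    apply Sch.ext'
    intro x
    show ((Ψ (b ⬝ᵥ x + c) : Circle) : ℂ) • L (a • (f : (Fin m → E) → S0) (x - s)) = _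
    rw [map_smul L, smul_comm]
    rfl

theorem modOp_apply (hΨ : Continuous Ψ) (b s : Fin m → E) (c : E) (L : Module.End ℂ S0)
    (f : Sch (Fin m → E) S0) (x : Fin m → E) :
    (modOp hΨ b s c L f : (Fin m → E) → S0) x =
      ((Ψ (b ⬝ᵥ x + c) : Circle) : ℂ) • L ((f : (Fin m → E) → S0) (x - s)) := rfl

theorem modOp_mul (hΨ : Continuous Ψ) (b s b' s' : Fin m → E) (c c' : E)
    (L L' : Module.End ℂ S0) : modOp hΨ b s c L * modOp hΨ b' s' c' L' =
      modOp hΨ (b + b') (s + s') (c + c' - b' ⬝ᵥ s) (L * L') := by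
  apply LinearMap.ext
  intro f
  apply Sch.ext'
  intro x
  show ((Ψ (b ⬝ᵥ x + c) : Circle) : ℂ) • L (((Ψ (b' ⬝ᵥ (x - s) + c') : Circle) : ℂ) •
    L' ((f : (Fin m → E) → S0) (x - s - s'))) = ((Ψ ((b + b') ⬝ᵥ x + (c + c' - b' ⬝ᵥ s)) :
      Circle) : ℂ) • (L * L') ((f : (Fin m → E) → S0) (x - (s + s')))
  rw [map_smul L, smul_smul, ← Circle.coe_mul, ← AddChar.map_add_eq_mul, sub_sub,
    Module.End.mul_apply]
  congr 3
  rw [dotProduct_sub, add_dotProduct]
  ring_nf

theorem modOp_add_const (hΨ : Continuous Ψ) (b s : Fin m → E) (c c' : E)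
    (L : Module.End ℂ S0) : modOp hΨ b s (c + c') L =
      ((Ψ c' : Circle) : ℂ) • modOp hΨ b s c L := by
  apply LinearMap.ext
  intro f
  apply Sch.ext'
  intro x
  show ((Ψ (b ⬝ᵥ x + (c + c')) : Circle) : ℂ) • L ((f : (Fin m → E) → S0) (x - s)) =
    ((Ψ c' : Circle) : ℂ) • ((Ψ (b ⬝ᵥ x + c) : Circle) : ℂ) • L ((f : (Fin m → E) → S0) (x - s))
  rw [smul_smul, ← Circle.coe_mul, ← AddChar.map_add_eq_mul]
  congr 3
  ring_nf

theorem modOp_smul (hΨ : Continuous Ψ) (b s : Fin m → E) (c : E) (a : ℂ)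
    (L : Module.End ℂ S0) : modOp hΨ b s c (a • L) = a • modOp hΨ b s c L := by
  apply LinearMap.ext
  intro f
  apply Sch.ext'
  intro x
  show ((Ψ (b ⬝ᵥ x + c) : Circle) : ℂ) • a • L ((f : (Fin m → E) → S0) (x - s)) =
    a • ((Ψ (b ⬝ᵥ x + c) : Circle) : ℂ) • L ((f : (Fin m → E) → S0) (x - s))
  rw [smul_comm]

/-- The balls of radius `‖t‖`. -/
theorem isClopen_bl {t : E} (ht : t ≠ 0) (x : Fin m → E) :
    IsClopen (Metric.closedBall x ‖t‖) :=
  IsUltrametricDist.isClopen_closedBall x (norm_pos_iff.2 ht).ne'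

theorem mem_bl_iff {t : E} {x y : Fin m → E} : y ∈ Metric.closedBall x ‖t‖ ↔ ‖y - x‖ ≤ ‖t‖ := by
  rw [Metric.mem_closedBall, dist_eq_norm]

/-- A subspace which is stable under the multiplications by characters is stable under the
multiplications by the indicators of the balls. -/
theorem cut_mem_of_stable (hΨ : Continuous Ψ) {c : E} (hc : IsCond Ψ c)
    {T : Submodule ℂ (Sch (Fin m → E) S0)}
    (h1 : ∀ b, ∀ f ∈ T, modOp hΨ b 0 0 1 f ∈ T) {t : E} (ht : t ≠ 0) (x0 : Fin m → E)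
    {f : Sch (Fin m → E) S0} (hf : f ∈ T) :
    cut (Metric.closedBall x0 ‖t‖) (isClopen_bl ht x0) f ∈ T := by
  classical
  have htn := norm_pos_iff.2 ht
  have hcn := norm_pos_iff.2 hc.1
  set L : AddSubgroup (Fin m → E) := bal E (Fin m) ‖t‖ (norm_nonneg t) with hL
  set cls : (Fin m → E) → (Fin m → E) ⧸ L := fun x => QuotientAddGroup.mk x with hcls
  have hmk : ∀ x y : Fin m → E, cls x = cls y ↔ ‖y - x‖ ≤ ‖t‖ := by
    intro x y
    rw [hcls]
    simp only
    rw [QuotientAddGroup.eq, neg_add_eq_sub]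
    exact mem_bal
  have hlc : IsLocallyConstant cls := by
    rw [IsLocallyConstant.iff_eventually_eq]
    intro x
    filter_upwards [Metric.closedBall_mem_nhds x htn] with y hy
    rw [hmk, ← norm_neg, neg_sub]
    exact mem_bl_iff.1 hy
  have hout : ∀ q : (Fin m → E) ⧸ L, cls q.out = q := fun q => QuotientAddGroup.out_eq' q
  -- the finite set of classes
  obtain ⟨K, hK, hfK⟩ := f.2.2
  have hfin : (cls '' K).Finite := by
    letI : TopologicalSpace ((Fin m → E) ⧸ L) := ⊥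
    haveI : DiscreteTopology ((Fin m → E) ⧸ L) := ⟨rfl⟩
    exact (hK.image ((IsLocallyConstant.iff_continuous cls).1 hlc)).finite_of_discrete
  let Λ : Type := {b : Fin m → E // ‖b‖ * ‖t‖ ≤ ‖c‖}
  let ι : Type := {q : (Fin m → E) ⧸ L // q ≠ cls x0}
  have hperp : ∀ (b : Λ) (x y : Fin m → E), ‖x - y‖ ≤ ‖t‖ → Ψ (b.1 ⬝ᵥ x) = Ψ (b.1 ⬝ᵥ y) := by
    intro b x y hxy
    have e1 : b.1 ⬝ᵥ x = b.1 ⬝ᵥ (x - y) + b.1 ⬝ᵥ y := by rw [← dotProduct_add, sub_add_cancel]
    rw [e1, AddChar.map_add_eq_mul, (cond_iff_pi hc ht _).2 b.2 _ hxy, one_mul]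
  have key := ev_mem (K := T) (Λ := Λ) (ι := ι) (T := fun b => modOp hΨ b.1 0 0 1)
    (fun b x hx => h1 b.1 x hx)
    (g := fun q => cut (cls ⁻¹' {q.1}) (hlc.isClopen_fiber q.1) f)
    (χ := fun b q => ((Ψ (b.1 ⬝ᵥ q.1.out) : Circle) : ℂ))
    (χ0 := fun b => ((Ψ (b.1 ⬝ᵥ x0) : Circle) : ℂ))
    (fun b q => by
      have e1 : modOp hΨ b.1 0 0 1 (cut (cls ⁻¹' {q.1}) (hlc.isClopen_fiber q.1) f) =
          ((Ψ (b.1 ⬝ᵥ q.1.out) : Circle) : ℂ) • cut (cls ⁻¹' {q.1}) (hlc.isClopen_fiber q.1) f := by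
        apply Sch.ext'
        intro x
        rw [modOp_apply, sub_zero, add_zero, Module.End.one_apply]
        show _ = ((Ψ (b.1 ⬝ᵥ q.1.out) : Circle) : ℂ) •
          (cut (cls ⁻¹' {q.1}) (hlc.isClopen_fiber q.1) f : (Fin m → E) → S0) x
        by_cases hx : x ∈ cls ⁻¹' {q.1}
        · have hx' : cls x = q.1 := hx
          rw [hperp b x q.1.out ?_]
          rw [← hmk, hout, hx']
        · rw [cut_notMem _ _ hx, smul_zero, smul_zero]
      rw [e1, sub_self]
      exact T.zero_mem)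
    (x := cut (Metric.closedBall x0 ‖t‖) (isClopen_bl ht x0) f)
    (fun b => by
      have e1 : modOp hΨ b.1 0 0 1 (cut (Metric.closedBall x0 ‖t‖) (isClopen_bl ht x0) f) =
          ((Ψ (b.1 ⬝ᵥ x0) : Circle) : ℂ) •
            cut (Metric.closedBall x0 ‖t‖) (isClopen_bl ht x0) f := by
        apply Sch.ext'
        intro x
        rw [modOp_apply, sub_zero, add_zero, Module.End.one_apply]
        show _ = ((Ψ (b.1 ⬝ᵥ x0) : Circle) : ℂ) •
          (cut (Metric.closedBall x0 ‖t‖) (isClopen_bl ht x0) f : (Fin m → E) → S0) x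
        by_cases hx : x ∈ Metric.closedBall x0 ‖t‖
        · rw [hperp b x x0 (mem_bl_iff.1 hx)]
        · rw [cut_notMem _ _ hx, smul_zero, smul_zero]
      rw [e1, sub_self]
      exact T.zero_mem)
    ((hfin.toFinset.subtype fun q => q ≠ cls x0)) (fun _ => -1) (by
      have e1 : cut (Metric.closedBall x0 ‖t‖) (isClopen_bl ht x0) f -
          ∑ j ∈ hfin.toFinset.subtype (fun q => q ≠ cls x0), (-1 : ℂ) •
            cut (cls ⁻¹' {j.1}) (hlc.isClopen_fiber j.1) f = f := by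
        apply Sch.ext'
        intro x
        have e2 : ((cut (Metric.closedBall x0 ‖t‖) (isClopen_bl ht x0) f -
          ∑ j ∈ hfin.toFinset.subtype (fun q => q ≠ cls x0), (-1 : ℂ) •
            cut (cls ⁻¹' {j.1}) (hlc.isClopen_fiber j.1) f : Sch (Fin m → E) S0) :
              (Fin m → E) → S0) x = (cut (Metric.closedBall x0 ‖t‖) (isClopen_bl ht x0) f :
                (Fin m → E) → S0) x + ∑ j ∈ hfin.toFinset.subtype (fun q => q ≠ cls x0),
            (cut (cls ⁻¹' {j.1}) (hlc.isClopen_fiber j.1) f : (Fin m → E) → S0) x := by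
          rw [Submodule.coe_sub, Pi.sub_apply, Submodule.coe_sum, Finset.sum_apply, sub_eq_add_neg,
            ← Finset.sum_neg_distrib]
          congr 1
          refine Finset.sum_congr rfl fun j _ => ?_
          show -((-1 : ℂ) • (cut (cls ⁻¹' {j.1}) (hlc.isClopen_fiber j.1) f :
            (Fin m → E) → S0) x) = _
          rw [neg_smul, one_smul, neg_neg]
        rw [e2]
        by_cases hx0 : x ∈ Metric.closedBall x0 ‖t‖
        · rw [cut_mem _ _ hx0, Finset.sum_eq_zero, add_zero]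
          intro j _
          refine cut_notMem _ _ fun h => j.2 ?_
          have h' : cls x = j.1 := h
          rw [← h', hmk, ← norm_neg, neg_sub]
          exact mem_bl_iff.1 hx0
        · rw [cut_notMem _ _ hx0, zero_add]
          have hne : cls x ≠ cls x0 := by
            rw [Ne, hmk, ← norm_neg, neg_sub]
            exact fun h => hx0 (mem_bl_iff.2 h)
          by_cases hxK : x ∈ K
          · rw [Finset.sum_eq_single (⟨cls x, hne⟩ : ι)]
            · exact cut_mem _ _ rfl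
            · intro j _ hj
              refine cut_notMem _ _ fun h => hj ?_
              exact Subtype.ext (Eq.symm h)
            · intro h
              exfalso
              apply h
              rw [Finset.mem_subtype, hfin.mem_toFinset]
              exact ⟨x, hxK, rfl⟩
          · rw [hfK x hxK]
            refine Finset.sum_eq_zero fun j _ => ?_
            by_cases h : x ∈ cls ⁻¹' {j.1}
            · rw [cut_mem _ _ h, hfK x hxK]
            · exact cut_notMem _ _ h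
      rw [e1]
      exact hf)
  have hempty : {z | ∃ q : ι, (∀ b : Λ, ((Ψ (b.1 ⬝ᵥ q.1.out) : Circle) : ℂ) =
      ((Ψ (b.1 ⬝ᵥ x0) : Circle) : ℂ)) ∧ z = cut (cls ⁻¹' {q.1}) (hlc.isClopen_fiber q.1) f} = ∅ := by
    ext z
    simp only [Set.mem_ofPred_eq, Set.mem_empty_iff_false, iff_false]
    rintro ⟨q, hq, -⟩
    apply q.2
    rw [← hout q.1, hmk]
    have hct : c / t ≠ 0 := div_ne_zero hc.1 ht
    have h3 : ‖x0 - q.1.out‖ * ‖c / t‖ ≤ ‖c‖ := by
      rw [← cond_iff_pi hc hct]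
      intro a ha
      have ha' : ‖a‖ * ‖t‖ ≤ ‖c‖ := by
        rw [norm_div, le_div_iff₀ htn] at ha
        exact ha
      have h4 := Circle.coe_inj.1 (hq ⟨a, ha'⟩)
      rw [sub_dotProduct, dotProduct_comm x0, dotProduct_comm (q.1.out), sub_eq_add_neg,
        AddChar.map_add_eq_mul, AddChar.map_neg_eq_inv, ← h4]
      exact mul_inv_cancel _
    rw [norm_div, ← mul_div_assoc, div_le_iff₀ htn, mul_comm ‖c‖] at h3
    exact le_of_mul_le_mul_right h3 hcn
  rw [hempty, Submodule.span_empty, bot_sup_eq] at key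
  exact key

/-- **Irreducibility of the model.** -/
theorem model_irr (hΨ : Continuous Ψ) (hΨ1 : Ψ ≠ 1) {ι : Type}
    {L : ι → Module.End ℂ S0}
    (hL : ∀ V : Submodule ℂ S0, (∀ i, ∀ v ∈ V, L i v ∈ V) → V = ⊥ ∨ V = ⊤)
    (T : Submodule ℂ (Sch (Fin m → E) S0)) (h1 : ∀ b, ∀ f ∈ T, modOp hΨ b 0 0 1 f ∈ T)
    (h2 : ∀ s, ∀ f ∈ T, modOp hΨ 0 s 0 1 f ∈ T)
    (h3 : ∀ i, ∀ f ∈ T, modOp hΨ 0 0 0 (L i) f ∈ T) : T = ⊥ ∨ T = ⊤ := by
  classical
  by_cases hT : T = ⊥
  · exact Or.inl hT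
  refine Or.inr (eq_top_iff.2 fun φ _ => ?_)
  obtain ⟨c, hc⟩ := exists_cond hΨ hΨ1
  obtain ⟨f, hfT, hf0⟩ := T.ne_bot_iff.1 hT
  obtain ⟨x0, hx0⟩ : ∃ x0, (f : (Fin m → E) → S0) x0 ≠ 0 := by
    by_contra! h
    exact hf0 (Sch.ext' h)
  -- the value at `x0`
  set s0 := (f : (Fin m → E) → S0) x0 with hs0
  have hcomp : ∀ (t : E) (x : Fin m → E), IsCompact (Metric.closedBall x ‖t‖) := fun t x =>
    isCompact_closedBall _ _
  obtain ⟨η, hη, hη'⟩ := Metric.eventually_nhds_iff.1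
    ((IsLocallyConstant.iff_eventually_eq (f : (Fin m → E) → S0)).1 f.2.1 x0)
  obtain ⟨t, ht, htη⟩ := NormedField.exists_norm_lt E hη
  have ht0 : t ≠ 0 := norm_pos_iff.1 ht
  -- indicators
  have step1 : ∀ (t' : E) (ht' : t' ≠ 0), ‖t'‖ ≤ ‖t‖ →
      ind (Metric.closedBall x0 ‖t'‖) (isClopen_bl ht' x0) (hcomp t' x0) s0 ∈ T := by
    intro t' ht' hle
    have h4 := cut_mem_of_stable hΨ hc h1 ht' x0 hfT
    have h5 : cut (Metric.closedBall x0 ‖t'‖) (isClopen_bl ht' x0) f =
        ind (Metric.closedBall x0 ‖t'‖) (isClopen_bl ht' x0) (hcomp t' x0) s0 := by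
      apply Sch.ext'
      intro x
      by_cases hx : x ∈ Metric.closedBall x0 ‖t'‖
      · rw [cut_mem _ _ hx, ind_mem _ _ _ hx]
        refine hη' ?_
        rw [Metric.mem_closedBall] at hx
        exact lt_of_le_of_lt (hx.trans hle) htη
      · rw [cut_notMem _ _ hx, ind_notMem _ _ _ hx]
    rwa [h5] at h4
  have step2 : ∀ (t' : E) (ht' : t' ≠ 0), ‖t'‖ ≤ ‖t‖ → ∀ s : S0,
      ind (Metric.closedBall x0 ‖t'‖) (isClopen_bl ht' x0) (hcomp t' x0) s ∈ T := by
    intro t' ht' hle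
    have h6 : T.comap (ind (Metric.closedBall x0 ‖t'‖) (isClopen_bl ht' x0) (hcomp t' x0)) =
        ⊤ := by
      rcases hL (T.comap (ind (Metric.closedBall x0 ‖t'‖) (isClopen_bl ht' x0) (hcomp t' x0)))
        (by
          intro i v hv
          have h7 := h3 i _ hv
          have h8 : modOp hΨ 0 0 0 (L i) (ind (Metric.closedBall x0 ‖t'‖) (isClopen_bl ht' x0)
              (hcomp t' x0) v) = ind (Metric.closedBall x0 ‖t'‖) (isClopen_bl ht' x0)
              (hcomp t' x0) (L i v) := by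
            apply Sch.ext'
            intro x
            rw [modOp_apply, zero_dotProduct, add_zero, AddChar.map_zero_eq_one, Circle.coe_one,
              one_smul, sub_zero]
            by_cases hx : x ∈ Metric.closedBall x0 ‖t'‖
            · rw [ind_mem _ _ _ hx, ind_mem _ _ _ hx]
            · rw [ind_notMem _ _ _ hx, ind_notMem _ _ _ hx, map_zero]
          rw [h8] at h7
          exact h7) with h | h
      · exfalso
        have : s0 ∈ T.comap (ind (Metric.closedBall x0 ‖t'‖) (isClopen_bl ht' x0)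
          (hcomp t' x0)) := step1 t' ht' hle
        rw [h, Submodule.mem_bot] at this
        exact hx0 this
      · exact h
    intro s
    have : s ∈ T.comap (ind (Metric.closedBall x0 ‖t'‖) (isClopen_bl ht' x0)
      (hcomp t' x0)) := by rw [h6]; exact Submodule.mem_top
    exact this
  have step3 : ∀ (t' : E) (ht' : t' ≠ 0), ‖t'‖ ≤ ‖t‖ → ∀ (s : S0) (x1 : Fin m → E),
      ind (Metric.closedBall x1 ‖t'‖) (isClopen_bl ht' x1) (hcomp t' x1) s ∈ T := by
    intro t' ht' hle s x1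
    have h9 := h2 (x1 - x0) _ (step2 t' ht' hle s)
    have h10 : modOp hΨ 0 (x1 - x0) 0 1 (ind (Metric.closedBall x0 ‖t'‖) (isClopen_bl ht' x0)
        (hcomp t' x0) s) = ind (Metric.closedBall x1 ‖t'‖) (isClopen_bl ht' x1)
          (hcomp t' x1) s := by
      apply Sch.ext'
      intro x
      rw [modOp_apply, zero_dotProduct, add_zero, AddChar.map_zero_eq_one, Circle.coe_one,
        one_smul, Module.End.one_apply]
      have h11 : x - (x1 - x0) ∈ Metric.closedBall x0 ‖t'‖ ↔ x ∈ Metric.closedBall x1 ‖t'‖ := by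
        rw [mem_bl_iff, mem_bl_iff]
        have : x - (x1 - x0) - x0 = x - x1 := by abel
        rw [this]
      by_cases hx : x ∈ Metric.closedBall x1 ‖t'‖
      · rw [ind_mem _ _ _ (h11.2 hx), ind_mem _ _ _ hx]
      · rw [ind_notMem _ _ _ fun h => hx (h11.1 h), ind_notMem _ _ _ hx]
    rwa [h10] at h9
  -- all functions
  obtain ⟨η', hη1, hη2⟩ := Metric.eventually_nhds_iff.1 (sch_unif φ.2)
  obtain ⟨t1, ht1, ht1η⟩ := NormedField.exists_norm_lt E (lt_min ht hη1)
  have ht10 : t1 ≠ 0 := norm_pos_iff.1 ht1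
  have ht1t : ‖t1‖ ≤ ‖t‖ := (ht1η.trans_le (min_le_left _ _)).le
  set Lt : AddSubgroup (Fin m → E) := bal E (Fin m) ‖t1‖ (norm_nonneg t1) with hLt
  set cls : (Fin m → E) → (Fin m → E) ⧸ Lt := fun x => QuotientAddGroup.mk x with hcls
  have hmk : ∀ x y : Fin m → E, cls x = cls y ↔ ‖y - x‖ ≤ ‖t1‖ := by
    intro x y
    rw [hcls]
    simp only
    rw [QuotientAddGroup.eq, neg_add_eq_sub]
    exact mem_bal
  have hlc : IsLocallyConstant cls := by
    rw [IsLocallyConstant.iff_eventually_eq]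
    intro x
    filter_upwards [Metric.closedBall_mem_nhds x ht1] with y hy
    rw [hmk, ← norm_neg, neg_sub]
    exact mem_bl_iff.1 hy
  have hout : ∀ q : (Fin m → E) ⧸ Lt, cls q.out = q := fun q => QuotientAddGroup.out_eq' q
  refine mem_of_cut_fibre cls hlc T φ fun q => ?_
  have h12 : cut (cls ⁻¹' {q}) (hlc.isClopen_fiber q) φ =
      ind (Metric.closedBall q.out ‖t1‖) (isClopen_bl ht10 q.out) (hcomp t1 q.out)
        ((φ : (Fin m → E) → S0) q.out) := by
    apply Sch.ext'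
    intro x
    have h13 : x ∈ cls ⁻¹' {q} ↔ x ∈ Metric.closedBall q.out ‖t1‖ := by
      rw [mem_bl_iff, ← norm_neg, neg_sub, ← hmk, hout]
      exact Iff.rfl
    by_cases hx : x ∈ cls ⁻¹' {q}
    · rw [cut_mem _ _ hx, ind_mem _ _ _ (h13.1 hx)]
      have h14 := mem_bl_iff.1 (h13.1 hx)
      have h15 := hη2 (y := x - q.out) (by
        rw [dist_zero_right]
        exact lt_of_le_of_lt h14 (ht1η.trans_le (min_le_right _ _))) q.out
      rw [← h15, add_sub_cancel]
    · rw [cut_notMem _ _ hx, ind_notMem _ _ _ fun h => hx (h13.2 h)]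
  rw [h12]
  exact step3 t1 ht10 ht1t _ _

end model

end SpW.P1
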