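import Pool.Agent.Work.MP_3615d2_al.Co.IndAB
import Pool.Agent.Work.MP_3615d2_al.SchInt
import Pool.Agent.Work.MP_3615d2_al.SchExt
import Pool.Agent.Work.MP_3615d2_al.HkDens

/-!
MP_3615d2_al, middle strata: averaging over a closed subgroup `P`, from `C_c(G) ⊗ W` to the
induced representation.
-/

open MeasureTheory MeasureTheory.Measure Filter Topology
open scoped NNReal ENNReal

namespace SpW.Mu

section modular

variable {P : Type} [Group P] [TopologicalSpace P] [IsTopologicalGroup P] [LocallyCompactSpace P]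
  [MeasurableSpace P] [BorelSpace P] (μ : Measure P) [μ.IsHaarMeasure]

/-- Right translation scales the measure of open sets by the modular character. -/
theorem haar_right_open (p : P) {O : Set P} (hO : IsOpen O) :
    μ ((fun x => x * p) ⁻¹' O) = modularCharacterFun p • μ O := by
  have h2 := measure_isHaarMeasure_eq_smul_of_isOpen (map (· * p) μ) μ hO
  rw [← modularCharacterFun_eq_haarScalarFactor μ p,
    Measure.map_apply (measurable_mul_const p) hO.measurableSet] at h2
  exact h2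

omit [MeasurableSpace P] [BorelSpace P] in
/-- The modular character is trivial on compact open subgroups. -/
theorem modular_of_mem {C : Subgroup P} (hCo : IsOpen (C : Set P)) (hCc : IsCompact (C : Set P))
    {p : P} (hp : p ∈ C) : modularCharacterFun p = 1 := by
  borelize P
  let μ : Measure P := Measure.haar
  have h1 := haar_right_open μ p hCo
  have h2 : (fun x => x * p) ⁻¹' (C : Set P) = C := by
    ext x
    exact C.mul_mem_cancel_right hp
  rw [h2] at h1
  have hpos : μ (C : Set P) ≠ 0 := (hCo.measure_pos μ ⟨1, C.one_mem⟩).ne'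
  have hfin : μ (C : Set P) ≠ ⊤ := hCc.measure_lt_top.ne
  have h3 : (1 : ℝ≥0∞) * μ (C : Set P) = (modularCharacterFun p : ℝ≥0∞) * μ (C : Set P) := by
    rw [one_mul]
    exact h1
  have h4 := (ENNReal.mul_left_inj hpos hfin).1 h3
  exact_mod_cast h4.symm

variable {W : Type} [AddCommGroup W] [Module ℂ W]

/-- Right translation of the argument scales the integral by the modular character. -/
theorem schI_right (p : P) (f f' : Sch P W) (h : ∀ x, f'.1 x = f.1 (x * p)) :
    schI μ f' = (((modularCharacterFun p : ℝ≥0) : ℝ) : ℂ) • schI μ f := by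
  unfold schI
  rw [smul_finsum]
  refine finsum_congr fun s => ?_
  by_cases hs : s = 0
  · rw [hs, smul_zero, smul_zero, smul_zero]
  · have h1 : f'.1 ⁻¹' {s} = (fun x => x * p) ⁻¹' (f.1 ⁻¹' {s}) := by
      ext x
      rw [Set.mem_preimage, Set.mem_preimage, Set.mem_preimage, h]
    have h2 : μ ((fun x => x * p) ⁻¹' (f.1 ⁻¹' {s})) = modularCharacterFun p • μ (f.1 ⁻¹' {s}) :=
      haar_right_open μ p (f.2.1.isOpen_fiber s)
    rw [h1, Measure.real, h2, smul_smul]
    congr 1
    rw [← Complex.ofReal_mul]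
    congr 1
    rw [Measure.real, ENNReal.smul_def, smul_eq_mul, ENNReal.toReal_mul]
    rfl

end modular

section avg

variable {G : Type} [Group G] [TopologicalSpace G] [IsTopologicalGroup G] {P : Subgroup G}
  {W : Type} [AddCommGroup W] [Module ℂ W] {τ : P →* Module.End ℂ W}

/-- `p ↦ τ(p) φ(p⁻¹ g)` -/
def avF (hτ : IsSmoothRep τ) (hP : IsClosed (P : Set G)) (φ : Sch G W) (g : G) : Sch P W :=
  ⟨fun p => τ p ((φ : G → W) ((p : G)⁻¹ * g)), by
    obtain ⟨h1, K, hK, h2⟩ := φ.2
    have hc : Continuous fun p : P => (p : G)⁻¹ * g :=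
      (continuous_subtype_val.inv).mul continuous_const
    refine ⟨?_, (fun p : P => (p : G)⁻¹ * g) ⁻¹' K, ?_, fun p hp => ?_⟩
    · rw [IsLocallyConstant.iff_eventually_eq]
      intro p
      have h3 : IsLocallyConstant fun u : P => τ u ((φ : G → W) ((p : G)⁻¹ * g)) :=
        Hk.orbit_lc hτ _
      have h4 : IsLocallyConstant fun u : P => (φ : G → W) ((u : G)⁻¹ * g) :=
        h1.comp_continuous hc
      rw [IsLocallyConstant.iff_eventually_eq] at h3 h4
      filter_upwards [h3 p, h4 p] with u hu hu'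
      rw [hu', hu]
    · have h5 : (fun p : P => (p : G)⁻¹ * g) ⁻¹' K =
          (Subtype.val : P → G) ⁻¹' ((fun x : G => g * x⁻¹) '' K) := by
        ext p
        constructor
        · intro hp
          exact ⟨(p : G)⁻¹ * g, hp, by group⟩
        · rintro ⟨x, hx, hxp⟩
          have : (p : G)⁻¹ * g = x := by
            have h6 : (p : G) = g * x⁻¹ := hxp.symm
            rw [h6]
            group
          show (p : G)⁻¹ * g ∈ K
          rwa [this]
      rw [h5]
      refine hP.isClosedEmbedding_subtypeVal.isCompact_preimage (hK.image ?_)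
      exact continuous_const.mul continuous_inv
    · show τ p ((φ : G → W) ((p : G)⁻¹ * g)) = 0
      rw [h2 _ hp, map_zero]⟩

theorem avF_apply (hτ : IsSmoothRep τ) (hP : IsClosed (P : Set G)) (φ : Sch G W) (g : G) (p : P) :
    (avF hτ hP φ g : P → W) p = τ p ((φ : G → W) ((p : G)⁻¹ * g)) := rfl

/-- An element of `Sch G W` is right invariant under a neighbourhood of `1`. -/
theorem sch_right_unif (φ : Sch G W) :
    ∀ᶠ k in 𝓝 (1 : G), ∀ x, (φ : G → W) (x * k) = (φ : G → W) x := by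
  obtain ⟨hf, K, hK, hfK⟩ := φ.2
  have h1 : ∀ x, ∀ᶠ p : G × G in 𝓝 (1, x), (φ : G → W) (p.2 * p.1) = (φ : G → W) p.2 := by
    intro x
    have h3 : ∀ᶠ y in 𝓝 x, (φ : G → W) y = (φ : G → W) x := hf.eventually_eq x
    have h4 : Tendsto (fun p : G × G => p.2 * p.1) (𝓝 (1, x)) (𝓝 x) := by
      have h5 : Continuous fun p : G × G => p.2 * p.1 := continuous_snd.mul continuous_fst
      have := h5.tendsto (1, x)
      simpa using this
    filter_upwards [h4.eventually h3, continuous_snd.continuousAt.eventually h3] with p hp hp'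
    rw [hp, hp']
  have h5 : ∀ᶠ k in 𝓝 (1 : G), ∀ x ∈ K, (φ : G → W) (x * k) = (φ : G → W) x :=
    hK.eventually_forall_of_forall_eventually fun x _ => h1 x
  have h6 : ∀ᶠ k in 𝓝 (1 : G), ∀ x ∈ K, (φ : G → W) (x * k⁻¹) = (φ : G → W) x := by
    have : Tendsto (fun g : G => g⁻¹) (𝓝 1) (𝓝 1) := by
      have := (continuous_inv (G := G)).tendsto 1
      simpa using this
    exact this.eventually h5
  filter_upwards [h5, h6] with k hk hk' x
  by_cases hx : x ∈ K
  · exact hk x hx
  · rw [hfK x hx]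
    by_cases hx' : x * k ∈ K
    · have h7 := hk' _ hx'
      rw [mul_inv_cancel_right, hfK x hx] at h7
      exact h7.symm
    · exact hfK _ hx'

variable [MeasurableSpace P] [BorelSpace P] (μ : Measure P) [IsFiniteMeasureOnCompacts μ]

/-- The average `A φ (g) = ∫_P τ(p) φ(p⁻¹ g) dp`. -/
noncomputable def avg (hτ : IsSmoothRep τ) (hP : IsClosed (P : Set G)) :
    Sch G W →ₗ[ℂ] (G → W) where
  toFun φ := fun g => schI μ (avF hτ hP φ g)
  map_add' φ φ' := by
    funext g
    show schIL P W μ (avF hτ hP (φ + φ') g) = schIL P W μ (avF hτ hP φ g) +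
      schIL P W μ (avF hτ hP φ' g)
    rw [← map_add]
    congr 1
    apply Subtype.ext
    funext p
    show τ p ((φ : G → W) ((p : G)⁻¹ * g) + (φ' : G → W) ((p : G)⁻¹ * g)) =
      τ p ((φ : G → W) ((p : G)⁻¹ * g)) + τ p ((φ' : G → W) ((p : G)⁻¹ * g))
    rw [map_add]
  map_smul' c φ := by
    funext g
    show schIL P W μ (avF hτ hP (c • φ) g) = c • schIL P W μ (avF hτ hP φ g)
    rw [← map_smul]
    congr 1
    apply Subtype.ext
    funext p
    show τ p (c • (φ : G → W) ((p : G)⁻¹ * g)) = c • τ p ((φ : G → W) ((p : G)⁻¹ * g))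
    rw [map_smul]

theorem avg_apply (hτ : IsSmoothRep τ) (hP : IsClosed (P : Set G)) (φ : Sch G W) (g : G) :
    avg μ hτ hP φ g = schI μ (avF hτ hP φ g) := rfl

theorem avg_right_smooth (hτ : IsSmoothRep τ) (hP : IsClosed (P : Set G)) (φ : Sch G W) :
    ∀ᶠ k in 𝓝 (1 : G), ∀ x, avg μ hτ hP φ (x * k) = avg μ hτ hP φ x := by
  filter_upwards [sch_right_unif φ] with k hk x
  rw [avg_apply, avg_apply]
  congr 1
  apply Subtype.ext
  funext p
  show τ p ((φ : G → W) ((p : G)⁻¹ * (x * k))) = τ p ((φ : G → W) ((p : G)⁻¹ * x))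
  rw [← mul_assoc, hk]

theorem avg_left [μ.IsMulLeftInvariant] (hτ : IsSmoothRep τ) (hP : IsClosed (P : Set G))
    (φ : Sch G W) (q : P) (g : G) :
    avg μ hτ hP φ (q * g) = τ q (avg μ hτ hP φ g) := by
  refine dual_ext fun ξ => ?_
  rw [avg_apply, avg_apply, schI_dual]
  have h1 := schI_dual μ (avF hτ hP φ g) (ξ.comp (τ q))
  rw [LinearMap.comp_apply] at h1
  rw [h1, ← integral_mul_left_eq_self (μ := μ)
    (fun p : P => ξ ((avF hτ hP φ (q * g) : P → W) p)) q]
  refine integral_congr_ae (Filter.Eventually.of_forall fun p => ?_)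
  show ξ (τ (q * p) ((φ : G → W) (((q * p : P) : G)⁻¹ * ((q : G) * g)))) =
    ξ (τ q (τ p ((φ : G → W) ((p : G)⁻¹ * g))))
  have h2 : ((q * p : P) : G)⁻¹ * ((q : G) * g) = (p : G)⁻¹ * g := by
    rw [Subgroup.coe_mul]
    group
  rw [h2, map_mul, Module.End.mul_apply]

theorem avg_transl [μ.IsHaarMeasure] [LocallyCompactSpace P] (hτ : IsSmoothRep τ)
    (hP : IsClosed (P : Set G)) (q : P) (φ φ' : Sch G W)
    (h : ∀ x, (φ' : G → W) x = τ q ((φ : G → W) ((q : G)⁻¹ * x))) :
    avg μ hτ hP φ' = (((modularCharacterFun q : ℝ≥0) : ℝ) : ℂ) • avg μ hτ hP φ := by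
  funext g
  rw [Pi.smul_apply, avg_apply, avg_apply]
  refine schI_right μ q _ _ fun p => ?_
  show τ p ((φ' : G → W) ((p : G)⁻¹ * g)) = τ (p * q) ((φ : G → W) (((p * q : P) : G)⁻¹ * g))
  rw [h, map_mul, Module.End.mul_apply, Subgroup.coe_mul, mul_inv_rev, mul_assoc]

theorem avg_rtransl (hτ : IsSmoothRep τ) (hP : IsClosed (P : Set G)) (u : G) (φ φ' : Sch G W)
    (h : ∀ x, (φ' : G → W) x = (φ : G → W) (x * u)) (g : G) :
    avg μ hτ hP φ' g = avg μ hτ hP φ (g * u) := by
  rw [avg_apply, avg_apply]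
  congr 1
  apply Subtype.ext
  funext p
  show τ p ((φ' : G → W) ((p : G)⁻¹ * g)) = τ p ((φ : G → W) ((p : G)⁻¹ * (g * u)))
  rw [h, mul_assoc]

/-- A function in the induced representation is the average of its restriction to a compact
open subgroup `K` with `G = P K`. -/
theorem avg_cut [μ.IsMulLeftInvariant] (hτ : IsSmoothRep τ) (hP : IsClosed (P : Set G))
    (K : Subgroup G) (hGK : ∀ g : G, ∃ p : P, ∃ k ∈ K, g = p * k) (f : G → W)
    (hf : ∀ (p : P) g, f (p * g) = τ p (f g)) (φ : Sch G W)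
    (hφ : ∀ x ∈ K, (φ : G → W) x = f x) (hφ' : ∀ x, x ∉ K → (φ : G → W) x = 0)
    (hKo : IsOpen (K : Set G)) :
    avg μ hτ hP φ = ((μ.real {p : P | (p : G) ∈ K} : ℝ) : ℂ) • f := by
  funext g
  obtain ⟨p₁, k₁, hk₁, rfl⟩ := hGK g
  rw [Pi.smul_apply, avg_apply]
  have hc : Continuous fun p : P => (p : G)⁻¹ * ((p₁ : G) * k₁) :=
    (continuous_subtype_val.inv).mul continuous_const
  have hO : IsOpen {p : P | (p : G)⁻¹ * ((p₁ : G) * k₁) ∈ K} := hKo.preimage hc
  rw [schI_indicator_const μ (avF hτ hP φ ((p₁ : G) * k₁)) hO (v := f (p₁ * k₁))]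
  · have h1 : {p : P | (p : G)⁻¹ * ((p₁ : G) * k₁) ∈ K} =
        (fun p => p₁⁻¹ * p) ⁻¹' {p : P | (p : G) ∈ K} := by
      ext p
      show (p : G)⁻¹ * ((p₁ : G) * k₁) ∈ K ↔ ((p₁⁻¹ * p : P) : G) ∈ K
      rw [← mul_assoc, K.mul_mem_cancel_right hk₁, ← K.inv_mem_iff, mul_inv_rev, inv_inv,
        Subgroup.coe_mul, Subgroup.coe_inv]
    have h2 : μ.real {p : P | (p : G)⁻¹ * ((p₁ : G) * k₁) ∈ K} =
        μ.real {p : P | (p : G) ∈ K} := by
      rw [h1]
      show (μ ((fun p => p₁⁻¹ * p) ⁻¹' {p : P | (p : G) ∈ K})).toReal =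
        (μ {p : P | (p : G) ∈ K}).toReal
      rw [measure_preimage_mul]
    rw [h2]
  · intro p hp
    show τ p ((φ : G → W) ((p : G)⁻¹ * ((p₁ : G) * k₁))) = _
    rw [hφ _ hp, ← hf]
    congr 1
    group
  · intro p hp
    show τ p ((φ : G → W) ((p : G)⁻¹ * ((p₁ : G) * k₁))) = _
    rw [hφ' _ hp, map_zero]

end avg

end SpW.Mu
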