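import Pool.Agent.Work.MP_3615d2_al.BPFix
import Pool.Agent.Work.MP_3615d2_al.DefsB

/-!
MP_3615d2_al, middle strata: functionals fixed by the transvections `1 + k (β w)ᵗ`, `kᵗ β = 0`;
compact open subgroups containing a unipotent element `u`, `(u - 1)³ = 0`.
-/

open Filter Topology Matrix

namespace SpW.Mu

section fixed

variable {E : Type} [Field E] {m : ℕ} {V : Type} [AddCommGroup V] [Module ℂ V]

/-- A functional fixed by the elements `1 + (γ w) kᵗ`, `kᵗ γ = 0`, is zero if `π` has no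
coinvariants for the unipotent radical of type `(r, m - r)`, `r = rank γ`. -/
theorem fixed_zero_gen {γ : Matrix (Fin m) (Fin m) E}
    {π : GL (Fin m) E →* Module.End ℂ V} (hc : cvN π (Nk m γ.rank E) ⊤ = ⊤) (lam : V →ₗ[ℂ] ℂ)
    (hlam : ∀ (g : GL (Fin m) E) (w k : Fin m → E), k ᵥ* γ = 0 →
      (g : Matrix (Fin m) (Fin m) E) = 1 + vecMulVec (γ.mulVec w) k → ∀ v, lam (π g v) = lam v) :
    lam = 0 := by
  obtain ⟨h, h1, h2⟩ := exists_adapted γ
  have hrow : ∀ l : Fin m, γ.rank ≤ l.1 →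
      (fun j => ((h⁻¹ : GL (Fin m) E) : Matrix (Fin m) (Fin m) E) l j) ᵥ* γ = 0 := by
    intro l hl
    have h3 : ∀ w, (fun j => ((h⁻¹ : GL (Fin m) E) : Matrix (Fin m) (Fin m) E) l j) ⬝ᵥ
        γ.mulVec w = 0 := fun w => h2 w l hl
    refine dotProduct_eq_zero _ fun w => ?_
    rw [← Matrix.dotProduct_mulVec]
    exact h3 w
  let P : Matrix (Fin m) (Fin m) E → Prop := fun C =>
    (∃ g : GL (Fin m) E, (g : Matrix (Fin m) (Fin m) E) = 1 + C ∧ ∀ v, lam (π g v) = lam v) ∧
      C * γ = 0 ∧ ∃ D, C = γ * D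
  have hP0 : P 0 := by
    refine ⟨⟨1, by rw [add_zero]; rfl, fun v => by rw [map_one]; rfl⟩, Matrix.zero_mul _, 0, ?_⟩
    rw [Matrix.mul_zero]
  have hPadd : ∀ a b, P a → P b → P (a + b) := by
    rintro a b ⟨⟨g, hg, hgl⟩, ha, D, hD⟩ ⟨⟨g', hg', hgl'⟩, hb, D', hD'⟩
    refine ⟨⟨g * g', ?_, ?_⟩, ?_, D + D', ?_⟩
    · rw [Units.val_mul, hg, hg', add_mul, one_mul, mul_add, mul_one]
      have : a * b = 0 := by
        rw [hD', ← Matrix.mul_assoc, ha, Matrix.zero_mul]
      rw [this]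
      abel
    · intro v
      rw [map_mul, Module.End.mul_apply, hgl, hgl']
    · rw [Matrix.add_mul, ha, hb, add_zero]
    · rw [Matrix.mul_add, hD, hD']
  have hPr : ∀ w k : Fin m → E, k ᵥ* γ = 0 → P (vecMulVec (γ.mulVec w) k) := by
    intro w k hk
    have hC1 : vecMulVec (γ.mulVec w) k * γ = 0 := by
      rw [Matrix.vecMulVec_mul, hk]
      ext i j
      simp [vecMulVec_apply]
    have hC2 : vecMulVec (γ.mulVec w) k = γ * vecMulVec w k := by
      rw [Matrix.mul_vecMulVec]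
    have hCC : vecMulVec (γ.mulVec w) k * vecMulVec (γ.mulVec w) k = 0 := by
      conv_lhs => rw [hC2, ← Matrix.mul_assoc, ← hC2]
      rw [hC1, Matrix.zero_mul]
    refine ⟨?_, hC1, _, hC2⟩
    let g : GL (Fin m) E :=
      { val := 1 + vecMulVec (γ.mulVec w) k
        inv := 1 - vecMulVec (γ.mulVec w) k
        val_inv := by
          rw [add_mul, one_mul, mul_sub, mul_one, hCC]
          abel
        inv_val := by
          rw [sub_mul, one_mul, mul_add, mul_one, hCC]
          abel }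
    exact ⟨g, rfl, hlam g w k hk rfl⟩
  have key : ∀ u ∈ Nk m γ.rank E, ∀ v, lam (π (h * u * h⁻¹) v) = lam v := by
    intro u hu v
    have h3 : P ((h : Matrix (Fin m) (Fin m) E) * ((u : Matrix (Fin m) (Fin m) E) - 1) *
        ((h⁻¹ : GL (Fin m) E) : Matrix (Fin m) (Fin m) E)) := by
      have h4 : (h : Matrix (Fin m) (Fin m) E) * ((u : Matrix (Fin m) (Fin m) E) - 1) *
          ((h⁻¹ : GL (Fin m) E) : Matrix (Fin m) (Fin m) E) =
          ∑ p : Fin m × Fin m, vecMulVec
            ((((u : Matrix (Fin m) (Fin m) E) - 1) p.1 p.2) •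
              (h : Matrix (Fin m) (Fin m) E).mulVec (Pi.single p.1 1))
            (fun j => ((h⁻¹ : GL (Fin m) E) : Matrix (Fin m) (Fin m) E) p.2 j) := by
        ext i j
        rw [Matrix.sum_apply, Fintype.sum_prod_type, Matrix.mul_assoc, Matrix.mul_apply]
        refine Finset.sum_congr rfl fun a _ => ?_
        rw [Matrix.mul_apply, Finset.mul_sum]
        refine Finset.sum_congr rfl fun b _ => ?_
        rw [vecMulVec_apply, Pi.smul_apply, Matrix.mulVec_single_one, Matrix.col_apply, smul_eq_mul]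
        ring
      rw [h4]
      refine Finset.sum_induction _ P hPadd hP0 ?_
      rintro ⟨i, l⟩ -
      by_cases hil : i.1 < γ.rank ∧ γ.rank ≤ l.1
      · obtain ⟨w, hw⟩ := h1 i hil.1
        show P (vecMulVec (_ • (h : Matrix (Fin m) (Fin m) E).mulVec (Pi.single i 1)) _)
        rw [hw, ← Matrix.mulVec_smul]
        exact hPr _ _ (hrow l hil.2)
      · have h5 : ((u : Matrix (Fin m) (Fin m) E) - 1) i l = 0 := by
          rw [Matrix.sub_apply, hu i l hil, Matrix.one_apply, sub_self]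
        show P (vecMulVec (((u : Matrix (Fin m) (Fin m) E) - 1) i l • _) _)
        rw [h5, zero_smul]
        have h6 : vecMulVec (0 : Fin m → E)
            (fun j => ((h⁻¹ : GL (Fin m) E) : Matrix (Fin m) (Fin m) E) l j) = 0 := by
          ext a b
          simp [vecMulVec_apply]
        rw [h6]
        exact hP0
    obtain ⟨⟨g, hg, hgl⟩, -⟩ := h3
    have h4 : g = h * u * h⁻¹ := by
      apply Units.ext
      rw [hg, Matrix.mul_sub, Matrix.sub_mul, Matrix.mul_one, Units.mul_inv, Units.val_mul,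
        Units.val_mul]
      abel
    rw [← h4]
    exact hgl v
  have hz : lam.comp (π h) = 0 := by
    have h3 : (⊤ : Submodule ℂ V) ≤ LinearMap.ker (lam.comp (π h)) := by
      rw [← hc]
      refine Submodule.span_le.2 ?_
      rintro _ ⟨u, hu, v, -, rfl⟩
      show lam (π h (π u v - v)) = 0
      rw [map_sub, map_sub, sub_eq_zero]
      have h4 := key u hu (π h v)
      rw [← h4, ← Module.End.mul_apply, ← Module.End.mul_apply, ← map_mul, ← map_mul,
        inv_mul_cancel_right]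
    ext v
    exact h3 (Submodule.mem_top (x := v))
  ext v
  have h5 := LinearMap.congr_fun hz (π h⁻¹ v)
  have h6 : π h (π h⁻¹ v) = v := by
    rw [← Module.End.mul_apply, ← map_mul, mul_inv_cancel, map_one, Module.End.one_apply]
  rw [LinearMap.comp_apply, h6] at h5
  exact h5

/-- A functional fixed by the elements `1 + k (β w)ᵗ`, `kᵗ β = 0`, is zero if `π` is cuspidal and
`β` is neither zero nor invertible. -/
theorem fixed_zero_left {β : Matrix (Fin m) (Fin m) E} (hβ0 : β ≠ 0) (hβ1 : β.det = 0)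
    {π : GL (Fin m) E →* Module.End ℂ V}
    (hc : ∀ k, 0 < k → k < m → cvN π (Nk m k E) ⊤ = ⊤) (lam : V →ₗ[ℂ] ℂ)
    (hlam : ∀ (g : GL (Fin m) E) (k w : Fin m → E), k ᵥ* β = 0 →
      (g : Matrix (Fin m) (Fin m) E) = 1 + vecMulVec k (β.mulVec w) → ∀ v, lam (π g v) = lam v) :
    lam = 0 := by
  obtain ⟨Q, hQ, -⟩ := exists_ginv β
  set γ : Matrix (Fin m) (Fin m) E := (1 - β * Q).transpose with hγ
  have hγβ : γ.transpose * β = 0 := by
    rw [hγ, Matrix.transpose_transpose, sub_mul, Matrix.one_mul, hQ, sub_self]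
  -- the range of `γ`
  have h1 : ∀ w, (γ.mulVec w) ᵥ* β = 0 := by
    intro w
    rw [← Matrix.vecMul_transpose, Matrix.vecMul_vecMul, hγβ, Matrix.vecMul_zero]
  -- the left kernel of `γ`
  have h2 : ∀ k : Fin m → E, k ᵥ* γ = 0 → k = β.mulVec (Q.mulVec k) := by
    intro k hk
    rw [hγ, Matrix.vecMul_transpose, Matrix.sub_mulVec, Matrix.one_mulVec, sub_eq_zero,
      ← Matrix.mulVec_mulVec] at hk
    exact hk
  have hdet : IsUnit γ.det → False := by
    intro h3
    have h4 : IsUnit γ.transpose.det := by rwa [Matrix.det_transpose]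
    have h5 : β = 0 := by
      have h6 : γ.transpose⁻¹ * (γ.transpose * β) = β := by
        rw [← Matrix.mul_assoc, Matrix.nonsing_inv_mul _ h4, Matrix.one_mul]
      rw [← h6, hγβ, Matrix.mul_zero]
    exact hβ0 h5
  have hr1 : γ.rank < m := by
    refine rank_lt_of_det' ?_
    by_contra h3
    exact hdet (isUnit_iff_ne_zero.2 h3)
  have hr0 : 0 < γ.rank := by
    rcases Nat.eq_zero_or_pos γ.rank with h0 | h0
    · exfalso
      have h3 : γ = 0 := by
        have h1 : LinearMap.range γ.mulVecLin = ⊥ := Submodule.finrank_eq_zero.1 h0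
        apply Matrix.ext_of_mulVec_single
        intro i
        have h2 : γ.mulVecLin (Pi.single i 1) ∈ LinearMap.range γ.mulVecLin := ⟨_, rfl⟩
        rw [h1, Submodule.mem_bot, Matrix.mulVecLin_apply] at h2
        rw [h2, Matrix.zero_mulVec]
      have h4 : β * Q = 1 := by
        have h5 : (1 - β * Q) = 0 := by
          rw [← Matrix.transpose_transpose (1 - β * Q), ← hγ, h3, Matrix.transpose_zero]
        exact (sub_eq_zero.1 h5).symm
      have h6 := congrArg Matrix.det h4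
      rw [Matrix.det_mul, hβ1, zero_mul, Matrix.det_one] at h6
      exact zero_ne_one h6
    · exact h0
  refine fixed_zero_gen (hc _ hr0 hr1) lam fun g w k hk hg v => ?_
  rw [h2 k hk] at hg
  exact hlam g _ _ (h1 w) hg v
where
  rank_lt_of_det' {β : Matrix (Fin m) (Fin m) E} (h : β.det = 0) : β.rank < m := by
    have h1 : β.rank ≤ m := by
      have := β.rank_le_card_width
      rwa [Fintype.card_fin] at this
    rcases h1.lt_or_eq with h2 | h2
    · exact h2
    · exfalso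
      have h3 : LinearMap.range β.mulVecLin = ⊤ := by
        apply Submodule.eq_top_of_finrank_eq
        rw [Module.finrank_fin_fun]
        exact h2
      have h4 : Function.Surjective β.mulVec := LinearMap.range_eq_top.1 h3
      have h5 : IsUnit β := Matrix.mulVec_surjective_iff_isUnit.1 h4
      have h6 := (Matrix.isUnit_iff_isUnit_det _).1 h5
      rw [h] at h6
      exact not_isUnit_zero h6

end fixed

section cpt

variable {E : Type} [NontriviallyNormedField E] [IsUltrametricDist E] {N : ℕ}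

/-- A unipotent element `u`, `(u - 1)³ = 0`, lies in a compact open subgroup. -/
theorem exists_cptOpen_gl3 [ProperSpace E] (g : GL (Fin N) E)
    (hg : ((g : Matrix (Fin N) (Fin N) E) - 1) * ((g : Matrix (Fin N) (Fin N) E) - 1) *
      ((g : Matrix (Fin N) (Fin N) E) - 1) = 0) :
    ∃ C : Subgroup (GL (Fin N) E), IsOpen (C : Set (GL (Fin N) E)) ∧
      IsCompact (C : Set (GL (Fin N) E)) ∧ g ∈ C := by
  set c : Matrix (Fin N) (Fin N) E := (g : Matrix (Fin N) (Fin N) E) - 1 with hc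
  have hg1 : (g : Matrix (Fin N) (Fin N) E) = 1 + c := by rw [hc]; abel
  have hg2 : ((g⁻¹ : GL (Fin N) E) : Matrix (Fin N) (Fin N) E) = 1 - c + c * c := by
    have h1 : (g : Matrix (Fin N) (Fin N) E) * (1 - c + c * c) = 1 := by
      have h0 : (1 + c) * (1 - c + c * c) = 1 + c * c * c := by noncomm_ring
      rw [hg1, h0, hg, add_zero]
    have h2 : ((g⁻¹ : GL (Fin N) E) : Matrix (Fin N) (Fin N) E) *
        ((g : Matrix (Fin N) (Fin N) E) * (1 - c + c * c)) = 1 - c + c * c := by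
      rw [← mul_assoc, Units.inv_mul, one_mul]
    rw [← h2, h1, mul_one]
  obtain ⟨C, hC1, hC, hC'⟩ : ∃ C : ℝ, 1 ≤ C ∧ (∀ i j : Fin N, ‖c i j‖ ≤ C) ∧
      ∀ i j : Fin N, ‖(c * c) i j‖ ≤ C := by
    refine ⟨1 + ((∑ i, ∑ j, ‖c i j‖) + ∑ i, ∑ j, ‖(c * c) i j‖), ?_, ?_, ?_⟩
    · have h1 : 0 ≤ ∑ i, ∑ j, ‖c i j‖ :=
        Finset.sum_nonneg fun i _ => Finset.sum_nonneg fun j _ => norm_nonneg _
      have h2 : 0 ≤ ∑ i, ∑ j, ‖(c * c) i j‖ :=
        Finset.sum_nonneg fun i _ => Finset.sum_nonneg fun j _ => norm_nonneg _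
      linarith
    · intro i j
      have h1 : ‖c i j‖ ≤ ∑ j, ‖c i j‖ :=
        Finset.single_le_sum (f := fun j => ‖c i j‖) (fun j _ => norm_nonneg _) (Finset.mem_univ j)
      have h2 : ∑ j, ‖c i j‖ ≤ ∑ i, ∑ j, ‖c i j‖ :=
        Finset.single_le_sum (f := fun i => ∑ j, ‖c i j‖)
          (fun i _ => Finset.sum_nonneg fun j _ => norm_nonneg _) (Finset.mem_univ i)
      have h3 : 0 ≤ ∑ i, ∑ j, ‖(c * c) i j‖ :=
        Finset.sum_nonneg fun i _ => Finset.sum_nonneg fun j _ => norm_nonneg _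
      linarith
    · intro i j
      have h1 : ‖(c * c) i j‖ ≤ ∑ j, ‖(c * c) i j‖ :=
        Finset.single_le_sum (f := fun j => ‖(c * c) i j‖) (fun j _ => norm_nonneg _)
          (Finset.mem_univ j)
      have h2 : ∑ j, ‖(c * c) i j‖ ≤ ∑ i, ∑ j, ‖(c * c) i j‖ :=
        Finset.single_le_sum (f := fun i => ∑ j, ‖(c * c) i j‖)
          (fun i _ => Finset.sum_nonneg fun j _ => norm_nonneg _) (Finset.mem_univ i)
      have h3 : 0 ≤ ∑ i, ∑ j, ‖c i j‖ :=
        Finset.sum_nonneg fun i _ => Finset.sum_nonneg fun j _ => norm_nonneg _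
      linarith
  have hC0 : 0 < C := lt_of_lt_of_le one_pos hC1
  have hCi : C⁻¹ ≤ 1 := inv_le_one_of_one_le₀ hC1
  -- the lattice
  set L : Set (Fin N → E) := {v | (∀ i, ‖v i‖ ≤ 1) ∧ (∀ i, ‖c.mulVec v i‖ ≤ 1) ∧
    ∀ i, ‖(c * c).mulVec v i‖ ≤ 1} with hL
  have hL2 : ∀ v : Fin N → E, (∀ i, ‖v i‖ ≤ C⁻¹) → v ∈ L := by
    intro v hv
    refine ⟨fun i => (hv i).trans hCi, fun i => ?_, fun i => ?_⟩
    · have h1 := mulVec_entry_le c hC0.le hC v (inv_nonneg.2 hC0.le) hv i
      rwa [mul_inv_cancel₀ hC0.ne'] at h1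
    · have h1 := mulVec_entry_le (c * c) hC0.le hC' v (inv_nonneg.2 hC0.le) hv i
      rwa [mul_inv_cancel₀ hC0.ne'] at h1
  have hLadd : ∀ v ∈ L, ∀ w ∈ L, v + w ∈ L := by
    intro v hv w hw
    refine ⟨fun i => ?_, fun i => ?_, fun i => ?_⟩
    · exact (IsUltrametricDist.norm_add_le_max _ _).trans (max_le (hv.1 i) (hw.1 i))
    · rw [Matrix.mulVec_add]
      exact (IsUltrametricDist.norm_add_le_max _ _).trans (max_le (hv.2.1 i) (hw.2.1 i))
    · rw [Matrix.mulVec_add]
      exact (IsUltrametricDist.norm_add_le_max _ _).trans (max_le (hv.2.2 i) (hw.2.2 i))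
  have hLc : ∀ v ∈ L, c.mulVec v ∈ L := by
    intro v hv
    refine ⟨hv.2.1, fun i => ?_, fun i => ?_⟩
    · rw [Matrix.mulVec_mulVec]
      exact hv.2.2 i
    · rw [Matrix.mulVec_mulVec, hg, Matrix.zero_mulVec, Pi.zero_apply, norm_zero]
      exact zero_le_one
  have hLneg : ∀ v ∈ L, -v ∈ L := by
    intro v hv
    refine ⟨fun i => ?_, fun i => ?_, fun i => ?_⟩
    · rw [Pi.neg_apply, norm_neg]; exact hv.1 i
    · rw [Matrix.mulVec_neg, Pi.neg_apply, norm_neg]; exact hv.2.1 i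
    · rw [Matrix.mulVec_neg, Pi.neg_apply, norm_neg]; exact hv.2.2 i
  let S : Subgroup (GL (Fin N) E) :=
    { carrier := {u | (∀ v ∈ L, (u : Matrix (Fin N) (Fin N) E).mulVec v ∈ L) ∧
        ∀ v ∈ L, ((u⁻¹ : GL (Fin N) E) : Matrix (Fin N) (Fin N) E).mulVec v ∈ L}
      mul_mem' := by
        rintro a b ⟨ha, ha'⟩ ⟨hb, hb'⟩
        refine ⟨fun v hv => ?_, fun v hv => ?_⟩
        · rw [Units.val_mul, ← Matrix.mulVec_mulVec]
          exact ha _ (hb _ hv)
        · rw [_root_.mul_inv_rev, Units.val_mul, ← Matrix.mulVec_mulVec]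
          exact hb' _ (ha' _ hv)
      one_mem' := by
        refine ⟨fun v hv => ?_, fun v hv => ?_⟩
        · rwa [Units.val_one, Matrix.one_mulVec]
        · rwa [inv_one, Units.val_one, Matrix.one_mulVec]
      inv_mem' := by
        rintro a ⟨ha, ha'⟩
        refine ⟨ha', fun v hv => ?_⟩
        rw [inv_inv]
        exact ha v hv }
  have hSo : IsOpen (S : Set (GL (Fin N) E)) := by
    refine S.isOpen_of_mem_nhds (g := 1) ?_
    have h1 : ∀ᶠ u : GL (Fin N) E in 𝓝 1, ∀ i j,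
        ‖((u : Matrix (Fin N) (Fin N) E) - 1) i j‖ < C⁻¹ := by
      refine Filter.eventually_all.2 fun i => Filter.eventually_all.2 fun j => ?_
      have hc' : Continuous fun u : GL (Fin N) E => ‖((u : Matrix (Fin N) (Fin N) E) - 1) i j‖ := by
        have := (continuous_gl_entry (E := E) i j).sub
          (continuous_const (y := (1 : Matrix (Fin N) (Fin N) E) i j))
        exact this.norm
      have h2 : ‖(((1 : GL (Fin N) E) : Matrix (Fin N) (Fin N) E) - 1) i j‖ < C⁻¹ := by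
        rw [Units.val_one, sub_self, Matrix.zero_apply, norm_zero]
        exact inv_pos.2 hC0
      exact hc'.continuousAt.eventually_lt continuousAt_const h2
    have h2 : ∀ᶠ u : GL (Fin N) E in 𝓝 1, ∀ i j,
        ‖(((u⁻¹ : GL (Fin N) E) : Matrix (Fin N) (Fin N) E) - 1) i j‖ < C⁻¹ := by
      have h3 : Tendsto (fun u : GL (Fin N) E => u⁻¹) (𝓝 1) (𝓝 1) := by
        have := (continuous_inv (G := GL (Fin N) E)).tendsto 1
        rwa [inv_one] at this
      exact h3.eventually h1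
    have key : ∀ M : Matrix (Fin N) (Fin N) E, (∀ i j, ‖(M - 1) i j‖ < C⁻¹) →
        ∀ v ∈ L, M.mulVec v ∈ L := by
      intro M hM v hv
      have h3 : M.mulVec v = v + (M - 1).mulVec v := by
        rw [Matrix.sub_mulVec, Matrix.one_mulVec, add_sub_cancel]
      rw [h3]
      refine hLadd _ hv _ (hL2 _ fun i => ?_)
      have h4 := mulVec_entry_le (M - 1) (inv_nonneg.2 hC0.le) (fun i j => (hM i j).le) v
        zero_le_one hv.1 i
      rwa [mul_one] at h4
    filter_upwards [h1, h2] with u hu hu'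
    exact ⟨key _ hu, key _ hu'⟩
  refine ⟨S, hSo, ?_, ?_⟩
  · obtain ⟨t, ht0, ht⟩ : ∃ t : E, 0 < ‖t‖ ∧ ‖t‖ < C⁻¹ :=
      NormedField.exists_norm_lt E (inv_pos.2 hC0)
    have hbd : ∀ u : GL (Fin N) E, (∀ v ∈ L, (u : Matrix (Fin N) (Fin N) E).mulVec v ∈ L) →
        ∀ i j, ‖(u : Matrix (Fin N) (Fin N) E) i j‖ ≤ ‖t‖⁻¹ := by
      intro u hu i j
      have h1 : Pi.single j t ∈ L := by
        refine hL2 _ fun i => ?_
        by_cases hij : i = j
        · subst hij
          rw [Pi.single_eq_same]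
          exact ht.le
        · rw [Pi.single_eq_of_ne hij, norm_zero]
          exact inv_nonneg.2 hC0.le
      have h2 := (hu _ h1).1 i
      rw [Matrix.mulVec_single] at h2
      simp only [Pi.smul_apply, MulOpposite.smul_eq_mul_unop, MulOpposite.unop_op, Matrix.col_apply,
        norm_mul] at h2
      rw [← one_div, le_div_iff₀ ht0]
      exact h2
    refine (isCompact_gl_bdd (E := E) (ι := Fin N) ‖t‖⁻¹).of_isClosed_subset
      (S.isClosed_of_isOpen hSo) ?_
    rintro u ⟨hu, hu'⟩ i j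
    exact ⟨hbd u hu i j, hbd u⁻¹ hu' i j⟩
  · refine ⟨fun v hv => ?_, fun v hv => ?_⟩
    · rw [hg1, Matrix.add_mulVec, Matrix.one_mulVec]
      exact hLadd _ hv _ (hLc _ hv)
    · rw [hg2, Matrix.add_mulVec, Matrix.sub_mulVec, Matrix.one_mulVec, sub_eq_add_neg,
        ← Matrix.mulVec_mulVec]
      exact hLadd _ (hLadd _ hv _ (hLneg _ (hLc _ hv))) _ (hLc _ (hLc _ hv))

end cpt

end SpW.Mu
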