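import Pool.Agent.Work.MP_3615d2_al.P1.MuGauge

/-!
MP_3615d2_al, middle strata: the functional on `C_c(X) ⊗ W ⊗ S` attached to a form on
`Ind(τ) × S`.
-/

open MeasureTheory MeasureTheory.Measure Matrix Filter Topology
open scoped NNReal TensorProduct

namespace SpW.Mu

section tm

variable {X S T : Type} [TopologicalSpace X] [AddCommGroup S] [Module ℂ S]
  [AddCommGroup T] [Module ℂ T]

/-- `f ⊗ s` -/
noncomputable def tm : Sch X ℂ →ₗ[ℂ] S →ₗ[ℂ] Sch X S :=
  LinearMap.mk₂ ℂ (fun f s => schComp ((LinearMap.id (R := ℂ) (M := ℂ)).smulRight s) f)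
    (fun _ _ _ => map_add _ _ _) (fun _ _ _ => map_smul _ _ _)
    (fun _ _ _ => Sch.ext' fun _ => smul_add _ _ _)
    (fun _ _ _ => Sch.ext' fun _ => smul_comm _ _ _)

theorem tm_apply (f : Sch X ℂ) (s : S) (x : X) :
    (tm f s : X → S) x = (f : X → ℂ) x • s := rfl

theorem tm_ind (Q : Set X) (hQ : IsClopen Q) (hK : IsCompact Q) (c : ℂ) (s : S) :
    tm (ind Q hQ hK c) s = ind Q hQ hK (c • s) := by
  apply Sch.ext'
  intro x
  rw [tm_apply]
  by_cases hx : x ∈ Q
  · rw [ind_mem _ _ _ hx, ind_mem _ _ _ hx]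
  · rw [ind_notMem _ _ _ hx, ind_notMem _ _ _ hx, zero_smul]

theorem tm_ext {L L' : Sch X S →ₗ[ℂ] T} (h : ∀ f s, L (tm f s) = L' (tm f s)) : L = L' := by
  refine LinearMap.ext fun f => ?_
  have h1 : f ∈ LinearMap.ker (L - L') := by
    refine Sch.mem_of_ind _ f fun Q hQ hK v _ _ => ?_
    rw [LinearMap.mem_ker, LinearMap.sub_apply, sub_eq_zero, ← one_smul ℂ v, ← tm_ind, h]
  rw [LinearMap.mem_ker, LinearMap.sub_apply, sub_eq_zero] at h1
  exact h1

theorem schExt_tm (A : Sch X ℂ →ₗ[ℂ] S →ₗ[ℂ] T) (f : Sch X ℂ) (s : S) :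
    schExt A (tm f s) = A f s := by
  have h1 : f ∈ LinearMap.ker ((schExt A).comp ((tm (X := X)).flip s) - A.flip s) := by
    refine Sch.mem_of_ind _ f fun Q hQ hK v _ _ => ?_
    rw [LinearMap.mem_ker, LinearMap.sub_apply, sub_eq_zero]
    show schExt A (tm (ind Q hQ hK v) s) = A (ind Q hQ hK v) s
    have h2 : ind Q hQ hK v = v • ind Q hQ hK (1 : ℂ) := by
      rw [← map_smul, smul_eq_mul, mul_one]
    rw [tm_ind, schExt_ind, map_smul, h2, map_smul, LinearMap.smul_apply]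
  rw [LinearMap.mem_ker, LinearMap.sub_apply, sub_eq_zero] at h1
  exact h1

end tm

section exM

variable {F E : Type} [Field F] [NontriviallyNormedField E] [Algebra F E] {a b N : ℕ}
  {σ : E ≃ₐ[F] E} {H : Matrix (Fin N) (Fin N) E} (h : a + b = N) (hσc : Continuous σ)
  {S : Type} [AddCommGroup S] [Module ℂ S]

/-- Extension by zero. -/
noncomputable def exM : Sch (MuX σ H h) S →ₗ[ℂ] Sch (GL (Fin N) E) S := extz (isOpen_MuX h hσc)

theorem exM_of (f : Sch (MuX σ H h) S) (x : MuX σ H h) :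
    (exM h hσc f : GL (Fin N) E → S) x.1 = (f : MuX σ H h → S) x :=
  extz_of (isOpen_MuX h hσc) f x.2

theorem exM_not (f : Sch (MuX σ H h) S) {x : GL (Fin N) E} (hx : ¬ upLJ h (GM σ H x) ≠ 0) :
    (exM h hσc f : GL (Fin N) E → S) x = 0 :=
  extz_not (isOpen_MuX h hσc) f hx

theorem exM_gact (g : PSJ h E × unitary σ H) (φ : Sch (MuX σ H h) ℂ) (x : GL (Fin N) E) :
    (exM h hσc (gact (1 : (PSJ h E × unitary σ H) →* Module.End ℂ ℂ) g φ) :
      GL (Fin N) E → ℂ) x =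
      (exM h hσc φ : GL (Fin N) E → ℂ)
        ((g.1 : GL (Fin N) E)⁻¹ * x * (g.2 : GL (Fin N) E)) := by
  by_cases hx : upLJ h (GM σ H x) ≠ 0
  · obtain ⟨z, rfl⟩ : ∃ z : MuX σ H h, z.1 = x := ⟨⟨x, hx⟩, rfl⟩
    rw [exM_of h hσc _ z, gact_apply]
    have h1 : (g.1 : GL (Fin N) E)⁻¹ * z.1 * (g.2 : GL (Fin N) E) = (g⁻¹ • z).1 := by
      rw [muX_smul_val]
      show _ = ((g.1⁻¹ : PSJ h E) : GL (Fin N) E) * z.1 *
        ((g.2⁻¹ : unitary σ H) : GL (Fin N) E)⁻¹
      rw [Subgroup.coe_inv, Subgroup.coe_inv, inv_inv]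
    rw [h1, exM_of]
    rfl
  · rw [exM_not h hσc _ hx, exM_not]
    intro h1
    apply hx
    have h2 := upLJ_ne_zero h g.1 g.2 h1
    have h3 : (g.1 : GL (Fin N) E) * ((g.1 : GL (Fin N) E)⁻¹ * x * (g.2 : GL (Fin N) E)) *
        (g.2 : GL (Fin N) E)⁻¹ = x := by group
    rwa [h3] at h2

end exM

section avgJ

variable {E : Type} [NontriviallyNormedField E] [IsUltrametricDist E] [ProperSpace E] {a b N : ℕ}
  (h : a + b = N) {W : Type} [AddCommGroup W] [Module ℂ W]

instance instLCPSJ : LocallyCompactSpace (PSJ h E) := by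
  have h1 : IsOpen ((Subtype.val : PSJ h E → GL (Fin N) E) ⁻¹'
      (glK (Fin N) E 1 zero_le_one le_rfl : Set (GL (Fin N) E))) :=
    (glK_isOpen one_pos le_rfl).preimage continuous_subtype_val
  have h2 : IsCompact ((Subtype.val : PSJ h E → GL (Fin N) E) ⁻¹'
      (glK (Fin N) E 1 zero_le_one le_rfl : Set (GL (Fin N) E))) :=
    (isClosed_PSJ (E := E) h).isClosedEmbedding_subtypeVal.isCompact_preimage
      (glK_isCompact one_pos le_rfl)
  exact h2.locallyCompactSpace_of_mem_nhds_of_group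
    (h1.mem_nhds (show (1 : GL (Fin N) E) ∈ glK (Fin N) E 1 zero_le_one le_rfl from
      Subgroup.one_mem _) : _ ∈ 𝓝 (1 : PSJ h E))

variable {τ : (GL (Fin a) E × GL (Fin b) E) →* Module.End ℂ W}

omit [IsUltrametricDist E] [ProperSpace E] in
theorem tauJ_sm (hτ : IsSmoothRep τ) : IsSmoothRep (tauJ h τ) := fun w => tauJ_smooth hτ w

variable [MeasurableSpace (PSJ h E)] [BorelSpace (PSJ h E)] (μ : Measure (PSJ h E))
  [μ.IsHaarMeasure]

/-- The average of `φ ∈ C_c(G) ⊗ W` in the induced representation. -/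
noncomputable def avgJ (hτ : IsSmoothRep τ) : Sch (GL (Fin N) E) W →ₗ[ℂ] IndJ h τ where
  toFun φ := ⟨avg μ (tauJ_sm h hτ) (isClosed_PSJ h) φ, by
    refine ⟨fun p q y g => ?_, avg_right_smooth μ _ _ φ⟩
    have h1 := avg_left μ (tauJ_sm h hτ) (isClosed_PSJ h) φ ⟨pelJ h p q y, ⟨p, q, y, rfl⟩⟩ g
    rw [tauJ_pelJ τ _ rfl] at h1
    exact h1⟩
  map_add' φ φ' := Subtype.ext (map_add _ _ _)
  map_smul' c φ := Subtype.ext (map_smul _ _ _)

omit [IsUltrametricDist E] [ProperSpace E] in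
theorem avgJ_val (hτ : IsSmoothRep τ) (φ : Sch (GL (Fin N) E) W) :
    ((avgJ h μ hτ φ : IndJ h τ) : GL (Fin N) E → W) =
      avg μ (tauJ_sm h hτ) (isClosed_PSJ h) φ := rfl

end avgJ

section omJ

variable {F E : Type} [Field F] [NontriviallyNormedField E] [IsUltrametricDist E] [ProperSpace E]
  [Algebra F E] {a b N : ℕ}
  {σ : E ≃ₐ[F] E} {H : Matrix (Fin N) (Fin N) E} (h : a + b = N)
  {W : Type} [AddCommGroup W] [Module ℂ W] {S : Type} [AddCommGroup S] [Module ℂ S]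
  (τ : (GL (Fin a) E × GL (Fin b) E) →* Module.End ℂ W)
  (ω : unitary σ H →* Module.End ℂ S)

/-- the modular factor -/
noncomputable def mdJ (p : PSJ h E) : ℂ := ((modularCharacterFun p : ℝ≥0) : ℝ)

theorem mdJ_ne (p : PSJ h E) : mdJ h p ≠ 0 := by
  have h1 := modularCharacterFun_pos p
  unfold mdJ
  exact_mod_cast h1.ne'

theorem mdJ_one : mdJ h (1 : PSJ h E) = 1 := by
  unfold mdJ
  rw [modularCharacterFun_map_one]
  simp

theorem mdJ_mul (p q : PSJ h E) : mdJ h (p * q) = mdJ h p * mdJ h q := by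
  unfold mdJ
  rw [modularCharacterFun_map_mul]
  push_cast
  ring

theorem mdJ_of_mem {C : Subgroup (PSJ h E)} (hCo : IsOpen (C : Set (PSJ h E)))
    (hCc : IsCompact (C : Set (PSJ h E))) {p : PSJ h E} (hp : p ∈ C) : mdJ h p = 1 := by
  unfold mdJ
  rw [modular_of_mem hCo hCc hp]
  simp

/-- The representation of `P × U` on `W ⊗ S`. -/
noncomputable def omJ : (PSJ h E × unitary σ H) →* Module.End ℂ (W ⊗[ℂ] S) where
  toFun g := (mdJ h g.1)⁻¹ • TensorProduct.map (tauJ h τ g.1) (ω g.2)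
  map_one' := by
    apply TensorProduct.ext'
    intro w s
    rw [Prod.fst_one, Prod.snd_one, mdJ_one, inv_one, one_smul, TensorProduct.map_tmul, map_one,
      map_one]
    rfl
  map_mul' g g' := by
    apply TensorProduct.ext'
    intro w s
    rw [Prod.fst_mul, Prod.snd_mul, mdJ_mul, map_mul, map_mul, Module.End.mul_apply,
      LinearMap.smul_apply, LinearMap.smul_apply, LinearMap.smul_apply, map_smul, smul_smul,
      TensorProduct.map_tmul, TensorProduct.map_tmul, TensorProduct.map_tmul, mul_inv]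
    rfl

theorem omJ_tmul (g : PSJ h E × unitary σ H) (w : W) (s : S) :
    omJ h τ ω g (w ⊗ₜ s) = (mdJ h g.1)⁻¹ • (tauJ h τ g.1 w ⊗ₜ[ℂ] ω g.2 s) := rfl

variable {τ ω}

theorem omJ_smooth (hτ : IsSmoothRep τ) (hω : IsSmoothRep ω) : IsSmoothRep (omJ h τ ω) := by
  intro v
  induction v using TensorProduct.induction_on with
  | zero => exact Filter.Eventually.of_forall fun g => map_zero _
  | add x y hx hy =>
    filter_upwards [hx, hy] with g h1 h2
    rw [map_add, h1, h2]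
  | tmul w s =>
    have h1 : ∀ᶠ g in 𝓝 (1 : PSJ h E × unitary σ H), tauJ h τ g.1 w = w := by
      have h3 : Tendsto (fun g : PSJ h E × unitary σ H => g.1) (𝓝 1) (𝓝 1) :=
        continuous_fst.tendsto (1 : PSJ h E × unitary σ H)
      exact h3.eventually (tauJ_sm h hτ w)
    have h2 : ∀ᶠ g in 𝓝 (1 : PSJ h E × unitary σ H), ω g.2 s = s := by
      have h3 : Tendsto (fun g : PSJ h E × unitary σ H => g.2) (𝓝 1) (𝓝 1) :=
        continuous_snd.tendsto (1 : PSJ h E × unitary σ H)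
      exact h3.eventually (hω s)
    have h3 : ∀ᶠ g in 𝓝 (1 : PSJ h E × unitary σ H), mdJ h g.1 = 1 := by
      set C : Subgroup (PSJ h E) :=
        (glK (Fin N) E 1 zero_le_one le_rfl).comap (PSJ h E).subtype with hC
      have k1 : IsOpen (C : Set (PSJ h E)) :=
        (glK_isOpen one_pos le_rfl).preimage continuous_subtype_val
      have k2 : IsCompact (C : Set (PSJ h E)) :=
        (isClosed_PSJ (E := E) h).isClosedEmbedding_subtypeVal.isCompact_preimage
          (glK_isCompact one_pos le_rfl)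
      have k3 : Tendsto (fun g : PSJ h E × unitary σ H => g.1) (𝓝 1) (𝓝 1) :=
        continuous_fst.tendsto (1 : PSJ h E × unitary σ H)
      filter_upwards [k3.eventually (k1.mem_nhds C.one_mem)] with g hg
      exact mdJ_of_mem h k1 k2 hg
    filter_upwards [h1, h2, h3] with g h1 h2 h3
    rw [omJ_tmul, h1, h2, h3, inv_one, one_smul]

variable (hσc : Continuous σ) [MeasurableSpace (PSJ h E)] [BorelSpace (PSJ h E)]
  (μ : Measure (PSJ h E)) [μ.IsHaarMeasure]

theorem avgJ_gact (hτ : IsSmoothRep τ) (g : PSJ h E × unitary σ H) (φ : Sch (MuX σ H h) ℂ)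
    (w : W) :
    avgJ h μ hτ (tm (exM h hσc (gact (1 : (PSJ h E × unitary σ H) →* Module.End ℂ ℂ) g φ))
      (tauJ h τ g.1 w)) =
      mdJ h g.1 • indActJ h τ (g.2 : GL (Fin N) E) (avgJ h μ hτ (tm (exM h hσc φ) w)) := by
  apply Subtype.ext
  funext x
  have h1 := avg_transl μ (tauJ_sm h hτ) (isClosed_PSJ h) g.1
    (tm (exM h hσc (gact (1 : (PSJ h E × unitary σ H) →* Module.End ℂ ℂ) (1, g.2) φ)) w)
    (tm (exM h hσc (gact (1 : (PSJ h E × unitary σ H) →* Module.End ℂ ℂ) g φ))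
      (tauJ h τ g.1 w)) (by
      intro y
      rw [tm_apply, tm_apply, map_smul, exM_gact, exM_gact]
      have e : (g.1 : GL (Fin N) E)⁻¹ * y * (g.2 : GL (Fin N) E) =
          ((1 : PSJ h E) : GL (Fin N) E)⁻¹ * ((g.1 : GL (Fin N) E)⁻¹ * y) *
            (g.2 : GL (Fin N) E) := by
        rw [Subgroup.coe_one, inv_one, one_mul]
      exact congrArg (fun z => (exM h hσc φ : GL (Fin N) E → ℂ) z • tauJ h τ g.1 w) e)
  have h2 := avg_rtransl μ (tauJ_sm h hτ) (isClosed_PSJ h) (g.2 : GL (Fin N) E)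
    (tm (exM h hσc φ) w)
    (tm (exM h hσc (gact (1 : (PSJ h E × unitary σ H) →* Module.End ℂ ℂ) (1, g.2) φ)) w) (by
      intro y
      rw [tm_apply, tm_apply, exM_gact]
      have e : ((1 : PSJ h E) : GL (Fin N) E)⁻¹ * y * (g.2 : GL (Fin N) E) =
          y * (g.2 : GL (Fin N) E) := by
        rw [Subgroup.coe_one, inv_one, one_mul]
      exact congrArg (fun z => (exM h hσc φ : GL (Fin N) E → ℂ) z • w) e) x
  have h3 := congrFun h1 x
  rw [Pi.smul_apply, h2] at h3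
  exact h3

/-- The pairing. -/
noncomputable def AJ (hτ : IsSmoothRep τ) (β : IndJ h τ →ₗ[ℂ] S →ₗ[ℂ] ℂ) :
    Sch (MuX σ H h) ℂ →ₗ[ℂ] (W ⊗[ℂ] S) →ₗ[ℂ] ℂ where
  toFun φ := TensorProduct.lift (β.comp ((avgJ h μ hτ).comp (tm (exM h hσc φ))))
  map_add' φ φ' := by
    apply TensorProduct.ext'
    intro w s
    rw [LinearMap.add_apply, TensorProduct.lift.tmul, TensorProduct.lift.tmul,
      TensorProduct.lift.tmul]
    simp only [LinearMap.comp_apply, map_add, LinearMap.add_apply]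
  map_smul' c φ := by
    apply TensorProduct.ext'
    intro w s
    rw [LinearMap.smul_apply, TensorProduct.lift.tmul, TensorProduct.lift.tmul]
    simp only [LinearMap.comp_apply, map_smul, LinearMap.smul_apply, RingHom.id_apply]

omit [IsUltrametricDist E] [ProperSpace E] in
theorem AJ_tmul (hτ : IsSmoothRep τ) (β : IndJ h τ →ₗ[ℂ] S →ₗ[ℂ] ℂ) (φ : Sch (MuX σ H h) ℂ)
    (w : W) (s : S) : AJ h hσc μ hτ β φ (w ⊗ₜ s) = β (avgJ h μ hτ (tm (exM h hσc φ) w)) s := rfl

theorem LJ_inv (hτ : IsSmoothRep τ) {β : IndJ h τ →ₗ[ℂ] S →ₗ[ℂ] ℂ}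
    (hβ : InvForm σ H (indActJ h τ) ω β) (g : PSJ h E × unitary σ H)
    (f : Sch (MuX σ H h) (W ⊗[ℂ] S)) :
    schExt (AJ h hσc μ hτ β) (gact (omJ h τ ω) g f) = schExt (AJ h hσc μ hτ β) f := by
  have h1 : (schExt (AJ h hσc μ hτ β)).comp
      (gact (X := MuX σ H h) (omJ h τ ω) g) = schExt (AJ h hσc μ hτ β) := by
    refine tm_ext fun φ t => ?_
    rw [LinearMap.comp_apply, schExt_tm]
    induction t using TensorProduct.induction_on with
    | zero => rw [map_zero, map_zero, map_zero, map_zero]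
    | add x y hx hy => rw [map_add, map_add, map_add, map_add, hx, hy]
    | tmul w s =>
      have h2 : gact (omJ h τ ω) g (tm φ (w ⊗ₜ[ℂ] s)) = (mdJ h g.1)⁻¹ •
          tm (gact (1 : (PSJ h E × unitary σ H) →* Module.End ℂ ℂ) g φ)
            (tauJ h τ g.1 w ⊗ₜ[ℂ] ω g.2 s) := by
        apply Sch.ext'
        intro x
        rw [gact_apply, tm_apply, map_smul, omJ_tmul]
        show _ = (mdJ h g.1)⁻¹ • ((φ : MuX σ H h → ℂ) (g⁻¹ • x) •
          (tauJ h τ g.1 w ⊗ₜ[ℂ] ω g.2 s))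
        rw [smul_comm]
      rw [h2, map_smul, schExt_tm, AJ_tmul, AJ_tmul, avgJ_gact, map_smul, LinearMap.smul_apply,
        hβ, smul_smul, inv_mul_cancel₀ (mdJ_ne h g.1), one_smul]
  exact LinearMap.congr_fun h1 f

omit [IsUltrametricDist E] [ProperSpace E] in
theorem LJ_det (hτ : IsSmoothRep τ) {β : IndJ h τ →ₗ[ℂ] S →ₗ[ℂ] ℂ}
    (hopen : ∀ (f : IndJ h τ) (s : S), (∀ g, (upLJ h (GM σ H g)).det = 0 →
      (f : GL (Fin N) E → W) g = 0) → β f s = 0)
    (f : Sch (MuX σ H h) (W ⊗[ℂ] S))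
    (hf : ∀ x : MuX σ H h, (upLJ h (GM σ H x.1)).det = 0 → (f : MuX σ H h → W ⊗[ℂ] S) x = 0) :
    schExt (AJ h hσc μ hτ β) f = 0 := by
  have h1 : f ∈ LinearMap.ker (schExt (AJ h hσc μ hτ β)) := by
    refine Sch.mem_of_ind _ f fun Q hQ hK v hv hv0 => ?_
    rw [LinearMap.mem_ker, schExt_ind]
    have h2 : ∀ x : MuX σ H h, (upLJ h (GM σ H x.1)).det = 0 →
        (ind Q hQ hK (1 : ℂ) : MuX σ H h → ℂ) x = 0 := by
      intro x hx
      refine ind_notMem _ _ _ fun hxQ => hv0 ?_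
      rw [← hv x hxQ]
      exact hf x hx
    generalize ind Q hQ hK (1 : ℂ) = φ at h2
    clear hv hv0
    induction v using TensorProduct.induction_on with
    | zero => rw [map_zero]
    | add x y hx hy => rw [map_add, hx, hy, add_zero]
    | tmul w s =>
      rw [AJ_tmul]
      apply hopen
      intro g hg
      rw [avgJ_val, avg_apply]
      have h3 : avF (tauJ_sm h hτ) (isClosed_PSJ h) (tm (exM h hσc φ) w) g = 0 := by
        apply Sch.ext'
        intro p
        rw [avF_apply, tm_apply]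
        have h4 : (exM h hσc φ : GL (Fin N) E → ℂ) ((p : GL (Fin N) E)⁻¹ * g) = 0 := by
          by_cases hx : upLJ h (GM σ H ((p : GL (Fin N) E)⁻¹ * g)) ≠ 0
          · rw [exM_of h hσc φ ⟨_, hx⟩]
            apply h2
            have h5 := det_upLJ_act h p⁻¹ (1 : unitary σ H) hg
            rwa [Subgroup.coe_inv, Subgroup.coe_one, inv_one, mul_one] at h5
          · exact exM_not h hσc φ hx
        rw [h4, zero_smul, map_zero]
        rfl
      rw [h3]
      exact map_zero (schIL (PSJ h E) W μ)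
  exact h1

end omJ

end SpW.Mu
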