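import Pool.Agent.Work.MP_3615d2_al.P1.MuGeo
import Pool.Agent.Work.MP_3615d2_al.P1.MuFix
import Pool.Agent.Work.MP_3615d2_al.P1.MuAvg
import Pool.Agent.Work.MP_3615d2_al.Gauge

/-!
MP_3615d2_al, middle strata: the space of the `g` with nonzero Gram matrix on `g⁻¹ E^a`, and the
sections of the stabilisers.
-/

open Matrix Filter Topology

namespace SpW.Mu

section alg

variable {F E : Type} [Field F] [NontriviallyNormedField E] [Algebra F E] {a b N : ℕ}
  {σ : E ≃ₐ[F] E} {H : Matrix (Fin N) (Fin N) E} (h : a + b = N)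

theorem frJ_act (p : PSJ h E) (g u : GL (Fin N) E) (x : Fin a → E) :
    frJ h ((p : GL (Fin N) E) * g * u⁻¹) x = (u : Matrix (Fin N) (Fin N) E).mulVec
      (frJ h g ((((pAJ p)⁻¹ : GL (Fin a) E) : Matrix (Fin a) (Fin a) E).mulVec x)) := by
  obtain ⟨y, hy⟩ := exists_pelJ p
  have h1 : (((p : GL (Fin N) E)⁻¹ : GL (Fin N) E) : Matrix (Fin N) (Fin N) E).mulVec (embJ h x) =
      embJ h ((((pAJ p)⁻¹ : GL (Fin a) E) : Matrix (Fin a) (Fin a) E).mulVec x) := by
    funext i
    obtain ⟨i, rfl⟩ := (sJ h).surjective i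
    rw [hy, pelJ_inv, pelJ_val]
    rcases i with i | i
    · rw [mulVec_embJ_inl, upLJ_bmJ, embJ_inl]
    · rw [mulVec_embJ_inr, lowLJ_bmJ, embJ_inr, Matrix.zero_mulVec, Pi.zero_apply]
  rw [frJ, _root_.mul_inv_rev, _root_.mul_inv_rev, inv_inv, Units.val_mul, Units.val_mul,
    ← Matrix.mulVec_mulVec, ← Matrix.mulVec_mulVec, h1]
  rfl

theorem upLJ_GM_act (p : PSJ h E) (g : GL (Fin N) E) (u : unitary σ H) :
    upLJ h (GM σ H ((p : GL (Fin N) E) * g * (u : GL (Fin N) E)⁻¹)) =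
      (((pAJ p)⁻¹ : GL (Fin a) E) : Matrix (Fin a) (Fin a) E).transpose * upLJ h (GM σ H g) *
        (((pAJ p)⁻¹ : GL (Fin a) E) : Matrix (Fin a) (Fin a) E).map σ := by
  refine sk_ext σ fun x y => ?_
  rw [sk_conj, ← sk_frJ, ← sk_frJ, frJ_act, frJ_act]
  exact u.2 _ _

theorem upLJ_ne_zero (p : PSJ h E) {g : GL (Fin N) E} (u : unitary σ H)
    (hg : upLJ h (GM σ H g) ≠ 0) :
    upLJ h (GM σ H ((p : GL (Fin N) E) * g * (u : GL (Fin N) E)⁻¹)) ≠ 0 := by
  intro h0
  apply hg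
  have h1 := upLJ_GM_act (σ := σ) (H := H) h p⁻¹
    ((p : GL (Fin N) E) * g * (u : GL (Fin N) E)⁻¹) u⁻¹
  rw [h0, Matrix.mul_zero, Matrix.zero_mul] at h1
  have h2 : ((p⁻¹ : PSJ h E) : GL (Fin N) E) * ((p : GL (Fin N) E) * g * (u : GL (Fin N) E)⁻¹) *
      ((u⁻¹ : unitary σ H) : GL (Fin N) E)⁻¹ = g := by
    rw [Subgroup.coe_inv, Subgroup.coe_inv, inv_inv]
    group
  rwa [h2] at h1

theorem det_upLJ_act (p : PSJ h E) {g : GL (Fin N) E} (u : unitary σ H)
    (hg : (upLJ h (GM σ H g)).det = 0) :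
    (upLJ h (GM σ H ((p : GL (Fin N) E) * g * (u : GL (Fin N) E)⁻¹))).det = 0 := by
  rw [upLJ_GM_act, Matrix.det_mul, Matrix.det_mul, hg, mul_zero, zero_mul]

variable (σ H) in
/-- The elements `g` for which the form is not zero on `g⁻¹ E^a`. -/
def MuX : Type := {g : GL (Fin N) E // upLJ h (GM σ H g) ≠ 0}

instance : TopologicalSpace (MuX σ H h) := instTopologicalSpaceSubtype

instance instMuXAct : MulAction (PSJ h E × unitary σ H) (MuX σ H h) where
  smul pu g := ⟨(pu.1 : GL (Fin N) E) * g.1 * (pu.2 : GL (Fin N) E)⁻¹,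
    upLJ_ne_zero h pu.1 pu.2 g.2⟩
  one_smul g := Subtype.ext (by
    show ((1 : PSJ h E) : GL (Fin N) E) * g.1 * ((1 : unitary σ H) : GL (Fin N) E)⁻¹ = g.1
    rw [Subgroup.coe_one, Subgroup.coe_one, one_mul, inv_one, mul_one])
  mul_smul q r g := Subtype.ext (by
    show ((q.1 * r.1 : PSJ h E) : GL (Fin N) E) * g.1 *
        ((q.2 * r.2 : unitary σ H) : GL (Fin N) E)⁻¹ =
      (q.1 : GL (Fin N) E) * ((r.1 : GL (Fin N) E) * g.1 * (r.2 : GL (Fin N) E)⁻¹) *
        (q.2 : GL (Fin N) E)⁻¹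
    rw [Subgroup.coe_mul, Subgroup.coe_mul]
    group)

theorem muX_smul_val (pu : PSJ h E × unitary σ H) (g : MuX σ H h) :
    (pu • g).1 = (pu.1 : GL (Fin N) E) * g.1 * (pu.2 : GL (Fin N) E)⁻¹ := rfl

instance instMuXCont : ContinuousSMul (PSJ h E × unitary σ H) (MuX σ H h) := by
  refine ⟨Continuous.subtype_mk ?_ _⟩
  have h1 : Continuous fun p : (PSJ h E × unitary σ H) × MuX σ H h =>
      ((p.1.1 : PSJ h E) : GL (Fin N) E) :=
    continuous_subtype_val.comp (continuous_fst.comp continuous_fst)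
  have h2 : Continuous fun p : (PSJ h E × unitary σ H) × MuX σ H h =>
      ((p.1.2 : unitary σ H) : GL (Fin N) E) :=
    continuous_subtype_val.comp (continuous_snd.comp continuous_fst)
  have h3 : Continuous fun p : (PSJ h E × unitary σ H) × MuX σ H h => (p.2.1 : GL (Fin N) E) :=
    continuous_subtype_val.comp continuous_snd
  exact (h1.mul h3).mul h2.inv

end alg

section top

variable {F E : Type} [Field F] [NontriviallyNormedField E] [Algebra F E] {a b N : ℕ}
  {σ : E ≃ₐ[F] E} {H : Matrix (Fin N) (Fin N) E} (h : a + b = N)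

theorem continuous_hvec (hσc : Continuous σ) {T : Type} [TopologicalSpace T]
    {y : T → Fin N → E} (hy : Continuous y) : Continuous fun t => hvec σ H (y t) :=
  continuous_const.matrix_mulVec (continuous_pi fun j => hσc.comp ((continuous_apply j).comp hy))

theorem continuous_sk' (hσc : Continuous σ) {T : Type} [TopologicalSpace T]
    {x y : T → Fin N → E} (hx : Continuous x) (hy : Continuous y) :
    Continuous fun t => sk σ H (x t) (y t) := by
  have h1 : (fun t => sk σ H (x t) (y t)) = fun t => x t ⬝ᵥ hvec σ H (y t) := by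
    funext t
    exact sk_eq_hvec _ _
  rw [h1]
  exact hx.dotProduct (continuous_hvec hσc hy)

theorem continuous_sgM (hσc : Continuous σ) {T : Type} [TopologicalSpace T]
    {y r : T → Fin N → E} (hy : Continuous y) (hr : Continuous r) :
    Continuous fun t => sgM σ H (y t) (r t) := by
  have hsm : Continuous fun t => y t + (2⁻¹ * sk σ H (y t) (y t)) • r t :=
    hy.add ((continuous_const.mul (continuous_sk' hσc hy hy)).smul hr)
  unfold sgM
  exact (continuous_const.add (hr.matrix_vecMulVec (continuous_hvec hσc hy))).add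
    (hsm.matrix_vecMulVec (continuous_hvec hσc hr))

theorem continuous_embJ {T : Type} [TopologicalSpace T] {x : T → Fin a → E} (hx : Continuous x) :
    Continuous fun t => embJ h (x t) := by
  refine continuous_pi fun i => ?_
  obtain ⟨i, rfl⟩ := (sJ h).surjective i
  rcases i with i | i
  · simp only [embJ_inl]
    exact (continuous_apply i).comp hx
  · simp only [embJ_inr]
    exact continuous_const

theorem continuous_frJ {T : Type} [TopologicalSpace T] {g : T → GL (Fin N) E}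
    {x : T → Fin a → E} (hg : Continuous g) (hx : Continuous x) :
    Continuous fun t => frJ h (g t) (x t) :=
  (Units.continuous_val.comp (continuous_inv.comp hg)).matrix_mulVec (continuous_embJ h hx)

theorem continuous_GM (hσc : Continuous σ) : Continuous fun g : GL (Fin N) E => GM σ H g := by
  have h1 : Continuous fun g : GL (Fin N) E =>
      ((g⁻¹ : GL (Fin N) E) : Matrix (Fin N) (Fin N) E) :=
    Units.continuous_val.comp continuous_inv
  exact (h1.matrix_transpose.matrix_mul continuous_const).matrix_mul (h1.matrix_map hσc)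

theorem continuous_upLJ : Continuous fun g : Matrix (Fin N) (Fin N) E => upLJ h g :=
  continuous_matrix fun _ _ => continuous_id.matrix_elem _ _

theorem continuous_beta (hσc : Continuous σ) :
    Continuous fun g : MuX σ H h => upLJ h (GM σ H g.1) :=
  (continuous_upLJ h).comp ((continuous_GM hσc).comp continuous_subtype_val)

theorem isOpen_MuX (hσc : Continuous σ) :
    IsOpen {g : GL (Fin N) E | upLJ h (GM σ H g) ≠ 0} :=
  isOpen_ne_fun ((continuous_upLJ h).comp (continuous_GM hσc)) continuous_const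

theorem isClosed_PSJ : IsClosed ((PSJ h E : Subgroup (GL (Fin N) E)) : Set (GL (Fin N) E)) := by
  have h1 : ((PSJ h E : Subgroup (GL (Fin N) E)) : Set (GL (Fin N) E)) =
      {g : GL (Fin N) E | lowLJ h (g : Matrix (Fin N) (Fin N) E) = 0} := by
    ext g
    exact exists_pelJ_iff h g
  rw [h1]
  refine isClosed_eq ?_ continuous_const
  exact continuous_matrix fun i j => continuous_gl_entry _ _

theorem isClosed_unit (hσc : Continuous σ) :
    IsClosed ((unitary σ H : Subgroup (GL (Fin N) E)) : Set (GL (Fin N) E)) := by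
  have h1 : ((unitary σ H : Subgroup (GL (Fin N) E)) : Set (GL (Fin N) E)) =
      {g : GL (Fin N) E | GM σ H g = H} := by
    ext g
    exact mem_unitary_iff_GM
  rw [h1]
  exact isClosed_eq (continuous_GM hσc) continuous_const

theorem muX_basis [IsUltrametricDist E] [ProperSpace E] (hσc : Continuous σ) (x : MuX σ H h)
    (W : Set (MuX σ H h)) (hW : W ∈ 𝓝 x) :
    ∃ K : Set (MuX σ H h), IsOpen K ∧ IsCompact K ∧ x ∈ K ∧ K ⊆ W := by
  have hemb : IsOpenEmbedding (Subtype.val : MuX σ H h → GL (Fin N) E) :=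
    (isOpen_MuX h hσc).isOpenEmbedding_subtypeVal
  have h1 : (Subtype.val : MuX σ H h → GL (Fin N) E) '' W ∈ 𝓝 x.1 :=
    hemb.image_mem_nhds.2 hW
  have h2 : (fun y : GL (Fin N) E => x.1 * y) ⁻¹' (Subtype.val '' W) ∈ 𝓝 (1 : GL (Fin N) E) := by
    have h3 : ContinuousAt (fun y : GL (Fin N) E => x.1 * y) 1 :=
      (continuous_const.mul continuous_id).continuousAt
    refine h3.preimage_mem_nhds ?_
    rwa [mul_one]
  obtain ⟨K, hK, hKc, hKW⟩ := gl_basis _ h2
  have hcont : Continuous fun y : GL (Fin N) E => x.1⁻¹ * y := continuous_const.mul continuous_id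
  refine ⟨Subtype.val ⁻¹' ((fun y : GL (Fin N) E => x.1⁻¹ * y) ⁻¹' (K : Set (GL (Fin N) E))),
    (hK.preimage hcont).preimage continuous_subtype_val, ?_, ?_, ?_⟩
  · have h6 : ((Subtype.val : MuX σ H h → GL (Fin N) E) '' (Subtype.val ⁻¹'
        ((fun y : GL (Fin N) E => x.1⁻¹ * y) ⁻¹' (K : Set (GL (Fin N) E))))) =
        (fun y : GL (Fin N) E => x.1 * y) '' (K : Set (GL (Fin N) E)) := by
      ext y
      constructor
      · rintro ⟨z, hz, rfl⟩
        exact ⟨x.1⁻¹ * z.1, hz, by group⟩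
      · rintro ⟨z, hz, rfl⟩
        have h5 : x.1 * z ∈ (Subtype.val : MuX σ H h → GL (Fin N) E) '' W := hKW hz
        obtain ⟨w, -, hw⟩ := h5
        refine ⟨w, ?_, hw⟩
        show x.1⁻¹ * w.1 ∈ K
        rw [hw, inv_mul_cancel_left]
        exact hz
    have h7 : IsCompact ((Subtype.val : MuX σ H h → GL (Fin N) E) '' (Subtype.val ⁻¹'
        ((fun y : GL (Fin N) E => x.1⁻¹ * y) ⁻¹' (K : Set (GL (Fin N) E))))) := by
      rw [h6]
      exact hKc.image (continuous_const.mul continuous_id)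
    exact hemb.isInducing.isCompact_iff.2 h7
  · show x.1⁻¹ * x.1 ∈ K
    rw [inv_mul_cancel]
    exact K.one_mem
  · intro y hy
    have h5 : x.1 * (x.1⁻¹ * y.1) ∈ (Subtype.val : MuX σ H h → GL (Fin N) E) '' W := hKW hy
    rw [mul_inv_cancel_left] at h5
    obtain ⟨z, hz, hzy⟩ := h5
    rwa [Subtype.ext hzy] at hz

variable (hσ : ∀ x, σ (σ x) = x) (hH : ∀ i j, H j i = - σ (H i j)) (h2 : (2 : E) ≠ 0)

/-- The element `(g u g⁻¹, u)`, `u` a Siegel transformation, of the stabiliser of `g`. -/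
noncomputable def stE (g : GL (Fin N) E) {k : Fin a → E} (hk : k ᵥ* upLJ h (GM σ H g) = 0)
    (η : Fin a → E) : PSJ h E × unitary σ H :=
  (⟨g * sgU hσ hH h2 (isSg_frJ h hσ hH hk η) * g⁻¹, by
    obtain ⟨n, y, hy, -⟩ := conj_sgU h hσ hH h2 hk η
    exact ⟨n, 1, y, hy⟩⟩,
   ⟨sgU hσ hH h2 (isSg_frJ h hσ hH hk η), sgU_mem hσ hH h2 _⟩)

theorem stE_smul (g : MuX σ H h) {k : Fin a → E} (hk : k ᵥ* upLJ h (GM σ H g.1) = 0)
    (η : Fin a → E) : stE h hσ hH h2 g.1 hk η • g = g := by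
  apply Subtype.ext
  rw [muX_smul_val]
  show g.1 * sgU hσ hH h2 (isSg_frJ h hσ hH hk η) * g.1⁻¹ * g.1 *
    (sgU hσ hH h2 (isSg_frJ h hσ hH hk η))⁻¹ = g.1
  group

theorem stE_cpt [IsUltrametricDist E] [ProperSpace E] (hσc : Continuous σ)
    (g : GL (Fin N) E) {k : Fin a → E} (hk : k ᵥ* upLJ h (GM σ H g) = 0) (η : Fin a → E) :
    ∃ C : Subgroup (PSJ h E × unitary σ H), IsOpen (C : Set (PSJ h E × unitary σ H)) ∧
      IsCompact (C : Set (PSJ h E × unitary σ H)) ∧ stE h hσ hH h2 g hk η ∈ C ∧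
      ∃ C₁ : Subgroup (PSJ h E), IsOpen (C₁ : Set (PSJ h E)) ∧
        IsCompact (C₁ : Set (PSJ h E)) ∧ (stE h hσ hH h2 g hk η).1 ∈ C₁ := by
  set u := sgU hσ hH h2 (isSg_frJ h hσ hH hk η) with hu
  have hc := sgU_cube hσ hH h2 (isSg_frJ h hσ hH hk η)
  rw [← hu] at hc
  obtain ⟨C₂, hC₂o, hC₂c, hC₂⟩ := exists_cptOpen_gl3 u hc
  obtain ⟨C₁, hC₁o, hC₁c, hC₁⟩ := exists_cptOpen_gl3 (g * u * g⁻¹) (by
    have e : ((g * u * g⁻¹ : GL (Fin N) E) : Matrix (Fin N) (Fin N) E) - 1 =
        (g : Matrix (Fin N) (Fin N) E) * ((u : Matrix (Fin N) (Fin N) E) - 1) *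
          ((g⁻¹ : GL (Fin N) E) : Matrix (Fin N) (Fin N) E) := by
      rw [Matrix.mul_sub, Matrix.sub_mul, Matrix.mul_one, Units.mul_inv, Units.val_mul,
        Units.val_mul]
    rw [e]
    generalize ((u : Matrix (Fin N) (Fin N) E) - 1) = c at hc
    have e2 : ((g⁻¹ : GL (Fin N) E) : Matrix (Fin N) (Fin N) E) * (g : Matrix (Fin N) (Fin N) E) =
      1 := Units.inv_mul g
    generalize ((g⁻¹ : GL (Fin N) E) : Matrix (Fin N) (Fin N) E) = g' at e2
    generalize (g : Matrix (Fin N) (Fin N) E) = g₀ at e2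
    calc g₀ * c * g' * (g₀ * c * g') * (g₀ * c * g')
        = g₀ * c * (g' * g₀) * c * (g' * g₀) * c * g' := by simp only [Matrix.mul_assoc]
      _ = 0 := by
        rw [e2, Matrix.mul_one, Matrix.mul_one]
        have : g₀ * c * c * c * g' = g₀ * (c * c * c) * g' := by simp only [Matrix.mul_assoc]
        rw [this, hc, Matrix.mul_zero, Matrix.zero_mul])
  have k1 : IsOpen ((C₁.comap (PSJ h E).subtype : Subgroup (PSJ h E)) : Set (PSJ h E)) :=
    hC₁o.preimage continuous_subtype_val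
  have k2 : IsCompact ((C₁.comap (PSJ h E).subtype : Subgroup (PSJ h E)) : Set (PSJ h E)) :=
    (isClosed_PSJ (E := E) h).isClosedEmbedding_subtypeVal.isCompact_preimage hC₁c
  have k3 : IsOpen ((C₂.comap (unitary σ H).subtype : Subgroup (unitary σ H)) :
      Set (unitary σ H)) := hC₂o.preimage continuous_subtype_val
  have k4 : IsCompact ((C₂.comap (unitary σ H).subtype : Subgroup (unitary σ H)) :
      Set (unitary σ H)) :=
    (isClosed_unit (H := H) hσc).isClosedEmbedding_subtypeVal.isCompact_preimage hC₂c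
  refine ⟨(C₁.comap (PSJ h E).subtype).prod (C₂.comap (unitary σ H).subtype), ?_, ?_, ?_,
    C₁.comap (PSJ h E).subtype, k1, k2, hC₁⟩
  · rw [Subgroup.coe_prod]
    exact k1.prod k3
  · rw [Subgroup.coe_prod]
    exact k2.prod k4
  · exact ⟨hC₁, hC₂⟩

theorem continuous_stE (hσc : Continuous σ) {T : Type} [TopologicalSpace T]
    {g : T → GL (Fin N) E} (hg : Continuous g) {k η : T → Fin a → E} (hkc : Continuous k)
    (hη : Continuous η) (hk : ∀ t, k t ᵥ* upLJ h (GM σ H (g t)) = 0) :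
    Continuous fun t => stE h hσ hH h2 (g t) (hk t) (η t) := by
  have h1 : Continuous fun t => sgU hσ hH h2 (isSg_frJ h hσ hH (hk t) (η t)) := by
    rw [Units.continuous_iff]
    constructor
    · exact continuous_sgM hσc (continuous_frJ h hg hη) (continuous_frJ h hg hkc)
    · exact continuous_sgM hσc (continuous_frJ h hg hη) (continuous_frJ h hg hkc).neg
  exact (Continuous.subtype_mk ((hg.mul h1).mul hg.inv) _).prodMk (Continuous.subtype_mk h1 _)

theorem stE_congr (g : GL (Fin N) E) {k k' : Fin a → E} (hk : k ᵥ* upLJ h (GM σ H g) = 0)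
    (hk' : k' ᵥ* upLJ h (GM σ H g) = 0) {η η' : Fin a → E} (e1 : k = k') (e2 : η = η') :
    stE h hσ hH h2 g hk η = stE h hσ hH h2 g hk' η' := by
  subst e1
  subst e2
  rfl

/-- The elements `stE` are values of sections of the stabilisers. -/
theorem stE_gauge [IsUltrametricDist E] [ProperSpace E] (hσc : Continuous σ)
    (x₀ : MuX σ H h) (Z : Set (MuX σ H h)) (hx₀ : x₀ ∈ Z)
    (hr : ∀ x ∈ Z, (upLJ h (GM σ H x.1)).rank ≤ (upLJ h (GM σ H x₀.1)).rank)
    (k₀ : Fin a → E) (hk : k₀ ᵥ* upLJ h (GM σ H x₀.1) = 0) (η₀ : Fin a → E) (c : E) :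
    GaugeFix Z x₀ (stE h hσ hH h2 x₀.1 hk (η₀ + c • k₀)) := by
  classical
  have hAc : Continuous fun x : MuX σ H h => (upLJ h (GM σ H x.1)).transpose :=
    (continuous_beta h hσc).matrix_transpose
  obtain ⟨V₀, R, hV₀, hxV₀, hRc, hR1, -, hker⟩ := exists_ker_section hAc x₀
  set κ : MuX σ H h → Fin a → E := fun x => (R x).mulVec k₀ with hκ
  have hκ0 : κ x₀ = k₀ := by
    show (R x₀).mulVec k₀ = k₀
    rw [hR1, Matrix.one_mulVec]
  have hκZ : ∀ x ∈ Z ∩ V₀, κ x ᵥ* upLJ h (GM σ H x.1) = 0 := by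
    rintro x ⟨hxZ, hxV⟩
    rw [← Matrix.mulVec_transpose]
    refine hker k₀ ?_ x hxV ?_
    · rw [Matrix.mulVec_transpose]
      exact hk
    · rw [Matrix.rank_transpose, Matrix.rank_transpose]
      exact hr x hxZ
  set s : MuX σ H h → PSJ h E × unitary σ H := fun x =>
    if hx : κ x ᵥ* upLJ h (GM σ H x.1) = 0 then stE h hσ hH h2 x.1 hx (η₀ + c • κ x) else 1
    with hs
  have hsZ : ∀ x (hx : x ∈ Z ∩ V₀), s x = stE h hσ hH h2 x.1 (hκZ x hx) (η₀ + c • κ x) :=
    fun x hx => dif_pos (hκZ x hx)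
  have hsx₀ : s x₀ = stE h hσ hH h2 x₀.1 hk (η₀ + c • k₀) := by
    rw [hsZ x₀ ⟨hx₀, hxV₀⟩]
    exact stE_congr h hσ hH h2 _ _ _ hκ0 (by rw [hκ0])
  obtain ⟨C, hCo, hCc, hCm, -⟩ := stE_cpt h hσ hH h2 hσc x₀.1 hk (η₀ + c • k₀)
  refine ⟨V₀, s, C, hV₀, hxV₀, ?_, ?_, hsx₀, hCo, hCc, hCm⟩
  · rw [continuousOn_iff_continuous_domRestrict]
    have hRc' : Continuous fun z : (Z ∩ V₀ : Set (MuX σ H h)) => R z.1 :=
      continuousOn_iff_continuous_domRestrict.1 (hRc.mono Set.inter_subset_right :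
        ContinuousOn R (Z ∩ V₀))
    have hkc : Continuous fun z : (Z ∩ V₀ : Set (MuX σ H h)) => κ z.1 :=
      hRc'.matrix_mulVec continuous_const
    have heq : (Z ∩ V₀).domRestrict s = fun z : (Z ∩ V₀ : Set (MuX σ H h)) =>
        stE h hσ hH h2 z.1.1 (hκZ z.1 z.2) (η₀ + c • κ z.1) := by
      funext z
      exact hsZ z.1 z.2
    rw [heq]
    have hgc : Continuous fun z : (Z ∩ V₀ : Set (MuX σ H h)) => (z.1.1 : GL (Fin N) E) :=
      continuous_subtype_val.comp continuous_subtype_val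
    have hηc : Continuous fun z : (Z ∩ V₀ : Set (MuX σ H h)) => η₀ + c • κ z.1 :=
      continuous_const.add (hkc.const_smul c)
    exact continuous_stE h hσ hH h2 hσc hgc hkc hηc (fun z => hκZ z.1 z.2)
  · rintro x hx
    rw [hsZ x hx]
    exact stE_smul h hσ hH h2 x _ _

end top

end SpW.Mu
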