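import Pool.Agent.Work.MP_3615d2_al.P1.DefsP
import Pool.Agent.Work.MP_3615d2_al.P1.MuDef

/-!
MP_3615d2_al, middle strata: the Siegel transformations `v ↦ v + h(v,y) r + h(v,r)(y + h(y,y)r/2)`
and their action on the subspace `g⁻¹ E^a`.
-/

open Matrix Filter Topology

namespace SpW.Mu

section alg

variable {F E : Type} [Field F] [Field E] [Algebra F E] {N : ℕ}

/-- The linear form `v ↦ h(v, y)`, as a vector. -/
def hvec (σ : E ≃ₐ[F] E) (H : Matrix (Fin N) (Fin N) E) (y : Fin N → E) : Fin N → E :=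
  H.mulVec (fun j => σ (y j))

variable {σ : E ≃ₐ[F] E} {H : Matrix (Fin N) (Fin N) E}

theorem sk_eq_hvec (v y : Fin N → E) : sk σ H v y = v ⬝ᵥ hvec σ H y := sk_eq_dotP σ H v y

theorem sk_add_left (v w y : Fin N → E) : sk σ H (v + w) y = sk σ H v y + sk σ H w y := by
  rw [sk_eq_hvec, sk_eq_hvec, sk_eq_hvec, add_dotProduct]

theorem sk_smul_left (c : E) (v y : Fin N → E) : sk σ H (c • v) y = c * sk σ H v y := by
  rw [sk_eq_hvec, sk_eq_hvec, smul_dotProduct, smul_eq_mul]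

theorem sk_add_right (v y z : Fin N → E) : sk σ H v (y + z) = sk σ H v y + sk σ H v z := by
  rw [sk_eq_dotP, sk_eq_dotP, sk_eq_dotP, ← dotProduct_add, ← Matrix.mulVec_add]
  congr 2
  funext j
  exact map_add σ _ _

theorem sk_smul_right (c : E) (v y : Fin N → E) : sk σ H v (c • y) = σ c * sk σ H v y := by
  rw [sk_eq_dotP, sk_eq_dotP, ← smul_eq_mul, ← dotProduct_smul, ← Matrix.mulVec_smul]
  congr 2
  funext j
  exact map_mul σ _ _

theorem sk_symm (hσ : ∀ x, σ (σ x) = x) (hH : ∀ i j, H j i = - σ (H i j)) (x y : Fin N → E) :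
    sk σ H y x = - σ (sk σ H x y) := by
  unfold sk
  rw [map_sum, ← Finset.sum_neg_distrib, Finset.sum_comm]
  refine Finset.sum_congr rfl fun i _ => ?_
  rw [map_sum, ← Finset.sum_neg_distrib]
  refine Finset.sum_congr rfl fun j _ => ?_
  rw [map_mul, map_mul, hσ, hH i j]
  ring

theorem sk_zero_symm (hσ : ∀ x, σ (σ x) = x) (hH : ∀ i j, H j i = - σ (H i j))
    {x y : Fin N → E} (h : sk σ H x y = 0) : sk σ H y x = 0 := by
  rw [sk_symm hσ hH x y, h, map_zero, neg_zero]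

/-- The matrix of the Siegel transformation. -/
def sgM (σ : E ≃ₐ[F] E) (H : Matrix (Fin N) (Fin N) E) (y r : Fin N → E) :
    Matrix (Fin N) (Fin N) E :=
  1 + vecMulVec r (hvec σ H y) + vecMulVec (y + ((2 : E)⁻¹ * sk σ H y y) • r) (hvec σ H r)

theorem vecMulVec_mulVec' (r l v : Fin N → E) : (vecMulVec r l).mulVec v = (v ⬝ᵥ l) • r := by
  funext i
  simp only [Matrix.mulVec, dotProduct, vecMulVec_apply, Pi.smul_apply, smul_eq_mul,
    Finset.sum_mul]
  refine Finset.sum_congr rfl fun j _ => ?_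
  ring

theorem sgM_mulVec (y r v : Fin N → E) : (sgM σ H y r).mulVec v =
    v + sk σ H v y • r + sk σ H v r • (y + ((2 : E)⁻¹ * sk σ H y y) • r) := by
  rw [sgM, Matrix.add_mulVec, Matrix.add_mulVec, Matrix.one_mulVec, vecMulVec_mulVec',
    vecMulVec_mulVec', ← sk_eq_hvec, ← sk_eq_hvec]

/-- the conditions on `(y, r)` -/
def IsSg (σ : E ≃ₐ[F] E) (H : Matrix (Fin N) (Fin N) E) (y r : Fin N → E) : Prop :=
  sk σ H r r = 0 ∧ sk σ H y r = 0

theorem IsSg.neg {y r : Fin N → E} (h : IsSg σ H y r) : IsSg σ H y (-r) := by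
  have e : -r = (-1 : E) • r := by rw [neg_smul, one_smul]
  rw [e]
  refine ⟨?_, ?_⟩
  · rw [sk_smul_left, sk_smul_right, h.1, mul_zero, mul_zero]
  · rw [sk_smul_right, h.2, mul_zero]

variable (hσ : ∀ x, σ (σ x) = x) (hH : ∀ i j, H j i = - σ (H i j))

include hσ hH in
theorem sgM_sk (h2 : (2 : E) ≠ 0) {y r : Fin N → E} (h : IsSg σ H y r) (v w : Fin N → E) :
    sk σ H ((sgM σ H y r).mulVec v) ((sgM σ H y r).mulVec w) = sk σ H v w := by
  obtain ⟨h1, h3⟩ := h
  have h4 : sk σ H r y = 0 := sk_zero_symm hσ hH h3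
  have e1 : sk σ H r w = - σ (sk σ H w r) := sk_symm hσ hH w r
  have e2 : sk σ H y w = - σ (sk σ H w y) := sk_symm hσ hH w y
  have e3 : σ (sk σ H y y) = - sk σ H y y := by
    have := sk_symm hσ hH y y
    rw [eq_neg_iff_add_eq_zero, add_comm, ← eq_neg_iff_add_eq_zero] at this
    exact this
  have e4 : σ ((2 : E)⁻¹) = (2 : E)⁻¹ := by rw [map_inv₀, map_ofNat]
  rw [sgM_mulVec, sgM_mulVec]
  simp only [sk_add_left, sk_add_right, sk_smul_left, sk_smul_right, h1, h3, h4, e1, e2, map_add,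
    map_mul, e3, e4, map_neg, mul_zero, add_zero, zero_add]
  field_simp
  ring

include hσ hH in
theorem sgM_mul_neg (h2 : (2 : E) ≠ 0) {y r : Fin N → E} (h : IsSg σ H y r) :
    sgM σ H y r * sgM σ H y (-r) = 1 := by
  obtain ⟨h1, h3⟩ := h
  have h4 : sk σ H r y = 0 := sk_zero_symm hσ hH h3
  have e : -r = (-1 : E) • r := by rw [neg_smul, one_smul]
  apply Matrix.ext_of_mulVec_single
  intro i
  rw [← Matrix.mulVec_mulVec, Matrix.one_mulVec, sgM_mulVec, sgM_mulVec, e]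
  generalize (Pi.single i 1 : Fin N → E) = v
  simp only [sk_add_left, sk_smul_left, sk_smul_right, h1, h3, h4, map_neg, map_one, mul_zero,
    add_zero]
  funext j
  simp only [Pi.add_apply, Pi.smul_apply, smul_eq_mul]
  field_simp
  ring

/-- The Siegel transformation as an invertible matrix. -/
def sgU (hσ : ∀ x, σ (σ x) = x) (hH : ∀ i j, H j i = - σ (H i j)) (h2 : (2 : E) ≠ 0)
    {y r : Fin N → E} (h : IsSg σ H y r) : GL (Fin N) E where
  val := sgM σ H y r
  inv := sgM σ H y (-r)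
  val_inv := sgM_mul_neg hσ hH h2 h
  inv_val := by
    have h1 := sgM_mul_neg hσ hH h2 h.neg
    rwa [neg_neg] at h1

theorem sgU_val (h2 : (2 : E) ≠ 0) {y r : Fin N → E} (h : IsSg σ H y r) :
    (sgU hσ hH h2 h : Matrix (Fin N) (Fin N) E) = sgM σ H y r := rfl

theorem sgU_mem (h2 : (2 : E) ≠ 0) {y r : Fin N → E} (h : IsSg σ H y r) :
    sgU hσ hH h2 h ∈ unitary σ H := fun v w => sgM_sk hσ hH h2 h v w

/-- `(u - 1)³ = 0` -/
theorem sgU_cube (h2 : (2 : E) ≠ 0) {y r : Fin N → E} (h : IsSg σ H y r) :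
    ((sgU hσ hH h2 h : Matrix (Fin N) (Fin N) E) - 1) *
      ((sgU hσ hH h2 h : Matrix (Fin N) (Fin N) E) - 1) *
      ((sgU hσ hH h2 h : Matrix (Fin N) (Fin N) E) - 1) = 0 := by
  obtain ⟨h1, h3⟩ := h
  have h4 : sk σ H r y = 0 := sk_zero_symm hσ hH h3
  have key : ∀ v : Fin N → E, (sgM σ H y r - 1).mulVec v =
      sk σ H v y • r + sk σ H v r • (y + ((2 : E)⁻¹ * sk σ H y y) • r) := by
    intro v
    rw [Matrix.sub_mulVec, sgM_mulVec, Matrix.one_mulVec]
    abel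
  apply Matrix.ext_of_mulVec_single
  intro i
  rw [sgU_val, ← Matrix.mulVec_mulVec, ← Matrix.mulVec_mulVec, Matrix.zero_mulVec, key, key, key]
  generalize (Pi.single i 1 : Fin N → E) = v
  simp only [sk_add_left, sk_smul_left, h1, h3, h4, mul_zero, add_zero, zero_smul, zero_add]

end alg

/-! ### The subspaces -/

section frame

variable {F E : Type} [Field F] [Field E] [Algebra F E] {a b N : ℕ} (h : a + b = N)

/-- `(x, 0)` -/
def embJ (x : Fin a → E) : Fin N → E := fun i => Sum.elim x (fun _ => 0) ((sJ h).symm i)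

theorem embJ_inl (x : Fin a → E) (i : Fin a) : embJ h x (sJ h (Sum.inl i)) = x i := by
  simp [embJ]

theorem embJ_inr (x : Fin a → E) (i : Fin b) : embJ h x (sJ h (Sum.inr i)) = 0 := by
  simp [embJ]

theorem embJ_add (x y : Fin a → E) : embJ h (x + y) = embJ h x + embJ h y := by
  funext i
  obtain ⟨i, rfl⟩ := (sJ h).surjective i
  rcases i with i | i
  · rw [Pi.add_apply, embJ_inl, embJ_inl, embJ_inl, Pi.add_apply]
  · rw [Pi.add_apply, embJ_inr, embJ_inr, embJ_inr, add_zero]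

theorem embJ_smul (c : E) (x : Fin a → E) : embJ h (c • x) = c • embJ h x := by
  funext i
  obtain ⟨i, rfl⟩ := (sJ h).surjective i
  rcases i with i | i
  · rw [Pi.smul_apply, embJ_inl, embJ_inl, Pi.smul_apply]
  · rw [Pi.smul_apply, embJ_inr, embJ_inr, smul_zero]

theorem sum_sJ {M : Type*} [AddCommMonoid M] (f : Fin N → M) :
    ∑ i, f i = ∑ i, f (sJ h (Sum.inl i)) + ∑ i, f (sJ h (Sum.inr i)) := by
  rw [← (sJ h).sum_comp, Fintype.sum_sum_type]

theorem mulVec_embJ_inl (g : Matrix (Fin N) (Fin N) E) (x : Fin a → E) (i : Fin a) :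
    g.mulVec (embJ h x) (sJ h (Sum.inl i)) = (upLJ h g).mulVec x i := by
  simp only [Matrix.mulVec, dotProduct]
  rw [sum_sJ h]
  simp only [embJ_inl, embJ_inr, mul_zero, Finset.sum_const_zero, add_zero]
  rfl

theorem mulVec_embJ_inr (g : Matrix (Fin N) (Fin N) E) (x : Fin a → E) (i : Fin b) :
    g.mulVec (embJ h x) (sJ h (Sum.inr i)) = (lowLJ h g).mulVec x i := by
  simp only [Matrix.mulVec, dotProduct]
  rw [sum_sJ h]
  simp only [embJ_inl, embJ_inr, mul_zero, Finset.sum_const_zero, add_zero]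
  rfl

theorem sk_upLJ (σ : E ≃ₐ[F] E) (K : Matrix (Fin N) (Fin N) E) (x y : Fin a → E) :
    sk σ (upLJ h K) x y = sk σ K (embJ h x) (embJ h y) := by
  unfold sk
  rw [sum_sJ h]
  simp only [sum_sJ h (fun j => _ * _ * σ (embJ h y j)), embJ_inl, embJ_inr, map_zero, mul_zero,
    zero_mul, Finset.sum_const_zero, add_zero]
  rfl

/-- The frame of `g⁻¹ E^a`. -/
def frJ (g : GL (Fin N) E) (x : Fin a → E) : Fin N → E :=
  ((g⁻¹ : GL (Fin N) E) : Matrix (Fin N) (Fin N) E).mulVec (embJ h x)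

theorem frJ_add (g : GL (Fin N) E) (x y : Fin a → E) :
    frJ h g (x + y) = frJ h g x + frJ h g y := by
  rw [frJ, embJ_add, Matrix.mulVec_add]
  rfl

theorem frJ_smul (g : GL (Fin N) E) (c : E) (x : Fin a → E) :
    frJ h g (c • x) = c • frJ h g x := by
  rw [frJ, embJ_smul, Matrix.mulVec_smul]
  rfl

theorem mulVec_frJ (g : GL (Fin N) E) (x : Fin a → E) :
    (g : Matrix (Fin N) (Fin N) E).mulVec (frJ h g x) = embJ h x := by
  rw [frJ, Matrix.mulVec_mulVec, Units.mul_inv, Matrix.one_mulVec]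

theorem sk_frJ (σ : E ≃ₐ[F] E) (H : Matrix (Fin N) (Fin N) E) (g : GL (Fin N) E)
    (x y : Fin a → E) :
    sk σ H (frJ h g x) (frJ h g y) = sk σ (upLJ h (GM σ H g)) x y := by
  rw [sk_upLJ, sk_GM]
  rfl

variable {σ : E ≃ₐ[F] E} {H : Matrix (Fin N) (Fin N) E}

/-- `kᵗ β = 0` -/
theorem sk_of_vecMul {β : Matrix (Fin a) (Fin a) E} {k : Fin a → E} (hk : k ᵥ* β = 0)
    (y : Fin a → E) : sk σ β k y = 0 := by
  rw [sk_eq_dotP, Matrix.dotProduct_mulVec, hk, zero_dotProduct]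

theorem isSg_frJ (hσ : ∀ x, σ (σ x) = x) (hH : ∀ i j, H j i = - σ (H i j)) {g : GL (Fin N) E}
    {k : Fin a → E} (hk : k ᵥ* upLJ h (GM σ H g) = 0) (η : Fin a → E) :
    IsSg σ H (frJ h g η) (frJ h g k) := by
  have h1 : ∀ y, sk σ H (frJ h g k) (frJ h g y) = 0 := by
    intro y
    rw [sk_frJ]
    exact sk_of_vecMul hk y
  exact ⟨h1 k, sk_zero_symm hσ hH (h1 η)⟩

/-- The action of the Siegel transformation on `g⁻¹ E^a` and on the quotient. -/
theorem conj_sgU (hσ : ∀ x, σ (σ x) = x) (hH : ∀ i j, H j i = - σ (H i j)) (h2 : (2 : E) ≠ 0)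
    {g : GL (Fin N) E} {k : Fin a → E} (hk : k ᵥ* upLJ h (GM σ H g) = 0) (η : Fin a → E) :
    ∃ (n : GL (Fin a) E) (y : Matrix (Fin a) (Fin b) E),
      g * sgU hσ hH h2 (isSg_frJ h hσ hH hk η) * g⁻¹ = pelJ h n 1 y ∧
      (n : Matrix (Fin a) (Fin a) E) =
        1 + vecMulVec k ((upLJ h (GM σ H g)).mulVec (fun j => σ (η j))) := by
  set u := sgU hσ hH h2 (isSg_frJ h hσ hH hk η) with hu
  set c : E := (2 : E)⁻¹ * sk σ H (frJ h g η) (frJ h g η) with hc
  -- the action on a vector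
  have key : ∀ v : Fin N → E, ((g * u * g⁻¹ : GL (Fin N) E) : Matrix (Fin N) (Fin N) E).mulVec v =
      v + embJ h (sk σ H (((g⁻¹ : GL (Fin N) E) : Matrix (Fin N) (Fin N) E).mulVec v)
          (frJ h g η) • k +
        sk σ H (((g⁻¹ : GL (Fin N) E) : Matrix (Fin N) (Fin N) E).mulVec v)
          (frJ h g k) • (η + c • k)) := by
    intro v
    rw [Units.val_mul, Units.val_mul, ← Matrix.mulVec_mulVec, ← Matrix.mulVec_mulVec, hu,
      sgU_val, sgM_mulVec, Matrix.mulVec_add, Matrix.mulVec_add, Matrix.mulVec_mulVec,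
      Units.mul_inv, Matrix.one_mulVec, Matrix.mulVec_smul, Matrix.mulVec_smul, Matrix.mulVec_add,
      Matrix.mulVec_smul, mulVec_frJ, mulVec_frJ, embJ_add, embJ_smul, embJ_smul, embJ_add,
      embJ_smul, add_assoc]
  have hlow : lowLJ h ((g * u * g⁻¹ : GL (Fin N) E) : Matrix (Fin N) (Fin N) E) = 0 := by
    ext i j
    have h3 := congrFun (key (Pi.single (sJ h (Sum.inl j)) 1)) (sJ h (Sum.inr i))
    rw [Pi.add_apply, embJ_inr, add_zero, Matrix.mulVec_single_one, Matrix.col_apply] at h3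
    show ((g * u * g⁻¹ : GL (Fin N) E) : Matrix (Fin N) (Fin N) E) (sJ h (Sum.inr i))
      (sJ h (Sum.inl j)) = 0
    rw [h3, Pi.single_eq_of_ne]
    rw [Ne, (sJ h).apply_eq_iff_eq]
    exact Sum.inr_ne_inl
  obtain ⟨n, q, y, hnq⟩ := (exists_pelJ_iff h (g * u * g⁻¹)).2 hlow
  have hq : q = 1 := by
    apply Units.ext
    ext i j
    have h3 := congrFun (key (Pi.single (sJ h (Sum.inr j)) 1)) (sJ h (Sum.inr i))
    rw [Pi.add_apply, embJ_inr, add_zero, Matrix.mulVec_single_one, Matrix.col_apply, hnq,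
      pelJ_val, bmJ_apply, Matrix.fromBlocks_apply₂₂] at h3
    rw [h3, Units.val_one, Pi.single_apply, Matrix.one_apply]
    simp only [(sJ h).apply_eq_iff_eq, Sum.inr.injEq]
  subst hq
  refine ⟨n, y, hnq, ?_⟩
  apply Matrix.ext_of_mulVec_single
  intro j
  rw [Matrix.add_mulVec, Matrix.one_mulVec, vecMulVec_mulVec', ← sk_eq_dotP]
  set x : Fin a → E := Pi.single j 1 with hx
  funext i
  have h3 := congrFun (key (embJ h x)) (sJ h (Sum.inl i))
  rw [mulVec_embJ_inl, hnq, pelJ_val, upLJ_bmJ] at h3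
  rw [h3, Pi.add_apply, embJ_inl, embJ_inl, Pi.add_apply, Pi.add_apply]
  have h4 : sk σ H (((g⁻¹ : GL (Fin N) E) : Matrix (Fin N) (Fin N) E).mulVec (embJ h x))
      (frJ h g η) = sk σ (upLJ h (GM σ H g)) x η := sk_frJ h σ H g x η
  have h5 : sk σ H (((g⁻¹ : GL (Fin N) E) : Matrix (Fin N) (Fin N) E).mulVec (embJ h x))
      (frJ h g k) = 0 := by
    have h6 : sk σ H (frJ h g k) (frJ h g x) = 0 := by
      rw [sk_frJ]
      exact sk_of_vecMul hk x
    exact sk_zero_symm hσ hH h6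
  rw [h4, h5, zero_smul, Pi.zero_apply, add_zero]

end frame

end SpW.Mu
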