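import Pool.Agent.Work.MP_3615d2_al.HermClass
import Pool.Agent.Work.MP_3615d2_al.Co.IndAB

/-!
MP_3615d2_al, P1: normal forms of Gram matrices under block triangular changes of basis, for
abstract index types.
-/

open Matrix

set_option linter.unusedSectionVars false

namespace SpW

namespace NF

variable {F E : Type} [Field F] [Field E] [Algebra F E] {σ : E ≃ₐ[F] E} {δ : E} {d : F}

section gen

variable {n ι κ : Type} [Fintype n] [DecidableEq n] [Fintype ι] [DecidableEq ι] [Fintype κ]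
  [DecidableEq κ]

/-- the Gram matrix in the basis given by the columns of `P` -/
def gm (σ : E → E) (H P : Matrix n n E) : Matrix n n E := Pᵀ * H * P.map σ

theorem map_mul' (A : Matrix ι κ E) (B : Matrix κ n E) :
    (A * B).map σ = A.map σ * B.map σ := by
  ext i j
  simp [Matrix.mul_apply]

theorem map_map' (hq : QuadDatum σ δ d) (A : Matrix ι κ E) : (A.map σ).map σ = A := by
  ext i j
  simp [sig_sig hq]

theorem map_one' : (1 : Matrix n n E).map σ = 1 := by
  ext i j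
  by_cases h : i = j
  · subst h
    simp
  · simp [h]

theorem gm_mul (H P Q : Matrix n n E) : gm σ H (P * Q) = gm σ (gm σ H P) Q := by
  unfold gm
  rw [transpose_mul, map_mul']
  simp only [Matrix.mul_assoc]

theorem gm_one (H : Matrix n n E) : gm σ H 1 = H := by
  unfold gm
  rw [transpose_one, map_one', Matrix.one_mul, Matrix.mul_one]

/-- skewness as an identity of matrices -/
theorem sk_iff (H : Matrix n n E) : (∀ i j, H j i = - σ (H i j)) ↔ (H.map σ)ᵀ = -H := by
  constructor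
  · intro h
    ext i j
    rw [transpose_apply, map_apply, neg_apply, h j i, neg_neg]
  · intro h i j
    have := congrFun (congrFun h j) i
    rw [transpose_apply, map_apply, neg_apply] at this
    rw [this, neg_neg]

theorem gm_skew (hq : QuadDatum σ δ d) {H : Matrix n n E} (h : (H.map σ)ᵀ = -H)
    (P : Matrix n n E) : ((gm σ H P).map σ)ᵀ = -gm σ H P := by
  unfold gm
  rw [map_mul', map_mul', map_map' hq, transpose_mul, transpose_mul, h]
  have h1 : ((Pᵀ).map σ)ᵀ = P.map σ := by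
    ext i j
    rfl
  rw [h1, Matrix.neg_mul, Matrix.mul_neg, Matrix.mul_assoc]

/-- change of basis by an upper triangular block matrix -/
theorem gm_blocks (A : Matrix ι ι E) (B : Matrix ι κ E) (C : Matrix κ ι E) (D : Matrix κ κ E)
    (P : Matrix ι ι E) (Y : Matrix ι κ E) (Q : Matrix κ κ E) :
    gm σ (fromBlocks A B C D) (fromBlocks P Y 0 Q) =
      fromBlocks (Pᵀ * A * P.map σ) (Pᵀ * A * Y.map σ + Pᵀ * B * Q.map σ)
        ((Yᵀ * A + Qᵀ * C) * P.map σ)
        ((Yᵀ * A + Qᵀ * C) * Y.map σ + (Yᵀ * B + Qᵀ * D) * Q.map σ) := by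
  unfold gm
  have h0 : (0 : Matrix κ ι E).map σ = 0 := by
    ext i j
    simp
  rw [fromBlocks_transpose, fromBlocks_map, transpose_zero, h0, fromBlocks_multiply,
    fromBlocks_multiply]
  simp only [Matrix.zero_mul, Matrix.mul_zero, add_zero]

/-- skewness of a block matrix -/
theorem sk_blocks {A : Matrix ι ι E} {B : Matrix ι κ E} {C : Matrix κ ι E} {D : Matrix κ κ E}
    (h : ((fromBlocks A B C D).map σ)ᵀ = -fromBlocks A B C D) :
    (A.map σ)ᵀ = -A ∧ C = -(B.map σ)ᵀ ∧ (D.map σ)ᵀ = -D := by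
  rw [fromBlocks_map, fromBlocks_transpose, fromBlocks_neg, fromBlocks_inj] at h
  exact ⟨h.1, by rw [h.2.2.1, neg_neg], h.2.2.2⟩

/-- **Orthogonal complement**: if the upper left block is nondegenerate then the form is block
diagonal in a basis obtained by a unipotent block triangular change. -/
theorem exists_diag (hq : QuadDatum σ δ d) {A : Matrix ι ι E} {B : Matrix ι κ E}
    {C : Matrix κ ι E} {D : Matrix κ κ E}
    (h : ((fromBlocks A B C D).map σ)ᵀ = -fromBlocks A B C D) (hA : IsUnit A.det) :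
    ∃ (Y : Matrix ι κ E) (D' : Matrix κ κ E),
      gm σ (fromBlocks A B C D) (fromBlocks 1 Y 0 1) = fromBlocks A 0 0 D' := by
  have h1 := gm_skew hq h (fromBlocks 1 ((-(A⁻¹ * B)).map σ) 0 1)
  rw [gm_blocks] at h1
  obtain ⟨-, h2, -⟩ := sk_blocks h1
  have h3 : (1 : Matrix ι ι E)ᵀ * A * ((-(A⁻¹ * B)).map σ).map σ +
      (1 : Matrix ι ι E)ᵀ * B * (1 : Matrix κ κ E).map σ = 0 := by
    rw [map_map' hq, map_one', transpose_one, Matrix.one_mul, Matrix.one_mul, Matrix.mul_one,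
      Matrix.mul_neg, ← Matrix.mul_assoc, Matrix.mul_nonsing_inv _ hA, Matrix.one_mul,
      neg_add_cancel]
  have h4 : -((0 : Matrix ι κ E).map σ)ᵀ = 0 := by
    ext i j
    simp
  have h5 := gm_blocks (σ := σ) A B C D 1 ((-(A⁻¹ * B)).map σ) 1
  rw [h2, h3, h4, map_one', transpose_one, Matrix.one_mul, Matrix.mul_one] at h5
  exact ⟨_, _, h5⟩

/-- A surjective row of blocks can be brought to the form `(0 1)`. -/
theorem exists_cols (B : Matrix ι (κ ⊕ ι) E) (Z : Matrix (κ ⊕ ι) ι E) (hZ : B * Z = 1) :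
    ∃ Q : Matrix (κ ⊕ ι) (κ ⊕ ι) E, IsUnit Q.det ∧ B * Q = fromCols 0 1 := by
  have hs : Function.Surjective B.mulVecLin := by
    intro v
    refine ⟨Z.mulVec v, ?_⟩
    rw [mulVecLin_apply, mulVec_mulVec, hZ, one_mulVec]
  have hk : Module.finrank E (LinearMap.ker B.mulVecLin) = Fintype.card κ := by
    have h1 := LinearMap.finrank_range_add_finrank_ker B.mulVecLin
    rw [LinearMap.range_eq_top.2 hs, finrank_top, Module.finrank_fintype_fun_eq_card,
      Module.finrank_fintype_fun_eq_card, Fintype.card_sum] at h1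
    omega
  let b := (Module.finBasisOfFinrankEq E (LinearMap.ker B.mulVecLin) hk).reindex
    (Fintype.equivFin κ).symm
  let Q : Matrix (κ ⊕ ι) (κ ⊕ ι) E :=
    fromCols (Matrix.of fun i j => (b j : (κ ⊕ ι) → E) i) Z
  have hb : B * (Matrix.of fun i j => (b j : (κ ⊕ ι) → E) i) = 0 := by
    ext i j
    have h1 := congrFun (LinearMap.mem_ker.1 (b j).2) i
    rw [mulVecLin_apply] at h1
    simpa [Matrix.mul_apply, mulVec, dotProduct] using h1
  have hBQ : B * Q = fromCols 0 1 := by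
    rw [mul_fromCols, hb, hZ]
  refine ⟨Q, ?_, hBQ⟩
  rw [← Matrix.isUnit_iff_isUnit_det, ← Matrix.mulVec_injective_iff_isUnit]
  rw [← coe_mulVecLin, ← LinearMap.ker_eq_bot, LinearMap.ker_eq_bot']
  intro v hv
  rw [mulVecLin_apply] at hv
  have h1 : (fun i => v (Sum.inr i)) = 0 := by
    have h2 := congrArg B.mulVec hv
    rw [mulVec_mulVec, hBQ, mulVec_zero, fromCols_mulVec, zero_mulVec, one_mulVec, zero_add] at h2
    exact h2
  have h2 : ∑ j, v (Sum.inl j) • b j = 0 := by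
    apply Subtype.ext
    funext i
    have h3 := congrFun hv i
    rw [fromCols_mulVec] at h3
    have h4 : v ∘ Sum.inr = 0 := h1
    rw [h4, mulVec_zero, add_zero] at h3
    simp only [mulVec, dotProduct, of_apply, Function.comp_apply, Pi.zero_apply] at h3
    rw [Submodule.coe_sum, Finset.sum_apply]
    simp only [Submodule.coe_smul, Pi.smul_apply, smul_eq_mul, Submodule.coe_zero, Pi.zero_apply]
    rw [← h3]
    exact Finset.sum_congr rfl fun j _ => mul_comm _ _
  have h3 := Fintype.linearIndependent_iff.1 b.linearIndependent _ h2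
  funext i
  rcases i with i | i
  · exact h3 i
  · exact congrFun h1 i

/-- the Gram matrix of `R + M₀ + R'` with `R`, `R'` isotropic and dual to each other -/
def H3 (ι : Type) [DecidableEq ι] (H0 : Matrix κ κ E) : Matrix (ι ⊕ (κ ⊕ ι)) (ι ⊕ (κ ⊕ ι)) E :=
  fromBlocks 0 (fromCols 0 1) (fromRows 0 (-1)) (fromBlocks H0 0 0 0)

/-- **Isotropic block**: if the upper left block is zero then the form is `H3 H0` in a basis
obtained by a block triangular change which is the identity on the isotropic subspace. -/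
theorem exists_H3 (hq : QuadDatum σ δ d) {B : Matrix ι (κ ⊕ ι) E}
    {C : Matrix (κ ⊕ ι) ι E} {D : Matrix (κ ⊕ ι) (κ ⊕ ι) E}
    (h : ((fromBlocks 0 B C D).map σ)ᵀ = -fromBlocks 0 B C D)
    (hd : IsUnit (fromBlocks 0 B C D).det) :
    ∃ (Q : Matrix (κ ⊕ ι) (κ ⊕ ι) E) (Y : Matrix ι (κ ⊕ ι) E) (H0 : Matrix κ κ E),
      IsUnit Q.det ∧ gm σ (fromBlocks 0 B C D) (fromBlocks 1 Y 0 Q) = H3 ι H0 ∧
        (H0.map σ)ᵀ = -H0 ∧ H0.det ≠ 0 := by
  -- a right inverse of `B`
  obtain ⟨Z, hZ⟩ : ∃ Z : Matrix (κ ⊕ ι) ι E, B * Z = 1 := by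
    have h1 := Matrix.mul_nonsing_inv _ hd
    rw [← fromBlocks_toBlocks (fromBlocks 0 B C D)⁻¹, fromBlocks_multiply,
      ← fromBlocks_one, fromBlocks_inj] at h1
    have h2 := h1.1
    rw [Matrix.zero_mul, zero_add] at h2
    exact ⟨_, h2⟩
  obtain ⟨Q, hQ, hBQ⟩ := exists_cols B Z hZ
  have hz : ∀ {α β : Type}, (0 : Matrix α β E).map σ = 0 := by
    intro α β
    ext i j
    simp
  -- first step
  obtain ⟨D1, e1⟩ : ∃ D1, gm σ (fromBlocks 0 B C D) (fromBlocks 1 0 0 (Q.map σ)) =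
      fromBlocks 0 (fromCols 0 1) (-((fromCols (0 : Matrix ι κ E) 1).map σ)ᵀ) D1 := by
    have h1 := gm_skew hq h (fromBlocks 1 0 0 (Q.map σ))
    have h2 := gm_blocks (σ := σ) 0 B C D 1 0 (Q.map σ)
    rw [h2] at h1
    obtain ⟨-, h3, -⟩ := sk_blocks h1
    rw [h3, map_map' hq, map_one', transpose_one, hz, Matrix.mul_zero, Matrix.zero_mul,
      Matrix.zero_mul, zero_add, Matrix.one_mul, hBQ] at h2
    exact ⟨_, h2⟩
  have s1 : ((fromBlocks 0 (fromCols 0 1) (-((fromCols (0 : Matrix ι κ E) 1).map σ)ᵀ) D1).map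
      σ)ᵀ = -fromBlocks 0 (fromCols 0 1) (-((fromCols (0 : Matrix ι κ E) 1).map σ)ᵀ) D1 := by
    rw [← e1]
    exact gm_skew hq h _
  have hC' : -((fromCols (0 : Matrix ι κ E) (1 : Matrix ι ι E)).map σ)ᵀ =
      fromRows 0 (-1) := by
    rw [fromCols_map, transpose_fromCols, hz, map_one', transpose_zero, transpose_one,
      fromRows_neg, neg_zero]
  obtain ⟨-, -, hD1⟩ := sk_blocks s1
  rw [← fromBlocks_toBlocks D1] at hD1
  obtain ⟨ha, hc, he⟩ := sk_blocks hD1
  set a := D1.toBlocks₁₁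
  set b := D1.toBlocks₁₂
  set c := D1.toBlocks₂₁
  set e := D1.toBlocks₂₂
  have hD1' : D1 = fromBlocks a b c e := (fromBlocks_toBlocks D1).symm
  -- second step
  let Y : Matrix ι (κ ⊕ ι) E := fromCols (-bᵀ) (-((2 : E)⁻¹ • eᵀ))
  have e2 : gm σ (fromBlocks 0 (fromCols 0 1) (-((fromCols (0 : Matrix ι κ E) 1).map σ)ᵀ) D1)
      (fromBlocks 1 Y 0 1) = H3 ι a := by
    have h1 := gm_skew hq s1 (fromBlocks 1 Y 0 1)
    have h2 := gm_blocks (σ := σ) 0 (fromCols (0 : Matrix ι κ E) 1)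
      (-((fromCols (0 : Matrix ι κ E) 1).map σ)ᵀ) D1 1 Y 1
    rw [h2] at h1 ⊢
    obtain ⟨-, h3, -⟩ := sk_blocks h1
    rw [h3]
    unfold H3
    simp only [map_one', transpose_one, Matrix.mul_one, Matrix.one_mul, Matrix.mul_zero,
      Matrix.zero_mul, zero_add]
    rw [hC', hD1']
    congr 1
    rw [transpose_fromCols, fromCols_map, fromRows_mul_fromCols, fromRows_mul_fromCols]
    simp only [Matrix.mul_zero, Matrix.zero_mul, Matrix.mul_one, Matrix.neg_mul, Matrix.one_mul]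
    rw [fromBlocks_add, fromBlocks_add]
    have hb1 : -(-bᵀ).map σ + (0 + c) = 0 := by
      rw [hc]
      ext i j
      simp
    have h2' : (2 : E) ≠ 0 := hq.two_E
    have hb2 : -(-((2 : E)⁻¹ • eᵀ)).map σ + ((-((2 : E)⁻¹ • eᵀ))ᵀ + e) = 0 := by
      ext i j
      have h4 := congrFun (congrFun he i) j
      rw [transpose_apply, map_apply, neg_apply] at h4
      show -(σ (-((2 : E)⁻¹ * e j i))) + (-((2 : E)⁻¹ * e i j) + e i j) = 0
      rw [map_neg, map_mul, map_inv₀, h4]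
      have h5 : σ (2 : E) = 2 := map_ofNat σ 2
      rw [h5]
      field_simp
      ring
    rw [hb1, hb2]
    congr 1
    · simp
    · ext i j
      simp
  -- assembly
  have eP : (fromBlocks 1 0 0 (Q.map σ) : Matrix (ι ⊕ (κ ⊕ ι)) (ι ⊕ (κ ⊕ ι)) E) *
      fromBlocks 1 Y 0 1 = fromBlocks 1 Y 0 (Q.map σ) := by
    rw [fromBlocks_multiply]
    simp
  have eH : gm σ (fromBlocks 0 B C D) (fromBlocks 1 Y 0 (Q.map σ)) = H3 ι a := by
    rw [← eP, gm_mul, e1, e2]
  have hQ' : IsUnit (Q.map σ).det := by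
    have h1 : (Q.map σ).det = σ Q.det := ((σ : E →+* E).map_det Q).symm
    rw [h1]
    exact hQ.map σ
  refine ⟨Q.map σ, Y, a, hQ', eH, ha, ?_⟩
  -- nondegeneracy
  intro h0
  obtain ⟨v, hv, hav⟩ := Matrix.exists_mulVec_eq_zero_iff.2 h0
  have hu : IsUnit (H3 ι a).det := by
    rw [← eH]
    unfold gm
    have h1 : ((fromBlocks 1 Y 0 (Q.map σ) : Matrix (ι ⊕ (κ ⊕ ι)) (ι ⊕ (κ ⊕ ι)) E).map σ).det =
        σ (fromBlocks 1 Y 0 (Q.map σ) : Matrix (ι ⊕ (κ ⊕ ι)) (ι ⊕ (κ ⊕ ι)) E).det :=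
      ((σ : E →+* E).map_det _).symm
    rw [det_mul, det_mul, det_transpose, h1, det_fromBlocks_zero₂₁, det_one, one_mul]
    exact (hQ'.mul hd).mul (hQ'.map σ)
  have h1 : (H3 ι a).mulVec (Sum.elim 0 (Sum.elim v 0)) = 0 := by
    unfold H3
    rw [fromBlocks_mulVec]
    funext i
    rcases i with i | i
    · simp
    · simp [fromBlocks_mulVec, hav]
  have h2 := Matrix.exists_mulVec_eq_zero_iff.1 ⟨Sum.elim 0 (Sum.elim v 0), ?_, h1⟩
  · rw [h2] at hu
    exact not_isUnit_zero hu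
  · intro h3
    apply hv
    funext i
    exact congrFun h3 (Sum.inr (Sum.inl i))

end gen

end NF

end SpW
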