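import Pool.Agent.Work.MP_3615d2_al.P1.Normal

/-!
MP_3615d2_al, Part 1, module WA in the form of the task file: `exists_diag`, `exists_hyp3`.
-/

open Matrix

set_option linter.unusedSectionVars false

namespace SpW

variable {F E : Type} [Field F] [Field E] [Algebra F E] {σ : E ≃ₐ[F] E} {δ : E} {d : F}
  {m a b N : ℕ}

/-- nondegenerate upper left block -/
theorem exists_diag (hq : QuadDatum σ δ d) (h : a + b = N) {H : Matrix (Fin N) (Fin N) E}
    (hH : IsSkew σ H) (hdet : (upLJ h H).det ≠ 0) :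
    ∃ (y : Matrix (Fin a) (Fin b) E) (H₁ : Matrix (Fin a) (Fin a) E) (H₂ : Matrix (Fin b) (Fin b) E),
      IsSkew σ H₁ ∧ IsSkew σ H₂ ∧ GM σ H (pelJ h 1 1 y) = bmJ h H₁ 0 0 H₂ := by
  have h0 : (upLJ h (GM σ H 1)).det ≠ 0 := by rwa [GM_one]
  obtain ⟨y, H2, h1, h2, h3⟩ := exists_GM_diag hq h hH 1 h0
  rw [mul_one] at h3
  exact ⟨y, _, H2, h1, h2, h3⟩

/-- an isotropic coordinate subspace has at most half the dimension -/
theorem le_of_upLJ_zero (h : m + b = N) {H : Matrix (Fin N) (Fin N) E} (hH : IsSkew σ H)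
    (h0 : upLJ h H = 0) : m ≤ b := by
  have hd : IsUnit (fromBlocks (upLJ h H) (upRJ h H) (lowLJ h H) (lowRJ h H)).det := by
    have h1 := hH.det_ne
    rw [← bmJ_blocks h H, bmJ, det_reindex_self] at h1
    exact isUnit_iff_ne_zero.2 h1
  have h1 := Matrix.mul_nonsing_inv _ hd
  rw [← fromBlocks_toBlocks (fromBlocks (upLJ h H) (upRJ h H) (lowLJ h H) (lowRJ h H))⁻¹,
    fromBlocks_multiply, ← fromBlocks_one, fromBlocks_inj] at h1
  have h2 := h1.1
  rw [h0, Matrix.zero_mul, zero_add] at h2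
  have h3 := Matrix.rank_mul_le_left (upRJ h H)
    (fromBlocks (0 : Matrix (Fin m) (Fin m) E) (upRJ h H) (lowLJ h H) (lowRJ h H))⁻¹.toBlocks₂₁
  rw [h2, Matrix.rank_one, Fintype.card_fin] at h3
  exact h3.trans ((Matrix.rank_le_width _).trans le_rfl)

/-- zero upper left block: `m ≤ b` and the form becomes `hyp3` -/
theorem exists_hyp3 (hq : QuadDatum σ δ d) (h : m + b = N) {H : Matrix (Fin N) (Fin N) E}
    (hH : IsSkew σ H) (h0 : upLJ h H = 0) :
    ∃ (n k : ℕ) (h1 : m + n = k) (h2 : k + m = N) (H₀ : Matrix (Fin n) (Fin n) E)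
      (p : GL (Fin m) E) (q : GL (Fin b) E) (y : Matrix (Fin m) (Fin b) E),
      IsSkew σ H₀ ∧ GM σ H (pelJ h p q y) = hyp3 h1 h2 H₀ := by
  have hmb := le_of_upLJ_zero h hH h0
  have h1 : m + (b - m) = b := by omega
  have h2 : b + m = N := by omega
  have h0' : upLJ h (GM σ H 1) = 0 := by rwa [GM_one]
  obtain ⟨q, y, H₀, h3, h4⟩ := exists_GM_hyp3 hq h h1 h2 hH 1 h0'
  rw [mul_one] at h4
  exact ⟨_, _, h1, h2, H₀, 1, q, y, h3, h4⟩

end SpW
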