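import Pool.Agent.Work.MP_3615d2_al.P1.FibB

/-!
MP_3615d2_al, Part 1: sections over a closed orbit `P U` extend to `G`; an invariant form on the
sections over `G` which kills the sections vanishing on `U` comes from a form on the sections
over `U`. Abstract part.
-/

open Filter Topology

namespace SpW

section ext

variable {G W : Type} [Group G] [TopologicalSpace G] [IsTopologicalGroup G] [AddCommGroup W]
  [Module ℂ W] {P U : Subgroup G} {τ : P →* Module.End ℂ W}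

/-- The map `P × U → P U` is open: near `u` the elements of `P U` are of the form `p u v` with
small `p`, `v`. -/
def OrbOpen (P U : Subgroup G) : Prop :=
  ∀ (u : U) (V : Set P) (V' : Set U), V ∈ 𝓝 1 → V' ∈ 𝓝 1 → ∀ᶠ k in 𝓝 (1 : G),
    (∃ (p : P) (v : U), (u : G) * k = p * v) →
      ∃ p ∈ V, ∃ v ∈ V', (u : G) * k = (p : P) * u * (v : U)

/-- the restriction of the representation to `P ∩ U` -/
def resQ (U : Subgroup G) (τ : P →* Module.End ℂ W) :
    (P.subgroupOf U) →* Module.End ℂ W :=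
  τ.comp
    { toFun := fun q => ⟨((q : U) : G), q.2⟩
      map_one' := rfl
      map_mul' := fun _ _ => rfl }

omit [TopologicalSpace G] [IsTopologicalGroup G] in
theorem resQ_apply (q : P.subgroupOf U) (p : P) (h : (p : G) = ((q : U) : G)) :
    resQ U τ q = τ p := by
  show τ ⟨((q : U) : G), q.2⟩ = τ p
  congr 1
  exact Subtype.ext h.symm

omit [TopologicalSpace G] [IsTopologicalGroup G] in
theorem indE_resQ {f₀ : U → W} (h : f₀ ∈ indE (P.subgroupOf U) (resQ U τ)) {p : P} {u u' : U}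
    (e : (u' : G) = p * u) : f₀ u' = τ p (f₀ u) := by
  have hp : (p : G) ∈ U := by
    have : (p : G) = u' * (u : G)⁻¹ := by rw [e, mul_inv_cancel_right]
    rw [this]
    exact U.mul_mem u'.2 (U.inv_mem u.2)
  have hq : (⟨p, hp⟩ : U) ∈ P.subgroupOf U := p.2
  have h1 := h ⟨⟨p, hp⟩, hq⟩ u
  have h2 : u' = (⟨p, hp⟩ : U) * u := Subtype.ext e
  rw [h2]
  rw [resQ_apply (⟨⟨p, hp⟩, hq⟩ : P.subgroupOf U) p rfl] at h1
  exact h1

omit [TopologicalSpace G] [IsTopologicalGroup G] in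
theorem two_rep {f₀ : U → W} (h : f₀ ∈ indE (P.subgroupOf U) (resQ U τ)) {p p' : P} {u u' : U}
    (e : (p : G) * u = p' * u') : τ p (f₀ u) = τ p' (f₀ u') := by
  have h1 : (u' : G) = ((p'⁻¹ * p : P) : G) * u := by
    rw [Subgroup.coe_mul, Subgroup.coe_inv, mul_assoc, e, inv_mul_cancel_left]
  rw [indE_resQ h h1, ← Module.End.mul_apply, ← map_mul, mul_inv_cancel_left]

/-- uniform local constancy over a compact set -/
theorem unif_near (ho : OrbOpen P U) (hτ : ∀ w, ∀ᶠ p in 𝓝 (1 : P), τ p w = w)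
    {C : Set U} (hC : IsCompact C) {f₀ : U → W}
    (h1 : f₀ ∈ indE (P.subgroupOf U) (resQ U τ)) (h2 : ∀ᶠ v in 𝓝 (1 : U), ∀ u, f₀ (u * v) = f₀ u) :
    ∀ᶠ k in 𝓝 (1 : G), ∀ c ∈ C, ∀ (p : P) (v : U), (c : G) * k = p * v → τ p (f₀ v) = f₀ c := by
  refine hC.eventually_forall_of_forall_eventually fun c₀ _ => ?_
  have e1 := ho c₀ _ _ (hτ (f₀ c₀)) h2
  have t1 : Tendsto (fun z : G × U => (c₀ : G)⁻¹ * z.2 * z.1) (𝓝 (1, c₀)) (𝓝 1) := by
    have hc : Continuous fun z : G × U => (c₀ : G)⁻¹ * z.2 * z.1 := by fun_prop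
    have := hc.tendsto ((1 : G), c₀)
    simpa using this
  have t2 : Tendsto (fun z : G × U => c₀⁻¹ * z.2) (𝓝 (1, c₀)) (𝓝 1) := by
    have hc : Continuous fun z : G × U => c₀⁻¹ * z.2 := by fun_prop
    have := hc.tendsto ((1 : G), c₀)
    simpa using this
  filter_upwards [t1.eventually e1, t2.eventually h2] with z hz hz' p v e
  have e2 : (c₀ : G) * ((c₀ : G)⁻¹ * z.2 * z.1) = p * v := by
    rw [← e]
    group
  obtain ⟨p', hp', v', hv', e3⟩ := hz ⟨p, v, e2⟩
  rw [e2] at e3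
  have e4 : (p : G) * v = p' * ((c₀ * v' : U) : G) := by
    rw [e3, Subgroup.coe_mul, mul_assoc]
  rw [two_rep h1 e4]
  have e5 : f₀ (c₀ * v') = f₀ c₀ := hv' c₀
  have e6 : f₀ z.2 = f₀ c₀ := by
    have := hz' c₀
    rwa [mul_inv_cancel_left] at this
  rw [e5, e6]
  exact hp'

/-- Sections over a closed orbit extend. -/
theorem exists_ext (ho : OrbOpen P U) (hτ : ∀ w, ∀ᶠ p in 𝓝 (1 : P), τ p w = w)
    (hG : ∀ s ∈ 𝓝 (1 : G), ∃ K : Subgroup G, IsOpen (K : Set G) ∧ (K : Set G) ⊆ s)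
    {C : Set U} (hC : IsCompact C) (hUC : ∀ u : U, ∃ (p : P) (c : U), c ∈ C ∧ (u : G) = p * c)
    {f₀ : U → W} (h0 : f₀ ∈ indS (P.subgroupOf U) (resQ U τ)) :
    ∃ f ∈ indS P τ, ∀ u : U, f u = f₀ u := by
  classical
  obtain ⟨h1, K', hK', h2⟩ := h0
  have h2' : ∀ᶠ v in 𝓝 (1 : U), ∀ u, f₀ (u * v) = f₀ u := by
    filter_upwards [hK'.mem_nhds K'.one_mem] with v hv u
    exact h2 u v hv
  obtain ⟨K, hK, hKs⟩ := hG _ (unif_near ho hτ hC h1 h2')
  have hwd : ∀ (p p' : P) (c c' : U) (k k' : G), c ∈ C → c' ∈ C → k ∈ K → k' ∈ K →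
      (p : G) * c * k = p' * c' * k' → τ p (f₀ c) = τ p' (f₀ c') := by
    intro p p' c c' k k' _ hc' hk hk' e
    have e1 : (c' : G) * (k' * k⁻¹) = ((p'⁻¹ * p : P) : G) * c := by
      have e2 : (p' : G) * (c' * (k' * k⁻¹)) = (p : G) * c := by
        have e3 : (p' : G) * (c' * (k' * k⁻¹)) = p' * c' * k' * k⁻¹ := by group
        rw [e3, ← e, mul_inv_cancel_right]
      rw [Subgroup.coe_mul, Subgroup.coe_inv, mul_assoc, ← e2, inv_mul_cancel_left]
    have e4 := hKs (K.mul_mem hk' (K.inv_mem hk)) c' hc' _ _ e1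
    rw [← e4, ← Module.End.mul_apply, ← map_mul, mul_inv_cancel_left]
  let f : G → W := fun x =>
    if h : ∃ (p : P) (c : U) (k : G), c ∈ C ∧ k ∈ K ∧ x = p * c * k then
      τ h.choose (f₀ h.choose_spec.choose) else 0
  have hf : ∀ (p : P) (c : U) (k : G), c ∈ C → k ∈ K → f (p * c * k) = τ p (f₀ c) := by
    intro p c k hc hk
    have h : ∃ (p' : P) (c' : U) (k' : G), c' ∈ C ∧ k' ∈ K ∧ (p : G) * c * k = p' * c' * k' :=
      ⟨p, c, k, hc, hk, rfl⟩
    show (if h : ∃ (p' : P) (c' : U) (k' : G), c' ∈ C ∧ k' ∈ K ∧ (p : G) * c * k = p' * c' * k' then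
      τ h.choose (f₀ h.choose_spec.choose) else 0) = _
    rw [dif_pos h]
    obtain ⟨k', hc', hk', e⟩ := h.choose_spec.choose_spec
    exact (hwd _ _ _ _ _ _ hc hc' hk hk' e).symm
  have hf0 : ∀ x : G, (¬ ∃ (p : P) (c : U) (k : G), c ∈ C ∧ k ∈ K ∧ x = p * c * k) → f x = 0 :=
    fun x hx => dif_neg hx
  refine ⟨f, ⟨fun p x => ?_, K, hK, fun x k hk => ?_⟩, fun u => ?_⟩
  · by_cases hx : ∃ (p : P) (c : U) (k : G), c ∈ C ∧ k ∈ K ∧ x = p * c * k
    · obtain ⟨p', c, k, hc, hk, rfl⟩ := hx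
      have e : (p : G) * (p' * c * k) = ((p * p' : P) : G) * c * k := by
        rw [Subgroup.coe_mul]
        group
      rw [e, hf _ _ _ hc hk, hf _ _ _ hc hk, map_mul, Module.End.mul_apply]
    · rw [hf0 x hx, map_zero]
      apply hf0
      rintro ⟨p', c, k, hc, hk, e⟩
      refine hx ⟨p⁻¹ * p', c, k, hc, hk, ?_⟩
      have e2 : x = (p : G)⁻¹ * (p * x) := by group
      rw [e2, e, Subgroup.coe_mul, Subgroup.coe_inv]
      group
  · by_cases hx : ∃ (p : P) (c : U) (k : G), c ∈ C ∧ k ∈ K ∧ x = p * c * k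
    · obtain ⟨p', c, k', hc, hk', rfl⟩ := hx
      rw [mul_assoc _ k' k, hf _ _ _ hc (K.mul_mem hk' hk), hf _ _ _ hc hk']
    · rw [hf0 x hx]
      apply hf0
      rintro ⟨p', c, k', hc, hk', e⟩
      refine hx ⟨p', c, k' * k⁻¹, hc, K.mul_mem hk' (K.inv_mem hk), ?_⟩
      rw [← mul_assoc, ← e, mul_inv_cancel_right]
  · obtain ⟨p, c, hc, e⟩ := hUC u
    have h3 := hf p c 1 hc K.one_mem
    rw [mul_one, ← e] at h3
    rw [h3, indE_resQ h1 e]

omit [TopologicalSpace G] [IsTopologicalGroup G] in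
theorem res_indE {f : G → W} (hf : f ∈ indE P τ) :
    (fun u : U => f u) ∈ indE (P.subgroupOf U) (resQ U τ) := by
  intro q u
  have h1 := hf ⟨((q : U) : G), q.2⟩ u
  show f ((((q : U) * u : U)) : G) = resQ U τ q (f u)
  rw [resQ_apply q ⟨((q : U) : G), q.2⟩ rfl, ← h1]
  rfl

omit [IsTopologicalGroup G] in
theorem res_indS {f : G → W} (hf : f ∈ indS P τ) :
    (fun u : U => f u) ∈ indS (P.subgroupOf U) (resQ U τ) := by
  obtain ⟨h1, K, hK, h2⟩ := hf
  exact ⟨res_indE h1, K.subgroupOf U, hK.preimage continuous_subtype_val,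
    fun u k hk => h2 u k hk⟩

/-- the restriction of the sections to `U` -/
def resS (U : Subgroup G) (τ : P →* Module.End ℂ W) :
    indS P τ →ₗ[ℂ] indS (P.subgroupOf U) (resQ U τ) where
  toFun f := ⟨fun u : U => (f : G → W) u, res_indS f.2⟩
  map_add' _ _ := rfl
  map_smul' _ _ := rfl

end ext

section form

variable {G W S : Type} [Group G] [TopologicalSpace G] [AddCommGroup W]
  [Module ℂ W] [AddCommGroup S] [Module ℂ S] {P U : Subgroup G} {τ : P →* Module.End ℂ W}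

/-- A form which kills the sections vanishing on `U` comes from a form on the sections over `U`. -/
theorem exists_resForm (hs : Function.Surjective (resS U τ)) (β : indS P τ →ₗ[ℂ] S →ₗ[ℂ] ℂ)
    (hk : ∀ f : indS P τ, (∀ u : U, (f : G → W) u = 0) → β f = 0) :
    ∃ β' : indS (P.subgroupOf U) (resQ U τ) →ₗ[ℂ] S →ₗ[ℂ] ℂ, ∀ f, β' (resS U τ f) = β f := by
  have h1 : LinearMap.ker (resS U τ) ≤ LinearMap.ker β := by
    intro f hf
    rw [LinearMap.mem_ker] at hf ⊢
    refine hk f fun u => ?_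
    exact congrFun (congrArg Subtype.val hf) u
  refine ⟨((LinearMap.ker (resS U τ)).liftQ β h1).comp
    ((resS U τ).quotKerEquivOfSurjective hs).symm.toLinearMap, fun f => ?_⟩
  rw [LinearMap.comp_apply]
  have h2 : ((resS U τ).quotKerEquivOfSurjective hs).symm (resS U τ f) =
      Submodule.Quotient.mk f := by
    rw [LinearEquiv.symm_apply_eq]
    rfl
  show (LinearMap.ker (resS U τ)).liftQ β h1
    (((resS U τ).quotKerEquivOfSurjective hs).symm (resS U τ f)) = β f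
  rw [h2]
  rfl

end form

end SpW
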