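import Pool.Agent.Work.MP_3615d2_al.HeisDual

/-!
# Uniqueness of the irreducible smooth representation of a Heisenberg group
-/

open scoped Matrix

namespace Pool.Agent.SpehH

section

variable {F : Type*} [NontriviallyNormedField F] {W : Type*} [AddCommGroup W] [Module F W]
  {S S' : Type*} [AddCommGroup S] [Module ℂ S] [AddCommGroup S'] [Module ℂ S']
  {ψ : AddChar F Circle} {B : LinearMap.BilinForm F W} {ρ : W → Module.End ℂ S}
  {ρ' : W → Module.End ℂ S'}

/-- the direct sum of two representations -/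
theorem IsHeis.prod (h : IsHeis ψ B ρ) (h' : IsHeis ψ B ρ') :
    IsHeis ψ B fun w => (ρ w).prodMap (ρ' w) where
  zero := by
    apply LinearMap.ext
    intro x
    show (ρ 0 x.1, ρ' 0 x.2) = x
    rw [rho_zero h, rho_zero h']
  mul w w' := by
    apply LinearMap.ext
    intro x
    show (ρ w (ρ w' x.1), ρ' w (ρ' w' x.2)) =
      ((ψ (B w w' / 2) : Circle) : ℂ) • (ρ (w + w') x.1, ρ' (w + w') x.2)
    rw [rho_rho h, rho_rho h']
    rfl
  smooth v w := by
    obtain ⟨ε, hε, h1⟩ := h.smooth v.1 w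
    obtain ⟨ε', hε', h1'⟩ := h'.smooth v.2 w
    refine ⟨min ε ε', lt_min hε hε', fun a ha => Prod.ext ?_ ?_⟩
    · exact h1 a (ha.trans (min_le_left _ _))
    · exact h1' a (ha.trans (min_le_right _ _))

/-- **Stone - von Neumann.** Two irreducible smooth representations with the same central
character are isomorphic. -/
theorem stone_von_neumann [IsUltrametricDist F] [ProperSpace F] [FiniteDimensional F W]
    (hψ : Continuous ψ) (h1 : ψ ≠ 1) (hB : B.IsAlt) (hn : B.Nondegenerate) (h2 : (2 : F) ≠ 0)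
    (h : IsHeis ψ B ρ) (hi : IsIrr ρ) (h' : IsHeis ψ B ρ') (hi' : IsIrr ρ') :
    ∃ T : S ≃ₗ[ℂ] S', ∀ w v, T (ρ w v) = ρ' w (T v) := by
  classical
  obtain ⟨c, hc⟩ := exists_cond hψ h1
  obtain ⟨n, e, f, I₁, I, sb⟩ := exists_sb hB hn h2 (le_refl (⊥ : Submodule F W)) (by
    intro y hy y' _
    rw [Submodule.mem_bot] at hy
    rw [hy, map_zero, LinearMap.zero_apply])
  obtain ⟨v, hv, hf⟩ := exists_fix hψ hc hB h2 h hi.1 sb (one_ne_zero (α := F))
  obtain ⟨v', hv', hf'⟩ := exists_fix hψ hc hB h2 h' hi'.1 sb (one_ne_zero (α := F))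
  set P : W → Module.End ℂ (S × S') := fun w => (ρ w).prodMap (ρ' w) with hP
  have hh : IsHeis ψ B P := h.prod h'
  set D : Submodule ℂ (S × S') := Submodule.span ℂ (Set.range fun w => P w (v, v')) with hD
  have hst : ∀ w, ∀ x ∈ D, P w x ∈ D := by
    intro w x hx
    induction hx using Submodule.span_induction with
    | mem z hz =>
      obtain ⟨w', rfl⟩ := hz
      show P w (P w' (v, v')) ∈ D
      rw [rho_rho hh]
      exact D.smul_mem _ (Submodule.subset_span ⟨w + w', rfl⟩)
    | zero => rw [map_zero]; exact D.zero_mem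
    | add x y _ _ hx hy => rw [map_add]; exact D.add_mem hx hy
    | smul a x _ hx => rw [map_smul]; exact D.smul_mem _ hx
  have hv0 : (v, v') ∈ D := Submodule.subset_span ⟨0, rho_zero hh _⟩
  have hPl : ∀ l ∈ latt e f c (1 : F), ρ l v = v ∧ ρ' l v' = v' := by
    rintro l (⟨a, ha, rfl⟩ | ⟨b, hb, rfl⟩)
    · exact ⟨hf.1 a ha, hf'.1 a ha⟩
    · exact ⟨hf.2 b hb, hf'.2 b hb⟩
  -- the vectors of `D` which are fixed by the lattice
  have hline : ∀ x ∈ D, (∀ l ∈ latt e f c (1 : F), P l x = x) → ∃ z : ℂ, x = z • (v, v') := by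
    intro x hx hxl
    have hx' : x ∈ Submodule.span ℂ {z | ∃ w, (fun _ : W => True) w ∧ z = P w (v, v')} ⊔
        (⊥ : Submodule ℂ (S × S')) := by
      rw [sup_bot_eq]
      refine Submodule.span_mono ?_ hx
      rintro _ ⟨w, rfl⟩
      exact ⟨w, trivial, rfl⟩
    obtain ⟨s, a, hs⟩ := exists_sum_of_mem (K := (⊥ : Submodule ℂ (S × S'))) (ρ := P)
      (P := fun _ => True) (v := (v, v')) (x := x) hx'
    have h3 := ev_mem (Λ := latt e f c (1 : F)) (T := fun l => P l.1)
      (K := (⊥ : Submodule ℂ (S × S')))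
      (fun l x hx => by
        rw [Submodule.mem_bot] at hx ⊢
        rw [hx, map_zero])
      (g := fun j : {w : W // True} => P j.1 (v, v'))
      (χ := fun l j => ((ψ (B l.1 j.1) : Circle) : ℂ)) (χ0 := fun _ => 1)
      (fun l j => by
        have e1 : P l.1 (v, v') = (v, v') := Prod.ext (hPl l.1 l.2).1 (hPl l.1 l.2).2
        rw [rho_comm hh hB h2, e1, sub_self]
        exact Submodule.zero_mem _)
      (fun l => by
        rw [hxl l.1 l.2, one_smul, sub_self]
        exact Submodule.zero_mem _) s a hs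
    rw [sup_bot_eq] at h3
    have h4 : Submodule.span ℂ {z | ∃ j : {w : W // True}, (∀ l : latt e f c (1 : F),
        ((ψ (B l.1 j.1) : Circle) : ℂ) = 1) ∧ z = P j.1 (v, v')} ≤
        Submodule.span ℂ {(v, v')} := by
      refine Submodule.span_le.2 ?_
      rintro _ ⟨⟨w, hw0⟩, hw, rfl⟩
      have hw' : ∀ l ∈ latt e f c (1 : F), ψ (B l w) = 1 := by
        intro l hl
        have := hw ⟨l, hl⟩
        rwa [← Circle.coe_one, Circle.coe_inj] at this
      obtain ⟨a, b, ha, hb, hab⟩ := sb.self_dual hc hB one_ne_zero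
        (fun a ha => hw' _ (Or.inl ⟨a, ha, rfl⟩)) fun b hb => hw' _ (Or.inr ⟨b, hb, rfl⟩)
      show P w (v, v') ∈ _
      have e1 : P (lc f b) (v, v') = (v, v') := Prod.ext (hf.2 b hb) (hf'.2 b hb)
      have e2 : P (lc e a) (v, v') = (v, v') := Prod.ext (hf.1 a ha) (hf'.1 a ha)
      rw [hab, rho_add hh, e1, e2]
      exact Submodule.smul_mem _ _ (Submodule.subset_span rfl)
    obtain ⟨z, hz⟩ := Submodule.mem_span_singleton.1 (h4 h3)
    exact ⟨z, hz.symm⟩
  -- the intersections with the factors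
  have hD2 : ∀ y : S', ((0 : S), y) ∈ D → y = 0 := by
    have hT : ∀ w, ∀ y ∈ D.comap (LinearMap.inr ℂ S S'), ρ' w y ∈ D.comap (LinearMap.inr ℂ S S') := by
      intro w y hy
      have := hst w _ hy
      have e1 : P w (LinearMap.inr ℂ S S' y) = LinearMap.inr ℂ S S' (ρ' w y) := by
        apply Prod.ext
        · show ρ w 0 = 0
          rw [map_zero]
        · rfl
      rw [e1] at this
      exact this
    rcases hi'.2 _ hT with hbot | htop
    · intro y hy
      have : y ∈ D.comap (LinearMap.inr ℂ S S') := hy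
      rwa [hbot, Submodule.mem_bot] at this
    · exfalso
      have h5 : ((0 : S), v') ∈ D := by
        have : v' ∈ D.comap (LinearMap.inr ℂ S S') := by rw [htop]; exact Submodule.mem_top
        exact this
      obtain ⟨z, hz⟩ := hline _ h5 fun l hl => Prod.ext (map_zero (ρ l)) (hPl l hl).2
      have hz1 : (0 : S) = z • v := congrArg Prod.fst hz
      have hz2 : v' = z • v' := congrArg Prod.snd hz
      have hz0 : z = 0 := (smul_eq_zero.1 hz1.symm).resolve_right hv
      rw [hz0, zero_smul] at hz2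
      exact hv' hz2
  have hD1 : ∀ x : S, (x, (0 : S')) ∈ D → x = 0 := by
    have hT : ∀ w, ∀ y ∈ D.comap (LinearMap.inl ℂ S S'), ρ w y ∈ D.comap (LinearMap.inl ℂ S S') := by
      intro w y hy
      have := hst w _ hy
      have e1 : P w (LinearMap.inl ℂ S S' y) = LinearMap.inl ℂ S S' (ρ w y) := by
        apply Prod.ext
        · rfl
        · show ρ' w 0 = 0
          rw [map_zero]
      rw [e1] at this
      exact this
    rcases hi.2 _ hT with hbot | htop
    · intro y hy
      have : y ∈ D.comap (LinearMap.inl ℂ S S') := hy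
      rwa [hbot, Submodule.mem_bot] at this
    · exfalso
      have h5 : (v, (0 : S')) ∈ D := by
        have : v ∈ D.comap (LinearMap.inl ℂ S S') := by rw [htop]; exact Submodule.mem_top
        exact this
      obtain ⟨z, hz⟩ := hline _ h5 fun l hl => Prod.ext (hPl l hl).1 (map_zero (ρ' l))
      have hz1 : v = z • v := congrArg Prod.fst hz
      have hz2 : (0 : S') = z • v' := congrArg Prod.snd hz
      have hz0 : z = 0 := (smul_eq_zero.1 hz2.symm).resolve_right hv'
      rw [hz0, zero_smul] at hz1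
      exact hv hz1
  -- the two projections are bijective
  set p₁ : D →ₗ[ℂ] S := (LinearMap.fst ℂ S S').comp D.subtype with hp₁
  set p₂ : D →ₗ[ℂ] S' := (LinearMap.snd ℂ S S').comp D.subtype with hp₂
  have b1 : Function.Bijective p₁ := by
    constructor
    · rw [← LinearMap.ker_eq_bot, LinearMap.ker_eq_bot']
      rintro ⟨⟨x, y⟩, hxy⟩ hx
      have hx' : x = 0 := hx
      subst hx'
      apply Subtype.ext
      exact Prod.ext rfl (hD2 y hxy)
    · rw [← LinearMap.range_eq_top]
      rcases hi.2 (LinearMap.range p₁) (by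
        rintro w _ ⟨⟨x, hx⟩, rfl⟩
        exact ⟨⟨P w x, hst w x hx⟩, rfl⟩) with hbot | htop
      · exfalso
        have : v ∈ LinearMap.range p₁ := ⟨⟨_, hv0⟩, rfl⟩
        rw [hbot, Submodule.mem_bot] at this
        exact hv this
      · exact htop
  have b2 : Function.Bijective p₂ := by
    constructor
    · rw [← LinearMap.ker_eq_bot, LinearMap.ker_eq_bot']
      rintro ⟨⟨x, y⟩, hxy⟩ hx
      have hx' : y = 0 := hx
      subst hx'
      apply Subtype.ext
      exact Prod.ext (hD1 x hxy) rfl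
    · rw [← LinearMap.range_eq_top]
      rcases hi'.2 (LinearMap.range p₂) (by
        rintro w _ ⟨⟨x, hx⟩, rfl⟩
        exact ⟨⟨P w x, hst w x hx⟩, rfl⟩) with hbot | htop
      · exfalso
        have : v' ∈ LinearMap.range p₂ := ⟨⟨_, hv0⟩, rfl⟩
        rw [hbot, Submodule.mem_bot] at this
        exact hv' this
      · exact htop
  refine ⟨(LinearEquiv.ofBijective p₁ b1).symm.trans (LinearEquiv.ofBijective p₂ b2),
    fun w x => ?_⟩
  obtain ⟨y, rfl⟩ := (LinearEquiv.ofBijective p₁ b1).surjective x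
  have e1 : ρ w ((LinearEquiv.ofBijective p₁ b1) y) =
      (LinearEquiv.ofBijective p₁ b1) ⟨P w y.1, hst w _ y.2⟩ := rfl
  rw [e1, LinearEquiv.trans_apply, LinearEquiv.trans_apply, LinearEquiv.symm_apply_apply,
    LinearEquiv.symm_apply_apply]
  rfl

end

end Pool.Agent.SpehH
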