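import Pool.Agent.Work.MP_3615d2_al.P1.DefsQ
import Pool.Agent.Work.MP_3615d2_al.P1.MOForm
import Pool.Agent.Work.MP_3615d2_al.MainB
import Pool.Agent.Work.MP_3615d2_al.WeMain
import Pool.Agent.Work.MP_3615d2_al.WeilDual
import Pool.Agent.Work.MP_3615d2_al.Mo.Transp

/-!
MP_3615d2_al, Part 1 (note 6734): the exact statements of the modules which the assembly uses.
NEVER import this file.
-/

open MeasureTheory Filter Topology Matrix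
open scoped TensorProduct

set_option linter.unusedSectionVars false
set_option linter.unusedVariables false

namespace SpW.P1Tasks

variable {F E : Type} [NontriviallyNormedField F] [IsUltrametricDist F] [ProperSpace F]
  [NontriviallyNormedField E] [NormedAlgebra F E] [IsUltrametricDist E] [ProperSpace E]
  [MeasurableSpace E] [BorelSpace E]
  {σ : E ≃ₐ[F] E} {δ : E} {d : F} {ψ : AddChar F Circle} {μ : Eˣ →* ℂˣ}
  {m n a b N k : ℕ} {V V₁ V₂ W W' W₀ S S' S₀ S₁ S₂ : Type}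
  [AddCommGroup V] [Module ℂ V] [AddCommGroup V₁] [Module ℂ V₁] [AddCommGroup V₂] [Module ℂ V₂]
  [AddCommGroup W] [Module ℂ W] [AddCommGroup W'] [Module ℂ W'] [AddCommGroup W₀] [Module ℂ W₀]
  [AddCommGroup S] [Module ℂ S] [AddCommGroup S'] [Module ℂ S']
  [AddCommGroup S₀] [Module ℂ S₀] [AddCommGroup S₁] [Module ℂ S₁] [AddCommGroup S₂] [Module ℂ S₂]

/-! ### W: Weil representations -/

/-- W2 (helper36, on main as `Mo.isWeil_congH`), in terms of `GM`. -/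
theorem isWeil_GM (hq : QuadDatum σ δ d) {H : Matrix (Fin N) (Fin N) E} (hH : IsSkew σ H)
    (hψ : Continuous ψ) (hψ1 : ψ ≠ 1) {ρ : (Fin N → E) → Module.End ℂ S}
    {ω : unitary σ H →* Module.End ℂ S} (hW : IsWeil σ H ψ μ ρ ω) (g : GL (Fin N) E) :
    ∃ ω' : unitary σ (GM σ H g) →* Module.End ℂ S, IsWeil σ (GM σ H g) ψ μ
      (fun w => ρ (((g⁻¹ : GL (Fin N) E) : Matrix (Fin N) (Fin N) E).mulVec w)) ω' ∧
      ∀ (u : unitary σ H) (u' : unitary σ (GM σ H g)),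
        (u' : GL (Fin N) E) = g * (u : GL (Fin N) E) * g⁻¹ → ω' u' = ω u := sorry

/-- W3 (helper61 / helper12). Uniqueness. -/
theorem weil_uniq (hq : QuadDatum σ δ d) {H : Matrix (Fin N) (Fin N) E} (hH : IsSkew σ H)
    (hψ : Continuous ψ) (hψ1 : ψ ≠ 1) (hμ : ConjSymplectic F μ)
    {ρ : (Fin N → E) → Module.End ℂ S} {ω : unitary σ H →* Module.End ℂ S}
    (hW : IsWeil σ H ψ μ ρ ω) {ρ' : (Fin N → E) → Module.End ℂ S'}
    {ω' : unitary σ H →* Module.End ℂ S'} (hW' : IsWeil σ H ψ μ ρ' ω') :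
    ∃ j : S ≃ₗ[ℂ] S', ∀ (u : unitary σ H) s, j (ω u s) = ω' u (j s) := sorry

/-- W4, TENS (helper61). -/
theorem weil_tens (hq : QuadDatum σ δ d) (h : a + b = N) {H₁ : Matrix (Fin a) (Fin a) E}
    {H₂ : Matrix (Fin b) (Fin b) E} (hH₁ : IsSkew σ H₁) (hH₂ : IsSkew σ H₂)
    (hψ : Continuous ψ) (hψ1 : ψ ≠ 1) (hμ : ConjSymplectic F μ)
    {ρ₁ : (Fin a → E) → Module.End ℂ S₁} {ω₁ : unitary σ H₁ →* Module.End ℂ S₁}
    (hW₁ : IsWeil σ H₁ ψ μ ρ₁ ω₁)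
    {ρ₂ : (Fin b → E) → Module.End ℂ S₂} {ω₂ : unitary σ H₂ →* Module.End ℂ S₂}
    (hW₂ : IsWeil σ H₂ ψ μ ρ₂ ω₂)
    {ρ : (Fin N → E) → Module.End ℂ S} {ω : unitary σ (bmJ h H₁ 0 0 H₂) →* Module.End ℂ S}
    (hW : IsWeil σ (bmJ h H₁ 0 0 H₂) ψ μ ρ ω) :
    ∃ j : S₁ ⊗[ℂ] S₂ ≃ₗ[ℂ] S, ∀ (u₁ : unitary σ H₁) (u₂ : unitary σ H₂)
      (u : unitary σ (bmJ h H₁ 0 0 H₂)),
      (u : GL (Fin N) E) = pelJ h (u₁ : GL (Fin a) E) (u₂ : GL (Fin b) E) 0 →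
      ∀ s₁ s₂, ω u (j (s₁ ⊗ₜ s₂)) = j (ω₁ u₁ s₁ ⊗ₜ ω₂ u₂ s₂) := sorry

/-! ### WA (helper91): normal forms -/

theorem isSkew_hyp3 (h1 : m + n = k) (h2 : k + m = N) {H₀ : Matrix (Fin n) (Fin n) E}
    (hH₀ : IsSkew σ H₀) : IsSkew σ (hyp3 h1 h2 H₀) := sorry

theorem isSkew_bmJ (h : a + b = N) {H₁ : Matrix (Fin a) (Fin a) E} {H₂ : Matrix (Fin b) (Fin b) E}
    (hH₁ : IsSkew σ H₁) (hH₂ : IsSkew σ H₂) : IsSkew σ (bmJ h H₁ 0 0 H₂) := sorry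

/-- nondegenerate upper left block -/
theorem exists_diag (hq : QuadDatum σ δ d) (h : a + b = N) {H : Matrix (Fin N) (Fin N) E}
    (hH : IsSkew σ H) (hdet : (upLJ h H).det ≠ 0) :
    ∃ (y : Matrix (Fin a) (Fin b) E) (H₁ : Matrix (Fin a) (Fin a) E) (H₂ : Matrix (Fin b) (Fin b) E),
      IsSkew σ H₁ ∧ IsSkew σ H₂ ∧ GM σ H (pelJ h 1 1 y) = bmJ h H₁ 0 0 H₂ := sorry

/-- zero upper left block: `m ≤ b` and the form becomes `hyp3` -/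
theorem exists_hyp3 (hq : QuadDatum σ δ d) (h : m + b = N) {H : Matrix (Fin N) (Fin N) E}
    (hH : IsSkew σ H) (h0 : upLJ h H = 0) :
    ∃ (n k : ℕ) (h1 : m + n = k) (h2 : k + m = N) (H₀ : Matrix (Fin n) (Fin n) E)
      (p : GL (Fin m) E) (q : GL (Fin b) E) (y : Matrix (Fin m) (Fin b) E),
      IsSkew σ H₀ ∧ GM σ H (pelJ h p q y) = hyp3 h1 h2 H₀ := sorry

/-! ### KAP (helper36 / helper79) -/

theorem kap_smooth (hq : QuadDatum σ δ d) (hμ : ConjSymplectic F μ)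
    {π : GL (Fin m) E →* Module.End ℂ V} (hπ : IsSmoothRep π) : IsSmoothRep (kap σ μ π) := sorry

theorem kap_irr {π : GL (Fin m) E →* Module.End ℂ V} (hirr : IsIrrRep π) :
    IsIrrRep (kap σ μ π) := sorry

theorem kap_cusp (hq : QuadDatum σ δ d) {π : GL (Fin m) E →* Module.End ℂ V} (hc : IsCusp π) :
    IsCusp (kap σ μ π) := sorry

theorem kap_unit (hq : QuadDatum σ δ d) (hμ : ConjSymplectic F μ)
    {π : GL (Fin m) E →* Module.End ℂ V} (hu : UnitCentral π) : UnitCentral (kap σ μ π) := sorry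

theorem kap_pairing (hq : QuadDatum σ δ d) (hμ : ConjSymplectic F μ)
    {π : GL (Fin m) E →* Module.End ℂ V} (hπ : IsSmoothRep π) (hirr : IsIrrRep π) (hc : IsCusp π)
    (hu : UnitCentral π) :
    ∃ l : V →ₗ[ℂ] V →ₗ[ℂ] ℂ, l ≠ 0 ∧ ∀ (g g' : GL (Fin m) E),
      (g' : Matrix (Fin m) (Fin m) E) =
        (((g⁻¹ : GL (Fin m) E) : Matrix (Fin m) (Fin m) E).transpose).map σ →
      ∀ v w, l (π g v) (kap σ μ π g' w) =
        (((μ (Matrix.GeneralLinearGroup.det g))⁻¹ : ℂˣ) : ℂ) * l v w := sorry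

/-! ### FIB (helper52) -/

/-- Local pieces over the open orbits. -/
theorem exists_fib (hq : QuadDatum σ δ d) (h : a + b = N) {H : Matrix (Fin N) (Fin N) E}
    (hH : IsSkew σ H) {τ : (GL (Fin a) E × GL (Fin b) E) →* Module.End ℂ W} (hτ : IsSmoothRep τ)
    {ω : unitary σ H →* Module.End ℂ S} (hω : IsSmoothRep ω)
    (β : IndJ h τ →ₗ[ℂ] S →ₗ[ℂ] ℂ) (hβ : InvForm σ H (indActJ h τ) ω β) :
    ∃ bx : GL (Fin N) E → (W →ₗ[ℂ] S →ₗ[ℂ] ℂ),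
      (∀ (x : GL (Fin N) E) (H₁ : Matrix (Fin a) (Fin a) E) (H₂ : Matrix (Fin b) (Fin b) E),
        IsSkew σ H₁ → IsSkew σ H₂ → GM σ H x = bmJ h H₁ 0 0 H₂ →
        ∀ (u₁ : unitary σ H₁) (u₂ : unitary σ H₂) (u : unitary σ H),
          x * (u : GL (Fin N) E) * x⁻¹ = pelJ h (u₁ : GL (Fin a) E) (u₂ : GL (Fin b) E) 0 →
          ∀ w s, bx x (τ ((u₁ : GL (Fin a) E), (u₂ : GL (Fin b) E)) w) (ω u s) = bx x w s) ∧
      (∀ (f : IndJ h τ) (s : S),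
        (∀ g, (upLJ h (GM σ H g)).det = 0 → (f : GL (Fin N) E → W) g = 0) →
        (∀ (x : GL (Fin N) E) (H₁ : Matrix (Fin a) (Fin a) E) (H₂ : Matrix (Fin b) (Fin b) E),
          IsSkew σ H₁ → IsSkew σ H₂ → GM σ H x = bmJ h H₁ 0 0 H₂ →
          bx x ((f : GL (Fin N) E → W) x) s = 0) → β f s = 0) ∧
      (∀ (x : GL (Fin N) E) (H₁ : Matrix (Fin a) (Fin a) E) (H₂ : Matrix (Fin b) (Fin b) E),
        IsSkew σ H₁ → IsSkew σ H₂ → GM σ H x = bmJ h H₁ 0 0 H₂ →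
        ∀ (p : GL (Fin a) E) (q : GL (Fin b) E) (u : unitary σ H), bx x = 0 →
          bx (pelJ h p q 0 * x * (u : GL (Fin N) E)) = 0) := sorry

/-- FIB for two forms at once: the family is linear in `β` (use one `fibJ` and `fibJ_add`,
`fibJ_smul`): needed in DIM. -/
theorem exists_fib_lin (hq : QuadDatum σ δ d) (h : a + b = N) {H : Matrix (Fin N) (Fin N) E}
    (hH : IsSkew σ H) {τ : (GL (Fin a) E × GL (Fin b) E) →* Module.End ℂ W} (hτ : IsSmoothRep τ)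
    {ω : unitary σ H →* Module.End ℂ S} (hω : IsSmoothRep ω) :
    ∃ bx : {β : IndJ h τ →ₗ[ℂ] S →ₗ[ℂ] ℂ // InvForm σ H (indActJ h τ) ω β} → GL (Fin N) E →
        (W →ₗ[ℂ] S →ₗ[ℂ] ℂ),
      (∀ β β' β'' (c : ℂ) x, β''.1 = β.1 + c • β'.1 → bx β'' x = bx β x + c • bx β' x) ∧
      ∀ β, (∀ (x : GL (Fin N) E) (H₁ : Matrix (Fin a) (Fin a) E) (H₂ : Matrix (Fin b) (Fin b) E),
        IsSkew σ H₁ → IsSkew σ H₂ → GM σ H x = bmJ h H₁ 0 0 H₂ →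
        ∀ (u₁ : unitary σ H₁) (u₂ : unitary σ H₂) (u : unitary σ H),
          x * (u : GL (Fin N) E) * x⁻¹ = pelJ h (u₁ : GL (Fin a) E) (u₂ : GL (Fin b) E) 0 →
          ∀ w s, bx β x (τ ((u₁ : GL (Fin a) E), (u₂ : GL (Fin b) E)) w) (ω u s) = bx β x w s) ∧
      (∀ (f : IndJ h τ) (s : S),
        (∀ g, (upLJ h (GM σ H g)).det = 0 → (f : GL (Fin N) E → W) g = 0) →
        (∀ (x : GL (Fin N) E) (H₁ : Matrix (Fin a) (Fin a) E) (H₂ : Matrix (Fin b) (Fin b) E),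
          IsSkew σ H₁ → IsSkew σ H₂ → GM σ H x = bmJ h H₁ 0 0 H₂ →
          bx β x ((f : GL (Fin N) E → W) x) s = 0) → β.1 f s = 0) ∧
      (∀ (x : GL (Fin N) E) (H₁ : Matrix (Fin a) (Fin a) E) (H₂ : Matrix (Fin b) (Fin b) E),
        IsSkew σ H₁ → IsSkew σ H₂ → GM σ H x = bmJ h H₁ 0 0 H₂ →
        ∀ (p : GL (Fin a) E) (q : GL (Fin b) E) (u : unitary σ H), bx β x = 0 →
          bx β (pelJ h p q 0 * x * (u : GL (Fin N) E)) = 0) := sorry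

/-! ### MACKEY (helper78 middle strata, helper60 closed stratum, helper97 assembly) -/

/-- The general statement: `A` cuspidal. -/
theorem mackey (hq : QuadDatum σ δ d) (hm : 0 < m) (h : m + b = N) (hb : b - m + m = b)
    {H : Matrix (Fin N) (Fin N) E} (hH : IsSkew σ H) (hψ : Continuous ψ) (hψ1 : ψ ≠ 1)
    (hμ : ConjSymplectic F μ) {ρ : (Fin N → E) → Module.End ℂ S}
    {ω : unitary σ H →* Module.End ℂ S} (hW : IsWeil σ H ψ μ ρ ω)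
    {A : GL (Fin m) E →* Module.End ℂ V₁} (hA : IsSmoothRep A) (hAc : IsCusp A)
    {B : GL (Fin b) E →* Module.End ℂ V₂} (hB : IsSmoothRep B) (s t : ℝ)
    (z : Eˣ) {cA : ℂ}
    (hcA : ∀ v, A (Matrix.GeneralLinearGroup.scalar (Fin m) z) v = cA • v)
    (Z : GL (Fin b) E)
    (hZ : Z = pelJ hb 1 (Matrix.GeneralLinearGroup.scalar (Fin m)
      (Units.map (σ : E →* E) z)⁻¹) 0) {c₁ c₂ : ℂ}
    (hB2 : ∀ v, B Z (B Z v) - (c₁ + c₂) • B Z v + (c₁ * c₂) • v ∈ cvN B (Nk b (b - m) E) ⊤)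
    (hc₁ : ‖cA‖ * ‖c₁‖ * absE z ^ ((m : ℝ) * s - (m : ℝ) * t) ≠
      absE z ^ ((m : ℝ) * (b : ℝ) - (m : ℝ) / 2))
    (hc₂ : ‖cA‖ * ‖c₂‖ * absE z ^ ((m : ℝ) * s - (m : ℝ) * t) ≠
      absE z ^ ((m : ℝ) * (b : ℝ) - (m : ℝ) / 2))
    (β : IndJ h (oten s t A B) →ₗ[ℂ] S →ₗ[ℂ] ℂ)
    (hβ : InvForm σ H (indActJ h (oten s t A B)) ω β)
    (hopen : ∀ f : IndJ h (oten s t A B),
      (∀ g, (upLJ h (GM σ H g)).det = 0 → (f : GL (Fin N) E → V₁ ⊗[ℂ] V₂) g = 0) →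
      ∀ s, β f s = 0) : β = 0 := sorry

/-- Mackey bound for `I` (order `(m, m)`). -/
theorem mackey_two (hq : QuadDatum σ δ d) (hm : 0 < m)
    {H : Matrix (Fin (2 * m)) (Fin (2 * m)) E} (hH : IsSkew σ H) (hψ : Continuous ψ) (hψ1 : ψ ≠ 1)
    (hμ : ConjSymplectic F μ) {ρ : (Fin (2 * m) → E) → Module.End ℂ S}
    {ω : unitary σ H →* Module.End ℂ S} (hW : IsWeil σ H ψ μ ρ ω)
    {π : GL (Fin m) E →* Module.End ℂ V} (hπ : IsSmoothRep π) (hirr : IsIrrRep π) (hc : IsCusp π)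
    (hu : UnitCentral π)
    (β : Ind (rho π (((m : ℝ) + 1) / 2)) →ₗ[ℂ] S →ₗ[ℂ] ℂ) (hβ : InvForm σ H (repI π) ω β)
    (hopen : ∀ f : Ind (rho π (((m : ℝ) + 1) / 2)),
      (∀ g, (upLJ (two_mul m).symm (GM σ H g)).det = 0 →
        (f : GL (Fin (2 * m)) E → V ⊗[ℂ] V) g = 0) → ∀ s, β f s = 0) : β = 0 := sorry

/-- Mackey bound for `κν × B`, `B` a subrepresentation of `I` (given by an injective equivariant
map `ι`). -/
theorem mackey_three (hq : QuadDatum σ δ d) (hm : 0 < m)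
    {H : Matrix (Fin (3 * m)) (Fin (3 * m)) E} (hH : IsSkew σ H) (hψ : Continuous ψ) (hψ1 : ψ ≠ 1)
    (hμ : ConjSymplectic F μ) {ρ : (Fin (3 * m) → E) → Module.End ℂ S}
    {ω : unitary σ H →* Module.End ℂ S} (hW : IsWeil σ H ψ μ ρ ω)
    {π : GL (Fin m) E →* Module.End ℂ V} (hπ : IsSmoothRep π) (hirr : IsIrrRep π) (hc : IsCusp π)
    (hu : UnitCentral π)
    {κ : GL (Fin m) E →* Module.End ℂ V₁} (hκ : IsSmoothRep κ) (hκc : IsCusp κ)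
    (hκu : UnitCentral κ) {B : GL (Fin (2 * m)) E →* Module.End ℂ W}
    (ι : W →ₗ[ℂ] Ind (rho π (((m : ℝ) + 1) / 2))) (hι : Function.Injective ι)
    (hιG : ∀ g w, ι (B g w) = repI π g (ι w))
    (β : IndJ (m12 m) (rKB κ B) →ₗ[ℂ] S →ₗ[ℂ] ℂ)
    (hβ : InvForm σ H (indActJ (m12 m) (rKB κ B)) ω β)
    (hopen : ∀ f : IndJ (m12 m) (rKB κ B),
      (∀ g, (upLJ (m12 m) (GM σ H g)).det = 0 →
        (f : GL (Fin (3 * m)) E → V₁ ⊗[ℂ] W) g = 0) → ∀ s, β f s = 0) : β = 0 := sorry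

/-! ### DIM (helper72) -/

theorem dim_exists (hq : QuadDatum σ δ d) (hm : 0 < m) (hψ : Continuous ψ) (hψ1 : ψ ≠ 1)
    (hμ : ConjSymplectic F μ)
    {π : GL (Fin m) E →* Module.End ℂ V} (hπ : IsSmoothRep π) (hirr : IsIrrRep π) (hc : IsCusp π)
    (hu : UnitCentral π) (hMO : MOForm F σ π)
    {HZ : Matrix (Fin (2 * m)) (Fin (2 * m)) E} (hZ : IsSkew σ HZ)
    {ρ : (Fin (2 * m) → E) → Module.End ℂ S} {ω : unitary σ HZ →* Module.End ℂ S}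
    (hW : IsWeil σ HZ ψ μ ρ ω)
    (β : Ind (rho π (((m : ℝ) + 1) / 2)) →ₗ[ℂ] S →ₗ[ℂ] ℂ) (hβ : InvForm σ HZ (repI π) ω β)
    (hβ0 : β ≠ 0) :
    ∃ H₀ : Matrix (Fin m) (Fin m) E, IsSkew σ H₀ ∧
      ∃ (S₀ : Type) (_ : AddCommGroup S₀) (_ : Module ℂ S₀) (ρ₀ : (Fin m → E) → Module.End ℂ S₀)
        (ω₀ : unitary σ H₀ →* Module.End ℂ S₀) (β₀ : V →ₗ[ℂ] S₀ →ₗ[ℂ] ℂ),
        IsWeil σ H₀ ψ μ ρ₀ ω₀ ∧ InvForm σ H₀ π ω₀ β₀ ∧ β₀ ≠ 0 := sorry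

theorem dim_kill (hq : QuadDatum σ δ d) (hm : 0 < m) (hψ : Continuous ψ) (hψ1 : ψ ≠ 1)
    (hμ : ConjSymplectic F μ)
    {π : GL (Fin m) E →* Module.End ℂ V} (hπ : IsSmoothRep π) (hirr : IsIrrRep π) (hc : IsCusp π)
    (hu : UnitCentral π) (hMO : MOForm F σ π)
    {HZ : Matrix (Fin (2 * m)) (Fin (2 * m)) E} (hZ : IsSkew σ HZ)
    {ρ : (Fin (2 * m) → E) → Module.End ℂ S} {ω : unitary σ HZ →* Module.End ℂ S}
    (hW : IsWeil σ HZ ψ μ ρ ω)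
    (β : Ind (rho π (((m : ℝ) + 1) / 2)) →ₗ[ℂ] S →ₗ[ℂ] ℂ) (hβ : InvForm σ HZ (repI π) ω β)
    (hβ0 : β ≠ 0)
    {HZ' : Matrix (Fin (2 * m)) (Fin (2 * m)) E} (hZ' : IsSkew σ HZ')
    {ρ' : (Fin (2 * m) → E) → Module.End ℂ S'} {ω' : unitary σ HZ' →* Module.End ℂ S'}
    (hW' : IsWeil σ HZ' ψ μ ρ' ω')
    (β' : Ind (rho π (((m : ℝ) + 1) / 2)) →ₗ[ℂ] S' →ₗ[ℂ] ℂ) (hβ' : InvForm σ HZ' (repI π) ω' β')
    (D : Submodule ℂ (Ind (rho π (((m : ℝ) + 1) / 2)))) (hD : IsStab (repI π) D)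
    (hβD : ∀ f ∈ D, ∀ s, β f s = 0) : ∀ f ∈ D, ∀ s, β' f s = 0 := sorry

/-! ### CLOSED (helper54) -/

/-- `B` any representation of `GL_{2m}(E)` with a `P`-equivariant map `e₁` to
`|det a|^{(m+1)/2} |det d|^{-(m+1)/2} π(a) ⊗ π(d)` (for us: `B = I`, `e₁ = ev1`). -/
theorem exists_closed (hq : QuadDatum σ δ d) (hm : 0 < m) (hψ : Continuous ψ) (hψ1 : ψ ≠ 1)
    (hμ : ConjSymplectic F μ)
    {π : GL (Fin m) E →* Module.End ℂ V} (hπ : IsSmoothRep π) (hirr : IsIrrRep π) (hc : IsCusp π)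
    (hu : UnitCentral π)
    {H₀ : Matrix (Fin m) (Fin m) E} (hH₀ : IsSkew σ H₀)
    {ρ₀ : (Fin m → E) → Module.End ℂ S₀} {ω₀ : unitary σ H₀ →* Module.End ℂ S₀}
    (hW₀ : IsWeil σ H₀ ψ μ ρ₀ ω₀) (β₀ : V →ₗ[ℂ] S₀ →ₗ[ℂ] ℂ) (hβ₀ : InvForm σ H₀ π ω₀ β₀)
    (hβ₀0 : β₀ ≠ 0) {ρ : (Fin (3 * m) → E) → Module.End ℂ S}
    {ω : unitary σ (hyp3 (two_mul m).symm (m21 m) H₀) →* Module.End ℂ S}
    (hW : IsWeil σ (hyp3 (two_mul m).symm (m21 m) H₀) ψ μ ρ ω)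
    {B : GL (Fin (2 * m)) E →* Module.End ℂ W} (hB : IsSmoothRep B) (e₁ : W →ₗ[ℂ] V ⊗[ℂ] V)
    (he₁ : ∀ a d y w, e₁ (B (pel a d y) w) = rho π (((m : ℝ) + 1) / 2) (a, d) (e₁ w)) :
    ∃ βc : IndJ (m21 m) (rBK B (kap σ μ π)) →ₗ[ℂ] S →ₗ[ℂ] ℂ,
      InvForm σ (hyp3 (two_mul m).symm (m21 m) H₀)
        (indActJ (m21 m) (rBK B (kap σ μ π))) ω βc ∧
      ∀ D : Submodule ℂ W, IsStab B D → (∀ w : V ⊗[ℂ] V, ∃ f ∈ D, e₁ f = w) →
        ∃ (f : IndJ (m21 m) (rBK B (kap σ μ π))) (s : S),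
          (∀ g, (f : GL (Fin (3 * m)) E → W ⊗[ℂ] V) g ∈
            LinearMap.range (TensorProduct.map D.subtype (LinearMap.id (M := V) (R := ℂ)))) ∧
          βc f s ≠ 0 := sorry

/-! ### SWAP + COMM (helper45, helper41, helper16, helper64) -/

theorem exists_comm (hm : 0 < m) (h2 : (2 : E) ≠ 0) (ψE : AddChar E Circle) (hψE : Continuous ψE)
    (hψE1 : ψE ≠ 1)
    {π : GL (Fin m) E →* Module.End ℂ V} (hπ : IsSmoothRep π) (hirr : IsIrrRep π) (hc : IsCusp π)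
    (hu : UnitCentral π)
    {κ : GL (Fin m) E →* Module.End ℂ V₁} (hκ : IsSmoothRep κ) (hκirr : IsIrrRep κ)
    (hκc : IsCusp κ) (hκu : UnitCentral κ)
    {τ : GL (Fin (2 * m)) E →* Module.End ℂ W₀} (hτ : IsIrrRep τ)
    (q : Ind (rho π (((m : ℝ) + 1) / 2)) →ₗ[ℂ] W₀) (hq : Function.Surjective q)
    (hqG : ∀ g f, q (repI π g f) = τ g (q f)) :
    ∃ M : IndJ (m12 m) (rKB κ (repI π)) →ₗ[ℂ] IndJ (m21 m) (rBK (repI π) κ),
      (∀ g f, M (indActJ (m12 m) (rKB κ (repI π)) g f) =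
        indActJ (m21 m) (rBK (repI π) κ) g (M f)) ∧
      ∀ f : IndJ (m21 m) (rBK (repI π) κ),
        (∀ g, (f : GL (Fin (3 * m)) E → _) g ∈ LinearMap.range
          (TensorProduct.map (LinearMap.ker q).subtype (LinearMap.id (M := V₁) (R := ℂ)))) →
        ∃ f' : IndJ (m12 m) (rKB κ (repI π)),
          (∀ g, (f' : GL (Fin (3 * m)) E → _) g ∈ LinearMap.range
            (TensorProduct.map (LinearMap.id (M := V₁) (R := ℂ)) (LinearMap.ker q).subtype)) ∧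
          M f' = f := sorry

/-! ### PART 1 (helper28): the assembly -/

theorem part1 (hq : QuadDatum σ δ d) (hm : 0 < m) (hψ : Continuous ψ) (hψ1 : ψ ≠ 1)
    (hμ : ConjSymplectic F μ)
    {π : GL (Fin m) E →* Module.End ℂ V} (hπ : IsSmoothRep π) (hirr : IsIrrRep π) (hc : IsCusp π)
    (hu : UnitCentral π) (hMO : MOForm F σ π)
    {τ : GL (Fin (2 * m)) E →* Module.End ℂ W₀} (hτ : IsIrrRep τ)
    (q : Ind (rho π (((m : ℝ) + 1) / 2)) →ₗ[ℂ] W₀) (hqs : Function.Surjective q)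
    (hqG : ∀ g f, q (repI π g f) = τ g (q f))
    {HZ : Matrix (Fin (2 * m)) (Fin (2 * m)) E} (hZ : IsSkew σ HZ)
    {ρ : (Fin (2 * m) → E) → Module.End ℂ S} {ω : unitary σ HZ →* Module.End ℂ S}
    (hW : IsWeil σ HZ ψ μ ρ ω)
    (T : W₀ →ₗ[ℂ] S →ₗ[ℂ] ℂ) (hT : InvForm σ HZ τ ω T) : T = 0 := sorry

end SpW.P1Tasks
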