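import Pool.Agent.Work.MP_3615d2_al.P1.Svn
import Pool.Agent.Work.MP_3615d2_al.TensIrr

/-!
MP_3615d2_al, Part 1: the exterior tensor product of two irreducible smooth representations of
Heisenberg groups is an irreducible smooth representation.
-/

open scoped TensorProduct

namespace SpW.P1

open Pool.Agent.SpehH

section

variable {F : Type} [NontriviallyNormedField F] {W : Type} [AddCommGroup W] [Module F W]
  {S : Type} [AddCommGroup S] [Module ℂ S] {ψ : AddChar F Circle} {B : LinearMap.BilinForm F W}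
  {ρ : W → Module.End ℂ S}

/-- `ρ w` as a unit. -/
noncomputable def uRho (h : IsHeis ψ B ρ) (hB : B.IsAlt) (w : W) : (Module.End ℂ S)ˣ where
  val := ρ w
  inv := ρ (-w)
  val_inv := by
    ext s
    exact rho_rho_neg h hB w s
  inv_val := by
    ext s
    exact rho_neg_rho h hB w s

/-- The representation of the free group on `W`. -/
noncomputable def fRep (h : IsHeis ψ B ρ) (hB : B.IsAlt) : FreeGroup W →* Module.End ℂ S :=
  (Units.coeHom _).comp (FreeGroup.lift (uRho h hB))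

theorem fRep_of (h : IsHeis ψ B ρ) (hB : B.IsAlt) (w : W) : fRep h hB (FreeGroup.of w) = ρ w := by
  show ((FreeGroup.lift (uRho h hB) (FreeGroup.of w) : (Module.End ℂ S)ˣ) : Module.End ℂ S) = ρ w
  rw [FreeGroup.lift_apply_of]
  rfl

theorem fRep_of_inv (h : IsHeis ψ B ρ) (hB : B.IsAlt) (w : W) :
    fRep h hB (FreeGroup.of w)⁻¹ = ρ (-w) := by
  show ((FreeGroup.lift (uRho h hB) (FreeGroup.of w)⁻¹ : (Module.End ℂ S)ˣ) : Module.End ℂ S) =
    ρ (-w)
  rw [map_inv, FreeGroup.lift_apply_of]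
  rfl

theorem fRep_irr (h : IsHeis ψ B ρ) (hB : B.IsAlt) (hi : IsIrr ρ) : IsIrrRep (fRep h hB) where
  nontrivial := hi.1
  irr T hT := hi.2 T fun w v hv => by
    have := hT (FreeGroup.of w) v hv
    rwa [fRep_of] at this

theorem fRep_schur [IsUltrametricDist F] [ProperSpace F] [FiniteDimensional F W]
    (hψ : Continuous ψ) (h1 : ψ ≠ 1) (h : IsHeis ψ B ρ) (hB : B.IsAlt) (hn : B.Nondegenerate)
    (h2 : (2 : F) ≠ 0) (hi : IsIrr ρ) (T : Module.End ℂ S)
    (hT : ∀ g v, T (fRep h hB g v) = fRep h hB g (T v)) : ∃ c : ℂ, ∀ v, T v = c • v := by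
  obtain ⟨z, hz⟩ := schur hψ h1 hB hn h2 h hi (T := T) (fun w => by
    ext v
    have := hT (FreeGroup.of w) v
    rwa [fRep_of] at this)
  exact ⟨z, fun v => by rw [hz]; rfl⟩

end

section

variable {F : Type} [NontriviallyNormedField F] {W₁ W₂ : Type} [AddCommGroup W₁] [Module F W₁]
  [AddCommGroup W₂] [Module F W₂]
  {S₁ S₂ : Type} [AddCommGroup S₁] [Module ℂ S₁] [AddCommGroup S₂] [Module ℂ S₂]
  {ψ : AddChar F Circle} {B₁ : LinearMap.BilinForm F W₁} {B₂ : LinearMap.BilinForm F W₂}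
  {ρ₁ : W₁ → Module.End ℂ S₁} {ρ₂ : W₂ → Module.End ℂ S₂}

/-- The exterior tensor product is irreducible. -/
theorem tens_heis_irr [IsUltrametricDist F] [ProperSpace F] [FiniteDimensional F W₁]
    (hψ : Continuous ψ) (h1 : ψ ≠ 1) (h2 : (2 : F) ≠ 0)
    (hh₁ : IsHeis ψ B₁ ρ₁) (hB₁ : B₁.IsAlt) (hn₁ : B₁.Nondegenerate) (hi₁ : IsIrr ρ₁)
    (hh₂ : IsHeis ψ B₂ ρ₂) (hB₂ : B₂.IsAlt) (hi₂ : IsIrr ρ₂)
    (T : Submodule ℂ (S₁ ⊗[ℂ] S₂))
    (hT : ∀ w₁ w₂, ∀ x ∈ T, TensorProduct.map (ρ₁ w₁) (ρ₂ w₂) x ∈ T) : T = ⊥ ∨ T = ⊤ := by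
  have z₁ : ρ₁ 0 = LinearMap.id := hh₁.zero
  have z₂ : ρ₂ 0 = LinearMap.id := hh₂.zero
  have a₁ : ∀ g : FreeGroup W₁, ∀ x ∈ T, TensorProduct.map (fRep hh₁ hB₁ g) LinearMap.id x ∈ T := by
    intro g
    induction g using FreeGroup.induction_on with
    | C1 =>
      intro x hx
      rw [map_one]
      have : TensorProduct.map (1 : Module.End ℂ S₁) (LinearMap.id : S₂ →ₗ[ℂ] S₂) = LinearMap.id :=
        TensorProduct.map_id
      rw [this]
      exact hx
    | of w =>
      intro x hx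
      rw [fRep_of, ← z₂]
      exact hT w 0 x hx
    | inv_of w _ =>
      intro x hx
      rw [fRep_of_inv, ← z₂]
      exact hT (-w) 0 x hx
    | mul g g' hg hg' =>
      intro x hx
      have := hg _ (hg' x hx)
      rw [← LinearMap.comp_apply, ← TensorProduct.map_comp] at this
      rw [map_mul]
      exact this
  have a₂ : ∀ g : FreeGroup W₂, ∀ x ∈ T, TensorProduct.map LinearMap.id (fRep hh₂ hB₂ g) x ∈ T := by
    intro g
    induction g using FreeGroup.induction_on with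
    | C1 =>
      intro x hx
      rw [map_one]
      have : TensorProduct.map (LinearMap.id : S₁ →ₗ[ℂ] S₁) (1 : Module.End ℂ S₂) = LinearMap.id :=
        TensorProduct.map_id
      rw [this]
      exact hx
    | of w =>
      intro x hx
      rw [fRep_of, ← z₁]
      exact hT 0 w x hx
    | inv_of w _ =>
      intro x hx
      rw [fRep_of_inv, ← z₁]
      exact hT 0 (-w) x hx
    | mul g g' hg hg' =>
      intro x hx
      have := hg _ (hg' x hx)
      rw [← LinearMap.comp_apply, ← TensorProduct.map_comp] at this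
      rw [map_mul]
      exact this
  refine tens_irr (fRep_irr hh₁ hB₁ hi₁) (fRep_irr hh₂ hB₂ hi₂)
    (fRep_schur hψ h1 hh₁ hB₁ hn₁ h2 hi₁) T fun g g' x hx => ?_
  have := a₁ g _ (a₂ g' x hx)
  rw [← LinearMap.comp_apply, ← TensorProduct.map_comp] at this
  exact this

end

end SpW.P1
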