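import Pool.Agent.Work.MP_3615d2_al.HeisV

/-!
# Lemma V with another source of regular points, and the scalar of a lift on the coinvariants
-/

open scoped Matrix

namespace Pool.Agent.SpehH

section

variable {F : Type*} [NontriviallyNormedField F] {W : Type*} [AddCommGroup W] [Module F W]
  {S : Type*} [AddCommGroup S] [Module ℂ S]
  {ψ : AddChar F Circle} {B : LinearMap.BilinForm F W} {ρ : W → Module.End ℂ S}

/-- A point `ξ` is not in the support of `μ` if `μ` is fixed by `Om` and by the conjugate of `Om`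
by `Om'`. -/
theorem regular_conj [IsUltrametricDist F] {Y : Submodule F W} {n : ℕ} {e f : Fin n → W}
    {I₁ I : Set (Fin n)} {c : F} (hψ : Continuous ψ) (hc : IsCond ψ c) (hB : B.IsAlt)
    (h2 : (2 : F) ≠ 0) (h : IsHeis ψ B ρ) (hi : IsIrr ρ) (sb : IsSB B ⊥ Y e f I₁ I)
    (hfix : ∀ t : F, t ≠ 0 → ∃ v ≠ 0, IsFix ρ e f c t v) {μ : S →ₗ[ℂ] ℂ} {ξ : W}
    {u k : W ≃ₗ[F] W} {Om Om' : S ≃ₗ[ℂ] S} (hu : IsLift B ρ u Om) (hk : IsLift B ρ k Om')
    (hμu : ∀ v, μ (Om v) = μ v) (hμk : ∀ v, μ (Om'.symm (Om (Om' v))) = μ v)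
    (hu₂ : ∀ w, u w - w ∈ Y) (hu₃ : ∀ w, (∀ y ∈ Y, B w y = 0) → u w = w)
    (hkY : ∀ y ∈ Y, k.symm y ∈ Y)
    (hne : ψ (B (u (k ξ) - k ξ) (k ξ) / 2) ≠ ψ (B (u ξ - ξ) ξ / 2)) :
    ∃ t : F, t ≠ 0 ∧ ∀ v, IsEig ψ B ρ e I t ξ v → μ v = 0 := by
  classical
  obtain ⟨t₀, ht₀, hkey⟩ := key hψ hc hB h2 h hi sb hfix hu (by
    intro y hy
    rw [Submodule.mem_bot] at hy ⊢
    rw [hy, map_zero]) (fun w _ => hu₂ w) (fun w hw => by
    rw [hu₃ w hw, sub_self]
    exact Submodule.zero_mem _) {ξ, k ξ} (by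
    intro x _ y hy
    rw [Submodule.mem_bot] at hy
    rw [hy, map_zero])
  obtain ⟨χ, hχ⟩ := hkey t₀ le_rfl
  obtain ⟨C, hC0, hC⟩ := exists_bound (Finset.univ : Finset (Fin n × Fin n))
    fun p => ‖B (k.symm (e p.1)) (f p.2)‖
  obtain ⟨t, ht, ht'⟩ := exists_norm_ge F (max ‖t₀‖ (C * ‖t₀‖))
  refine ⟨t, ht, fun v hv => ?_⟩
  have e1 : IsEig ψ B ρ e I t₀ ξ v := fun a ha ha' =>
    hv a (ha.trans ((le_max_left _ _).trans ht')) ha'
  have e2 : IsEig ψ B ρ e I t₀ (k ξ) (Om' v) :=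
    eig_map sb hk hkY hC0 (fun i j => hC (i, j) (by simp)) ((le_max_right _ _).trans ht') hv
  have e3 := hχ ξ (by simp) v e1
  have e4 := hχ (k ξ) (by simp) _ e2
  rw [coK_bot h, Submodule.mem_bot, sub_eq_zero] at e3 e4
  have e5 := hμu v
  rw [e3, map_smul, smul_eq_mul] at e5
  have e6 := hμk v
  rw [e4, map_smul, LinearEquiv.symm_apply_apply, map_smul, smul_eq_mul] at e6
  by_contra h0
  have e7 : χ * ((ψ (B (u ξ - ξ) ξ / 2) : Circle) : ℂ) = 1 := by
    rwa [mul_eq_right₀ h0] at e5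
  have e8 : χ * ((ψ (B (u (k ξ) - k ξ) (k ξ) / 2) : Circle) : ℂ) = 1 := by
    rwa [mul_eq_right₀ h0] at e6
  apply hne
  have hχ0 : χ ≠ 0 := by
    rintro rfl
    rw [zero_mul] at e7
    exact zero_ne_one e7
  rw [← Circle.coe_inj]
  exact mul_left_cancel₀ hχ0 (e8.trans e7.symm)

/-- **Lemma V** with the vanishing at the points outside `Z` as hypothesis. -/
theorem lemmaVreg [IsUltrametricDist F] [ProperSpace F] [FiniteDimensional F W] (hψ : Continuous ψ)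
    (h1 : ψ ≠ 1) (hB : B.IsAlt) (hn : B.Nondegenerate) (h2 : (2 : F) ≠ 0) (h : IsHeis ψ B ρ)
    (hi : IsIrr ρ) {Y₁ Y Z : Submodule F W} (hY₁ : Y₁ ≤ Y)
    (hY : ∀ y ∈ Y, ∀ y' ∈ Y, B y y' = 0)
    {μ : S →ₗ[ℂ] ℂ} (hμ : ∀ y ∈ Y₁, ∀ v, μ (ρ y v) = μ v)
    (H : ∀ (n : ℕ) (e f : Fin n → W) (I₁ I : Set (Fin n)) (c : F), IsCond ψ c →
      IsSB B Y₁ Y e f I₁ I → (∀ t : F, t ≠ 0 → ∃ v ≠ 0, IsFix ρ e f c t v) →
      ∀ ξ : W, (∀ y ∈ Y₁, B ξ y = 0) → ξ ∉ Z →
        ∃ t : F, t ≠ 0 ∧ ∀ v, IsEig ψ B ρ e I t ξ v → μ v = 0) :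
    ∀ y ∈ Y, (∀ z ∈ Z, (∀ y' ∈ Y₁, B z y' = 0) → B y z = 0) → ∀ v, μ (ρ y v) = μ v := by
  classical
  intro y hy hyZ v
  obtain ⟨c, hc⟩ := exists_cond hψ h1
  have hc0 := norm_pos_iff.2 hc.1
  obtain ⟨n, e, f, I₁, I, sb⟩ := exists_sb hB hn h2 hY₁ hY
  have hfix : ∀ t : F, t ≠ 0 → ∃ v ≠ 0, IsFix ρ e f c t v := fun t ht =>
    exists_fix hψ hc hB h2 h hi.1 sb ht
  have hneg : ∀ x z, B x z = - B z x := fun x z => (hB.neg_eq z x).symm
  have fe : ∀ i j, B (f i) (e j) = if i = j then -1 else 0 := by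
    intro i j
    rw [hneg, sb.ef j i]
    by_cases hij : i = j
    · simp [hij]
    · rw [if_neg hij, if_neg fun h' : j = i => hij h'.symm, neg_zero]
  -- the vectors `e i`, `i ∈ I`
  set e' : Fin n → W := fun i => if i ∈ I then e i else 0 with he'
  have ee' : ∀ i j, B (e' i) (e' j) = 0 := by
    intro i j
    simp only [he']
    split_ifs <;> simp [sb.ee]
  have heY : ∀ i, e' i ∈ Y := by
    intro i
    simp only [he']
    split_ifs with hi'
    · rw [sb.Y]; exact Submodule.subset_span ⟨i, hi', rfl⟩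
    · exact Y.zero_mem
  have hlc : ∀ b : Fin n → F, (∀ i, i ∉ I → b i = 0) → lc e b = lc e' b := by
    intro b hb
    rw [lc, lc]
    refine Finset.sum_congr rfl fun i _ => ?_
    simp only [he']
    split_ifs with hi'
    · rfl
    · rw [hb i hi', zero_smul, zero_smul]
  have hlY : ∀ a : Fin n → F, lc e' a ∈ Y := fun a =>
    Y.sum_mem fun i _ => Y.smul_mem _ (heY i)
  set π : (Fin n → F) → Module.End ℂ S := fun a => ρ (lc e' a) with hπ
  have hπ0 : π 0 = 1 := by simp only [hπ]; rw [hv_lc_zero, h.zero]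
  have hπa : ∀ a a', π (a + a') = π a * π a' := by
    intro a a'
    simp only [hπ]
    rw [hv_lc_add, hv_mul h (hY _ (hlY a) _ (hlY a'))]
  have hcomm : ∀ a x, π a (ρ y x) = ρ y (π a x) := by
    intro a x
    simp only [hπ]
    rw [← Module.End.mul_apply, ← Module.End.mul_apply, hv_mul h (hY _ (hlY a) _ hy),
      hv_mul h (hY _ hy _ (hlY a)), add_comm]
  -- the coordinates of `y`
  set by' : Fin n → F := fun i => B y (f i) with hby
  have hye : ∀ i, B y (e i) = 0 := by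
    intro i
    rw [hneg]
    have : B (e i) y = 0 := by
      have hy' := hy
      rw [sb.Y] at hy'
      refine hv_bil_span (s := e '' I) ?_ hy'
      rintro z ⟨j, -, rfl⟩
      exact sb.ee i j
    rw [this, neg_zero]
  have hby0 : ∀ i, i ∉ I → by' i = 0 := by
    intro i hi'
    simp only [hby]
    rw [hneg]
    have : B (f i) y = 0 := by
      have hy' := hy
      rw [sb.Y] at hy'
      refine hv_bil_span (s := e '' I) ?_ hy'
      rintro z ⟨j, hj, rfl⟩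
      rw [fe, if_neg]
      rintro rfl
      exact hi' hj
    rw [this, neg_zero]
  have hyl : y = lc e' by' := by
    rw [← hlc _ hby0]
    have := sb.expand y
    simp only [hye, zero_smul, Finset.sum_const_zero, sub_zero] at this
    exact this
  -- the point of `W` attached to a character
  set ξ : (Fin n → F) → W := fun l => - ∑ i, (if i ∈ I then l i else 0) • f i with hξ
  have hξe : ∀ l, ∀ j ∈ I, B (ξ l) (e j) = l j := by
    intro l j hj
    simp only [hξ, map_neg, LinearMap.neg_apply, map_sum, LinearMap.sum_apply, map_smul,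
      LinearMap.smul_apply, fe, smul_eq_mul, mul_ite, mul_neg, mul_one, mul_zero,
      Finset.sum_ite_eq', Finset.mem_univ, if_true, hj, neg_neg]
  have hξl : ∀ l, ∀ b : Fin n → F, (∀ i, i ∉ I → b i = 0) → B (ξ l) (lc e b) = l ⬝ᵥ b := by
    intro l b hb
    rw [lc, map_sum, dotProduct]
    refine Finset.sum_congr rfl fun i _ => ?_
    rw [map_smul, smul_eq_mul]
    by_cases hi' : i ∈ I
    · rw [hξe l i hi', mul_comm]
    · rw [hb i hi', zero_mul, mul_zero]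
  have hclose : ∀ (l l' : Fin n → F) (T : F), T ≠ 0 → ‖l' - l‖ * ‖T‖ ≤ ‖c‖ → ∀ a : Fin n → F,
      ‖a‖ ≤ ‖T‖ → ψ (l' ⬝ᵥ a) = ψ (l ⬝ᵥ a) := by
    intro l l' T hT hl a ha
    have e1 : l' ⬝ᵥ a = l ⬝ᵥ a + (l' - l) ⬝ᵥ a := by rw [sub_dotProduct]; ring
    rw [e1, AddChar.map_add_eq_mul, (cond_iff_pi hc hT _).2 hl a ha, mul_one]
  -- the local statement
  have G : ∀ l : Fin n → F, ∃ T : F, T ≠ 0 ∧ ∀ l', ‖l' - l‖ * ‖T‖ ≤ ‖c‖ → ∀ t : F, ‖T‖ ≤ ‖t‖ →
      ∀ x, (∀ a, ‖a‖ ≤ ‖t‖ → π a x = ((ψ (l' ⬝ᵥ a) : Circle) : ℂ) • x) → μ (ρ y x) = μ x := by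
    intro l
    by_cases hl : ∃ i ∈ I₁, l i ≠ 0
    · obtain ⟨i, hiI, hli⟩ := hl
      obtain ⟨T, hT⟩ := NormedField.exists_lt_norm F (‖c‖ / ‖l i‖)
      have hT0 : T ≠ 0 := norm_pos_iff.1 (lt_of_le_of_lt (by positivity) hT)
      refine ⟨T, hT0, fun l' hl' t ht x hx => ?_⟩
      have h3 : ¬ ∀ a : F, ‖a‖ ≤ ‖T‖ → ψ (l i * a) = 1 := by
        rw [cond_iff hc hT0]
        rw [div_lt_iff₀ (norm_pos_iff.2 hli)] at hT
        rw [not_le, mul_comm]
        exact hT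
      push Not at h3
      obtain ⟨α, hα, hα'⟩ := h3
      have h4 : ψ (l' ⬝ᵥ Pi.single i α) ≠ 1 := by
        rw [hclose l l' T hT0 hl' _ (by rwa [Pi.norm_single]), dotProduct_single]
        exact hα'
      have hy1 : lc e' (Pi.single i α) ∈ Y₁ := by
        rw [hv_lc_single]
        simp only [he', if_pos (sb.sub hiI)]
        refine Y₁.smul_mem _ ?_
        rw [sb.Y₁]
        exact Submodule.subset_span ⟨i, hiI, rfl⟩
      have h5 : ∀ z, π (Pi.single i α) z = ((ψ (l' ⬝ᵥ Pi.single i α) : Circle) : ℂ) • z →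
          μ z = 0 := by
        intro z hz
        have h6 := hμ _ hy1 z
        rw [show ρ (lc e' (Pi.single i α)) z = π (Pi.single i α) z from rfl, hz, map_smul,
          smul_eq_mul] at h6
        have h7 : (((ψ (l' ⬝ᵥ Pi.single i α) : Circle) : ℂ) - 1) * μ z = 0 := by
          rw [sub_mul, h6, one_mul, sub_self]
        refine (mul_eq_zero.1 h7).resolve_left (sub_ne_zero.2 fun h8 => h4 ?_)
        exact Circle.ext (by simpa using h8)
      have hαt : ‖(Pi.single i α : Fin n → F)‖ ≤ ‖t‖ := by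
        rw [Pi.norm_single]; exact hα.trans ht
      rw [h5 x (hx _ hαt), h5 (ρ y x)]
      rw [hcomm, hx _ hαt, map_smul]
    · push Not at hl
      have hξ1 : ∀ y' ∈ Y₁, B (ξ l) y' = 0 := by
        intro y' hy'
        rw [sb.Y₁] at hy'
        refine hv_bil_span (s := e '' I₁) ?_ hy'
        rintro z ⟨j, hj, rfl⟩
        rw [hξe l j (sb.sub hj), hl j hj]
      by_cases hξZ : ξ l ∈ Z
      · obtain ⟨T, hT⟩ := NormedField.exists_lt_norm F ‖by'‖
        have hT0 : T ≠ 0 := norm_pos_iff.1 (lt_of_le_of_lt (norm_nonneg _) hT)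
        refine ⟨T, hT0, fun l' hl' t ht x hx => ?_⟩
        have h3 : ρ y x = x := by
          have h4 := hx by' (hT.le.trans ht)
          rw [hclose l l' T hT0 hl' by' hT.le, ← hξl l by' hby0, hlc _ hby0, ← hyl, hneg,
            hyZ _ hξZ hξ1, neg_zero, AddChar.map_zero_eq_one, Circle.coe_one, one_smul] at h4
          simp only [hπ] at h4
          rwa [← hyl] at h4
        rw [h3]
      · obtain ⟨T, hT0, hT⟩ := H n e f I₁ I c hc sb hfix (ξ l) hξ1 hξZ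
        refine ⟨T, hT0, fun l' hl' t ht x hx => ?_⟩
        have h5 : ∀ z, (∀ a, ‖a‖ ≤ ‖t‖ → π a z = ((ψ (l' ⬝ᵥ a) : Circle) : ℂ) • z) →
            μ z = 0 := by
          intro z hz
          refine hT z fun b hb hb' => ?_
          rw [hξl l b hb', hlc b hb', ← hclose l l' T hT0 hl' b hb]
          exact hz b (hb.trans ht)
        rw [h5 x hx, h5 (ρ y x)]
        intro a ha
        rw [hcomm, hx a ha, map_smul]
  choose T hT0 hT using G
  -- compactness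
  obtain ⟨s, hs0, hs⟩ := hv_exists_stab h e' ee' v
  have hs' := norm_pos_iff.2 hs0
  have hK : IsCompact (Metric.closedBall (0 : Fin n → F) (‖c‖ / ‖s‖)) :=
    isCompact_closedBall _ _
  obtain ⟨L, -, hL⟩ := hK.elim_nhds_subcover (fun l => {l' | ‖l' - l‖ * ‖T l‖ ≤ ‖c‖})
    fun l _ => by
      have hTl := norm_pos_iff.2 (hT0 l)
      refine Filter.mem_of_superset (Metric.ball_mem_nhds l (div_pos hc0 hTl)) fun l' hl' => ?_
      rw [Metric.mem_ball, dist_eq_norm, lt_div_iff₀ hTl] at hl'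
      exact hl'.le
  obtain ⟨t, ht⟩ := NormedField.exists_lt_norm F (∑ l ∈ L, ‖T l‖)
  have ht0 : t ≠ 0 := norm_pos_iff.1 (lt_of_le_of_lt (Finset.sum_nonneg fun _ _ =>
    norm_nonneg _) ht)
  have hfin := exists_eigen hψ hc hπ0 hπa hs0 ht0 hs
  revert hfin
  generalize hG : {x | x ∈ Submodule.span ℂ {z | ∃ a, ‖a‖ ≤ ‖t‖ ∧ z = (π a) v} ∧
    ∃ l : Fin n → F, ‖l‖ * ‖s‖ ≤ ‖c‖ ∧ ∀ a : Fin n → F, ‖a‖ ≤ ‖t‖ →
      (π a) x = ((ψ (l ⬝ᵥ a) : Circle) : ℂ) • x} = G₀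
  have hall : ∀ x ∈ Submodule.span ℂ G₀, μ (ρ y x) = μ x := ?_
  · exact fun hv => hall v hv
  intro x hx
  rw [← hG] at hx
  induction hx using Submodule.span_induction with
  | mem x hx =>
    obtain ⟨-, l', hl', hx⟩ := hx
    have h3 : l' ∈ Metric.closedBall (0 : Fin n → F) (‖c‖ / ‖s‖) := by
      rw [mem_closedBall_zero_iff, le_div_iff₀ hs']
      exact hl'
    obtain ⟨l, hlL, hl⟩ := Set.mem_iUnion₂.1 (hL h3)
    refine hT l l' hl t ?_ x hx
    exact (Finset.single_le_sum (fun l _ => norm_nonneg (T l)) hlL).trans ht.le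
  | zero => simp
  | add x z _ _ hx hz => rw [map_add, map_add, map_add, hx, hz]
  | smul a x _ hx => rw [map_smul, map_smul, map_smul, hx]

end


section

variable {F : Type*} [NontriviallyNormedField F] {W : Type*} [AddCommGroup W] [Module F W]
  {S : Type*} [AddCommGroup S] [Module ℂ S]
  {ψ : AddChar F Circle} {B : LinearMap.BilinForm F W} {ρ : W → Module.End ℂ S}

/-- A lift of `u` which acts trivially on `Y^⊥ / Y` acts by a scalar on the coinvariants. -/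
theorem exists_scalar [IsUltrametricDist F] [ProperSpace F] [FiniteDimensional F W]
    (hψ : Continuous ψ) (h1 : ψ ≠ 1) (hB : B.IsAlt) (hn : B.Nondegenerate) (h2 : (2 : F) ≠ 0)
    (h : IsHeis ψ B ρ) (hi : IsIrr ρ) {Y : Submodule F W}
    (hY : ∀ y ∈ Y, ∀ y' ∈ Y, B y y' = 0) {u : W ≃ₗ[F] W} {Om : S ≃ₗ[ℂ] S}
    (hu : IsLift B ρ u Om) (hu₁ : ∀ y ∈ Y, u y ∈ Y)
    (hu₂ : ∀ w, (∀ y ∈ Y, B w y = 0) → u w - w ∈ Y) :
    ∃ χ : ℂ, ∀ μ : S →ₗ[ℂ] ℂ, (∀ y ∈ Y, ∀ v, μ (ρ y v) = μ v) → ∀ v, μ (Om v) = χ * μ v := by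
  classical
  obtain ⟨c, hc⟩ := exists_cond hψ h1
  obtain ⟨n, e, f, I₁, I, sb⟩ := exists_sb hB hn h2 (le_refl Y) hY
  have hfix : ∀ t : F, t ≠ 0 → ∃ v ≠ 0, IsFix ρ e f c t v := fun t ht =>
    exists_fix hψ hc hB h2 h hi.1 sb ht
  obtain ⟨t, ht, hkey⟩ := key hψ hc hB h2 h hi sb hfix hu hu₁ hu₂ hu₂ {0} (by
    intro x hx y _
    rw [Finset.mem_singleton] at hx
    rw [hx, map_zero, LinearMap.zero_apply])
  obtain ⟨χ, hχ⟩ := hkey t le_rfl
  refine ⟨χ, fun μ hμ v => ?_⟩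
  have hχ' : ∀ x, (∀ a : Fin n → F, ‖a‖ ≤ ‖t‖ → (∀ i, i ∉ I → a i = 0) → ρ (lc e a) x = x) →
      μ (Om x) = χ * μ x := by
    intro x hx
    have h3 := hχ 0 (by simp) x (fun a ha haI => by
      rw [hx a ha haI, map_zero, LinearMap.zero_apply, AddChar.map_zero_eq_one, Circle.coe_one,
        one_smul])
    have h4 := map_eq_zero_of_mem_coK hμ h3
    rw [map_zero, zero_div, AddChar.map_zero_eq_one, Circle.coe_one, mul_one,
      map_sub, map_smul, smul_eq_mul, sub_eq_zero] at h4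
    exact h4
  -- the vectors `e i`, `i ∈ I`
  set e' : Fin n → W := fun i => if i ∈ I then e i else 0 with he'
  have ee' : ∀ i j, B (e' i) (e' j) = 0 := by
    intro i j
    simp only [he']
    split_ifs <;> simp [sb.ee]
  have heY : ∀ i, e' i ∈ Y := by
    intro i
    simp only [he']
    split_ifs with hi'
    · rw [sb.Y]; exact Submodule.subset_span ⟨i, hi', rfl⟩
    · exact Y.zero_mem
  have hlc : ∀ b : Fin n → F, (∀ i, i ∉ I → b i = 0) → lc e b = lc e' b := by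
    intro b hb
    rw [lc, lc]
    refine Finset.sum_congr rfl fun i _ => ?_
    simp only [he']
    split_ifs with hi'
    · rfl
    · rw [hb i hi', zero_smul, zero_smul]
  have hlY : ∀ a : Fin n → F, lc e' a ∈ Y := fun a =>
    Y.sum_mem fun i _ => Y.smul_mem _ (heY i)
  set π : (Fin n → F) → Module.End ℂ S := fun a => ρ (lc e' a) with hπ
  have hπ0 : π 0 = 1 := by simp only [hπ]; rw [hv_lc_zero, h.zero]
  have hπa : ∀ a a', π (a + a') = π a * π a' := by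
    intro a a'
    simp only [hπ]
    rw [hv_lc_add, hv_mul h (hY _ (hlY a) _ (hlY a'))]
  obtain ⟨s, hs0, hs⟩ := hv_exists_stab h e' ee' v
  have hfin := exists_eigen hψ hc hπ0 hπa hs0 ht hs
  revert hfin
  generalize hG : {x | x ∈ Submodule.span ℂ {z | ∃ a, ‖a‖ ≤ ‖t‖ ∧ z = (π a) v} ∧
    ∃ l : Fin n → F, ‖l‖ * ‖s‖ ≤ ‖c‖ ∧ ∀ a : Fin n → F, ‖a‖ ≤ ‖t‖ →
      (π a) x = ((ψ (l ⬝ᵥ a) : Circle) : ℂ) • x} = G₀
  have hall : ∀ x ∈ Submodule.span ℂ G₀, μ (Om x) = χ * μ x := ?_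
  · exact fun hv => hall v hv
  intro x hx
  rw [← hG] at hx
  induction hx using Submodule.span_induction with
  | mem x hx =>
    obtain ⟨-, l, -, hx⟩ := hx
    by_cases hl : ∀ a : Fin n → F, ‖a‖ ≤ ‖t‖ → ψ (l ⬝ᵥ a) = 1
    · refine hχ' x fun a ha haI => ?_
      have h3 := hx a ha
      rw [hl a ha, Circle.coe_one, one_smul] at h3
      rw [hlc a haI]
      exact h3
    · push Not at hl
      obtain ⟨a, ha, hla⟩ := hl
      have h3 : ρ (lc e' a) x = ((ψ (l ⬝ᵥ a) : Circle) : ℂ) • x := hx a ha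
      have hne : ((ψ (l ⬝ᵥ a) : Circle) : ℂ) - 1 ≠ 0 :=
        sub_ne_zero.2 fun h8 => hla (Circle.ext (by simpa using h8))
      have h4 : μ x = 0 := by
        have h5 := hμ _ (hlY a) x
        rw [h3, map_smul, smul_eq_mul] at h5
        have h6 : (((ψ (l ⬝ᵥ a) : Circle) : ℂ) - 1) * μ x = 0 := by
          rw [sub_mul, h5, one_mul, sub_self]
        exact (mul_eq_zero.1 h6).resolve_left hne
      have h5 : μ (Om x) = 0 := by
        have h6 := hμ _ (hu₁ _ (hlY a)) (Om x)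
        rw [← hu.lift, h3, map_smul, map_smul, smul_eq_mul] at h6
        have h7 : (((ψ (l ⬝ᵥ a) : Circle) : ℂ) - 1) * μ (Om x) = 0 := by
          rw [sub_mul, h6, one_mul, sub_self]
        exact (mul_eq_zero.1 h7).resolve_left hne
      rw [h4, h5, mul_zero]
  | zero => simp
  | add x z _ _ hx hz => rw [map_add, map_add, map_add, hx, hz, mul_add]
  | smul a x _ hx => rw [map_smul, map_smul, map_smul, hx, smul_eq_mul, smul_eq_mul]; ring

end

end Pool.Agent.SpehH
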